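import Pool.Agent.H63.TW.Defs
import Pool.Agent.H63.VC3.Clausen

/-! # The critical point -/

namespace Pool.Agent.H63.TW

open Pool.Agent.H63.VC Pool.Agent.H63.VC3 Complex

/-! ### The function `LT` -/

lemma CritEx_re (v : ℂ) (h : |v.re| < 1 / 2) :
    (0 < (3 / 4 + v / 2 : ℂ).re ∧ (3 / 4 + v / 2 : ℂ).re < 1) ∧
      (0 < (3 / 4 - v / 2 : ℂ).re ∧ (3 / 4 - v / 2 : ℂ).re < 1) := by
  have h1 : (3 / 4 + v / 2 : ℂ).re = 3 / 4 + v.re / 2 := by
    simp [Complex.add_re]
  have h2 : (3 / 4 - v / 2 : ℂ).re = 3 / 4 - v.re / 2 := by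
    simp [Complex.sub_re]
  rw [h1, h2]
  have h3 := abs_lt.1 h
  refine ⟨⟨?_, ?_⟩, ?_, ?_⟩ <;> linarith [h3.1, h3.2]

lemma CritEx_conj (v : ℂ) (h : |v.re| < 1 / 2) :
    LT (-(starRingEnd ℂ) v) = -(starRingEnd ℂ) (LT v) := by
  obtain ⟨⟨a1, a2⟩, a3, a4⟩ := CritEx_re v h
  have e1 : (3 / 4 + -(starRingEnd ℂ) v / 2 : ℂ) = (starRingEnd ℂ) (3 / 4 - v / 2) := by
    simp only [map_sub, map_div₀, map_ofNat]
    ring
  have e2 : (3 / 4 - -(starRingEnd ℂ) v / 2 : ℂ) = (starRingEnd ℂ) (3 / 4 + v / 2) := by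
    simp only [map_add, map_div₀, map_ofNat]
    ring
  unfold LT
  rw [e1, e2, hh_conj _ a3 a4, hh_conj _ a1 a2, map_sub]
  ring

lemma CritEx_aux (a b c d : ℝ) : ((a : ℂ) * b - (c : ℂ) * d * I).re = a * b := by
  simp

lemma CritEx_cos_ne {v : ℂ} (h : |v.re| < 1 / 2) : Complex.cos (Real.pi * v) ≠ 0 := by
  have e : (Real.pi * v : ℂ) = ((Real.pi * v.re : ℝ) : ℂ) + ((Real.pi * v.im : ℝ) : ℂ) * I := by
    apply Complex.ext <;> simp
  have h3 := abs_lt.1 h
  have h4 : 0 < Real.cos (Real.pi * v.re) := by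
    apply Real.cos_pos_of_mem_Ioo
    constructor <;> nlinarith [Real.pi_pos, h3.1, h3.2]
  intro h0
  have h5 : (Complex.cos (Real.pi * v)).re = Real.cos (Real.pi * v.re) * Real.cosh (Real.pi * v.im) := by
    rw [e, Complex.cos_add_mul_I, ← Complex.ofReal_sin, ← Complex.ofReal_cosh, ← Complex.ofReal_cos,
      ← Complex.ofReal_sinh, CritEx_aux]
  rw [h0] at h5
  have h6 := Real.cosh_pos (Real.pi * v.im)
  have h7 : 0 < Real.cos (Real.pi * v.re) * Real.cosh (Real.pi * v.im) := by positivity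
  rw [← h5] at h7
  simp at h7

lemma CritEx_cos_norm (v : ℂ) (h : |v.re| ≤ 1 / 3) : 1 / 2 ≤ ‖Complex.cos (Real.pi * v)‖ := by
  have e : (Real.pi * v : ℂ) = ((Real.pi * v.re : ℝ) : ℂ) + ((Real.pi * v.im : ℝ) : ℂ) * I := by
    apply Complex.ext <;> simp
  have h4 : 1 / 2 ≤ Real.cos (Real.pi * v.re) := by
    rw [← Real.cos_abs, ← Real.cos_pi_div_three]
    apply Real.cos_le_cos_of_nonneg_of_le_pi (abs_nonneg _)
    · linarith [Real.pi_pos]
    · rw [abs_mul, abs_of_pos Real.pi_pos]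
      nlinarith [Real.pi_pos]
  have h5 : (Complex.cos (Real.pi * v)).re = Real.cos (Real.pi * v.re) * Real.cosh (Real.pi * v.im) := by
    rw [e, Complex.cos_add_mul_I, ← Complex.ofReal_sin, ← Complex.ofReal_cosh, ← Complex.ofReal_cos,
      ← Complex.ofReal_sinh, CritEx_aux]
  have h6 := Real.one_le_cosh (Real.pi * v.im)
  have h7 : 1 / 2 ≤ (Complex.cos (Real.pi * v)).re := by
    rw [h5]
    nlinarith
  exact h7.trans (Complex.re_le_norm _)

lemma CritEx_deriv (v : ℂ) (h : |v.re| < 1 / 2) :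
    HasDerivAt LT (-(Real.pi : ℂ) / Complex.cos (Real.pi * v)) v := by
  obtain ⟨⟨a1, a2⟩, a3, a4⟩ := CritEx_re v h
  have h1 : HasDerivAt (fun v : ℂ => hh (3 / 4 + v / 2))
      (Real.pi * Complex.cot (Real.pi * (3 / 4 + v / 2)) * (1 / 2)) v := by
    have h2 : HasDerivAt (fun v : ℂ => 3 / 4 + v / 2) (1 / 2) v := by
      simpa using ((hasDerivAt_id v).div_const 2).const_add (3 / 4 : ℂ)
    exact HasDerivAt.comp (h₂ := hh) (h := fun v : ℂ => 3 / 4 + v / 2) v
      (hh_hasDerivAt _ a1 a2) h2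
  have h3 : HasDerivAt (fun v : ℂ => hh (3 / 4 - v / 2))
      (Real.pi * Complex.cot (Real.pi * (3 / 4 - v / 2)) * (-(1 / 2))) v := by
    have h2 : HasDerivAt (fun v : ℂ => 3 / 4 - v / 2) (-(1 / 2)) v := by
      simpa using ((hasDerivAt_id v).div_const 2).const_sub (3 / 4 : ℂ)
    exact HasDerivAt.comp (h₂ := hh) (h := fun v : ℂ => 3 / 4 - v / 2) v
      (hh_hasDerivAt _ a3 a4) h2
  have h4 := h1.sub h3
  have h5 : Complex.sin (Real.pi * (3 / 4 + v / 2)) ≠ 0 := by
    intro h0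
    have := Complex.slitPlane_ne_zero (Clausen_slit _ a1 a2)
    rw [h0] at this
    simp at this
  have h6 : Complex.sin (Real.pi * (3 / 4 - v / 2)) ≠ 0 := by
    intro h0
    have := Complex.slitPlane_ne_zero (Clausen_slit _ a3 a4)
    rw [h0] at this
    simp at this
  have h7 := CritEx_cos_ne h
  have h8 : Complex.cos (Real.pi * v) = -(2 * (Complex.sin (Real.pi * (3 / 4 + v / 2)) *
      Complex.sin (Real.pi * (3 / 4 - v / 2)))) * -1 := by
    have e1 : (Real.pi * v : ℂ) = Real.pi * (3 / 4 + v / 2) - Real.pi * (3 / 4 - v / 2) := by ring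
    have e2 : Complex.cos (Real.pi * (3 / 4 + v / 2) + Real.pi * (3 / 4 - v / 2)) = 0 := by
      have e3 : (Real.pi * (3 / 4 + v / 2) + Real.pi * (3 / 4 - v / 2) : ℂ) =
          Real.pi / 2 + Real.pi := by ring
      rw [e3, Complex.cos_add_pi, Complex.cos_pi_div_two, neg_zero]
    rw [Complex.cos_add] at e2
    rw [e1, Complex.cos_sub]
    linear_combination e2
  have h9 : Complex.sin (Real.pi * (3 / 4 + v / 2)) * Complex.cos (Real.pi * (3 / 4 - v / 2)) +
      Complex.cos (Real.pi * (3 / 4 + v / 2)) * Complex.sin (Real.pi * (3 / 4 - v / 2)) = -1 := by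
    rw [← Complex.sin_add]
    have e3 : (Real.pi * (3 / 4 + v / 2) + Real.pi * (3 / 4 - v / 2) : ℂ) =
        Real.pi / 2 + Real.pi := by ring
    rw [e3, Complex.sin_add_pi, Complex.sin_pi_div_two]
  have e : (Real.pi * Complex.cot (Real.pi * (3 / 4 + v / 2)) * (1 / 2) -
      Real.pi * Complex.cot (Real.pi * (3 / 4 - v / 2)) * (-(1 / 2)) : ℂ) =
      -(Real.pi : ℂ) / Complex.cos (Real.pi * v) := by
    rw [eq_div_iff h7, Complex.cot, Complex.cot, h8]
    generalize (Real.pi * (3 / 4 + v / 2) : ℂ) = a at *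
    generalize (Real.pi * (3 / 4 - v / 2) : ℂ) = b at *
    field_simp
    linear_combination h9
  rw [e] at h4
  exact h4

lemma CritEx_zero : LT 0 = 0 := by
  unfold LT
  simp

/-- The convex domain. -/
def CritEx_K : Set ℂ := {v | |v.re| ≤ 1 / 3 ∧ |v.im| ≤ 7 / 100}

lemma CritEx_K_convex : Convex ℝ CritEx_K := by
  have h1 : CritEx_K = (Complex.reLm ⁻¹' Set.Icc (-(1 / 3)) (1 / 3)) ∩
      (Complex.imLm ⁻¹' Set.Icc (-(7 / 100)) (7 / 100)) := by
    ext v
    simp [CritEx_K, abs_le]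
  rw [h1]
  exact ((convex_Icc _ _).linear_preimage _).inter ((convex_Icc _ _).linear_preimage _)

lemma CritEx_lip {u v : ℂ} (hu : |u.re| ≤ 1 / 3) (hv : |v.re| ≤ 1 / 3) :
    ‖LT u - LT v‖ ≤ 2 * Real.pi * ‖u - v‖ := by
  have hc : Convex ℝ {v : ℂ | |v.re| ≤ 1 / 3} := by
    have h1 : {v : ℂ | |v.re| ≤ 1 / 3} = (Complex.reLm ⁻¹' Set.Icc (-(1 / 3)) (1 / 3)) := by
      ext v
      simp [abs_le]
    rw [h1]
    exact (convex_Icc _ _).linear_preimage _
  refine hc.norm_image_sub_le_of_norm_hasDerivWithin_le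
    (f := LT) (f' := fun v => -(Real.pi : ℂ) / Complex.cos (Real.pi * v)) ?_ ?_ hv hu
  · intro x hx
    have hx' : |x.re| ≤ 1 / 3 := hx
    exact (CritEx_deriv x (by linarith)).hasDerivWithinAt
  · intro x hx
    have hx' : |x.re| ≤ 1 / 3 := hx
    have h1 := CritEx_cos_norm x hx'
    rw [norm_div, norm_neg, Complex.norm_real, Real.norm_eq_abs, abs_of_pos Real.pi_pos,
      div_le_iff₀ (by linarith)]
    nlinarith [Real.pi_pos]

/-! ### The real part -/

lemma CritEx_aux2 (a b c d : ℝ) : ((a : ℂ) * b + (c : ℂ) * d * I).re = a * b := by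
  simp

lemma CritEx_aux3 (a b c d : ℝ) : ((a : ℂ) * b + (c : ℂ) * d * I).im = c * d := by
  simp

lemma CritEx_sin_re (z : ℂ) : (Complex.sin z).re = Real.sin z.re * Real.cosh z.im := by
  conv_lhs => rw [← Complex.re_add_im z, Complex.sin_add_mul_I, ← Complex.ofReal_sin,
    ← Complex.ofReal_cosh, ← Complex.ofReal_cos, ← Complex.ofReal_sinh, CritEx_aux2]

lemma CritEx_sin_im (z : ℂ) : (Complex.sin z).im = Real.cos z.re * Real.sinh z.im := by
  conv_lhs => rw [← Complex.re_add_im z, Complex.sin_add_mul_I, ← Complex.ofReal_sin,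
    ← Complex.ofReal_cosh, ← Complex.ofReal_cos, ← Complex.ofReal_sinh, CritEx_aux3]

lemma CritEx_normSq_sin (z : ℂ) :
    ‖2 * Complex.sin z‖ ^ 2 = 2 * (Real.cosh (2 * z.im) - Real.cos (2 * z.re)) := by
  have h1 : (Complex.sin z).re = Real.sin z.re * Real.cosh z.im := CritEx_sin_re z
  have h2 : (Complex.sin z).im = Real.cos z.re * Real.sinh z.im := CritEx_sin_im z
  rw [norm_mul, mul_pow, ← Complex.normSq_eq_norm_sq (Complex.sin z), Complex.normSq_apply, h1, h2,
    Real.cosh_two_mul, Real.cos_two_mul]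
  have h3 := Real.sin_sq_add_cos_sq z.re
  have h4 := Real.cosh_sq z.im
  have h5 : ‖(2 : ℂ)‖ = 2 := by simp
  rw [h5]
  have h6 : Real.sin z.re ^ 2 = 1 - Real.cos z.re ^ 2 := by linarith
  have h7 : Real.sin z.re * Real.cosh z.im * (Real.sin z.re * Real.cosh z.im) =
      (1 - Real.cos z.re ^ 2) * (Real.sinh z.im ^ 2 + 1) := by
    rw [← h6, ← h4]; ring
  rw [h7, h4]
  ring

lemma CritEx_exp (v : ℂ) (h : |v.re| < 1 / 2) :
    Real.exp (2 * (LT v).re) * (Real.cosh (Real.pi * v.im) + Real.sin (Real.pi * v.re)) =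
      Real.cosh (Real.pi * v.im) - Real.sin (Real.pi * v.re) := by
  obtain ⟨⟨a1, a2⟩, a3, a4⟩ := CritEx_re v h
  have b1 := Complex.slitPlane_ne_zero (Clausen_slit _ a1 a2)
  have b2 := Complex.slitPlane_ne_zero (Clausen_slit _ a3 a4)
  have h1 : (LT v).re = Real.log ‖2 * Complex.sin (Real.pi * (3 / 4 + v / 2))‖ -
      Real.log ‖2 * Complex.sin (Real.pi * (3 / 4 - v / 2))‖ := by
    unfold LT hh
    rw [Complex.sub_re, Complex.log_re, Complex.log_re]
  have h2 : Real.exp (2 * (LT v).re) = ‖2 * Complex.sin (Real.pi * (3 / 4 + v / 2))‖ ^ 2 /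
      ‖2 * Complex.sin (Real.pi * (3 / 4 - v / 2))‖ ^ 2 := by
    rw [h1, mul_sub, Real.exp_sub]
    congr 1
    · rw [mul_comm, Real.exp_mul, Real.exp_log (norm_pos_iff.2 b1)]
      norm_num
    · rw [mul_comm, Real.exp_mul, Real.exp_log (norm_pos_iff.2 b2)]
      norm_num
  have h3 : ‖2 * Complex.sin (Real.pi * (3 / 4 + v / 2))‖ ^ 2 =
      2 * (Real.cosh (Real.pi * v.im) - Real.sin (Real.pi * v.re)) := by
    rw [CritEx_normSq_sin]
    have e1 : 2 * (Real.pi * (3 / 4 + v / 2) : ℂ).im = Real.pi * v.im := by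
      simp
      ring
    have e2 : 2 * (Real.pi * (3 / 4 + v / 2) : ℂ).re = Real.pi * v.re + Real.pi / 2 + Real.pi := by
      simp
      ring
    rw [e1, e2, Real.cos_add_pi, Real.cos_add_pi_div_two]
    ring
  have h4 : ‖2 * Complex.sin (Real.pi * (3 / 4 - v / 2))‖ ^ 2 =
      2 * (Real.cosh (Real.pi * v.im) + Real.sin (Real.pi * v.re)) := by
    rw [CritEx_normSq_sin]
    have e1 : 2 * (Real.pi * (3 / 4 - v / 2) : ℂ).im = -(Real.pi * v.im) := by
      simp
      ring
    have e2 : 2 * (Real.pi * (3 / 4 - v / 2) : ℂ).re = -(Real.pi * v.re) + Real.pi / 2 + Real.pi := by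
      simp
      ring
    rw [e1, e2, Real.cos_add_pi, Real.cos_add_pi_div_two, Real.sin_neg, Real.cosh_neg]
    ring
  have h5 : ‖2 * Complex.sin (Real.pi * (3 / 4 - v / 2))‖ ^ 2 ≠ 0 :=
    pow_ne_zero 2 (norm_ne_zero_iff.2 b2)
  rw [h2, h3, h4]
  rw [h4] at h5
  have h6 : Real.cosh (Real.pi * v.im) + Real.sin (Real.pi * v.re) ≠ 0 := by
    intro h0
    apply h5
    rw [h0, mul_zero]
  field_simp

lemma CritEx_real (x : ℝ) (h : |x| < 1 / 2) : (LT (x : ℂ)).im = 0 := by
  have h3 := abs_lt.1 h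
  unfold LT
  have e1 : (3 / 4 + (x : ℂ) / 2) = ((3 / 4 + x / 2 : ℝ) : ℂ) := by push_cast; rfl
  have e2 : (3 / 4 - (x : ℂ) / 2) = ((3 / 4 - x / 2 : ℝ) : ℂ) := by push_cast; rfl
  rw [e1, e2, hh_real _ (by linarith [h3.1]) (by linarith [h3.2]),
    hh_real _ (by linarith [h3.2]) (by linarith [h3.1]), Complex.sub_im, Complex.ofReal_im,
    Complex.ofReal_im, sub_zero]

lemma CritEx_im_le (v : ℂ) (h : |v.re| ≤ 1 / 3) : |(LT v).im| ≤ 2 * Real.pi * |v.im| := by
  have h1 := CritEx_lip (u := v) (v := (v.re : ℂ)) h (by simpa using h)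
  have h2 := CritEx_real v.re (by linarith)
  have h3 : (LT v).im = (LT v - LT (v.re : ℂ)).im := by
    rw [Complex.sub_im, h2, sub_zero]
  have h4 : ‖v - (v.re : ℂ)‖ = |v.im| := by
    have : v - (v.re : ℂ) = (v.im : ℂ) * I := by
      apply Complex.ext <;> simp
    rw [this, norm_mul, Complex.norm_I, mul_one, Complex.norm_real, Real.norm_eq_abs]
  rw [h3, ← h4]
  exact (Complex.abs_im_le_norm _).trans h1

lemma CritEx_im_neg (v : ℂ) (h : |v.re| < 1 / 2) (hy : 0 < v.im) : (LT v).im < 0 := by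
  have h3 := abs_lt.1 h
  have hs : 0 < Real.sinh (Real.pi * v.im / 2) := by
    rw [Real.sinh_pos_iff]
    have := Real.pi_pos
    positivity
  have h1 : Complex.arg (2 * Complex.sin (Real.pi * (3 / 4 + v / 2))) < 0 := by
    rw [Complex.arg_neg_iff]
    have e1 : (2 * Complex.sin (Real.pi * (3 / 4 + v / 2))).im =
        2 * (Complex.sin (Real.pi * (3 / 4 + v / 2))).im := by
      simp
    have e2 : (Real.pi * (3 / 4 + v / 2) : ℂ).im = Real.pi * v.im / 2 := by
      simp
      ring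
    have e3 : (Real.pi * (3 / 4 + v / 2) : ℂ).re = Real.pi / 4 + Real.pi * v.re / 2 + Real.pi / 2 := by
      simp
      ring
    rw [e1, CritEx_sin_im, e2, e3, Real.cos_add_pi_div_two]
    have h4 : 0 < Real.sin (Real.pi / 4 + Real.pi * v.re / 2) := by
      apply Real.sin_pos_of_pos_of_lt_pi <;> nlinarith [Real.pi_pos, h3.1, h3.2]
    nlinarith [mul_pos h4 hs]
  have h2 : 0 ≤ Complex.arg (2 * Complex.sin (Real.pi * (3 / 4 - v / 2))) := by
    rw [Complex.arg_nonneg_iff]
    have e1 : (2 * Complex.sin (Real.pi * (3 / 4 - v / 2))).im =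
        2 * (Complex.sin (Real.pi * (3 / 4 - v / 2))).im := by
      simp
    have e2 : (Real.pi * (3 / 4 - v / 2) : ℂ).im = -(Real.pi * v.im / 2) := by
      simp
      ring
    have e3 : (Real.pi * (3 / 4 - v / 2) : ℂ).re = Real.pi / 4 - Real.pi * v.re / 2 + Real.pi / 2 := by
      simp
      ring
    rw [e1, CritEx_sin_im, e2, e3, Real.cos_add_pi_div_two, Real.sinh_neg]
    have h4 : 0 < Real.sin (Real.pi / 4 - Real.pi * v.re / 2) := by
      apply Real.sin_pos_of_pos_of_lt_pi <;> nlinarith [Real.pi_pos, h3.1, h3.2]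
    nlinarith [mul_pos h4 hs]
  have h5 : (LT v).im = Complex.arg (2 * Complex.sin (Real.pi * (3 / 4 + v / 2))) -
      Complex.arg (2 * Complex.sin (Real.pi * (3 / 4 - v / 2))) := by
    unfold LT hh
    rw [Complex.sub_im, Complex.log_im, Complex.log_im]
  rw [h5]
  linarith

/-! ### Bounds for the sine -/

lemma CritEx_sin_third (x : ℝ) (h : |x| ≤ 1 / 3) : |Real.sin (Real.pi * x)| ≤ 13 / 15 := by
  have h4 : 1 / 2 ≤ Real.cos (Real.pi * x) := by
    rw [← Real.cos_abs, ← Real.cos_pi_div_three]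
    apply Real.cos_le_cos_of_nonneg_of_le_pi (abs_nonneg _)
    · linarith [Real.pi_pos]
    · rw [abs_mul, abs_of_pos Real.pi_pos]
      nlinarith [Real.pi_pos]
  have h5 := Real.sin_sq_add_cos_sq (Real.pi * x)
  apply abs_le_of_sq_le_sq _ (by norm_num)
  nlinarith

lemma CritEx_sin_seven (x : ℝ) (h0 : x ≤ 0) (h : -(2 / 7) ≤ x) : -(4 / 5) ≤ Real.sin (Real.pi * x) := by
  have hp := Real.pi_lt_d4
  have hp0 := Real.pi_pos
  have h1 : Real.sin (Real.pi / 7) ≤ Real.sin (4488 / 10000) := by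
    apply Real.sin_le_sin_of_le_of_le_pi_div_two
    · linarith
    · linarith [Real.pi_gt_three]
    · linarith
  have h2 := abs_le.1 (Real.sin_bound (x := 4488 / 10000) (by rw [abs_of_pos] <;> norm_num))
  have h3 : Real.sin (4488 / 10000) ≤ 44 / 100 := by
    have := h2.2
    rw [abs_of_pos (by norm_num)] at this
    norm_num at this
    linarith
  have h4 : 0 ≤ Real.sin (Real.pi / 7) := by
    apply Real.sin_nonneg_of_nonneg_of_le_pi <;> linarith
  have h5 : 3 / 5 ≤ Real.cos (2 * (Real.pi / 7)) := by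
    rw [Real.cos_two_mul, Real.cos_sq']
    nlinarith
  have h6 : 3 / 5 ≤ Real.cos (Real.pi * x) := by
    refine h5.trans ?_
    rw [← Real.cos_neg (Real.pi * x)]
    apply Real.cos_le_cos_of_nonneg_of_le_pi
    · nlinarith
    · linarith
    · nlinarith
  have h7 := Real.sin_sq_add_cos_sq (Real.pi * x)
  have h8 : |Real.sin (Real.pi * x)| ≤ 4 / 5 := by
    apply abs_le_of_sq_le_sq _ (by norm_num)
    nlinarith
  exact (abs_le.1 h8).1

lemma CritEx_re_le (v : ℂ) (h : |v.re| < 1 / 2) {s B : ℝ} (hs : |Real.sin (Real.pi * v.re)| ≤ s)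
    (hs1 : s < 1) (hB : (1 + s) ≤ Real.exp (2 * B) * (1 - s)) : |(LT v).re| ≤ B := by
  have h1 := CritEx_exp v h
  have h2 := Real.one_le_cosh (Real.pi * v.im)
  set c := Real.cosh (Real.pi * v.im)
  set t := Real.sin (Real.pi * v.re)
  have h3 := abs_le.1 hs
  have hE := Real.exp_pos (2 * B)
  have h4 : 0 < c + t := by linarith [h3.1]
  have h5 : 0 < c - t := by linarith [h3.2]
  have h6 : c * s ≤ c * 1 := by nlinarith
  have hs0 : 0 ≤ s := (abs_nonneg _).trans hs
  have hB0 : 1 ≤ Real.exp (2 * B) := by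
    by_contra hc
    push Not at hc
    nlinarith
  have key : ∀ u : ℝ, |u| ≤ s → c + u ≤ Real.exp (2 * B) * (c - u) := by
    intro u hu
    have h7 := abs_le.1 hu
    have h8 : 0 ≤ (Real.exp (2 * B) + 1) * (s - u) := mul_nonneg (by linarith) (by linarith [h7.2])
    have h9 : 0 ≤ (Real.exp (2 * B) - 1) * (c - 1) := mul_nonneg (by linarith) (by linarith)
    nlinarith
  rw [abs_le]
  constructor
  · have h7 := key t hs
    rw [← h1] at h7
    have h8 : 1 ≤ Real.exp (2 * B) * Real.exp (2 * (LT v).re) := by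
      by_contra hc
      push Not at hc
      nlinarith
    rw [← Real.exp_add, ← Real.exp_zero, Real.exp_le_exp] at h8
    linarith
  · have h7 := key (-t) (by rwa [abs_neg])
    have h8 : Real.exp (2 * (LT v).re) ≤ Real.exp (2 * B) := by
      have h9 : Real.exp (2 * (LT v).re) * (c + t) ≤ Real.exp (2 * B) * (c + t) := by
        rw [h1]
        linarith
      exact le_of_mul_le_mul_right h9 h4
    rw [Real.exp_le_exp] at h8
    linarith

/-! ### The fixed point -/

/-- The map of the critical equation. -/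
noncomputable def CritEx_F (N : ℝ) (v : ℂ) : ℂ := -2 / N + I * LT v / (Real.pi * N)

lemma CritEx_F_re (N : ℝ) (v : ℂ) :
    (CritEx_F N v).re = -2 / N - (LT v).im / (Real.pi * N) := by
  have e : CritEx_F N v = ((-2 / N - (LT v).im / (Real.pi * N) : ℝ) : ℂ) +
      (((LT v).re / (Real.pi * N) : ℝ) : ℂ) * I := by
    unfold CritEx_F
    conv_lhs => rw [← Complex.re_add_im (LT v)]
    push_cast
    have : I * ((LT v).re + (LT v).im * I) = (LT v).re * I - (LT v).im := by
      linear_combination ((LT v).im : ℂ) * Complex.I_mul_I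
    rw [this]
    ring
  rw [e]
  simp [-Complex.ofReal_div, -Complex.ofReal_sub]

lemma CritEx_F_im (N : ℝ) (v : ℂ) : (CritEx_F N v).im = (LT v).re / (Real.pi * N) := by
  have e : CritEx_F N v = ((-2 / N - (LT v).im / (Real.pi * N) : ℝ) : ℂ) +
      (((LT v).re / (Real.pi * N) : ℝ) : ℂ) * I := by
    unfold CritEx_F
    conv_lhs => rw [← Complex.re_add_im (LT v)]
    push_cast
    have : I * ((LT v).re + (LT v).im * I) = (LT v).re * I - (LT v).im := by
      linear_combination ((LT v).im : ℂ) * Complex.I_mul_I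
    rw [this]
    ring
  rw [e]
  simp [-Complex.ofReal_div, -Complex.ofReal_sub]

lemma CritEx_exp3 : (14 : ℝ) ≤ Real.exp 3 := by
  have h1 := Real.exp_one_gt_d9
  have h2 : Real.exp 3 = Real.exp 1 ^ 3 := by
    rw [← Real.exp_nat_mul]
    norm_num
  rw [h2]
  have h3 : (2.7 : ℝ) ≤ Real.exp 1 := by linarith
  calc (14 : ℝ) ≤ 2.7 ^ 3 := by norm_num
    _ ≤ Real.exp 1 ^ 3 := pow_le_pow_left₀ (by norm_num) h3 3

lemma CritEx_exp22 : (9 : ℝ) ≤ Real.exp (2.199) := by
  have h1 := Real.exp_one_gt_d9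
  have h2 : Real.exp 2.199 = Real.exp 1 ^ 2 * Real.exp 0.199 := by
    rw [← Real.exp_nat_mul, ← Real.exp_add]
    norm_num
  have h3 : (2.718 : ℝ) ≤ Real.exp 1 := by linarith
  have h4 := Real.quadratic_le_exp_of_nonneg (x := 0.199) (by norm_num)
  rw [h2]
  calc (9 : ℝ) ≤ 2.718 ^ 2 * (1 + 0.199 + 0.199 ^ 2 / 2) := by norm_num
    _ ≤ Real.exp 1 ^ 2 * Real.exp 0.199 := by
      apply mul_le_mul (pow_le_pow_left₀ (by norm_num) h3 2) h4 (by norm_num) (by positivity)

lemma CritEx_fixed (N : ℝ) (hN : 7 ≤ N) :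
    ∃ v : ℂ, |v.re| ≤ 1 / 3 ∧ |v.im| ≤ 7 / 100 ∧ CritEx_F N v = v := by
  have hp := Real.pi_pos
  have hp3 := Real.pi_gt_d2
  have hpN : 0 < Real.pi * N := by positivity
  have hmaps : Set.MapsTo (CritEx_F N) CritEx_K CritEx_K := by
    intro v hv
    obtain ⟨h1, h2⟩ := hv
    have h3 := CritEx_im_le v h1
    have h4 := CritEx_re_le v (by linarith) (CritEx_sin_third v.re h1) (by norm_num)
      (B := 3 / 2) (by
        have := CritEx_exp3
        have e : (2 * (3 / 2) : ℝ) = 3 := by norm_num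
        rw [e]
        linarith)
    constructor
    · rw [CritEx_F_re]
      have h5 : |(LT v).im / (Real.pi * N)| ≤ 2 / 100 := by
        rw [abs_div, abs_of_pos hpN, div_le_iff₀ hpN]
        nlinarith
      have h6 : |-2 / N| ≤ 2 / 7 := by
        rw [abs_div, abs_of_pos (by linarith : 0 < N), div_le_iff₀ (by linarith)]
        norm_num
        linarith
      calc |-2 / N - (LT v).im / (Real.pi * N)| ≤ |-2 / N| + |(LT v).im / (Real.pi * N)| := abs_sub _ _
        _ ≤ 2 / 7 + 2 / 100 := add_le_add h6 h5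
        _ ≤ 1 / 3 := by norm_num
    · rw [CritEx_F_im, abs_div, abs_of_pos hpN, div_le_iff₀ hpN]
      nlinarith
  have hlip : LipschitzOnWith (2 / 7) (CritEx_F N) CritEx_K := by
    apply LipschitzOnWith.of_dist_le_mul
    intro u hu v hv
    rw [dist_eq_norm, dist_eq_norm]
    have h1 := CritEx_lip hu.1 hv.1
    have h2 : CritEx_F N u - CritEx_F N v = I * (LT u - LT v) / (Real.pi * N) := by
      unfold CritEx_F
      ring
    have h3 : ‖(Real.pi * N : ℂ)‖ = Real.pi * N := by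
      rw [← Complex.ofReal_mul, Complex.norm_real, Real.norm_eq_abs, abs_of_pos hpN]
    rw [h2, norm_div, norm_mul, Complex.norm_I, one_mul, h3, div_le_iff₀ hpN]
    have h4 : 0 ≤ ‖u - v‖ := norm_nonneg _
    have e : ((2 / 7 : NNReal) : ℝ) = 2 / 7 := by simp
    rw [e]
    calc ‖LT u - LT v‖ ≤ 2 * Real.pi * ‖u - v‖ := h1
      _ ≤ 2 / 7 * ‖u - v‖ * (Real.pi * N) := by
        have h5 : 0 ≤ Real.pi * ‖u - v‖ := by positivity
        nlinarith
  have hc : IsComplete CritEx_K := by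
    apply IsClosed.isComplete
    have h1 : IsClosed {v : ℂ | |v.re| ≤ 1 / 3} :=
      isClosed_le (continuous_abs.comp Complex.continuous_re) continuous_const
    have h2 : IsClosed {v : ℂ | |v.im| ≤ 7 / 100} :=
      isClosed_le (continuous_abs.comp Complex.continuous_im) continuous_const
    exact h1.inter h2
  have hcw : ContractingWith (2 / 7) (hmaps.restrict (CritEx_F N) CritEx_K CritEx_K) := by
    refine ⟨?_, ?_⟩
    · rw [← NNReal.coe_lt_coe]
      norm_num
    · exact hlip.mapsToRestrict hmaps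
  have h0 : (0 : ℂ) ∈ CritEx_K := by
    constructor <;> norm_num
  obtain ⟨v, hv, hf, -⟩ := hcw.exists_fixedPoint' hc hmaps h0 (edist_ne_top _ _)
  exact ⟨v, hv.1, hv.2, hf⟩

lemma CritEx_main (N : ℝ) (hN : 7 ≤ N) : ∃ v : ℂ,
    LT v + Real.pi * I * N * v + 2 * Real.pi * I = 0 ∧ 0 < v.im ∧ v.im ≤ 1 / 20 ∧ v.re < 0 ∧
      -v.re * N < 2 ∧ v.im < -v.re / 2 ∧ |v.re| < 1 / 2 := by
  obtain ⟨v, h1, h2, h3⟩ := CritEx_fixed N hN
  have hp := Real.pi_pos
  have hpN : 0 < Real.pi * N := by positivity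
  have hre := CritEx_F_re N v
  have him := CritEx_F_im N v
  rw [h3] at hre him
  have hN0 : (N : ℂ) ≠ 0 := by
    rw [Ne, Complex.ofReal_eq_zero]
    linarith
  have hpi0 : (Real.pi : ℂ) ≠ 0 := by
    rw [Ne, Complex.ofReal_eq_zero]
    exact hp.ne'
  have heq : LT v + Real.pi * I * N * v + 2 * Real.pi * I = 0 := by
    have h4 : v = -2 / N + I * LT v / (Real.pi * N) := by
      conv_lhs => rw [← h3]
      rfl
    have h5 : Real.pi * N * v = -2 * Real.pi + I * LT v := by
      conv_lhs => rw [h4]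
      field_simp
    linear_combination I * h5 + LT v * Complex.I_mul_I
  have hreN : N * v.re = -2 - (LT v).im / Real.pi := by
    rw [hre]
    field_simp
  have himN : Real.pi * N * v.im = (LT v).re := by
    rw [him]
    field_simp
  have hia := CritEx_im_le v h1
  have hib : |(LT v).im / Real.pi| ≤ 14 / 100 := by
    rw [abs_div, abs_of_pos hp, div_le_iff₀ hp]
    nlinarith
  have hib' := abs_le.1 hib
  have hx : v.re < 0 := by
    by_contra hc
    push Not at hc
    have : 0 ≤ N * v.re := by positivity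
    linarith [hib'.1]
  have habs : |v.re| < 1 / 2 := by linarith
  have hx3 := abs_le.1 h1
  have hy : 0 < v.im := by
    by_contra hc
    push Not at hc
    have h5 : (LT v).re ≤ 0 := by
      rw [← himN]
      exact mul_nonpos_of_nonneg_of_nonpos hpN.le hc
    have h6 := CritEx_exp v habs
    have h7 : Real.sin (Real.pi * v.re) < 0 := by
      apply Real.sin_neg_of_neg_of_neg_pi_lt <;> nlinarith [hx3.1]
    have h8 : Real.exp (2 * (LT v).re) ≤ 1 := by
      rw [Real.exp_le_one_iff]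
      linarith
    have h9 := Real.one_le_cosh (Real.pi * v.im)
    have h10 := CritEx_sin_third v.re h1
    have h11 := (abs_le.1 h10).1
    nlinarith
  have hneg := CritEx_im_neg v habs hy
  have hneg2 : (LT v).im / Real.pi < 0 := div_neg_of_neg_of_pos hneg hp
  have hlt : -v.re * N < 2 := by linarith
  have hnorm : ‖LT v‖ ≤ 2 * Real.pi * ‖v‖ := by
    have := CritEx_lip (u := v) (v := 0) h1 (by norm_num)
    rwa [CritEx_zero, sub_zero, sub_zero] at this
  have hvn : ‖v‖ ≤ -v.re + v.im := by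
    have := Complex.norm_le_abs_re_add_abs_im v
    rwa [abs_of_neg hx, abs_of_pos hy] at this
  have hslope : v.im < -v.re / 2 := by
    have h5 : Real.pi * N * v.im ≤ 2 * Real.pi * (-v.re + v.im) := by
      rw [himN]
      calc (LT v).re ≤ ‖LT v‖ := Complex.re_le_norm _
        _ ≤ 2 * Real.pi * ‖v‖ := hnorm
        _ ≤ _ := by
          apply mul_le_mul_of_nonneg_left hvn
          positivity
    have h6 : N * v.im ≤ 2 * (-v.re + v.im) := by
      have : Real.pi * (N * v.im) ≤ Real.pi * (2 * (-v.re + v.im)) := by linarith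
      exact le_of_mul_le_mul_left this hp
    nlinarith
  have h27 : -(2 / 7) ≤ v.re := by
    by_contra hc
    push Not at hc
    nlinarith
  have hile : v.im ≤ 1 / 20 := by
    have h5 := CritEx_sin_seven v.re hx.le h27
    have h6 : |Real.sin (Real.pi * v.re)| ≤ 4 / 5 := by
      have h7 : Real.sin (Real.pi * v.re) < 0 := by
        apply Real.sin_neg_of_neg_of_neg_pi_lt <;> nlinarith [hx3.1]
      rw [abs_of_neg h7]
      linarith
    have h8 := CritEx_re_le v habs h6 (by norm_num) (B := 2.199 / 2) (by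
      have := CritEx_exp22
      have e : (2 * (2.199 / 2) : ℝ) = 2.199 := by norm_num
      rw [e]
      linarith)
    have h9 := (abs_le.1 h8).2
    rw [← himN] at h9
    have hp4 := Real.pi_gt_d4
    by_contra hc
    push Not at hc
    nlinarith
  exact ⟨v, heq, hy, hile, hx, hlt, hslope, habs⟩

theorem crit_conj (p s : ℤ) (v : ℂ) (hc : CritT p s v) (h0 : |v.re| < 1 / 2) :
    CritT (-p) (-s) (-(starRingEnd ℂ) v) := by
  have hr : (-(starRingEnd ℂ) v).re = -v.re := by simp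
  have hi : (-(starRingEnd ℂ) v).im = v.im := by simp
  have hN : (4 * ((-p : ℤ) : ℝ) - ((-s : ℤ) : ℝ)) = -(4 * p - s) := by
    push_cast
    ring
  refine ⟨?_, ?_, ?_, ?_, ?_, ?_⟩
  · rw [CritEx_conj v h0]
    have h1 := congrArg (starRingEnd ℂ) hc.eq
    simp only [map_add, map_mul, map_sub, map_zero, Complex.conj_I, Complex.conj_ofReal,
      map_ofNat, map_intCast] at h1
    push_cast
    linear_combination -h1
  · rw [hi]
    exact hc.im_pos
  · rw [hi]
    exact hc.im_le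
  · rw [hr, hN, abs_neg, abs_neg]
    exact hc.re_lt
  · rw [hr, hN]
    have := hc.sgn
    linarith
  · rw [hr, hi, abs_neg]
    exact hc.slope

theorem crit_ex (p : ℤ) (hp : 2 ≤ |p|) : ∃ v : ℂ, CritT p 1 v := by
  rcases le_abs.1 hp with h | h
  · have h' : (2 : ℝ) ≤ p := by exact_mod_cast h
    obtain ⟨v, h1, h2, h3, h4, h5, h6, h7⟩ := CritEx_main (4 * p - 1) (by linarith)
    refine ⟨v, ?_, h2, h3, ?_, ?_, ?_⟩
    · push_cast at h1 ⊢
      exact h1
    · push_cast
      rw [abs_of_neg h4, abs_of_pos (by linarith)]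
      exact h5
    · push_cast
      nlinarith
    · rw [abs_of_neg h4]
      exact h6
  · have h' : (2 : ℝ) ≤ -p := by exact_mod_cast h
    obtain ⟨v, h1, h2, h3, h4, h5, h6, h7⟩ := CritEx_main (-(4 * p - 1)) (by linarith)
    have hr : (-(starRingEnd ℂ) v).re = -v.re := by simp
    have hi : (-(starRingEnd ℂ) v).im = v.im := by simp
    refine ⟨-(starRingEnd ℂ) v, ?_, ?_, ?_, ?_, ?_, ?_⟩
    · rw [CritEx_conj v h7]
      have h8 := congrArg (starRingEnd ℂ) h1
      simp only [map_add, map_mul, map_zero, Complex.conj_I, Complex.conj_ofReal,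
        map_ofNat] at h8
      push_cast at h8 ⊢
      linear_combination -h8
    · rw [hi]
      exact h2
    · rw [hi]
      exact h3
    · push_cast
      rw [hr, abs_neg, abs_of_neg h4, abs_of_neg (by linarith)]
      exact h5
    · push_cast
      rw [hr]
      nlinarith
    · rw [hr, hi, abs_neg, abs_of_neg h4]
      exact h6

theorem VT_conj (p s : ℤ) (v : ℂ) (h0 : |v.re| < 1 / 2) :
    VT (-p) (-s) (-(starRingEnd ℂ) v) = (starRingEnd ℂ) (VT p s v) := by
  have e1 : (3 / 4 + -(starRingEnd ℂ) v / 2 : ℂ) = (starRingEnd ℂ) (3 / 4 - v / 2) := by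
    simp only [map_sub, map_div₀, map_ofNat]
    ring
  have e2 : (3 / 4 - -(starRingEnd ℂ) v / 2 : ℂ) = (starRingEnd ℂ) (3 / 4 + v / 2) := by
    simp only [map_add, map_div₀, map_ofNat]
    ring
  unfold VT VU W0
  rw [e1, e2, ff_conj, ff_conj]
  simp only [map_add, map_mul, map_sub, map_div₀, map_pow, Complex.conj_I, Complex.conj_ofReal,
    map_ofNat, map_intCast]
  push_cast
  ring

end Pool.Agent.H63.TW
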