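import Pool.Agent.H63.TW.Defs

/-! # The elementary factors -/

namespace Pool.Agent.H63.TW

open Pool.Agent.H63.VC Pool.Agent.H63.VC3 Complex Filter Topology
open scoped BigOperators

/-- The constant in front of `1/M`. -/
private noncomputable def Gph_c (n : ℕ) : ℝ := bt n ^ 2 / 2 + (3 / 2 - (n : ℝ)) * bt n

private lemma Gph_eq (n M : ℕ) (hM : 1 ≤ M) (v : ℂ) :
    gph n M (lv n M v) = exp (M * (-(Real.pi * I / 2) * v ^ 2 + Real.pi * I / 8) +
      (Real.pi * I * ((1 - n / 2) * (v + 1 / 2) - bt n / 2) - Real.pi * I * (Gph_c n : ℂ) / M)) := by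
  have hM0 : (M : ℂ) ≠ 0 := by
    have : M ≠ 0 := by omega
    exact_mod_cast this
  unfold gph qp lv Gph_c bt
  congr 1
  push_cast
  field_simp
  ring

theorem gph_lim (n : ℕ) (hn : 2 ≤ n) (v0 : ℂ) (V : ℕ → ℂ) (hV : Tendsto V atTop (𝓝 v0)) :
    Tendsto (fun M : ℕ => gph n M (lv n M (V M)) *
      exp (-(M * (-(Real.pi * I / 2) * V M ^ 2 + Real.pi * I / 8)))) atTop
      (𝓝 (exp (Real.pi * I * ((1 - n / 2) * (v0 + 1 / 2) - bt n / 2)))) := by
  have hz : Tendsto (fun M : ℕ => Real.pi * I * (Gph_c n : ℂ) / (M : ℂ)) atTop (𝓝 0) := by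
    have h1 : Tendsto (fun M : ℕ => ((M : ℂ))⁻¹) atTop (𝓝 0) :=
      tendsto_inv_atTop_nhds_zero_nat (𝕜 := ℂ)
    have h2 := h1.const_mul (Real.pi * I * (Gph_c n : ℂ))
    rw [mul_zero] at h2
    exact h2
  have hl : Tendsto (fun M : ℕ => Real.pi * I * ((1 - n / 2) * (V M + 1 / 2) - bt n / 2) -
      Real.pi * I * (Gph_c n : ℂ) / (M : ℂ)) atTop
      (𝓝 (Real.pi * I * ((1 - n / 2) * (v0 + 1 / 2) - bt n / 2) - 0)) := by
    refine Tendsto.sub ?_ hz
    exact (((hV.add_const _).const_mul _).sub_const _).const_mul _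
  rw [sub_zero] at hl
  have he := (Complex.continuous_exp.tendsto _).comp hl
  refine he.congr' ?_
  filter_upwards [eventually_ge_atTop 1] with M hM
  rw [Gph_eq n M hM, ← Complex.exp_add]
  simp only [Function.comp]
  congr 1
  ring

theorem gph_bound (n : ℕ) (hn : 2 ≤ n) : ∃ C : ℝ, 0 < C ∧ ∀ M : ℕ, 1 ≤ M → ∀ v : ℂ,
    ‖v‖ ≤ 1 → ‖gph n M (lv n M v)‖ ≤
      C * Real.exp (M * (-(Real.pi * I / 2) * v ^ 2).re) := by
  refine ⟨Real.exp (Real.pi * |1 - (n : ℝ) / 2|), Real.exp_pos _, ?_⟩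
  intro M hM v hv
  rw [Gph_eq n M hM, Complex.norm_exp, ← Real.exp_add]
  apply Real.exp_le_exp.2
  have e1 : ((M : ℂ) * (-(Real.pi * I / 2) * v ^ 2 + Real.pi * I / 8) +
      (Real.pi * I * ((1 - n / 2) * (v + 1 / 2) - bt n / 2) -
        Real.pi * I * (Gph_c n : ℂ) / M)).re =
      M * (-(Real.pi * I / 2) * v ^ 2).re - Real.pi * (1 - (n : ℝ) / 2) * v.im := by
    have a1 : (M : ℂ) * (-(Real.pi * I / 2) * v ^ 2 + Real.pi * I / 8) +
      (Real.pi * I * ((1 - n / 2) * (v + 1 / 2) - bt n / 2) -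
        Real.pi * I * (Gph_c n : ℂ) / M) =
        ((M : ℝ) : ℂ) * (-(Real.pi * I / 2) * v ^ 2) +
        ((M * (Real.pi / 8) + Real.pi * ((1 - (n : ℝ) / 2) / 2 - bt n / 2) -
          Real.pi * Gph_c n / M : ℝ) : ℂ) * I +
        ((Real.pi * (1 - (n : ℝ) / 2) : ℝ) : ℂ) * (I * v) := by
      push_cast
      ring
    rw [a1, Complex.add_re, Complex.add_re, Complex.re_ofReal_mul, Complex.re_ofReal_mul,
      Complex.re_ofReal_mul]
    simp
    ring
  rw [e1]
  have h2 : |v.im| ≤ 1 := (Complex.abs_im_le_norm v).trans hv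
  have h3 : -(Real.pi * (1 - (n : ℝ) / 2) * v.im) ≤ Real.pi * |1 - (n : ℝ) / 2| := by
    calc -(Real.pi * (1 - (n : ℝ) / 2) * v.im) ≤ |Real.pi * (1 - (n : ℝ) / 2) * v.im| :=
          neg_le_abs _
      _ = Real.pi * |1 - (n : ℝ) / 2| * |v.im| := by
          rw [abs_mul, abs_mul, abs_of_pos Real.pi_pos]
      _ ≤ Real.pi * |1 - (n : ℝ) / 2| * 1 := by
          apply mul_le_mul_of_nonneg_left h2
          exact mul_nonneg Real.pi_pos.le (abs_nonneg _)
      _ = _ := mul_one _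
  linarith

private lemma Gph_arg (n M i : ℕ) (hM : 1 ≤ M) (v : ℂ) :
    Real.pi * (lv n M v + i + 1) / M = Real.pi * (v + 1 / 2) +
      ((Real.pi * (i + 1 - bt n) / M : ℝ) : ℂ) := by
  have hM0 : (M : ℂ) ≠ 0 := by
    have : M ≠ 0 := by omega
    exact_mod_cast this
  unfold lv
  push_cast
  field_simp
  ring

private lemma Gph_sin (v : ℂ) : sin (Real.pi * (v + 1 / 2)) = cos (Real.pi * v) := by
  have : Real.pi * (v + 1 / 2) = Real.pi * v + Real.pi / 2 := by ring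
  rw [this, Complex.sin_add_pi_div_two]

theorem BN_lim (n : ℕ) (hn : 2 ≤ n) (v0 : ℂ) (V : ℕ → ℂ) (hV : Tendsto V atTop (𝓝 v0)) :
    Tendsto (fun M : ℕ => BN n M (lv n M (V M))) atTop (𝓝 ((2 * cos (Real.pi * v0)) ^ (n - 2))) := by
  have h1 : ∀ i ∈ Finset.range (n - 2), Tendsto (fun M : ℕ => sn M (lv n M (V M) + i + 1)) atTop
      (𝓝 (2 * cos (Real.pi * v0))) := by
    intro i _
    have hz : Tendsto (fun M : ℕ => ((Real.pi * (i + 1 - bt n) / M : ℝ) : ℂ)) atTop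
        (𝓝 ((0 : ℝ) : ℂ)) := by
      apply (Complex.continuous_ofReal.tendsto _).comp
      have h1 : Tendsto (fun M : ℕ => ((M : ℝ))⁻¹) atTop (𝓝 0) :=
        tendsto_inv_atTop_nhds_zero_nat (𝕜 := ℝ)
      have h2 := h1.const_mul (Real.pi * (i + 1 - bt n))
      rw [mul_zero] at h2
      exact h2
    have h2 : Tendsto (fun M : ℕ => Real.pi * (V M + 1 / 2) +
        ((Real.pi * (i + 1 - bt n) / M : ℝ) : ℂ)) atTop
        (𝓝 (Real.pi * (v0 + 1 / 2) + ((0 : ℝ) : ℂ))) :=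
      ((hV.add_const _).const_mul _).add hz
    rw [Complex.ofReal_zero, add_zero] at h2
    have h3 := ((Complex.continuous_sin.tendsto _).comp h2).const_mul 2
    rw [Gph_sin] at h3
    refine h3.congr' ?_
    filter_upwards [eventually_ge_atTop 1] with M hM
    simp only [Function.comp, sn]
    rw [Gph_arg n M i hM]
  have h2 := tendsto_finsetProd (Finset.range (n - 2)) h1
  rw [Finset.prod_const, Finset.card_range] at h2
  exact h2

private lemma Gph_norm_sin (w : ℂ) : ‖sin w‖ ≤ Real.exp |w.im| := by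
  rw [Complex.sin, norm_div, norm_mul, Complex.norm_I, mul_one]
  have h1 : ‖exp (-w * I) - exp (w * I)‖ ≤ Real.exp |w.im| + Real.exp |w.im| := by
    refine (norm_sub_le _ _).trans ?_
    rw [Complex.norm_exp, Complex.norm_exp]
    have e1 : (-w * I).re = w.im := by simp
    have e2 : (w * I).re = -w.im := by simp
    rw [e1, e2]
    exact add_le_add (Real.exp_le_exp.2 (le_abs_self _)) (Real.exp_le_exp.2 (neg_le_abs _))
  have h2 : ‖(2 : ℂ)‖ = 2 := by simp
  rw [h2]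
  linarith

theorem BN_bound (n : ℕ) (hn : 2 ≤ n) : ∃ C : ℝ, 0 < C ∧ ∀ M : ℕ, 1 ≤ M → ∀ v : ℂ,
    ‖v‖ ≤ 1 → ‖BN n M (lv n M v)‖ ≤ C := by
  refine ⟨(2 * Real.exp Real.pi) ^ (n - 2), by positivity, ?_⟩
  intro M hM v hv
  unfold BN
  rw [_root_.norm_prod]
  have h1 : ∀ i ∈ Finset.range (n - 2), ‖sn M (lv n M v + i + 1)‖ ≤ 2 * Real.exp Real.pi := by
    intro i _
    unfold sn
    rw [Gph_arg n M i hM, norm_mul]
    have h2 : ‖(2 : ℂ)‖ = 2 := by simp
    rw [h2]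
    apply mul_le_mul_of_nonneg_left _ (by norm_num : (0 : ℝ) ≤ 2)
    refine (Gph_norm_sin _).trans (Real.exp_le_exp.2 ?_)
    have e1 : (Real.pi * (v + 1 / 2) + ((Real.pi * (i + 1 - bt n) / M : ℝ) : ℂ)).im =
        Real.pi * v.im := by
      rw [Complex.add_im, Complex.ofReal_im, add_zero, Complex.im_ofReal_mul]
      simp
    rw [e1, abs_mul, abs_of_pos Real.pi_pos]
    have h3 : |v.im| ≤ 1 := (Complex.abs_im_le_norm v).trans hv
    calc Real.pi * |v.im| ≤ Real.pi * 1 := mul_le_mul_of_nonneg_left h3 Real.pi_pos.le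
      _ = _ := mul_one _
  calc ∏ i ∈ Finset.range (n - 2), ‖sn M (lv n M v + i + 1)‖
      ≤ ∏ _i ∈ Finset.range (n - 2), (2 * Real.exp Real.pi) :=
        Finset.prod_le_prod (fun i _ => norm_nonneg _) h1
    _ = _ := by rw [Finset.prod_const, Finset.card_range]

private lemma Gph_hh (v : ℂ) : hh (-v + 1 / 2) = hh (v + 1 / 2) := by
  unfold hh
  have h1 : Real.pi * (-v + 1 / 2) = Real.pi - Real.pi * (v + 1 / 2) := by ring
  rw [h1, Complex.sin_pi_sub]

theorem HF_odd (n : ℕ) (v : ℂ) (h0 : |v.re| < 1 / 2) : HF n (-v) = -HF n v := by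
  unfold HF
  rw [Gph_hh]
  have h1 : 2 * Real.pi * -v = -(2 * Real.pi * v) := by ring
  have h2 : Real.pi * -v = -(Real.pi * v) := by ring
  rw [h1, h2, Complex.sin_neg, Complex.cos_neg]
  ring

theorem HF_ne (n : ℕ) (v : ℂ) (h0 : |v.re| < 1 / 2) (h1 : v ≠ 0) : HF n v ≠ 0 := by
  have hpi : (Real.pi : ℂ) ≠ 0 := Complex.ofReal_ne_zero.2 Real.pi_ne_zero
  obtain ⟨ha, hb⟩ := abs_lt.1 h0
  have hs : sin (2 * Real.pi * v) ≠ 0 := by
    intro h
    obtain ⟨k, hk⟩ := Complex.sin_eq_zero_iff.1 h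
    have hv : v = ((k / 2 : ℝ) : ℂ) := by
      have h2 : (Real.pi : ℂ) * (2 * v) = Real.pi * k := by
        rw [← mul_comm (k : ℂ), ← hk]; ring
      have h3 := mul_left_cancel₀ hpi h2
      push_cast
      linear_combination h3 / 2
    have hr : v.re = (k : ℝ) / 2 := by rw [hv]; exact Complex.ofReal_re _
    have k1 : (-1 : ℝ) < k := by linarith
    have k2 : (k : ℝ) < 1 := by linarith
    have k3 : k = 0 := by
      have i1 : (-1 : ℤ) < k := by exact_mod_cast k1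
      have i2 : k < (1 : ℤ) := by exact_mod_cast k2
      omega
    apply h1
    rw [hv, k3]
    simp
  have hc : cos (Real.pi * v) ≠ 0 := by
    intro h
    obtain ⟨k, hk⟩ := Complex.cos_eq_zero_iff.1 h
    have hv : v = (((2 * k + 1) / 2 : ℝ) : ℂ) := by
      have h2 : (Real.pi : ℂ) * v = Real.pi * ((2 * k + 1) / 2) := by
        rw [hk]; ring
      have h3 := mul_left_cancel₀ hpi h2
      push_cast
      exact h3
    have hr : v.re = (2 * (k : ℝ) + 1) / 2 := by rw [hv]; exact Complex.ofReal_re _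
    have k1 : (-2 : ℝ) < 2 * k := by linarith
    have k2 : 2 * (k : ℝ) < 0 := by linarith
    have i1 : (-2 : ℤ) < 2 * k := by exact_mod_cast k1
    have i2 : 2 * k < (0 : ℤ) := by exact_mod_cast k2
    omega
  have h2 : ((Real.sqrt 2 : ℝ) : ℂ) ≠ 0 :=
    Complex.ofReal_ne_zero.2 (Real.sqrt_pos.2 (by norm_num)).ne'
  unfold HF
  refine div_ne_zero ?_ h2
  refine mul_ne_zero (mul_ne_zero (mul_ne_zero two_ne_zero hs) ?_) (Complex.exp_ne_zero _)
  exact pow_ne_zero _ (mul_ne_zero two_ne_zero hc)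

end Pool.Agent.H63.TW
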