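import Pool.Agent.H63.VC3.Defs

/-!
# Twist knots: definitions

The invariants of the twist knots are written as sums over a lattice of derivatives of a function
that is itself a sum over a second lattice (`Xi`); the inner sum is compared with the integral `ZZ`.
-/

namespace Pool.Agent.H63.TW

open Pool.Agent.H63.VC Pool.Agent.H63.VC3 Complex
open scoped BigOperators

/-- `2 sin (π x / M)`. -/
noncomputable def sn (M : ℕ) (x : ℂ) : ℂ := 2 * sin (Real.pi * x / M)

/-- `q^x` for `q = exp (π i / M)`. -/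
noncomputable def qp (M : ℕ) (x : ℂ) : ℂ := exp (Real.pi * I * x / M)

/-- The interpolated products of the kernel. -/
noncomputable def Pr (n M k : ℕ) (l : ℂ) : ℂ :=
  ∏ i ∈ Finset.Ico (k + 1) M, -(sn M (i - l) * sn M (i + l + n - 1))

/-- The weights of the `k`-sum. -/
noncomputable def BC (n g M k : ℕ) : ℂ :=
  ((S M (k + g - 1) * S M (k + n - g - 1) * S M (k + n - 2) : ℝ) : ℂ)

/-- The coefficient of the clasp. -/
noncomputable def PP (n g M : ℕ) (l : ℂ) : ℂ :=
  ∑ k ∈ Finset.range (M + 2 - n), BC n g M k * (starRingEnd ℂ) (Th n M k) * Pr n M k l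

/-- The middle coefficient of the recurrences. -/
noncomputable def A0 (n g M : ℕ) (l : ℂ) : ℂ :=
  (-qp M (2 * g - n) - qp M (n - 2 * g) - qp M (n - 2) + qp M (2 - 2 * l - n) +
      qp M (2 * l + n)) * (sn M (2 * l + n - 2) * sn M (2 * l + n - 1) * sn M (2 * l + n)) -
    I * qp M (3 * l + 2 * n - 2) *
      (sn M (l + n - g) * sn M (l + g) * sn M (l + 1) * sn M (2 * l + n - 2)) +
    I * qp M (1 - 3 * l - n) *
      (sn M (l + g - 1) * sn M (l + n - g - 1) * sn M (l + n - 2) * sn M (2 * l + n))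

/-- The upper coefficient of the recurrences. -/
noncomputable def Ap (n g M : ℕ) (l : ℂ) : ℂ :=
  -I * qp M (l + n - 2) *
    (sn M (l + n - g) * sn M (l + g) * sn M (l + 1) * sn M (2 * l + n - 2))

/-- The lower coefficient of the recurrences. -/
noncomputable def Am (n g M : ℕ) (l : ℂ) : ℂ :=
  I * qp M (-l - 1) *
    (sn M (l + g - 1) * sn M (l + n - g - 1) * sn M (l + n - 2) * sn M (2 * l + n))

/-- The terms of the dual sum. -/
noncomputable def tt (n g M : ℕ) (l : ℂ) (m : ℕ) : ℂ :=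
  qp M ((n - 2) * m) *
    (∏ i ∈ Finset.range m, sn M (l + n - g - 1 - i) * sn M (l + g - 1 - i)) / (S M m : ℂ) ^ 2

/-- The dual sum. -/
noncomputable def TT (n g M : ℕ) (l : ℂ) : ℂ := ∑ m ∈ Finset.range M, tt n g M l m

/-- `∏_{i=1}^{n-2} 2 sin (π (l + i) / M)`. -/
noncomputable def BN (n M : ℕ) (l : ℂ) : ℂ := ∏ i ∈ Finset.range (n - 2), sn M (l + i + 1)

/-- The Gaussian phase. -/
noncomputable def gph (n M : ℕ) (l : ℂ) : ℂ := qp M (-l ^ 2 / 2 + ((M + 3) / 2 - n) * l)

/-- The dual form of the coefficient of the clasp. -/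
noncomputable def Xi (n g M : ℕ) (l : ℂ) : ℂ :=
  gph n M l * BN n M l * exp (-LL M l) * TT n g M l

/-- The constant in the exact formula. -/
noncomputable def C0 (n g M : ℕ) : ℂ :=
  (M : ℂ) ^ 3 * (starRingEnd ℂ) (Th n M (M + 1 - n)) * qp M (-(((n : ℂ) - g - 1) * (g - 1)))

/-- The interpolated index `l` as a function of `v`. -/
noncomputable def lv (n M : ℕ) (v : ℂ) : ℂ := M * (v + 1 / 2) - bt n

/-- The primitive of the summands of the exact formula. -/
noncomputable def GX (p : ℤ) (n g M : ℕ) (v : ℂ) : ℂ :=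
  exp (2 * Real.pi * I * p * M * v ^ 2) * (2 * sin (2 * Real.pi * v)) * Xi n g M (lv n M v)

/-- The terms of the dual sum for complex `m`. -/
noncomputable def tau (n g M : ℕ) (l m : ℂ) : ℂ :=
  qp M ((n - 2) * m) * exp (LL M (l + n - g - 1) + LL M (l + g - 1) - LL M (l + n - g - 1 - m) -
    LL M (l + g - 1 - m) - 2 * LL M m)

/-- The normalized terms. -/
noncomputable def fl (n g M : ℕ) (l m : ℂ) : ℂ := exp (-LL M l) * tau n g M l m

/-- `tan (π j / 2)`, `j = v + 1/2`. -/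
noncomputable def Tj (v : ℂ) : ℂ := tan (Real.pi * (v + 1 / 2) / 2)

/-- The path of the inner integral. -/
noncomputable def mt (n M : ℕ) (v : ℂ) (t : ℝ) : ℂ :=
  lv n M v / 2 + M * arctan (t * Tj v) / Real.pi

/-- The inner integral. -/
noncomputable def ZZ (n g M : ℕ) (v : ℂ) : ℂ :=
  ∫ t in (-(9 / 10) : ℝ)..(9 / 10), M * Tj v / (Real.pi * (1 + (t : ℂ) ^ 2 * Tj v ^ 2)) *
    fl n g M (lv n M v) (mt n M v t)

/-- `GX` with the inner integral instead of the inner sum. -/
noncomputable def FZ (p : ℤ) (n g M : ℕ) (v : ℂ) : ℂ :=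
  exp (2 * Real.pi * I * p * M * v ^ 2) * (2 * sin (2 * Real.pi * v)) *
    (gph n M (lv n M v) * BN n M (lv n M v)) * ZZ n g M v

/-- The odd part of `FZ`. -/
noncomputable def FO (p : ℤ) (n g M : ℕ) (v : ℂ) : ℂ := (FZ p n g M v - FZ p n g M (-v)) / 2

/-- The even part of the potential. -/
noncomputable def W0 (v : ℂ) : ℂ := 2 * ff (3 / 4 + v / 2) + 2 * ff (3 / 4 - v / 2)

/-- The potential for `p` and `s = ± 1` full twists. -/
noncomputable def VU (p s : ℤ) (v : ℂ) : ℂ := W0 v + 2 * Real.pi * I * (p - s / 4) * v ^ 2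

/-- The potential including the main mode. -/
noncomputable def VT (p s : ℤ) (v : ℂ) : ℂ := VU p s v + 2 * Real.pi * I * v

/-- The exponent on the real line. -/
noncomputable def EU (x : ℝ) : ℝ := 2 * Fr (3 / 4 + x / 2) + 2 * Fr (3 / 4 - x / 2)

/-- The domain of `v`. -/
def UV : Set ℂ := {v | |v.re| < 34 / 100 ∧ |v.im| < 65 / 1000}

/-- The amplitude of the inner integral. -/
noncomputable def AZ (n : ℕ) (v : ℂ) : ℂ :=
  exp (Real.pi * I * (n - 2) * (v + 1 / 2) / 2 + (n - 3) / 2 * hh (v + 1 / 2)) / (Real.sqrt 2 : ℂ)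

/-- The amplitude of `FO`. -/
noncomputable def HF (n : ℕ) (v : ℂ) : ℂ :=
  2 * sin (2 * Real.pi * v) * (2 * cos (Real.pi * v)) ^ (n - 2) *
    exp (-(Real.pi * I * bt n / 2) + (n - 3) / 2 * hh (v + 1 / 2)) / (Real.sqrt 2 : ℂ)

/-- The logarithmic term of the critical equation. -/
noncomputable def LT (v : ℂ) : ℂ := hh (3 / 4 + v / 2) - hh (3 / 4 - v / 2)

/-- The critical point of `VT p s`. -/
structure CritT (p s : ℤ) (v : ℂ) : Prop where
  eq : LT v + Real.pi * I * (4 * p - s) * v + 2 * Real.pi * I = 0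
  im_pos : 0 < v.im
  im_le : v.im ≤ 1 / 20
  re_lt : |v.re| * |(4 * p - s : ℝ)| < 2
  sgn : (4 * p - s : ℝ) * v.re < 0
  slope : v.im < |v.re| / 2

/-- The window of the inner sum. -/
noncomputable def mw (M : ℕ) : ℕ := ⌈(12 / 1000 : ℝ) * M⌉₊

/-- The domain of the outer sum. -/
def UT : Set (Fin 1 → ℂ) := {z | |(z 0).re| < 33 / 100 ∧ |(z 0).im| < 62 / 1000}

/-- The real parts. -/
def KT : Set (Fin 1 → ℝ) := {a | |a 0| ≤ 3 / 10}

/-- The shifts. -/
def BT : Set (Fin 1 → ℝ) := {b | |b 0| ≤ 6 / 100}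

/-- The potential of the outer sum. -/
noncomputable def V0T (p : ℤ) (z : Fin 1 → ℂ) : ℂ := VU p 1 (z 0)

/-- The summands of the outer sum. -/
noncomputable def PhT (p : ℤ) (n g M : ℕ) (z : Fin 1 → ℂ) : ℂ :=
  exp (-(Real.pi * I / 8 * M)) * deriv (FO p n g M) (z 0)

/-- Their primitives. -/
noncomputable def PsT (p : ℤ) (n g : ℕ) (_ : Fin 1) (M : ℕ) (z : Fin 1 → ℂ) : ℂ :=
  exp (-(Real.pi * I / 8 * M)) * FO p n g M (z 0)

/-- The offsets. -/
noncomputable def oT (n M : ℕ) (_ : Fin 1) : ℝ := bt n - M / 2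

end Pool.Agent.H63.TW
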