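import Pool.Agent.H63.GO.FMono
import Pool.Agent.H63.GO.FNum
import Pool.Agent.H63.TW.Defs
import Pool.Agent.H63.VC3.GBound
import Pool.Agent.H63.VC3.Tube

/-! # Elementary estimates for the potential -/

namespace Pool.Agent.H63.TW

open Pool.Agent.H63.VC Pool.Agent.H63.VC3 Complex

private theorem Vert_refl (x : ℝ) : Fr (1 - x) = -Fr x := by
  rw [show (1 : ℝ) - x = -x + 1 by ring, Fr_add_one, Fr_neg]

private theorem Vert_sin_pos {x : ℝ} (h0 : 0 < x) (h1 : x < 1) : 0 < Real.sin (Real.pi * x) :=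
  Real.sin_pos_of_pos_of_lt_pi (by positivity) (by
    calc Real.pi * x < Real.pi * 1 := mul_lt_mul_of_pos_left h1 Real.pi_pos
      _ = Real.pi := mul_one _)

/-! ### The duplication formula -/

private theorem Vert_hh_dup (w : ℂ) (h0 : 0 < w.re) (h1 : w.re < 1) :
    hh w = hh (w / 2) + hh (w / 2 + 1 / 2) := by
  have hr1 : (w / 2).re = w.re / 2 := by simp
  have hr2 : (w / 2 + 1 / 2).re = w.re / 2 + 1 / 2 := by simp
  have s1 := Clausen_sin_re (w / 2) (by rw [hr1]; linarith) (by rw [hr1]; linarith)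
  have s2 := Clausen_sin_re (w / 2 + 1 / 2) (by rw [hr2]; linarith) (by rw [hr2]; linarith)
  have n1 : 2 * Complex.sin (Real.pi * (w / 2)) ≠ 0 := by
    intro h
    rw [h] at s1
    simp at s1
  have n2 : 2 * Complex.sin (Real.pi * (w / 2 + 1 / 2)) ≠ 0 := by
    intro h
    rw [h] at s2
    simp at s2
  have a1 : |arg (2 * Complex.sin (Real.pi * (w / 2)))| < Real.pi / 2 :=
    Complex.abs_arg_lt_pi_div_two_iff.2 (Or.inl s1)
  have a2 : |arg (2 * Complex.sin (Real.pi * (w / 2 + 1 / 2)))| < Real.pi / 2 :=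
    Complex.abs_arg_lt_pi_div_two_iff.2 (Or.inl s2)
  rw [abs_lt] at a1 a2
  unfold hh
  rw [← Complex.log_mul n1 n2 ⟨by linarith [a1.1, a2.1], by linarith [a1.2, a2.2]⟩]
  congr 1
  have e1 : (Real.pi : ℂ) * w = 2 * (Real.pi * (w / 2)) := by ring
  have e2 : (Real.pi : ℂ) * (w / 2 + 1 / 2) = Real.pi * (w / 2) + Real.pi / 2 := by ring
  rw [e1, Complex.sin_two_mul, e2, Complex.sin_add_pi_div_two]
  ring

private theorem Vert_ff_dup (w : ℂ) (h0 : 0 < w.re) (h1 : w.re < 1) :
    ff w = 2 * ff (w / 2) + 2 * ff (w / 2 + 1 / 2) := by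
  have key : ∀ z : ℂ, 0 < z.re → z.re < 1 →
      HasDerivAt (fun z : ℂ => ff z - 2 * ff (z / 2) - 2 * ff (z / 2 + 1 / 2)) 0 z := by
    intro z hz0 hz1
    have hr1 : (z / 2).re = z.re / 2 := by simp
    have hr2 : (z / 2 + 1 / 2).re = z.re / 2 + 1 / 2 := by simp
    have l1 : HasDerivAt (fun z : ℂ => z / 2) (1 / 2) z := (hasDerivAt_id z).div_const 2
    have l2 : HasDerivAt (fun z : ℂ => z / 2 + 1 / 2) (1 / 2) z := l1.add_const (1 / 2)
    have d0 := ff_hasDerivAt z hz0 hz1
    have d1 := (HasDerivAt.comp z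
      (ff_hasDerivAt (z / 2) (by rw [hr1]; linarith) (by rw [hr1]; linarith)) l1).const_mul 2
    have d2 := (HasDerivAt.comp z
      (ff_hasDerivAt (z / 2 + 1 / 2) (by rw [hr2]; linarith) (by rw [hr2]; linarith)) l2).const_mul 2
    refine ((d0.sub d1).sub d2).congr_deriv ?_
    rw [Vert_hh_dup z hz0 hz1]
    ring
  have h := Clausen_const key h0 h1
  have e1 : ff (1 / 2 : ℂ) = 0 := by
    have := ff_real (1 / 2) (by norm_num) (by norm_num)
    rw [Fr_half] at this
    push_cast at this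
    exact this
  have e2 : ff ((1 / 2 : ℂ) / 2) = (Fr (1 / 4) : ℂ) := by
    rw [← ff_real (1 / 4) (by norm_num) (by norm_num)]
    congr 1
    push_cast
    ring
  have e3 : ff ((1 / 2 : ℂ) / 2 + 1 / 2) = (Fr (3 / 4) : ℂ) := by
    rw [← ff_real (3 / 4) (by norm_num) (by norm_num)]
    congr 1
    push_cast
    ring
  rw [e1, e2, e3, GBound_Fr_quarter] at h
  push_cast at h
  linear_combination h

private theorem Vert_Fr_dup (j : ℝ) (h0 : 0 < j) (h1 : j < 1) :
    Fr j = 2 * Fr (j / 2) + 2 * Fr (j / 2 + 1 / 2) := by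
  have h := Vert_ff_dup (j : ℂ) (by simpa using h0) (by simpa using h1)
  have e1 : (j : ℂ) / 2 = ((j / 2 : ℝ) : ℂ) := by push_cast; ring
  have e2 : (j : ℂ) / 2 + 1 / 2 = ((j / 2 + 1 / 2 : ℝ) : ℂ) := by push_cast; ring
  rw [e2, e1, ff_real j h0 h1, ff_real (j / 2) (by linarith) (by linarith),
    ff_real (j / 2 + 1 / 2) (by linarith) (by linarith)] at h
  exact_mod_cast h

/-! ### Vertical shifts -/

private theorem Vert_arg (x y : ℝ) (h0 : 0 < x) (h1 : x < 1) (hy : 0 ≤ y) :
    (hh (x + y * I)).im ≤ max (Real.pi / 2 - Real.pi * x) 0 := by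
  have hpi := Real.pi_pos
  have hz : ((x : ℂ) + y * I).re = x := by simp
  have hsin := Vert_sin_pos h0 h1
  set q := 2 * Complex.sin (Real.pi * ((x : ℂ) + y * I)) with hq
  have e : (Real.pi * ((x : ℂ) + y * I) : ℂ) =
      ((Real.pi * x : ℝ) : ℂ) + ((Real.pi * y : ℝ) : ℂ) * I := by
    push_cast
    ring
  have hq' : q = ((2 * (Real.sin (Real.pi * x) * Real.cosh (Real.pi * y)) : ℝ) : ℂ) +
      ((2 * (Real.cos (Real.pi * x) * Real.sinh (Real.pi * y)) : ℝ) : ℂ) * I := by
    rw [hq, e, Complex.sin_add_mul_I]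
    push_cast
    ring
  have hqre : q.re = 2 * (Real.sin (Real.pi * x) * Real.cosh (Real.pi * y)) := by
    rw [hq']
    simp only [add_re, ofReal_re, mul_re, I_re, mul_zero, ofReal_im, I_im, mul_one, sub_self,
      add_zero]
  have hqim : q.im = 2 * (Real.cos (Real.pi * x) * Real.sinh (Real.pi * y)) := by
    rw [hq']
    simp only [add_im, ofReal_im, mul_im, I_re, mul_zero, ofReal_re, I_im, mul_one, add_zero,
      zero_add]
  have hcosh := Real.cosh_pos (Real.pi * y)
  have hsinh : 0 ≤ Real.sinh (Real.pi * y) := Real.sinh_nonneg_iff.2 (by positivity)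
  have hqpos : 0 < q.re := by
    rw [hqre]
    positivity
  have harg : |arg q| < Real.pi / 2 := Complex.abs_arg_lt_pi_div_two_iff.2 (Or.inl hqpos)
  rw [abs_lt] at harg
  have himeq : (hh (x + y * I)).im = arg q := by
    rw [hh, Complex.log_im, hq]
  rw [himeq]
  rcases le_total x (1 / 2) with hx | hx
  · refine le_trans ?_ (le_max_left _ _)
    have hcos : 0 ≤ Real.cos (Real.pi * x) := Real.cos_nonneg_of_mem_Icc
      ⟨by nlinarith only [hpi, h0], by nlinarith only [hpi, hx]⟩
    by_contra hcon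
    push Not at hcon
    have hlt := Real.strictMonoOn_tan (a := Real.pi / 2 - Real.pi * x)
      ⟨by nlinarith only [hpi, h1], by nlinarith only [hpi, h0]⟩ (b := arg q)
      ⟨by linarith only [harg], harg.2⟩ hcon
    rw [Complex.tan_arg, Real.tan_pi_div_two_sub, Real.tan_eq_sin_div_cos, inv_div, hqre, hqim,
      div_lt_div_iff₀ hsin (by positivity)] at hlt
    have hle : Real.sinh (Real.pi * y) ≤ Real.cosh (Real.pi * y) := (Real.sinh_lt_cosh _).le
    have h3 := mul_le_mul_of_nonneg_left hle (mul_nonneg hcos hsin.le)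
    nlinarith only [hlt, h3]
  · refine le_trans ?_ (le_max_right _ _)
    have hcos : Real.cos (Real.pi * x) ≤ 0 := Real.cos_nonpos_of_pi_div_two_le_of_le
      (by nlinarith only [hpi, hx]) (by nlinarith only [hpi, h1])
    by_contra hcon
    push Not at hcon
    have h2 := Real.tan_pos_of_pos_of_lt_pi_div_two hcon harg.2
    rw [Complex.tan_arg, hqre, hqim] at h2
    have h3 : 2 * (Real.cos (Real.pi * x) * Real.sinh (Real.pi * y)) ≤ 0 := by
      have := mul_nonneg (neg_nonneg.2 hcos) hsinh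
      linarith only [this]
    have h4 : 2 * (Real.cos (Real.pi * x) * Real.sinh (Real.pi * y)) /
        (2 * (Real.sin (Real.pi * x) * Real.cosh (Real.pi * y))) ≤ 0 :=
      div_nonpos_of_nonpos_of_nonneg h3 (by positivity)
    linarith only [h2, h4]

private theorem Vert_pos (x y : ℝ) (h0 : 0 < x) (h1 : x < 1) (hy : 0 ≤ y) :
    -(ff (x + y * I)).re ≤ -Fr x + max (Real.pi / 2 - Real.pi * x) 0 * y := by
  have hre : ∀ s : ℝ, ((x : ℂ) + s * I).re = x := fun s => by simp
  have hd : ∀ s : ℝ, HasDerivAt (fun s : ℝ => (ff ((x : ℂ) + s * I)).re)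
      (-(hh ((x : ℂ) + s * I)).im) s := fun s => by
    have h := (Tube_der (x : ℂ) I s (by rw [hre]; exact h0) (by rw [hre]; exact h1)).1
    refine h.congr_deriv ?_
    rw [Complex.mul_I_re]
  set c := max (Real.pi / 2 - Real.pi * x) 0 with hc
  have hd2 : ∀ s : ℝ, HasDerivAt (fun s : ℝ => (ff ((x : ℂ) + s * I)).re + c * s)
      (-(hh ((x : ℂ) + s * I)).im + c) s := fun s => by
    have h2 : HasDerivAt (fun s : ℝ => c * s) c s := by
      simpa using (hasDerivAt_id s).const_mul c
    exact (hd s).add h2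
  have key := GBound_mono (f := fun s : ℝ => (ff ((x : ℂ) + s * I)).re + c * s)
    (f' := fun s : ℝ => -(hh ((x : ℂ) + s * I)).im + c) hy
    (fun s _ => (hd2 s).continuousAt.continuousWithinAt) (fun s _ => hd2 s) (fun s hs => by
      have := Vert_arg x s h0 h1 hs.1.le
      linarith only [this, hc])
  have e0 : ff ((x : ℂ) + (0 : ℝ) * I) = (Fr x : ℂ) := by
    rw [ofReal_zero, zero_mul, add_zero, ff_real x h0 h1]
  simp only [e0, ofReal_re, mul_zero, add_zero] at key
  linarith only [key]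

/-- One factor, imaginary shifts. -/
theorem vert1 (x y : ℝ) (h0 : 0 < x) (h1 : x < 1) :
    -(ff (x + y * I)).re ≤ -Fr x + max (Real.pi / 2 - Real.pi * x) 0 * |y| := by
  rcases le_total 0 y with hy | hy
  · rw [abs_of_nonneg hy]
    exact Vert_pos x y h0 h1 hy
  · rw [abs_of_nonpos hy]
    have h := Vert_pos x (-y) h0 h1 (by linarith)
    have e : (x : ℂ) + ((-y : ℝ) : ℂ) * I = (starRingEnd ℂ) ((x : ℂ) + y * I) := by
      rw [map_add, map_mul, Complex.conj_ofReal, Complex.conj_ofReal, Complex.conj_I]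
      push_cast
      ring
    rw [e, ff_conj, Complex.conj_re] at h
    exact h

/-- Two factors, imaginary shifts. -/
theorem vert (x j y : ℝ) (h0 : 0 < x) (h1 : x < j) (h2 : j < 1) :
    -(ff (x + y * I)).re - (ff ((j - x : ℝ) - y * I)).re ≤
      -Fr x - Fr (j - x) + Real.pi * (1 - min j (1 / 2)) * |y| := by
  have hpi := Real.pi_pos
  have a1 := vert1 x y h0 (by linarith)
  have a2 := vert1 (j - x) (-y) (by linarith) (by linarith)
  have e : ((j - x : ℝ) : ℂ) + ((-y : ℝ) : ℂ) * I = ((j - x : ℝ) : ℂ) - y * I := by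
    push_cast
    ring
  rw [e, abs_neg] at a2
  have hs : max (Real.pi / 2 - Real.pi * x) 0 + max (Real.pi / 2 - Real.pi * (j - x)) 0 ≤
      Real.pi * (1 - min j (1 / 2)) := by
    have m1 : Real.pi * min j (1 / 2) ≤ Real.pi * j :=
      mul_le_mul_of_nonneg_left (min_le_left _ _) hpi.le
    have m2 : Real.pi * min j (1 / 2) ≤ Real.pi * (1 / 2) :=
      mul_le_mul_of_nonneg_left (min_le_right _ _) hpi.le
    have m3 : 0 < Real.pi * x := by positivity
    have m4 : 0 < Real.pi * (j - x) := mul_pos hpi (by linarith)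
    rcases max_cases (Real.pi / 2 - Real.pi * x) 0 with ⟨c1, -⟩ | ⟨c1, -⟩ <;>
      rcases max_cases (Real.pi / 2 - Real.pi * (j - x)) 0 with ⟨c2, -⟩ | ⟨c2, -⟩ <;>
      rw [c1, c2] <;> nlinarith only [m1, m2, m3, m4, hpi]
  have h3 := mul_le_mul_of_nonneg_right hs (abs_nonneg y)
  linarith only [a1, a2, h3]

/-! ### The ends of the window -/

private theorem Vert_low (x : ℝ) (h0 : 0 ≤ x) (h1 : x ≤ 1 / 2) :
    x * Real.log 4 + x * Real.log x - x ≤ Fr x := by
  have hpi := Real.pi_pos
  have hd : ∀ y : ℝ, 0 < y → y < 1 →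
      HasDerivAt (fun y : ℝ => Fr y - (y * Real.log 4 + y * Real.log y - y))
        (Real.log (2 * Real.sin (Real.pi * y)) - (Real.log 4 + Real.log y)) y := by
    intro y hy0 hy1
    have h2 : HasDerivAt (fun y : ℝ => y * Real.log 4 + y * Real.log y - y)
        (Real.log 4 + Real.log y) y := by
      have h3 := (((hasDerivAt_id y).mul_const (Real.log 4)).add
        (Real.hasDerivAt_mul_log hy0.ne')).sub (hasDerivAt_id y)
      refine (h3.congr_deriv (by ring)).congr_of_eventuallyEq ?_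
      filter_upwards with z
      rfl
    exact (Fr_hasDerivAt y hy0 hy1).sub h2
  have key := GBound_mono (f := fun y : ℝ => Fr y - (y * Real.log 4 + y * Real.log y - y))
    (f' := fun y : ℝ => Real.log (2 * Real.sin (Real.pi * y)) - (Real.log 4 + Real.log y)) h0
    (Continuous.continuousOn (Fr_continuous.sub (((continuous_id.mul continuous_const).add
        Real.continuous_mul_log).sub continuous_id)))
    (fun y hy => hd y hy.1 (by linarith [hy.2])) (fun y hy => by
      have hy1 := hy.1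
      have hy2 := hy.2
      rw [← Real.log_mul (by norm_num) hy1.ne']
      have h3 := Real.mul_le_sin (x := Real.pi * y) (by positivity)
        (by nlinarith only [hy2, h1, hpi])
      have h4 : 2 / Real.pi * (Real.pi * y) = 2 * y := by
        have := Real.pi_ne_zero
        field_simp
      rw [h4] at h3
      have h5 : Real.log (4 * y) ≤ Real.log (2 * Real.sin (Real.pi * y)) :=
        Real.log_le_log (by linarith) (by linarith)
      linarith only [h5])
  simp only [zero_mul, Fr_zero] at key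
  linarith only [key]

private theorem Vert_log2 (a b : ℝ) (h0 : 0 < a) (h : a ≤ b) (h1 : b < 1) :
    Fr b - Fr a ≤ Real.log 2 * (b - a) := by
  have key := GBound_mono (f := fun s : ℝ => Real.log 2 * s - Fr s)
    (f' := fun s : ℝ => Real.log 2 - Real.log (2 * Real.sin (Real.pi * s))) h
    (Continuous.continuousOn ((continuous_const.mul continuous_id).sub Fr_continuous))
    (fun s hs => by
      have h2 : HasDerivAt (fun s : ℝ => Real.log 2 * s) (Real.log 2) s := by
        simpa using (hasDerivAt_id s).const_mul (Real.log 2)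
      exact h2.sub (Fr_hasDerivAt s (by linarith [hs.1]) (by linarith [hs.2])))
    (fun s hs => by
      have hs0 := Vert_sin_pos (x := s) (by linarith [hs.1]) (by linarith [hs.2])
      have h2 : Real.log (2 * Real.sin (Real.pi * s)) ≤ Real.log 2 :=
        Real.log_le_log (by linarith) (by linarith [Real.sin_le_one (Real.pi * s)])
      linarith only [h2])
  linarith only [key]

private theorem Vert_max : Fr (5 / 6) ≤ 165 / 1000 := by
  have hpi := Real.pi_pos
  have hpi1 := Real.pi_gt_d2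
  have hpi2 := Real.pi_lt_d2
  have h := (GO.Fr_num (1 / 6) (by norm_num) (by norm_num)).1
  have e : Fr (5 / 6) = -Fr (1 / 6) := by
    rw [← Vert_refl]
    norm_num
  rw [e]
  unfold GO.Ft at h
  have hl : 1 - 1 / (Real.pi / 3) ≤ Real.log (2 * Real.pi * (1 / 6)) := by
    have h2 := Real.one_sub_inv_le_log_of_pos (x := Real.pi / 3) (by positivity)
    rw [show 2 * Real.pi * (1 / 6) = Real.pi / 3 by ring, one_div]
    exact h2
  have hl2 : 1 / (Real.pi / 3) ≤ 3 / 3.14 := by
    rw [one_div_div]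
    exact div_le_div_of_nonneg_left (by norm_num) (by norm_num) hpi1.le
  have p2 : Real.pi ^ 2 ≤ 3.15 ^ 2 := by gcongr
  have p4 : Real.pi ^ 4 ≤ 3.15 ^ 4 := by gcongr
  have p6 : Real.pi ^ 6 ≤ 3.15 ^ 6 := by gcongr
  norm_num at h hl hl2 p2 p4 p6 ⊢
  linarith only [h, hl, hl2, p2, p4, p6]

/-- The exponent at the ends of the window. -/
theorem endE (x j : ℝ) (h0 : 0 ≤ x) (h1 : x ≤ 2 / 100) (h2 : 18 / 100 ≤ j) (h3 : j ≤ 82 / 100) :
    Fr j - 2 * Fr x - 2 * Fr (j - x) ≤ 35 / 100 := by
  have l2 := Real.log_two_lt_d9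
  have l2' := Real.log_two_gt_d9
  have a1 := Fr_ge j
  have a2 := Vert_max
  have a3 := Vert_log2 (j - x) j (by linarith) (by linarith) (by linarith)
  have a4 := Vert_low x h0 (by linarith)
  have a5 : -(713 / 10000) ≤ x * Real.log 4 + x * Real.log x - x := by
    rcases h0.eq_or_lt with h | h
    · rw [← h]
      norm_num
    · have e4 : Real.log 4 = 2 * Real.log 2 := by
        rw [show (4 : ℝ) = 2 ^ 2 by norm_num, Real.log_pow]
        norm_num
      have b1 : Real.log (1 / 50 / x) ≤ 1 / 50 / x - 1 := Real.log_le_sub_one_of_pos (by positivity)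
      have b2 : Real.log (1 / 50 / x) = Real.log (1 / 50) - Real.log x :=
        Real.log_div (by norm_num) h.ne'
      have b3 : Real.log (1 / 50) = -Real.log 50 := by
        rw [one_div, Real.log_inv]
      have b4 : Real.log 50 ≤ 6 * Real.log 2 - 21 / 100 := by
        have c1 : Real.log (50 / 64) ≤ 50 / 64 - 1 := Real.log_le_sub_one_of_pos (by norm_num)
        have c2 : Real.log (50 / 64) = Real.log 50 - Real.log 64 :=
          Real.log_div (by norm_num) (by norm_num)
        have c3 : Real.log 64 = 6 * Real.log 2 := by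
          rw [show (64 : ℝ) = 2 ^ 6 by norm_num, Real.log_pow]
          norm_num
        linarith only [c1, c2, c3]
      have b5 : x * (1 / 50 / x - 1) = 1 / 50 - x := by
        field_simp
      have b6 := mul_le_mul_of_nonneg_left b1 h.le
      rw [b5, b2, b3] at b6
      have b7 : x * Real.log 50 ≤ x * (6 * Real.log 2 - 21 / 100) :=
        mul_le_mul_of_nonneg_left b4 h.le
      rw [e4]
      have b8 : x * (4 * Real.log 2 - 21 / 100) ≤ 2 / 100 * (4 * Real.log 2 - 21 / 100) :=
        mul_le_mul_of_nonneg_right h1 (by linarith)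
      nlinarith only [b6, b7, b8, l2]
  have a6 : Real.log 2 * (j - (j - x)) ≤ 7 / 10 * (2 / 100) := by
    rw [show j - (j - x) = x by ring]
    apply mul_le_mul _ h1 h0 (by norm_num)
    linarith
  linarith only [a1, a2, a3, a4, a5, a6]

/-- The exponent is at most its value at the middle. -/
theorem midE (x j : ℝ) (h0 : 0 < j) (h1 : j < 1) (h2 : 0 ≤ x) (h3 : x ≤ j) :
    Fr j - 2 * Fr x - 2 * Fr (j - x) ≤ EU (j - 1 / 2) := by
  have hd := Vert_Fr_dup j h0 h1
  have hm := GO.Fr_mono2 j 0 |x - j / 2| h0.le h1.le le_rfl (abs_nonneg _)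
    (abs_le.2 ⟨by linarith, by linarith⟩)
  rw [sub_zero, add_zero] at hm
  have he : -Fr (j / 2 - |x - j / 2|) - Fr (j / 2 + |x - j / 2|) = -Fr x - Fr (j - x) := by
    rcases abs_cases (x - j / 2) with ⟨h, -⟩ | ⟨h, -⟩
    · rw [h, show j / 2 - (x - j / 2) = j - x by ring, show j / 2 + (x - j / 2) = x by ring]
      ring
    · rw [h, show j / 2 - -(x - j / 2) = x by ring, show j / 2 + -(x - j / 2) = j - x by ring]
  rw [he] at hm
  unfold EU
  rw [show 3 / 4 + (j - 1 / 2) / 2 = j / 2 + 1 / 2 by ring,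
    show 3 / 4 - (j - 1 / 2) / 2 = 1 - j / 2 by ring, Vert_refl]
  linarith only [hd, hm]

theorem EU_even (x : ℝ) : EU (-x) = EU x := by
  unfold EU
  rw [show 3 / 4 + -x / 2 = 3 / 4 - x / 2 by ring, show 3 / 4 - -x / 2 = 3 / 4 + x / 2 by ring]
  ring

theorem EU_cont : Continuous EU := by
  have h := Fr_continuous
  unfold EU
  fun_prop

private theorem Vert_EU_anti : StrictAntiOn EU (Set.Icc 0 (1 / 2)) := by
  have hpi := Real.pi_pos
  have hd : ∀ s : ℝ, 0 < s → s < 1 / 2 → HasDerivAt EU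
      (Real.log (2 * Real.sin (Real.pi * (3 / 4 + s / 2))) -
        Real.log (2 * Real.sin (Real.pi * (3 / 4 - s / 2)))) s := by
    intro s hs0 hs1
    have l1 : HasDerivAt (fun s : ℝ => 3 / 4 + s / 2) (1 / 2) s :=
      ((hasDerivAt_id s).div_const 2).const_add (3 / 4)
    have l2 : HasDerivAt (fun s : ℝ => 3 / 4 - s / 2) (-(1 / 2)) s :=
      ((hasDerivAt_id s).div_const 2).const_sub (3 / 4)
    have d1 := (HasDerivAt.comp s (Fr_hasDerivAt (3 / 4 + s / 2) (by linarith) (by linarith))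
      l1).const_mul 2
    have d2 := (HasDerivAt.comp s (Fr_hasDerivAt (3 / 4 - s / 2) (by linarith) (by linarith))
      l2).const_mul 2
    exact (d1.add d2).congr_deriv (by ring)
  apply strictAntiOn_of_deriv_neg (convex_Icc _ _) EU_cont.continuousOn
  intro s hs
  rw [interior_Icc] at hs
  obtain ⟨hs0, hs1⟩ := hs
  rw [(hd s hs0 hs1).deriv]
  have s1 := Vert_sin_pos (x := 3 / 4 + s / 2) (by linarith) (by linarith)
  have s2 : Real.sin (Real.pi * (3 / 4 + s / 2)) < Real.sin (Real.pi * (3 / 4 - s / 2)) := by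
    rw [← Real.sin_pi_sub (Real.pi * (3 / 4 + s / 2)), ← Real.sin_pi_sub (Real.pi * (3 / 4 - s / 2))]
    apply Real.sin_lt_sin_of_lt_of_le_pi_div_two
    · nlinarith only [hs1, hpi, hs0]
    · nlinarith only [hs1, hpi, hs0]
    · nlinarith only [hs1, hpi, hs0]
  have h3 : Real.log (2 * Real.sin (Real.pi * (3 / 4 + s / 2))) <
      Real.log (2 * Real.sin (Real.pi * (3 / 4 - s / 2))) :=
    Real.log_lt_log (by linarith) (by linarith)
  linarith only [h3]

/-- `EU` is strictly decreasing in `|x|`. -/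
theorem EU_anti (x y : ℝ) (h0 : |x| < |y|) (h1 : |y| ≤ 1 / 2) : EU y < EU x := by
  have e : ∀ z : ℝ, EU z = EU |z| := by
    intro z
    rcases abs_choice z with h | h
    · rw [h]
    · rw [h, EU_even]
  rw [e x, e y]
  exact Vert_EU_anti ⟨abs_nonneg x, by linarith⟩ ⟨abs_nonneg y, h1⟩ h0

theorem EU_low : 41 / 100 ≤ EU (3 / 10) := by
  have hpi := Real.pi_pos
  have hpi1 := Real.pi_gt_d4
  have hpi2 := Real.pi_lt_d4
  have l2 := Real.log_two_lt_d9
  have l2' := Real.log_two_gt_d9
  have e1 : EU (3 / 10) = -(2 * Fr (1 / 10)) - 2 * Fr (4 / 10) := by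
    unfold EU
    rw [show (3 : ℝ) / 4 + 3 / 10 / 2 = 1 - 1 / 10 by norm_num,
      show (3 : ℝ) / 4 - 3 / 10 / 2 = 1 - 4 / 10 by norm_num, Vert_refl, Vert_refl]
    ring
  have f1 := (GO.Fr_num (1 / 10) (by norm_num) (by norm_num)).2
  have f2 := (GO.Fr_num (4 / 10) (by norm_num) (by norm_num)).2
  unfold GO.Ft at f1 f2
  have g1 : Real.log (2 * Real.pi * (1 / 10)) ≤ -(2 / 3 * Real.log 2) := by
    have h1 : Real.log ((2 * Real.pi * (1 / 10)) ^ 3) ≤ Real.log (1 / 4) := by
      apply Real.log_le_log (by positivity)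
      have : (2 * Real.pi * (1 / 10)) ^ 3 ≤ (2 * 3.1416 * (1 / 10)) ^ 3 := by gcongr
      refine this.trans ?_
      norm_num
    have h2 : Real.log (1 / 4) = -(2 * Real.log 2) := by
      rw [one_div, Real.log_inv, show (4 : ℝ) = 2 ^ 2 by norm_num, Real.log_pow]
      norm_num
    rw [Real.log_pow, h2] at h1
    push_cast at h1
    linarith only [h1]
  have g2 : Real.log (2 * Real.pi * (4 / 10)) ≤ 4 / 3 * Real.log 2 := by
    have h1 : Real.log ((2 * Real.pi * (4 / 10)) ^ 3) ≤ Real.log 16 := by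
      apply Real.log_le_log (by positivity)
      have : (2 * Real.pi * (4 / 10)) ^ 3 ≤ (2 * 3.1416 * (4 / 10)) ^ 3 := by gcongr
      refine this.trans ?_
      norm_num
    have h2 : Real.log 16 = 4 * Real.log 2 := by
      rw [show (16 : ℝ) = 2 ^ 4 by norm_num, Real.log_pow]
      norm_num
    rw [Real.log_pow, h2] at h1
    push_cast at h1
    linarith only [h1]
  have p2 : 3.14 ^ 2 ≤ Real.pi ^ 2 := by
    gcongr
    linarith
  have p4 : 0 ≤ Real.pi ^ 4 := by positivity
  have p6 : 0 ≤ Real.pi ^ 6 := by positivity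
  rw [e1]
  norm_num at f1 f2 g1 g2 p2 ⊢
  linarith only [f1, f2, g1, g2, p2, p4, p6, l2, l2']

/-- The potential at the middle. -/
theorem W0_eq (v : ℂ) (h0 : -(1 / 2) < v.re) (h1 : v.re < 1 / 2) :
    W0 v = ff (v + 1 / 2) - 4 * ff ((v + 1 / 2) / 2) := by
  have hr : (v + 1 / 2).re = v.re + 1 / 2 := by simp
  have h := Vert_ff_dup (v + 1 / 2) (by rw [hr]; linarith) (by rw [hr]; linarith)
  have h2 := ff_reflect ((v + 1 / 2) / 2)
  unfold W0
  rw [show (3 : ℂ) / 4 + v / 2 = (v + 1 / 2) / 2 + 1 / 2 by ring,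
    show (3 : ℂ) / 4 - v / 2 = 1 - (v + 1 / 2) / 2 by ring, h2, h]
  ring

end Pool.Agent.H63.TW
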