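import Pool.Agent.H63.TW.FlPath
import Pool.Agent.H63.TW.Vert

/-! # The Laplace method for the inner integral -/

namespace Pool.Agent.H63.TW

open Pool.Agent.H63.VC Pool.Agent.H63.VC3 Complex Filter Topology
open scoped BigOperators

/-! ### Constants, uniform on the closed domain -/

/-- The closed domain. -/
private def ZzLap_K : Set ℂ := {v | |v.re| ≤ 34 / 100 ∧ |v.im| ≤ 65 / 1000}

private lemma ZzLap_K_compact : IsCompact ZzLap_K := by
  apply Metric.isCompact_of_isClosed_isBounded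
  · apply IsClosed.inter
    · exact isClosed_le (continuous_abs.comp Complex.continuous_re) continuous_const
    · exact isClosed_le (continuous_abs.comp Complex.continuous_im) continuous_const
  · rw [Metric.isBounded_iff_subset_closedBall 0]
    refine ⟨1, fun v hv => ?_⟩
    rw [mem_closedBall_zero_iff]
    have h := Complex.norm_le_abs_re_add_abs_im v
    have h1 := hv.1
    have h2 := hv.2
    linarith

private lemma ZzLap_sub {v : ℂ} (hv : v ∈ UV) : v ∈ ZzLap_K := ⟨hv.1.le, hv.2.le⟩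

private lemma ZzLap_half {v : ℂ} (hv : v ∈ ZzLap_K) : |v.re| < 1 / 2 := by
  have := hv.1
  linarith

private lemma ZzLap_Tj_cont {v : ℂ} (h0 : |v.re| < 1 / 2) : ContinuousAt Tj v := by
  have h1 := Tj_re_pos v h0
  have h2 : cos (Real.pi * (v + 1 / 2) / 2) ≠ 0 := by
    intro h
    have h3 : Tj v = 0 := by
      unfold Tj
      rw [Complex.tan_eq_sin_div_cos, h, div_zero]
    rw [h3] at h1
    simp at h1
  have h3 : ContinuousAt (fun v : ℂ => (Real.pi * (v + 1 / 2) / 2 : ℂ)) v := by fun_prop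
  exact ContinuousAt.comp (f := fun v : ℂ => (Real.pi * (v + 1 / 2) / 2 : ℂ))
    (Complex.continuousAt_tan.2 h2) h3

private lemma ZzLap_const1 : ∃ c C : ℝ, 0 < c ∧ 0 < C ∧ ∀ v ∈ ZzLap_K,
    c ≤ (Tj v).re ∧ ‖Tj v‖ ≤ C := by
  have hc : ContinuousOn Tj ZzLap_K := fun v hv => (ZzLap_Tj_cont (ZzLap_half hv)).continuousWithinAt
  have hne : ZzLap_K.Nonempty := ⟨0, by simp [ZzLap_K]; norm_num⟩
  obtain ⟨v1, hv1, h1⟩ := ZzLap_K_compact.exists_isMinOn hne
    (Complex.continuous_re.comp_continuousOn hc)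
  obtain ⟨C, hC⟩ := ZzLap_K_compact.exists_bound_of_continuousOn hc
  refine ⟨(Tj v1).re, max C 1, Tj_re_pos v1 (ZzLap_half hv1), lt_max_of_lt_right one_pos,
    fun v hv => ⟨h1 hv, (hC v hv).trans (le_max_left _ _)⟩⟩

private lemma ZzLap_const2 : ∃ c : ℝ, 0 < c ∧ ∀ v ∈ ZzLap_K, ∀ t : ℝ, |t| ≤ 9 / 10 →
    c ≤ ‖1 + (t : ℂ) ^ 2 * Tj v ^ 2‖ := by
  have hK : IsCompact (ZzLap_K ×ˢ Set.Icc (-1 : ℝ) 1) := ZzLap_K_compact.prod isCompact_Icc
  have hne : (ZzLap_K ×ˢ Set.Icc (-1 : ℝ) 1).Nonempty := ⟨(0, 0), by simp [ZzLap_K]; norm_num⟩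
  have hc : ContinuousOn (fun p : ℂ × ℝ => ‖1 + (p.2 : ℂ) ^ 2 * Tj p.1 ^ 2‖)
      (ZzLap_K ×ˢ Set.Icc (-1 : ℝ) 1) := by
    intro p hp
    have h1 : ContinuousAt (fun p : ℂ × ℝ => Tj p.1) p :=
      ContinuousAt.comp (f := fun p : ℂ × ℝ => p.1) (ZzLap_Tj_cont (ZzLap_half hp.1)) continuousAt_fst
    have h2 : ContinuousAt (fun p : ℂ × ℝ => (p.2 : ℂ)) p :=
      (Complex.continuous_ofReal.comp continuous_snd).continuousAt
    exact ((continuousAt_const.add ((h2.pow 2).mul (h1.pow 2))).norm).continuousWithinAt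
  obtain ⟨p, hp, h1⟩ := hK.exists_isMinOn hne hc
  refine ⟨‖1 + (p.2 : ℂ) ^ 2 * Tj p.1 ^ 2‖, ?_, fun v hv t ht => ?_⟩
  · rw [norm_pos_iff]
    exact Complex.slitPlane_ne_zero (one_add_ne p.1 (ZzLap_half hp.1) p.2)
  · have h2 : ((v, t) : ℂ × ℝ) ∈ ZzLap_K ×ˢ Set.Icc (-1 : ℝ) 1 :=
      Set.mk_mem_prod hv ⟨by linarith [neg_abs_le t], by linarith [le_abs_self t]⟩
    exact isMinOn_iff.1 h1 (v, t) h2

/-- The density of the path. -/
private noncomputable def ZzLap_G (v : ℂ) (t : ℝ) : ℂ :=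
  Tj v / (Real.pi * (1 + (t : ℂ) ^ 2 * Tj v ^ 2))

private lemma ZzLap_G_bound : ∃ B : ℝ, 0 < B ∧ ∀ v ∈ ZzLap_K, ∀ t : ℝ, |t| ≤ 9 / 10 →
    ‖ZzLap_G v t‖ ≤ B := by
  obtain ⟨c, C, hc, hC, h1⟩ := ZzLap_const1
  obtain ⟨c2, hc2, h2⟩ := ZzLap_const2
  refine ⟨C / (Real.pi * c2), by positivity, fun v hv t ht => ?_⟩
  unfold ZzLap_G
  rw [norm_div, norm_mul, Complex.norm_real, Real.norm_of_nonneg Real.pi_pos.le]
  exact div_le_div₀ hC.le (h1 v hv).2 (by positivity)
    (mul_le_mul_of_nonneg_left (h2 v hv t ht) Real.pi_pos.le)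

private lemma ZzLap_log {s : ℝ} (hs : |s| ≤ 1 / 2) :
    |Real.log ((1 + s) / (1 - s)) - 2 * s| ≤ 4 * s ^ 2 := by
  have h1 : |s| < 1 := by linarith
  have h1' : |(-s)| < 1 := by rwa [abs_neg]
  have a1 := Real.abs_log_sub_add_sum_range_le h1 1
  have a2 := Real.abs_log_sub_add_sum_range_le h1' 1
  simp only [Finset.sum_range_one, Nat.cast_zero, zero_add, pow_one, div_one, abs_neg,
    sub_neg_eq_add] at a1 a2
  have h2 : |s| ^ (1 + 1) / (1 - |s|) ≤ 2 * s ^ 2 := by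
    rw [div_le_iff₀ (by linarith), ← sq_abs s]
    have h3 : 0 ≤ |s| ^ 2 := sq_nonneg _
    have h4 : |s| ^ 2 * 1 ≤ |s| ^ 2 * (2 * (1 - |s|)) :=
      mul_le_mul_of_nonneg_left (by linarith) h3
    calc |s| ^ (1 + 1) = |s| ^ 2 * 1 := by ring
      _ ≤ |s| ^ 2 * (2 * (1 - |s|)) := h4
      _ = _ := by ring
  have hs1 := abs_le.1 hs
  rw [Real.log_div (by linarith) (by linarith)]
  have b1 := abs_le.1 (a1.trans h2)
  have b2 := abs_le.1 (a2.trans h2)
  rw [abs_le]
  constructor <;> linarith [b1.1, b1.2, b2.1, b2.2]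

/-- Second order expansion of the exponent. -/
private lemma ZzLap_quad : ∃ C : ℝ, 0 < C ∧ ∀ v ∈ ZzLap_K, ∀ t : ℝ, |t| ≤ 1 / 2 →
    ‖wt v t - wt v 0 + 2 / Real.pi * Tj v * (t : ℂ) ^ 2‖ ≤ C * |t| ^ 3 := by
  obtain ⟨c1, C1, hc1, hC1, h1⟩ := ZzLap_const1
  obtain ⟨c2, hc2, h2⟩ := ZzLap_const2
  have hpi := Real.pi_pos
  refine ⟨2 / Real.pi * C1 * (4 / c2 + C1 ^ 2 / c2), by positivity, fun v hv t ht => ?_⟩
  set h : ℝ → ℂ := fun s => wt v s + 2 / Real.pi * Tj v * (s : ℂ) ^ 2 with hh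
  have hd : ∀ s : ℝ, |s| ≤ 1 / 2 → HasDerivAt h (-(2 / Real.pi * Real.log ((1 + s) / (1 - s)) *
      (Tj v / (1 + (s : ℂ) ^ 2 * Tj v ^ 2))) + 2 / Real.pi * Tj v * (2 * (s : ℂ))) s := by
    intro s hs
    have e1 := wt_deriv v (ZzLap_half hv) s (by linarith)
    have e2 : HasDerivAt (fun s : ℝ => (s : ℂ) ^ 2) (2 * (s : ℂ)) s := by
      have e3 := (hasDerivAt_id (s : ℂ)).pow 2 |>.comp_ofReal
      simpa using e3
    exact e1.add (e2.const_mul _)
  have key : ∀ s : ℝ, |s| ≤ |t| → ‖-(2 / Real.pi * Real.log ((1 + s) / (1 - s)) *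
      (Tj v / (1 + (s : ℂ) ^ 2 * Tj v ^ 2))) + 2 / Real.pi * Tj v * (2 * (s : ℂ))‖ ≤
      2 / Real.pi * C1 * (4 / c2 + C1 ^ 2 / c2) * |t| ^ 2 := by
    intro s hs
    have hs' : |s| ≤ 1 / 2 := hs.trans ht
    set N : ℂ := 1 + (s : ℂ) ^ 2 * Tj v ^ 2 with hN
    have hN1 : c2 ≤ ‖N‖ := h2 v hv s (by linarith)
    have hN0 : N ≠ 0 := by
      rw [← norm_pos_iff]
      linarith
    set L : ℝ := Real.log ((1 + s) / (1 - s)) with hL
    have hL1 : |L - 2 * s| ≤ 4 * s ^ 2 := ZzLap_log hs'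
    have hpi' : (Real.pi : ℂ) ≠ 0 := by exact_mod_cast hpi.ne'
    have e : -(2 / Real.pi * (L : ℂ) * (Tj v / N)) + 2 / Real.pi * Tj v * (2 * (s : ℂ)) =
        2 / Real.pi * Tj v * (-(((L - 2 * s : ℝ) : ℂ) / N) + 2 * s * (s ^ 2 * Tj v ^ 2) / N) := by
      push_cast
      field_simp
      rw [hN]
      ring
    rw [e, norm_mul, norm_mul, norm_div, Complex.norm_real, Real.norm_of_nonneg hpi.le,
      Complex.norm_ofNat]
    have b1 : ‖-(((L - 2 * s : ℝ) : ℂ) / N) + 2 * s * (s ^ 2 * Tj v ^ 2) / N‖ ≤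
        (4 / c2 + C1 ^ 2 / c2) * |t| ^ 2 := by
      have b2 : ‖-(((L - 2 * s : ℝ) : ℂ) / N)‖ ≤ 4 / c2 * |t| ^ 2 := by
        rw [norm_neg, norm_div, Complex.norm_real, Real.norm_eq_abs]
        calc |L - 2 * s| / ‖N‖ ≤ (4 * |t| ^ 2) / c2 := by
              apply div_le_div₀ (by positivity) _ hc2 hN1
              refine hL1.trans ?_
              have : s ^ 2 ≤ |t| ^ 2 := by
                rw [← sq_abs s]
                exact pow_le_pow_left₀ (abs_nonneg s) hs 2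
              linarith
          _ = _ := by ring
      have b3 : ‖2 * (s : ℂ) * (s ^ 2 * Tj v ^ 2) / N‖ ≤ C1 ^ 2 / c2 * |t| ^ 2 := by
        rw [norm_div, norm_mul, norm_mul, norm_mul, norm_pow, norm_pow, Complex.norm_real,
          Complex.norm_ofNat, Real.norm_eq_abs]
        calc 2 * |s| * (|s| ^ 2 * ‖Tj v‖ ^ 2) / ‖N‖ ≤ (1 * (|t| ^ 2 * C1 ^ 2)) / c2 := by
              apply div_le_div₀ (by positivity) _ hc2 hN1
              apply mul_le_mul (by linarith) _ (by positivity) (by norm_num)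
              exact mul_le_mul (pow_le_pow_left₀ (abs_nonneg s) hs 2)
                (pow_le_pow_left₀ (norm_nonneg _) (h1 v hv).2 2) (by positivity) (by positivity)
          _ = _ := by ring
      calc _ ≤ _ := norm_add_le _ _
        _ ≤ 4 / c2 * |t| ^ 2 + C1 ^ 2 / c2 * |t| ^ 2 := add_le_add b2 b3
        _ = _ := by ring
    calc 2 / Real.pi * ‖Tj v‖ * _ ≤ 2 / Real.pi * C1 * ((4 / c2 + C1 ^ 2 / c2) * |t| ^ 2) := by
          apply mul_le_mul _ b1 (norm_nonneg _) (by positivity)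
          exact mul_le_mul_of_nonneg_left (h1 v hv).2 (by positivity)
      _ = _ := by ring
  have hconv : Convex ℝ (Set.Icc (-|t|) |t|) := convex_Icc _ _
  have h3 := hconv.norm_image_sub_le_of_norm_hasDerivWithin_le (f := h) (x := 0) (y := t)
    (fun s hs => (hd s ((abs_le.2 hs).trans ht)).hasDerivWithinAt)
    (fun s hs => key s (abs_le.2 hs)) ⟨by simp, by simp⟩ ⟨neg_abs_le t, le_abs_self t⟩
  have e4 : h t - h 0 = wt v t - wt v 0 + 2 / Real.pi * Tj v * (t : ℂ) ^ 2 := by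
    simp only [hh]
    push_cast
    ring
  rw [e4] at h3
  refine h3.trans (le_of_eq ?_)
  rw [sub_zero, Real.norm_eq_abs]
  ring

/-! ### The normalized integrand -/

private lemma ZzLap_W0 {v : ℂ} (hv : v ∈ ZzLap_K) : W0 v = ff (v + 1 / 2) + wt v 0 := by
  have h1 := abs_lt.1 (ZzLap_half hv)
  rw [W0_eq v h1.1 h1.2, wt, xt_zero, add_zero, sub_zero]
  ring

/-- The normalized terms along the path. -/
private noncomputable def ZzLap_Y (n g M : ℕ) (v : ℂ) (t : ℝ) : ℂ :=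
  fl n g M (lv n M v) (mt n M v t) * ((M : ℝ) ^ (3 / 2 : ℝ) : ℝ) * exp (-(M * W0 v))

private lemma ZzLap_repr (n g M : ℕ) (hM : 1 ≤ M) (v : ℂ) :
    M * ZZ n g M v * exp (-(M * W0 v)) = ∫ t in (-(9 / 10) : ℝ)..(9 / 10),
      (Real.sqrt M : ℂ) * (ZzLap_G v t * ZzLap_Y n g M v t) := by
  have hM0 : (0 : ℝ) < M := by exact_mod_cast hM
  have e : ((M : ℂ)) * M = (Real.sqrt M : ℂ) * (((M : ℝ) ^ (3 / 2 : ℝ) : ℝ) : ℂ) := by
    have h1 : (M : ℝ) * M = Real.sqrt M * (M : ℝ) ^ (3 / 2 : ℝ) := by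
      rw [Real.sqrt_eq_rpow, ← Real.rpow_add hM0]
      norm_num
      ring
    exact_mod_cast h1
  unfold ZZ
  rw [← intervalIntegral.integral_const_mul, ← intervalIntegral.integral_mul_const]
  apply intervalIntegral.integral_congr
  intro t _
  simp only [ZzLap_G, ZzLap_Y]
  calc (M : ℂ) * (M * Tj v / (Real.pi * (1 + (t : ℂ) ^ 2 * Tj v ^ 2)) *
        fl n g M (lv n M v) (mt n M v t)) * exp (-(M * W0 v)) =
      ((M : ℂ) * M) * (Tj v / (Real.pi * (1 + (t : ℂ) ^ 2 * Tj v ^ 2)) *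
        (fl n g M (lv n M v) (mt n M v t) * exp (-(M * W0 v)))) := by ring
    _ = _ := by
      rw [e]
      ring

/-- The exponential decay along the path. -/
private lemma ZzLap_decay : ∃ c : ℝ, 0 < c ∧ ∀ v ∈ ZzLap_K, ∀ t : ℝ, |t| ≤ 9 / 10 →
    (wt v t - wt v 0).re ≤ -(c * t ^ 2) := by
  obtain ⟨c1, C1, hc1, hC1, h1⟩ := ZzLap_const1
  have hpi := Real.pi_pos
  refine ⟨2 / Real.pi * c1 / (1 + C1 ^ 2) ^ 2, by positivity, fun v hv t ht => ?_⟩
  have h2 := wt_re v (ZzLap_half hv) t (by linarith)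
  have h3 : 2 / Real.pi * c1 / (1 + C1 ^ 2) ^ 2 ≤
      2 / Real.pi * (Tj v).re / (1 + ‖Tj v‖ ^ 2) ^ 2 := by
    apply div_le_div₀ _ _ (by positivity) _
    · have := Tj_re_pos v (ZzLap_half hv)
      positivity
    · exact mul_le_mul_of_nonneg_left (h1 v hv).1 (by positivity)
    · apply pow_le_pow_left₀ (by positivity)
      have := pow_le_pow_left₀ (norm_nonneg (Tj v)) (h1 v hv).2 2
      linarith
  rw [Complex.sub_re]
  have h4 := mul_le_mul_of_nonneg_right h3 (sq_nonneg t)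
  linarith

/-- Comparison of the normalized terms with the amplitude. -/
private lemma ZzLap_cmp (n g : ℕ) (hg : 1 ≤ g) (hgn : g + 1 ≤ n) : ∃ C : ℝ, 0 < C ∧
    ∀ᶠ M : ℕ in atTop, ∀ v ∈ UV, ∀ t : ℝ, |t| ≤ 9 / 10 →
      ∃ r : ℂ, ‖r‖ ≤ C / M ∧
        ZzLap_Y n g M v t = (amp n v t + r) * exp (M * (wt v t - wt v 0)) := by
  obtain ⟨C, hC, h⟩ := fl_path n g hg hgn
  refine ⟨C, hC, ?_⟩
  filter_upwards [h] with M hM v hv t ht
  refine ⟨_, hM v hv t ht, ?_⟩
  rw [add_sub_cancel]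
  unfold ZzLap_Y
  rw [mul_assoc (fl n g M (lv n M v) (mt n M v t) * _), ← Complex.exp_add]
  congr 2
  rw [ZzLap_W0 (ZzLap_sub hv)]
  ring

/-- The majorant. -/
private lemma ZzLap_maj (n g : ℕ) (hg : 1 ≤ g) (hgn : g + 1 ≤ n) : ∃ C c : ℝ, 0 < C ∧ 0 < c ∧
    ∀ᶠ M : ℕ in atTop, ∀ v ∈ UV, ∀ t : ℝ, |t| ≤ 9 / 10 →
      ‖ZzLap_G v t * ZzLap_Y n g M v t‖ ≤ C * Real.exp (-(c * (M * t ^ 2))) := by
  obtain ⟨C, hC, h⟩ := ZzLap_cmp n g hg hgn
  obtain ⟨B, hB, hG⟩ := ZzLap_G_bound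
  obtain ⟨c, hc, hd⟩ := ZzLap_decay
  obtain ⟨A, hA, ha⟩ := amp_bound n
  refine ⟨B * (A + C), c, by positivity, hc, ?_⟩
  filter_upwards [h, eventually_ge_atTop 1] with M hM hM1 v hv t ht
  have hM0 : (1 : ℝ) ≤ M := by exact_mod_cast hM1
  obtain ⟨r, hr, e⟩ := hM v hv t ht
  rw [e, norm_mul, norm_mul, Complex.norm_exp]
  have h1 : ‖amp n v t + r‖ ≤ A + C := by
    refine (norm_add_le _ _).trans (add_le_add (ha v hv t ht) (hr.trans ?_))
    exact div_le_self hC.le hM0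
  have h2 : Real.exp ((M : ℂ) * (wt v t - wt v 0)).re ≤ Real.exp (-(c * (M * t ^ 2))) := by
    apply Real.exp_le_exp.2
    have h3 : ((M : ℂ) * (wt v t - wt v 0)).re = M * (wt v t - wt v 0).re := by
      rw [← Complex.ofReal_natCast, Complex.re_ofReal_mul]
    rw [h3]
    have h4 := mul_le_mul_of_nonneg_left (hd v (ZzLap_sub hv) t ht) (by linarith : (0 : ℝ) ≤ M)
    linarith
  calc ‖ZzLap_G v t‖ * (‖amp n v t + r‖ * Real.exp ((M : ℂ) * (wt v t - wt v 0)).re) ≤
      B * ((A + C) * Real.exp (-(c * (M * t ^ 2)))) := by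
        apply mul_le_mul (hG v (ZzLap_sub hv) t ht) _ (by positivity) hB.le
        exact mul_le_mul h1 h2 (Real.exp_pos _).le (by positivity)
    _ = _ := by ring

theorem ZZ_bound (n g : ℕ) (hg : 1 ≤ g) (hgn : g + 1 ≤ n) : ∃ C : ℝ, 0 < C ∧
    ∀ᶠ M : ℕ in atTop, ∀ v ∈ UV, ‖ZZ n g M v‖ ≤ C / M * Real.exp (M * (W0 v).re) := by
  obtain ⟨C, c, hC, hc, h⟩ := ZzLap_maj n g hg hgn
  refine ⟨C * Real.sqrt (Real.pi / c), by have := Real.pi_pos; positivity, ?_⟩
  filter_upwards [h, eventually_ge_atTop 1] with M hM hM1 v hv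
  have hM0 : (0 : ℝ) < M := by exact_mod_cast hM1
  have hMc : (0 : ℝ) < c * M := by positivity
  have hint : MeasureTheory.Integrable (fun t : ℝ => Real.exp (-(c * M) * t ^ 2)) :=
    integrable_exp_neg_mul_sq hMc
  have e0 := ZzLap_repr n g M hM1 v
  have h1 : ‖(M : ℂ) * ZZ n g M v * exp (-(M * W0 v))‖ ≤ C * Real.sqrt (Real.pi / c) := by
    rw [e0]
    have h2 : ‖∫ t in (-(9 / 10) : ℝ)..(9 / 10),
        (Real.sqrt M : ℂ) * (ZzLap_G v t * ZzLap_Y n g M v t)‖ ≤
        ∫ t in (-(9 / 10) : ℝ)..(9 / 10), Real.sqrt M * C * Real.exp (-(c * M) * t ^ 2) := by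
      apply intervalIntegral.norm_integral_le_of_norm_le (by norm_num)
      · refine Filter.Eventually.of_forall fun t ht => ?_
        have ht' : |t| ≤ 9 / 10 := abs_le.2 ⟨ht.1.le, ht.2⟩
        rw [norm_mul, Complex.norm_real, Real.norm_of_nonneg (Real.sqrt_nonneg _), mul_assoc]
        apply mul_le_mul_of_nonneg_left _ (Real.sqrt_nonneg _)
        refine (hM v hv t ht').trans (le_of_eq ?_)
        congr 2
        ring
      · exact (hint.const_mul _).intervalIntegrable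
    refine h2.trans ?_
    rw [intervalIntegral.integral_const_mul]
    have h3 : ∫ t in (-(9 / 10) : ℝ)..(9 / 10), Real.exp (-(c * M) * t ^ 2) ≤
        Real.sqrt (Real.pi / (c * M)) := by
      rw [intervalIntegral.integral_of_le (by norm_num), ← integral_gaussian]
      exact MeasureTheory.setIntegral_le_integral hint
        (Filter.Eventually.of_forall fun t => (Real.exp_pos _).le)
    have h4 : Real.sqrt M * Real.sqrt (Real.pi / (c * M)) = Real.sqrt (Real.pi / c) := by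
      rw [← Real.sqrt_mul hM0.le]
      congr 1
      field_simp
    calc Real.sqrt M * C * ∫ t in (-(9 / 10) : ℝ)..(9 / 10), Real.exp (-(c * M) * t ^ 2) ≤
        Real.sqrt M * C * Real.sqrt (Real.pi / (c * M)) :=
          mul_le_mul_of_nonneg_left h3 (by positivity)
      _ = C * (Real.sqrt M * Real.sqrt (Real.pi / (c * M))) := by ring
      _ = _ := by rw [h4]
  rw [norm_mul, norm_mul, Complex.norm_natCast, Complex.norm_exp] at h1
  have h5 : (-((M : ℂ) * W0 v)).re = -(M * (W0 v).re) := by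
    rw [Complex.neg_re, ← Complex.ofReal_natCast, Complex.re_ofReal_mul]
  rw [h5, Real.exp_neg] at h1
  have h6 := Real.exp_pos (M * (W0 v).re)
  rw [div_mul_eq_mul_div, le_div_iff₀ hM0]
  rw [← div_eq_mul_inv, div_le_iff₀ h6] at h1
  linarith

/-! ### The constant -/

private lemma ZzLap_root {z : ℂ} (hz : 0 < z.re) :
    exp (log z / 2) ^ 2 = z ∧ |(exp (log z / 2)).im| < (exp (log z / 2)).re := by
  have hz0 : z ≠ 0 := by
    intro h
    rw [h] at hz
    simp at hz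
  have h1 : exp (log z / 2) ^ 2 = z := by
    rw [← Complex.exp_nat_mul]
    have : ((2 : ℕ) : ℂ) * (log z / 2) = log z := by
      push_cast
      ring
    rw [this, Complex.exp_log hz0]
  refine ⟨h1, ?_⟩
  set p := exp (log z / 2) with hp
  have h2 : 0 < p.re := by
    rw [hp, Complex.exp_re]
    apply mul_pos (Real.exp_pos _)
    apply Real.cos_pos_of_mem_Ioo
    have h3 := abs_lt.1 (Complex.abs_arg_lt_pi_div_two_iff.2 (Or.inl hz))
    have h4 : (log z / 2).im = arg z / 2 := by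
      have : log z / 2 = ((1 / 2 : ℝ) : ℂ) * log z := by
        push_cast
        ring
      rw [this, Complex.im_ofReal_mul, Complex.log_im]
      ring
    rw [h4]
    have := Real.pi_pos
    constructor <;> linarith [h3.1, h3.2]
  have h5 : z.re = p.re ^ 2 - p.im ^ 2 := by
    rw [← h1, sq, Complex.mul_re]
    ring
  have h6 : p.im ^ 2 < p.re ^ 2 := by linarith
  have h7 := sq_lt_sq.1 h6
  rwa [abs_of_pos h2] at h7

private lemma ZzLap_eq {a b : ℂ} (h : a ^ 2 = b ^ 2) (ha : 0 < a.re) (hb : 0 < b.re) : a = b := by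
  have h1 : (a - b) * (a + b) = 0 := by
    have : (a - b) * (a + b) = a ^ 2 - b ^ 2 := by ring
    rw [this, h, sub_self]
  rcases mul_eq_zero.1 h1 with h2 | h2
  · exact sub_eq_zero.1 h2
  · exfalso
    have h3 : (a + b).re = 0 := by rw [h2, Complex.zero_re]
    rw [Complex.add_re] at h3
    linarith

private lemma ZzLap_final (n : ℕ) (v : ℂ) (hv : |v.re| < 1 / 2) :
    Tj v / Real.pi * (amp n v 0 * (Real.pi / (2 / Real.pi * Tj v)) ^ (1 / 2 : ℂ)) = AZ n v := by
  have hT := Tj_re_pos v hv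
  have hpi := Real.pi_pos
  have hpi' : (Real.pi : ℂ) ≠ 0 := by exact_mod_cast hpi.ne'
  have hv2 := abs_lt.1 hv
  have hT0 : Tj v ≠ 0 := by
    intro h
    rw [h] at hT
    simp at hT
  set j : ℂ := v + 1 / 2 with hj
  have hjre : j.re = v.re + 1 / 2 := by
    rw [hj, Complex.add_re]
    norm_num
  have hj2re : (j / 2).re = (v.re + 1 / 2) / 2 := by
    have : j / 2 = ((1 / 2 : ℝ) : ℂ) * j := by
      push_cast
      ring
    rw [this, Complex.re_ofReal_mul, hjre]
    ring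
  -- the root of the Gaussian integral
  set z : ℂ := Real.pi / (2 / Real.pi * Tj v) with hz
  have hz1 : 0 < z.re := by
    have e : z = ((Real.pi ^ 2 / 2 : ℝ) : ℂ) * (Tj v)⁻¹ := by
      rw [hz]
      push_cast
      field_simp
    rw [e, Complex.re_ofReal_mul, Complex.inv_re]
    have := Complex.normSq_pos.2 hT0
    positivity
  have hz0 : z ≠ 0 := by
    intro h
    rw [h] at hz1
    simp at hz1
  have eP : z ^ (1 / 2 : ℂ) = exp (log z / 2) := by
    rw [Complex.cpow_def_of_ne_zero hz0]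
    congr 1
    ring
  rw [eP]
  obtain ⟨hP1, hP2⟩ := ZzLap_root hz1
  set P : ℂ := exp (log z / 2) with hP
  have hP0 : P ≠ 0 := Complex.exp_ne_zero _
  have hPre : 0 < P.re := (abs_nonneg _).trans_lt hP2
  -- the root of `2 sin (π j)`
  have hs : 0 < (2 * sin (Real.pi * j)).re := by
    apply Clausen_sin_re j <;> rw [hjre] <;> linarith
  obtain ⟨hQ1, hQ2⟩ := ZzLap_root hs
  set Q : ℂ := exp (log (2 * sin (Real.pi * j)) / 2) with hQ
  have eQ : exp (hh j / 2) = Q := rfl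
  have hQre : 0 < Q.re := (abs_nonneg _).trans_lt hQ2
  have hR : exp (hh (j / 2)) = 2 * sin (Real.pi * (j / 2)) := by
    apply hh_exp <;> rw [hj2re] <;> linarith
  have hRre : 0 < (2 * sin (Real.pi * (j / 2))).re := by
    apply Clausen_sin_re <;> rw [hj2re] <;> linarith
  -- `A = T P / π`
  set A : ℂ := Tj v / Real.pi * P with hA
  have eT : Tj v = Real.pi ^ 2 / (2 * P ^ 2) := by
    rw [hP1, hz]
    field_simp
  have eA : A = ((Real.pi / 2 : ℝ) : ℂ) * P⁻¹ := by
    rw [hA, eT]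
    push_cast
    field_simp
  have hN := Complex.normSq_pos.2 hP0
  have hAre : A.re = Real.pi / 2 * (P.re / Complex.normSq P) := by
    rw [eA, Complex.re_ofReal_mul, Complex.inv_re]
  have hAim : A.im = Real.pi / 2 * (-P.im / Complex.normSq P) := by
    rw [eA, Complex.im_ofReal_mul, Complex.inv_im]
  have hA2 : A ^ 2 = Tj v / 2 := by
    rw [eA, eT]
    push_cast
    field_simp
  have hAQ : 0 < (A * Q).re := by
    rw [Complex.mul_re, hAre, hAim]
    have h1 : Real.pi / 2 * (P.re / Complex.normSq P) * Q.re -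
        Real.pi / 2 * (-P.im / Complex.normSq P) * Q.im =
        Real.pi / 2 / Complex.normSq P * (P.re * Q.re + P.im * Q.im) := by
      field_simp
      ring
    rw [h1]
    have h2 : |P.im * Q.im| < P.re * Q.re := by
      rw [abs_mul]
      exact mul_lt_mul'' hP2 hQ2 (abs_nonneg _) (abs_nonneg _)
    have h3 := neg_abs_le (P.im * Q.im)
    have h4 : 0 < P.re * Q.re + P.im * Q.im := by linarith
    positivity
  have hsq2 : ((Real.sqrt 2 : ℝ) : ℂ) ^ 2 = 2 := by
    rw [← Complex.ofReal_pow, Real.sq_sqrt (by norm_num)]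
    norm_num
  have hcos : cos (Real.pi * (j / 2)) ≠ 0 := by
    intro h
    apply hT0
    unfold Tj
    have e : (Real.pi * (v + 1 / 2) / 2 : ℂ) = Real.pi * (j / 2) := by
      rw [hj]
      ring
    rw [e, Complex.tan_eq_sin_div_cos, h, div_zero]
  have main : (Real.sqrt 2 : ℂ) * (A * Q) = 2 * sin (Real.pi * (j / 2)) := by
    apply ZzLap_eq _ _ hRre
    · have e1 : Tj v = sin (Real.pi * (j / 2)) / cos (Real.pi * (j / 2)) := by
        unfold Tj
        have e : (Real.pi * (v + 1 / 2) / 2 : ℂ) = Real.pi * (j / 2) := by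
          rw [hj]
          ring
        rw [e, Complex.tan_eq_sin_div_cos]
      have e2 : sin (Real.pi * j) = 2 * sin (Real.pi * (j / 2)) * cos (Real.pi * (j / 2)) := by
        rw [← Complex.sin_two_mul]
        congr 1
        ring
      calc ((Real.sqrt 2 : ℂ) * (A * Q)) ^ 2 = (Real.sqrt 2 : ℂ) ^ 2 * (A ^ 2 * Q ^ 2) := by ring
        _ = 2 * (Tj v / 2 * (2 * sin (Real.pi * j))) := by rw [hsq2, hA2, hQ1]
        _ = _ := by
          rw [e1, e2]
          have h9 : ∀ s c : ℂ, c ≠ 0 → 2 * (s / c / 2 * (2 * (2 * s * c))) = (2 * s) ^ 2 := by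
            intro s c hc
            field_simp
          exact h9 _ _ hcos
    · rw [Complex.re_ofReal_mul]
      have : 0 < Real.sqrt 2 := by positivity
      positivity
  have hsq0 : ((Real.sqrt 2 : ℝ) : ℂ) ≠ 0 := by
    intro h
    rw [h] at hsq2
    norm_num at hsq2
  have e3 : amp n v 0 = exp (Real.pi * I * (n - 2) * (v + 1 / 2) / 2 +
      (n - 3) / 2 * hh (v + 1 / 2)) * (Q * (2 * sin (Real.pi * (j / 2)))⁻¹) := by
    rw [← hR, ← eQ, ← Complex.exp_neg, ← Complex.exp_add, ← Complex.exp_add]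
    unfold amp
    rw [xt_zero, add_zero, sub_zero, ← hj]
    congr 1
    ring
  unfold AZ
  rw [e3, ← main, ← hj]
  have hAQ0 : A * Q ≠ 0 := by
    intro h
    rw [h] at hAQ
    simp at hAQ
  have hA0 : A ≠ 0 := left_ne_zero_of_mul hAQ0
  have hQ0 : Q ≠ 0 := right_ne_zero_of_mul hAQ0
  have e5 : Tj v / Real.pi * (exp (Real.pi * I * (n - 2) * j / 2 + (n - 3) / 2 * hh j) *
      (Q * ((Real.sqrt 2 : ℂ) * (A * Q))⁻¹) * P) =
      exp (Real.pi * I * (n - 2) * j / 2 + (n - 3) / 2 * hh j) *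
        ((Tj v / Real.pi * P) * (Q * ((Real.sqrt 2 : ℂ) * (A * Q))⁻¹)) := by ring
  rw [e5, ← hA, div_eq_mul_inv]
  congr 1
  field_simp

/-! ### Continuity along the path -/

private lemma ZzLap_xt_small : ∃ B : ℝ, 0 < B ∧ ∀ v ∈ ZzLap_K, ∀ t : ℝ, |t| ≤ 9 / 10 →
    ‖xt v t‖ ≤ B * |t| := by
  obtain ⟨B, hB, hG⟩ := ZzLap_G_bound
  refine ⟨B, hB, fun v hv t ht => ?_⟩
  have h3 := (convex_Icc (-|t|) |t|).norm_image_sub_le_of_norm_hasDerivWithin_le (f := xt v)
    (x := 0) (y := t)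
    (fun s _ => (xt_deriv v (ZzLap_half hv) s).hasDerivWithinAt)
    (fun s hs => hG v hv s ((abs_le.2 hs).trans ht)) ⟨by simp, by simp⟩
    ⟨neg_abs_le t, le_abs_self t⟩
  rwa [xt_zero, sub_zero, sub_zero, Real.norm_eq_abs] at h3

private lemma ZzLap_G_re {v : ℂ} (h0 : |v.re| < 1 / 2) (t : ℝ) : 0 ≤ (ZzLap_G v t).re := by
  have hT := Tj_re_pos v h0
  have hpi := Real.pi_pos
  unfold ZzLap_G
  rw [Complex.div_re]
  set T := Tj v with hTd
  have e1 : ((Real.pi : ℂ) * (1 + (t : ℂ) ^ 2 * T ^ 2)).re =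
      Real.pi * (1 + t ^ 2 * (T.re ^ 2 - T.im ^ 2)) := by
    rw [Complex.re_ofReal_mul, Complex.add_re, Complex.one_re, ← Complex.ofReal_pow,
      Complex.re_ofReal_mul, sq T, Complex.mul_re]
    ring
  have e2 : ((Real.pi : ℂ) * (1 + (t : ℂ) ^ 2 * T ^ 2)).im =
      Real.pi * (t ^ 2 * (2 * T.re * T.im)) := by
    rw [Complex.im_ofReal_mul, Complex.add_im, Complex.one_im, ← Complex.ofReal_pow,
      Complex.im_ofReal_mul, sq T, Complex.mul_im]
    ring
  rw [e1, e2, ← add_div]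
  apply div_nonneg _ (Complex.normSq_nonneg _)
  have e3 : T.re * (Real.pi * (1 + t ^ 2 * (T.re ^ 2 - T.im ^ 2))) +
      T.im * (Real.pi * (t ^ 2 * (2 * T.re * T.im))) =
      Real.pi * T.re * (1 + t ^ 2 * (T.re ^ 2 + T.im ^ 2)) := by ring
  rw [e3]
  positivity

private lemma ZzLap_xt_mono {v : ℂ} (h0 : |v.re| < 1 / 2) : Monotone fun t => (xt v t).re := by
  have hd : ∀ t, HasDerivAt (fun t => (xt v t).re) (ZzLap_G v t).re t := by
    intro t
    have h1 := Complex.reCLM.hasFDerivAt.comp_hasDerivAt t (xt_deriv v h0 t)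
    exact h1
  apply monotone_of_deriv_nonneg
  · intro t
    exact (hd t).differentiableAt
  · intro t
    rw [(hd t).deriv]
    exact ZzLap_G_re h0 t

private lemma ZzLap_gap {v0 : ℂ} (h0 : v0 ∈ UV) : ∃ d : ℝ, 0 < d ∧ ∀ᶠ v in 𝓝 v0,
    ∀ t : ℝ, |t| ≤ 9 / 10 → |(xt v t).re| ≤ (v.re + 1 / 2) / 2 - d := by
  have hv := ZzLap_half (ZzLap_sub h0)
  have h1 : (xt v0 (9 / 10)).re < (v0.re + 1 / 2) / 2 :=
    (le_abs_self _).trans_lt (xt_re v0 hv (9 / 10) (by rw [abs_of_pos] <;> norm_num))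
  set d := (v0.re + 1 / 2) / 2 - (xt v0 (9 / 10)).re with hd
  have hd0 : 0 < d := by linarith
  refine ⟨d / 2, by linarith, ?_⟩
  have hc : ContinuousAt (fun v : ℂ => (v.re + 1 / 2) / 2 - (xt v (9 / 10)).re) v0 := by
    have h2 : ContinuousAt (fun v : ℂ => (xt v (9 / 10)).re) v0 :=
      ContinuousAt.comp (f := fun v : ℂ => xt v (9 / 10)) Complex.continuous_re.continuousAt
        (xt_an v0 hv (9 / 10)).continuousAt
    have h3 : ContinuousAt (fun v : ℂ => (v.re + 1 / 2) / 2) v0 := by fun_prop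
    exact h3.sub h2
  have h4 : ∀ᶠ v in 𝓝 v0, d / 2 < (v.re + 1 / 2) / 2 - (xt v (9 / 10)).re :=
    hc.eventually (lt_mem_nhds (by show d / 2 < d; linarith))
  have h5 : ∀ᶠ v : ℂ in 𝓝 v0, |v.re| < 1 / 2 :=
    (continuous_abs.comp Complex.continuous_re).continuousAt.eventually (gt_mem_nhds hv)
  filter_upwards [h4, h5] with v h6 h7 t ht
  have h8 := ZzLap_xt_mono h7 (abs_le.1 ht).1
  have h9 := ZzLap_xt_mono h7 (abs_le.1 ht).2
  simp only at h8 h9
  rw [xt_odd v h7, Complex.neg_re] at h8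
  rw [abs_le]
  constructor <;> linarith

private lemma ZzLap_LL_cont {M : ℕ} (hM : 0 < M) {f : ℝ → ℂ} {t : ℝ} (hf : ContinuousAt f t)
    (h0 : -1 < (f t).re) (h1 : (f t).re < M) : ContinuousAt (fun t => LL M (f t)) t :=
  ContinuousAt.comp (f := f) (LL_differentiableAt M hM (f t) h0 h1).continuousAt hf

private lemma ZzLap_Y_cont (n g : ℕ) (hg : 1 ≤ g) (hgn : g + 1 ≤ n) {v0 : ℂ} (h0 : v0 ∈ UV)
    {V : ℕ → ℂ} (hV : Tendsto V atTop (𝓝 v0)) : ∀ᶠ M : ℕ in atTop,
      ContinuousOn (fun t => ZzLap_Y n g M (V M) t) (Set.Icc (-(9 / 10)) (9 / 10)) := by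
  obtain ⟨d, hd, hgap⟩ := ZzLap_gap h0
  have hU : ∀ᶠ v in 𝓝 v0, v.re + 1 / 2 < 84 / 100 ∧ |v.re| < 1 / 2 := by
    have h1 : |v0.re| < 34 / 100 := h0.1
    have h2 : ∀ᶠ v : ℂ in 𝓝 v0, |v.re| < 34 / 100 :=
      (continuous_abs.comp Complex.continuous_re).continuousAt.eventually (gt_mem_nhds h1)
    filter_upwards [h2] with v h3
    have := (abs_lt.1 h3).2
    constructor <;> linarith
  have hM1 : ∀ᶠ M : ℕ in atTop, (n : ℝ) + 2 ≤ d * M := by
    have := (tendsto_natCast_atTop_atTop (R := ℝ)).const_mul_atTop hd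
    exact this.eventually_ge_atTop _
  have hM2 : ∀ᶠ M : ℕ in atTop, (n : ℝ) + 2 ≤ 16 / 100 * M := by
    have := (tendsto_natCast_atTop_atTop (R := ℝ)).const_mul_atTop
      (show (0 : ℝ) < 16 / 100 by norm_num)
    exact this.eventually_ge_atTop _
  filter_upwards [hV.eventually hgap, hV.eventually hU, hM1, hM2, eventually_ge_atTop 1] with
    M hg1 hU1 hM3 hM4 hM5
  intro t ht
  apply ContinuousAt.continuousWithinAt
  have hM0 : (0 : ℝ) < M := by exact_mod_cast hM5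
  have hMpos : 0 < M := hM5
  set v := V M with hv
  have hxc : ContinuousAt (xt v) t := (xt_deriv v hU1.2 t).continuousAt
  have hmt : ∀ s, mt n M v s = lv n M v / 2 + M * xt v s := by
    intro s
    unfold mt xt
    ring
  have hmc : ContinuousAt (mt n M v) t := by
    have : mt n M v = fun s => lv n M v / 2 + M * xt v s := funext hmt
    rw [this]
    exact continuousAt_const.add (continuousAt_const.mul hxc)
  -- real parts
  have hbt : 0 ≤ bt n ∧ bt n ≤ n := by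
    have hn : (1 : ℝ) ≤ n := by exact_mod_cast (by omega : 1 ≤ n)
    unfold bt
    constructor <;> linarith
  have hlre : (lv n M v).re = M * (v.re + 1 / 2) - bt n := by
    unfold lv
    rw [Complex.sub_re, Complex.ofReal_re, ← Complex.ofReal_natCast, Complex.re_ofReal_mul,
      Complex.add_re]
    norm_num
  have hmre : (mt n M v t).re = (M * (v.re + 1 / 2) - bt n) / 2 + M * (xt v t).re := by
    rw [hmt, Complex.add_re, ← Complex.ofReal_natCast, Complex.re_ofReal_mul,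
      show lv n M v / 2 = ((1 / 2 : ℝ) : ℂ) * lv n M v by push_cast; ring,
      Complex.re_ofReal_mul, hlre]
    ring
  have hx := abs_le.1 (hg1 t (abs_le.2 ht))
  have hx1 : -(M * (v.re + 1 / 2) / 2 - d * M) ≤ M * (xt v t).re := by
    have := mul_le_mul_of_nonneg_left hx.1 hM0.le
    linarith
  have hx2 : M * (xt v t).re ≤ M * (v.re + 1 / 2) / 2 - d * M := by
    have := mul_le_mul_of_nonneg_left hx.2 hM0.le
    linarith
  have hP : M * (v.re + 1 / 2) ≤ 84 / 100 * M := by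
    have := mul_le_mul_of_nonneg_left hU1.1.le hM0.le
    linarith
  set P : ℝ := M * (v.re + 1 / 2) with hPd
  set X : ℝ := M * (xt v t).re with hXd
  have hgr : (1 : ℝ) ≤ g := by exact_mod_cast hg
  have hgnr : (g : ℝ) + 1 ≤ n := by exact_mod_cast hgn
  have hb := hbt.1
  have hb2 := hbt.2
  have c1 : ContinuousAt (fun t => LL M (mt n M v t)) t := by
    have a1 : -1 < (mt n M v t).re := by rw [hmre]; linarith
    have a2 : (mt n M v t).re < M := by rw [hmre]; linarith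
    exact ZzLap_LL_cont hMpos hmc a1 a2
  have r2 : (lv n M v + n - g - 1 - mt n M v t).re = P - bt n + n - g - 1 - ((P - bt n) / 2 + X) := by
    rw [Complex.sub_re, hmre, Complex.sub_re, Complex.sub_re, Complex.add_re, hlre]
    simp
  have c2 : ContinuousAt (fun t => LL M (lv n M v + n - g - 1 - mt n M v t)) t := by
    have a1 : -1 < (lv n M v + n - g - 1 - mt n M v t).re := by rw [r2]; linarith
    have a2 : (lv n M v + n - g - 1 - mt n M v t).re < M := by rw [r2]; linarith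
    exact ZzLap_LL_cont hMpos (f := fun t => lv n M v + n - g - 1 - mt n M v t)
      (continuousAt_const.sub hmc) a1 a2
  have r3 : (lv n M v + g - 1 - mt n M v t).re = P - bt n + g - 1 - ((P - bt n) / 2 + X) := by
    rw [Complex.sub_re, hmre, Complex.sub_re, Complex.add_re, hlre]
    simp
  have c3 : ContinuousAt (fun t => LL M (lv n M v + g - 1 - mt n M v t)) t := by
    have a1 : -1 < (lv n M v + g - 1 - mt n M v t).re := by rw [r3]; linarith
    have a2 : (lv n M v + g - 1 - mt n M v t).re < M := by rw [r3]; linarith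
    exact ZzLap_LL_cont hMpos (f := fun t => lv n M v + g - 1 - mt n M v t)
      (continuousAt_const.sub hmc) a1 a2
  have c4 : ContinuousAt (fun t => qp M ((n - 2) * mt n M v t)) t := by
    unfold qp
    exact ((continuousAt_const.mul (continuousAt_const.mul hmc)).div_const _).cexp
  unfold ZzLap_Y fl tau
  refine ContinuousAt.mul (ContinuousAt.mul (continuousAt_const.mul (c4.mul ?_))
    continuousAt_const) continuousAt_const
  exact (((continuousAt_const.sub c2).sub c3).sub (continuousAt_const.mul c1)).cexp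

/-! ### The limit -/

/-- The rescaled integrand. -/
private noncomputable def ZzLap_F (n g : ℕ) (V : ℕ → ℂ) (M : ℕ) (x : ℝ) : ℂ :=
  Set.indicator (Set.Ioc (-(9 / 10) * Real.sqrt M) (9 / 10 * Real.sqrt M))
    (fun x => ZzLap_G (V M) (x / Real.sqrt M) * ZzLap_Y n g M (V M) (x / Real.sqrt M)) x

private lemma ZzLap_F_int (n g : ℕ) (V : ℕ → ℂ) (M : ℕ) (hM : 1 ≤ M) :
    M * ZZ n g M (V M) * exp (-(M * W0 (V M))) = ∫ x, ZzLap_F n g V M x := by
  have hM0 : (0 : ℝ) < M := by exact_mod_cast hM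
  have hs : 0 < Real.sqrt M := Real.sqrt_pos.2 hM0
  rw [ZzLap_repr n g M hM, intervalIntegral.integral_const_mul]
  have h1 := intervalIntegral.integral_comp_div (a := -(9 / 10) * Real.sqrt M)
    (b := 9 / 10 * Real.sqrt M)
    (fun t : ℝ => ZzLap_G (V M) t * ZzLap_Y n g M (V M) t) hs.ne'
  rw [mul_div_cancel_right₀ _ hs.ne', mul_div_cancel_right₀ _ hs.ne'] at h1
  unfold ZzLap_F
  rw [MeasureTheory.integral_indicator measurableSet_Ioc,
    ← intervalIntegral.integral_of_le (by nlinarith), h1, Complex.real_smul]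

private lemma ZzLap_mem {M : ℕ} (hM : 1 ≤ M) {x : ℝ}
    (hx : x ∈ Set.Ioc (-(9 / 10) * Real.sqrt M) (9 / 10 * Real.sqrt M)) :
    |x / Real.sqrt M| ≤ 9 / 10 := by
  have hM0 : (0 : ℝ) < M := by exact_mod_cast hM
  have hs : 0 < Real.sqrt M := Real.sqrt_pos.2 hM0
  rw [abs_div, abs_of_pos hs, div_le_iff₀ hs, abs_le]
  constructor
  · linarith [hx.1]
  · exact hx.2

private lemma ZzLap_sqrt_lim : Tendsto (fun M : ℕ => Real.sqrt M) atTop atTop :=
  Real.tendsto_sqrt_atTop.comp tendsto_natCast_atTop_atTop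

private lemma ZzLap_t_lim (x : ℝ) : Tendsto (fun M : ℕ => x / Real.sqrt M) atTop (𝓝 0) :=
  ZzLap_sqrt_lim.const_div_atTop x

private lemma ZzLap_amp_lim (n : ℕ) {v0 : ℂ} (h0 : v0 ∈ UV) {V : ℕ → ℂ}
    (hV : Tendsto V atTop (𝓝 v0)) (hVK : ∀ᶠ M in atTop, V M ∈ ZzLap_K) (x : ℝ) :
    Tendsto (fun M : ℕ => amp n (V M) (x / Real.sqrt M)) atTop (𝓝 (amp n v0 0)) := by
  obtain ⟨B, hB, hb⟩ := ZzLap_xt_small
  have hv := abs_lt.1 (ZzLap_half (ZzLap_sub h0))
  have ht := ZzLap_t_lim x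
  have hx : Tendsto (fun M : ℕ => xt (V M) (x / Real.sqrt M)) atTop (𝓝 0) := by
    rw [tendsto_zero_iff_norm_tendsto_zero]
    have h1 : Tendsto (fun M : ℕ => B * |x / Real.sqrt M|) atTop (𝓝 0) := by
      have := (ht.abs).const_mul B
      simpa using this
    have h2 : ∀ᶠ M : ℕ in atTop, |x / Real.sqrt M| ≤ 9 / 10 := by
      have h3 : Tendsto (fun M : ℕ => |x / Real.sqrt M|) atTop (𝓝 0) := by simpa using ht.abs
      exact h3.eventually (ge_mem_nhds (by norm_num))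
    refine tendsto_of_tendsto_of_tendsto_of_le_of_le' tendsto_const_nhds h1
      (Filter.Eventually.of_forall fun _ => norm_nonneg _) ?_
    filter_upwards [hVK, h2] with M h3 h4
    exact hb _ h3 _ h4
  have hj : Tendsto (fun M : ℕ => V M + 1 / 2) atTop (𝓝 (v0 + 1 / 2)) := hV.add_const _
  have hjre : (v0 + 1 / 2).re = v0.re + 1 / 2 := by
    rw [Complex.add_re]
    norm_num
  have hj2re : ((v0 + 1 / 2) / 2).re = (v0.re + 1 / 2) / 2 := by
    rw [show (v0 + 1 / 2) / 2 = ((1 / 2 : ℝ) : ℂ) * (v0 + 1 / 2) by push_cast; ring,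
      Complex.re_ofReal_mul, hjre]
    ring
  have c1 : Tendsto (fun M : ℕ => hh (V M + 1 / 2)) atTop (𝓝 (hh (v0 + 1 / 2))) :=
    (hh_hasDerivAt (v0 + 1 / 2) (by rw [hjre]; linarith) (by rw [hjre]; linarith)).continuousAt
      |>.tendsto.comp hj
  have hc := (hh_hasDerivAt ((v0 + 1 / 2) / 2) (by rw [hj2re]; linarith)
    (by rw [hj2re]; linarith)).continuousAt
  have a2 : Tendsto (fun M : ℕ => (V M + 1 / 2) / 2 - xt (V M) (x / Real.sqrt M)) atTop
      (𝓝 ((v0 + 1 / 2) / 2)) := by simpa using (hj.div_const 2).sub hx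
  have a3 : Tendsto (fun M : ℕ => (V M + 1 / 2) / 2 + xt (V M) (x / Real.sqrt M)) atTop
      (𝓝 ((v0 + 1 / 2) / 2)) := by simpa using (hj.div_const 2).add hx
  have c2 := hc.tendsto.comp a2
  have c3 := hc.tendsto.comp a3
  have e : amp n v0 0 = exp (Real.pi * I * (n - 2) * ((v0 + 1 / 2) / 2) +
      (n / 2 - 1) * hh (v0 + 1 / 2) - (n - 1) / 2 * hh ((v0 + 1 / 2) / 2) -
      (3 - n) / 2 * hh ((v0 + 1 / 2) / 2)) := by
    unfold amp
    rw [xt_zero, add_zero, sub_zero]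
  rw [e]
  unfold amp
  exact ((((a3.const_mul _).add (c1.const_mul _)).sub (c2.const_mul _)).sub
    (c3.const_mul _)).cexp

private lemma ZzLap_exp_lim {v0 : ℂ} (h0 : v0 ∈ UV) {V : ℕ → ℂ}
    (hV : Tendsto V atTop (𝓝 v0)) (hVK : ∀ᶠ M in atTop, V M ∈ ZzLap_K) (x : ℝ) :
    Tendsto (fun M : ℕ => exp (M * (wt (V M) (x / Real.sqrt M) - wt (V M) 0))) atTop
      (𝓝 (exp (-(2 / Real.pi * Tj v0) * (x : ℂ) ^ 2))) := by
  obtain ⟨C, hC, hq⟩ := ZzLap_quad
  have ht := ZzLap_t_lim x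
  have hT : Tendsto (fun M => Tj (V M)) atTop (𝓝 (Tj v0)) :=
    (ZzLap_Tj_cont (ZzLap_half (ZzLap_sub h0))).tendsto.comp hV
  have h3 : Tendsto (fun M : ℕ => |x / Real.sqrt M|) atTop (𝓝 0) := by simpa using ht.abs
  have h4 : ∀ᶠ M : ℕ in atTop, |x / Real.sqrt M| ≤ 1 / 2 :=
    h3.eventually (ge_mem_nhds (by norm_num))
  have r1 : Tendsto (fun M : ℕ => (M : ℂ) * (wt (V M) (x / Real.sqrt M) - wt (V M) 0 +
      2 / Real.pi * Tj (V M) * ((x / Real.sqrt M : ℝ) : ℂ) ^ 2)) atTop (𝓝 0) := by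
    rw [tendsto_zero_iff_norm_tendsto_zero]
    have h5 : Tendsto (fun M : ℕ => C * x ^ 2 * |x / Real.sqrt M|) atTop (𝓝 0) := by
      have := h3.const_mul (C * x ^ 2)
      simpa using this
    refine tendsto_of_tendsto_of_tendsto_of_le_of_le' tendsto_const_nhds h5
      (Filter.Eventually.of_forall fun _ => norm_nonneg _) ?_
    filter_upwards [hVK, h4, eventually_ge_atTop 1] with M a1 a2 a3
    have hM0 : (0 : ℝ) < M := by exact_mod_cast a3
    rw [norm_mul, Complex.norm_natCast]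
    calc (M : ℝ) * _ ≤ M * (C * |x / Real.sqrt M| ^ 3) :=
          mul_le_mul_of_nonneg_left (hq _ a1 _ a2) hM0.le
      _ = C * (M * |x / Real.sqrt M| ^ 2) * |x / Real.sqrt M| := by ring
      _ = _ := by
        rw [sq_abs, div_pow, Real.sq_sqrt hM0.le, mul_div_cancel₀ _ hM0.ne']
  have r2 : Tendsto (fun M : ℕ => -(2 / Real.pi * Tj (V M)) * (x : ℂ) ^ 2) atTop
      (𝓝 (-(2 / Real.pi * Tj v0) * (x : ℂ) ^ 2)) := ((hT.const_mul _).neg).mul_const _
  have r3 := (r1.add r2).cexp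
  rw [zero_add] at r3
  refine r3.congr' ?_
  filter_upwards [eventually_ge_atTop 1] with M a3
  have hM0 : (0 : ℝ) < M := by exact_mod_cast a3
  congr 1
  have e1 : (M : ℂ) * ((x / Real.sqrt M : ℝ) : ℂ) ^ 2 = (x : ℂ) ^ 2 := by
    have : (M : ℝ) * (x / Real.sqrt M) ^ 2 = x ^ 2 := by
      rw [div_pow, Real.sq_sqrt hM0.le, mul_div_cancel₀ _ hM0.ne']
    exact_mod_cast this
  calc (M : ℂ) * (wt (V M) (x / Real.sqrt M) - wt (V M) 0 +
        2 / Real.pi * Tj (V M) * ((x / Real.sqrt M : ℝ) : ℂ) ^ 2) +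
        -(2 / Real.pi * Tj (V M)) * (x : ℂ) ^ 2 =
      (M : ℂ) * (wt (V M) (x / Real.sqrt M) - wt (V M) 0) +
        2 / Real.pi * Tj (V M) * ((M : ℂ) * ((x / Real.sqrt M : ℝ) : ℂ) ^ 2) +
        -(2 / Real.pi * Tj (V M)) * (x : ℂ) ^ 2 := by ring
    _ = _ := by
      rw [e1]
      ring

private lemma ZzLap_G_lim {v0 : ℂ} (h0 : v0 ∈ UV) {V : ℕ → ℂ}
    (hV : Tendsto V atTop (𝓝 v0)) (x : ℝ) :
    Tendsto (fun M : ℕ => ZzLap_G (V M) (x / Real.sqrt M)) atTop (𝓝 (Tj v0 / Real.pi)) := by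
  have hpi : (Real.pi : ℂ) ≠ 0 := by exact_mod_cast Real.pi_pos.ne'
  have hT : Tendsto (fun M => Tj (V M)) atTop (𝓝 (Tj v0)) :=
    (ZzLap_Tj_cont (ZzLap_half (ZzLap_sub h0))).tendsto.comp hV
  have ht : Tendsto (fun M : ℕ => ((x / Real.sqrt M : ℝ) : ℂ)) atTop (𝓝 ((0 : ℝ) : ℂ)) :=
    (Complex.continuous_ofReal.tendsto 0).comp (ZzLap_t_lim x)
  have h1 := hT.div ((((ht.pow 2).mul (hT.pow 2)).const_add 1).const_mul (Real.pi : ℂ))
    (by simp)
  have e : Tj v0 / (Real.pi * (1 + ((0 : ℝ) : ℂ) ^ 2 * Tj v0 ^ 2)) = Tj v0 / Real.pi := by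
    simp
  rw [e] at h1
  exact h1

theorem ZZ_lim (n g : ℕ) (hg : 1 ≤ g) (hgn : g + 1 ≤ n) (v0 : ℂ) (h0 : v0 ∈ UV) (V : ℕ → ℂ)
    (hV : Tendsto V atTop (𝓝 v0)) :
    Tendsto (fun M : ℕ => M * ZZ n g M (V M) * exp (-(M * W0 (V M)))) atTop (𝓝 (AZ n v0)) := by
  classical
  have hv0 := ZzLap_half (ZzLap_sub h0)
  have hUo : IsOpen UV := by
    apply IsOpen.inter
    · exact isOpen_lt (continuous_abs.comp Complex.continuous_re) continuous_const
    · exact isOpen_lt (continuous_abs.comp Complex.continuous_im) continuous_const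
  have hVU : ∀ᶠ M in atTop, V M ∈ UV := hV.eventually (hUo.mem_nhds h0)
  have hVK : ∀ᶠ M in atTop, V M ∈ ZzLap_K := hVU.mono fun M h => ZzLap_sub h
  obtain ⟨C, hC, hcmp⟩ := ZzLap_cmp n g hg hgn
  obtain ⟨C', c, hC', hc, hmaj⟩ := ZzLap_maj n g hg hgn
  have hT := Tj_re_pos v0 hv0
  have hpi := Real.pi_pos
  have hb : 0 < (2 / Real.pi * Tj v0 : ℂ).re := by
    rw [show (2 / Real.pi * Tj v0 : ℂ) = ((2 / Real.pi : ℝ) : ℂ) * Tj v0 by push_cast; ring,
      Complex.re_ofReal_mul]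
    positivity
  have key : Tendsto (fun M : ℕ => ∫ x, ZzLap_F n g V M x) atTop
      (𝓝 (∫ x : ℝ, Tj v0 / Real.pi *
        (amp n v0 0 * exp (-(2 / Real.pi * Tj v0) * (x : ℂ) ^ 2)))) := by
    apply MeasureTheory.tendsto_integral_filter_of_dominated_convergence
      (fun x => C' * Real.exp (-c * x ^ 2))
    · -- measurability
      filter_upwards [ZzLap_Y_cont n g hg hgn h0 hV, hVU, eventually_ge_atTop 1] with M h1 h2 h3
      have hM0 : (0 : ℝ) < M := by exact_mod_cast h3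
      have hs : 0 < Real.sqrt M := Real.sqrt_pos.2 hM0
      unfold ZzLap_F
      rw [aestronglyMeasurable_indicator_iff measurableSet_Ioc]
      apply ContinuousOn.aestronglyMeasurable _ measurableSet_Ioc
      have hG : ContinuousOn (ZzLap_G (V M)) (Set.Icc (-(9 / 10)) (9 / 10)) := by
        intro t ht
        apply ContinuousAt.continuousWithinAt
        have hne : (Real.pi : ℂ) * (1 + (t : ℂ) ^ 2 * Tj (V M) ^ 2) ≠ 0 := by
          apply mul_ne_zero (by exact_mod_cast hpi.ne')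
          exact Complex.slitPlane_ne_zero (one_add_ne _ (ZzLap_half (ZzLap_sub h2)) t)
        unfold ZzLap_G
        have hc1 : ContinuousAt (fun t : ℝ =>
            (Real.pi : ℂ) * (1 + (t : ℂ) ^ 2 * Tj (V M) ^ 2)) t :=
          continuousAt_const.mul (continuousAt_const.add
            ((Complex.continuous_ofReal.continuousAt.pow 2).mul continuousAt_const))
        exact ContinuousAt.div (f := fun _ : ℝ => Tj (V M))
          (g := fun t : ℝ => (Real.pi : ℂ) * (1 + (t : ℂ) ^ 2 * Tj (V M) ^ 2))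
          continuousAt_const hc1 hne
      have hGY := hG.mul h1
      refine hGY.comp (continuous_id.div_const (Real.sqrt M)).continuousOn ?_
      intro x hx
      exact abs_le.1 (ZzLap_mem h3 hx)
    · -- bound
      filter_upwards [hmaj, hVU, eventually_ge_atTop 1] with M h1 h2 h3
      refine Filter.Eventually.of_forall fun x => ?_
      unfold ZzLap_F
      by_cases hx : x ∈ Set.Ioc (-(9 / 10) * Real.sqrt M) (9 / 10 * Real.sqrt M)
      · rw [Set.indicator_of_mem hx]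
        have hM0 : (0 : ℝ) < M := by exact_mod_cast h3
        refine (h1 _ h2 _ (ZzLap_mem h3 hx)).trans (le_of_eq ?_)
        congr 2
        rw [div_pow, Real.sq_sqrt hM0.le, mul_div_cancel₀ _ hM0.ne']
        ring
      · rw [Set.indicator_of_notMem hx, norm_zero]
        positivity
    · exact (integrable_exp_neg_mul_sq hc).const_mul _
    · -- pointwise limit
      refine Filter.Eventually.of_forall fun x => ?_
      have hev : ∀ᶠ M : ℕ in atTop,
          x ∈ Set.Ioc (-(9 / 10) * Real.sqrt M) (9 / 10 * Real.sqrt M) := by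
        filter_upwards [ZzLap_sqrt_lim.eventually_ge_atTop (2 * |x| + 1)] with M hM
        have h1 := neg_abs_le x
        have h2 := le_abs_self x
        have h3 := abs_nonneg x
        constructor <;> linarith
      have l1 := ZzLap_G_lim h0 hV x
      have l2 := ZzLap_amp_lim n h0 hV hVK x
      have l3 := ZzLap_exp_lim h0 hV hVK x
      -- the remainder
      have l4 : Tendsto (fun M : ℕ => ZzLap_Y n g M (V M) (x / Real.sqrt M)) atTop
          (𝓝 (amp n v0 0 * exp (-(2 / Real.pi * Tj v0) * (x : ℂ) ^ 2))) := by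
        have hr : ∀ᶠ M : ℕ in atTop, ∃ r : ℂ, ‖r‖ ≤ C / M ∧
            ZzLap_Y n g M (V M) (x / Real.sqrt M) = (amp n (V M) (x / Real.sqrt M) + r) *
              exp (M * (wt (V M) (x / Real.sqrt M) - wt (V M) 0)) := by
          filter_upwards [hcmp, hVU, hev, eventually_ge_atTop 1] with M h1 h2 h3 h4
          exact h1 _ h2 _ (ZzLap_mem h4 h3)
        set R : ℕ → ℂ := fun M => if h : ∃ r : ℂ, ‖r‖ ≤ C / M ∧
            ZzLap_Y n g M (V M) (x / Real.sqrt M) = (amp n (V M) (x / Real.sqrt M) + r) *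
              exp (M * (wt (V M) (x / Real.sqrt M) - wt (V M) 0)) then h.choose else 0 with hR
        have hR0 : Tendsto R atTop (𝓝 0) := by
          rw [tendsto_zero_iff_norm_tendsto_zero]
          have h5 : Tendsto (fun M : ℕ => C / (M : ℝ)) atTop (𝓝 0) :=
            tendsto_natCast_atTop_atTop.const_div_atTop C
          refine tendsto_of_tendsto_of_tendsto_of_le_of_le' tendsto_const_nhds h5
            (Filter.Eventually.of_forall fun _ => norm_nonneg _) ?_
          filter_upwards [hr] with M h6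
          simp only [hR]
          rw [dif_pos h6]
          exact h6.choose_spec.1
        have h7 := (l2.add hR0).mul l3
        rw [add_zero] at h7
        refine h7.congr' ?_
        filter_upwards [hr] with M h6
        simp only [hR]
        rw [dif_pos h6]
        exact h6.choose_spec.2.symm
      refine (l1.mul l4).congr' ?_
      filter_upwards [hev] with M hM
      unfold ZzLap_F
      rw [Set.indicator_of_mem hM]
  have e1 : ∫ x : ℝ, Tj v0 / Real.pi *
      (amp n v0 0 * exp (-(2 / Real.pi * Tj v0) * (x : ℂ) ^ 2)) = AZ n v0 := by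
    rw [MeasureTheory.integral_const_mul, MeasureTheory.integral_const_mul,
      integral_gaussian_complex hb]
    exact ZzLap_final n v0 hv0
  rw [e1] at key
  refine key.congr' ?_
  filter_upwards [eventually_ge_atTop 1] with M hM
  exact (ZzLap_F_int n g V M hM).symm

end Pool.Agent.H63.TW
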