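import Pool.Agent.H63.TW.ZzAn
import Pool.Agent.H63.TW.ZzLap
import Pool.Agent.H63.TW.Gph

/-! # The primitive of the outer summands -/

namespace Pool.Agent.H63.TW

open Pool.Agent.H63.VC Pool.Agent.H63.VC3 Complex Filter Topology
open scoped BigOperators

private theorem FoAn_neg {v : ℂ} (hv : v ∈ UV) : -v ∈ UV := by
  simpa [UV] using hv

private theorem FoAn_W0 (v : ℂ) : W0 (-v) = W0 v := by
  unfold W0
  rw [neg_div, sub_neg_eq_add, ← sub_eq_add_neg]
  ring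

private theorem FoAn_VU (p s : ℤ) (v : ℂ) : VU p s (-v) = VU p s v := by
  unfold VU
  rw [FoAn_W0, neg_sq]

private theorem FoAn_norm_le {v : ℂ} (hv : v ∈ UV) : ‖v‖ ≤ 1 := by
  obtain ⟨h1, h2⟩ := hv
  have := Complex.norm_le_abs_re_add_abs_im v
  linarith

private theorem FoAn_gph_an (n M : ℕ) (s : Set ℂ) :
    AnalyticOnNhd ℂ (fun v => gph n M (lv n M v)) s := by
  have h : Differentiable ℂ (fun v => gph n M (lv n M v)) := by
    unfold gph qp lv
    fun_prop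
  intro v _
  exact h.analyticAt v

private theorem FoAn_BN_an (n M : ℕ) (s : Set ℂ) :
    AnalyticOnNhd ℂ (fun v => BN n M (lv n M v)) s := by
  have h : Differentiable ℂ (fun v => BN n M (lv n M v)) := by
    unfold BN sn lv
    fun_prop
  intro v _
  exact h.analyticAt v

private theorem FoAn_FZ_an (p : ℤ) (n g M : ℕ) (h : AnalyticOnNhd ℂ (ZZ n g M) UV) :
    AnalyticOnNhd ℂ (FZ p n g M) UV := by
  have h1 : Differentiable ℂ
      (fun v : ℂ => exp (2 * Real.pi * I * p * M * v ^ 2) * (2 * sin (2 * Real.pi * v))) := by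
    fun_prop
  intro v hv
  exact ((h1.analyticAt v).mul ((FoAn_gph_an n M UV v hv).mul (FoAn_BN_an n M UV v hv))).mul
    (h v hv)

theorem FO_an (p : ℤ) (n g : ℕ) (hg : 1 ≤ g) (hgn : g + 1 ≤ n) :
    ∀ᶠ M : ℕ in atTop, AnalyticOnNhd ℂ (FZ p n g M) UV ∧ AnalyticOnNhd ℂ (FO p n g M) UV := by
  filter_upwards [ZZ_an n g hg hgn] with M hM
  have h1 := FoAn_FZ_an p n g M hM
  refine ⟨h1, ?_⟩
  intro v hv
  have h2 : AnalyticAt ℂ (fun v => FZ p n g M (-v)) v := by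
    have h3 : AnalyticAt ℂ (fun v : ℂ => -v) v := analyticAt_id.neg
    exact AnalyticAt.fun_comp (h1 (-v) (FoAn_neg hv)) h3
  exact ((h1 v hv).sub h2).div_const

private theorem FoAn_FZ_bound (p : ℤ) (n g : ℕ) (hg : 1 ≤ g) (hgn : g + 1 ≤ n) :
    ∃ C : ℝ, 0 < C ∧ ∀ᶠ M : ℕ in atTop, ∀ v ∈ UV,
      ‖FZ p n g M v‖ ≤ C / M * Real.exp (M * (VU p 1 v).re) := by
  obtain ⟨C1, hC1, h1⟩ := gph_bound n (by omega)
  obtain ⟨C2, hC2, h2⟩ := BN_bound n (by omega)
  obtain ⟨C3, hC3, h3⟩ := ZZ_bound n g hg hgn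
  have hs : ∀ v ∈ UV, ‖2 * sin (2 * Real.pi * v)‖ ≤ 2 * Real.exp (2 * Real.pi) := by
    intro v hv
    have h4 : ‖sin (2 * Real.pi * v)‖ ≤ Real.exp ‖2 * Real.pi * v‖ := by
      rw [Complex.sin]
      have e1 : ‖exp (-(2 * Real.pi * v) * I)‖ ≤ Real.exp ‖2 * Real.pi * v‖ := by
        refine (Complex.norm_exp_le_exp_norm _).trans (Real.exp_le_exp.2 ?_)
        rw [norm_mul, norm_neg, Complex.norm_I, mul_one]
      have e2 : ‖exp ((2 * Real.pi * v) * I)‖ ≤ Real.exp ‖2 * Real.pi * v‖ := by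
        refine (Complex.norm_exp_le_exp_norm _).trans (Real.exp_le_exp.2 ?_)
        rw [norm_mul, Complex.norm_I, mul_one]
      rw [norm_div, norm_mul, Complex.norm_I, mul_one, Complex.norm_two]
      have e3 := norm_sub_le (exp (-(2 * Real.pi * v) * I)) (exp ((2 * Real.pi * v) * I))
      linarith
    have h5 : ‖(2 * Real.pi * v : ℂ)‖ ≤ 2 * Real.pi := by
      rw [norm_mul, norm_mul, Complex.norm_two, Complex.norm_real, Real.norm_eq_abs,
        abs_of_pos Real.pi_pos]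
      have := FoAn_norm_le hv
      have hp := Real.pi_pos
      nlinarith
    rw [norm_mul, Complex.norm_two]
    have h6 := Real.exp_le_exp.2 h5
    linarith
  refine ⟨2 * Real.exp (2 * Real.pi) * (C1 * C2) * C3, by positivity, ?_⟩
  filter_upwards [h3, eventually_ge_atTop 1] with M hM hM1
  intro v hv
  have hMp : (0 : ℝ) < M := by exact_mod_cast hM1
  have a1 := h1 M hM1 v (FoAn_norm_le hv)
  have a2 := h2 M hM1 v (FoAn_norm_le hv)
  have a3 := hM v hv
  have a4 := hs v hv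
  have a5 : ‖exp (2 * Real.pi * I * p * M * v ^ 2)‖ =
      Real.exp (M * (2 * Real.pi * I * p * v ^ 2 : ℂ).re) := by
    rw [Complex.norm_exp]
    congr 1
    have : (2 * Real.pi * I * p * M * v ^ 2 : ℂ) = ((M : ℝ) : ℂ) * (2 * Real.pi * I * p * v ^ 2) := by
      push_cast
      ring
    rw [this, Complex.re_ofReal_mul]
  unfold FZ
  rw [norm_mul, norm_mul, norm_mul, norm_mul (gph n M (lv n M v)), a5]
  have b1 : ‖gph n M (lv n M v)‖ * ‖BN n M (lv n M v)‖ ≤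
      C1 * Real.exp (M * (-(Real.pi * I / 2) * v ^ 2).re) * C2 :=
    mul_le_mul a1 a2 (norm_nonneg _) (by positivity)
  have b2 : Real.exp (M * (2 * Real.pi * I * p * v ^ 2 : ℂ).re) * ‖2 * sin (2 * Real.pi * v)‖ ≤
      Real.exp (M * (2 * Real.pi * I * p * v ^ 2 : ℂ).re) * (2 * Real.exp (2 * Real.pi)) :=
    mul_le_mul_of_nonneg_left a4 (by positivity)
  have b3 := mul_le_mul (mul_le_mul b2 b1 (by positivity) (by positivity)) a3 (norm_nonneg _)
    (by positivity)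
  refine b3.trans (le_of_eq ?_)
  have e0 : (VU p 1 v).re = (2 * Real.pi * I * p * v ^ 2 : ℂ).re +
      (-(Real.pi * I / 2) * v ^ 2).re + (W0 v).re := by
    rw [← Complex.add_re, ← Complex.add_re]
    congr 1
    unfold VU
    push_cast
    ring
  rw [e0, mul_add, mul_add, Real.exp_add, Real.exp_add]
  ring

theorem FO_bound (p : ℤ) (n g : ℕ) (hg : 1 ≤ g) (hgn : g + 1 ≤ n) : ∃ C : ℝ, 0 < C ∧
    ∀ᶠ M : ℕ in atTop, ∀ v ∈ UV,
      ‖FZ p n g M v‖ ≤ C / M * Real.exp (M * (VU p 1 v).re) ∧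
      ‖FO p n g M v‖ ≤ C / M * Real.exp (M * (VU p 1 v).re) := by
  obtain ⟨C, hC, h⟩ := FoAn_FZ_bound p n g hg hgn
  refine ⟨C, hC, ?_⟩
  filter_upwards [h] with M hM
  intro v hv
  have h1 := hM v hv
  have h2 := hM (-v) (FoAn_neg hv)
  rw [FoAn_VU] at h2
  refine ⟨h1, ?_⟩
  unfold FO
  rw [norm_div, Complex.norm_two]
  have h3 := norm_sub_le (FZ p n g M v) (FZ p n g M (-v))
  linarith

private theorem FoAn_FZ_lim (p : ℤ) (n g : ℕ) (hg : 1 ≤ g) (hgn : g + 1 ≤ n) (v0 : ℂ)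
    (h0 : v0 ∈ UV) (V : ℕ → ℂ) (hV : Tendsto V atTop (𝓝 v0)) :
    Tendsto (fun M : ℕ => M * FZ p n g M (V M) *
      exp (-(M * (VU p 1 (V M) + Real.pi * I / 8)))) atTop (𝓝 (HF n v0)) := by
  have h1 := gph_lim n (by omega) v0 V hV
  have h2 := BN_lim n (by omega) v0 V hV
  have h3 := ZZ_lim n g hg hgn v0 h0 V hV
  have h4 : Tendsto (fun M : ℕ => 2 * sin (2 * Real.pi * V M)) atTop
      (𝓝 (2 * sin (2 * Real.pi * v0))) := by
    have hc : Continuous (fun v : ℂ => 2 * sin (2 * Real.pi * v)) := by fun_prop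
    exact (hc.tendsto v0).comp hV
  have h5 := ((h4.mul h1).mul h2).mul h3
  have e1 : 2 * sin (2 * Real.pi * v0) *
      exp (Real.pi * I * ((1 - n / 2) * (v0 + 1 / 2) - bt n / 2)) *
      (2 * cos (Real.pi * v0)) ^ (n - 2) * AZ n v0 = HF n v0 := by
    unfold AZ HF
    have e2 : exp (-(Real.pi * I * bt n / 2) + (n - 3) / 2 * hh (v0 + 1 / 2)) =
        exp (Real.pi * I * ((1 - n / 2) * (v0 + 1 / 2) - bt n / 2)) *
        exp (Real.pi * I * (n - 2) * (v0 + 1 / 2) / 2 + (n - 3) / 2 * hh (v0 + 1 / 2)) := by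
      rw [← Complex.exp_add]
      congr 1
      ring
    rw [e2]
    ring
  rw [← e1]
  refine h5.congr ?_
  intro M
  unfold FZ
  have e3 : exp (-(M * (VU p 1 (V M) + Real.pi * I / 8))) =
      exp (-(2 * Real.pi * I * p * M * V M ^ 2)) *
      exp (-(M * (-(Real.pi * I / 2) * V M ^ 2 + Real.pi * I / 8))) *
      exp (-(M * W0 (V M))) := by
    rw [← Complex.exp_add, ← Complex.exp_add]
    congr 1
    unfold VU
    push_cast
    ring
  have e4 : exp (2 * Real.pi * I * p * M * V M ^ 2) *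
      exp (-(2 * Real.pi * I * p * M * V M ^ 2)) = 1 := by
    rw [← Complex.exp_add, add_neg_cancel, Complex.exp_zero]
  rw [e3]
  linear_combination (-(2 * sin (2 * Real.pi * V M) *
    (gph n M (lv n M (V M)) * exp (-(M * (-(Real.pi * I / 2) * V M ^ 2 + Real.pi * I / 8)))) *
    BN n M (lv n M (V M)) * (M * ZZ n g M (V M) * exp (-(M * W0 (V M)))))) * e4

theorem FO_lim (p : ℤ) (n g : ℕ) (hg : 1 ≤ g) (hgn : g + 1 ≤ n) (v0 : ℂ) (h0 : v0 ∈ UV)
    (V : ℕ → ℂ) (hV : Tendsto V atTop (𝓝 v0)) :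
    Tendsto (fun M : ℕ => M * FO p n g M (V M) *
      exp (-(M * (VU p 1 (V M) + Real.pi * I / 8)))) atTop (𝓝 (HF n v0)) := by
  have h1 := FoAn_FZ_lim p n g hg hgn v0 h0 V hV
  have h2 := FoAn_FZ_lim p n g hg hgn (-v0) (FoAn_neg h0) (fun M => -V M) hV.neg
  have hre : |v0.re| < 1 / 2 := by
    have := h0.1
    linarith
  rw [HF_odd n v0 hre] at h2
  have h3 := (h1.sub h2).div_const 2
  have e1 : (HF n v0 - -HF n v0) / 2 = HF n v0 := by ring
  rw [e1] at h3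
  refine h3.congr ?_
  intro M
  simp only [FoAn_VU]
  unfold FO
  ring

end Pool.Agent.H63.TW
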