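import Pool.Agent.H63.GO.Defs
import Pool.Agent.H63.TW.FoAn

/-! # The analytic data of the outer sum -/

namespace Pool.Agent.H63.TW

open Pool.Agent.H63.VC Pool.Agent.H63.VC3 Pool.Agent.H63.GO Complex Filter Topology
open scoped BigOperators

private theorem AdT_W (v : ℂ) (h : |v.re| < 1 / 2) : HasDerivAt W0 (LT v) v := by
  have ha := abs_lt.1 h
  have e1 : (3 / 4 + v / 2 : ℂ).re = 3 / 4 + v.re / 2 := by
    simp
  have e2 : (3 / 4 - v / 2 : ℂ).re = 3 / 4 - v.re / 2 := by
    simp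
  have h1 : HasDerivAt (fun v : ℂ => ff (3 / 4 + v / 2)) (hh (3 / 4 + v / 2) * (1 / 2)) v :=
    HasDerivAt.comp (h := fun v : ℂ => 3 / 4 + v / 2) v
      (ff_hasDerivAt (3 / 4 + v / 2) (by rw [e1]; linarith) (by rw [e1]; linarith))
      (((hasDerivAt_id v).div_const 2).const_add (3 / 4))
  have h2 : HasDerivAt (fun v : ℂ => ff (3 / 4 - v / 2)) (hh (3 / 4 - v / 2) * (-(1 / 2))) v :=
    HasDerivAt.comp (h := fun v : ℂ => 3 / 4 - v / 2) v
      (ff_hasDerivAt (3 / 4 - v / 2) (by rw [e2]; linarith) (by rw [e2]; linarith))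
      (((hasDerivAt_id v).div_const 2).const_sub (3 / 4))
  have h3 := (h1.const_mul 2).add (h2.const_mul 2)
  refine (h3.congr_deriv ?_).congr_of_eventuallyEq (Eventually.of_forall fun w => ?_)
  · unfold LT
    ring
  · simp [W0]

private theorem AdT_V (p : ℤ) (v : ℂ) (h : |v.re| < 1 / 2) :
    HasDerivAt (VU p 1) (LT v + Real.pi * I * (4 * p - 1) * v) v := by
  have h1 := AdT_W v h
  have h2 : HasDerivAt (fun v : ℂ => 2 * Real.pi * I * (p - ((1 : ℤ) : ℂ) / 4) * v ^ 2)
      (2 * Real.pi * I * (p - ((1 : ℤ) : ℂ) / 4) * (2 * v)) v := by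
    have := (hasDerivAt_pow 2 v).const_mul (2 * Real.pi * I * (p - ((1 : ℤ) : ℂ) / 4))
    simpa using this
  have h3 := h1.add h2
  refine (h3.congr_deriv ?_).congr_of_eventuallyEq (Eventually.of_forall fun w => ?_)
  · push_cast
    ring
  · simp [VU]

private theorem AdT_hh (v : ℂ) (h : |v.re| < 1 / 2) : ContinuousAt LT v := by
  have ha := abs_lt.1 h
  have e1 : (3 / 4 + v / 2 : ℂ).re = 3 / 4 + v.re / 2 := by
    simp
  have e2 : (3 / 4 - v / 2 : ℂ).re = 3 / 4 - v.re / 2 := by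
    simp
  have c1 : ContinuousAt (fun v : ℂ => hh (3 / 4 + v / 2)) v :=
    ContinuousAt.comp (f := fun v : ℂ => 3 / 4 + v / 2)
      (hh_hasDerivAt (3 / 4 + v / 2) (by rw [e1]; linarith) (by rw [e1]; linarith)).continuousAt
      (by fun_prop)
  have c2 : ContinuousAt (fun v : ℂ => hh (3 / 4 - v / 2)) v :=
    ContinuousAt.comp (f := fun v : ℂ => 3 / 4 - v / 2)
      (hh_hasDerivAt (3 / 4 - v / 2) (by rw [e2]; linarith) (by rw [e2]; linarith)).continuousAt
      (by fun_prop)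
  exact c1.sub c2

private theorem AdT_Dc (p : ℤ) (v : ℂ) (h : |v.re| < 1 / 2) :
    ContinuousAt (fun v : ℂ => LT v + Real.pi * I * (4 * p - 1) * v) v :=
  (AdT_hh v h).add (by fun_prop)

private theorem AdT_L (p : ℤ) : ∃ L : ℝ, 0 < L ∧ ∀ v ∈ UV,
    ‖LT v + Real.pi * I * (4 * p - 1) * v‖ ≤ L := by
  have hK : IsCompact (Set.Icc (-(34 / 100) : ℝ) (34 / 100) ×ℂ
      Set.Icc (-(65 / 1000) : ℝ) (65 / 1000)) := isCompact_Icc.reProdIm isCompact_Icc
  have hc : ContinuousOn (fun v : ℂ => LT v + Real.pi * I * (4 * p - 1) * v)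
      (Set.Icc (-(34 / 100) : ℝ) (34 / 100) ×ℂ Set.Icc (-(65 / 1000) : ℝ) (65 / 1000)) := by
    intro v hv
    obtain ⟨h1, h2⟩ := hv
    refine (AdT_Dc p v ?_).continuousWithinAt
    have h3 : v.re ∈ Set.Icc (-(34 / 100) : ℝ) (34 / 100) := h1
    rw [abs_lt]
    constructor <;> linarith [h3.1, h3.2]
  obtain ⟨C, hC⟩ := hK.exists_bound_of_continuousOn hc
  refine ⟨max C 1, by positivity, fun v hv => ?_⟩
  have h1 := abs_lt.1 hv.1
  have h2 := abs_lt.1 hv.2
  exact (hC v ⟨⟨h1.1.le, h1.2.le⟩, ⟨h2.1.le, h2.2.le⟩⟩).trans (le_max_left _ _)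

private theorem AdT_ball {z : ℂ} (h1 : |z.re| < 33 / 100) (h2 : |z.im| < 62 / 1000) {r : ℝ}
    (hr : r ≤ 3 / 1000) : Metric.closedBall z r ⊆ UV := by
  intro w hw
  rw [Metric.mem_closedBall, dist_eq] at hw
  have h3 := (abs_re_le_norm (w - z)).trans hw
  have h4 := (abs_im_le_norm (w - z)).trans hw
  rw [sub_re, abs_le] at h3
  rw [sub_im, abs_le] at h4
  have h5 := abs_lt.1 h1
  have h6 := abs_lt.1 h2
  constructor
  · rw [abs_lt]
    constructor <;> linarith
  · rw [abs_lt]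
    constructor <;> linarith

private theorem AdT_re {z : ℂ} (h : z ∈ UV) : |z.re| < 1 / 2 := h.1.trans (by norm_num)

private theorem AdT_cauchy {f : ℂ → ℂ} {U : Set ℂ} (hf : AnalyticOnNhd ℂ f U) {z : ℂ} {r C : ℝ}
    (hr : 0 < r) (hs : Metric.closedBall z r ⊆ U) (hC : ∀ w ∈ Metric.closedBall z r, ‖f w‖ ≤ C) :
    ‖deriv f z‖ ≤ C / r := by
  refine norm_deriv_le_of_forall_mem_sphere_norm_le hr ?_
    (fun w hw => hC w (Metric.sphere_subset_closedBall hw))
  refine DifferentiableOn.diffContOnCl ?_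
  exact (hf.differentiableOn).mono (Metric.closure_ball_subset_closedBall.trans hs)

private theorem AdT_lip (p : ℤ) {L : ℝ} (hL : ∀ v ∈ UV,
    ‖LT v + Real.pi * I * (4 * p - 1) * v‖ ≤ L) {z : ℂ} {r : ℝ} (hr : 0 ≤ r)
    (hs : Metric.closedBall z r ⊆ UV) {w : ℂ} (hw : w ∈ Metric.closedBall z r) :
    (VU p 1 w).re ≤ (VU p 1 z).re + L * r := by
  have h := (convex_closedBall z r).norm_image_sub_le_of_norm_hasDerivWithin_le
    (f := VU p 1) (f' := fun v => LT v + Real.pi * I * (4 * p - 1) * v) (C := L)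
    (fun v hv => (AdT_V p v (AdT_re (hs hv))).hasDerivWithinAt) (fun v hv => hL v (hs hv))
    (Metric.mem_closedBall_self hr) hw
  have h1 := (re_le_norm (VU p 1 w - VU p 1 z)).trans h
  rw [sub_re] at h1
  have h2 : ‖w - z‖ ≤ r := by
    rw [Metric.mem_closedBall, dist_eq] at hw
    exact hw
  have hL0 : 0 ≤ L := (norm_nonneg _).trans (hL z (hs (Metric.mem_closedBall_self hr)))
  nlinarith [mul_le_mul_of_nonneg_left h2 hL0]

private theorem AdT_ph (M : ℕ) : ‖exp (-(Real.pi * I / 8 * M))‖ = 1 := by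
  rw [norm_exp]
  have : (-(Real.pi * I / 8 * M) : ℂ).re = 0 := by
    simp
  rw [this, Real.exp_zero]

/-- The bound of the derivative. -/
private theorem AdT_bound (p : ℤ) (n g : ℕ) (hg : 1 ≤ g) (hgn : g + 1 ≤ n) : ∃ C : ℝ, 0 < C ∧
    ∀ᶠ M : ℕ in atTop, ∀ z : ℂ, |z.re| < 33 / 100 → |z.im| < 62 / 1000 →
      ‖deriv (FO p n g M) z‖ ≤ C * Real.exp (M * (VU p 1 z).re) ∧
      ‖FO p n g M z‖ ≤ C * Real.exp (M * (VU p 1 z).re) := by
  obtain ⟨L, hL0, hL⟩ := AdT_L p
  obtain ⟨C, hC0, hC⟩ := FO_bound p n g hg hgn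
  refine ⟨max C (C * Real.exp (L * (3 / 1000)) / (3 / 1000)), by positivity, ?_⟩
  filter_upwards [hC, FO_an p n g hg hgn, eventually_ge_atTop 1] with M h1 h2 h3 z hz1 hz2
  have hM : (1 : ℝ) ≤ M := by exact_mod_cast h3
  have hM0 : (0 : ℝ) < M := by linarith
  have hr : (3 / 1000 : ℝ) / M ≤ 3 / 1000 := div_le_self (by norm_num) hM
  have hr0 : (0 : ℝ) < 3 / 1000 / M := by positivity
  have hs := AdT_ball hz1 hz2 hr
  constructor
  · refine (AdT_cauchy h2.2 hr0 hs (C := C / M * (Real.exp (L * (3 / 1000)) *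
      Real.exp (M * (VU p 1 z).re))) ?_).trans ?_
    · intro w hw
      refine (h1 w (hs hw)).2.trans ?_
      refine mul_le_mul_of_nonneg_left ?_ (by positivity)
      rw [← Real.exp_add]
      refine Real.exp_le_exp.2 ?_
      have := AdT_lip p hL hr0.le hs hw
      have h4 : (M : ℝ) * (L * (3 / 1000 / M)) = L * (3 / 1000) := by
        field_simp
      have h5 := mul_le_mul_of_nonneg_left this hM0.le
      rw [mul_add, h4] at h5
      linarith
    · have h6 : C / M * (Real.exp (L * (3 / 1000)) * Real.exp (M * (VU p 1 z).re)) /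
          (3 / 1000 / M) = C * Real.exp (L * (3 / 1000)) / (3 / 1000) *
          Real.exp (M * (VU p 1 z).re) := by
        field_simp
      rw [h6]
      exact mul_le_mul_of_nonneg_right (le_max_right _ _) (Real.exp_pos _).le
  · have hz : z ∈ UV := hs (Metric.mem_closedBall_self hr0.le)
    refine (h1 z hz).2.trans (mul_le_mul_of_nonneg_right ?_ (Real.exp_pos _).le)
    exact (div_le_self hC0.le hM).trans (le_max_left _ _)

private theorem AdT_odd (p : ℤ) (n g M : ℕ) (v : ℂ) : FO p n g M (-v) = -FO p n g M v := by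
  unfold FO
  rw [neg_neg]
  ring

private theorem AdT_even (p : ℤ) (n g M : ℕ) (v : ℂ) :
    deriv (FO p n g M) (-v) = deriv (FO p n g M) v := by
  have h1 := deriv_comp_neg (FO p n g M) v
  have h2 : (fun x => FO p n g M (-x)) = fun x => -FO p n g M x := by
    funext x
    exact AdT_odd p n g M x
  rw [h2] at h1
  have h3 : deriv (fun x => -FO p n g M x) v = -deriv (FO p n g M) v := deriv.fun_neg
  rw [h3] at h1
  exact (neg_injective h1).symm

private theorem AdT_proj (z : Fin 1 → ℂ) :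
    AnalyticAt ℂ (fun z : Fin 1 → ℂ => z 0) z :=
  (ContinuousLinearMap.proj (R := ℂ) (φ := fun _ : Fin 1 => ℂ) 0).analyticAt z

private theorem AdT_UT {z : Fin 1 → ℂ} (hz : z ∈ UT) : z 0 ∈ UV :=
  ⟨hz.1.trans (by norm_num), hz.2.trans (by norm_num)⟩

theorem adataT (p : ℤ) (n g : ℕ) (hg : 1 ≤ g) (hgn : g + 1 ≤ n) :
    AData (Finset.univ : Finset (Fin 1)) UT (V0T p) (PhT p n g) (PsT p n g) (oT n) 0 := by
  refine ⟨?_, ?_, ?_, ?_, ?_⟩
  · filter_upwards [FO_an p n g hg hgn] with M h z hz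
    have h1 : AnalyticAt ℂ (deriv (FO p n g M)) (z 0) := (h.2 (z 0) (AdT_UT hz)).deriv
    exact analyticAt_const.mul (h1.comp (f := fun z : Fin 1 → ℂ => z 0) (AdT_proj z))
  · intro j _
    filter_upwards [FO_an p n g hg hgn] with M h
    refine ⟨fun z hz => ?_, fun z hz => ?_⟩
    · exact analyticAt_const.mul ((h.2 (z 0) (AdT_UT hz)).comp
        (f := fun z : Fin 1 → ℂ => z 0) (AdT_proj z))
    · have h1 : HasFDerivAt (fun z : Fin 1 → ℂ => z 0)
          (ContinuousLinearMap.proj (R := ℂ) (φ := fun _ : Fin 1 => ℂ) 0) z :=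
        (ContinuousLinearMap.proj (R := ℂ) (φ := fun _ : Fin 1 => ℂ) 0).hasFDerivAt
      have h2 : HasDerivAt (FO p n g M) (deriv (FO p n g M) (z 0)) (z 0) :=
        (h.2 (z 0) (AdT_UT hz)).differentiableAt.hasDerivAt
      have h3 := (h2.comp_hasFDerivAt z h1).const_mul (exp (-(Real.pi * I / 8 * M)))
      have h4 : HasFDerivAt (PsT p n g j M) (exp (-(Real.pi * I / 8 * M)) •
          (deriv (FO p n g M) (z 0) •
            (ContinuousLinearMap.proj (R := ℂ) (φ := fun _ : Fin 1 => ℂ) 0))) z := h3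
      rw [h4.fderiv]
      have hj : j = 0 := Subsingleton.elim _ _
      subst hj
      simp [PhT]
  · obtain ⟨C, hC0, hC⟩ := AdT_bound p n g hg hgn
    refine ⟨C, hC0, ?_⟩
    filter_upwards [hC] with M h z hz
    have h1 := h (z 0) hz.1 hz.2
    rw [Real.rpow_zero, mul_one]
    refine ⟨?_, fun j _ => ?_⟩
    · unfold PhT V0T
      rw [norm_mul, AdT_ph, one_mul]
      exact h1.1
    · unfold PsT V0T
      rw [norm_mul, AdT_ph, one_mul]
      exact h1.2
  · refine Eventually.of_forall fun M z hz j _ => ?_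
    have hj : j = 0 := Subsingleton.elim _ _
    subst hj
    refine ⟨?_, ?_⟩
    · constructor
      · simpa using hz.1
      · simpa using hz.2
    · unfold PhT
      rw [Function.update_self, AdT_even]
  · intro M j _
    refine ⟨(n : ℤ) - 1 - M, ?_⟩
    unfold oT bt
    push_cast
    ring

/-- The limit of the derivative. -/
private theorem AdT_lim (p : ℤ) (n g : ℕ) (hg : 1 ≤ g) (hgn : g + 1 ≤ n) (v0 : ℂ)
    (h1 : |v0.re| < 33 / 100) (h2 : |v0.im| < 62 / 1000)
    (V : ℕ → ℂ) (hV : Tendsto V atTop (𝓝 v0)) :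
    Tendsto (fun M : ℕ => deriv (FO p n g M) (V M) *
      exp (-(M * (VU p 1 (V M) + Real.pi * I / 8)))) atTop
      (𝓝 ((LT v0 + Real.pi * I * (4 * p - 1) * v0) * HF n v0)) := by
  have hr0 : (0 : ℝ) < 1 / 1000 := by norm_num
  have hv0 : v0 ∈ UV := ⟨h1.trans (by norm_num), h2.trans (by norm_num)⟩
  -- neighbourhood
  have hnb : ∀ᶠ M in atTop, |(V M).re| < 33 / 100 ∧ |(V M).im| < 62 / 1000 := by
    have a1 : ContinuousAt (fun v : ℂ => |v.re|) v0 := by fun_prop
    have a2 : ContinuousAt (fun v : ℂ => |v.im|) v0 := by fun_prop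
    exact ((a1.tendsto.comp hV).eventually_lt_const h1).and
      ((a2.tendsto.comp hV).eventually_lt_const h2)
  obtain ⟨C, hC0, hC⟩ := FO_bound p n g hg hgn
  set G : ℕ → ℂ → ℂ := fun M v => M * FO p n g M v * exp (-(M * (VU p 1 v + Real.pi * I / 8)))
    with hG
  have hGlim : Tendsto (fun M => G M (V M)) atTop (𝓝 (HF n v0)) :=
    FO_lim p n g hg hgn v0 hv0 V hV
  have hVan : AnalyticOnNhd ℂ (VU p 1) UV := by
    have hopen : IsOpen UV := by
      have : UV = {v : ℂ | |v.re| < 34 / 100} ∩ {v : ℂ | |v.im| < 65 / 1000} := rfl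
      rw [this]
      exact (isOpen_lt (by fun_prop) continuous_const).inter
        (isOpen_lt (by fun_prop) continuous_const)
    refine DifferentiableOn.analyticOnNhd (fun v hv => ?_) hopen
    exact (AdT_V p v (AdT_re hv)).differentiableAt.differentiableWithinAt
  -- the derivative of `G` is bounded
  have hGb : ∀ᶠ M in atTop, ‖deriv (G M) (V M)‖ ≤ C / (1 / 1000) := by
    filter_upwards [hC, FO_an p n g hg hgn, eventually_ge_atTop 1, hnb] with M b1 b2 b3 b4
    have hM : (1 : ℝ) ≤ M := by exact_mod_cast b3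
    have hM0 : (0 : ℝ) < M := by linarith
    have hs := AdT_ball b4.1 b4.2 (r := 1 / 1000) (by norm_num)
    have hGa : AnalyticOnNhd ℂ (G M) UV := by
      intro v hv
      refine (analyticAt_const.mul (b2.2 v hv)).mul ?_
      refine (analyticAt_const.mul ((hVan v hv).add analyticAt_const)).neg.cexp
    refine AdT_cauchy hGa hr0 hs (fun w hw => ?_)
    have h3 := (b1 w (hs hw)).2
    simp only [hG]
    rw [norm_mul, norm_mul, norm_natCast, norm_exp]
    have h4 : (-(M * (VU p 1 w + Real.pi * I / 8)) : ℂ).re = -(M * (VU p 1 w).re) := by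
      simp
    rw [h4]
    calc (M : ℝ) * ‖FO p n g M w‖ * Real.exp (-(M * (VU p 1 w).re))
        ≤ M * (C / M * Real.exp (M * (VU p 1 w).re)) * Real.exp (-(M * (VU p 1 w).re)) := by
          gcongr
      _ = C * (Real.exp (M * (VU p 1 w).re) * Real.exp (-(M * (VU p 1 w).re))) := by
          field_simp
      _ = C := by
          rw [← Real.exp_add, add_neg_cancel, Real.exp_zero, mul_one]
  -- the formula
  have hform : ∀ᶠ M : ℕ in atTop, deriv (FO p n g M) (V M) *
      exp (-(M * (VU p 1 (V M) + Real.pi * I / 8))) =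
      (1 / M : ℂ) * deriv (G M) (V M) +
        (LT (V M) + Real.pi * I * (4 * p - 1) * V M) * G M (V M) := by
    filter_upwards [FO_an p n g hg hgn, eventually_ge_atTop 1, hnb] with M b2 b3 b4
    have hM0 : (M : ℂ) ≠ 0 := by
      have : 0 < M := b3
      exact_mod_cast this.ne'
    have hmem : V M ∈ UV := ⟨b4.1.trans (by norm_num), b4.2.trans (by norm_num)⟩
    have d1 : HasDerivAt (FO p n g M) (deriv (FO p n g M) (V M)) (V M) :=
      (b2.2 (V M) hmem).differentiableAt.hasDerivAt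
    have d2 := (((AdT_V p (V M) (AdT_re hmem)).add_const (Real.pi * I / 8 : ℂ)).const_mul
      (M : ℂ)).neg.cexp
    have d3 := (d1.const_mul (M : ℂ)).mul d2
    have d4 : deriv (G M) (V M) = _ := d3.deriv
    rw [d4]
    simp only [hG, Pi.neg_apply]
    field_simp
    ring
  have hD : Tendsto (fun M : ℕ => LT (V M) + Real.pi * I * (4 * p - 1) * V M) atTop
      (𝓝 (LT v0 + Real.pi * I * (4 * p - 1) * v0)) :=
    (AdT_Dc p v0 (AdT_re hv0)).tendsto.comp hV
  have hz : Tendsto (fun M : ℕ => (1 / M : ℂ) * deriv (G M) (V M)) atTop (𝓝 0) := by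
    have hM : Tendsto (fun M : ℕ => C / (1 / 1000) * (1 / (M : ℝ))) atTop (𝓝 0) := by
      simpa using (tendsto_one_div_atTop_nhds_zero_nat (𝕜 := ℝ)).const_mul (C / (1 / 1000))
    refine squeeze_zero_norm' ?_ hM
    filter_upwards [hGb] with M hb
    rw [norm_mul, norm_div, norm_one, norm_natCast, mul_comm]
    exact mul_le_mul_of_nonneg_right hb (by positivity)
  have hfin := hz.add (hD.mul hGlim)
  rw [zero_add] at hfin
  exact hfin.congr' (hform.mono fun M h => h.symm)

theorem alimT (p : ℤ) (n g : ℕ) (hg : 1 ≤ g) (hgn : g + 1 ≤ n) (v : ℂ) (hc : CritT p 1 v)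
    (h0 : |v.re| < 33 / 100) :
    ALim (V0T p) (PhT p n g) 0 (cp (fun _ => v.re) (fun _ => v.im)) := by
  have him : |v.im| < 62 / 1000 := by
    rw [abs_of_pos hc.im_pos]
    exact hc.im_le.trans_lt (by norm_num)
  have hcp : (cp (fun _ : Fin 1 => v.re) (fun _ => v.im)) 0 = v := by
    simp [cp, re_add_im]
  refine ⟨(LT v + Real.pi * I * (4 * p - 1) * v) * HF n v, ?_, fun Z hZ => ?_⟩
  · have h1 : LT v + Real.pi * I * (4 * p - 1) * v = -(2 * Real.pi * I) := by
      have := hc.eq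
      push_cast at this
      linear_combination this
    rw [h1]
    refine mul_ne_zero (neg_ne_zero.2 two_pi_I_ne_zero) (HF_ne n v (h0.trans (by norm_num)) ?_)
    intro h
    have := hc.im_pos
    rw [h] at this
    simp at this
  · have hV : Tendsto (fun M => Z M 0) atTop (𝓝 v) := by
      have := ((continuous_apply (0 : Fin 1)).tendsto
        (cp (fun _ : Fin 1 => v.re) (fun _ => v.im))).comp hZ
      rw [hcp] at this
      exact this
    refine (AdT_lim p n g hg hgn v h0 him _ hV).congr fun M => ?_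
    unfold PhT V0T
    rw [Real.rpow_zero, ofReal_one, div_one]
    have h5 : exp (-(M * (VU p 1 (Z M 0) + Real.pi * I / 8))) =
        exp (-(Real.pi * I / 8 * M)) * exp (-(M * VU p 1 (Z M 0))) := by
      rw [← exp_add]
      congr 1
      ring
    rw [h5]
    ring

end Pool.Agent.H63.TW
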