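import Pool.Agent.H63.TW.JetD

/-! # The dual formula for values and derivatives at the lattice points -/

namespace Pool.Agent.H63.TW

open Pool.Agent.H63.VC Pool.Agent.H63.VC3 Complex
open scoped BigOperators

private lemma Jets_sn_diff (M : ℕ) : Differentiable ℂ (sn M) := by
  unfold sn
  fun_prop

private lemma Jets_BN_diff (n M : ℕ) : Differentiable ℂ (BN n M) := by
  unfold BN
  have h := Jets_sn_diff M
  fun_prop

private lemma Jets_Xi (n g M : ℕ) : Xi n g M = fun l => BN n M l * Xx n g M l := by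
  funext l
  unfold Xi Xx
  ring

/-- `2 sin (π k / M) ≠ 0` for `0 < k < M`. -/
private lemma Jets_sn_ne (M k : ℕ) (h0 : 0 < k) (h1 : k < M) : sn M k ≠ 0 := by
  have hM : (0 : ℝ) < M := by exact_mod_cast (lt_trans h0 h1)
  have hk0 : (0 : ℝ) < k := by exact_mod_cast h0
  have hk1 : (k : ℝ) < M := by exact_mod_cast h1
  have hp : 0 < Real.sin (Real.pi * k / M) := by
    apply Real.sin_pos_of_pos_of_lt_pi
    · have := Real.pi_pos
      positivity
    · rw [div_lt_iff₀ hM]
      exact mul_lt_mul_of_pos_left hk1 Real.pi_pos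
  have e : sn M k = ((2 * Real.sin (Real.pi * k / M) : ℝ) : ℂ) := by
    unfold sn
    push_cast
    rfl
  rw [e]
  exact_mod_cast (by positivity : (2 * Real.sin (Real.pi * k / M)) ≠ 0)

private lemma Jets_BN_ne (n M l : ℕ) (hl : l + n ≤ M + 1) : BN n M l ≠ 0 := by
  unfold BN
  rw [Finset.prod_ne_zero_iff]
  intro i hi
  rw [Finset.mem_range] at hi
  have h := Jets_sn_ne M (l + i + 1) (by omega) (by omega)
  push_cast at h
  exact h

/-- `BN` has opposite derivatives at `l` and `M + 1 - n - l`. -/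
private lemma Jets_BN_deriv (n M : ℕ) (hn : 2 ≤ n) (hM : n ≤ M) (l l' : ℕ)
    (hl : l + l' + n = M + 1) : deriv (BN n M) l' = -deriv (BN n M) l := by
  have hl' : ((l' : ℕ) : ℂ) = (M : ℂ) + 1 - n - l := by
    have : ((l + l' + n : ℕ) : ℂ) = ((M + 1 : ℕ) : ℂ) := by rw [hl]
    push_cast at this
    linear_combination this
  have e : (fun x : ℂ => BN n M ((M : ℂ) + 1 - n - x)) = BN n M := by
    funext x
    exact BN_even n M hn hM x
  have h1 : HasDerivAt (fun x : ℂ => (M : ℂ) + 1 - n - x) (-1) (l : ℂ) := by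
    simpa using (hasDerivAt_id (l : ℂ)).const_sub ((M : ℂ) + 1 - n)
  have h2 : HasDerivAt (BN n M) (deriv (BN n M) l') ((M : ℂ) + 1 - n - l) := by
    rw [← hl']
    exact (Jets_BN_diff n M).differentiableAt.hasDerivAt
  have h3 : HasDerivAt (fun x : ℂ => BN n M ((M : ℂ) + 1 - n - x))
      (deriv (BN n M) l' * (-1)) (l : ℂ) := HasDerivAt.comp (l : ℂ) h2 h1
  rw [e] at h3
  rw [h3.deriv]
  ring

private lemma Jets_Xi_deriv (n g M : ℕ) (hM : 1 ≤ M) (l : ℂ) (h0 : -1 < l.re) (h1 : l.re < M) :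
    deriv (Xi n g M) l = deriv (BN n M) l * Xx n g M l + BN n M l * deriv (Xx n g M) l := by
  rw [Jets_Xi]
  exact ((Jets_BN_diff n M).differentiableAt.hasDerivAt.mul
    (Xx_diff n g M hM l h0 h1).hasDerivAt).deriv

theorem Xi_diff (n g M : ℕ) (hM : 1 ≤ M) (l : ℂ) (h0 : -1 < l.re) (h1 : l.re < M) :
    DifferentiableAt ℂ (Xi n g M) l := by
  rw [Jets_Xi]
  exact (Jets_BN_diff n M).differentiableAt.mul (Xx_diff n g M hM l h0 h1)

theorem jet_val (n g M : ℕ) (hg : 1 ≤ g) (hgn : g + 1 ≤ n) (hM : 2 * n + 2 ≤ M) (l : ℕ)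
    (hl : l + n ≤ M + 1) : PP n g M l = C0 n g M * Xi n g M l := by
  have hne := Jets_BN_ne n M l hl
  have h := Gm_val n g M hg hgn hM l hl
  unfold Gm at h
  rw [div_eq_iff hne] at h
  rw [h, Jets_Xi]
  ring

theorem jet_der (n g M : ℕ) (hg : 1 ≤ g) (hgn : g + 1 ≤ n) (hM : 2 * n + 2 ≤ M) (l l' : ℕ)
    (hl : l + l' + n = M + 1) :
    deriv (PP n g M) l = C0 n g M * ((deriv (Xi n g M) l - deriv (Xi n g M) l') / 2) := by
  have hn : 2 ≤ n := by omega
  have hnM : n ≤ M := by omega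
  have hM1 : 1 ≤ M := by omega
  have hlM : (l : ℝ) < M := by exact_mod_cast (by omega : l < M)
  have hlM' : (l' : ℝ) < M := by exact_mod_cast (by omega : l' < M)
  have hl0 : (-1 : ℝ) < l := lt_of_lt_of_le (by norm_num) (Nat.cast_nonneg l)
  have hl0' : (-1 : ℝ) < l' := lt_of_lt_of_le (by norm_num) (Nat.cast_nonneg l')
  have hne := Jets_BN_ne n M l (by omega)
  have hG : DifferentiableAt ℂ (Gm n g M) (l : ℂ) := by
    apply Gm_diff n g M hn (by omega) (l : ℂ)
    · simpa using hl0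
    · have : (l : ℝ) + n ≤ M + 1 := by exact_mod_cast (by omega : l + n ≤ M + 1)
      simp only [natCast_re]
      linarith
  have hev : PP n g M =ᶠ[nhds (l : ℂ)] fun x => BN n M x * Gm n g M x := by
    have hc : ContinuousAt (BN n M) (l : ℂ) := (Jets_BN_diff n M).continuous.continuousAt
    filter_upwards [hc.eventually_ne hne] with x hx
    unfold Gm
    field_simp
  have hP : deriv (PP n g M) l =
      deriv (BN n M) l * Gm n g M l + BN n M l * deriv (Gm n g M) l := by
    rw [hev.deriv_eq]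
    exact ((Jets_BN_diff n M).differentiableAt.hasDerivAt.mul hG.hasDerivAt).deriv
  have hBl : BN n M (l' : ℂ) = BN n M l := by
    have hl' : ((l' : ℕ) : ℂ) = (M : ℂ) + 1 - n - l := by
      have : ((l + l' + n : ℕ) : ℂ) = ((M + 1 : ℕ) : ℂ) := by rw [hl]
      push_cast at this
      linear_combination this
    rw [hl']
    exact BN_even n M hn hnM l
  rw [hP, Jets_Xi_deriv n g M hM1 l (by simpa using hl0) (by simpa using hlM),
    Jets_Xi_deriv n g M hM1 l' (by simpa using hl0') (by simpa using hlM'),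
    Jets_BN_deriv n M hn hnM l l' hl, hBl, Gm_val n g M hg hgn hM l (by omega),
    Gm_der n g M hg hgn hM l l' hl, ← Xx_even n g M hg hgn hM l l' hl]
  ring

end Pool.Agent.H63.TW
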