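import Pool.Agent.H63.TW.DgJN
import Pool.Agent.H63.TW.Jets

/-! # The exact formula -/

namespace Pool.Agent.H63.TW

open Pool.Agent.H63.VC Pool.Agent.H63.VC3 Complex
open scoped BigOperators

private noncomputable def Exact_E (p : ℤ) (M : ℕ) (v : ℂ) : ℂ :=
  exp (2 * Real.pi * I * p * M * v ^ 2) * (2 * sin (2 * Real.pi * v))

private theorem Exact_E_diff (p : ℤ) (M : ℕ) : Differentiable ℂ (Exact_E p M) := by
  unfold Exact_E
  fun_prop

private theorem Exact_E_odd (p : ℤ) (M : ℕ) (v : ℂ) : Exact_E p M (-v) = -Exact_E p M v := by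
  unfold Exact_E
  rw [neg_sq, mul_neg, sin_neg]
  ring

private theorem Exact_sn_diff (M : ℕ) : Differentiable ℂ (sn M) := by
  unfold sn
  fun_prop

private theorem Exact_Pr_diff (n M k : ℕ) : Differentiable ℂ (Pr n M k) := by
  unfold Pr
  intro z
  refine DifferentiableAt.fun_finsetProd fun i _ => ?_
  have h1 := Exact_sn_diff M
  have h2 : Differentiable ℂ (fun l : ℂ => sn M (i - l)) := h1.comp (by fun_prop)
  have h3 : Differentiable ℂ (fun l : ℂ => sn M (i + l + n - 1)) := h1.comp (by fun_prop)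
  exact ((h2 z).mul (h3 z)).neg

private theorem Exact_PP_diff (n g M : ℕ) : Differentiable ℂ (PP n g M) := by
  unfold PP
  intro z
  refine DifferentiableAt.fun_sum fun k _ => ?_
  exact (Exact_Pr_diff n M k z).const_mul _

private theorem Exact_lv_der (n M : ℕ) (v : ℂ) : HasDerivAt (lv n M) M v := by
  unfold lv
  have h1 : HasDerivAt (fun v : ℂ => (M : ℂ) * (v + 1 / 2) - bt n) ((M : ℂ) * 1) v :=
    (((hasDerivAt_id v).add_const _).const_mul _).sub_const _
  rwa [mul_one] at h1

private theorem Exact_lv_vl (n M l : ℕ) (hM : 1 ≤ M) : lv n M (vl n M l) = l := by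
  unfold lv vl
  have h1 : (M : ℂ) ≠ 0 := by
    have : M ≠ 0 := by omega
    exact_mod_cast this
  push_cast
  field_simp
  ring

private theorem Exact_vl_refl (n M l l' : ℕ) (hM : 1 ≤ M) (h : l + l' + n = M + 1) :
    ((vl n M l' : ℝ) : ℂ) = -((vl n M l : ℝ) : ℂ) := by
  have h0 : (M : ℝ) ≠ 0 := by
    have : M ≠ 0 := by omega
    exact_mod_cast this
  have h1 : (l : ℝ) + l' + n = M + 1 := by exact_mod_cast h
  have h2 : vl n M l' = -vl n M l := by
    unfold vl bt
    have h3 : (l' : ℝ) = M + 1 - n - l := by linarith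
    rw [h3]
    field_simp
    ring
  rw [h2]
  push_cast
  ring

private theorem Exact_der (p : ℤ) (n M : ℕ) (f : ℂ → ℂ) (l : ℕ) (hM : 1 ≤ M)
    (hf : DifferentiableAt ℂ f l) :
    deriv (fun v : ℂ => Exact_E p M v * f (lv n M v)) (vl n M l) =
      deriv (Exact_E p M) (vl n M l) * f l + Exact_E p M (vl n M l) * (deriv f l * M) := by
  have e1 := Exact_lv_vl n M l hM
  have h1 : HasDerivAt (Exact_E p M) (deriv (Exact_E p M) (vl n M l)) (vl n M l : ℂ) :=
    (Exact_E_diff p M _).hasDerivAt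
  have h2 : HasDerivAt f (deriv f l) (lv n M (vl n M l)) := by
    rw [e1]
    exact hf.hasDerivAt
  have h3 : HasDerivAt (fun v : ℂ => f (lv n M v)) (deriv f l * M) (vl n M l : ℂ) :=
    h2.comp _ (Exact_lv_der n M _)
  have h4 := (h1.mul h3).deriv
  rw [e1] at h4
  exact h4

theorem exact (p : ℤ) (hp : p ≠ 0) (n g M : ℕ) (hg : 1 ≤ g) (hgn : g + 1 ≤ n)
    (hM : 2 * n + 2 ≤ M) :
    (Dg n g M : ℂ) * JN p 1 n g M = c1 n M ^ p * C0 n g M / (4 * Real.pi * I * (M : ℂ) ^ 2) *
      ∑ l ∈ Finset.range (M + 2 - n), deriv (GX p n g M) (vl n M l) := by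
  rw [dg_jn p hp n g M hg hgn (by omega)]
  have hM1 : 1 ≤ M := by omega
  have hX : ∀ l ∈ Finset.range (M + 2 - n), DifferentiableAt ℂ (Xi n g M) (l : ℂ) := by
    intro l hl
    rw [Finset.mem_range] at hl
    refine Xi_diff n g M hM1 _ ?_ ?_
    · rw [natCast_re]
      have : (0 : ℝ) ≤ l := Nat.cast_nonneg l
      linarith
    · rw [natCast_re]
      have : l < M := by omega
      exact_mod_cast this
  have hl1 : ∑ l ∈ Finset.range (M + 2 - n), deriv (fun v : ℂ =>
        exp (2 * Real.pi * I * p * M * v ^ 2) * (2 * sin (2 * Real.pi * v)) *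
          PP n g M (lv n M v)) (vl n M l) =
      ∑ l ∈ Finset.range (M + 2 - n), (deriv (Exact_E p M) (vl n M l) * (C0 n g M * Xi n g M l) +
        Exact_E p M (vl n M l) * (C0 n g M *
          ((deriv (Xi n g M) l - deriv (Xi n g M) ((M + 1 - n - l : ℕ) : ℂ)) / 2) * M)) := by
    refine Finset.sum_congr rfl fun l hl => ?_
    rw [Finset.mem_range] at hl
    have h1 := Exact_der p n M (PP n g M) l hM1 (Exact_PP_diff n g M _)
    have h2 := jet_val n g M hg hgn hM l (by omega)
    have h3 := jet_der n g M hg hgn hM l (M + 1 - n - l) (by omega)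
    rw [h2, h3] at h1
    exact h1
  have hl2 : ∑ l ∈ Finset.range (M + 2 - n), deriv (GX p n g M) (vl n M l) =
      ∑ l ∈ Finset.range (M + 2 - n), (deriv (Exact_E p M) (vl n M l) * Xi n g M l +
        Exact_E p M (vl n M l) * (deriv (Xi n g M) l * M)) := by
    refine Finset.sum_congr rfl fun l hl => ?_
    exact Exact_der p n M (Xi n g M) l hM1 (hX l hl)
  have hrefl : ∑ l ∈ Finset.range (M + 2 - n),
        Exact_E p M (vl n M l) * deriv (Xi n g M) ((M + 1 - n - l : ℕ) : ℂ) =
      -∑ l ∈ Finset.range (M + 2 - n), Exact_E p M (vl n M l) * deriv (Xi n g M) l := by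
    rw [← Finset.sum_range_reflect, ← Finset.sum_neg_distrib]
    refine Finset.sum_congr rfl fun l hl => ?_
    rw [Finset.mem_range] at hl
    have e1 : M + 2 - n - 1 - l = M + 1 - n - l := by omega
    have e2 : M + 1 - n - (M + 1 - n - l) = l := by omega
    rw [e1, e2, Exact_vl_refl n M l (M + 1 - n - l) hM1 (by omega), Exact_E_odd]
    ring
  rw [hl1, hl2]
  have hs : ∑ l ∈ Finset.range (M + 2 - n), (deriv (Exact_E p M) (vl n M l) *
        (C0 n g M * Xi n g M l) + Exact_E p M (vl n M l) * (C0 n g M *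
          ((deriv (Xi n g M) l - deriv (Xi n g M) ((M + 1 - n - l : ℕ) : ℂ)) / 2) * M)) =
      C0 n g M * (∑ l ∈ Finset.range (M + 2 - n), deriv (Exact_E p M) (vl n M l) * Xi n g M l) +
      C0 n g M * M / 2 * (∑ l ∈ Finset.range (M + 2 - n), Exact_E p M (vl n M l) *
        deriv (Xi n g M) l) - C0 n g M * M / 2 * (∑ l ∈ Finset.range (M + 2 - n),
        Exact_E p M (vl n M l) * deriv (Xi n g M) ((M + 1 - n - l : ℕ) : ℂ)) := by
    rw [Finset.mul_sum, Finset.mul_sum, Finset.mul_sum, ← Finset.sum_add_distrib,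
      ← Finset.sum_sub_distrib]
    refine Finset.sum_congr rfl fun l _ => ?_
    ring
  have hs2 : ∑ l ∈ Finset.range (M + 2 - n), (deriv (Exact_E p M) (vl n M l) * Xi n g M l +
        Exact_E p M (vl n M l) * (deriv (Xi n g M) l * M)) =
      (∑ l ∈ Finset.range (M + 2 - n), deriv (Exact_E p M) (vl n M l) * Xi n g M l) +
      M * (∑ l ∈ Finset.range (M + 2 - n), Exact_E p M (vl n M l) * deriv (Xi n g M) l) := by
    rw [Finset.mul_sum, ← Finset.sum_add_distrib]
    refine Finset.sum_congr rfl fun l _ => ?_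
    ring
  rw [hs, hs2, hrefl]
  ring

end Pool.Agent.H63.TW
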