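import Pool.Agent.H63.TW.Defs
import Pool.Agent.H63.VC3.LLasym
import Pool.Agent.H63.VC3.LogS

/-! # Trivial bounds for the dual sum -/

namespace Pool.Agent.H63.TW

open Pool.Agent.H63.VC Pool.Agent.H63.VC3 Complex Filter Topology
open scoped BigOperators

/-! ### Auxiliary facts on the factors -/

private lemma TtBd_sn_nat (M x i : ℕ) (h : i ≤ x) :
    sn M ((x : ℂ) - i) = ((sg M (x - i) : ℝ) : ℂ) := by
  unfold sn sg
  rw [Nat.cast_sub h]
  push_cast
  rfl

private lemma TtBd_sn_norm_le (M x i : ℕ) : ‖sn M ((x : ℂ) - i)‖ ≤ 2 := by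
  have e : sn M ((x : ℂ) - i) = ((2 * Real.sin (Real.pi * ((x : ℝ) - i) / M) : ℝ) : ℂ) := by
    unfold sn
    push_cast
    rfl
  rw [e, Complex.norm_real, Real.norm_eq_abs, abs_mul, abs_of_pos (two_pos : (0 : ℝ) < 2)]
  have := Real.abs_sin_le_one (Real.pi * ((x : ℝ) - i) / M)
  linarith

private lemma TtBd_sn_deriv (M : ℕ) (c z : ℂ) :
    HasDerivAt (fun z : ℂ => sn M (z + c)) (2 * (cos (Real.pi * (z + c) / M) * (Real.pi / M))) z := by
  unfold sn
  have h1 : HasDerivAt (fun z : ℂ => Real.pi * (z + c) / M) (Real.pi / M : ℂ) z := by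
    have := (((hasDerivAt_id z).add_const c).const_mul (Real.pi : ℂ)).div_const (M : ℂ)
    simpa using this
  exact (((Complex.hasDerivAt_sin _).comp z h1).const_mul (2 : ℂ))

private lemma TtBd_prod_nat (M x : ℕ) : ∀ m : ℕ, m ≤ x →
    S M x = S M (x - m) * ∏ i ∈ Finset.range m, sg M (x - i) := by
  intro m
  induction m with
  | zero => intro _; simp
  | succ m ih =>
    intro hm
    rw [ih (by omega), Finset.prod_range_succ]
    have e : x - m = (x - (m + 1)) + 1 := by omega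
    rw [e, S_succ, ← e]
    ring

/-- The product as a function. -/
private noncomputable def TtBd_P (M m c : ℕ) (z : ℂ) : ℂ :=
  ∏ i ∈ Finset.range m, sn M (z + ((c : ℂ) - i))

private lemma TtBd_P_nat (M m c l : ℕ) : TtBd_P M m c l =
    ∏ i ∈ Finset.range m, sn M (((l + c : ℕ) : ℂ) - i) := by
  unfold TtBd_P
  apply Finset.prod_congr rfl
  intro i _
  congr 1
  push_cast
  ring

private lemma TtBd_P_deriv (M m c : ℕ) (z : ℂ) : HasDerivAt (TtBd_P M m c)
    (∑ j ∈ Finset.range m, (∏ i ∈ (Finset.range m).erase j, sn M (z + ((c : ℂ) - i))) *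
      (2 * (cos (Real.pi * (z + ((c : ℂ) - j)) / M) * (Real.pi / M)))) z := by
  have h := HasDerivAt.fun_finsetProd (u := Finset.range m)
    (f := fun (i : ℕ) (z : ℂ) => sn M (z + ((c : ℂ) - i)))
    (f' := fun j : ℕ => 2 * (cos (Real.pi * (z + ((c : ℂ) - j)) / M) * (Real.pi / M)))
    (x := z) (fun i _ => TtBd_sn_deriv M ((c : ℂ) - i) z)
  simp only [smul_eq_mul] at h
  exact h

private lemma TtBd_zero (M : ℕ) (x : ℕ) : sn M ((x : ℂ) - x) = 0 := by
  unfold sn
  simp

/-- Case of a zero factor. -/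
private lemma TtBd_P_zero (M m c l : ℕ) (h : l + c < m) : TtBd_P M m c l = 0 := by
  rw [TtBd_P_nat]
  exact Finset.prod_eq_zero (Finset.mem_range.2 h) (TtBd_zero M (l + c))

private lemma TtBd_P_reg (M m c l : ℕ) (h : m ≤ l + c) (hM : l + c < M) :
    ‖TtBd_P M m c l‖ = S M (l + c) / S M (l + c - m) := by
  have h1 := TtBd_prod_nat M (l + c) m h
  have h2 := S_pos (M := M) (k := l + c - m) (by omega)
  rw [h1, mul_div_cancel_left₀ _ h2.ne', TtBd_P_nat, _root_.norm_prod]
  apply Finset.prod_congr rfl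
  intro i hi
  rw [Finset.mem_range] at hi
  rw [TtBd_sn_nat M (l + c) i (by omega), Complex.norm_real, Real.norm_of_nonneg]
  exact (sg_pos (by omega) (by omega)).le

private lemma TtBd_cosn (M l c j : ℕ) (hM : 0 < M) :
    ‖2 * (cos (Real.pi * ((l : ℂ) + ((c : ℂ) - j)) / M) * ((Real.pi : ℂ) / M))‖ ≤
      2 * Real.pi / M := by
  have hM0 : (0 : ℝ) < M := by exact_mod_cast hM
  have e : 2 * (cos (Real.pi * ((l : ℂ) + ((c : ℂ) - j)) / M) * ((Real.pi : ℂ) / M)) =
      ((2 * Real.pi / M * Real.cos (Real.pi * ((l : ℝ) + ((c : ℝ) - j)) / M) : ℝ) : ℂ) := by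
    push_cast
    ring
  have hp : 0 ≤ 2 * Real.pi / M := by positivity
  rw [e, Complex.norm_real, Real.norm_eq_abs, abs_mul, abs_of_nonneg hp]
  exact mul_le_of_le_one_right hp (Real.abs_cos_le_one _)

private lemma TtBd_P'_reg (M m c l : ℕ) (h : m ≤ l + c) (hM : l + c < M) (hm : m < M) :
    ‖deriv (TtBd_P M m c) l‖ ≤ 2 * Real.pi * M * (S M (l + c) / S M (l + c - m)) := by
  have hMp : 0 < M := by omega
  have hM0 : (0 : ℝ) < M := by exact_mod_cast hMp
  rw [(TtBd_P_deriv M m c l).deriv]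
  have h0 := TtBd_P_reg M m c l h hM
  set Q : ℝ := S M (l + c) / S M (l + c - m) with hQ
  have hQ0 : 0 ≤ Q := by rw [← h0]; exact norm_nonneg _
  have key : ∀ j ∈ Finset.range m,
      ‖(∏ i ∈ (Finset.range m).erase j, sn M ((l : ℂ) + ((c : ℂ) - i))) *
      (2 * (cos (Real.pi * ((l : ℂ) + ((c : ℂ) - j)) / M) * (Real.pi / M)))‖ ≤
      2 * Real.pi * Q := by
    intro j hj
    have hj' := Finset.mem_range.1 hj
    have h2 := Finset.mul_prod_erase (Finset.range m)
      (fun i => sn M ((l : ℂ) + ((c : ℂ) - i))) hj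
    have h3 : ‖sn M ((l : ℂ) + ((c : ℂ) - j))‖ = sg M (l + c - j) := by
      have e : (l : ℂ) + ((c : ℂ) - j) = ((l + c : ℕ) : ℂ) - j := by push_cast; ring
      rw [e, TtBd_sn_nat M (l + c) j (by omega), Complex.norm_real, Real.norm_of_nonneg]
      exact (sg_pos (by omega) (by omega)).le
    have h4 : 1 / (M : ℝ) ≤ sg M (l + c - j) := sg_ge (by omega) (by omega)
    have h5 : ‖sn M ((l : ℂ) + ((c : ℂ) - j))‖ *
        ‖∏ i ∈ (Finset.range m).erase j, sn M ((l : ℂ) + ((c : ℂ) - i))‖ = Q := by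
      rw [← norm_mul, h2, ← h0]
      rfl
    rw [h3] at h5
    have h6 : ‖∏ i ∈ (Finset.range m).erase j, sn M ((l : ℂ) + ((c : ℂ) - i))‖ ≤ M * Q := by
      have h7 : 1 / (M : ℝ) * ‖∏ i ∈ (Finset.range m).erase j, sn M ((l : ℂ) + ((c : ℂ) - i))‖ ≤
          Q := by
        rw [← h5]
        exact mul_le_mul_of_nonneg_right h4 (norm_nonneg _)
      calc ‖∏ i ∈ (Finset.range m).erase j, sn M ((l : ℂ) + ((c : ℂ) - i))‖
          = M * (1 / (M : ℝ) *
            ‖∏ i ∈ (Finset.range m).erase j, sn M ((l : ℂ) + ((c : ℂ) - i))‖) := by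
            field_simp
        _ ≤ M * Q := mul_le_mul_of_nonneg_left h7 hM0.le
    rw [norm_mul]
    calc _ ≤ (M * Q) * (2 * Real.pi / M) :=
          mul_le_mul h6 (TtBd_cosn M l c j hMp) (norm_nonneg _) (by positivity)
      _ = 2 * Real.pi * Q := by field_simp
  refine (norm_sum_le _ _).trans ((Finset.sum_le_sum key).trans ?_)
  rw [Finset.sum_const, Finset.card_range, nsmul_eq_mul]
  have hmM : (m : ℝ) ≤ M := by exact_mod_cast hm.le
  have hp := Real.pi_pos
  calc (m : ℝ) * (2 * Real.pi * Q) ≤ M * (2 * Real.pi * Q) :=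
        mul_le_mul_of_nonneg_right hmM (by positivity)
    _ = _ := by ring

private lemma TtBd_P'_sing (M m c l n : ℕ) (h : l + c < m) (h2 : m ≤ l + n) (hm : m < M) :
    ‖deriv (TtBd_P M m c) l‖ ≤ 2 * Real.pi / M * (S M (l + c) * 2 ^ n) := by
  have hMp : 0 < M := by omega
  have hM0 : (0 : ℝ) < M := by exact_mod_cast hMp
  rw [(TtBd_P_deriv M m c l).deriv]
  rw [Finset.sum_eq_single (l + c)]
  · rw [norm_mul, mul_comm]
    apply mul_le_mul (TtBd_cosn M l c (l + c) hMp) _ (norm_nonneg _) (by positivity)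
    have e1 : (Finset.range m).erase (l + c) =
        (Finset.range (l + c)) ∪ (Finset.Ico (l + c + 1) m) := by
      ext i
      simp only [Finset.mem_erase, Finset.mem_range, Finset.mem_union, Finset.mem_Ico]
      omega
    have e2 : Disjoint (Finset.range (l + c)) (Finset.Ico (l + c + 1) m) := by
      rw [Finset.disjoint_left]
      intro i hi hi2
      rw [Finset.mem_range] at hi
      rw [Finset.mem_Ico] at hi2
      omega
    rw [e1, Finset.prod_union e2, norm_mul]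
    have e3 : ∀ i : ℕ, (l : ℂ) + ((c : ℂ) - i) = ((l + c : ℕ) : ℂ) - i := by
      intro i; push_cast; ring
    simp only [e3]
    have h3 : ‖∏ i ∈ Finset.range (l + c), sn M (((l + c : ℕ) : ℂ) - i)‖ = S M (l + c) := by
      have h4 := TtBd_P_reg M (l + c) c l le_rfl (by omega)
      rw [TtBd_P_nat] at h4
      rw [h4, Nat.sub_self, S_zero, div_one]
    rw [h3]
    apply mul_le_mul_of_nonneg_left _ (S_pos (by omega)).le
    rw [_root_.norm_prod]
    calc _ ≤ ∏ i ∈ Finset.Ico (l + c + 1) m, (2 : ℝ) :=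
          Finset.prod_le_prod (fun i _ => norm_nonneg _)
            (fun i _ => TtBd_sn_norm_le M (l + c) i)
      _ = 2 ^ (m - (l + c + 1)) := by rw [Finset.prod_const, Nat.card_Ico]
      _ ≤ 2 ^ n := pow_le_pow_right₀ (by norm_num) (by omega)
  · intro j _ hj
    have : ∏ i ∈ (Finset.range m).erase j, sn M ((l : ℂ) + ((c : ℂ) - i)) = 0 := by
      apply Finset.prod_eq_zero (i := l + c)
      · rw [Finset.mem_erase]
        exact ⟨fun h => hj h.symm, Finset.mem_range.2 h⟩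
      · have e : (l : ℂ) + ((c : ℂ) - ((l + c : ℕ) : ℂ)) = ((l + c : ℕ) : ℂ) - ((l + c : ℕ) : ℂ) := by
          push_cast; ring
        rw [e]
        exact TtBd_zero M (l + c)
    rw [this, zero_mul]
  · intro hn
    exact absurd (Finset.mem_range.2 h) hn

/-! ### Exponential bounds -/

private lemma TtBd_pow {M : ℕ} (hM : 2 ≤ M) {K : ℝ} {e : ℕ} (h : K ≤ e) :
    Real.exp (K * Real.log M) ≤ (M : ℝ) ^ e := by
  have hM0 : (0 : ℝ) < M := by exact_mod_cast (by omega : 0 < M)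
  have hM1 : (1 : ℝ) ≤ M := by exact_mod_cast (by omega : 1 ≤ M)
  have hL : 0 ≤ Real.log M := Real.log_nonneg hM1
  calc Real.exp (K * Real.log M) ≤ Real.exp (e * Real.log M) :=
        Real.exp_le_exp.2 (mul_le_mul_of_nonneg_right h hL)
    _ = (M : ℝ) ^ e := by rw [← Real.log_pow, Real.exp_log (by positivity)]

private lemma TtBd_S_le : ∃ e : ℕ, ∀ M k : ℕ, 2 ≤ M → k < M →
    S M k ≤ (M : ℝ) ^ e * Real.exp (M * Fr (k / M)) ∧
    1 / S M k ≤ (M : ℝ) ^ e * Real.exp (-(M * Fr (k / M))) := by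
  obtain ⟨C, hC, h⟩ := log_S_bound
  obtain ⟨e, he⟩ := exists_nat_ge C
  refine ⟨e, fun M k hM hk => ?_⟩
  have h1 := abs_le.1 (h M k hM hk)
  have h2 := TtBd_pow hM he
  have h3 := S_pos hk
  constructor
  · calc S M k = Real.exp (Real.log (S M k)) := (Real.exp_log h3).symm
      _ ≤ Real.exp (C * Real.log M + M * Fr (k / M)) := Real.exp_le_exp.2 (by linarith [h1.2])
      _ = Real.exp (C * Real.log M) * Real.exp (M * Fr (k / M)) := Real.exp_add _ _
      _ ≤ _ := mul_le_mul_of_nonneg_right h2 (Real.exp_pos _).le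
  · calc 1 / S M k = Real.exp (-Real.log (S M k)) := by
          rw [Real.exp_neg, Real.exp_log h3, one_div]
      _ ≤ Real.exp (C * Real.log M + -(M * Fr (k / M))) := Real.exp_le_exp.2 (by linarith [h1.1])
      _ = Real.exp (C * Real.log M) * Real.exp (-(M * Fr (k / M))) := Real.exp_add _ _
      _ ≤ _ := mul_le_mul_of_nonneg_right h2 (Real.exp_pos _).le

private lemma TtBd_shift (n : ℕ) : ∃ e : ℕ, ∀ M : ℕ, 2 ≤ M → ∀ x : ℝ, ∀ j : ℕ, j ≤ n →
    Real.exp (M * Fr (x + j / M)) ≤ (M : ℝ) ^ e * Real.exp (M * Fr x) ∧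
    Real.exp (-(M * Fr (x + j / M))) ≤ (M : ℝ) ^ e * Real.exp (-(M * Fr x)) ∧
    Real.exp (-(M * Fr x)) ≤ (M : ℝ) ^ e * Real.exp (-(M * Fr (x + j / M))) := by
  obtain ⟨C, hC, h⟩ := Fr_shift n
  obtain ⟨e, he⟩ := exists_nat_ge C
  refine ⟨e, fun M hM x j hj => ?_⟩
  have h1 := abs_le.1 (h M hM x j hj)
  have h2 := TtBd_pow hM he
  refine ⟨?_, ?_, ?_⟩
  · calc _ ≤ Real.exp (C * Real.log M + M * Fr x) := Real.exp_le_exp.2 (by linarith [h1.2])
      _ = Real.exp (C * Real.log M) * Real.exp (M * Fr x) := Real.exp_add _ _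
      _ ≤ _ := mul_le_mul_of_nonneg_right h2 (Real.exp_pos _).le
  · calc _ ≤ Real.exp (C * Real.log M + -(M * Fr x)) := Real.exp_le_exp.2 (by linarith [h1.1])
      _ = Real.exp (C * Real.log M) * Real.exp (-(M * Fr x)) := Real.exp_add _ _
      _ ≤ _ := mul_le_mul_of_nonneg_right h2 (Real.exp_pos _).le
  · calc _ ≤ Real.exp (C * Real.log M + -(M * Fr (x + j / M))) :=
          Real.exp_le_exp.2 (by linarith [h1.2])
      _ = Real.exp (C * Real.log M) * Real.exp (-(M * Fr (x + j / M))) := Real.exp_add _ _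
      _ ≤ _ := mul_le_mul_of_nonneg_right h2 (Real.exp_pos _).le

/-- The bound of one product and its derivative. -/
private lemma TtBd_P_bound (n : ℕ) : ∃ (C : ℝ) (e : ℕ), 0 < C ∧ ∀ M : ℕ, 2 ≤ M →
    ∀ l c m : ℕ, c ≤ n → l + c < M → m < M → m ≤ l + n →
      ‖TtBd_P M m c l‖ ≤ C * (M : ℝ) ^ e *
        Real.exp (M * (Fr ((l : ℝ) / M) - Fr (((l : ℝ) - m) / M))) ∧
      ‖deriv (TtBd_P M m c) l‖ ≤ C * (M : ℝ) ^ e *
        Real.exp (M * (Fr ((l : ℝ) / M) - Fr (((l : ℝ) - m) / M))) := by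
  obtain ⟨e1, hS⟩ := TtBd_S_le
  obtain ⟨e2, hF⟩ := TtBd_shift n
  refine ⟨2 * Real.pi * 2 ^ n, e1 + e1 + e2 + e2 + 1, by positivity, fun M hM l c m hc hl hm hml => ?_⟩
  have hMp : 0 < M := by omega
  have hM0 : (0 : ℝ) < M := by exact_mod_cast hMp
  have hM1 : (1 : ℝ) ≤ M := by exact_mod_cast hMp
  have hpi : 1 ≤ 2 * Real.pi := by linarith [Real.pi_gt_three]
  have h2n : (1 : ℝ) ≤ 2 ^ n := one_le_pow₀ (by norm_num)
  -- numerator
  have hN : S M (l + c) ≤ (M : ℝ) ^ e1 * ((M : ℝ) ^ e2 * Real.exp (M * Fr ((l : ℝ) / M))) := by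
    refine (hS M (l + c) hM hl).1.trans ?_
    apply mul_le_mul_of_nonneg_left _ (by positivity)
    have h1 := (hF M hM ((l : ℝ) / M) c hc).1
    have e : (l : ℝ) / M + c / M = ((l + c : ℕ) : ℝ) / M := by push_cast; ring
    rwa [e] at h1
  have hexp : Real.exp (M * (Fr ((l : ℝ) / M) - Fr (((l : ℝ) - m) / M))) =
      Real.exp (M * Fr ((l : ℝ) / M)) * Real.exp (-(M * Fr (((l : ℝ) - m) / M))) := by
    rw [← Real.exp_add]
    congr 1
    ring
  set A : ℝ := Real.exp (M * Fr ((l : ℝ) / M)) with hA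
  set B : ℝ := Real.exp (-(M * Fr (((l : ℝ) - m) / M))) with hB
  have hA0 : 0 < A := Real.exp_pos _
  have hB0 : 0 < B := Real.exp_pos _
  rw [hexp]
  rcases le_or_gt m (l + c) with h | h
  · -- regular case
    have hD : 1 / S M (l + c - m) ≤ (M : ℝ) ^ e1 * ((M : ℝ) ^ e2 * B) := by
      refine (hS M (l + c - m) hM (by omega)).2.trans ?_
      apply mul_le_mul_of_nonneg_left _ (by positivity)
      have h1 := (hF M hM (((l : ℝ) - m) / M) c hc).2.1
      have e : ((l : ℝ) - m) / M + c / M = ((l + c - m : ℕ) : ℝ) / M := by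
        rw [Nat.cast_sub h]; push_cast; ring
      rwa [e] at h1
    have hQ : S M (l + c) / S M (l + c - m) ≤ (M : ℝ) ^ (e1 + e1 + e2 + e2) * (A * B) := by
      calc S M (l + c) / S M (l + c - m) = S M (l + c) * (1 / S M (l + c - m)) := by ring
        _ ≤ ((M : ℝ) ^ e1 * ((M : ℝ) ^ e2 * A)) * ((M : ℝ) ^ e1 * ((M : ℝ) ^ e2 * B)) := by
          apply mul_le_mul hN hD
          · have := S_pos (M := M) (k := l + c - m) (by omega)
            positivity
          · positivity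
        _ = _ := by rw [pow_add, pow_add, pow_add]; ring
    constructor
    · rw [TtBd_P_reg M m c l h hl]
      refine hQ.trans ?_
      have h3 : (M : ℝ) ^ (e1 + e1 + e2 + e2) ≤ 2 * Real.pi * 2 ^ n *
          (M : ℝ) ^ (e1 + e1 + e2 + e2 + 1) := by
        calc (M : ℝ) ^ (e1 + e1 + e2 + e2) = 1 * (M : ℝ) ^ (e1 + e1 + e2 + e2) := (one_mul _).symm
          _ ≤ (2 * Real.pi * 2 ^ n) * (M : ℝ) ^ (e1 + e1 + e2 + e2 + 1) := by
            apply mul_le_mul
            · nlinarith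
            · exact pow_le_pow_right₀ hM1 (by omega)
            · positivity
            · positivity
      exact mul_le_mul_of_nonneg_right h3 (by positivity)
    · refine (TtBd_P'_reg M m c l h hl hm).trans ?_
      calc 2 * Real.pi * M * (S M (l + c) / S M (l + c - m)) ≤
          2 * Real.pi * M * ((M : ℝ) ^ (e1 + e1 + e2 + e2) * (A * B)) :=
            mul_le_mul_of_nonneg_left hQ (by positivity)
        _ = 2 * Real.pi * 1 * (M : ℝ) ^ (e1 + e1 + e2 + e2 + 1) * (A * B) := by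
            rw [pow_succ]; ring
        _ ≤ _ := by
            apply mul_le_mul_of_nonneg_right _ (by positivity)
            apply mul_le_mul_of_nonneg_right _ (by positivity)
            exact mul_le_mul_of_nonneg_left h2n (by positivity)
  · -- singular case
    constructor
    · rw [TtBd_P_zero M m c l h, norm_zero]
      positivity
    · refine (TtBd_P'_sing M m c l n h hml hm).trans ?_
      have hB1 : 1 ≤ (M : ℝ) ^ e2 * B := by
        have h1 := (hF M hM (((l : ℝ) - m) / M) (m - l) (by omega)).2.1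
        have e : ((l : ℝ) - m) / M + ((m - l : ℕ) : ℝ) / M = 0 := by
          rw [Nat.cast_sub (by omega)]; ring
        rw [e, Fr_zero] at h1
        simpa using h1
      have h3 : 2 * Real.pi / M ≤ 2 * Real.pi := div_le_self (by positivity) hM1
      calc 2 * Real.pi / M * (S M (l + c) * 2 ^ n) ≤
          2 * Real.pi * (((M : ℝ) ^ e1 * ((M : ℝ) ^ e2 * A)) * 2 ^ n) := by
            apply mul_le_mul h3 _ _ (by positivity)
            · exact mul_le_mul_of_nonneg_right hN (by positivity)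
            · exact mul_nonneg (S_pos hl).le (by positivity)
        _ ≤ 2 * Real.pi * (((M : ℝ) ^ e1 * ((M : ℝ) ^ e2 * A)) * 2 ^ n) *
            (((M : ℝ) ^ e1 * M) * ((M : ℝ) ^ e2 * B)) := by
            apply le_mul_of_one_le_right (by positivity)
            have h5 : 1 ≤ (M : ℝ) ^ e1 * M := by
              have := one_le_pow₀ (n := e1) hM1
              nlinarith
            nlinarith
        _ = _ := by rw [pow_add, pow_add, pow_add, pow_add]; ring

private lemma TtBd_tt_eq (n g M : ℕ) (hg : 1 ≤ g) (hgn : g + 1 ≤ n) (z : ℂ) (m : ℕ) :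
    tt n g M z m = qp M ((n - 2) * m) / (S M m : ℂ) ^ 2 *
      (TtBd_P M m (n - g - 1) z * TtBd_P M m (g - 1) z) := by
  unfold tt TtBd_P
  rw [← Finset.prod_mul_distrib]
  have e : ∀ i : ℕ, sn M (z + n - g - 1 - i) * sn M (z + g - 1 - i) =
      sn M (z + (((n - g - 1 : ℕ) : ℂ) - i)) * sn M (z + (((g - 1 : ℕ) : ℂ) - i)) := by
    intro i
    rw [Nat.cast_sub (by omega), Nat.cast_sub (by omega), Nat.cast_sub hg]
    congr 2
    · push_cast; ring
    · push_cast; ring
  simp only [e]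
  ring

private lemma TtBd_qp_norm (n M m : ℕ) : ‖qp M (((n : ℂ) - 2) * m)‖ = 1 := by
  unfold qp
  have e : (Real.pi : ℂ) * I * (((n : ℂ) - 2) * m) / M =
      ((Real.pi * (((n : ℝ) - 2) * m) / M : ℝ) : ℂ) * I := by
    push_cast; ring
  rw [e, Complex.norm_exp_ofReal_mul_I]

theorem tt_bound (n g : ℕ) (hg : 1 ≤ g) (hgn : g + 1 ≤ n) : ∃ (C : ℝ) (e : ℕ), 0 < C ∧
    ∀ᶠ M : ℕ in atTop, ∀ l m : ℕ, l + n ≤ M + 1 → m < M →
      DifferentiableAt ℂ (fun z => tt n g M z m) l ∧
      (l + n < m → tt n g M l m = 0 ∧ deriv (fun z => tt n g M z m) l = 0) ∧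
      ‖tt n g M l m‖ ≤ C * (M : ℝ) ^ e * Real.exp (M * (2 * Fr ((l : ℝ) / M) -
        2 * Fr ((m : ℝ) / M) - 2 * Fr (((l : ℝ) - m) / M))) ∧
      ‖deriv (fun z => tt n g M z m) l‖ ≤ C * (M : ℝ) ^ e *
        Real.exp (M * (2 * Fr ((l : ℝ) / M) - 2 * Fr ((m : ℝ) / M) -
          2 * Fr (((l : ℝ) - m) / M))) := by
  obtain ⟨C, e, hC, hP⟩ := TtBd_P_bound n
  obtain ⟨e1, hS⟩ := TtBd_S_le
  refine ⟨2 * C ^ 2, 2 * e1 + 2 * e, by positivity, ?_⟩
  filter_upwards [eventually_ge_atTop 2] with M hM l m hl hm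
  have hMp : 0 < M := by omega
  have hM0 : (0 : ℝ) < M := by exact_mod_cast hMp
  have hfun : (fun z => tt n g M z m) = fun z => qp M ((n - 2) * m) / (S M m : ℂ) ^ 2 *
      (TtBd_P M m (n - g - 1) z * TtBd_P M m (g - 1) z) := by
    funext z
    exact TtBd_tt_eq n g M hg hgn z m
  have da := TtBd_P_deriv M m (n - g - 1) l
  have db := TtBd_P_deriv M m (g - 1) l
  have dd := (da.differentiableAt.hasDerivAt.mul db.differentiableAt.hasDerivAt).const_mul
    (qp M ((n - 2) * m) / (S M m : ℂ) ^ 2)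
  have hd : HasDerivAt (fun z => tt n g M z m) (qp M ((n - 2) * m) / (S M m : ℂ) ^ 2 *
      (deriv (TtBd_P M m (n - g - 1)) l * TtBd_P M m (g - 1) l +
        TtBd_P M m (n - g - 1) l * deriv (TtBd_P M m (g - 1)) l)) l := by
    rw [hfun]
    exact dd
  have hz : l + n < m → tt n g M l m = 0 ∧ deriv (fun z => tt n g M z m) l = 0 := by
    intro h
    have z1 := TtBd_P_zero M m (n - g - 1) l (by omega)
    have z2 := TtBd_P_zero M m (g - 1) l (by omega)
    constructor
    · rw [TtBd_tt_eq n g M hg hgn, z1]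
      simp
    · rw [hd.deriv, z1, z2]
      simp
  refine ⟨hd.differentiableAt, hz, ?_⟩
  rcases le_or_gt m (l + n) with h | h
  swap
  · rw [(hz h).1, (hz h).2, norm_zero]
    constructor <;> positivity
  obtain ⟨a1, a2⟩ := hP M hM l (n - g - 1) m (by omega) (by omega) hm h
  obtain ⟨b1, b2⟩ := hP M hM l (g - 1) m (by omega) (by omega) hm h
  have hc : ‖qp M ((n - 2) * m) / (S M m : ℂ) ^ 2‖ ≤
      (M : ℝ) ^ (2 * e1) * Real.exp (-(2 * (M * Fr ((m : ℝ) / M)))) := by
    rw [norm_div, TtBd_qp_norm, norm_pow, Complex.norm_real, Real.norm_of_nonneg (S_pos hm).le]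
    have h1 := (hS M m hM hm).2
    have hp : 0 < 1 / S M m := by have := S_pos hm; positivity
    calc 1 / S M m ^ 2 = (1 / S M m) ^ 2 := by rw [one_div_pow]
      _ ≤ ((M : ℝ) ^ e1 * Real.exp (-(M * Fr ((m : ℝ) / M)))) ^ 2 := pow_le_pow_left₀ hp.le h1 2
      _ = _ := by
        rw [mul_pow, ← pow_mul, ← Real.exp_nat_mul]
        congr 1
        · congr 1; ring
        · congr 1; push_cast; ring
  set X : ℝ := C * (M : ℝ) ^ e * Real.exp (M * (Fr ((l : ℝ) / M) - Fr (((l : ℝ) - m) / M))) with hX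
  set Y : ℝ := (M : ℝ) ^ (2 * e1) * Real.exp (-(2 * (M * Fr ((m : ℝ) / M)))) with hY
  have hX0 : 0 ≤ X := by positivity
  have hY0 : 0 ≤ Y := by positivity
  have hXY : Y * (X * X) = C ^ 2 * (M : ℝ) ^ (2 * e1 + 2 * e) *
      Real.exp (M * (2 * Fr ((l : ℝ) / M) - 2 * Fr ((m : ℝ) / M) -
        2 * Fr (((l : ℝ) - m) / M))) := by
    have e3 : M * (2 * Fr ((l : ℝ) / M) - 2 * Fr ((m : ℝ) / M) - 2 * Fr (((l : ℝ) - m) / M)) =
        -(2 * (M * Fr ((m : ℝ) / M))) + (M * (Fr ((l : ℝ) / M) - Fr (((l : ℝ) - m) / M)) +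
          M * (Fr ((l : ℝ) / M) - Fr (((l : ℝ) - m) / M))) := by ring
    rw [e3, Real.exp_add, Real.exp_add, hX, hY, pow_add, two_mul e, pow_add]
    ring
  have hfin : 2 * (Y * (X * X)) = 2 * C ^ 2 * (M : ℝ) ^ (2 * e1 + 2 * e) *
      Real.exp (M * (2 * Fr ((l : ℝ) / M) - 2 * Fr ((m : ℝ) / M) -
        2 * Fr (((l : ℝ) - m) / M))) := by rw [hXY]; ring
  rw [← hfin]
  constructor
  · rw [TtBd_tt_eq n g M hg hgn, norm_mul, norm_mul]
    have h1 : ‖TtBd_P M m (n - g - 1) l‖ * ‖TtBd_P M m (g - 1) l‖ ≤ X * X :=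
      mul_le_mul a1 b1 (norm_nonneg _) hX0
    have h2 := mul_le_mul hc h1 (by positivity) hY0
    have h3 : 0 ≤ Y * (X * X) := by positivity
    linarith
  · rw [hd.deriv, norm_mul]
    have h1 : ‖deriv (TtBd_P M m (n - g - 1)) l * TtBd_P M m (g - 1) l +
        TtBd_P M m (n - g - 1) l * deriv (TtBd_P M m (g - 1)) l‖ ≤ X * X + X * X := by
      refine (norm_add_le _ _).trans ?_
      rw [norm_mul, norm_mul]
      exact add_le_add (mul_le_mul a2 b1 (norm_nonneg _) hX0)
        (mul_le_mul a1 b2 (norm_nonneg _) hX0)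
    have h2 := mul_le_mul hc h1 (norm_nonneg _) hY0
    linarith

/-! ### The terms in the window -/

private lemma TtBd_prod_LL (M : ℕ) (hM : 0 < M) (s : ℂ) : ∀ m : ℕ, (m : ℝ) < s.re + 1 →
    s.re < M → exp (LL M s - LL M (s - m)) = ∏ i ∈ Finset.range m, sn M (s - i) := by
  intro m
  induction m with
  | zero => intro _ _; simp
  | succ m ih =>
    intro h1 h2
    push_cast at h1
    have hm := ih (by linarith) h2
    rw [Finset.prod_range_succ, ← hm]
    have h3 := LL_step M hM (s - m) (by simp; linarith) (by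
      have : (s - (m : ℂ)).re = s.re - m := by simp
      rw [this]
      have : (0 : ℝ) ≤ m := by positivity
      linarith)
    have hre : ((s - (m : ℂ)) / (M : ℂ)).re = (s.re - m) / M := by
      rw [Complex.div_natCast_re]; simp
    have hM0 : (0 : ℝ) < M := by exact_mod_cast hM
    have z0 : 0 < ((s - (m : ℂ)) / (M : ℂ)).re := by
      rw [hre]; exact div_pos (by linarith) hM0
    have z1 : ((s - (m : ℂ)) / (M : ℂ)).re < 1 := by
      rw [hre, div_lt_one hM0]
      have : (0 : ℝ) ≤ m := by positivity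
      linarith
    have h4 := hh_exp _ z0 z1
    have h5 : exp (hh ((s - m) / M)) = sn M (s - m) := by
      rw [h4]
      unfold sn
      congr 2
      ring
    rw [← h5, ← h3, ← Complex.exp_add]
    congr 1
    push_cast
    have : s - ((m : ℂ) + 1) = s - m - 1 := by ring
    rw [this]
    ring

/-- The terms in the window. -/
theorem tt_fl (n g M l0 m : ℕ) (hg : 1 ≤ g) (hgn : g + 1 ≤ n) (hl : l0 + n ≤ M + 1)
    (hm : m ≤ l0) (hmM : m < M) (l : ℂ) (h : ‖l - l0‖ < 1 / 2) :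
    exp (-LL M l) * tt n g M l m = fl n g M l m := by
  have hM : 0 < M := by omega
  unfold fl tau
  congr 1
  rw [TtBd_tt_eq n g M hg hgn]
  have hre := Complex.abs_re_le_norm (l - l0)
  have hre2 := abs_lt.1 (hre.trans_lt h)
  rw [Complex.sub_re, Complex.natCast_re] at hre2
  have hmr : (m : ℝ) ≤ l0 := by exact_mod_cast hm
  have hlr : (l0 : ℝ) + n ≤ M + 1 := by exact_mod_cast hl
  have hgr : (1 : ℝ) ≤ g := by exact_mod_cast hg
  have hgnr : (g : ℝ) + 1 ≤ n := by exact_mod_cast hgn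
  have pa := TtBd_prod_LL M hM (l + n - g - 1) m (by simp; linarith [hre2.1])
    (by simp; linarith [hre2.2])
  have pb := TtBd_prod_LL M hM (l + g - 1) m (by simp; linarith [hre2.1])
    (by simp; linarith [hre2.2])
  have ea : TtBd_P M m (n - g - 1) l = ∏ i ∈ Finset.range m, sn M (l + n - g - 1 - i) := by
    unfold TtBd_P
    apply Finset.prod_congr rfl
    intro i _
    rw [Nat.cast_sub (by omega), Nat.cast_sub (by omega)]
    congr 1
    push_cast; ring
  have eb : TtBd_P M m (g - 1) l = ∏ i ∈ Finset.range m, sn M (l + g - 1 - i) := by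
    unfold TtBd_P
    apply Finset.prod_congr rfl
    intro i _
    rw [Nat.cast_sub hg]
    congr 1
    push_cast; ring
  rw [ea, eb, ← pa, ← pb]
  have hS : (S M m : ℂ) ^ 2 = exp (2 * LL M m) := by
    rw [← LL_nat M m hmM, ← Complex.exp_nat_mul]
    congr 1
  rw [hS, ← Complex.exp_add, div_mul_eq_mul_div, mul_div_assoc, ← Complex.exp_sub]
  congr 2
  ring

/-! ### The derivative of `LL` -/

private lemma TtBd_cot (M k : ℕ) (h1 : 1 ≤ k) (h2 : k < M) :
    ‖(Real.pi : ℂ) / M * Complex.cot (Real.pi * k / M)‖ ≤ 2 * Real.pi := by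
  have hM0 : (0 : ℝ) < M := by exact_mod_cast (by omega : 0 < M)
  have e : (Real.pi : ℂ) / M * Complex.cot (Real.pi * k / M) =
      ((Real.pi / M * (Real.cos (Real.pi * k / M) / Real.sin (Real.pi * k / M)) : ℝ) : ℂ) := by
    rw [Complex.cot]
    push_cast
    rfl
  have hs := sg_ge h1 h2
  unfold sg at hs
  have hsin : 1 / (2 * (M : ℝ)) ≤ Real.sin (Real.pi * k / M) := by
    have : 1 / (2 * (M : ℝ)) = 1 / M / 2 := by field_simp
    rw [this]
    linarith
  have hsin0 : 0 < Real.sin (Real.pi * k / M) := lt_of_lt_of_le (by positivity) hsin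
  rw [e, Complex.norm_real, Real.norm_eq_abs, abs_mul, abs_div, abs_div,
    abs_of_pos Real.pi_pos, abs_of_pos hM0, abs_of_pos hsin0]
  have h3 : |Real.cos (Real.pi * k / M)| / Real.sin (Real.pi * k / M) ≤ 2 * M := by
    rw [div_le_iff₀ hsin0]
    have h4 : 1 ≤ 2 * M * Real.sin (Real.pi * k / M) := by
      calc (1 : ℝ) = 2 * M * (1 / (2 * M)) := by field_simp
        _ ≤ _ := mul_le_mul_of_nonneg_left hsin (by positivity)
    exact (Real.abs_cos_le_one _).trans h4
  calc Real.pi / M * (|Real.cos (Real.pi * k / M)| / Real.sin (Real.pi * k / M)) ≤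
      Real.pi / M * (2 * M) := mul_le_mul_of_nonneg_left h3 (by positivity)
    _ = 2 * Real.pi := by field_simp

private lemma TtBd_LL_diff (M : ℕ) (j : ℕ) : ∀ k : ℕ, j ≤ k → k < M →
    ‖deriv (LL M) k - deriv (LL M) j‖ ≤ 2 * Real.pi * (k - j) := by
  intro k hk
  induction k, hk using Nat.le_induction with
  | base => intro _; simp
  | succ k hk ih =>
    intro h
    have h1 := ih (by omega)
    have h2 := LL_deriv_step M (by omega) ((k + 1 : ℕ) : ℂ) (by simp; positivity)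
      (by simp only [Complex.natCast_re]; exact_mod_cast h)
    have h3 : ((k + 1 : ℕ) : ℂ) - 1 = k := by push_cast; ring
    rw [h3] at h2
    have h4 := TtBd_cot M (k + 1) (by omega) h
    rw [← h2] at h4
    have h5 : deriv (LL M) ((k + 1 : ℕ) : ℂ) - deriv (LL M) j =
        (deriv (LL M) ((k + 1 : ℕ) : ℂ) - deriv (LL M) k) + (deriv (LL M) k - deriv (LL M) j) := by
      ring
    rw [h5]
    refine (norm_add_le _ _).trans ?_
    push_cast at h4 ⊢
    linarith

private lemma TtBd_LL_mid : ∃ C : ℝ, 0 < C ∧ ∀ᶠ M : ℕ in atTop,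
    ‖deriv (LL M) ((M / 2 : ℕ) : ℂ)‖ ≤ C * M := by
  obtain ⟨C1, hC1, hL⟩ := LL_asym (1 / 8) 1 (by norm_num)
  -- `ff` is bounded on the closed rectangle
  set K : Set ℂ := {z : ℂ | 1 / 8 ≤ z.re ∧ z.re ≤ 7 / 8 ∧ |z.im| ≤ 1} with hK
  have hKc : IsCompact K := by
    have hcl : IsClosed K := by
      have e : K = {z : ℂ | 1 / 8 ≤ z.re} ∩ ({z : ℂ | z.re ≤ 7 / 8} ∩ {z : ℂ | |z.im| ≤ 1}) := by
        ext z
        simp [hK]
      rw [e]
      exact (isClosed_le continuous_const Complex.continuous_re).inter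
        ((isClosed_le Complex.continuous_re continuous_const).inter
          (isClosed_le Complex.continuous_im.abs continuous_const))
    refine Metric.isCompact_of_isClosed_isBounded hcl ?_
    refine (Metric.isBounded_closedBall (x := (0 : ℂ)) (r := 2)).subset ?_
    intro z hz
    rw [Metric.mem_closedBall, dist_zero_right]
    have h1 := Complex.norm_le_abs_re_add_abs_im z
    have h2 : |z.re| ≤ 1 := abs_le.2 ⟨by linarith [hz.1], by linarith [hz.2.1]⟩
    linarith [hz.2.2]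
  have hcont : ContinuousOn (fun z : ℂ => ‖ff z‖) K := by
    intro z hz
    have h1 := (ff_hasDerivAt z (by linarith [hz.1]) (by linarith [hz.2.1])).continuousAt
    exact h1.norm.continuousWithinAt
  obtain ⟨B, hB⟩ := hKc.exists_bound_of_continuousOn (f := fun z : ℂ => ‖ff z‖) hcont
  refine ⟨C1 + 1 + |B|, by positivity, ?_⟩
  filter_upwards [eventually_ge_atTop 16] with M hM
  have hMp : 0 < M := by omega
  have hM0 : (0 : ℝ) < M := by exact_mod_cast hMp
  have hM16 : (16 : ℝ) ≤ M := by exact_mod_cast hM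
  have hk1 : ((M / 2 : ℕ) : ℝ) ≤ M / 2 := Nat.cast_div_le
  have hk2 : (M : ℝ) / 2 - 1 ≤ ((M / 2 : ℕ) : ℝ) := by
    have : M ≤ 2 * (M / 2) + 1 := by omega
    have h3 : (M : ℝ) ≤ 2 * ((M / 2 : ℕ) : ℝ) + 1 := by exact_mod_cast this
    linarith
  -- bound of `LL` on the unit ball
  have hbd : ∀ s ∈ Metric.closedBall (((M / 2 : ℕ) : ℂ)) 1, ‖LL M s‖ ≤ (C1 + 1 + |B|) * M := by
    intro s hs
    rw [Metric.mem_closedBall, dist_eq_norm] at hs
    have hre := (Complex.abs_re_le_norm (s - ((M / 2 : ℕ) : ℂ))).trans hs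
    have him := (Complex.abs_im_le_norm (s - ((M / 2 : ℕ) : ℂ))).trans hs
    rw [Complex.sub_re, Complex.natCast_re] at hre
    rw [Complex.sub_im, Complex.natCast_im, sub_zero] at him
    have hre2 := abs_le.1 hre
    set z : ℂ := (s + 1 / 2) / M with hz
    have hMc : (M : ℂ) ≠ 0 := by exact_mod_cast hM0.ne'
    have hs2 : (M : ℂ) * z - 1 / 2 = s := by rw [hz]; field_simp; ring
    have hzre : z.re = (s.re + 1 / 2) / M := by
      rw [hz, Complex.div_natCast_re]; simp
    have hzim : z.im = s.im / M := by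
      rw [hz, Complex.div_natCast_im]; simp
    have z1 : 1 / 8 ≤ z.re := by
      rw [hzre, le_div_iff₀ hM0]; linarith [hre2.1]
    have z2 : z.re ≤ 7 / 8 := by
      rw [hzre, div_le_iff₀ hM0]; linarith [hre2.2]
    have z3 : |z.im| ≤ 1 := by
      rw [hzim, abs_div, abs_of_pos hM0, div_le_one hM0]
      linarith
    have h1 := hL M (by omega) z z1 (by linarith) z3
    rw [hs2] at h1
    have h2 := hB z ⟨z1, z2, z3⟩
    rw [norm_norm] at h2
    have h3 : ‖ff z‖ ≤ |B| := h2.trans (le_abs_self B)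
    have h4 : LL M s = (LL M s - Real.log M / 2 - M * ff z) + Real.log M / 2 + M * ff z := by ring
    rw [h4]
    refine (norm_add₃_le).trans ?_
    have h5 : ‖(Real.log M : ℂ) / 2‖ ≤ M := by
      have e : (Real.log M : ℂ) / 2 = ((Real.log M / 2 : ℝ) : ℂ) := by push_cast; rfl
      rw [e, Complex.norm_real, Real.norm_of_nonneg
        (div_nonneg (Real.log_nonneg (by linarith)) (by norm_num))]
      have := Real.log_le_sub_one_of_pos hM0
      linarith
    have h6 : ‖(M : ℂ) * ff z‖ ≤ M * |B| := by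
      rw [norm_mul, Complex.norm_natCast]
      exact mul_le_mul_of_nonneg_left h3 hM0.le
    have h7 : C1 / M ≤ C1 * M :=
      (div_le_self hC1.le (by linarith)).trans (le_mul_of_one_le_right hC1.le (by linarith))
    nlinarith [h1.trans h7]
  have hdiff : ∀ s ∈ Metric.closedBall (((M / 2 : ℕ) : ℂ)) 1, DifferentiableAt ℂ (LL M) s := by
    intro s hs
    rw [Metric.mem_closedBall, dist_eq_norm] at hs
    have hre := (Complex.abs_re_le_norm (s - ((M / 2 : ℕ) : ℂ))).trans hs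
    rw [Complex.sub_re, Complex.natCast_re] at hre
    have hre2 := abs_le.1 hre
    exact LL_differentiableAt M hMp s (by linarith [hre2.1]) (by linarith [hre2.2])
  have hdc : DiffContOnCl ℂ (LL M) (Metric.ball (((M / 2 : ℕ) : ℂ)) 1) := by
    apply DifferentiableOn.diffContOnCl_ball (U := Metric.closedBall (((M / 2 : ℕ) : ℂ)) 1) _
      le_rfl
    intro s hs
    exact (hdiff s hs).differentiableWithinAt
  have h := Complex.norm_deriv_le_of_forall_mem_sphere_norm_le (c := ((M / 2 : ℕ) : ℂ)) (R := 1)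
    (C := (C1 + 1 + |B|) * M) one_pos hdc
    (fun s hs => hbd s (Metric.sphere_subset_closedBall hs))
  simpa using h

private lemma TtBd_LL_all : ∃ C : ℝ, 0 < C ∧ ∀ᶠ M : ℕ in atTop, ∀ l : ℕ, l < M →
    ‖deriv (LL M) (l : ℂ)‖ ≤ C * M := by
  obtain ⟨C, hC, h⟩ := TtBd_LL_mid
  refine ⟨C + 2 * Real.pi, by positivity, ?_⟩
  filter_upwards [h, eventually_ge_atTop 1] with M hM hM1 l hl
  have hM0 : (0 : ℝ) < M := by exact_mod_cast hM1
  have hlM : (l : ℝ) ≤ M := by exact_mod_cast hl.le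
  have hk : ((M / 2 : ℕ) : ℝ) ≤ M := by exact_mod_cast Nat.div_le_self M 2
  have hp := Real.pi_pos
  have key : ‖deriv (LL M) (l : ℂ) - deriv (LL M) ((M / 2 : ℕ) : ℂ)‖ ≤ 2 * Real.pi * M := by
    rcases le_total l (M / 2) with h1 | h1
    · have h2 := TtBd_LL_diff M l (M / 2) h1 (by omega)
      rw [norm_sub_rev]
      refine h2.trans (mul_le_mul_of_nonneg_left ?_ (by positivity))
      have : (0 : ℝ) ≤ l := by positivity
      linarith
    · have h2 := TtBd_LL_diff M (M / 2) l h1 hl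
      refine h2.trans (mul_le_mul_of_nonneg_left ?_ (by positivity))
      have : (0 : ℝ) ≤ ((M / 2 : ℕ) : ℝ) := by positivity
      linarith
  have h3 : deriv (LL M) (l : ℂ) = (deriv (LL M) (l : ℂ) - deriv (LL M) ((M / 2 : ℕ) : ℂ)) +
      deriv (LL M) ((M / 2 : ℕ) : ℂ) := by ring
  rw [h3]
  refine (norm_add_le _ _).trans ?_
  linarith

/-- The factor `exp (-LL M l)` and its derivative. -/
theorem eLL_bound : ∃ (C : ℝ) (e : ℕ), 0 < C ∧ ∀ᶠ M : ℕ in atTop, ∀ l : ℕ, l < M →
    ‖exp (-LL M l)‖ ≤ C * (M : ℝ) ^ e * Real.exp (-(M * Fr ((l : ℝ) / M))) ∧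
    ‖deriv (fun z : ℂ => exp (-LL M z)) l‖ ≤
      C * (M : ℝ) ^ e * Real.exp (-(M * Fr ((l : ℝ) / M))) := by
  obtain ⟨C, hC, h⟩ := TtBd_LL_all
  obtain ⟨e1, hS⟩ := TtBd_S_le
  refine ⟨C + 1, e1 + 1, by positivity, ?_⟩
  filter_upwards [h, eventually_ge_atTop 2] with M hM hM2 l hl
  have hMp : 0 < M := by omega
  have hM0 : (0 : ℝ) < M := by exact_mod_cast hMp
  have hM1 : (1 : ℝ) ≤ M := by exact_mod_cast hMp
  have h1 : ‖exp (-LL M l)‖ = 1 / S M l := by
    rw [Complex.exp_neg, LL_nat M l hl, norm_inv, Complex.norm_real,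
      Real.norm_of_nonneg (S_pos hl).le, one_div]
  have h2 := (hS M l hM2 hl).2
  have hp : 0 < Real.exp (-(M * Fr ((l : ℝ) / M))) := Real.exp_pos _
  have hpow : (M : ℝ) ^ e1 ≤ (M : ℝ) ^ (e1 + 1) := pow_le_pow_right₀ hM1 (by omega)
  constructor
  · rw [h1]
    refine h2.trans (mul_le_mul_of_nonneg_right ?_ hp.le)
    nlinarith [pow_pos hM0 (e1 + 1)]
  · have hl0 : (0 : ℝ) ≤ l := Nat.cast_nonneg l
    have hd := (LL_differentiableAt M hMp (l : ℂ) (by rw [Complex.natCast_re]; linarith)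
      (by rw [Complex.natCast_re]; exact_mod_cast hl)).hasDerivAt
    have hd2 : HasDerivAt (fun z : ℂ => exp (-LL M z)) (exp (-LL M l) * (-deriv (LL M) l)) l :=
      hd.neg.cexp
    rw [hd2.deriv, norm_mul, norm_neg, h1]
    have h3 := hM l hl
    have h4 : 0 ≤ 1 / S M l := by have := S_pos hl; positivity
    calc 1 / S M l * ‖deriv (LL M) (l : ℂ)‖ ≤
        ((M : ℝ) ^ e1 * Real.exp (-(M * Fr ((l : ℝ) / M)))) * (C * M) :=
          mul_le_mul h2 h3 (norm_nonneg _) (by positivity)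
      _ = C * (M : ℝ) ^ (e1 + 1) * Real.exp (-(M * Fr ((l : ℝ) / M))) := by
          rw [pow_succ]; ring
      _ ≤ _ := by
          apply mul_le_mul_of_nonneg_right _ hp.le
          apply mul_le_mul_of_nonneg_right _ (by positivity)
          linarith

end Pool.Agent.H63.TW
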