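import Pool.Agent.H63.TW.Defs
import Pool.Agent.H63.VC3.Clausen

/-! # The path of the inner integral -/

namespace Pool.Agent.H63.TW

open Pool.Agent.H63.VC Pool.Agent.H63.VC3 Complex

/-- `arctan (t T) / π`. -/
noncomputable def xt (v : ℂ) (t : ℝ) : ℂ := arctan (t * Tj v) / Real.pi

/-! ### auxiliary lemmas -/

private theorem Path_a_re (v : ℂ) : (Real.pi * (v + 1 / 2) / 2 : ℂ).re = Real.pi * (v.re + 1 / 2) / 2 := by
  have h : (Real.pi * (v + 1 / 2) / 2 : ℂ) = ((Real.pi / 2 : ℝ) : ℂ) * (v + 1 / 2) := by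
    push_cast
    ring
  rw [h, re_ofReal_mul]
  simp
  ring

private theorem Path_a_bd (v : ℂ) (h0 : |v.re| < 1 / 2) :
    0 < (Real.pi * (v + 1 / 2) / 2 : ℂ).re ∧ (Real.pi * (v + 1 / 2) / 2 : ℂ).re < Real.pi / 2 := by
  rw [Path_a_re]
  rw [abs_lt] at h0
  have hpi := Real.pi_pos
  constructor
  · have : 0 < v.re + 1 / 2 := by linarith
    positivity
  · have : v.re + 1 / 2 < 1 := by linarith
    nlinarith

private theorem Path_cos_ne (v : ℂ) (h0 : |v.re| < 1 / 2) : cos (Real.pi * (v + 1 / 2) / 2) ≠ 0 := by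
  obtain ⟨h1, h2⟩ := Path_a_bd v h0
  apply cos_ne_zero_of_arctan_bounds _ (by linarith [Real.pi_pos]) h2.le
  intro h
  have h3 := congrArg Complex.re h
  have h4 : ((Real.pi : ℂ) / 2).re = Real.pi / 2 := by
    have : ((Real.pi : ℂ) / 2) = ((Real.pi / 2 : ℝ) : ℂ) := by push_cast; ring
    rw [this, ofReal_re]
  rw [h4] at h3
  linarith

private theorem Path_re_div (z w : ℂ) : (z / w).re = (z.re * w.re + z.im * w.im) / normSq w := by
  rw [div_re]
  ring

/-- `arctan` is analytic outside the imaginary axis and at `0`. -/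
private theorem Path_slit (z : ℂ) (hz : z.re ≠ 0 ∨ z = 0) :
    1 + z * I ≠ 0 ∧ 1 - z * I ≠ 0 ∧ (1 + z * I) / (1 - z * I) ∈ slitPlane := by
  rcases hz with hz | rfl
  · have h1 : 1 + z * I ≠ 0 := by
      intro h
      have := congrArg Complex.im h
      simp at this
      exact hz this
    have h2 : 1 - z * I ≠ 0 := by
      intro h
      have := congrArg Complex.im h
      simp at this
      exact hz this
    refine ⟨h1, h2, Or.inr ?_⟩
    rw [div_im]
    have h3 : 0 < normSq (1 - z * I) := normSq_pos.2 h2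
    have h4 : (1 + z * I).im * (1 - z * I).re / normSq (1 - z * I) - (1 + z * I).re * (1 - z * I).im / normSq (1 - z * I) =
        2 * z.re / normSq (1 - z * I) := by
      rw [← sub_div]
      congr 1
      simp
      ring
    rw [h4]
    exact div_ne_zero (mul_ne_zero two_ne_zero hz) h3.ne'
  · simp

private theorem Path_arctan_deriv (z : ℂ) (hz : z.re ≠ 0 ∨ z = 0) : HasDerivAt arctan (1 / (1 + z ^ 2)) z := by
  obtain ⟨h1, h2, h3⟩ := Path_slit z hz
  have hn : HasDerivAt (fun z : ℂ => 1 + z * I) I z := by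
    have := ((hasDerivAt_id z).mul_const I).const_add 1
    rw [one_mul] at this
    exact this
  have hd : HasDerivAt (fun z : ℂ => 1 - z * I) (-I) z := by
    have := ((hasDerivAt_id z).mul_const I).const_sub 1
    rw [one_mul] at this
    exact this
  have hq := ((hn.div hd h2).clog h3).const_mul (-I / 2)
  have e : (fun z : ℂ => -I / 2 * log ((1 + z * I) / (1 - z * I))) = arctan := rfl
  have h4 : 1 + z ^ 2 ≠ 0 := by
    have : 1 + z ^ 2 = (1 + z * I) * (1 - z * I) := by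
      linear_combination z ^ 2 * I_sq
    rw [this]
    exact mul_ne_zero h1 h2
  have h5 : 1 / (1 + z ^ 2) = -I / 2 * ((I * (1 - z * I) - (1 + z * I) * -I) / (1 - z * I) ^ 2 / ((1 + z * I) / (1 - z * I))) := by
    have h6 : (I * (1 - z * I) - (1 + z * I) * -I) = 2 * I := by ring
    rw [h6]
    rw [div_eq_iff h4]
    have h7 : -I / 2 * (2 * I / (1 - z * I) ^ 2 / ((1 + z * I) / (1 - z * I))) * (1 + z ^ 2) =
        -(I ^ 2) * (1 + z ^ 2) / ((1 + z * I) * (1 - z * I)) := by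
      field_simp
    rw [h7, I_sq]
    have h8 : (1 + z * I) * (1 - z * I) = 1 + z ^ 2 := by
      linear_combination -z ^ 2 * I_sq
    rw [h8]
    field_simp
  rw [h5]
  exact hq

private theorem Path_arctan_an (z : ℂ) (hz : z.re ≠ 0 ∨ z = 0) : AnalyticAt ℂ arctan z := by
  obtain ⟨h1, h2, h3⟩ := Path_slit z hz
  have hn : AnalyticAt ℂ (fun z : ℂ => 1 + z * I) z := by fun_prop
  have hd : AnalyticAt ℂ (fun z : ℂ => 1 - z * I) z := by fun_prop
  have hq := (analyticAt_const (v := -I / 2)).mul ((hn.div hd h2).clog h3)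
  exact hq

private theorem Path_arctan_neg (z : ℂ) (hz : z.re ≠ 0 ∨ z = 0) : arctan (-z) = -arctan z := by
  obtain ⟨h1, h2, h3⟩ := Path_slit z hz
  unfold arctan
  have e : (1 + -z * I) / (1 - -z * I) = ((1 + z * I) / (1 - z * I))⁻¹ := by
    rw [inv_div]
    congr 1 <;> ring
  rw [e, log_inv _ (mem_slitPlane_iff_arg.1 h3).1]
  ring

private theorem Path_tT (v : ℂ) (hT : 0 < (Tj v).re) (t : ℝ) :
    ((t : ℂ) * Tj v).re ≠ 0 ∨ (t : ℂ) * Tj v = 0 := by
  by_cases ht : t = 0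
  · right
    rw [ht]
    simp
  · left
    rw [re_ofReal_mul]
    exact mul_ne_zero ht hT.ne'

theorem Tj_re_pos (v : ℂ) (h0 : |v.re| < 1 / 2) : 0 < (Tj v).re := by
  obtain ⟨h1, h2⟩ := Path_a_bd v h0
  have hc := Path_cos_ne v h0
  unfold Tj
  set a : ℂ := Real.pi * (v + 1 / 2) / 2 with ha
  have hs : (sin a).re = Real.sin a.re * Real.cosh a.im ∧ (sin a).im = Real.cos a.re * Real.sinh a.im := by
    rw [sin_eq a]
    constructor <;> simp [sin_ofReal_re, cos_ofReal_re, sinh_ofReal_re, cosh_ofReal_re]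
  have hcc : (cos a).re = Real.cos a.re * Real.cosh a.im ∧ (cos a).im = -(Real.sin a.re * Real.sinh a.im) := by
    rw [cos_eq a]
    constructor <;> simp [sin_ofReal_re, cos_ofReal_re, sinh_ofReal_re, cosh_ofReal_re]
  have e : tan a = sin a / cos a := rfl
  rw [e, Path_re_div, hs.1, hs.2, hcc.1, hcc.2]
  apply div_pos _ (normSq_pos.2 hc)
  have h3 : 0 < Real.sin a.re := Real.sin_pos_of_pos_of_lt_pi h1 (by linarith [Real.pi_pos])
  have h4 : 0 < Real.cos a.re := Real.cos_pos_of_mem_Ioo ⟨by linarith [Real.pi_pos], h2⟩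
  have h5 : Real.cosh a.im ^ 2 - Real.sinh a.im ^ 2 = 1 := Real.cosh_sq_sub_sinh_sq a.im
  have h6 : Real.sin a.re * Real.cosh a.im * (Real.cos a.re * Real.cosh a.im) +
      Real.cos a.re * Real.sinh a.im * -(Real.sin a.re * Real.sinh a.im) = Real.sin a.re * Real.cos a.re := by
    linear_combination (Real.sin a.re * Real.cos a.re) * h5
  rw [h6]
  positivity

theorem one_add_ne (v : ℂ) (h0 : |v.re| < 1 / 2) (t : ℝ) :
    1 + (t : ℂ) ^ 2 * Tj v ^ 2 ∈ slitPlane := by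
  have hT := Tj_re_pos v h0
  by_cases hi : (Tj v).im = 0
  · left
    have h1 : (1 + (t : ℂ) ^ 2 * Tj v ^ 2).re = 1 + t ^ 2 * ((Tj v).re ^ 2 - (Tj v).im ^ 2) := by
      have : (t : ℂ) ^ 2 = ((t ^ 2 : ℝ) : ℂ) := by push_cast; ring
      rw [this, add_re, re_ofReal_mul, sq (Tj v), mul_re, one_re]
      ring
    rw [h1, hi]
    have h2 : 0 ≤ t ^ 2 * ((Tj v).re ^ 2 - 0 ^ 2) := by
      have : (Tj v).re ^ 2 - 0 ^ 2 = (Tj v).re ^ 2 := by ring
      rw [this]
      positivity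
    linarith
  · by_cases ht : t = 0
    · left
      rw [ht]
      simp
    · right
      have h1 : (1 + (t : ℂ) ^ 2 * Tj v ^ 2).im = t ^ 2 * (2 * (Tj v).re * (Tj v).im) := by
        have : (t : ℂ) ^ 2 = ((t ^ 2 : ℝ) : ℂ) := by push_cast; ring
        rw [this, add_im, im_ofReal_mul, sq (Tj v), mul_im, one_im]
        ring
      rw [h1]
      exact mul_ne_zero (pow_ne_zero 2 ht) (mul_ne_zero (mul_ne_zero two_ne_zero hT.ne') hi)

theorem xt_deriv (v : ℂ) (h0 : |v.re| < 1 / 2) (t : ℝ) :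
    HasDerivAt (xt v) (Tj v / (Real.pi * (1 + (t : ℂ) ^ 2 * Tj v ^ 2))) t := by
  have hT := Tj_re_pos v h0
  have hz := Path_tT v hT t
  have h1 : HasDerivAt (fun s : ℝ => (s : ℂ) * Tj v) (Tj v) t := by
    have := (Complex.ofRealCLM.hasDerivAt (x := t)).mul_const (Tj v)
    simpa using this
  have h2 := ((Path_arctan_deriv _ hz).comp t h1).div_const (Real.pi : ℂ)
  have h3 : HasDerivAt (xt v) (1 / (1 + ((t : ℂ) * Tj v) ^ 2) * Tj v / Real.pi) t := h2
  convert h3 using 1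
  rw [mul_pow]
  have h4 : 1 + (t : ℂ) ^ 2 * Tj v ^ 2 ≠ 0 := slitPlane_ne_zero (one_add_ne v h0 t)
  have h5 : (Real.pi : ℂ) ≠ 0 := by exact_mod_cast Real.pi_ne_zero
  field_simp

theorem xt_odd (v : ℂ) (h0 : |v.re| < 1 / 2) (t : ℝ) : xt v (-t) = -xt v t := by
  have hT := Tj_re_pos v h0
  have hz := Path_tT v hT t
  unfold xt
  rw [ofReal_neg, neg_mul, Path_arctan_neg _ hz, neg_div]

theorem xt_zero (v : ℂ) : xt v 0 = 0 := by
  unfold xt arctan
  simp

/-- Analyticity in `v`. -/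
theorem xt_an (v : ℂ) (h0 : |v.re| < 1 / 2) (t : ℝ) :
    AnalyticAt ℂ (fun u => xt u t) v := by
  have hT := Tj_re_pos v h0
  have hz := Path_tT v hT t
  have hTj : AnalyticAt ℂ Tj v := by
    have h1 : AnalyticAt ℂ (fun u : ℂ => (Real.pi * (u + 1 / 2) / 2 : ℂ)) v := by fun_prop
    have h2 : AnalyticAt ℂ (fun u : ℂ => sin (Real.pi * (u + 1 / 2) / 2)) v :=
      (Complex.differentiable_sin.analyticAt _).comp h1
    have h3 : AnalyticAt ℂ (fun u : ℂ => cos (Real.pi * (u + 1 / 2) / 2)) v :=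
      (Complex.differentiable_cos.analyticAt _).comp h1
    exact h2.div h3 (Path_cos_ne v h0)
  have h4 : AnalyticAt ℂ (fun u : ℂ => (t : ℂ) * Tj u) v := analyticAt_const.mul hTj
  have h5 : AnalyticAt ℂ (fun u : ℂ => arctan ((t : ℂ) * Tj u)) v :=
    AnalyticAt.comp (g := arctan) (f := fun u : ℂ => (t : ℂ) * Tj u) (Path_arctan_an _ hz) h4
  have h6 : (Real.pi : ℂ) ≠ 0 := by exact_mod_cast Real.pi_ne_zero
  exact h5.div analyticAt_const h6

/-- The real part of the derivative factor. -/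
private theorem Path_fac_re (v : ℂ) (t : ℝ) :
    (Tj v / (1 + (t : ℂ) ^ 2 * Tj v ^ 2)).re =
      (Tj v).re * (1 + t ^ 2 * normSq (Tj v)) / normSq (1 + (t : ℂ) ^ 2 * Tj v ^ 2) := by
  rw [Path_re_div]
  congr 1
  have h1 : (1 + (t : ℂ) ^ 2 * Tj v ^ 2).re = 1 + t ^ 2 * ((Tj v).re ^ 2 - (Tj v).im ^ 2) := by
    have : (t : ℂ) ^ 2 = ((t ^ 2 : ℝ) : ℂ) := by push_cast; ring
    rw [this, add_re, re_ofReal_mul, sq (Tj v), mul_re, one_re]
    ring
  have h2 : (1 + (t : ℂ) ^ 2 * Tj v ^ 2).im = t ^ 2 * (2 * (Tj v).re * (Tj v).im) := by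
    have : (t : ℂ) ^ 2 = ((t ^ 2 : ℝ) : ℂ) := by push_cast; ring
    rw [this, add_im, im_ofReal_mul, sq (Tj v), mul_im, one_im]
    ring
  rw [h1, h2, normSq_apply]
  ring

private theorem Path_fac_pos (v : ℂ) (h0 : |v.re| < 1 / 2) (t : ℝ) :
    0 < (Tj v / (1 + (t : ℂ) ^ 2 * Tj v ^ 2)).re := by
  rw [Path_fac_re v]
  have hT := Tj_re_pos v h0
  have h4 : 1 + (t : ℂ) ^ 2 * Tj v ^ 2 ≠ 0 := slitPlane_ne_zero (one_add_ne v h0 t)
  have h5 : 0 < normSq (1 + (t : ℂ) ^ 2 * Tj v ^ 2) := normSq_pos.2 h4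
  have h6 : 0 ≤ normSq (Tj v) := normSq_nonneg _
  positivity

/-- The lower bound of the real part of the factor. -/
private theorem Path_fac_lo (v : ℂ) (h0 : |v.re| < 1 / 2) (t : ℝ) (h1 : |t| < 1) :
    (Tj v).re / (1 + ‖Tj v‖ ^ 2) ^ 2 ≤ (Tj v / (1 + (t : ℂ) ^ 2 * Tj v ^ 2)).re := by
  rw [Path_fac_re v]
  have hT := Tj_re_pos v h0
  have h4 : 1 + (t : ℂ) ^ 2 * Tj v ^ 2 ≠ 0 := slitPlane_ne_zero (one_add_ne v h0 t)
  have h5 : 0 < normSq (1 + (t : ℂ) ^ 2 * Tj v ^ 2) := normSq_pos.2 h4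
  have h6 : 0 ≤ normSq (Tj v) := normSq_nonneg _
  have h7 : normSq (1 + (t : ℂ) ^ 2 * Tj v ^ 2) ≤ (1 + ‖Tj v‖ ^ 2) ^ 2 := by
    rw [normSq_eq_norm_sq]
    apply pow_le_pow_left₀ (norm_nonneg _)
    refine (norm_add_le _ _).trans ?_
    rw [norm_one, norm_mul, norm_pow, norm_pow, norm_real, Real.norm_eq_abs]
    have h8 : |t| ^ 2 ≤ 1 := pow_le_one₀ (abs_nonneg t) h1.le
    have h9 : 0 ≤ ‖Tj v‖ ^ 2 := by positivity
    nlinarith
  have h8 : (Tj v).re ≤ (Tj v).re * (1 + t ^ 2 * normSq (Tj v)) := by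
    have : 0 ≤ (Tj v).re * (t ^ 2 * normSq (Tj v)) := by positivity
    nlinarith
  calc (Tj v).re / (1 + ‖Tj v‖ ^ 2) ^ 2 ≤ (Tj v).re / normSq (1 + (t : ℂ) ^ 2 * Tj v ^ 2) :=
        div_le_div_of_nonneg_left hT.le h5 h7
    _ ≤ _ := div_le_div_of_nonneg_right h8 h5.le

private theorem Path_xre_deriv (v : ℂ) (h0 : |v.re| < 1 / 2) (t : ℝ) :
    HasDerivAt (fun s : ℝ => (xt v s).re) ((Tj v / (1 + (t : ℂ) ^ 2 * Tj v ^ 2)).re / Real.pi) t := by
  have h1 := Complex.reCLM.hasFDerivAt.comp_hasDerivAt t (xt_deriv v h0 t)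
  have h2 : HasDerivAt (fun s : ℝ => (xt v s).re) ((Tj v / (Real.pi * (1 + (t : ℂ) ^ 2 * Tj v ^ 2))).re) t := h1
  convert h2 using 1
  have h3 : Tj v / (Real.pi * (1 + (t : ℂ) ^ 2 * Tj v ^ 2)) = ((Real.pi⁻¹ : ℝ) : ℂ) * (Tj v / (1 + (t : ℂ) ^ 2 * Tj v ^ 2)) := by
    push_cast
    rw [mul_comm (Real.pi : ℂ), ← div_div, div_eq_inv_mul _ (Real.pi : ℂ)]
  rw [h3, re_ofReal_mul]
  ring

private theorem Path_xre_mono (v : ℂ) (h0 : |v.re| < 1 / 2) : StrictMono (fun s : ℝ => (xt v s).re) := by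
  apply strictMono_of_deriv_pos
  intro t
  rw [(Path_xre_deriv v h0 t).deriv]
  exact div_pos (Path_fac_pos v h0 t) Real.pi_pos

private theorem Path_xt_one (v : ℂ) (h0 : |v.re| < 1 / 2) : (xt v 1).re = (v.re + 1 / 2) / 2 := by
  obtain ⟨h1, h2⟩ := Path_a_bd v h0
  unfold xt Tj
  rw [ofReal_one, one_mul]
  rw [arctan_tan _ (by linarith [Real.pi_pos]) h2.le]
  · have h3 : (Real.pi * (v + 1 / 2) / 2 / Real.pi : ℂ) = ((1 / 2 : ℝ) : ℂ) * (v + 1 / 2) := by
      have h6 : (Real.pi : ℂ) ≠ 0 := by exact_mod_cast Real.pi_ne_zero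
      push_cast
      field_simp
    rw [h3, re_ofReal_mul]
    simp
    ring
  · intro h
    have h3 := congrArg Complex.re h
    have h4 : ((Real.pi : ℂ) / 2).re = Real.pi / 2 := by
      have : ((Real.pi : ℂ) / 2) = ((Real.pi / 2 : ℝ) : ℂ) := by push_cast; ring
      rw [this, ofReal_re]
    rw [h4] at h3
    linarith

/-- The real parts of the path. -/
theorem xt_re (v : ℂ) (h0 : |v.re| < 1 / 2) (t : ℝ) (h1 : |t| < 1) :
    |(xt v t).re| < (v.re + 1 / 2) / 2 := by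
  have hm := Path_xre_mono v h0
  have h2 := Path_xt_one v h0
  rw [abs_lt] at h1
  have h3 : (xt v t).re < (xt v 1).re := hm h1.2
  have h4 : (xt v (-t)).re < (xt v 1).re := hm (by linarith : -t < 1)
  rw [xt_odd v h0, neg_re] at h4
  rw [h2] at h3 h4
  rw [abs_lt]
  constructor <;> linarith

/-- Along the path the logarithms differ by a real number. -/
theorem hh_path (v : ℂ) (h0 : |v.re| < 1 / 2) (t : ℝ) (h1 : |t| < 1) :
    hh ((v + 1 / 2) / 2 + xt v t) - hh ((v + 1 / 2) / 2 - xt v t) =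
      (Real.log ((1 + t) / (1 - t)) : ℂ) := by
  have hT := Tj_re_pos v h0
  have hz := Path_tT v hT t
  obtain ⟨g1, g2, g3⟩ := Path_slit _ hz
  have hpi : (Real.pi : ℂ) ≠ 0 := by exact_mod_cast Real.pi_ne_zero
  have hre := xt_re v h0 t h1
  rw [abs_lt] at hre h1
  have hv := h0
  rw [abs_lt] at hv
  -- tan of the path
  have htan : tan (Real.pi * xt v t) = t * Tj v := by
    have e : Real.pi * xt v t = arctan (t * Tj v) := by
      unfold xt
      field_simp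
    rw [e]
    apply tan_arctan
    · intro h
      apply g1
      rw [h, I_mul_I]
      ring
    · intro h
      apply g2
      rw [h]
      linear_combination I_sq
  have hcos : cos (Real.pi * xt v t) ≠ 0 := by
    intro h
    have h2 : tan (Real.pi * xt v t) = 0 := by
      show sin (Real.pi * xt v t) / cos (Real.pi * xt v t) = 0
      rw [h, div_zero]
    rw [htan] at h2
    have h3 : xt v t = 0 := by
      unfold xt
      rw [h2]
      unfold arctan
      simp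
    rw [h3, mul_zero, cos_zero] at h
    exact one_ne_zero h
  have hca := Path_cos_ne v h0
  have hsin : sin (Real.pi * xt v t) = t * Tj v * cos (Real.pi * xt v t) := by
    rw [← htan]
    show _ = sin (Real.pi * xt v t) / cos (Real.pi * xt v t) * cos (Real.pi * xt v t)
    field_simp
  have hTs : Tj v * cos (Real.pi * (v + 1 / 2) / 2) = sin (Real.pi * (v + 1 / 2) / 2) := by
    unfold Tj
    exact div_mul_cancel₀ _ hca
  set W : ℂ := 2 * sin (Real.pi * (v + 1 / 2) / 2) * cos (Real.pi * xt v t) with hW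
  have e1 : 2 * sin (Real.pi * ((v + 1 / 2) / 2 + xt v t)) = ((1 + t : ℝ) : ℂ) * W := by
    have e : Real.pi * ((v + 1 / 2) / 2 + xt v t) = Real.pi * (v + 1 / 2) / 2 + Real.pi * xt v t := by ring
    rw [e, sin_add, hsin, hW, ← hTs]
    push_cast
    ring
  have e2 : 2 * sin (Real.pi * ((v + 1 / 2) / 2 - xt v t)) = ((1 - t : ℝ) : ℂ) * W := by
    have e : Real.pi * ((v + 1 / 2) / 2 - xt v t) = Real.pi * (v + 1 / 2) / 2 - Real.pi * xt v t := by ring
    rw [e, sin_sub, hsin, hW, ← hTs]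
    push_cast
    ring
  have hjr : ((v + 1 / 2) / 2 : ℂ).re = (v.re + 1 / 2) / 2 := by
    have h3 : ((v + 1 / 2) / 2 : ℂ) = ((1 / 2 : ℝ) : ℂ) * (v + 1 / 2) := by
      push_cast
      ring
    rw [h3, re_ofReal_mul]
    simp
    ring
  have hW0 : W ≠ 0 := by
    intro h
    have h3 := Clausen_slit ((v + 1 / 2) / 2 + xt v t) (by rw [add_re, hjr]; linarith) (by rw [add_re, hjr]; linarith)
    rw [e1, h, mul_zero] at h3
    exact slitPlane_ne_zero h3 rfl
  unfold hh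
  rw [e1, e2, log_ofReal_mul (by linarith) hW0, log_ofReal_mul (by linarith) hW0,
    Real.log_div (by linarith) (by linarith)]
  push_cast
  ring

/-- The exponent of the inner integral. -/
noncomputable def wt (v : ℂ) (t : ℝ) : ℂ :=
  -(2 * ff ((v + 1 / 2) / 2 + xt v t)) - 2 * ff ((v + 1 / 2) / 2 - xt v t)

theorem wt_deriv (v : ℂ) (h0 : |v.re| < 1 / 2) (t : ℝ) (h1 : |t| < 1) :
    HasDerivAt (wt v) (-(2 / Real.pi * Real.log ((1 + t) / (1 - t)) *
      (Tj v / (1 + (t : ℂ) ^ 2 * Tj v ^ 2)))) t := by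
  have hre := xt_re v h0 t h1
  rw [abs_lt] at hre
  have hv := h0
  rw [abs_lt] at hv
  have hjr : ((v + 1 / 2) / 2 : ℂ).re = (v.re + 1 / 2) / 2 := by
    have h3 : ((v + 1 / 2) / 2 : ℂ) = ((1 / 2 : ℝ) : ℂ) * (v + 1 / 2) := by
      push_cast
      ring
    rw [h3, re_ofReal_mul]
    simp
    ring
  have hx := xt_deriv v h0 t
  have hp : HasDerivAt (fun s : ℝ => (v + 1 / 2) / 2 + xt v s) (Tj v / (Real.pi * (1 + (t : ℂ) ^ 2 * Tj v ^ 2))) t :=
    hx.const_add _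
  have hm : HasDerivAt (fun s : ℝ => (v + 1 / 2) / 2 - xt v s) (-(Tj v / (Real.pi * (1 + (t : ℂ) ^ 2 * Tj v ^ 2)))) t :=
    hx.const_sub _
  have hfp := ff_hasDerivAt ((v + 1 / 2) / 2 + xt v t) (by rw [add_re, hjr]; linarith) (by rw [add_re, hjr]; linarith)
  have hfm := ff_hasDerivAt ((v + 1 / 2) / 2 - xt v t) (by rw [sub_re, hjr]; linarith) (by rw [sub_re, hjr]; linarith)
  have h2 := (((hfp.comp t hp).const_mul 2).neg).sub ((hfm.comp t hm).const_mul 2)
  have h3 : HasDerivAt (wt v) (-(2 * (hh ((v + 1 / 2) / 2 + xt v t) * (Tj v / (Real.pi * (1 + (t : ℂ) ^ 2 * Tj v ^ 2))))) -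
      2 * (hh ((v + 1 / 2) / 2 - xt v t) * -(Tj v / (Real.pi * (1 + (t : ℂ) ^ 2 * Tj v ^ 2))))) t := h2
  convert h3 using 1
  rw [← hh_path v h0 t h1]
  have h4 : 1 + (t : ℂ) ^ 2 * Tj v ^ 2 ≠ 0 := slitPlane_ne_zero (one_add_ne v h0 t)
  have h5 : (Real.pi : ℂ) ≠ 0 := by exact_mod_cast Real.pi_ne_zero
  field_simp
  ring

private theorem Path_log {t : ℝ} (h0 : 0 ≤ t) (h1 : t < 1) : 2 * t ≤ Real.log ((1 + t) / (1 - t)) := by
  have h2 := Real.hasSum_log_sub_log_of_abs_lt_one (x := t) (by rw [abs_of_nonneg h0]; exact h1)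
  have h3 := le_hasSum h2 0 (fun j _ => by positivity)
  rw [Real.log_div (by linarith) (by linarith)]
  simpa using h3

private theorem Path_wre_deriv (v : ℂ) (h0 : |v.re| < 1 / 2) (t : ℝ) (h1 : |t| < 1) :
    HasDerivAt (fun s : ℝ => (wt v s).re) (-(2 / Real.pi * Real.log ((1 + t) / (1 - t)) *
      (Tj v / (1 + (t : ℂ) ^ 2 * Tj v ^ 2)).re)) t := by
  have h2 := Complex.reCLM.hasFDerivAt.comp_hasDerivAt t (wt_deriv v h0 t h1)
  have h3 : HasDerivAt (fun s : ℝ => (wt v s).re) ((-(2 / Real.pi * Real.log ((1 + t) / (1 - t)) *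
      (Tj v / (1 + (t : ℂ) ^ 2 * Tj v ^ 2)) : ℂ)).re) t := h2
  convert h3 using 1
  have h4 : (-(2 / Real.pi * Real.log ((1 + t) / (1 - t)) * (Tj v / (1 + (t : ℂ) ^ 2 * Tj v ^ 2))) : ℂ) =
      ((-(2 / Real.pi * Real.log ((1 + t) / (1 - t))) : ℝ) : ℂ) * (Tj v / (1 + (t : ℂ) ^ 2 * Tj v ^ 2)) := by
    push_cast
    ring
  rw [h4, re_ofReal_mul]
  ring

private theorem Path_wt_even (v : ℂ) (h0 : |v.re| < 1 / 2) (t : ℝ) : wt v (-t) = wt v t := by
  unfold wt
  rw [xt_odd v h0]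
  have e : (v + 1 / 2) / 2 - -xt v t = (v + 1 / 2) / 2 + xt v t := by ring
  rw [e, ← sub_eq_add_neg]
  ring

private theorem Path_wt_pos (v : ℂ) (h0 : |v.re| < 1 / 2) (t : ℝ) (ht : 0 ≤ t) (h1 : t < 1) :
    (wt v t).re ≤ (wt v 0).re - 2 / Real.pi * (Tj v).re / (1 + ‖Tj v‖ ^ 2) ^ 2 * t ^ 2 := by
  set κ : ℝ := (Tj v).re / (1 + ‖Tj v‖ ^ 2) ^ 2 with hκ
  have hT := Tj_re_pos v h0
  have hpi := Real.pi_pos
  have hκ0 : 0 ≤ κ := by positivity
  have hd : ∀ s ∈ Set.Icc 0 t, HasDerivAt (fun s : ℝ => (wt v s).re + 2 / Real.pi * κ * s ^ 2)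
      (-(2 / Real.pi * Real.log ((1 + s) / (1 - s)) * (Tj v / (1 + (s : ℂ) ^ 2 * Tj v ^ 2)).re) +
        2 / Real.pi * κ * (2 * s)) s := by
    intro s hs
    have hs1 : |s| < 1 := by
      rw [abs_of_nonneg hs.1]
      linarith [hs.2]
    have h2 := (Path_wre_deriv v h0 s hs1).add (((hasDerivAt_pow 2 s).const_mul (2 / Real.pi * κ)))
    have h3 : HasDerivAt (fun s : ℝ => (wt v s).re + 2 / Real.pi * κ * s ^ 2)
      (-(2 / Real.pi * Real.log ((1 + s) / (1 - s)) * (Tj v / (1 + (s : ℂ) ^ 2 * Tj v ^ 2)).re) +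
        2 / Real.pi * κ * (((2 : ℕ) : ℝ) * s ^ (2 - 1))) s := h2
    convert h3 using 1
    simp
  have hanti : AntitoneOn (fun s : ℝ => (wt v s).re + 2 / Real.pi * κ * s ^ 2) (Set.Icc 0 t) := by
    apply antitoneOn_of_deriv_nonpos (convex_Icc 0 t)
    · intro s hs
      exact (hd s hs).continuousAt.continuousWithinAt
    · intro s hs
      rw [interior_Icc] at hs
      exact (hd s ⟨hs.1.le, hs.2.le⟩).differentiableAt.differentiableWithinAt
    · intro s hs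
      rw [interior_Icc] at hs
      have hs' : s ∈ Set.Icc 0 t := ⟨hs.1.le, hs.2.le⟩
      rw [(hd s hs').deriv]
      have hs1 : s < 1 := by linarith [hs.2]
      have h3 := Path_log hs.1.le hs1
      have h4 := Path_fac_lo v h0 s (by rw [abs_of_nonneg hs.1.le]; exact hs1)
      rw [← hκ] at h4
      have h5 : 2 * s * κ ≤ Real.log ((1 + s) / (1 - s)) * (Tj v / (1 + (s : ℂ) ^ 2 * Tj v ^ 2)).re :=
        mul_le_mul h3 h4 hκ0 (by linarith [hs.1])
      have h6 : 0 ≤ 2 / Real.pi := by positivity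
      have h7 := mul_le_mul_of_nonneg_left h5 h6
      linarith
  have h8 := hanti (Set.left_mem_Icc.2 ht) (Set.right_mem_Icc.2 ht) ht
  simp only [ne_eq, OfNat.ofNat_ne_zero, not_false_eq_true, zero_pow, mul_zero, add_zero] at h8
  have h9 : 2 / Real.pi * (Tj v).re / (1 + ‖Tj v‖ ^ 2) ^ 2 * t ^ 2 = 2 / Real.pi * κ * t ^ 2 := by
    rw [hκ]
    ring
  rw [h9]
  linarith

/-- The real part decreases. -/
theorem wt_re (v : ℂ) (h0 : |v.re| < 1 / 2) (t : ℝ) (h1 : |t| < 1) :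
    (wt v t).re ≤ (wt v 0).re - 2 / Real.pi * (Tj v).re / (1 + ‖Tj v‖ ^ 2) ^ 2 * t ^ 2 := by
  rw [abs_lt] at h1
  rcases le_total 0 t with ht | ht
  · exact Path_wt_pos v h0 t ht h1.2
  · have h2 := Path_wt_pos v h0 (-t) (by linarith) (by linarith)
    rw [Path_wt_even v h0, neg_sq] at h2
    exact h2

end Pool.Agent.H63.TW
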