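import Pool.Agent.H63.TW.FlBd
import Pool.Agent.H63.TW.Path
import Pool.Agent.H63.TW.Vert

/-! # The window of the sum and the path of the integral -/

namespace Pool.Agent.H63.TW

open Pool.Agent.H63.VC Pool.Agent.H63.VC3 Complex Filter Topology
open scoped BigOperators

private theorem WinPath_prim {s : Set ℂ} (hs : Convex ℝ s) (ho : IsOpen s) (f : ℂ → ℂ)
    (hf : ∀ z ∈ s, DifferentiableAt ℂ f z) : ∃ F : ℂ → ℂ, ∀ z ∈ s, HasDerivAt F (f z) z := by
  have h := hs.exists_forall_hasFDerivWithinAt_of_hasFDerivWithinAt_symmetric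
    (ω := fun z => ContinuousLinearMap.smulRightL ℂ ℂ ℂ 1 (f z))
    (dω := fun z => ((ContinuousLinearMap.smulRightL ℂ ℂ ℂ 1).comp
      (fderiv ℂ f z)).restrictScalars ℝ) ?_ ?_
  · obtain ⟨F, hF⟩ := h
    refine ⟨F, fun z hz => ?_⟩
    have h1 := ((hF z hz).hasFDerivAt (ho.mem_nhds hz)).hasDerivAt
    simpa using h1
  · intro z hz
    have h1 : HasFDerivAt (fun z => ContinuousLinearMap.smulRightL ℂ ℂ ℂ 1 (f z))
        ((ContinuousLinearMap.smulRightL ℂ ℂ ℂ 1).comp (fderiv ℂ f z)) z :=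
      (ContinuousLinearMap.smulRightL ℂ ℂ ℂ 1).hasFDerivAt.comp z (hf z hz).hasFDerivAt
    exact (h1.restrictScalars ℝ).hasFDerivWithinAt
  · intro a ha x _ y _
    simp only [ContinuousLinearMap.coe_restrictScalars', ContinuousLinearMap.comp_apply,
      fderiv_eq_smul_deriv, smul_eq_mul]
    simp
    ring

private theorem WinPath_sin (x : ℝ) (h : |x| ≤ 31 / 100) :
    56 / 100 ≤ Real.sin (Real.pi * (x + 1 / 2)) := by
  have hp1 := Real.pi_gt_d4
  have hp2 := Real.pi_lt_d4
  obtain ⟨h1, h2⟩ := abs_le.1 h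
  have key : 56 / 100 ≤ Real.sin (Real.pi * (19 / 100)) := by
    have h3 := Real.sin_gt_sub_cube (x := Real.pi * (19 / 100)) (by positivity)
    have h4 : (Real.pi * (19 / 100)) ^ 3 ≤ (6 / 10 : ℝ) ^ 3 :=
      pow_le_pow_left₀ (by positivity) (by linarith only [hp2]) 3
    norm_num at h4
    linarith only [h4, h3, hp2, hp1]
  rcases le_total x 0 with h0 | h0
  · refine key.trans (Real.sin_le_sin_of_le_of_le_pi_div_two ?_ ?_ ?_)
    · linarith only [hp1]
    · (refine le_of_not_gt fun hng => ?_; linarith only [h0,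
        mul_nonneg (sub_nonneg.2 hp1.le) (sub_nonneg.2 h0), mul_pos (sub_pos.2 hng) (sub_pos.2 hp2),
        mul_pos (sub_pos.2 hng) (sub_pos.2 hp1)])
    · (refine le_of_not_gt fun hng => ?_; linarith only [h1,
        mul_nonneg (sub_nonneg.2 hp1.le) (sub_nonneg.2 h1), mul_pos (sub_pos.2 hng) (sub_pos.2 hp2),
        mul_pos (sub_pos.2 hng) (sub_pos.2 hp1)])
  · have e : Real.sin (Real.pi * (x + 1 / 2)) = Real.sin (Real.pi * (1 / 2 - x)) := by
      rw [← Real.sin_pi_sub]
      congr 1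
      ring
    rw [e]
    refine key.trans (Real.sin_le_sin_of_le_of_le_pi_div_two ?_ ?_ ?_)
    · linarith only [hp1]
    · (refine le_of_not_gt fun hng => ?_; linarith only [h0,
        mul_nonneg (sub_nonneg.2 hp1.le) (sub_nonneg.2 h0), mul_pos (sub_pos.2 hng) (sub_pos.2 hp2),
        mul_pos (sub_pos.2 hng) (sub_pos.2 hp1)])
    · (refine le_of_not_gt fun hng => ?_; linarith only [h2,
        mul_nonneg (sub_nonneg.2 hp1.le) (sub_nonneg.2 h2), mul_pos (sub_pos.2 hng) (sub_pos.2 hp2),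
        mul_pos (sub_pos.2 hng) (sub_pos.2 hp1)])

private theorem WinPath_real (x : ℝ) (h : |x| ≤ 31 / 100) :
    0 < Real.tan (Real.pi * (x + 1 / 2) / 2) ∧
    89 / 10000 ≤ (x + 1 / 2) / 2 -
      Real.arctan (9 / 10 * Real.tan (Real.pi * (x + 1 / 2) / 2)) / Real.pi ∧
    (x + 1 / 2) / 2 - Real.arctan (9 / 10 * Real.tan (Real.pi * (x + 1 / 2) / 2)) / Real.pi ≤
      178 / 10000 := by
  have hp := Real.pi_pos
  have hp1 := Real.pi_gt_d4
  have hp2 := Real.pi_lt_d4
  obtain ⟨h1, h2⟩ := abs_le.1 h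
  obtain ⟨θ, hθ⟩ : ∃ θ, θ = Real.pi * (x + 1 / 2) / 2 := ⟨_, rfl⟩
  have hθ0 : 0 < θ := by rw [hθ]; linarith only [hp2, hp1,
                                    mul_nonneg (sub_nonneg.2 hp.le) (sub_nonneg.2 h1)]
  have hθ1 : θ < Real.pi / 2 := by rw [hθ]; linarith only [hp2, hp1,
                                              mul_nonneg (sub_nonneg.2 hp.le) (sub_nonneg.2 h2)]
  have hT0 : 0 < Real.tan θ := Real.tan_pos_of_pos_of_lt_pi_div_two hθ0 hθ1
  have hat : Real.arctan (Real.tan θ) = θ := Real.arctan_tan (by linarith only [hθ0, hp2, hp1]) hθ1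
  rw [← hθ]
  obtain ⟨T, hT⟩ : ∃ T, T = Real.tan θ := ⟨_, rfl⟩
  rw [← hT] at hT0 hat ⊢
  obtain ⟨c, hc, hc2⟩ := exists_hasDerivAt_eq_slope Real.arctan (fun x => 1 / (1 + x ^ 2))
    (show 9 / 10 * T < T by linarith only [hT0]) Real.continuous_arctan.continuousOn
    (fun x _ => Real.hasDerivAt_arctan x)
  rw [hat] at hc2
  have hs : T / (1 + T ^ 2) = Real.sin (Real.pi * (x + 1 / 2)) / 2 := by
    have hcos : 0 < Real.cos θ := Real.cos_pos_of_mem_Ioo ⟨by linarith only [hθ0, hp2, hp1], hθ1⟩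
    have h3 : Real.pi * (x + 1 / 2) = 2 * θ := by rw [hθ]; ring
    rw [h3, Real.sin_two_mul, hT, Real.tan_eq_sin_div_cos]
    have h4 := Real.sin_sq_add_cos_sq θ
    have h5 : 1 + (Real.sin θ / Real.cos θ) ^ 2 = 1 / Real.cos θ ^ 2 := by
      field_simp
      linarith only [h4]
    rw [h5]
    field_simp
  have hsin := WinPath_sin x h
  have hdiff : θ - Real.arctan (9 / 10 * T) = 1 / (1 + c ^ 2) * (T / 10) := by
    have h6 : T - 9 / 10 * T = T / 10 := by ring
    rw [h6] at hc2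
    rw [hc2]
    field_simp
  have hc0 : 0 < c := lt_trans (by positivity) hc.1
  have hlow : 28 / 1000 ≤ θ - Real.arctan (9 / 10 * T) := by
    rw [hdiff]
    have h7 : 1 / (1 + T ^ 2) ≤ 1 / (1 + c ^ 2) := by
      apply one_div_le_one_div_of_le (by positivity)
      have := pow_le_pow_left₀ hc0.le hc.2.le 2
      linarith only [this]
    calc (28 / 1000 : ℝ) ≤ (T / (1 + T ^ 2)) / 10 := by rw [hs]; linarith only [hsin]
      _ = 1 / (1 + T ^ 2) * (T / 10) := by ring
      _ ≤ 1 / (1 + c ^ 2) * (T / 10) := mul_le_mul_of_nonneg_right h7 (by positivity)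
  have hup : θ - Real.arctan (9 / 10 * T) ≤ 1 / 18 := by
    rw [hdiff]
    have h7 : 18 / 10 * T ≤ 1 + c ^ 2 := by
      have h8 : (9 / 10 * T) ^ 2 ≤ c ^ 2 := pow_le_pow_left₀ (by positivity) hc.1.le 2
      linarith only [sq_nonneg (9 / 10 * T - 1), h8]
    rw [div_mul_eq_mul_div, one_mul, div_le_iff₀ (by positivity)]
    linarith only [h7]
  have e : (x + 1 / 2) / 2 - Real.arctan (9 / 10 * T) / Real.pi =
      (θ - Real.arctan (9 / 10 * T)) / Real.pi := by
    rw [hθ]
    field_simp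
  rw [e]
  refine ⟨hT0, ?_, ?_⟩
  · rw [le_div_iff₀ hp]
    linarith only [hlow, hp2, hp1]
  · rw [div_le_iff₀ hp]
    linarith only [hup, hp2, hp1]

private theorem WinPath_xt_real (x t : ℝ) : xt (x : ℂ) t =
    ((Real.arctan (t * Real.tan (Real.pi * (x + 1 / 2) / 2)) / Real.pi : ℝ) : ℂ) := by
  unfold xt Tj
  push_cast
  ring_nf

private theorem WinPath_arctan {z : ℂ} (h : z.re ≠ 0 ∨ z = 0) : ContinuousAt arctan z := by
  have h1 : 1 - z * I ≠ 0 := by
    intro h0
    have h2 : z = -I := by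
      have : z * I = 1 := (sub_eq_zero.1 h0).symm
      calc z = -(z * I) * I := by ring_nf; simp
        _ = -I := by rw [this]; ring
    rcases h with h | h
    · rw [h2] at h
      simp at h
    · rw [h] at h2
      simp at h2
  have h3 : (1 + z * I) / (1 - z * I) ∈ slitPlane := by
    rcases h with h | h
    · rw [mem_slitPlane_iff]
      by_contra hcon
      push Not at hcon
      obtain ⟨h4, h5⟩ := hcon
      obtain ⟨r, hr⟩ : ∃ r : ℝ, (1 + z * I) / (1 - z * I) = r :=
        ⟨((1 + z * I) / (1 - z * I)).re, Complex.ext rfl (by simpa using h5)⟩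
      rw [div_eq_iff h1] at hr
      have h6 := congrArg Complex.re hr
      have h7 := congrArg Complex.im hr
      simp at h6 h7
      have h8 : z.re * (1 + r) = 0 := by linarith only [h7]
      have h9 : r = -1 := by
        rcases mul_eq_zero.1 h8 with h10 | h10
        · exact absurd h10 h
        · linarith only [h10]
      rw [h9] at h6
      linarith only [h6]
    · rw [h]
      simp
  unfold arctan
  refine continuousAt_const.mul (ContinuousAt.clog ?_ h3)
  exact (by fun_prop : ContinuousAt (fun z : ℂ => 1 + z * I) z).div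
    (by fun_prop : ContinuousAt (fun z : ℂ => 1 - z * I) z) h1

private theorem WinPath_Tj {v : ℂ} (h0 : |v.re| < 1 / 2) : ContinuousAt Tj v := by
  have h1 : cos (Real.pi * (v + 1 / 2) / 2) ≠ 0 := by
    intro h2
    have h3 := Tj_re_pos v h0
    unfold Tj at h3
    rw [Complex.tan_eq_sin_div_cos, h2, div_zero] at h3
    simp at h3
  unfold Tj
  exact ContinuousAt.comp (g := tan) (Complex.continuousAt_tan.2 h1) (by fun_prop)

private theorem WinPath_unif (ε : ℝ) (hε : 0 < ε) : ∃ δ : ℝ, 0 < δ ∧ ∀ v : ℂ,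
    |v.re| ≤ 31 / 100 → |v.im| < δ → ∀ t : ℝ, |t| ≤ 9 / 10 →
      ‖xt v t - xt (v.re : ℂ) t‖ < ε := by
  have hK : IsCompact ((Set.Icc (-(31 / 100) : ℝ) (31 / 100) ×ℂ Set.Icc (-1 : ℝ) 1) ×ˢ
      Set.Icc (-(9 / 10) : ℝ) (9 / 10)) :=
    (isCompact_Icc.reProdIm isCompact_Icc).prod isCompact_Icc
  have hc : ContinuousOn (fun p : ℂ × ℝ => xt p.1 p.2)
      ((Set.Icc (-(31 / 100) : ℝ) (31 / 100) ×ℂ Set.Icc (-1 : ℝ) 1) ×ˢ
      Set.Icc (-(9 / 10) : ℝ) (9 / 10)) := by
    rintro ⟨v, t⟩ ⟨⟨hv1, -⟩, -⟩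
    have hv : |v.re| < 1 / 2 := by
      have : |v.re| ≤ 31 / 100 := abs_le.2 hv1
      linarith only [this]
    refine ContinuousAt.continuousWithinAt ?_
    unfold xt
    refine ContinuousAt.div_const ?_ _
    have h1 : ContinuousAt arctan ((t : ℂ) * Tj v) := by
      apply WinPath_arctan
      by_cases ht : t = 0
      · right
        rw [ht]
        simp
      · left
        simp only [mul_re, ofReal_re, ofReal_im, zero_mul, sub_zero]
        exact mul_ne_zero ht (Tj_re_pos v hv).ne'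
    have h2 : ContinuousAt (fun p : ℂ × ℝ => Tj p.1) (v, t) :=
      ContinuousAt.comp_of_eq (g := Tj) (f := fun p : ℂ × ℝ => p.1) (WinPath_Tj hv)
        continuousAt_fst rfl
    have h3 : ContinuousAt (fun p : ℂ × ℝ => (p.2 : ℂ)) (v, t) :=
      Complex.continuous_ofReal.continuousAt.comp continuousAt_snd
    exact ContinuousAt.comp_of_eq (g := arctan) (f := fun p : ℂ × ℝ => (p.2 : ℂ) * Tj p.1) h1
      (h3.mul h2) rfl
  have hu := hK.uniformContinuousOn_of_continuous hc
  rw [Metric.uniformContinuousOn_iff] at hu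
  obtain ⟨δ, hδ, hu⟩ := hu ε hε
  refine ⟨min δ 1, lt_min hδ one_pos, fun v hv1 hv2 t ht => ?_⟩
  have h1 := hu (v, t) ⟨⟨abs_le.1 hv1, abs_le.1 (hv2.le.trans (min_le_right _ _))⟩, abs_le.1 ht⟩
    ((v.re : ℂ), t) ⟨⟨by simpa using abs_le.1 hv1, by simp⟩, abs_le.1 ht⟩ (by
      rw [Prod.dist_eq]
      refine max_lt ?_ (by simpa using hδ)
      have e : dist v (v.re : ℂ) = |v.im| := by
        rw [Complex.dist_eq]
        have : v - (v.re : ℂ) = (v.im : ℂ) * I := by
          apply Complex.ext <;> simp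
        rw [this]
        simp
      rw [e]
      exact hv2.trans_le (min_le_left _ _))
  rwa [dist_eq_norm] at h1

private theorem WinPath_exp (M : ℕ) (hM : 0 < M) (l m : ℂ) (h1 : 18 / 100 * (M : ℝ) ≤ l.re)
    (h2 : l.re ≤ 82 / 100 * (M : ℝ))
    (hx : (0 < m.re ∧ m.re ≤ 2 / 100 * (M : ℝ)) ∨
      (l.re - 2 / 100 * (M : ℝ) ≤ m.re ∧ m.re < l.re))
    (hi : |m.im| ≤ (M : ℝ) / 4000) (hil : |l.im| ≤ (M : ℝ) / 4000) :
    M * (Fr (l.re / M) - 2 * (ff (m / M)).re - 2 * (ff ((l - m) / M)).re) ≤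
      355 / 1000 * (M : ℝ) := by
  have hM0 : (0 : ℝ) < M := by exact_mod_cast hM
  have hp := Real.pi_pos
  have hp2 := Real.pi_lt_d4
  obtain ⟨j, hj⟩ : ∃ j, j = l.re / M := ⟨_, rfl⟩
  obtain ⟨x, hx'⟩ : ∃ x, x = m.re / M := ⟨_, rfl⟩
  obtain ⟨y, hy⟩ : ∃ y, y = m.im / M := ⟨_, rfl⟩
  obtain ⟨y', hy'⟩ : ∃ y', y' = (l.im - m.im) / M := ⟨_, rfl⟩
  have ej : l.re = j * M := by rw [hj]; field_simp
  have ex : m.re = x * M := by rw [hx']; field_simp
  have e1 : m / (M : ℂ) = (x : ℂ) + (y : ℂ) * I := by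
    apply Complex.ext
    · simp [hx', hy]
    · simp [hx', hy]
  have e2 : (l - m) / (M : ℂ) = ((j - x : ℝ) : ℂ) + (y' : ℂ) * I := by
    apply Complex.ext
    · simp [hx', hj, sub_div]
    · simp [hy', sub_div]
  have hj1 : 18 / 100 ≤ j := by rw [hj, le_div_iff₀ hM0]; linarith only [h1]
  have hj2 : j ≤ 82 / 100 := by rw [hj, div_le_iff₀ hM0]; linarith only [h2]
  have hya : |y| ≤ 1 / 4000 := by
    rw [hy, abs_div, abs_of_pos hM0, div_le_iff₀ hM0]
    linarith only [hi]
  have hyb : |y'| ≤ 2 / 4000 := by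
    rw [hy', abs_div, abs_of_pos hM0, div_le_iff₀ hM0]
    have := abs_sub (l.im) (m.im)
    linarith only [this, hil, hi]
  have hxx : 0 < x ∧ x < j ∧ Fr j - 2 * Fr x - 2 * Fr (j - x) ≤ 35 / 100 := by
    rcases hx with ⟨h3, h4⟩ | ⟨h3, h4⟩
    · have h5 : 0 < x := by rw [hx']; exact div_pos h3 hM0
      have h6 : x ≤ 2 / 100 := by rw [hx', div_le_iff₀ hM0]; linarith only [h4]
      exact ⟨h5, by linarith only [h6, h5, hj1], endE x j h5.le h6 hj1 hj2⟩
    · have h5 : j - 2 / 100 ≤ x := by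
        rw [hx', hj, sub_le_iff_le_add, div_le_iff₀ hM0, add_mul, div_mul_cancel₀ _ hM0.ne']
        linarith only [h3]
      have h6 : x < j := by
        rw [hx', hj]
        exact div_lt_div_of_pos_right h4 hM0
      refine ⟨by linarith only [h5, hj1], h6, ?_⟩
      have h7 := endE (j - x) j (by linarith only [h6]) (by linarith only [h5]) hj1 hj2
      rw [show j - (j - x) = x by ring] at h7
      linarith only [h7]
  obtain ⟨hx0, hxj, hE⟩ := hxx
  have hmax : ∀ u : ℝ, 0 < u → max (Real.pi / 2 - Real.pi * u) 0 ≤ Real.pi / 2 := by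
    intro u hu
    refine max_le ?_ (by positivity)
    have := mul_pos hp hu
    linarith only [this]
  have v1 := vert1 x y hx0 (by linarith only [hxj, hj2])
  have v2 := vert1 (j - x) y' (by linarith only [hxj]) (by linarith only [hx0, hj2])
  have m1 := mul_le_mul_of_nonneg_right (hmax x hx0) (abs_nonneg y)
  have m2 := mul_le_mul_of_nonneg_right (hmax (j - x) (by linarith only [hxj])) (abs_nonneg y')
  have m3 : Real.pi / 2 * |y| ≤ 1 / 2000 :=
    (mul_le_mul (by linarith only [hp2] : Real.pi / 2 ≤ 2) hya (abs_nonneg y) (by norm_num)).trans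
      (by norm_num)
  have m4 : Real.pi / 2 * |y'| ≤ 2 / 2000 :=
    (mul_le_mul (by linarith only [hp2] : Real.pi / 2 ≤ 2) hyb (abs_nonneg y') (by norm_num)).trans
      (by norm_num)
  rw [e1, e2, ← hj]
  have : Fr j - 2 * (ff ((x : ℂ) + (y : ℂ) * I)).re -
      2 * (ff (((j - x : ℝ) : ℂ) + (y' : ℂ) * I)).re ≤ 355 / 1000 := by linarith only [m4, m3, m2,
                                                                          m1, v2, v1, hE]
  rw [mul_comm (355 / 1000 : ℝ)]
  exact mul_le_mul_of_nonneg_left this hM0.le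

/-- The fundamental theorem of calculus along a path. -/
private theorem WinPath_ftc {F f : ℂ → ℂ} {s : Set ℂ} (hF : ∀ z ∈ s, HasDerivAt F (f z) z)
    (hf : ∀ z ∈ s, DifferentiableAt ℂ f z) {γ γ' : ℝ → ℂ} {a b : ℝ}
    (hγ : ∀ t ∈ Set.uIcc a b, HasDerivAt γ (γ' t) t) (hs : ∀ t ∈ Set.uIcc a b, γ t ∈ s)
    (hc : ContinuousOn γ' (Set.uIcc a b)) :
    ∫ t in a..b, γ' t * f (γ t) = F (γ b) - F (γ a) := by
  refine intervalIntegral.integral_eq_sub_of_hasDerivAt (f := fun t => F (γ t)) ?_ ?_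
  · intro t ht
    have h1 := ((hF (γ t) (hs t ht)).hasFDerivAt.restrictScalars ℝ).comp_hasDerivAt t (hγ t ht)
    have h2 : HasDerivAt (F ∘ γ) (γ' t * f (γ t)) t := by simpa using h1
    exact h2
  · refine ContinuousOn.intervalIntegrable (hc.mul ?_)
    intro t ht
    exact ((hf (γ t) (hs t ht)).continuousAt.comp_continuousWithinAt
      (f := γ) (hγ t ht).continuousAt.continuousWithinAt)

theorem win_path (n g : ℕ) (hg : 1 ≤ g) (hgn : g + 1 ≤ n) : ∃ C : ℝ, 0 < C ∧
    ∀ᶠ M : ℕ in atTop, ∀ l0 : ℕ, |vl n M l0| ≤ 3 / 10 → ∀ l : ℂ, ‖l - l0‖ ≤ 1 / 4 →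
      ‖(∫ x in ((mw M : ℝ) - 1 / 2)..((l0 : ℝ) - mw M + 1 / 2), fl n g M l x) -
        ZZ n g M ((l + bt n) / M - 1 / 2)‖ ≤ C * Real.exp (36 / 100 * M) := by
  obtain ⟨C, hC, hfl⟩ := fl_bound n g hg hgn
  obtain ⟨δ, hδ, hunif⟩ := WinPath_unif (1 / 5000) (by norm_num)
  refine ⟨C, hC, ?_⟩
  have hβ0 : 0 ≤ bt n := by
    unfold bt
    have : (1 : ℝ) ≤ n := by exact_mod_cast (by omega : 1 ≤ n)
    linarith only [this]
  filter_upwards [hfl, (tendsto_natCast_atTop_atTop (R := ℝ)).eventually_ge_atTop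
    (max (10000 * (bt n + 1)) (1 / δ + 1))] with M hM hMl
  intro l0 hl0 l hl
  have hMb : 10000 * (bt n + 1) ≤ (M : ℝ) := (le_max_left _ _).trans hMl
  have hMd : 1 / δ + 1 ≤ (M : ℝ) := (le_max_right _ _).trans hMl
  have hM0 : (0 : ℝ) < M := by linarith only [hMb, hβ0]
  have hMn : 0 < M := by exact_mod_cast hM0
  have hMc : (M : ℂ) ≠ 0 := by exact_mod_cast hM0.ne'
  obtain ⟨β, hβ⟩ : ∃ β, β = bt n := ⟨_, rfl⟩
  rw [← hβ] at hMb hβ0
  have hre : |l.re - l0| ≤ 1 / 4 := by
    have := Complex.abs_re_le_norm (l - l0)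
    simp at this
    linarith only [this, hl]
  have him : |l.im| ≤ 1 / 4 := by
    have := Complex.abs_im_le_norm (l - l0)
    simp at this
    linarith only [this, hl]
  obtain ⟨v, hv⟩ : ∃ v, v = (l + bt n) / M - 1 / 2 := ⟨_, rfl⟩
  rw [← hv]
  have hlv : lv n M v = l := by
    unfold lv
    rw [hv]
    field_simp
    ring
  have hvre : M * (v.re + 1 / 2) = l.re + β := by
    have h := congrArg Complex.re hlv
    unfold lv at h
    simp [← hβ] at h
    linarith only [h]
  have hvim : M * v.im = l.im := by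
    have h := congrArg Complex.im hlv
    unfold lv at h
    simpa [← hβ] using h
  have hl0' : |(l0 : ℝ) + β - M / 2| ≤ 3 / 10 * M := by
    unfold vl at hl0
    rw [← hβ] at hl0
    have e : (l0 : ℝ) + β - M / 2 = ((l0 + β) / M - 1 / 2) * M := by field_simp
    rw [e, abs_mul, abs_of_pos hM0]
    exact mul_le_mul_of_nonneg_right hl0 hM0.le
  obtain ⟨a1, a2⟩ := abs_le.1 hre
  obtain ⟨a3, a4⟩ := abs_le.1 him
  obtain ⟨a5, a6⟩ := abs_le.1 hl0'
  have hvr : |v.re| ≤ 31 / 100 := by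
    rw [mul_add] at hvre
    rw [abs_le]
    exact ⟨le_of_mul_le_mul_left (by linarith only [a5, a1, hvre, hMb, hβ0]) hM0, le_of_mul_le_mul_left (by linarith only [a6,
                                                                                                              a2,
                                                                                                              hvre,
                                                                                                              hMb,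
                                                                                                              hβ0]) hM0⟩
  have hvr' : |v.re| < 1 / 2 := by linarith only [hvr]
  have hvi : |v.im| < δ := by
    have h1 : M * |v.im| ≤ 1 / 4 := by
      rw [← abs_of_pos hM0, ← abs_mul, hvim]
      exact him
    have h2 : 1 ≤ M * δ := by
      have h3 : 1 / δ ≤ M := by linarith only [hMd]
      rwa [div_le_iff₀ hδ] at h3
    exact lt_of_mul_lt_mul_left (by linarith only [h2, h1]) hM0.le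
  obtain ⟨hT0, hr1, hr2⟩ := WinPath_real v.re hvr
  obtain ⟨T, hT⟩ : ∃ T, T = Real.tan (Real.pi * (v.re + 1 / 2) / 2) := ⟨_, rfl⟩
  rw [← hT] at hT0 hr1 hr2
  obtain ⟨ξ, hξ⟩ : ∃ ξ, ξ = Real.arctan (9 / 10 * T) / Real.pi := ⟨_, rfl⟩
  rw [← hξ] at hr1 hr2
  -- the path is close to the real axis
  have hxt : ∀ t : ℝ, |t| ≤ 9 / 10 → |(xt v t).re - Real.arctan (t * T) / Real.pi| ≤ 1 / 5000 ∧
      |(xt v t).im| ≤ 1 / 5000 := by
    intro t ht
    have h1 := hunif v hvr hvi t ht
    rw [WinPath_xt_real, ← hT] at h1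
    have h2 := Complex.abs_re_le_norm (xt v t - ((Real.arctan (t * T) / Real.pi : ℝ) : ℂ))
    have h3 := Complex.abs_im_le_norm (xt v t - ((Real.arctan (t * T) / Real.pi : ℝ) : ℂ))
    simp only [sub_re, ofReal_re, sub_im, ofReal_im, sub_zero] at h2 h3
    exact ⟨by linarith only [h2, h1], by linarith only [h3, h1]⟩
  have hmt : ∀ t : ℝ, mt n M v t = l / 2 + M * xt v t := by
    intro t
    unfold mt xt
    rw [hlv]
    ring
  have hmre : ∀ t : ℝ, (mt n M v t).re = l.re / 2 + M * (xt v t).re := by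
    intro t
    rw [hmt]
    simp
  have hmim : ∀ t : ℝ, (mt n M v t).im = l.im / 2 + M * (xt v t).im := by
    intro t
    rw [hmt]
    simp
  have hpi := Real.pi_pos
  have hr3 := mul_le_mul_of_nonneg_left hr1 hM0.le
  have hr4 := mul_le_mul_of_nonneg_left hr2 hM0.le
  have hat : ∀ t : ℝ, |t| ≤ 9 / 10 → -ξ ≤ Real.arctan (t * T) / Real.pi ∧
      Real.arctan (t * T) / Real.pi ≤ ξ := by
    intro t ht
    obtain ⟨t1, t2⟩ := abs_le.1 ht
    rw [hξ, ← neg_div, ← Real.arctan_neg]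
    have t3 := mul_le_mul_of_nonneg_right t1 hT0.le
    have t4 := mul_le_mul_of_nonneg_right t2 hT0.le
    constructor
    · exact div_le_div_of_nonneg_right (Real.arctan_mono (by linarith only [t3])) hpi.le
    · exact div_le_div_of_nonneg_right (Real.arctan_mono t4) hpi.le
  have hl1 : 18 / 100 * (M : ℝ) ≤ l.re := by linarith only [a5, a1, hMb, hβ0]
  have hl2 : l.re ≤ 82 / 100 * (M : ℝ) := by linarith only [a6, a2, hMb, hβ0]
  have hli : |l.im| ≤ 1 := by linarith only [him]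
  have hmim' : ∀ t : ℝ, |t| ≤ 9 / 10 → |(mt n M v t).im| < M / 4000 := by
    intro t ht
    obtain ⟨h1, h2⟩ := abs_le.1 (hxt t ht).2
    have h3 := mul_le_mul_of_nonneg_left h1 hM0.le
    have h4 := mul_le_mul_of_nonneg_left h2 hM0.le
    rw [hmim, abs_lt]
    constructor <;> linarith
  have hmre1 : ∀ t : ℝ, |t| ≤ 9 / 10 → 8 / 1000 * (M : ℝ) < (mt n M v t).re ∧
      (mt n M v t).re < l.re - 8 / 1000 * (M : ℝ) := by
    intro t ht
    obtain ⟨h1, h2⟩ := abs_le.1 (hxt t ht).1
    obtain ⟨h3, h4⟩ := hat t ht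
    have k1 := mul_le_mul_of_nonneg_left h1 hM0.le
    have k2 := mul_le_mul_of_nonneg_left h2 hM0.le
    have k3 := mul_le_mul_of_nonneg_left h3 hM0.le
    have k4 := mul_le_mul_of_nonneg_left h4 hM0.le
    rw [hmre]
    constructor <;> linarith
  -- the region
  obtain ⟨D, hD⟩ : ∃ D : Set ℂ, D = {m | 8 / 1000 * (M : ℝ) < m.re ∧
    m.re < l.re - 8 / 1000 * (M : ℝ) ∧ |m.im| < 2 * (M : ℝ)} := ⟨_, rfl⟩
  have hDc : Convex ℝ D := by
    have : D = {m : ℂ | 8 / 1000 * (M : ℝ) < m.re} ∩ ({m | m.re < l.re - 8 / 1000 * (M : ℝ)} ∩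
        ({m | -(2 * (M : ℝ)) < m.im} ∩ {m | m.im < 2 * (M : ℝ)})) := by
      rw [hD]
      ext m
      simp [abs_lt]
    rw [this]
    exact (convex_halfSpace_re_gt _).inter ((convex_halfSpace_re_lt _).inter
      ((convex_halfSpace_im_gt _).inter (convex_halfSpace_im_lt _)))
  have hDo : IsOpen D := by
    rw [hD]
    refine IsOpen.inter (isOpen_lt continuous_const Complex.continuous_re) (IsOpen.inter
      (isOpen_lt Complex.continuous_re continuous_const)
      (isOpen_lt (continuous_abs.comp Complex.continuous_im) continuous_const))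
  have hdif : ∀ m ∈ D, DifferentiableAt ℂ (fl n g M l) m := by
    intro m hm
    rw [hD] at hm
    exact (hM l m hl1 hl2 hli hm.1.le hm.2.1.le hm.2.2.le).1
  obtain ⟨F, hF⟩ := WinPath_prim hDc hDo _ hdif
  have hZ : ZZ n g M v = F (mt n M v (9 / 10)) - F (mt n M v (-(9 / 10))) := by
    unfold ZZ
    rw [hlv]
    refine WinPath_ftc hF hdif (γ := fun t => mt n M v t) ?_ ?_ ?_
    · intro t _
      have h1 := ((xt_deriv v hvr' t).const_mul (M : ℂ)).const_add (l / 2)
      have h2 : (fun t => mt n M v t) = fun t => l / 2 + M * xt v t := funext hmt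
      rw [h2, mul_div_assoc]
      exact h1
    · intro t ht
      rw [Set.uIcc_of_le (by norm_num)] at ht
      have ht' := abs_le.2 ht
      rw [hD]
      have h3 := hmre1 t ht'
      have h4 := hmim' t ht'
      exact ⟨h3.1, h3.2, by linarith only [h4, hMb, hβ0]⟩
    · intro t _
      refine ContinuousAt.continuousWithinAt ?_
      refine ContinuousAt.div (by fun_prop) (by fun_prop) ?_
      exact mul_ne_zero (by exact_mod_cast hpi.ne') (slitPlane_ne_zero (one_add_ne v hvr' t))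
  obtain ⟨a, ha⟩ : ∃ a, a = (mw M : ℝ) - 1 / 2 := ⟨_, rfl⟩
  obtain ⟨b, hb⟩ : ∃ b, b = (l0 : ℝ) - mw M + 1 / 2 := ⟨_, rfl⟩
  have hmw1 : 12 / 1000 * (M : ℝ) ≤ mw M := Nat.le_ceil _
  have hmw2 : (mw M : ℝ) < 12 / 1000 * M + 1 := Nat.ceil_lt_add_one (by positivity)
  have hR : (∫ x in a..b, fl n g M l x) = F b - F a := by
    have h1 := WinPath_ftc hF hdif (γ := fun t : ℝ => (t : ℂ)) (γ' := fun _ => 1) (a := a) (b := b)
      (fun t _ => by
        have h : HasDerivAt (fun t : ℝ => (t : ℂ)) (Complex.ofRealCLM 1) t :=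
          Complex.ofRealCLM.hasDerivAt
        rwa [Complex.ofRealCLM_apply, Complex.ofReal_one] at h) (by
        intro t ht
        rw [hD]
        rw [Set.uIcc_of_le (by linarith only [hmw2, hb, ha, a5, hMb, hβ0])] at ht
        obtain ⟨h3, h4⟩ := ht
        refine ⟨?_, ?_, ?_⟩
        · simp only [ofReal_re]
          linarith only [h3, hmw1, ha, hMb, hβ0]
        · simp only [ofReal_re]
          linarith only [h4, hmw1, hb, a1, hMb, hβ0]
        · simp only [ofReal_im, abs_zero]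
          positivity) continuousOn_const
    simpa using h1
  rw [← ha, ← hb, hR, hZ]
  obtain ⟨B, hB⟩ : ∃ B, B = C * Real.exp (355 / 1000 * M) := ⟨_, rfl⟩
  have hB0 : 0 < B := by rw [hB]; positivity
  -- the two ends
  have hend : ∀ (s : Set ℂ), Convex ℝ s → (∀ m ∈ s, m ∈ D ∧ |m.im| ≤ (M : ℝ) / 4000 ∧
      ((0 < m.re ∧ m.re ≤ 2 / 100 * (M : ℝ)) ∨
      (l.re - 2 / 100 * (M : ℝ) ≤ m.re ∧ m.re < l.re))) → ∀ x ∈ s, ∀ y ∈ s,
      ‖F y - F x‖ ≤ B * ‖y - x‖ := by
    intro s hs hsm x hx y hy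
    refine hs.norm_image_sub_le_of_norm_hasDerivWithin_le (f' := fl n g M l)
      (fun z hz => (hF z (hsm z hz).1).hasDerivWithinAt) ?_ hx hy
    intro m hm
    obtain ⟨h1, h2, h3⟩ := hsm m hm
    rw [hD] at h1
    refine (hM l m hl1 hl2 hli h1.1.le h1.2.1.le h1.2.2.le).2.trans ?_
    rw [hB]
    refine mul_le_mul_of_nonneg_left (Real.exp_le_exp.2 ?_) hC.le
    exact WinPath_exp M hMn l m hl1 hl2 h3 h2 (by linarith only [him, hMb, hβ0])
  have hn1 : ‖F a - F (mt n M v (-(9 / 10)))‖ ≤ B * (3 / 100 * M) := by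
    have h9 : |(-(9 / 10) : ℝ)| ≤ 9 / 10 := by rw [abs_neg, abs_of_pos (by norm_num)]
    have h1 := hmre1 (-(9 / 10)) h9
    have h2 := hmim' (-(9 / 10)) h9
    obtain ⟨h3, h4⟩ := abs_le.1 (hxt (-(9 / 10)) h9).1
    have h5 : (mt n M v (-(9 / 10))).re ≤ 19 / 1000 * M := by
      rw [hmre]
      have h6 : Real.arctan (-(9 / 10) * T) / Real.pi = -ξ := by
        rw [hξ, neg_mul, Real.arctan_neg, neg_div]
      rw [h6] at h3 h4
      have k2 := mul_le_mul_of_nonneg_left h4 hM0.le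
      linarith only [k2, hr4, hvre, hMb, hβ0]
    refine (hend {m : ℂ | (8 / 1000 * (M : ℝ) < m.re ∧ m.re ≤ 2 / 100 * (M : ℝ)) ∧
      (-((M : ℝ) / 4000) ≤ m.im ∧ m.im ≤ (M : ℝ) / 4000)} ?_ ?_ _ ?_ _ ?_).trans ?_
    · exact ((convex_halfSpace_re_gt _).inter (convex_halfSpace_re_le _)).inter
        ((convex_halfSpace_im_ge _).inter (convex_halfSpace_im_le _))
    · rintro m ⟨⟨h6, h7⟩, h8⟩
      have h10 := abs_le.2 h8
      refine ⟨?_, h10, Or.inl ⟨by linarith only [h6, hMb, hβ0], h7⟩⟩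
      rw [hD]
      exact ⟨h6, by linarith only [h7, a5, a1, hMb, hβ0], by linarith only [h10, hMb, hβ0]⟩
    · obtain ⟨h6, h7⟩ := abs_lt.1 h2
      exact ⟨⟨h1.1, by linarith only [h5, hMb, hβ0]⟩, h6.le, h7.le⟩
    · refine ⟨⟨?_, ?_⟩, ?_, ?_⟩
      · simp only [ofReal_re]
        linarith only [hmw1, ha, hMb, hβ0]
      · simp only [ofReal_re]
        linarith only [hmw2, ha, hMb, hβ0]
      · simp only [ofReal_im]
        linarith only [hMl]
      · simp only [ofReal_im]
        linarith only [hMl]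
    · refine mul_le_mul_of_nonneg_left ?_ hB0.le
      refine (Complex.norm_le_abs_re_add_abs_im _).trans ?_
      obtain ⟨h6, h7⟩ := abs_lt.1 h2
      have h8 : |((a : ℂ) - mt n M v (-(9 / 10))).re| ≤ 2 / 100 * M := by
        simp only [sub_re, ofReal_re]
        rw [abs_le]
        constructor <;> linarith
      have h10 : |((a : ℂ) - mt n M v (-(9 / 10))).im| ≤ 1 / 100 * M := by
        simp only [sub_im, ofReal_im]
        rw [abs_le]
        constructor <;> linarith
      linarith only [h10, h8]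
  have hn2 : ‖F b - F (mt n M v (9 / 10))‖ ≤ B * (3 / 100 * M) := by
    have h9 : |(9 / 10 : ℝ)| ≤ 9 / 10 := by rw [abs_of_pos (by norm_num)]
    have h1 := hmre1 (9 / 10) h9
    have h2 := hmim' (9 / 10) h9
    obtain ⟨h3, h4⟩ := abs_le.1 (hxt (9 / 10) h9).1
    have h5 : l.re - 19 / 1000 * M ≤ (mt n M v (9 / 10)).re := by
      rw [hmre]
      rw [← hξ] at h3 h4
      have k1 := mul_le_mul_of_nonneg_left h3 hM0.le
      linarith only [k1, hr4, hvre, hMb, hβ0]
    refine (hend {m : ℂ | (l.re - 2 / 100 * (M : ℝ) ≤ m.re ∧ m.re < l.re - 8 / 1000 * (M : ℝ)) ∧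
      (-((M : ℝ) / 4000) ≤ m.im ∧ m.im ≤ (M : ℝ) / 4000)} ?_ ?_ _ ?_ _ ?_).trans ?_
    · exact ((convex_halfSpace_re_ge _).inter (convex_halfSpace_re_lt _)).inter
        ((convex_halfSpace_im_ge _).inter (convex_halfSpace_im_le _))
    · rintro m ⟨⟨h6, h7⟩, h8⟩
      have h10 := abs_le.2 h8
      refine ⟨?_, h10, Or.inr ⟨h6, by linarith only [h7, hMb, hβ0]⟩⟩
      rw [hD]
      exact ⟨by linarith only [h6, a5, a1, hMb, hβ0], h7, by linarith only [h10, hMb, hβ0]⟩
    · obtain ⟨h6, h7⟩ := abs_lt.1 h2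
      exact ⟨⟨by linarith only [h5, hMb, hβ0], h1.2⟩, h6.le, h7.le⟩
    · refine ⟨⟨?_, ?_⟩, ?_, ?_⟩
      · simp only [ofReal_re]
        linarith only [hmw2, hb, a2, hMb, hβ0]
      · simp only [ofReal_re]
        linarith only [hmw1, hb, a1, hMb, hβ0]
      · simp only [ofReal_im]
        linarith only [hMl]
      · simp only [ofReal_im]
        linarith only [hMl]
    · refine mul_le_mul_of_nonneg_left ?_ hB0.le
      refine (Complex.norm_le_abs_re_add_abs_im _).trans ?_
      obtain ⟨h6, h7⟩ := abs_lt.1 h2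
      have h8 : |((b : ℂ) - mt n M v (9 / 10)).re| ≤ 2 / 100 * M := by
        simp only [sub_re, ofReal_re]
        rw [abs_le]
        constructor <;> linarith
      have h10 : |((b : ℂ) - mt n M v (9 / 10)).im| ≤ 1 / 100 * M := by
        simp only [sub_im, ofReal_im]
        rw [abs_le]
        constructor <;> linarith
      linarith only [h10, h8]
  have hfin : 6 / 100 * (M : ℝ) ≤ Real.exp (5 / 1000 * M) := by
    have h1 := Real.quadratic_le_exp_of_nonneg (x := 5 / 1000 * (M : ℝ)) (by positivity)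
    have h2 : 10000 * (M : ℝ) ≤ (M : ℝ) ^ 2 := by
      rw [pow_two]
      exact mul_le_mul_of_nonneg_right (by linarith only [hMb, hβ0]) hM0.le
    linarith only [h2, h1, hMb, hβ0]
  calc ‖F b - F a - (F (mt n M v (9 / 10)) - F (mt n M v (-(9 / 10))))‖
      = ‖(F b - F (mt n M v (9 / 10))) - (F a - F (mt n M v (-(9 / 10))))‖ := by
        congr 1
        ring
    _ ≤ B * (3 / 100 * M) + B * (3 / 100 * M) := (norm_sub_le _ _).trans (add_le_add hn2 hn1)
    _ = B * (6 / 100 * M) := by ring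
    _ ≤ B * Real.exp (5 / 1000 * M) := mul_le_mul_of_nonneg_left hfin hB0.le
    _ = C * Real.exp (36 / 100 * M) := by
        rw [hB, mul_assoc, ← Real.exp_add]
        congr 2
        ring

end Pool.Agent.H63.TW
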