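import Mathlib

/-! # Sums and integrals of holomorphic functions -/

namespace Pool.Agent.H63.TW

open Complex
open scoped BigOperators

/-- The exponential with period one. -/
noncomputable def SumInt_w (z : ℂ) : ℂ := Complex.exp (2 * Real.pi * I * z)

/-- The kernel `1 / (w - 1)`. -/
noncomputable def SumInt_q (z : ℂ) : ℂ := (SumInt_w z - 1)⁻¹

theorem SumInt_w_eq_one {z : ℂ} (h : SumInt_w z = 1) : ∃ n : ℤ, z = n := by
  unfold SumInt_w at h
  rw [Complex.exp_eq_one_iff] at h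
  obtain ⟨n, hn⟩ := h
  refine ⟨n, ?_⟩
  have h2 : (2 * Real.pi * I : ℂ) ≠ 0 := Complex.two_pi_I_ne_zero
  have : (2 * Real.pi * I : ℂ) * z = (2 * Real.pi * I : ℂ) * n := by rw [hn]; ring
  exact mul_left_cancel₀ h2 this

theorem SumInt_w_ne_of_re {z : ℂ} (h1 : -(1 / 2) ≤ z.re) (h2 : z.re ≤ 1 / 2) (h0 : z ≠ 0) :
    SumInt_w z ≠ 1 := by
  intro h
  obtain ⟨n, hn⟩ := SumInt_w_eq_one h
  apply h0
  have hre : z.re = n := by rw [hn]; simp
  have hn0 : n = 0 := by
    rw [hre] at h1 h2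
    have h3 : (-1 : ℝ) < n := by linarith
    have h4 : (n : ℝ) < 1 := by linarith
    have h5 : (-1 : ℤ) < n := by exact_mod_cast h3
    have h6 : n < 1 := by exact_mod_cast h4
    omega
  rw [hn, hn0]; simp

theorem SumInt_w_ne_of_im {z : ℂ} (h0 : z.im ≠ 0) : SumInt_w z ≠ 1 := by
  intro h
  obtain ⟨n, hn⟩ := SumInt_w_eq_one h
  apply h0
  rw [hn]; simp

theorem SumInt_w_add_int (z : ℂ) (m : ℤ) : SumInt_w (z + m) = SumInt_w z := by
  unfold SumInt_w
  rw [Complex.exp_eq_exp_iff_exists_int]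
  exact ⟨m, by ring⟩

theorem SumInt_w_diff (z : ℂ) : DifferentiableAt ℂ SumInt_w z := by
  unfold SumInt_w
  fun_prop

theorem SumInt_w_hasDeriv (z : ℂ) :
    HasDerivAt SumInt_w (2 * Real.pi * I * SumInt_w z) z := by
  unfold SumInt_w
  have h := ((hasDerivAt_id z).const_mul (2 * Real.pi * I : ℂ)).cexp
  simp only [id, mul_one] at h
  exact h.congr_deriv (mul_comm _ _)

theorem SumInt_norm_w (z : ℂ) : ‖SumInt_w z‖ = Real.exp (-(2 * Real.pi * z.im)) := by
  unfold SumInt_w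
  rw [Complex.norm_exp]
  congr 1
  simp [Complex.mul_re, Complex.mul_im]

theorem SumInt_q_cont {z : ℂ} (h : SumInt_w z ≠ 1) : ContinuousAt SumInt_q z := by
  unfold SumInt_q
  refine ContinuousAt.inv₀ ((SumInt_w_diff z).continuousAt.sub continuousAt_const) ?_
  exact sub_ne_zero.mpr h

theorem SumInt_q_diff {z : ℂ} (h : SumInt_w z ≠ 1) : DifferentiableAt ℂ SumInt_q z := by
  unfold SumInt_q
  exact ((SumInt_w_diff z).sub (differentiableAt_const _)).inv (sub_ne_zero.mpr h)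

theorem SumInt_q_add_int (z : ℂ) (m : ℤ) : SumInt_q (z + m) = SumInt_q z := by
  unfold SumInt_q
  rw [SumInt_w_add_int]

/-- The line `x + Y i`. -/
theorem SumInt_line_cont {f : ℂ → ℂ} {a b Y : ℝ} (h : ∀ x : ℝ, x ∈ Set.uIcc a b →
    ContinuousAt f (x + Y * I)) : ContinuousOn (fun x : ℝ => f (x + Y * I)) (Set.uIcc a b) := by
  intro x hx
  have h1 : ContinuousAt (fun x : ℝ => (x : ℂ) + Y * I) x := by fun_prop
  exact (ContinuousAt.comp (f := fun x : ℝ => (x : ℂ) + Y * I) (h x hx) h1).continuousWithinAt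

theorem SumInt_vert_cont {f : ℂ → ℂ} {a b X : ℝ} (h : ∀ y : ℝ, y ∈ Set.uIcc a b →
    ContinuousAt f (X + y * I)) : ContinuousOn (fun y : ℝ => f (X + y * I)) (Set.uIcc a b) := by
  intro y hy
  have h1 : ContinuousAt (fun y : ℝ => (X : ℂ) + y * I) y := by fun_prop
  exact (ContinuousAt.comp (f := fun y : ℝ => (X : ℂ) + y * I) (h y hy) h1).continuousWithinAt

theorem SumInt_alg1 {c W : ℂ} (hc : c ≠ 0) (h : W - 1 ≠ 0) :
    -(c * W) / (1 - W) / c - 1 = (W - 1)⁻¹ := by
  have h1 : 1 - W = -(W - 1) := by ring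
  rw [h1]
  field_simp
  ring

theorem SumInt_alg2 {c W : ℂ} (hc : c ≠ 0) (h0 : W ≠ 0) (h : W - 1 ≠ 0) :
    c * W⁻¹ / (1 - W⁻¹) / c = (W - 1)⁻¹ := by
  have h1 : 1 - W⁻¹ = (W - 1) / W := by field_simp
  rw [h1]
  field_simp

theorem SumInt_alg3 {c W : ℂ} (h0 : W ≠ 0) :
    -(-(c * W * 1) / W ^ 2) = c * W⁻¹ := by
  field_simp

theorem SumInt_q_top {Y : ℝ} (hY : 0 < Y) :
    ∫ x in (-(1 / 2) : ℝ)..(1 / 2), SumInt_q (x + Y * I) = -1 := by
  have h2 : (2 * Real.pi * I : ℂ) ≠ 0 := Complex.two_pi_I_ne_zero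
  have hlt : ∀ x : ℝ, ‖SumInt_w (x + Y * I)‖ < 1 := by
    intro x
    rw [SumInt_norm_w, Real.exp_lt_one_iff]
    have : ((x : ℂ) + Y * I).im = Y := by simp
    rw [this]
    have := Real.pi_pos
    have : 0 < 2 * Real.pi * Y := by positivity
    linarith
  have hne : ∀ x : ℝ, SumInt_w (x + Y * I) ≠ 1 := fun x h => by
    have := hlt x
    rw [h] at this; simp at this
  have hder : ∀ x ∈ Set.uIcc (-(1 / 2) : ℝ) (1 / 2),
      HasDerivAt (fun x : ℝ => Complex.log (1 - SumInt_w (x + Y * I)) / (2 * Real.pi * I) - x)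
        (SumInt_q (x + Y * I)) x := by
    intro x _
    have hl : HasDerivAt (fun x : ℝ => (x : ℂ) + Y * I) 1 x := by
      have := (Complex.ofRealCLM.hasDerivAt (x := x)).add_const ((Y : ℂ) * I)
      simpa using this
    have hw : HasDerivAt (fun x : ℝ => 1 - SumInt_w (x + Y * I))
        (-(2 * Real.pi * I * SumInt_w (x + Y * I))) x := by
      have := (HasDerivAt.comp (h₂ := SumInt_w) x (SumInt_w_hasDeriv _) hl).const_sub 1
      simpa using this
    have hs : 1 - SumInt_w (x + Y * I) ∈ Complex.slitPlane := by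
      left
      have := (Complex.abs_re_le_norm (SumInt_w (x + Y * I))).trans_lt (hlt x)
      rw [abs_lt] at this
      simp only [Complex.sub_re, Complex.one_re]
      linarith
    have hlog := (hw.clog_real hs).div_const (2 * Real.pi * I)
    have hx : HasDerivAt (fun x : ℝ => (x : ℂ)) 1 x := by
      have := (hasDerivAt_id x).ofReal_comp
      simpa using this
    refine (hlog.sub hx).congr_deriv ?_
    exact SumInt_alg1 h2 (sub_ne_zero.mpr (hne x))
  rw [intervalIntegral.integral_eq_sub_of_hasDerivAt hder]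
  · have : SumInt_w (((1 / 2 : ℝ) : ℂ) + Y * I) = SumInt_w (((-(1 / 2) : ℝ) : ℂ) + Y * I) := by
      rw [← SumInt_w_add_int (((-(1 / 2) : ℝ) : ℂ) + Y * I) 1]
      congr 1
      push_cast
      ring
    rw [this]
    push_cast
    ring
  · exact (SumInt_line_cont fun x _ => SumInt_q_cont (hne x)).intervalIntegrable

theorem SumInt_q_bottom {Y : ℝ} (hY : 0 < Y) :
    ∫ x in (-(1 / 2) : ℝ)..(1 / 2), SumInt_q (x - Y * I) = 0 := by
  have h2 : (2 * Real.pi * I : ℂ) ≠ 0 := Complex.two_pi_I_ne_zero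
  have hw0 : ∀ z : ℂ, SumInt_w z ≠ 0 := fun z => Complex.exp_ne_zero _
  have hlt : ∀ x : ℝ, ‖(SumInt_w (x - Y * I))⁻¹‖ < 1 := by
    intro x
    rw [norm_inv, SumInt_norm_w, ← Real.exp_neg, Real.exp_lt_one_iff]
    have : ((x : ℂ) - Y * I).im = -Y := by simp
    rw [this]
    have := Real.pi_pos
    have : 0 < 2 * Real.pi * Y := by positivity
    linarith
  have hne : ∀ x : ℝ, SumInt_w (x - Y * I) ≠ 1 := fun x h => by
    have := hlt x
    rw [h] at this; simp at this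
  have hder : ∀ x ∈ Set.uIcc (-(1 / 2) : ℝ) (1 / 2),
      HasDerivAt (fun x : ℝ => Complex.log (1 - (SumInt_w (x - Y * I))⁻¹) / (2 * Real.pi * I))
        (SumInt_q (x - Y * I)) x := by
    intro x _
    have hl : HasDerivAt (fun x : ℝ => (x : ℂ) - Y * I) 1 x := by
      have := (Complex.ofRealCLM.hasDerivAt (x := x)).sub_const ((Y : ℂ) * I)
      simpa using this
    have hw : HasDerivAt (fun x : ℝ => 1 - (SumInt_w (x - Y * I))⁻¹)
        (2 * Real.pi * I * (SumInt_w (x - Y * I))⁻¹) x := by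
      have h5 := (HasDerivAt.comp (h₂ := SumInt_w) x (SumInt_w_hasDeriv _) hl)
      exact ((h5.inv (hw0 _)).const_sub 1).congr_deriv (SumInt_alg3 (hw0 _))
    have hs : 1 - (SumInt_w (x - Y * I))⁻¹ ∈ Complex.slitPlane := by
      left
      have := (Complex.abs_re_le_norm ((SumInt_w (x - Y * I))⁻¹)).trans_lt (hlt x)
      rw [abs_lt] at this
      simp only [Complex.sub_re, Complex.one_re]
      linarith
    have hlog := (hw.clog_real hs).div_const (2 * Real.pi * I)
    refine hlog.congr_deriv ?_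
    exact SumInt_alg2 h2 (hw0 _) (sub_ne_zero.mpr (hne x))
  rw [intervalIntegral.integral_eq_sub_of_hasDerivAt hder]
  · have : SumInt_w (((1 / 2 : ℝ) : ℂ) - Y * I) = SumInt_w (((-(1 / 2) : ℝ) : ℂ) - Y * I) := by
      rw [← SumInt_w_add_int (((-(1 / 2) : ℝ) : ℂ) - Y * I) 1]
      congr 1
      push_cast
      ring
    rw [this]
    ring
  · have : (fun x : ℝ => SumInt_q (x - Y * I)) = fun x : ℝ => SumInt_q (x + (-Y : ℝ) * I) := by
      funext x
      congr 1
      push_cast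
      ring
    rw [this]
    refine (SumInt_line_cont fun x _ => SumInt_q_cont ?_).intervalIntegrable
    have := hne x
    convert this using 2
    push_cast
    ring

/-- The corrected kernel on the strip around `0`. -/
noncomputable def SumInt_P (f : ℂ → ℂ) (z : ℂ) : ℂ := dslope f 0 z / dslope SumInt_w 0 z

theorem SumInt_P_of_ne (f : ℂ → ℂ) {z : ℂ} (h0 : z ≠ 0) :
    SumInt_P f z = (f z - f 0) * SumInt_q z := by
  unfold SumInt_P SumInt_q
  have hw : SumInt_w 0 = 1 := by simp [SumInt_w]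
  rw [dslope_of_ne _ h0, dslope_of_ne _ h0, slope_def_field, slope_def_field, hw]
  simp only [sub_zero]
  rw [div_div_div_cancel_right₀ h0, div_eq_mul_inv]

theorem SumInt_dw_ne {z : ℂ} (h1 : -(1 / 2) ≤ z.re) (h2 : z.re ≤ 1 / 2) :
    dslope SumInt_w 0 z ≠ 0 := by
  have hw : SumInt_w 0 = 1 := by simp [SumInt_w]
  by_cases h0 : z = 0
  · subst h0
    rw [dslope_same, (SumInt_w_hasDeriv 0).deriv, hw, mul_one]
    exact Complex.two_pi_I_ne_zero
  · rw [dslope_of_ne _ h0, slope_def_field, hw]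
    refine div_ne_zero (sub_ne_zero.mpr (SumInt_w_ne_of_re h1 h2 h0)) ?_
    simpa using h0

theorem SumInt_P_cont {f : ℂ → ℂ} {z : ℂ} (h1 : -(1 / 2) ≤ z.re) (h2 : z.re ≤ 1 / 2)
    (hf : DifferentiableAt ℂ f z) : ContinuousAt (SumInt_P f) z := by
  unfold SumInt_P
  refine ContinuousAt.div ?_ ?_ (SumInt_dw_ne h1 h2)
  · by_cases h0 : z = 0
    · subst h0
      exact continuousAt_dslope_same.mpr hf
    · exact (continuousAt_dslope_of_ne h0).mpr hf.continuousAt
  · by_cases h0 : z = 0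
    · subst h0
      exact continuousAt_dslope_same.mpr (SumInt_w_diff 0)
    · exact (continuousAt_dslope_of_ne h0).mpr (SumInt_w_diff z).continuousAt

theorem SumInt_P_diff {f : ℂ → ℂ} {z : ℂ} (h1 : -(1 / 2) ≤ z.re) (h2 : z.re ≤ 1 / 2)
    (h0 : z ≠ 0) (hf : DifferentiableAt ℂ f z) : DifferentiableAt ℂ (SumInt_P f) z := by
  unfold SumInt_P
  refine DifferentiableAt.div ?_ ?_ (SumInt_dw_ne h1 h2)
  · exact (differentiableAt_dslope_of_ne h0).mpr hf
  · exact (differentiableAt_dslope_of_ne h0).mpr (SumInt_w_diff z)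

/-- The vertical part of the boundary term. -/
noncomputable def SumInt_V (f : ℂ → ℂ) (Y X : ℝ) : ℂ :=
  (∫ y in (0 : ℝ)..Y, (1 + SumInt_q (X + y * I)) * f (X + y * I)) +
    ∫ y in (-Y)..(0 : ℝ), SumInt_q (X + y * I) * f (X + y * I)

theorem SumInt_q_shift (y : ℝ) : SumInt_q (((1 / 2 : ℝ) : ℂ) + y * I) =
    SumInt_q (((-(1 / 2) : ℝ) : ℂ) + y * I) := by
  rw [← SumInt_q_add_int (((-(1 / 2) : ℝ) : ℂ) + y * I) 1]
  congr 1
  push_cast
  ring

theorem SumInt_rectP (f : ℂ → ℂ) (Y : ℝ) (hY : 0 < Y)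
    (hf : ∀ z : ℂ, -(1 / 2) ≤ z.re → z.re ≤ 1 / 2 → |z.im| ≤ Y → DifferentiableAt ℂ f z) :
    (∫ x in (-(1 / 2) : ℝ)..(1 / 2), SumInt_P f (x - Y * I)) -
      (∫ x in (-(1 / 2) : ℝ)..(1 / 2), SumInt_P f (x + Y * I)) +
      I * (∫ y in (-Y)..Y, SumInt_P f (((1 / 2 : ℝ) : ℂ) + y * I)) -
      I * (∫ y in (-Y)..Y, SumInt_P f (((-(1 / 2) : ℝ) : ℂ) + y * I)) = 0 := by
  have h := Complex.integral_boundary_rect_eq_zero_of_differentiable_on_off_countable
    (SumInt_P f) (⟨-(1 / 2), -Y⟩ : ℂ) (⟨1 / 2, Y⟩ : ℂ) {0} (Set.countable_singleton 0) ?_ ?_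
  · simp only [smul_eq_mul] at h
    have e : ∀ x : ℝ, (x : ℂ) - Y * I = x + ((-Y : ℝ) : ℂ) * I := by
      intro x; push_cast; ring
    simp only [e]
    exact h
  · intro z hz
    rw [Complex.mem_reProdIm] at hz
    have h1 : z.re ∈ Set.uIcc (-(1 / 2) : ℝ) (1 / 2) := hz.1
    have h2 : z.im ∈ Set.uIcc (-Y) Y := hz.2
    rw [Set.uIcc_of_le (by norm_num), Set.mem_Icc] at h1
    rw [Set.uIcc_of_le (by linarith), Set.mem_Icc] at h2
    exact (SumInt_P_cont h1.1 h1.2 (hf z h1.1 h1.2 (abs_le.mpr h2))).continuousWithinAt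
  · intro z hz
    have hz1 := hz.1
    have hz0 : z ≠ 0 := by simpa using hz.2
    rw [Complex.mem_reProdIm] at hz1
    have h1 : z.re ∈ Set.Ioo (min (-(1 / 2) : ℝ) (1 / 2)) (max (-(1 / 2) : ℝ) (1 / 2)) := hz1.1
    have h2 : z.im ∈ Set.Ioo (min (-Y) Y) (max (-Y) Y) := hz1.2
    rw [min_eq_left (by norm_num), max_eq_right (by norm_num), Set.mem_Ioo] at h1
    rw [min_eq_left (by linarith), max_eq_right (by linarith), Set.mem_Ioo] at h2
    exact SumInt_P_diff h1.1.le h1.2.le hz0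
      (hf z h1.1.le h1.2.le (abs_le.mpr ⟨h2.1.le, h2.2.le⟩))

theorem SumInt_rectf (f : ℂ → ℂ) (Y : ℝ) (hY : 0 < Y)
    (hf : ∀ z : ℂ, -(1 / 2) ≤ z.re → z.re ≤ 1 / 2 → |z.im| ≤ Y → DifferentiableAt ℂ f z) :
    (∫ x in (-(1 / 2) : ℝ)..(1 / 2), f x) -
      (∫ x in (-(1 / 2) : ℝ)..(1 / 2), f (x + Y * I)) +
      I * (∫ y in (0 : ℝ)..Y, f (((1 / 2 : ℝ) : ℂ) + y * I)) -
      I * (∫ y in (0 : ℝ)..Y, f (((-(1 / 2) : ℝ) : ℂ) + y * I)) = 0 := by
  have h := Complex.integral_boundary_rect_eq_zero_of_differentiable_on_off_countable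
    f (⟨-(1 / 2), 0⟩ : ℂ) (⟨1 / 2, Y⟩ : ℂ) ∅ Set.countable_empty ?_ ?_
  · simp only [smul_eq_mul] at h
    have e : ∀ x : ℝ, (x : ℂ) = x + ((0 : ℝ) : ℂ) * I := by
      intro x; push_cast; ring
    have e2 : (∫ x in (-(1 / 2) : ℝ)..(1 / 2), f x) =
        ∫ x in (-(1 / 2) : ℝ)..(1 / 2), f (x + ((0 : ℝ) : ℂ) * I) :=
      intervalIntegral.integral_congr fun x _ => congrArg f (e x)
    rw [e2]
    exact h
  · intro z hz
    rw [Complex.mem_reProdIm] at hz
    have h1 : z.re ∈ Set.uIcc (-(1 / 2) : ℝ) (1 / 2) := hz.1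
    have h2 : z.im ∈ Set.uIcc 0 Y := hz.2
    rw [Set.uIcc_of_le (by norm_num), Set.mem_Icc] at h1
    rw [Set.uIcc_of_le (by linarith), Set.mem_Icc] at h2
    exact (hf z h1.1 h1.2 (abs_le.mpr ⟨by linarith [h2.1], h2.2⟩)).continuousAt.continuousWithinAt
  · intro z hz
    have hz1 := hz.1
    rw [Complex.mem_reProdIm] at hz1
    have h1 : z.re ∈ Set.Ioo (min (-(1 / 2) : ℝ) (1 / 2)) (max (-(1 / 2) : ℝ) (1 / 2)) := hz1.1
    have h2 : z.im ∈ Set.Ioo (min 0 Y) (max 0 Y) := hz1.2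
    rw [min_eq_left (by norm_num), max_eq_right (by norm_num), Set.mem_Ioo] at h1
    rw [min_eq_left (by linarith), max_eq_right (by linarith), Set.mem_Ioo] at h2
    exact hf z h1.1.le h1.2.le (abs_le.mpr ⟨by linarith [h2.1], h2.2.le⟩)

theorem SumInt_strip0 (f : ℂ → ℂ) (Y : ℝ) (hY : 0 < Y)
    (hf : ∀ z : ℂ, -(1 / 2) ≤ z.re → z.re ≤ 1 / 2 → |z.im| ≤ Y → DifferentiableAt ℂ f z) :
    f 0 - ∫ x in (-(1 / 2) : ℝ)..(1 / 2), f x =
      (∫ x in (-(1 / 2) : ℝ)..(1 / 2), SumInt_q (x - Y * I) * f (x - Y * I)) -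
      (∫ x in (-(1 / 2) : ℝ)..(1 / 2), (1 + SumInt_q (x + Y * I)) * f (x + Y * I)) +
      I * (SumInt_V f Y (1 / 2) - SumInt_V f Y (-(1 / 2))) := by
  have hP := SumInt_rectP f Y hY hf
  have hF := SumInt_rectf f Y hY hf
  -- continuity of all the functions on the four sides
  have hYabs : |Y| = Y := abs_of_pos hY
  have hmem : ∀ x : ℝ, x ∈ Set.uIcc (-(1 / 2) : ℝ) (1 / 2) → -(1 / 2) ≤ x ∧ x ≤ 1 / 2 := by
    intro x hx
    rw [Set.uIcc_of_le (by norm_num), Set.mem_Icc] at hx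
    exact hx
  have cft : ContinuousOn (fun x : ℝ => f (x + Y * I)) (Set.uIcc (-(1 / 2) : ℝ) (1 / 2)) := by
    refine SumInt_line_cont fun x hx => ?_
    obtain ⟨a, b⟩ := hmem x hx
    exact (hf _ (by simpa using a) (by simpa using b) (by simp [hYabs])).continuousAt
  have cqt : ContinuousOn (fun x : ℝ => SumInt_q (x + Y * I))
      (Set.uIcc (-(1 / 2) : ℝ) (1 / 2)) := by
    refine SumInt_line_cont fun x hx => SumInt_q_cont (SumInt_w_ne_of_im ?_)
    simp [hY.ne']
  have e1 : ∀ x : ℝ, (x : ℂ) - Y * I = x + (-Y : ℝ) * I := by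
    intro x; push_cast; ring
  have cfb : ContinuousOn (fun x : ℝ => f (x - Y * I)) (Set.uIcc (-(1 / 2) : ℝ) (1 / 2)) := by
    simp only [e1]
    refine SumInt_line_cont fun x hx => ?_
    obtain ⟨a, b⟩ := hmem x hx
    exact (hf _ (by simpa using a) (by simpa using b) (by simp [hYabs])).continuousAt
  have cqb : ContinuousOn (fun x : ℝ => SumInt_q (x - Y * I))
      (Set.uIcc (-(1 / 2) : ℝ) (1 / 2)) := by
    simp only [e1]
    refine SumInt_line_cont fun x hx => SumInt_q_cont (SumInt_w_ne_of_im ?_)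
    simp [hY.ne']
  -- the vertical sides
  have hv : ∀ (X : ℝ), (X = 1 / 2 ∨ X = -(1 / 2)) → ∀ (c d : ℝ), -Y ≤ c → c ≤ d → d ≤ Y →
      ContinuousOn (fun y : ℝ => f (X + y * I)) (Set.uIcc c d) ∧
      ContinuousOn (fun y : ℝ => SumInt_q (X + y * I)) (Set.uIcc c d) ∧
      ContinuousOn (fun y : ℝ => SumInt_P f (X + y * I)) (Set.uIcc c d) := by
    intro X hX c d hc hcd hd
    have hX1 : -(1 / 2) ≤ X ∧ X ≤ 1 / 2 := by rcases hX with h | h <;> rw [h] <;> norm_num
    have hX0 : X ≠ 0 := by rcases hX with h | h <;> rw [h] <;> norm_num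
    have hz : ∀ y : ℝ, y ∈ Set.uIcc c d → DifferentiableAt ℂ f (X + y * I) := by
      intro y hy
      rw [Set.uIcc_of_le hcd, Set.mem_Icc] at hy
      refine hf _ (by simpa using hX1.1) (by simpa using hX1.2) ?_
      have : ((X : ℂ) + y * I).im = y := by simp
      rw [this, abs_le]
      exact ⟨by linarith [hy.1], by linarith [hy.2]⟩
    refine ⟨SumInt_vert_cont fun y hy => (hz y hy).continuousAt,
      SumInt_vert_cont fun y hy => SumInt_q_cont (SumInt_w_ne_of_re (by simpa using hX1.1)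
        (by simpa using hX1.2) ?_), SumInt_vert_cont fun y hy =>
        SumInt_P_cont (by simpa using hX1.1) (by simpa using hX1.2) (hz y hy)⟩
    intro h
    apply hX0
    have := congrArg Complex.re h
    simpa using this
  have nz : ∀ (X : ℝ), (X = 1 / 2 ∨ X = -(1 / 2)) → ∀ y : ℝ, (X : ℂ) + y * I ≠ 0 := by
    intro X hX y h
    have hX0 : X ≠ 0 := by rcases hX with h | h <;> rw [h] <;> norm_num
    apply hX0
    have := congrArg Complex.re h
    simpa using this
  -- top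
  have ht : (∫ x in (-(1 / 2) : ℝ)..(1 / 2), SumInt_P f (x + Y * I)) =
      (∫ x in (-(1 / 2) : ℝ)..(1 / 2), (1 + SumInt_q (x + Y * I)) * f (x + Y * I)) -
      (∫ x in (-(1 / 2) : ℝ)..(1 / 2), f (x + Y * I)) + f 0 := by
    have h1 : ∀ x ∈ Set.uIcc (-(1 / 2) : ℝ) (1 / 2), SumInt_P f (x + Y * I) =
        ((1 + SumInt_q (x + Y * I)) * f (x + Y * I) - f (x + Y * I)) -
          f 0 * SumInt_q (x + Y * I) := by
      intro x _
      rw [SumInt_P_of_ne]
      · ring
      · intro h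
        have := congrArg Complex.im h
        simp [hY.ne'] at this
    rw [intervalIntegral.integral_congr h1, intervalIntegral.integral_sub,
      intervalIntegral.integral_sub, intervalIntegral.integral_const_mul, SumInt_q_top hY]
    · ring
    · exact ((continuousOn_const.add cqt).mul cft).intervalIntegrable
    · exact cft.intervalIntegrable
    · exact (((continuousOn_const.add cqt).mul cft).sub cft).intervalIntegrable
    · exact (continuousOn_const.mul cqt).intervalIntegrable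
  -- bottom
  have hb : (∫ x in (-(1 / 2) : ℝ)..(1 / 2), SumInt_P f (x - Y * I)) =
      (∫ x in (-(1 / 2) : ℝ)..(1 / 2), SumInt_q (x - Y * I) * f (x - Y * I)) := by
    have h1 : ∀ x ∈ Set.uIcc (-(1 / 2) : ℝ) (1 / 2), SumInt_P f (x - Y * I) =
        SumInt_q (x - Y * I) * f (x - Y * I) - f 0 * SumInt_q (x - Y * I) := by
      intro x _
      rw [SumInt_P_of_ne]
      · ring
      · intro h
        have := congrArg Complex.im h
        simp [hY.ne'] at this
    rw [intervalIntegral.integral_congr h1, intervalIntegral.integral_sub,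
      intervalIntegral.integral_const_mul, SumInt_q_bottom hY]
    · ring
    · exact (cqb.mul cfb).intervalIntegrable
    · exact (continuousOn_const.mul cqb).intervalIntegrable
  -- the vertical sides, split at 0
  have hsplit : ∀ X : ℝ, (X = 1 / 2 ∨ X = -(1 / 2)) →
      (∫ y in (-Y)..Y, SumInt_P f (X + y * I)) =
      SumInt_V f Y X - (∫ y in (0 : ℝ)..Y, f (X + y * I)) -
        f 0 * (∫ y in (-Y)..Y, SumInt_q (X + y * I)) := by
    intro X hX
    obtain ⟨a1, a2, a3⟩ := hv X hX (-Y) 0 le_rfl (by linarith) hY.le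
    obtain ⟨b1, b2, b3⟩ := hv X hX 0 Y (by linarith) hY.le le_rfl
    have h1 : ∀ y ∈ Set.uIcc (-Y) 0, SumInt_P f (X + y * I) =
        SumInt_q (X + y * I) * f (X + y * I) - f 0 * SumInt_q (X + y * I) := by
      intro y _
      rw [SumInt_P_of_ne f (nz X hX y)]
      ring
    have h2 : ∀ y ∈ Set.uIcc 0 Y, SumInt_P f (X + y * I) =
        ((1 + SumInt_q (X + y * I)) * f (X + y * I) - f (X + y * I)) -
          f 0 * SumInt_q (X + y * I) := by
      intro y _
      rw [SumInt_P_of_ne f (nz X hX y)]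
      ring
    rw [← intervalIntegral.integral_add_adjacent_intervals a3.intervalIntegrable
      b3.intervalIntegrable, ← intervalIntegral.integral_add_adjacent_intervals
      (f := fun y : ℝ => SumInt_q (X + y * I)) a2.intervalIntegrable b2.intervalIntegrable,
      intervalIntegral.integral_congr h1, intervalIntegral.integral_congr h2,
      intervalIntegral.integral_sub, intervalIntegral.integral_sub,
      intervalIntegral.integral_sub, intervalIntegral.integral_const_mul,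
      intervalIntegral.integral_const_mul]
    · unfold SumInt_V
      ring
    · exact ((continuousOn_const.add b2).mul b1).intervalIntegrable
    · exact b1.intervalIntegrable
    · exact (((continuousOn_const.add b2).mul b1).sub b1).intervalIntegrable
    · exact (continuousOn_const.mul b2).intervalIntegrable
    · exact (a2.mul a1).intervalIntegrable
    · exact (continuousOn_const.mul a2).intervalIntegrable
  have hq : (∫ y in (-Y)..Y, SumInt_q (((1 / 2 : ℝ) : ℂ) + y * I)) =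
      ∫ y in (-Y)..Y, SumInt_q (((-(1 / 2) : ℝ) : ℂ) + y * I) :=
    intervalIntegral.integral_congr fun y _ => SumInt_q_shift y
  rw [ht, hb, hsplit (1 / 2) (Or.inl rfl), hsplit (-(1 / 2)) (Or.inr rfl), hq] at hP
  linear_combination -hF - hP

theorem SumInt_shift (F : ℂ → ℂ) (m : ℤ) :
    ∫ x in (-(1 / 2) : ℝ)..(1 / 2), F ((x : ℂ) + m) =
      ∫ x in ((m : ℝ) - 1 / 2)..((m : ℝ) + 1 / 2), F x := by
  have h := intervalIntegral.integral_comp_add_right (a := (-(1 / 2) : ℝ)) (b := 1 / 2)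
    (fun x : ℝ => F x) (m : ℝ)
  have e1 : (-(1 / 2) : ℝ) + m = (m : ℝ) - 1 / 2 := by ring
  have e2 : (1 / 2 : ℝ) + m = (m : ℝ) + 1 / 2 := by ring
  rw [e1, e2] at h
  rw [← h]
  exact intervalIntegral.integral_congr fun x _ => congrArg F (by push_cast; ring)

theorem SumInt_V_shift (f : ℂ → ℂ) (m : ℤ) (Y X : ℝ) :
    SumInt_V (fun z => f (z + m)) Y X = SumInt_V f Y ((m : ℝ) + X) := by
  unfold SumInt_V
  have e : ∀ y : ℝ, (((m : ℝ) + X : ℝ) : ℂ) + y * I = ((X : ℂ) + y * I) + m := by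
    intro y; push_cast; ring
  simp only [e, SumInt_q_add_int]

theorem SumInt_strip (f : ℂ → ℂ) (m : ℤ) (Y : ℝ) (hY : 0 < Y)
    (hf : ∀ z : ℂ, (m : ℝ) - 1 / 2 ≤ z.re → z.re ≤ (m : ℝ) + 1 / 2 → |z.im| ≤ Y →
      DifferentiableAt ℂ f z) :
    f m - ∫ x in ((m : ℝ) - 1 / 2)..((m : ℝ) + 1 / 2), f x =
      (∫ x in ((m : ℝ) - 1 / 2)..((m : ℝ) + 1 / 2), SumInt_q (x - Y * I) * f (x - Y * I)) -
      (∫ x in ((m : ℝ) - 1 / 2)..((m : ℝ) + 1 / 2),
        (1 + SumInt_q (x + Y * I)) * f (x + Y * I)) +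
      I * (SumInt_V f Y ((m : ℝ) + 1 / 2) - SumInt_V f Y ((m : ℝ) - 1 / 2)) := by
  have h := SumInt_strip0 (fun z => f (z + m)) Y hY ?_
  · simp only [zero_add] at h
    rw [SumInt_shift f m, SumInt_V_shift, SumInt_V_shift] at h
    have hb := SumInt_shift (fun z => SumInt_q (z - Y * I) * f (z - Y * I)) m
    have ht := SumInt_shift (fun z => (1 + SumInt_q (z + Y * I)) * f (z + Y * I)) m
    have e1 : ∀ x : ℝ, (x : ℂ) + m - Y * I = (x - Y * I) + m := by intro x; ring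
    have e2 : ∀ x : ℝ, (x : ℂ) + m + Y * I = (x + Y * I) + m := by intro x; ring
    simp only [e1, SumInt_q_add_int] at hb
    simp only [e2, SumInt_q_add_int] at ht
    rw [hb, ht] at h
    rw [h]
    have e3 : (m : ℝ) + -(1 / 2) = (m : ℝ) - 1 / 2 := by ring
    rw [e3]
  · intro z h1 h2 h3
    have hd : DifferentiableAt ℂ f (z + m) := by
      apply hf
      · simp only [Complex.add_re, Complex.intCast_re]; linarith
      · simp only [Complex.add_re, Complex.intCast_re]; linarith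
      · simpa using h3
    exact hd.comp z (f := fun z : ℂ => z + (m : ℂ)) (by fun_prop)

theorem SumInt_all (f : ℂ → ℂ) (a : ℤ) (Y : ℝ) (hY : 0 < Y) (b : ℤ) (hab : a ≤ b)
    (hf : ∀ z : ℂ, (a : ℝ) - 1 / 2 ≤ z.re → z.re ≤ (b : ℝ) + 1 / 2 → |z.im| ≤ Y →
      DifferentiableAt ℂ f z) :
    (∑ m ∈ Finset.Icc a b, f m) - ∫ x in ((a : ℝ) - 1 / 2)..((b : ℝ) + 1 / 2), f x =
      (∫ x in ((a : ℝ) - 1 / 2)..((b : ℝ) + 1 / 2), SumInt_q (x - Y * I) * f (x - Y * I)) -
      (∫ x in ((a : ℝ) - 1 / 2)..((b : ℝ) + 1 / 2),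
        (1 + SumInt_q (x + Y * I)) * f (x + Y * I)) +
      I * (SumInt_V f Y ((b : ℝ) + 1 / 2) - SumInt_V f Y ((a : ℝ) - 1 / 2)) := by
  induction b, hab using Int.leInduction with
  | base =>
    rw [Finset.Icc_self, Finset.sum_singleton]
    exact SumInt_strip f a Y hY hf
  | succ b hb ih =>
    have ihb := ih fun z h1 h2 h3 => hf z h1 (by push_cast; linarith) h3
    have hs := SumInt_strip f (b + 1) Y hY fun z h1 h2 h3 => hf z (by
      have : (a : ℝ) ≤ b := by exact_mod_cast hb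
      push_cast at h1
      linarith) h2 h3
    have e : (((b + 1 : ℤ) : ℝ)) - 1 / 2 = (b : ℝ) + 1 / 2 := by push_cast; ring
    rw [e] at hs
    have hins : Finset.Icc a (b + 1) = insert (b + 1) (Finset.Icc a b) := by
      ext x; simp only [Finset.mem_Icc, Finset.mem_insert]; omega
    rw [hins, Finset.sum_insert (by simp)]
    have hab' : (a : ℝ) ≤ b := by exact_mod_cast hb
    have hYabs : |Y| = Y := abs_of_pos hY
    -- integrability on the two pieces
    have key : ∀ c d : ℝ, (a : ℝ) - 1 / 2 ≤ c → c ≤ d → d ≤ ((b + 1 : ℤ) : ℝ) + 1 / 2 →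
        IntervalIntegrable (fun x : ℝ => f x) MeasureTheory.volume c d ∧
        IntervalIntegrable (fun x : ℝ => SumInt_q (x - Y * I) * f (x - Y * I))
          MeasureTheory.volume c d ∧
        IntervalIntegrable (fun x : ℝ => (1 + SumInt_q (x + Y * I)) * f (x + Y * I))
          MeasureTheory.volume c d := by
      intro c d hc hcd hd
      have hm : ∀ x : ℝ, x ∈ Set.uIcc c d → (a : ℝ) - 1 / 2 ≤ x ∧ x ≤ ((b + 1 : ℤ) : ℝ) + 1 / 2 := by
        intro x hx
        rw [Set.uIcc_of_le hcd, Set.mem_Icc] at hx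
        exact ⟨by linarith [hx.1], by linarith [hx.2]⟩
      have l : ∀ η : ℝ, |η| ≤ Y → ContinuousOn (fun x : ℝ => f (x + η * I)) (Set.uIcc c d) := by
        intro η hη
        refine SumInt_line_cont fun x hx => ?_
        obtain ⟨p1, p2⟩ := hm x hx
        exact (hf _ (by simpa using p1) (by simpa using p2) (by simpa using hη)).continuousAt
      have lq : ∀ η : ℝ, η ≠ 0 → ContinuousOn (fun x : ℝ => SumInt_q (x + η * I))
          (Set.uIcc c d) := by
        intro η hη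
        exact SumInt_line_cont fun x hx => SumInt_q_cont (SumInt_w_ne_of_im (by simpa using hη))
      have e1 : ∀ x : ℝ, (x : ℂ) - Y * I = x + ((-Y : ℝ) : ℂ) * I := by
        intro x; push_cast; ring
      refine ⟨?_, ?_, ?_⟩
      · have := l 0 (by simpa using hY.le)
        simp only [Complex.ofReal_zero, zero_mul, add_zero] at this
        exact this.intervalIntegrable
      · simp only [e1]
        exact ((lq (-Y) (by linarith)).mul (l (-Y) (by simp [hYabs]))).intervalIntegrable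
      · exact ((continuousOn_const.add (lq Y hY.ne')).mul (l Y hYabs.le)).intervalIntegrable
    obtain ⟨i1, i2, i3⟩ := key ((a : ℝ) - 1 / 2) ((b : ℝ) + 1 / 2) le_rfl (by linarith)
      (by push_cast; linarith)
    obtain ⟨j1, j2, j3⟩ := key ((b : ℝ) + 1 / 2) (((b + 1 : ℤ) : ℝ) + 1 / 2) (by linarith)
      (by push_cast; linarith) le_rfl
    rw [← intervalIntegral.integral_add_adjacent_intervals i1 j1,
      ← intervalIntegral.integral_add_adjacent_intervals i2 j2,
      ← intervalIntegral.integral_add_adjacent_intervals i3 j3]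
    linear_combination ihb + hs

theorem SumInt_norm_vert {z : ℂ} {n : ℤ} (hz : z.re = n + 1 / 2) :
    SumInt_w z = -(Real.exp (-(2 * Real.pi * z.im)) : ℂ) := by
  have hz2 : z = (((1 / 2 : ℝ) : ℂ) + z.im * I) + n := by
    apply Complex.ext
    · simp [hz]; ring
    · simp
  rw [hz2, SumInt_w_add_int]
  unfold SumInt_w
  have e : (2 * Real.pi * I * (((1 / 2 : ℝ) : ℂ) + z.im * I) : ℂ) =
      Real.pi * I + (-(2 * Real.pi * z.im) : ℝ) := by
    push_cast
    linear_combination (2 * Real.pi * z.im : ℂ) * Complex.I_sq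
  rw [e, Complex.exp_add, Complex.exp_pi_mul_I, ← Complex.ofReal_exp]
  simp

theorem SumInt_vert_up {z : ℂ} {n : ℤ} (hz : z.re = n + 1 / 2) :
    ‖1 + SumInt_q z‖ ≤ Real.exp (-(2 * Real.pi * z.im)) := by
  have hE : 0 < Real.exp (-(2 * Real.pi * z.im)) := Real.exp_pos _
  have h : 1 + SumInt_q z = ((Real.exp (-(2 * Real.pi * z.im)) /
      (1 + Real.exp (-(2 * Real.pi * z.im))) : ℝ) : ℂ) := by
    unfold SumInt_q
    rw [SumInt_norm_vert hz]
    generalize Real.exp (-(2 * Real.pi * z.im)) = E at hE ⊢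
    have h1 : (1 + (E : ℂ)) ≠ 0 := by
      exact_mod_cast (by linarith : (1 + E : ℝ) ≠ 0)
    have h2 : (-(E : ℂ) - 1) ≠ 0 := by
      intro h; apply h1; linear_combination -h
    push_cast
    rw [show (-(E : ℂ) - 1) = -(1 + (E : ℂ)) by ring]
    field_simp
    ring
  rw [h, Complex.norm_real, Real.norm_of_nonneg (by positivity)]
  rw [div_le_iff₀ (by positivity)]
  nlinarith

theorem SumInt_vert_down {z : ℂ} {n : ℤ} (hz : z.re = n + 1 / 2) :
    ‖SumInt_q z‖ ≤ Real.exp (2 * Real.pi * z.im) := by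
  have hE : 0 < Real.exp (-(2 * Real.pi * z.im)) := Real.exp_pos _
  have h : SumInt_q z = ((-(1 / (1 + Real.exp (-(2 * Real.pi * z.im)))) : ℝ) : ℂ) := by
    unfold SumInt_q
    rw [SumInt_norm_vert hz]
    push_cast
    rw [show (-(Complex.exp (-(2 * Real.pi * z.im))) - 1 : ℂ) =
      -(1 + Complex.exp (-(2 * Real.pi * z.im))) by ring, inv_neg, one_div]
  have h2 : Real.exp (2 * Real.pi * z.im) = (Real.exp (-(2 * Real.pi * z.im)))⁻¹ := by
    rw [← Real.exp_neg, neg_neg]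
  rw [h, Complex.norm_real, norm_neg, Real.norm_of_nonneg (by positivity), h2, one_div]
  exact inv_anti₀ hE (by linarith)

theorem SumInt_exp_big {Y : ℝ} (hY : 1 ≤ Y) : 2 ≤ Real.exp (2 * Real.pi * Y) := by
  have h1 := Real.add_one_le_exp (2 * Real.pi * Y)
  have h2 := Real.pi_gt_three
  nlinarith

theorem SumInt_top_bound {Y : ℝ} (hY : 1 ≤ Y) (x : ℝ) :
    ‖1 + SumInt_q (x + Y * I)‖ ≤ 2 * Real.exp (-(2 * Real.pi * Y)) := by
  have hw := SumInt_norm_w (x + Y * I)
  have him : ((x : ℂ) + Y * I).im = Y := by simp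
  rw [him] at hw
  have hb := SumInt_exp_big hY
  have hr : Real.exp (-(2 * Real.pi * Y)) ≤ 1 / 2 := by
    rw [Real.exp_neg, one_div]
    exact inv_anti₀ (by norm_num) hb
  have hpos := Real.exp_pos (-(2 * Real.pi * Y))
  have hne : SumInt_w (x + Y * I) - 1 ≠ 0 := by
    apply sub_ne_zero.mpr
    apply SumInt_w_ne_of_im
    rw [him]; linarith
  have h : 1 + SumInt_q (x + Y * I) = SumInt_w (x + Y * I) / (SumInt_w (x + Y * I) - 1) := by
    unfold SumInt_q
    field_simp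
    ring
  have hlow : 1 / 2 ≤ ‖SumInt_w (x + Y * I) - 1‖ := by
    have := norm_sub_norm_le (1 : ℂ) (SumInt_w (x + Y * I))
    rw [norm_one, hw, norm_sub_rev] at this
    linarith
  rw [h, norm_div, hw, div_le_iff₀ (by linarith)]
  nlinarith

theorem SumInt_bottom_bound {Y : ℝ} (hY : 1 ≤ Y) (x : ℝ) :
    ‖SumInt_q (x - Y * I)‖ ≤ 2 * Real.exp (-(2 * Real.pi * Y)) := by
  have hw := SumInt_norm_w (x - Y * I)
  have him : ((x : ℂ) - Y * I).im = -Y := by simp
  rw [him] at hw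
  have hw' : ‖SumInt_w (x - Y * I)‖ = Real.exp (2 * Real.pi * Y) := by
    rw [hw]; congr 1; ring
  have hb := SumInt_exp_big hY
  have hlow : Real.exp (2 * Real.pi * Y) / 2 ≤ ‖SumInt_w (x - Y * I) - 1‖ := by
    have := norm_sub_norm_le (SumInt_w (x - Y * I)) (1 : ℂ)
    rw [norm_one, hw'] at this
    linarith
  unfold SumInt_q
  rw [norm_inv, Real.exp_neg]
  have : 2 * (Real.exp (2 * Real.pi * Y))⁻¹ = (Real.exp (2 * Real.pi * Y) / 2)⁻¹ := by
    rw [inv_div, div_eq_mul_inv]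
  rw [this]
  exact inv_anti₀ (by positivity) hlow

/-- The bound of the vertical part. -/
theorem SumInt_V_bound (f : ℂ → ℂ) (Y S : ℝ) (hY : 1 ≤ Y) (n : ℤ) (X : ℝ)
    (hX : X = n + 1 / 2)
    (h1 : ∀ y : ℝ, |y| ≤ Y → ‖f ((X : ℂ) + y * I)‖ ≤ S * Real.exp (2 * Real.pi * |y|)) :
    ‖SumInt_V f Y X‖ ≤ 2 * (Y * S) := by
  unfold SumInt_V
  have hre : ∀ y : ℝ, ((X : ℂ) + y * I).re = n + 1 / 2 := by intro y; simp [hX]
  have him : ∀ y : ℝ, ((X : ℂ) + y * I).im = y := by intro y; simp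
  have b1 : ‖∫ y in (0 : ℝ)..Y, (1 + SumInt_q (X + y * I)) * f (X + y * I)‖ ≤ S * |Y - 0| := by
    refine intervalIntegral.norm_integral_le_of_norm_le_const fun y hy => ?_
    rw [Set.uIoc_of_le (by linarith), Set.mem_Ioc] at hy
    have hya : |y| = y := abs_of_pos hy.1
    have hu := SumInt_vert_up (hre y)
    have hv := h1 y (by rw [hya]; exact hy.2)
    rw [him] at hu
    rw [hya] at hv
    rw [norm_mul]
    calc ‖1 + SumInt_q (X + y * I)‖ * ‖f (X + y * I)‖ ≤
        Real.exp (-(2 * Real.pi * y)) * (S * Real.exp (2 * Real.pi * y)) :=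
          mul_le_mul hu hv (norm_nonneg _) (Real.exp_pos _).le
      _ = S * (Real.exp (-(2 * Real.pi * y)) * Real.exp (2 * Real.pi * y)) := by ring
      _ = S := by rw [← Real.exp_add]; simp
  have b2 : ‖∫ y in (-Y)..(0 : ℝ), SumInt_q (X + y * I) * f (X + y * I)‖ ≤ S * |0 - (-Y)| := by
    refine intervalIntegral.norm_integral_le_of_norm_le_const fun y hy => ?_
    rw [Set.uIoc_of_le (by linarith), Set.mem_Ioc] at hy
    have hya : |y| = -y := abs_of_nonpos hy.2
    have hu := SumInt_vert_down (hre y)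
    have hv := h1 y (by rw [hya]; linarith [hy.1])
    rw [him] at hu
    rw [hya] at hv
    rw [norm_mul]
    calc ‖SumInt_q (X + y * I)‖ * ‖f (X + y * I)‖ ≤
        Real.exp (2 * Real.pi * y) * (S * Real.exp (2 * Real.pi * -y)) :=
          mul_le_mul hu hv (norm_nonneg _) (Real.exp_pos _).le
      _ = S * (Real.exp (2 * Real.pi * y) * Real.exp (2 * Real.pi * -y)) := by ring
      _ = S := by rw [← Real.exp_add]; simp
  have hYabs : |Y| = Y := abs_of_pos (by linarith)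
  simp only [sub_zero, zero_sub, neg_neg, hYabs] at b1 b2
  calc _ ≤ _ := norm_add_le _ _
    _ ≤ S * Y + S * Y := add_le_add b1 b2
    _ = 2 * (Y * S) := by ring

/-- The residue theorem for `f (z) cot (π z)` on the rectangle over `[a - 1/2, b + 1/2]`. -/
theorem sum_int (f : ℂ → ℂ) (a b : ℤ) (hab : a ≤ b) (Y S : ℝ) (hY : 1 ≤ Y)
    (hf : ∀ z : ℂ, (a : ℝ) - 1 / 2 ≤ z.re → z.re ≤ (b : ℝ) + 1 / 2 → |z.im| ≤ Y →
      DifferentiableAt ℂ f z)
    (h1 : ∀ y : ℝ, |y| ≤ Y → ‖f (((a : ℝ) - 1 / 2 : ℝ) + y * I)‖ ≤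
      S * Real.exp (2 * Real.pi * |y|))
    (h2 : ∀ y : ℝ, |y| ≤ Y → ‖f (((b : ℝ) + 1 / 2 : ℝ) + y * I)‖ ≤
      S * Real.exp (2 * Real.pi * |y|))
    (h3 : ∀ x : ℝ, (a : ℝ) - 1 / 2 ≤ x → x ≤ (b : ℝ) + 1 / 2 →
      ‖f (x + Y * I)‖ ≤ S * Real.exp (2 * Real.pi * Y) ∧
      ‖f (x - Y * I)‖ ≤ S * Real.exp (2 * Real.pi * Y)) :
    ‖(∑ m ∈ Finset.Icc a b, f m) - ∫ x in ((a : ℝ) - 1 / 2)..((b : ℝ) + 1 / 2), f x‖ ≤
      10 * ((b : ℝ) - a + 1 + Y) * S := by
  have hab' : (a : ℝ) ≤ b := by exact_mod_cast hab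
  have hS : 0 ≤ S := by
    have h := (norm_nonneg _).trans (h1 0 (by simp; linarith))
    simpa using h
  rw [SumInt_all f a Y (by linarith) b hab hf]
  have hVa := SumInt_V_bound f Y S hY (a - 1) ((a : ℝ) - 1 / 2) (by push_cast; ring) h1
  have hVb := SumInt_V_bound f Y S hY b ((b : ℝ) + 1 / 2) rfl h2
  have hexp : ∀ t : ℝ, 2 * Real.exp (-t) * (S * Real.exp t) = 2 * S := by
    intro t
    calc 2 * Real.exp (-t) * (S * Real.exp t) = 2 * S * (Real.exp (-t) * Real.exp t) := by ring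
      _ = 2 * S := by rw [← Real.exp_add]; simp
  have bt : ‖∫ x in ((a : ℝ) - 1 / 2)..((b : ℝ) + 1 / 2),
      (1 + SumInt_q (x + Y * I)) * f (x + Y * I)‖ ≤
      2 * S * |((b : ℝ) + 1 / 2) - ((a : ℝ) - 1 / 2)| := by
    refine intervalIntegral.norm_integral_le_of_norm_le_const fun x hx => ?_
    rw [Set.uIoc_of_le (by linarith), Set.mem_Ioc] at hx
    rw [norm_mul, ← hexp (2 * Real.pi * Y)]
    exact mul_le_mul (SumInt_top_bound hY x) (h3 x hx.1.le hx.2).1 (norm_nonneg _)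
      (by positivity)
  have bb : ‖∫ x in ((a : ℝ) - 1 / 2)..((b : ℝ) + 1 / 2),
      SumInt_q (x - Y * I) * f (x - Y * I)‖ ≤
      2 * S * |((b : ℝ) + 1 / 2) - ((a : ℝ) - 1 / 2)| := by
    refine intervalIntegral.norm_integral_le_of_norm_le_const fun x hx => ?_
    rw [Set.uIoc_of_le (by linarith), Set.mem_Ioc] at hx
    rw [norm_mul, ← hexp (2 * Real.pi * Y)]
    exact mul_le_mul (SumInt_bottom_bound hY x) (h3 x hx.1.le hx.2).2 (norm_nonneg _)
      (by positivity)
  rw [abs_of_nonneg (by linarith)] at bt bb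
  have bI : ‖I * (SumInt_V f Y ((b : ℝ) + 1 / 2) - SumInt_V f Y ((a : ℝ) - 1 / 2))‖ ≤
      2 * (Y * S) + 2 * (Y * S) := by
    rw [norm_mul, Complex.norm_I, one_mul]
    exact (norm_sub_le _ _).trans (add_le_add hVb hVa)
  refine (norm_add_le _ _).trans ((add_le_add ((norm_sub_le _ _).trans (add_le_add bb bt))
    bI).trans ?_)
  have hYS : 0 ≤ Y * S := by positivity
  have hbS : 0 ≤ ((b : ℝ) - a) * S := mul_nonneg (by linarith) hS
  nlinarith

end Pool.Agent.H63.TW
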