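import Pool.Agent.H63.TW.FlBd
import Pool.Agent.H63.TW.SumInt
import Pool.Agent.H63.TW.Vert

/-! # The sum over the window and the integral -/

namespace Pool.Agent.H63.TW

open Pool.Agent.H63.VC Pool.Agent.H63.VC3 Complex Filter Topology
open scoped BigOperators

private lemma WinSum_fr56 : Fr (5 / 6) ≤ 24 / 100 := by
  have hd : ∀ x ∈ Set.Ioo (1 / 2 : ℝ) (5 / 6),
      HasDerivAt Fr (Real.log (2 * Real.sin (Real.pi * x))) x := by
    intro x hx
    exact Fr_hasDerivAt x (by linarith [hx.1]) (by linarith [hx.2])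
  obtain ⟨c, hc, hce⟩ := exists_hasDerivAt_eq_slope Fr
    (fun x => Real.log (2 * Real.sin (Real.pi * x))) (by norm_num : (1 / 2 : ℝ) < 5 / 6)
    Fr_continuous.continuousOn hd
  rw [Fr_half] at hce
  have hc0 : 0 < Real.sin (Real.pi * c) := by
    apply Real.sin_pos_of_pos_of_lt_pi
    · exact mul_pos Real.pi_pos (by linarith [hc.1])
    · nlinarith [Real.pi_pos, hc.2]
  have h1 : Real.log (2 * Real.sin (Real.pi * c)) ≤ Real.log 2 := by
    apply Real.log_le_log (by positivity)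
    linarith [Real.sin_le_one (Real.pi * c)]
  have h2 := Real.log_two_lt_d9
  have h3 : Fr (5 / 6) = Real.log (2 * Real.sin (Real.pi * c)) * (1 / 3) := by
    rw [hce]; field_simp; ring
  rw [h3]
  nlinarith

private lemma WinSum_sum (f : ℂ → ℂ) (a b : ℕ) :
    ∑ m ∈ Finset.Icc (a : ℤ) (b : ℤ), f m = ∑ m ∈ Finset.Icc a b, f m := by
  symm
  apply Finset.sum_nbij' (fun m : ℕ => (m : ℤ)) (fun m : ℤ => m.toNat)
  · intro m hm
    simp only [Finset.mem_Icc] at hm ⊢
    omega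
  · intro m hm
    simp only [Finset.mem_Icc] at hm ⊢
    omega
  · intro m _
    simp
  · intro m hm
    simp only [Finset.mem_Icc] at hm
    simp only [Int.toNat_of_nonneg (show 0 ≤ m by omega)]
  · intro m _
    simp

private lemma WinSum_AB (x j : ℝ) (h2 : 18 / 100 ≤ j) :
    max (Real.pi / 2 - Real.pi * x) 0 + max (Real.pi / 2 - Real.pi * (j - x)) 0 ≤
      82 / 100 * Real.pi ∨ x < 0 ∨ j < x := by
  by_cases hx : x < 0
  · exact Or.inr (Or.inl hx)
  by_cases hj : j < x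
  · exact Or.inr (Or.inr hj)
  left
  have hp := Real.pi_pos
  push Not at hx hj
  have e1 : 0 ≤ Real.pi * x := by positivity
  have e2 : 0 ≤ Real.pi * (j - x) := mul_nonneg hp.le (by linarith)
  have e3 : 18 / 100 * Real.pi ≤ Real.pi * j := by nlinarith
  rcases max_cases (Real.pi / 2 - Real.pi * x) 0 with h | h <;>
    rcases max_cases (Real.pi / 2 - Real.pi * (j - x)) 0 with h' | h' <;>
    rw [h.1, h'.1] <;> nlinarith

/-- The exponent on a complex point. -/
private lemma WinSum_exp (M x j y η : ℝ) (hM : 0 < M) (h0 : 0 < x) (h1 : x < j)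
    (hj : 18 / 100 ≤ j) (hj1 : j < 1) (hη : |η| ≤ 1 / 4) :
    M * (Fr j - 2 * (ff ((x : ℝ) + (y / M : ℝ) * I)).re -
      2 * (ff (((j - x : ℝ) : ℂ) + ((η - y) / M : ℝ) * I)).re) ≤
    M * (Fr j - 2 * Fr x - 2 * Fr (j - x)) + 164 / 100 * Real.pi * |y| + 1 := by
  have v1 := vert1 x (y / M) h0 (by linarith)
  have v2 := vert1 (j - x) ((η - y) / M) (by linarith) (by linarith)
  have hp := Real.pi_pos
  have hp4 := Real.pi_lt_four
  have hAB := (WinSum_AB x j hj).resolve_right (by push Not; exact ⟨h0.le, h1.le⟩)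
  set A := max (Real.pi / 2 - Real.pi * x) 0 with hA
  set B := max (Real.pi / 2 - Real.pi * (j - x)) 0 with hB
  have hA0 : 0 ≤ A := le_max_right _ _
  have hB0 : 0 ≤ B := le_max_right _ _
  have hB1 : B ≤ Real.pi / 2 := by
    apply max_le _ (by positivity)
    nlinarith
  have e1 : |y / M| = |y| / M := by rw [abs_div, abs_of_pos hM]
  have e2 : |(η - y) / M| ≤ (|y| + 1 / 4) / M := by
    rw [abs_div, abs_of_pos hM]
    apply div_le_div_of_nonneg_right _ hM.le
    calc |η - y| ≤ |η| + |y| := abs_sub _ _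
      _ ≤ |y| + 1 / 4 := by linarith
  have e3 : -(ff ((x : ℝ) + (y / M : ℝ) * I)).re ≤ -Fr x + A * (|y| / M) := by
    rw [← e1]; exact v1
  have e4 : -(ff (((j - x : ℝ) : ℂ) + ((η - y) / M : ℝ) * I)).re ≤
      -Fr (j - x) + B * ((|y| + 1 / 4) / M) :=
    v2.trans (by have := mul_le_mul_of_nonneg_left e2 hB0; linarith)
  have e5 : M * (Fr j - 2 * (ff ((x : ℝ) + (y / M : ℝ) * I)).re -
      2 * (ff (((j - x : ℝ) : ℂ) + ((η - y) / M : ℝ) * I)).re) ≤
      M * (Fr j - 2 * Fr x - 2 * Fr (j - x) + 2 * (A * (|y| / M)) +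
        2 * (B * ((|y| + 1 / 4) / M))) := by
    apply mul_le_mul_of_nonneg_left _ hM.le
    linarith
  refine e5.trans ?_
  have e6 : M * (Fr j - 2 * Fr x - 2 * Fr (j - x) + 2 * (A * (|y| / M)) +
        2 * (B * ((|y| + 1 / 4) / M))) =
      M * (Fr j - 2 * Fr x - 2 * Fr (j - x)) + 2 * (A + B) * |y| + B / 2 := by
    field_simp
    ring
  rw [e6]
  have e7 : 2 * (A + B) * |y| ≤ 164 / 100 * Real.pi * |y| := by
    apply mul_le_mul_of_nonneg_right _ (abs_nonneg y)
    linarith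
  linarith

private lemma WinSum_norm (n g : ℕ) (C : ℝ) (M : ℕ) (hM : 0 < (M : ℝ)) (l : ℂ)
    (hC : 0 < C)
    (H : ∀ m : ℂ, 8 / 1000 * (M : ℝ) ≤ m.re → m.re ≤ l.re - 8 / 1000 * (M : ℝ) →
      |m.im| ≤ 2 * (M : ℝ) →
      DifferentiableAt ℂ (fl n g M l) m ∧
      ‖fl n g M l m‖ ≤ C * Real.exp (M * (Fr (l.re / M) - 2 * (ff (m / M)).re -
        2 * (ff ((l - m) / M)).re)))
    (hl : 18 / 100 * (M : ℝ) ≤ l.re) (hl' : l.re ≤ 82 / 100 * (M : ℝ)) (hη : |l.im| ≤ 1 / 4)
    (ξ y : ℝ) (h0 : 8 / 1000 * (M : ℝ) ≤ ξ) (h1 : ξ ≤ l.re - 8 / 1000 * (M : ℝ))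
    (hy : |y| ≤ M) :
    ‖fl n g M l (ξ + y * I)‖ ≤ C * Real.exp (M * (Fr (l.re / M) - 2 * Fr (ξ / M) -
      2 * Fr (l.re / M - ξ / M)) + 164 / 100 * Real.pi * |y| + 1) := by
  have hm := (H (ξ + y * I) (by simpa using h0) (by simpa using h1)
    (by simp; linarith)).2
  refine hm.trans (mul_le_mul_of_nonneg_left (Real.exp_le_exp.2 ?_) hC.le)
  have hMc : (M : ℂ) ≠ 0 := by exact_mod_cast hM.ne'
  have hx0 : 0 < ξ / M := div_pos (by nlinarith) hM
  have hx1 : ξ / M < l.re / M := div_lt_div_of_pos_right (by nlinarith) hM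
  have hj : 18 / 100 ≤ l.re / M := by rw [le_div_iff₀ hM]; exact hl
  have hj1 : l.re / M < 1 := by rw [div_lt_one hM]; nlinarith
  have key := WinSum_exp M (ξ / M) (l.re / M) y l.im hM hx0 hx1 hj hj1 hη
  have e1 : ((ξ : ℂ) + y * I) / M = ((ξ / M : ℝ) : ℂ) + ((y / M : ℝ) : ℂ) * I := by
    push_cast; field_simp
  have e2 : (l - ((ξ : ℂ) + y * I)) / M =
      (((l.re / M - ξ / M : ℝ)) : ℂ) + (((l.im - y) / M : ℝ) : ℂ) * I := by
    conv_lhs => rw [← Complex.re_add_im l]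
    push_cast; field_simp; ring
  rw [e1, e2]
  exact key

theorem win_sum (n g : ℕ) (hg : 1 ≤ g) (hgn : g + 1 ≤ n) : ∃ C : ℝ, 0 < C ∧
    ∀ᶠ M : ℕ in atTop, ∀ l0 : ℕ, |vl n M l0| ≤ 3 / 10 → ∀ l : ℂ, ‖l - l0‖ ≤ 1 / 4 →
      ‖(∑ m ∈ Finset.Icc (mw M) (l0 - mw M), fl n g M l m) -
        ∫ x in ((mw M : ℝ) - 1 / 2)..((l0 : ℝ) - mw M + 1 / 2), fl n g M l x‖ ≤
      C * Real.exp (36 / 100 * M) := by
  obtain ⟨C, hC, hev⟩ := fl_bound n g hg hgn
  refine ⟨6000 * C * Real.exp 1, by positivity, ?_⟩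
  have hbt : 0 ≤ bt n := by
    unfold bt
    have : (1 : ℝ) ≤ n := by exact_mod_cast (by omega : 1 ≤ n)
    linarith
  filter_upwards [hev, eventually_ge_atTop 1000,
    eventually_ge_atTop (⌈bt n * 200⌉₊ + 1)] with M hM hM1 hM2 l0 hv l hl
  have hMr : (1000 : ℝ) ≤ M := by exact_mod_cast hM1
  have hM0 : (0 : ℝ) < M := by linarith
  have hMb : bt n * 200 ≤ M := by
    have h1 := Nat.le_ceil (bt n * 200)
    have h2 : ((⌈bt n * 200⌉₊ + 1 : ℕ) : ℝ) ≤ M := by exact_mod_cast hM2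
    push_cast at h2
    linarith
  -- the position of `l0`
  have hv1 := abs_le.1 hv
  unfold vl at hv1
  have hv2 : 2 / 10 ≤ ((l0 : ℝ) + bt n) / M := by linarith [hv1.1]
  have hv3 : ((l0 : ℝ) + bt n) / M ≤ 8 / 10 := by linarith [hv1.2]
  rw [le_div_iff₀ hM0] at hv2
  rw [div_le_iff₀ hM0] at hv3
  have hl0a : 195 / 1000 * (M : ℝ) ≤ l0 := by linarith
  have hl0b : (l0 : ℝ) ≤ 8 / 10 * M := by linarith
  -- the window
  have hw1 : 12 / 1000 * (M : ℝ) ≤ mw M := Nat.le_ceil _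
  have hw2 : (mw M : ℝ) ≤ 12 / 1000 * M + 1 := by
    have := Nat.ceil_lt_add_one (show (0 : ℝ) ≤ 12 / 1000 * M by positivity)
    exact this.le
  have hre : |l.re - l0| ≤ 1 / 4 := by
    have := Complex.abs_re_le_norm (l - l0)
    simp only [Complex.sub_re, Complex.natCast_re] at this
    linarith
  have him : |l.im| ≤ 1 / 4 := by
    have := Complex.abs_im_le_norm (l - l0)
    simp only [Complex.sub_im, Complex.natCast_im, sub_zero] at this
    linarith
  have hre' := abs_le.1 hre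
  have hlre : 18 / 100 * (M : ℝ) ≤ l.re := by linarith [hre'.1]
  have hlre' : l.re ≤ 82 / 100 * (M : ℝ) := by linarith [hre'.2]
  have hle : mw M ≤ l0 := by
    have : (mw M : ℝ) ≤ l0 := by linarith
    exact_mod_cast this
  have hcast : ((l0 - mw M : ℕ) : ℝ) = (l0 : ℝ) - mw M := by
    rw [Nat.cast_sub hle]
  have hab : mw M ≤ l0 - mw M := by
    have : (mw M : ℝ) ≤ ((l0 - mw M : ℕ) : ℝ) := by rw [hcast]; linarith
    exact_mod_cast this
  have H := fun m => hM l m hlre hlre' (by linarith)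
  have hnorm := WinSum_norm n g C M hM0 l hC H hlre hlre' him
  have hp := Real.pi_pos
  have hp3 := Real.pi_gt_three
  have hp314 := Real.pi_gt_d2
  -- the two ends of the real interval
  have hend : ∀ x j : ℝ, 0 ≤ x → x ≤ 2 / 100 → 18 / 100 ≤ j → j ≤ 82 / 100 →
      Fr j - 2 * Fr x - 2 * Fr (j - x) ≤ 35 / 100 := endE
  have hj1 : 18 / 100 ≤ l.re / M := by rw [le_div_iff₀ hM0]; exact hlre
  have hj2 : l.re / M ≤ 82 / 100 := by rw [div_le_iff₀ hM0]; exact hlre'
  have hS : ∀ y E : ℝ, E ≤ 35 / 100 → C * Real.exp (M * E + 164 / 100 * Real.pi * |y| + 1) ≤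
      C * Real.exp (1 + 355 / 1000 * M) * Real.exp (2 * Real.pi * |y|) := by
    intro y E hE
    rw [mul_assoc C, ← Real.exp_add]
    apply mul_le_mul_of_nonneg_left (Real.exp_le_exp.2 _) hC.le
    have e1 : (M : ℝ) * E ≤ 355 / 1000 * M := by nlinarith
    have e2 : 164 / 100 * Real.pi * |y| ≤ 2 * Real.pi * |y| :=
      mul_le_mul_of_nonneg_right (by linarith) (abs_nonneg y)
    linarith
  have key := sum_int (fun m => fl n g M l m) (mw M : ℤ) ((l0 - mw M : ℕ) : ℤ)
    (by exact_mod_cast hab) M (C * Real.exp (1 + 355 / 1000 * M)) (by linarith)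
    ?_ ?_ ?_ ?_
  · rw [WinSum_sum (fun m => fl n g M l m)] at key
    simp only [Int.cast_natCast, hcast] at key
    refine key.trans ?_
    have e1 : Real.exp (36 / 100 * M) = Real.exp (355 / 1000 * M) * Real.exp (M / 200) := by
      rw [← Real.exp_add]; congr 1; ring
    have e2 : (M : ℝ) ≤ 200 * Real.exp (M / 200) := by
      have := Real.add_one_le_exp ((M : ℝ) / 200)
      linarith
    rw [e1, Real.exp_add]
    have e3 : 10 * ((l0 : ℝ) - mw M - mw M + 1 + M) ≤ 6000 * Real.exp (M / 200) := by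
      linarith
    calc 10 * ((l0 : ℝ) - mw M - mw M + 1 + M) * (C * (Real.exp 1 * Real.exp (355 / 1000 * M)))
        ≤ 6000 * Real.exp (M / 200) * (C * (Real.exp 1 * Real.exp (355 / 1000 * M))) :=
          mul_le_mul_of_nonneg_right e3 (by positivity)
      _ = 6000 * C * Real.exp 1 * (Real.exp (355 / 1000 * M) * Real.exp (M / 200)) := by ring
  · intro z h1 h2 h3
    simp only [Int.cast_natCast, hcast] at h1 h2
    exact (H z (by linarith) (by linarith [hre'.1]) (by linarith)).1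
  · intro y hy
    simp only [Int.cast_natCast]
    refine (hnorm ((mw M : ℝ) - 1 / 2) y (by linarith) (by linarith [hre'.1]) hy).trans ?_
    apply hS
    apply hend _ _ _ _ hj1 hj2
    · apply div_nonneg _ hM0.le; linarith
    · rw [div_le_iff₀ hM0]; linarith
  · intro y hy
    simp only [Int.cast_natCast, hcast]
    refine (hnorm ((l0 : ℝ) - mw M + 1 / 2) y (by linarith) (by linarith [hre'.1]) hy).trans ?_
    apply hS
    have e := hend (l.re / M - ((l0 : ℝ) - mw M + 1 / 2) / M) (l.re / M) ?_ ?_ hj1 hj2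
    · rw [sub_sub_cancel] at e
      linarith
    · rw [← sub_div]; apply div_nonneg _ hM0.le; linarith [hre'.1]
    · rw [← sub_div, div_le_iff₀ hM0]; linarith [hre'.2]
  · intro x h1 h2
    simp only [Int.cast_natCast, hcast] at h1 h2
    have h56 := WinSum_fr56
    have hE : Fr (l.re / M) - 2 * Fr (x / M) - 2 * Fr (l.re / M - x / M) ≤ 12 / 10 := by
      have f1 := Fr_le (l.re / M)
      have f2 := Fr_ge (x / M)
      have f3 := Fr_ge (l.re / M - x / M)
      linarith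
    have hfin : ∀ y : ℝ, |y| = M → C * Real.exp (M * (Fr (l.re / M) - 2 * Fr (x / M) -
        2 * Fr (l.re / M - x / M)) + 164 / 100 * Real.pi * |y| + 1) ≤
        C * Real.exp (1 + 355 / 1000 * M) * Real.exp (2 * Real.pi * M) := by
      intro y hy
      rw [mul_assoc C, ← Real.exp_add, hy]
      apply mul_le_mul_of_nonneg_left (Real.exp_le_exp.2 _) hC.le
      have e1 : (M : ℝ) * (Fr (l.re / M) - 2 * Fr (x / M) -
        2 * Fr (l.re / M - x / M)) ≤ M * (12 / 10) := mul_le_mul_of_nonneg_left hE hM0.le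
      have e2 : 36 / 100 * Real.pi * M ≥ 113 / 100 * M :=
        mul_le_mul_of_nonneg_right (by linarith) hM0.le
      linarith
    have hMM : |(M : ℝ)| = M := abs_of_pos hM0
    constructor
    · exact (hnorm x M (by linarith) (by linarith [hre'.1]) hMM.le).trans (hfin M hMM)
    · have h := hnorm x (-M) (by linarith) (by linarith [hre'.1]) (by rw [abs_neg, hMM])
      have h' := h.trans (hfin (-M) (by rw [abs_neg, hMM]))
      have e : (x : ℂ) + ((-(M : ℝ) : ℝ) : ℂ) * I = x - ((M : ℝ) : ℂ) * I := by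
        push_cast; ring
      rw [e] at h'
      exact h'

end Pool.Agent.H63.TW
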