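import Pool.Agent.H63.TW.Path
import Pool.Agent.H63.VC3.LLfun

/-! # The inner integral as a function of `v` -/

namespace Pool.Agent.H63.TW

open Pool.Agent.H63.VC Pool.Agent.H63.VC3 Complex Filter Topology MeasureTheory
open scoped BigOperators Interval

/-- Integrals of analytic functions over a compact interval. -/
theorem ZzAn_int {F : ℂ → ℝ → ℂ} {U : Set ℂ} (hU : IsOpen U) {a b : ℝ}
    (hc : ContinuousOn (fun q : ℂ × ℝ => F q.1 q.2) (U ×ˢ Set.uIcc a b))
    (hd : ∀ t ∈ Set.uIcc a b, DifferentiableOn ℂ (fun v => F v t) U) :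
    DifferentiableOn ℂ (fun v => ∫ t in a..b, F v t) U := by
  intro v₀ hv₀
  obtain ⟨R, hR, hRU⟩ := Metric.nhds_basis_closedBall.mem_iff.1 (hU.mem_nhds hv₀)
  have hK : IsCompact (Metric.closedBall v₀ R ×ˢ Set.uIcc a b) :=
    (isCompact_closedBall v₀ R).prod isCompact_uIcc
  obtain ⟨C, hC⟩ := hK.exists_bound_of_continuousOn (hc.mono (Set.prod_mono hRU le_rfl))
  have hct : ∀ v ∈ U, ContinuousOn (F v) (Set.uIcc a b) := fun v hv =>
    hc.comp (f := fun t : ℝ => (v, t)) (Continuous.continuousOn (by fun_prop))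
      (fun t ht => ⟨hv, ht⟩)
  have hmeas : ∀ v ∈ U, AEStronglyMeasurable (F v) (volume.restrict (Ι a b)) := fun v hv =>
    ((hct v hv).mono Set.uIoc_subset_uIcc).aestronglyMeasurable measurableSet_uIoc
  have hballU : Metric.ball v₀ (R / 2) ⊆ U := fun v hv => hRU (by
    rw [Metric.mem_ball] at hv
    rw [Metric.mem_closedBall]
    linarith)
  have hder : ∀ t ∈ Set.uIcc a b, ∀ v ∈ Metric.ball v₀ (R / 2),
      HasDerivAt (fun u => F u t) (deriv (fun u => F u t) v) v := fun t ht v hv =>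
    ((hd t ht).differentiableAt (hU.mem_nhds (hballU hv))).hasDerivAt
  have hbd : ∀ t ∈ Set.uIcc a b, ∀ v ∈ Metric.ball v₀ (R / 2),
      ‖deriv (fun u => F u t) v‖ ≤ C / (R / 2) := by
    intro t ht v hv
    have hsub : Metric.closedBall v (R / 2) ⊆ Metric.closedBall v₀ R := by
      refine Metric.closedBall_subset_closedBall' ?_
      rw [Metric.mem_ball] at hv
      linarith
    refine Complex.norm_deriv_le_of_forall_mem_sphere_norm_le (by positivity) ?_ fun z hz => ?_
    · refine DifferentiableOn.diffContOnCl ?_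
      rw [closure_ball _ (by positivity)]
      exact (hd t ht).mono (hsub.trans hRU)
    · exact hC (z, t) ⟨hsub (Metric.sphere_subset_closedBall hz), ht⟩
  have hmeas' : AEStronglyMeasurable (fun t => deriv (fun u => F u t) v₀)
      (volume.restrict (Ι a b)) := by
    refine aestronglyMeasurable_of_tendsto_ae (atTop : Filter ℕ)
      (f := fun (k : ℕ) (t : ℝ) => ((R / (k + 1) : ℝ) : ℂ)⁻¹ * (F (v₀ + ((R / (k + 1) : ℝ) : ℂ)) t - F v₀ t))
      (fun k => ?_) ?_
    · refine ((hmeas _ (hRU ?_)).sub (hmeas v₀ hv₀)).const_mul _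
      rw [Metric.mem_closedBall, dist_eq_norm, add_sub_cancel_left, Complex.norm_real,
        Real.norm_of_nonneg (by positivity)]
      exact div_le_self hR.le (by linarith [(Nat.cast_nonneg k : (0 : ℝ) ≤ k)])
    · refine (ae_restrict_iff' measurableSet_uIoc).2 (Eventually.of_forall fun t ht => ?_)
      have h1 := hder t (Set.uIoc_subset_uIcc ht) v₀ (Metric.mem_ball_self (by positivity))
      have h2 := hasDerivAt_iff_tendsto_slope_zero.1 h1
      have h3 : Tendsto (fun k : ℕ => ((R / (k + 1) : ℝ) : ℂ)) atTop (𝓝[≠] 0) := by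
        refine tendsto_nhdsWithin_iff.2 ⟨?_, Eventually.of_forall fun k => ?_⟩
        · have h4 : Tendsto (fun k : ℕ => (R / (k + 1) : ℝ)) atTop (𝓝 0) := by
            have h5 := (tendsto_one_div_add_atTop_nhds_zero_nat (𝕜 := ℝ)).const_mul R
            rw [mul_zero] at h5
            refine h5.congr fun k => ?_
            ring
          have h6 := (Complex.continuous_ofReal.tendsto 0).comp h4
          rwa [Complex.ofReal_zero] at h6
        · have h4 : (R / (k + 1) : ℝ) ≠ 0 := by positivity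
          exact fun h5 => h4 (Complex.ofReal_eq_zero.1 h5)
      exact h2.comp h3
  have hmain := intervalIntegral.hasDerivAt_integral_of_dominated_loc_of_deriv_le (μ := volume)
    (F := F) (F' := fun v t => deriv (fun u => F u t) v) (x₀ := v₀) (s := Metric.ball v₀ (R / 2))
    (bound := fun _ => C / (R / 2)) (a := a) (b := b) (Metric.ball_mem_nhds v₀ (by positivity))
    (by
      filter_upwards [hU.mem_nhds hv₀] with v hv using hmeas v hv)
    ((hct v₀ hv₀).intervalIntegrable) hmeas'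
    (Eventually.of_forall fun t ht v hv => hbd t (Set.uIoc_subset_uIcc ht) v hv)
    intervalIntegrable_const
    (Eventually.of_forall fun t ht v hv => hder t (Set.uIoc_subset_uIcc ht) v hv)
  exact hmain.2.differentiableAt.differentiableWithinAt

theorem ZzAn_arctan {z : ℂ} (hz : 1 + z ^ 2 ∈ slitPlane) : DifferentiableAt ℂ arctan z := by
  have h0 : (1 + z * I) * (1 - z * I) = 1 + z ^ 2 := by
    have := I_sq
    linear_combination (-z ^ 2) * this
  have hne : (1 + z * I) * (1 - z * I) ≠ 0 := by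
    rw [h0]
    exact slitPlane_ne_zero hz
  have h1 : 1 - z * I ≠ 0 := right_ne_zero_of_mul hne
  have h2 : (1 + z * I) / (1 - z * I) ∈ slitPlane := by
    by_contra hcon
    rw [mem_slitPlane_iff, not_or, not_lt, not_not] at hcon
    set w : ℂ := (1 + z * I) / (1 - z * I) with hw
    set r : ℝ := -w.re with hr
    have hwr : w = ((-r : ℝ) : ℂ) := by
      apply Complex.ext
      · simp [hr]
      · simp [hcon.2]
    have hr0 : 0 ≤ r := by
      rw [hr]
      linarith [hcon.1]
    have h3 : 1 + z * I = w * (1 - z * I) := by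
      rw [hw, div_mul_cancel₀ _ h1]
    rw [hwr] at h3
    have h4 : z * I * ((1 - r : ℝ) : ℂ) = ((-(1 + r) : ℝ) : ℂ) := by
      push_cast at h3 ⊢
      linear_combination h3
    have h5 : (1 - r : ℝ) ≠ 0 := by
      intro h6
      rw [h6, ofReal_zero, mul_zero] at h4
      have h7 := (ofReal_eq_zero.1 h4.symm)
      linarith
    have h6 : z * I = ((-(1 + r) / (1 - r) : ℝ) : ℂ) := by
      rw [ofReal_div, eq_div_iff (ofReal_ne_zero.2 h5)]
      exact h4
    have h7 : 1 + z ^ 2 = ((1 - (-(1 + r) / (1 - r)) ^ 2 : ℝ) : ℂ) := by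
      push_cast at h6 ⊢
      rw [← h6]
      have := I_sq
      linear_combination z ^ 2 * this
    rw [h7, ofReal_mem_slitPlane, sub_pos, div_pow, div_lt_one (by positivity)] at hz
    nlinarith
  have h3 : DifferentiableAt ℂ (fun z : ℂ => -I / 2 * log ((1 + z * I) / (1 - z * I))) z := by
    refine DifferentiableAt.const_mul ?_ _
    refine DifferentiableAt.clog ?_ h2
    exact DifferentiableAt.div (by fun_prop) (by fun_prop) h1
  exact h3

theorem ZzAn_tan {v : ℂ} (h0 : |v.re| < 1 / 2) : DifferentiableAt ℂ Tj v := by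
  have hpi := Real.pi_pos
  have hc : Complex.cos (Real.pi * (v + 1 / 2) / 2) ≠ 0 := by
    intro h1
    obtain ⟨k, hk⟩ := Complex.cos_eq_zero_iff.1 h1
    have h2 := congrArg Complex.re hk
    have e1 : (Real.pi * (v + 1 / 2) / 2 : ℂ).re = Real.pi * (v.re + 1 / 2) / 2 := by
      have : (Real.pi * (v + 1 / 2) / 2 : ℂ) = ((Real.pi / 2 : ℝ) : ℂ) * (v + ((1 / 2 : ℝ) : ℂ)) := by
        push_cast
        ring
      rw [this, Complex.re_ofReal_mul, Complex.add_re, Complex.ofReal_re]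
      ring
    have e2 : ((2 * (k : ℂ) + 1) * Real.pi / 2 : ℂ).re = (2 * k + 1) * Real.pi / 2 := by
      have : ((2 * (k : ℂ) + 1) * Real.pi / 2 : ℂ) = (((2 * k + 1) * Real.pi / 2 : ℝ) : ℂ) := by
        push_cast
        ring
      rw [this, Complex.ofReal_re]
    rw [e1, e2] at h2
    have h3 : v.re + 1 / 2 = 2 * k + 1 := by
      have h4 : Real.pi * (v.re + 1 / 2) = Real.pi * (2 * k + 1) := by linarith
      exact mul_left_cancel₀ hpi.ne' h4
    obtain ⟨h4, h5⟩ := abs_lt.1 h0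
    have h6 : (0 : ℝ) < 2 * k + 1 := by linarith
    have h7 : (2 * k + 1 : ℝ) < 1 := by linarith
    have h8 : (0 : ℤ) < 2 * k + 1 := by exact_mod_cast h6
    have h9 : (2 * k + 1 : ℤ) < 1 := by exact_mod_cast h7
    omega
  have h1 : DifferentiableAt ℂ (fun v : ℂ => Complex.tan (Real.pi * (v + 1 / 2) / 2)) v :=
    DifferentiableAt.comp (g := Complex.tan) v (Complex.differentiableAt_tan.2 hc) (by fun_prop)
  exact h1

theorem ZzAn_UV {v : ℂ} (hv : v ∈ UV) : |v.re| < 1 / 2 := lt_trans hv.1 (by norm_num)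

theorem ZzAn_open : IsOpen UV :=
  (isOpen_lt (continuous_abs.comp Complex.continuous_re) continuous_const).inter
    (isOpen_lt (continuous_abs.comp Complex.continuous_im) continuous_const)

/-- Joint continuity of the path. -/
theorem ZzAn_xt {v : ℂ} (h0 : |v.re| < 1 / 2) (t : ℝ) :
    ContinuousAt (fun q : ℂ × ℝ => xt q.1 q.2) (v, t) := by
  have h1 : 1 + ((t : ℂ) * Tj v) ^ 2 ∈ slitPlane := by
    rw [mul_pow]
    exact one_add_ne v h0 t
  have h2 := (ZzAn_arctan h1).continuousAt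
  have h3 : ContinuousAt (fun q : ℂ × ℝ => (q.2 : ℂ) * Tj q.1) (v, t) := by
    refine ContinuousAt.mul ?_ ?_
    · exact (Complex.continuous_ofReal.comp continuous_snd).continuousAt
    · exact ContinuousAt.comp (f := fun q : ℂ × ℝ => q.1) (x := (v, t)) (ZzAn_tan h0).continuousAt
        continuous_fst.continuousAt
  exact (ContinuousAt.comp (f := fun q : ℂ × ℝ => (q.2 : ℂ) * Tj q.1) (x := (v, t)) h2 h3).div_const _

/-- The uniform gap. -/
theorem ZzAn_gap : ∃ c : ℝ, 0 < c ∧ ∀ v ∈ UV, ∀ t : ℝ, |t| ≤ 9 / 10 →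
    |(xt v t).re| ≤ (v.re + 1 / 2) / 2 - c := by
  set K : Set (ℂ × ℝ) := {v : ℂ | |v.re| ≤ 34 / 100 ∧ |v.im| ≤ 65 / 1000} ×ˢ Set.Icc (-(9 / 10)) (9 / 10)
    with hK
  have hKc : IsCompact K := by
    refine IsCompact.prod ?_ isCompact_Icc
    refine Metric.isCompact_of_isClosed_isBounded ?_ ?_
    · exact (isClosed_le (continuous_abs.comp Complex.continuous_re) continuous_const).inter
        (isClosed_le (continuous_abs.comp Complex.continuous_im) continuous_const)
    · refine isBounded_iff_forall_norm_le.2 ⟨34 / 100 + 65 / 1000, fun z hz => ?_⟩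
      exact (Complex.norm_le_abs_re_add_abs_im z).trans (add_le_add hz.1 hz.2)
  have hne : K.Nonempty := ⟨(0, 0), ⟨by norm_num, by norm_num⟩, by norm_num, by norm_num⟩
  have hlt : ∀ q ∈ K, |q.1.re| < 1 / 2 := fun q hq => lt_of_le_of_lt hq.1.1 (by norm_num)
  have hcont : ContinuousOn (fun q : ℂ × ℝ => (q.1.re + 1 / 2) / 2 - |(xt q.1 q.2).re|) K := by
    intro q hq
    refine ContinuousAt.continuousWithinAt ?_
    have h1 : ContinuousAt (fun q : ℂ × ℝ => xt q.1 q.2) q := ZzAn_xt (hlt q hq) q.2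
    refine ContinuousAt.sub ?_ (ContinuousAt.abs (Complex.continuous_re.continuousAt.comp h1))
    exact (((Complex.continuous_re.comp continuous_fst).add continuous_const).div_const 2).continuousAt
  obtain ⟨q₀, hq₀, hmin⟩ := hKc.exists_isMinOn hne hcont
  refine ⟨(q₀.1.re + 1 / 2) / 2 - |(xt q₀.1 q₀.2).re|, ?_, fun v hv t ht => ?_⟩
  · have h1 := xt_re q₀.1 (hlt q₀ hq₀) q₀.2 (lt_of_le_of_lt (abs_le.2 hq₀.2) (by norm_num))
    linarith
  · have h1 : (v, t) ∈ K := ⟨⟨hv.1.le, hv.2.le⟩, abs_le.1 ht⟩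
    have h2 := hmin h1
    simp only [Set.mem_ofPred_eq] at h2
    linarith

/-- The terms as a function of two complex variables. -/
theorem ZzAn_fl (n g : ℕ) (hg : 1 ≤ g) (hgn : g + 1 ≤ n) {c : ℝ} (hc : 0 < c) {M : ℕ}
    (hM1 : (n : ℝ) + 1 < c * M) (hM2 : (n : ℝ) + 1 < 16 / 100 * M) {q : ℂ × ℂ} (hv : q.1 ∈ UV)
    (hx : |q.2.re| ≤ (q.1.re + 1 / 2) / 2 - c) :
    DifferentiableAt ℂ (fun q : ℂ × ℂ => fl n g M (lv n M q.1) (lv n M q.1 / 2 + M * q.2)) q := by
  have hn0 : (0 : ℝ) ≤ n := Nat.cast_nonneg n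
  have hg1 : (1 : ℝ) ≤ g := by exact_mod_cast hg
  have hgn1 : (g : ℝ) + 1 ≤ n := by exact_mod_cast hgn
  have hM0 : (0 : ℝ) < M := by linarith
  have hMp : 0 < M := by exact_mod_cast hM0
  obtain ⟨hv1, hv2⟩ := abs_lt.1 hv.1
  obtain ⟨hx1, hx2⟩ := abs_le.1 hx
  have hLL : ∀ s : ℂ × ℂ → ℂ, DifferentiableAt ℂ s q → -1 < (s q).re → (s q).re < M →
      DifferentiableAt ℂ (fun q => LL M (s q)) q := fun s hs h0 h1 =>
    DifferentiableAt.comp (g := LL M) q (LL_differentiableAt M hMp _ h0 h1) hs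
  have hbt : bt n = ((n : ℝ) - 1) / 2 := rfl
  have hl : DifferentiableAt ℂ (fun q : ℂ × ℂ => lv n M q.1) q := by
    unfold lv
    fun_prop
  have hm : DifferentiableAt ℂ (fun q : ℂ × ℂ => lv n M q.1 / 2 + M * q.2) q := by
    unfold lv
    fun_prop
  have hlre : (lv n M q.1).re = M * (q.1.re + 1 / 2) - bt n := by
    have : lv n M q.1 = ((M : ℝ) : ℂ) * (q.1 + ((1 / 2 : ℝ) : ℂ)) - ((bt n : ℝ) : ℂ) := by
      unfold lv
      push_cast
      ring
    rw [this, Complex.sub_re, Complex.re_ofReal_mul, Complex.add_re, Complex.ofReal_re, Complex.ofReal_re]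
  have hmre : (lv n M q.1 / 2 + M * q.2 : ℂ).re = (M * (q.1.re + 1 / 2) - bt n) / 2 + M * q.2.re := by
    have : (lv n M q.1 / 2 + M * q.2 : ℂ) = (((1 / 2 : ℝ) : ℂ)) * lv n M q.1 + ((M : ℝ) : ℂ) * q.2 := by
      push_cast
      ring
    rw [this, Complex.add_re, Complex.re_ofReal_mul, Complex.re_ofReal_mul, hlre]
    ring
  -- the bounds
  have b1 : (M : ℝ) * (16 / 100) ≤ M * (q.1.re + 1 / 2) := mul_le_mul_of_nonneg_left (by linarith) hM0.le
  have b2 : (M : ℝ) * (q.1.re + 1 / 2) ≤ M * (84 / 100) := mul_le_mul_of_nonneg_left (by linarith) hM0.le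
  have b3 : (M : ℝ) * -((q.1.re + 1 / 2) / 2 - c) ≤ M * q.2.re := mul_le_mul_of_nonneg_left hx1 hM0.le
  have b4 : (M : ℝ) * q.2.re ≤ M * ((q.1.re + 1 / 2) / 2 - c) := mul_le_mul_of_nonneg_left hx2 hM0.le
  have h3re : (lv n M q.1 + n - g - 1 - (lv n M q.1 / 2 + M * q.2) : ℂ).re =
      (M * (q.1.re + 1 / 2) - ((n : ℝ) - 1) / 2) + n - g - 1 -
        ((M * (q.1.re + 1 / 2) - ((n : ℝ) - 1) / 2) / 2 + M * q.2.re) := by
    rw [Complex.sub_re, hmre, Complex.sub_re, Complex.sub_re, Complex.add_re, hlre, hbt,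
      Complex.natCast_re, Complex.natCast_re, Complex.one_re]
  have h4re : (lv n M q.1 + g - 1 - (lv n M q.1 / 2 + M * q.2) : ℂ).re =
      (M * (q.1.re + 1 / 2) - ((n : ℝ) - 1) / 2) + g - 1 -
        ((M * (q.1.re + 1 / 2) - ((n : ℝ) - 1) / 2) / 2 + M * q.2.re) := by
    rw [Complex.sub_re, hmre, Complex.sub_re, Complex.add_re, hlre, hbt,
      Complex.natCast_re, Complex.one_re]
  unfold fl tau
  refine DifferentiableAt.mul ?_ (DifferentiableAt.mul ?_ ?_)
  · refine DifferentiableAt.cexp (DifferentiableAt.neg (hLL _ hl ?_ ?_))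
    · rw [hlre, hbt]
      nlinarith
    · rw [hlre, hbt]
      nlinarith
  · unfold qp
    fun_prop
  · refine DifferentiableAt.cexp ?_
    refine ((((hLL _ ?_ ?_ ?_).add (hLL _ ?_ ?_ ?_)).sub (hLL _ ?_ ?_ ?_)).sub (hLL _ ?_ ?_ ?_)).sub
      ((hLL _ hm ?_ ?_).const_mul 2)
    · fun_prop
    · simp only [Complex.add_re, Complex.sub_re, Complex.natCast_re, Complex.one_re, hlre, hbt]
      nlinarith
    · simp only [Complex.add_re, Complex.sub_re, Complex.natCast_re, Complex.one_re, hlre, hbt]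
      nlinarith
    · fun_prop
    · simp only [Complex.add_re, Complex.sub_re, Complex.natCast_re, Complex.one_re, hlre, hbt]
      nlinarith
    · simp only [Complex.add_re, Complex.sub_re, Complex.natCast_re, Complex.one_re, hlre, hbt]
      nlinarith
    · fun_prop
    · rw [h3re]
      nlinarith
    · rw [h3re]
      nlinarith
    · fun_prop
    · rw [h4re]
      nlinarith
    · rw [h4re]
      nlinarith
    · rw [hmre, hbt]
      nlinarith
    · rw [hmre, hbt]
      nlinarith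

theorem ZZ_an (n g : ℕ) (hg : 1 ≤ g) (hgn : g + 1 ≤ n) :
    ∀ᶠ M : ℕ in atTop, AnalyticOnNhd ℂ (ZZ n g M) UV := by
  obtain ⟨c, hc, hgap⟩ := ZzAn_gap
  have e1 : ∀ᶠ M : ℕ in atTop, (n : ℝ) + 1 < c * M :=
    (tendsto_natCast_atTop_atTop.const_mul_atTop hc).eventually_gt_atTop _
  have e2 : ∀ᶠ M : ℕ in atTop, (n : ℝ) + 1 < 16 / 100 * M :=
    (tendsto_natCast_atTop_atTop.const_mul_atTop (by norm_num)).eventually_gt_atTop _
  filter_upwards [e1, e2] with M hM1 hM2
  refine DifferentiableOn.analyticOnNhd ?_ ZzAn_open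
  have hmt : ∀ v t, mt n M v t = lv n M v / 2 + M * xt v t := by
    intro v t
    unfold mt xt
    rw [mul_div_assoc]
  have habs : ∀ t ∈ Set.uIcc (-(9 / 10) : ℝ) (9 / 10), |t| ≤ 9 / 10 := by
    intro t ht
    rw [Set.uIcc_of_le (by norm_num)] at ht
    exact abs_le.2 ht
  have hpi : (Real.pi : ℂ) ≠ 0 := Complex.ofReal_ne_zero.2 Real.pi_pos.ne'
  refine ZzAn_int (F := fun v t => M * Tj v / (Real.pi * (1 + (t : ℂ) ^ 2 * Tj v ^ 2)) *
    fl n g M (lv n M v) (mt n M v t)) ZzAn_open ?_ ?_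
  · rintro ⟨v, t⟩ ⟨hv, ht⟩
    refine ContinuousAt.continuousWithinAt ?_
    have hT : ContinuousAt (fun q : ℂ × ℝ => Tj q.1) (v, t) :=
      ContinuousAt.comp (f := fun q : ℂ × ℝ => q.1) (x := (v, t)) (ZzAn_tan (ZzAn_UV hv)).continuousAt
        continuous_fst.continuousAt
    have ht' : ContinuousAt (fun q : ℂ × ℝ => (q.2 : ℂ)) (v, t) :=
      (Complex.continuous_ofReal.comp continuous_snd).continuousAt
    refine ContinuousAt.mul (ContinuousAt.div (continuousAt_const.mul hT)
      (continuousAt_const.mul (continuousAt_const.add ((ht'.pow 2).mul (hT.pow 2))))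
      (mul_ne_zero hpi (slitPlane_ne_zero (one_add_ne v (ZzAn_UV hv) t)))) ?_
    have h1 := (ZzAn_fl n g hg hgn hc hM1 hM2 (q := (v, xt v t)) hv (hgap v hv t (habs t ht))).continuousAt
    have h2 : ContinuousAt (fun q : ℂ × ℝ => (q.1, xt q.1 q.2)) (v, t) :=
      continuous_fst.continuousAt.prodMk (ZzAn_xt (ZzAn_UV hv) t)
    have h3 := ContinuousAt.comp (f := fun q : ℂ × ℝ => (q.1, xt q.1 q.2)) (x := (v, t)) h1 h2
    refine h3.congr (Eventually.of_forall fun q => ?_)
    simp only [Function.comp_apply, hmt]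
  · intro t ht v hv
    refine DifferentiableAt.differentiableWithinAt ?_
    have hT := ZzAn_tan (ZzAn_UV hv)
    refine DifferentiableAt.mul (DifferentiableAt.div (hT.const_mul _)
      (((hT.pow 2).const_mul _).const_add 1 |>.const_mul _)
      (mul_ne_zero hpi (slitPlane_ne_zero (one_add_ne v (ZzAn_UV hv) t)))) ?_
    have h1 := ZzAn_fl n g hg hgn hc hM1 hM2 (q := (v, xt v t)) hv (hgap v hv t (habs t ht))
    have h2 : DifferentiableAt ℂ (fun u : ℂ => (u, xt u t)) v :=
      differentiableAt_id.prodMk (xt_an v (ZzAn_UV hv) t).differentiableAt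
    have h3 := DifferentiableAt.comp (f := fun u : ℂ => (u, xt u t)) v h1 h2
    refine h3.congr_of_eventuallyEq (Eventually.of_forall fun u => ?_)
    simp only [Function.comp_apply, hmt]

end Pool.Agent.H63.TW
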