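import Pool.Agent.H63.TW.Gph
import Pool.Agent.H63.TW.TtBd
import Pool.Agent.H63.TW.WinPath
import Pool.Agent.H63.TW.WinSum
import Pool.Agent.H63.TW.ZzAn

/-! # The inner sum and the inner integral -/

namespace Pool.Agent.H63.TW

open Pool.Agent.H63.VC Pool.Agent.H63.VC3 Complex Filter Topology
open scoped BigOperators

/-- The factor in front of the inner sum. -/
private noncomputable def Inner_A (p : ℤ) (n M : ℕ) (v : ℂ) : ℂ :=
  exp (2 * Real.pi * I * p * M * v ^ 2) * (2 * sin (2 * Real.pi * v)) *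
    (gph n M (lv n M v) * BN n M (lv n M v))

/-- The inner sum. -/
private noncomputable def Inner_Y (n g M : ℕ) (l : ℂ) : ℂ :=
  ∑ m ∈ Finset.range M, exp (-LL M l) * tt n g M l m

private lemma Inner_GX (p : ℤ) (n g M : ℕ) :
    GX p n g M = fun v => Inner_A p n M v * Inner_Y n g M (lv n M v) := by
  funext v
  simp only [GX, Xi, TT, Inner_A, Inner_Y, ← Finset.mul_sum]
  ring

private lemma Inner_FZ (p : ℤ) (n g M : ℕ) :
    FZ p n g M = fun v => Inner_A p n M v * ZZ n g M v := rfl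

private lemma Inner_lv_hasDeriv (n M : ℕ) (v : ℂ) : HasDerivAt (lv n M) (M : ℂ) v := by
  have h1 : HasDerivAt (fun v : ℂ => (M : ℂ) * (v + 1 / 2) - bt n) ((M : ℂ) * 1) v :=
    (((hasDerivAt_id v).add_const (1 / 2)).const_mul (M : ℂ)).sub_const _
  rw [mul_one] at h1
  exact h1

private lemma Inner_A_diff (p : ℤ) (n M : ℕ) : Differentiable ℂ (Inner_A p n M) := by
  have h1 : Differentiable ℂ (lv n M) := fun v => (Inner_lv_hasDeriv n M v).differentiableAt
  have h2 : Differentiable ℂ (gph n M) := by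
    unfold gph qp
    fun_prop
  have h3 : Differentiable ℂ (BN n M) := by
    unfold BN sn
    fun_prop
  have h4 : Differentiable ℂ (fun v => gph n M (lv n M v)) := h2.comp h1
  have h5 : Differentiable ℂ (fun v => BN n M (lv n M v)) := h3.comp h1
  unfold Inner_A
  fun_prop

private lemma Inner_tt_diff (n g M m : ℕ) : Differentiable ℂ (fun z => tt n g M z m) := by
  unfold tt sn
  fun_prop

/-- The bound of the factor. -/
private lemma Inner_A_bound (p : ℤ) (n : ℕ) (hn : 2 ≤ n) : ∃ C : ℝ, 0 < C ∧ ∀ M : ℕ, 1 ≤ M →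
    ∀ x : ℝ, |x| ≤ 1 / 2 → ‖Inner_A p n M x‖ ≤ C ∧ ‖deriv (Inner_A p n M) x‖ ≤ C * M := by
  obtain ⟨Cg, hCg, hg⟩ := gph_bound n hn
  obtain ⟨Cb, hCb, hb⟩ := BN_bound n hn
  obtain ⟨Cs, hs⟩ := (isCompact_closedBall (0 : ℂ) 1).exists_bound_of_continuousOn
    (f := fun v : ℂ => 2 * sin (2 * Real.pi * v)) (by fun_prop)
  have hCs : 0 ≤ Cs := (norm_nonneg _).trans (hs 0 (by simp))
  set K : ℝ := Real.exp (Real.pi * |(p : ℝ)|) * Cs * (Cg * Real.exp (Real.pi / 4) * Cb) with hK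
  have hK0 : 0 ≤ K := by positivity
  have hpi := Real.pi_pos
  have key : ∀ M : ℕ, 1 ≤ M → ∀ x : ℝ, |x| ≤ 1 / 2 → ∀ v : ℂ, ‖v - x‖ ≤ 1 / (4 * M) →
      ‖Inner_A p n M v‖ ≤ K := by
    intro M hM x hx v hv
    have hM1 : (1 : ℝ) ≤ M := by exact_mod_cast hM
    have hM0 : (0 : ℝ) < M := by linarith
    have hr : 1 / (4 * (M : ℝ)) ≤ 1 / 4 := by
      apply one_div_le_one_div_of_le <;> linarith
    have hre : |(v - x).re| ≤ 1 / (4 * M) := (abs_re_le_norm _).trans hv
    have him : |(v - x).im| ≤ 1 / (4 * M) := (abs_im_le_norm _).trans hv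
    simp only [sub_re, ofReal_re, sub_im, ofReal_im, sub_zero] at hre him
    have hre1 : |v.re| ≤ 1 := by
      have := abs_le.1 (hre.trans hr)
      have := abs_le.1 hx
      rw [abs_le]
      constructor <;> linarith [this.1, this.2]
    have hnv : ‖v‖ ≤ 1 := by
      have h1 : ‖v‖ ≤ ‖v - x‖ + ‖(x : ℂ)‖ := by
        have := norm_add_le (v - x) (x : ℂ)
        simpa using this
      rw [norm_real, Real.norm_eq_abs] at h1
      linarith
    have hprod : |v.re * v.im| * M ≤ 1 / 4 := by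
      rw [abs_mul]
      have h1 : |v.re| * |v.im| ≤ 1 * (1 / (4 * M)) :=
        mul_le_mul hre1 him (abs_nonneg _) zero_le_one
      calc |v.re| * |v.im| * M ≤ 1 * (1 / (4 * M)) * M :=
            mul_le_mul_of_nonneg_right h1 hM0.le
        _ = 1 / 4 := by field_simp
    have hprod' := abs_le.1 (show |v.re * v.im * M| ≤ 1 / 4 by
      rw [abs_mul, abs_of_pos hM0]; exact hprod)
    have e1 : ‖exp (2 * Real.pi * I * p * M * v ^ 2)‖ ≤ Real.exp (Real.pi * |(p : ℝ)|) := by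
      rw [norm_exp]
      apply Real.exp_le_exp.2
      have e : (2 * Real.pi * I * p * M * v ^ 2).re = -(4 * Real.pi * p * (v.re * v.im * M)) := by
        have h2 : (2 * Real.pi * I * p * M * v ^ 2 : ℂ) =
            ((2 * Real.pi * p * M : ℝ) : ℂ) * (I * v ^ 2) := by push_cast; ring
        rw [h2, re_ofReal_mul, I_mul_re, pow_two, mul_im]
        ring
      rw [e]
      have h3 : |4 * Real.pi * p * (v.re * v.im * M)| ≤ Real.pi * |(p : ℝ)| := by
        rw [abs_mul, abs_mul, abs_of_pos (by positivity : 0 < 4 * Real.pi)]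
        have h4 : |v.re * v.im * M| ≤ 1 / 4 := abs_le.2 hprod'
        calc 4 * Real.pi * |(p : ℝ)| * |v.re * v.im * M|
            ≤ 4 * Real.pi * |(p : ℝ)| * (1 / 4) := by gcongr
          _ = Real.pi * |(p : ℝ)| := by ring
      exact (neg_le_abs _).trans h3
    have e2 : ‖2 * sin (2 * Real.pi * v)‖ ≤ Cs := hs v (by simpa using hnv)
    have e3 : ‖gph n M (lv n M v)‖ ≤ Cg * Real.exp (Real.pi / 4) := by
      refine (hg M hM v hnv).trans (mul_le_mul_of_nonneg_left ?_ hCg.le)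
      apply Real.exp_le_exp.2
      have e : (-(Real.pi * I / 2) * v ^ 2).re = Real.pi * (v.re * v.im) := by
        have h2 : (-(Real.pi * I / 2) * v ^ 2 : ℂ) = ((-(Real.pi / 2) : ℝ) : ℂ) * (I * v ^ 2) := by
          push_cast; ring
        rw [h2, re_ofReal_mul, I_mul_re, pow_two, mul_im]
        ring
      rw [e]
      calc (M : ℝ) * (Real.pi * (v.re * v.im)) = Real.pi * (v.re * v.im * M) := by ring
        _ ≤ Real.pi * (1 / 4) := mul_le_mul_of_nonneg_left hprod'.2 hpi.le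
        _ = Real.pi / 4 := by ring
    have e4 : ‖BN n M (lv n M v)‖ ≤ Cb := hb M hM v hnv
    rw [Inner_A, norm_mul, norm_mul, norm_mul (gph n M (lv n M v))]
    exact mul_le_mul (mul_le_mul e1 e2 (norm_nonneg _) (Real.exp_pos _).le)
      (mul_le_mul e3 e4 (norm_nonneg _) (by positivity)) (by positivity) (by positivity)
  refine ⟨4 * K + 1, by positivity, fun M hM x hx => ?_⟩
  have hM1 : (1 : ℝ) ≤ M := by exact_mod_cast hM
  have hM0 : (0 : ℝ) < M := by linarith
  constructor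
  · have := key M hM x hx x (by simp)
    linarith
  · have h1 : ‖deriv (Inner_A p n M) x‖ ≤ K / (1 / (4 * M)) :=
      norm_deriv_le_of_forall_mem_sphere_norm_le (by positivity)
        (Inner_A_diff p n M).diffContOnCl fun z hz => key M hM x hx z (by
          rw [mem_sphere_iff_norm] at hz
          exact hz.le)
    calc ‖deriv (Inner_A p n M) x‖ ≤ K / (1 / (4 * M)) := h1
      _ = 4 * K * M := by field_simp
      _ ≤ (4 * K + 1) * M := by nlinarith

private lemma Inner_pow (c : ℝ) (M : ℕ) (hM : 1 ≤ M) :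
    Real.exp (c * Real.log M) ≤ (M : ℝ) ^ ⌈c⌉₊ := by
  have hM1 : (1 : ℝ) ≤ M := by exact_mod_cast hM
  have hM0 : (0 : ℝ) < M := by linarith
  rw [mul_comm, ← Real.rpow_def_of_pos hM0, ← Real.rpow_natCast]
  exact Real.rpow_le_rpow_of_exponent_le hM1 (Nat.le_ceil c)

/-- The exponent of a term. -/
private noncomputable def Inner_E (M l m : ℕ) : ℝ :=
  Fr ((l : ℝ) / M) - 2 * Fr ((m : ℝ) / M) - 2 * Fr (((l : ℝ) - m) / M)

private lemma Inner_LLd (n M l : ℕ) (hn : 2 ≤ n) (hl : l + n ≤ M + 1) :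
    DifferentiableAt ℂ (fun z : ℂ => exp (-LL M z)) l := by
  have h : DifferentiableAt ℂ (LL M) l := by
    apply LL_differentiableAt M (by omega) l
    · rw [natCast_re]
      have : (0 : ℝ) ≤ l := Nat.cast_nonneg l
      linarith
    · rw [natCast_re]
      exact_mod_cast (by omega : l < M)
  exact h.neg.cexp

/-- The bound of the terms. -/
private lemma Inner_term (n g : ℕ) (hg : 1 ≤ g) (hgn : g + 1 ≤ n) : ∃ (C : ℝ) (e : ℕ), 0 < C ∧
    ∀ᶠ M : ℕ in atTop, ∀ l m : ℕ, l + n ≤ M + 1 → m < M →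
      ‖exp (-LL M l) * tt n g M l m‖ ≤ C * (M : ℝ) ^ e * Real.exp (M * Inner_E M l (min m l)) ∧
      ‖deriv (fun z => exp (-LL M z) * tt n g M z m) l‖ ≤
        C * (M : ℝ) ^ e * Real.exp (M * Inner_E M l (min m l)) := by
  obtain ⟨C1, e1, hC1, h1⟩ := tt_bound n g hg hgn
  obtain ⟨C2, e2, hC2, h2⟩ := eLL_bound
  obtain ⟨C3, hC3, h3⟩ := Fr_shift n
  refine ⟨2 * (C2 * C1), e2 + e1 + ⌈4 * C3⌉₊, by positivity, ?_⟩
  filter_upwards [h1, h2, eventually_ge_atTop 2] with M h1 h2 hM l m hl hm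
  have hM1 : (1 : ℝ) ≤ M := by exact_mod_cast (by omega : 1 ≤ M)
  have hM0 : (0 : ℝ) < M := by linarith
  obtain ⟨hd, hz, hv, hv'⟩ := h1 l m hl hm
  obtain ⟨hL, hL'⟩ := h2 l (by omega)
  have hLd := Inner_LLd n M l (by omega) hl
  set B : ℝ := C2 * C1 * (M : ℝ) ^ (e2 + e1 + ⌈4 * C3⌉₊) * Real.exp (M * Inner_E M l (min m l))
    with hB
  have hB0 : 0 ≤ B := by positivity
  have e : 2 * (C2 * C1) * (M : ℝ) ^ (e2 + e1 + ⌈4 * C3⌉₊) *
      Real.exp (M * Inner_E M l (min m l)) = B + B := by rw [hB]; ring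
  rw [e, deriv_fun_mul hLd hd]
  by_cases hmn : l + n < m
  · obtain ⟨z1, z2⟩ := hz hmn
    rw [z1, z2]
    simp only [mul_zero, add_zero, norm_zero]
    constructor <;> linarith
  -- the product of the bounds
  have key : (C2 * (M : ℝ) ^ e2 * Real.exp (-(M * Fr ((l : ℝ) / M)))) * (C1 * (M : ℝ) ^ e1 *
      Real.exp (M * (2 * Fr ((l : ℝ) / M) - 2 * Fr ((m : ℝ) / M) -
        2 * Fr (((l : ℝ) - m) / M)))) ≤ B := by
    have hexp : Real.exp (-(M * Fr ((l : ℝ) / M))) *
        Real.exp (M * (2 * Fr ((l : ℝ) / M) - 2 * Fr ((m : ℝ) / M) -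
          2 * Fr (((l : ℝ) - m) / M))) ≤
        (M : ℝ) ^ ⌈4 * C3⌉₊ * Real.exp (M * Inner_E M l (min m l)) := by
      rw [← Real.exp_add]
      refine le_trans ?_ (mul_le_mul_of_nonneg_right (Inner_pow (4 * C3) M (by omega))
        (Real.exp_pos _).le)
      rw [← Real.exp_add]
      apply Real.exp_le_exp.2
      have hlog : 0 ≤ Real.log M := Real.log_nonneg hM1
      rcases le_or_gt m l with hml | hml
      · rw [min_eq_left hml, Inner_E]
        have : 0 ≤ 4 * C3 * Real.log M := by positivity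
        linarith
      · rw [min_eq_right hml.le, Inner_E]
        obtain ⟨k, rfl⟩ := Nat.exists_eq_add_of_lt hml
        have hk : k + 1 ≤ n := by omega
        have a1 := abs_le.1 (h3 M hM ((l : ℝ) / M) (k + 1) hk)
        have a2 := abs_le.1 (h3 M hM 0 (k + 1) hk)
        rw [Fr_zero] at a2
        have r1 : ((l + k + 1 : ℕ) : ℝ) / M = (l : ℝ) / M + ((k + 1 : ℕ) : ℝ) / M := by
          push_cast; ring
        have r2 : ((l : ℝ) - ((l + k + 1 : ℕ) : ℝ)) / M = -(0 + ((k + 1 : ℕ) : ℝ) / M) := by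
          push_cast; ring
        rw [r1, r2, Fr_neg, sub_self, zero_div, Fr_zero]
        nlinarith [a1.1, a1.2, a2.1, a2.2]
    calc _ = C2 * C1 * (M : ℝ) ^ (e2 + e1) * (Real.exp (-(M * Fr ((l : ℝ) / M))) *
          Real.exp (M * (2 * Fr ((l : ℝ) / M) - 2 * Fr ((m : ℝ) / M) -
            2 * Fr (((l : ℝ) - m) / M)))) := by rw [pow_add]; ring
      _ ≤ C2 * C1 * (M : ℝ) ^ (e2 + e1) *
          ((M : ℝ) ^ ⌈4 * C3⌉₊ * Real.exp (M * Inner_E M l (min m l))) :=
        mul_le_mul_of_nonneg_left hexp (by positivity)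
      _ = B := by rw [hB, pow_add (M : ℝ) (e2 + e1)]; ring
  have b1 : ‖exp (-LL M l)‖ * ‖tt n g M l m‖ ≤ B :=
    (mul_le_mul hL hv (norm_nonneg _) (by positivity)).trans key
  have b2 : ‖deriv (fun z : ℂ => exp (-LL M z)) l‖ * ‖tt n g M l m‖ ≤ B :=
    (mul_le_mul hL' hv (norm_nonneg _) (by positivity)).trans key
  have b3 : ‖exp (-LL M l)‖ * ‖deriv (fun z => tt n g M z m) l‖ ≤ B :=
    (mul_le_mul hL hv' (norm_nonneg _) (by positivity)).trans key
  constructor
  · rw [norm_mul]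
    linarith
  · refine (norm_add_le _ _).trans ?_
    rw [norm_mul, norm_mul]
    linarith

/-- Derivative of a partial sum as a function of `v`. -/
private lemma Inner_sum_deriv (n g M l : ℕ) (hn : 2 ≤ n) (hl : l + n ≤ M + 1)
    (T : Finset ℕ) (v : ℂ) (hv : lv n M v = l) :
    HasDerivAt (fun v => ∑ m ∈ T, exp (-LL M (lv n M v)) * tt n g M (lv n M v) m)
      (M * ∑ m ∈ T, deriv (fun z => exp (-LL M z) * tt n g M z m) l) v := by
  rw [Finset.mul_sum]
  apply HasDerivAt.fun_sum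
  intro m _
  have h1 : HasDerivAt (fun z => exp (-LL M z) * tt n g M z m)
      (deriv (fun z => exp (-LL M z) * tt n g M z m) l) (lv n M v) := by
    rw [hv]
    exact ((Inner_LLd n M l hn hl).mul (Inner_tt_diff n g M m l)).hasDerivAt
  have h2 := h1.comp v (Inner_lv_hasDeriv n M v)
  rw [mul_comm]
  exact h2

private lemma Inner_sum_le (M : ℕ) (T : Finset ℕ) (hT : T ⊆ Finset.range M) (F : ℕ → ℂ) (B : ℝ)
    (hB : 0 ≤ B) (h : ∀ m ∈ T, ‖F m‖ ≤ B) : ‖∑ m ∈ T, F m‖ ≤ M * B := by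
  refine (norm_sum_le _ _).trans ((Finset.sum_le_card_nsmul _ _ _ h).trans ?_)
  rw [nsmul_eq_mul]
  apply mul_le_mul_of_nonneg_right _ hB
  have := Finset.card_le_card hT
  rw [Finset.card_range] at this
  exact_mod_cast this

private lemma Inner_lv (n M l : ℕ) (hM : 1 ≤ M) : lv n M (vl n M l : ℂ) = l := by
  have hM0 : (M : ℂ) ≠ 0 := by
    have : M ≠ 0 := by omega
    exact_mod_cast this
  unfold lv vl
  push_cast
  field_simp
  ring

private lemma Inner_vl_abs (n M l : ℕ) (hn : 2 ≤ n) (hM : 1 ≤ M) (hl : l + n ≤ M + 1) :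
    |vl n M l| ≤ 1 / 2 := by
  have hM0 : (0 : ℝ) < M := by exact_mod_cast (by omega : 0 < M)
  have hn2 : (2 : ℝ) ≤ n := by exact_mod_cast hn
  have h0 : (0 : ℝ) ≤ l := Nat.cast_nonneg l
  have h1 : (l : ℝ) + n ≤ M + 1 := by exact_mod_cast hl
  unfold vl bt
  rw [abs_le]
  constructor
  · have : 0 ≤ ((l : ℝ) + ((n : ℝ) - 1) / 2) / M := by
      apply div_nonneg _ hM0.le
      linarith
    linarith
  · have : ((l : ℝ) + ((n : ℝ) - 1) / 2) / M ≤ 1 := by
      rw [div_le_one hM0]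
      linarith
    linarith

private lemma Inner_E_end (M l m : ℕ) (hM : 0 < M) (h2 : 18 / 100 * (M : ℝ) ≤ l)
    (h3 : (l : ℝ) ≤ 82 / 100 * M) (hml : m ≤ l)
    (h : (m : ℝ) ≤ 2 / 100 * M ∨ (l : ℝ) - m ≤ 2 / 100 * M) : Inner_E M l m ≤ 35 / 100 := by
  have hM0 : (0 : ℝ) < M := by exact_mod_cast hM
  have hm0 : (0 : ℝ) ≤ m := Nat.cast_nonneg m
  have hml' : (m : ℝ) ≤ l := by exact_mod_cast hml
  have j2 : 18 / 100 ≤ (l : ℝ) / M := by rwa [le_div_iff₀ hM0]
  have j3 : (l : ℝ) / M ≤ 82 / 100 := by rwa [div_le_iff₀ hM0]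
  unfold Inner_E
  rcases h with h | h
  · have := endE ((m : ℝ) / M) ((l : ℝ) / M) (by positivity) (by rwa [div_le_iff₀ hM0]) j2 j3
    rw [← sub_div] at this
    exact this
  · have := endE (((l : ℝ) - m) / M) ((l : ℝ) / M) (div_nonneg (by linarith) hM0.le)
      (by rwa [div_le_iff₀ hM0]) j2 j3
    rw [← sub_div, sub_sub_cancel] at this
    linarith

private lemma Inner_E_mid (M l m : ℕ) (hM : 0 < M) (hl : l < M) (hml : m ≤ l) :
    Inner_E M l m ≤ EU ((l : ℝ) / M - 1 / 2) := by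
  have hM0 : (0 : ℝ) < M := by exact_mod_cast hM
  unfold Inner_E
  rcases Nat.eq_zero_or_pos l with h | h
  · have hm : m = 0 := by omega
    subst h; subst hm
    have e1 : Fr (3 / 4 + (0 - 1 / 2) / 2) = 0 := by
      have h : (3 / 4 + (0 - 1 / 2) / 2 : ℝ) = 1 / 2 := by norm_num
      rw [h, Fr_half]
    have e2 : Fr (3 / 4 - (0 - 1 / 2) / 2) = 0 := by
      have h : (3 / 4 - (0 - 1 / 2) / 2 : ℝ) = 0 + 1 := by norm_num
      rw [h, Fr_add_one, Fr_zero]
    rw [Nat.cast_zero, sub_self, zero_div, Fr_zero, EU, e1, e2]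
    norm_num
  · have hl0 : (0 : ℝ) < l := by exact_mod_cast h
    have hl1 : (l : ℝ) < M := by exact_mod_cast hl
    have := midE ((m : ℝ) / M) ((l : ℝ) / M) (by positivity) (by rwa [div_lt_one hM0])
      (by positivity) (by gcongr)
    rw [← sub_div] at this
    exact this

/-- The sum and the integral agree at the lattice points near the middle. -/
theorem inner (p : ℤ) (n g : ℕ) (hg : 1 ≤ g) (hgn : g + 1 ≤ n) : ∃ (C : ℝ) (e : ℕ), 0 < C ∧
    ∀ᶠ M : ℕ in atTop, ∀ l : ℕ, |vl n M l| ≤ 3 / 10 →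
      ‖deriv (GX p n g M) (vl n M l) - deriv (FZ p n g M) (vl n M l)‖ ≤
        C * (M : ℝ) ^ e * Real.exp (38 / 100 * M) := by
  have hn : 2 ≤ n := by omega
  obtain ⟨C1, e1, hC1, h1⟩ := Inner_term n g hg hgn
  obtain ⟨CA, hCA, hA⟩ := Inner_A_bound p n hn
  obtain ⟨Cw, hCw, hw⟩ := win_sum n g hg hgn
  obtain ⟨Cp, hCp, hp⟩ := win_path n g hg hgn
  refine ⟨5 * CA * (Cw + Cp) + 2 * CA * C1, 2 + e1, by positivity, ?_⟩
  filter_upwards [h1, hw, hp, ZZ_an n g hg hgn, eventually_ge_atTop (1000 * n)] with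
    M h1 hw hp hZ hMn l hvl
  have hMn' : 1000 * (n : ℝ) ≤ M := by exact_mod_cast hMn
  have hn2 : (2 : ℝ) ≤ n := by exact_mod_cast hn
  have hM0 : (0 : ℝ) < M := by linarith
  have hM1 : (1 : ℝ) ≤ M := by linarith
  have hMpos : 0 < M := by exact_mod_cast hM0
  -- the position of `l`
  have hl1 : 19 / 100 * (M : ℝ) ≤ l ∧ (l : ℝ) ≤ 80 / 100 * M := by
    have h := abs_le.1 hvl
    unfold vl bt at h
    have a1 : 2 / 10 ≤ ((l : ℝ) + ((n : ℝ) - 1) / 2) / M := by linarith [h.1]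
    have a2 : ((l : ℝ) + ((n : ℝ) - 1) / 2) / M ≤ 8 / 10 := by linarith [h.2]
    rw [le_div_iff₀ hM0] at a1
    rw [div_le_iff₀ hM0] at a2
    constructor <;> linarith
  have hln : l + n ≤ M + 1 := by
    have : (l : ℝ) + n ≤ M + 1 := by linarith
    exact_mod_cast this
  have hmw : (mw M : ℝ) ≤ 2 / 100 * M := by
    have := Nat.ceil_lt_add_one (show (0 : ℝ) ≤ 12 / 1000 * M by positivity)
    unfold mw
    linarith
  have hmwl : mw M ≤ l := by
    have : (mw M : ℝ) ≤ l := by linarith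
    exact_mod_cast this
  set x : ℝ := vl n M l with hx
  have hlv : lv n M (x : ℂ) = l := Inner_lv n M l hMpos
  set T := Finset.Icc (mw M) (l - mw M) with hT
  have hTs : T ⊆ Finset.range M := by
    intro m hm
    rw [hT, Finset.mem_Icc] at hm
    rw [Finset.mem_range]
    omega
  set W : ℂ → ℂ := fun v => (∑ m ∈ T, exp (-LL M (lv n M v)) * tt n g M (lv n M v) m) -
    ZZ n g M v with hW
  set O : ℂ → ℂ := fun v => ∑ m ∈ Finset.range M \ T,
    exp (-LL M (lv n M v)) * tt n g M (lv n M v) m with hO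
  -- points close to `x`
  have hball : ∀ v : ℂ, ‖v - x‖ ≤ 1 / (4 * M) → ‖lv n M v - l‖ ≤ 1 / 4 := by
    intro v hv
    have e : lv n M v - l = M * (v - x) := by
      rw [← hlv]
      unfold lv
      ring
    rw [e, norm_mul, norm_natCast]
    calc (M : ℝ) * ‖v - x‖ ≤ M * (1 / (4 * M)) := mul_le_mul_of_nonneg_left hv hM0.le
      _ = 1 / 4 := by field_simp
  have hUV : ∀ v : ℂ, ‖v - x‖ ≤ 1 / (4 * M) → v ∈ UV := by
    intro v hv
    have hr : 1 / (4 * (M : ℝ)) ≤ 1 / 100 := by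
      apply one_div_le_one_div_of_le <;> linarith
    have hre := (abs_re_le_norm (v - x)).trans (hv.trans hr)
    have him := (abs_im_le_norm (v - x)).trans (hv.trans hr)
    simp only [sub_re, ofReal_re, sub_im, ofReal_im, sub_zero] at hre him
    have a := abs_le.1 hre
    have b := abs_le.1 hvl
    constructor
    · rw [abs_lt]
      constructor <;> linarith [a.1, a.2, b.1, b.2]
    · linarith
  have hWb : ∀ v : ℂ, ‖v - x‖ ≤ 1 / (4 * M) → ‖W v‖ ≤ (Cw + Cp) * Real.exp (36 / 100 * M) := by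
    intro v hv
    have hl := hball v hv
    have a1 := hw l hvl (lv n M v) hl
    have a2 := hp l hvl (lv n M v) hl
    have e1 : (lv n M v + bt n) / M - 1 / 2 = v := by
      have : (M : ℂ) ≠ 0 := by exact_mod_cast hMpos.ne'
      unfold lv
      field_simp
      ring
    rw [e1] at a2
    have e2 : ∑ m ∈ T, exp (-LL M (lv n M v)) * tt n g M (lv n M v) m =
        ∑ m ∈ T, fl n g M (lv n M v) m := by
      apply Finset.sum_congr rfl
      intro m hm
      have hm' := hm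
      rw [hT, Finset.mem_Icc] at hm'
      exact tt_fl n g M l m hg hgn hln (by omega) (by omega) (lv n M v) (by linarith)
    have e3 : W v = ((∑ m ∈ T, fl n g M (lv n M v) m) -
        ∫ x in ((mw M : ℝ) - 1 / 2)..((l : ℝ) - mw M + 1 / 2), fl n g M (lv n M v) x) +
        ((∫ x in ((mw M : ℝ) - 1 / 2)..((l : ℝ) - mw M + 1 / 2), fl n g M (lv n M v) x) -
          ZZ n g M v) := by
      simp only [hW]
      rw [e2]
      ring
    rw [e3, add_mul]
    exact (norm_add_le _ _).trans (add_le_add a1 a2)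
  have hWd : ∀ v : ℂ, ‖v - x‖ ≤ 1 / (4 * M) → DifferentiableAt ℂ W v := by
    intro v hv
    have hl := hball v hv
    have hlre := abs_le.1 ((abs_re_le_norm _).trans hl)
    simp only [sub_re, natCast_re] at hlre
    have hLL : DifferentiableAt ℂ (LL M) (lv n M v) := by
      apply LL_differentiableAt M hMpos
      · linarith [hlre.1]
      · linarith [hlre.2]
    have hlvd := (Inner_lv_hasDeriv n M v).differentiableAt
    have h1 : DifferentiableAt ℂ (fun v => exp (-LL M (lv n M v))) v :=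
      (hLL.comp v hlvd).neg.cexp
    apply DifferentiableAt.sub _ (hZ v (hUV v hv)).differentiableAt
    apply DifferentiableAt.fun_sum
    intro m _
    exact h1.mul ((Inner_tt_diff n g M m (lv n M v)).comp v hlvd)
  have hW' : ‖deriv W x‖ ≤ (Cw + Cp) * Real.exp (36 / 100 * M) * (4 * M) := by
    have h1 : ‖deriv W x‖ ≤ (Cw + Cp) * Real.exp (36 / 100 * M) / (1 / (4 * M)) :=
      norm_deriv_le_of_forall_mem_sphere_norm_le (by positivity)
        (DifferentiableOn.diffContOnCl_ball (U := Metric.closedBall (x : ℂ) (1 / (4 * M)))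
          (fun v hv => (hWd v (by rwa [mem_closedBall_iff_norm] at hv)).differentiableWithinAt)
          subset_rfl) fun z hz => hWb z (by
          rw [mem_sphere_iff_norm] at hz
          exact hz.le)
    rwa [div_div_eq_mul_div, div_one] at h1
  have hOd : HasDerivAt O (M * ∑ m ∈ Finset.range M \ T,
      deriv (fun z => exp (-LL M z) * tt n g M z m) l) x :=
    Inner_sum_deriv n g M l hn hln _ x hlv
  -- the terms outside the window
  set B : ℝ := C1 * (M : ℝ) ^ e1 * Real.exp (35 / 100 * M) with hB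
  have hB0 : 0 ≤ B := by positivity
  have hout : ∀ m ∈ Finset.range M \ T, ‖exp (-LL M l) * tt n g M l m‖ ≤ B ∧
      ‖deriv (fun z => exp (-LL M z) * tt n g M z m) l‖ ≤ B := by
    intro m hm
    rw [Finset.mem_sdiff, Finset.mem_range, hT, Finset.mem_Icc, not_and_or, not_le, not_le] at hm
    obtain ⟨hmM, hm⟩ := hm
    have hE : Inner_E M l (min m l) ≤ 35 / 100 := by
      apply Inner_E_end M l (min m l) hMpos (by linarith [hl1.1]) (by linarith [hl1.2])
        (min_le_right _ _)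
      rcases hm with hm | hm
      · left
        have : ((min m l : ℕ) : ℝ) ≤ mw M := by
          exact_mod_cast (min_le_left m l).trans hm.le
        linarith
      · right
        have h1 : l ≤ min m l + mw M := by omega
        have : (l : ℝ) ≤ (min m l : ℕ) + mw M := by exact_mod_cast h1
        linarith
    have hexp : C1 * (M : ℝ) ^ e1 * Real.exp (M * Inner_E M l (min m l)) ≤ B := by
      apply mul_le_mul_of_nonneg_left _ (by positivity)
      apply Real.exp_le_exp.2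
      rw [mul_comm]
      exact mul_le_mul_of_nonneg_right hE hM0.le
    obtain ⟨a1, a2⟩ := h1 l m hln hmM
    exact ⟨a1.trans hexp, a2.trans hexp⟩
  have hOv : ‖O x‖ ≤ M * B := by
    simp only [hO]
    rw [hlv]
    exact Inner_sum_le M _ Finset.sdiff_subset _ B hB0 fun m hm => (hout m hm).1
  have hOv' : ‖deriv O x‖ ≤ M * (M * B) := by
    rw [hOd.deriv, norm_mul, norm_natCast]
    exact mul_le_mul_of_nonneg_left
      (Inner_sum_le M _ Finset.sdiff_subset _ B hB0 fun m hm => (hout m hm).2) hM0.le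
  -- assembly
  have hxx : ‖(x : ℂ) - x‖ ≤ 1 / (4 * M) := by simp
  have hWx := hWd x hxx
  have hAd := Inner_A_diff p n M (x : ℂ)
  have hZd := (hZ x (hUV x hxx)).differentiableAt
  have hsplit : ∀ v : ℂ, Inner_Y n g M (lv n M v) = W v + O v + ZZ n g M v := by
    intro v
    simp only [Inner_Y, hW, hO]
    rw [← Finset.sum_sdiff hTs]
    ring
  have hfin : deriv (GX p n g M) x - deriv (FZ p n g M) x =
      deriv (Inner_A p n M) x * (W x + O x) + Inner_A p n M x * (deriv W x + deriv O x) := by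
    have g1 : GX p n g M = fun v => Inner_A p n M v * (W v + O v + ZZ n g M v) := by
      rw [Inner_GX]
      funext v
      rw [hsplit]
    have d1 : HasDerivAt (fun v => Inner_A p n M v * (W v + O v + ZZ n g M v))
        (deriv (Inner_A p n M) x * (W x + O x + ZZ n g M x) +
          Inner_A p n M x * (deriv W x + deriv O x + deriv (ZZ n g M) x)) (x : ℂ) :=
      hAd.hasDerivAt.mul ((hWx.hasDerivAt.add hOd.differentiableAt.hasDerivAt).add hZd.hasDerivAt)
    have d2 : HasDerivAt (fun v => Inner_A p n M v * ZZ n g M v)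
        (deriv (Inner_A p n M) x * ZZ n g M x + Inner_A p n M x * deriv (ZZ n g M) x) (x : ℂ) :=
      hAd.hasDerivAt.mul hZd.hasDerivAt
    rw [g1, Inner_FZ, d1.deriv, d2.deriv]
    ring
  rw [hfin]
  obtain ⟨a1, a2⟩ := hA M hMpos x (hvl.trans (by norm_num))
  have hWv := hWb x hxx
  set E36 : ℝ := Real.exp (36 / 100 * M) with hE36
  have b1 : ‖W x + O x‖ ≤ (Cw + Cp) * E36 + M * B := (norm_add_le _ _).trans (add_le_add hWv hOv)
  have b2 : ‖deriv W x + deriv O x‖ ≤ (Cw + Cp) * E36 * (4 * M) + M * (M * B) :=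
    (norm_add_le _ _).trans (add_le_add hW' hOv')
  have hE36' : E36 ≤ Real.exp (38 / 100 * M) := by
    apply Real.exp_le_exp.2
    linarith
  have hE35' : Real.exp (35 / 100 * M) ≤ Real.exp (38 / 100 * M) := by
    apply Real.exp_le_exp.2
    linarith
  have hMe : (M : ℝ) ≤ (M : ℝ) ^ (2 + e1) := by
    calc (M : ℝ) = (M : ℝ) ^ 1 := (pow_one _).symm
      _ ≤ (M : ℝ) ^ (2 + e1) := pow_le_pow_right₀ hM1 (by omega)
  calc ‖deriv (Inner_A p n M) x * (W x + O x) + Inner_A p n M x * (deriv W x + deriv O x)‖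
      ≤ CA * M * ((Cw + Cp) * E36 + M * B) +
          CA * ((Cw + Cp) * E36 * (4 * M) + M * (M * B)) := by
        refine (norm_add_le _ _).trans ?_
        rw [norm_mul, norm_mul]
        exact add_le_add (mul_le_mul a2 b1 (norm_nonneg _) (by positivity))
          (mul_le_mul a1 b2 (norm_nonneg _) (by positivity))
    _ = 5 * CA * (Cw + Cp) * (M * E36) +
          2 * CA * C1 * ((M : ℝ) ^ (2 + e1) * Real.exp (35 / 100 * M)) := by
        rw [hB, pow_add]
        ring
    _ ≤ 5 * CA * (Cw + Cp) * ((M : ℝ) ^ (2 + e1) * Real.exp (38 / 100 * M)) +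
          2 * CA * C1 * ((M : ℝ) ^ (2 + e1) * Real.exp (38 / 100 * M)) := by
        gcongr
    _ = _ := by ring

/-- The trivial bound. -/
theorem farT (p : ℤ) (n g : ℕ) (hg : 1 ≤ g) (hgn : g + 1 ≤ n) : ∃ (C : ℝ) (e : ℕ), 0 < C ∧
    ∀ᶠ M : ℕ in atTop, ∀ l : ℕ, l + n ≤ M + 1 →
      ‖deriv (GX p n g M) (vl n M l)‖ ≤ C * (M : ℝ) ^ e * Real.exp (M * EU (vl n M l)) := by
  have hn : 2 ≤ n := by omega
  obtain ⟨C1, e1, hC1, h1⟩ := Inner_term n g hg hgn
  obtain ⟨CA, hCA, hA⟩ := Inner_A_bound p n hn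
  obtain ⟨C3, hC3, h3⟩ := Fr_shift (n - 1)
  refine ⟨2 * CA * C1 * 4 ^ ⌈C3⌉₊, 2 + e1 + ⌈C3⌉₊, by positivity, ?_⟩
  filter_upwards [h1, eventually_ge_atTop 2] with M h1 hM l hln
  have hM1 : (1 : ℝ) ≤ M := by exact_mod_cast (by omega : 1 ≤ M)
  have hM0 : (0 : ℝ) < M := by linarith
  have hMpos : 0 < M := by omega
  have hlM : l < M := by omega
  set x : ℝ := vl n M l with hx
  have hlv : lv n M (x : ℂ) = l := Inner_lv n M l hMpos
  -- shifting the exponent
  have hshift : Real.exp (M * EU ((l : ℝ) / M - 1 / 2)) ≤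
      4 ^ ⌈C3⌉₊ * (M : ℝ) ^ ⌈C3⌉₊ * Real.exp (M * EU x) := by
    have c1 := Inner_pow C3 (4 * M) (by omega)
    have c2 : (((4 * M : ℕ) : ℝ)) ^ ⌈C3⌉₊ = 4 ^ ⌈C3⌉₊ * (M : ℝ) ^ ⌈C3⌉₊ := by
      push_cast
      rw [mul_pow]
    rw [← c2]
    refine le_trans ?_ (mul_le_mul_of_nonneg_right c1 (Real.exp_pos _).le)
    rw [← Real.exp_add]
    apply Real.exp_le_exp.2
    have s1 := h3 (4 * M) (by omega) (3 / 4 + ((l : ℝ) / M - 1 / 2) / 2) (n - 1) le_rfl
    have s2 := h3 (4 * M) (by omega) (3 / 4 - x / 2) (n - 1) le_rfl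
    have hn1 : ((n - 1 : ℕ) : ℝ) = (n : ℝ) - 1 := by
      rw [Nat.cast_sub (by omega), Nat.cast_one]
    have r1 : 3 / 4 + ((l : ℝ) / M - 1 / 2) / 2 + ((n - 1 : ℕ) : ℝ) / ((4 * M : ℕ) : ℝ) =
        3 / 4 + x / 2 := by
      rw [hn1, hx]
      unfold vl bt
      push_cast
      field_simp
      ring
    have r2 : 3 / 4 - x / 2 + ((n - 1 : ℕ) : ℝ) / ((4 * M : ℕ) : ℝ) =
        3 / 4 - ((l : ℝ) / M - 1 / 2) / 2 := by
      rw [hn1, hx]
      unfold vl bt
      push_cast
      field_simp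
      ring
    rw [r1] at s1
    rw [r2] at s2
    have s1' := abs_le.1 s1
    have s2' := abs_le.1 s2
    have hc : ((4 * M : ℕ) : ℝ) = 4 * M := by push_cast; ring
    rw [hc] at s1' s2' ⊢
    unfold EU
    nlinarith [s1'.1, s1'.2, s2'.1, s2'.2]
  set B : ℝ := C1 * (M : ℝ) ^ e1 * (4 ^ ⌈C3⌉₊ * (M : ℝ) ^ ⌈C3⌉₊ * Real.exp (M * EU x)) with hB
  have hB0 : 0 ≤ B := by positivity
  have hterm : ∀ m ∈ Finset.range M, ‖exp (-LL M l) * tt n g M l m‖ ≤ B ∧
      ‖deriv (fun z => exp (-LL M z) * tt n g M z m) l‖ ≤ B := by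
    intro m hm
    rw [Finset.mem_range] at hm
    have hE := Inner_E_mid M l (min m l) hMpos hlM (min_le_right _ _)
    have hexp : C1 * (M : ℝ) ^ e1 * Real.exp (M * Inner_E M l (min m l)) ≤ B := by
      apply mul_le_mul_of_nonneg_left _ (by positivity)
      refine (Real.exp_le_exp.2 ?_).trans hshift
      exact mul_le_mul_of_nonneg_left hE hM0.le
    obtain ⟨a1, a2⟩ := h1 l m hln hm
    exact ⟨a1.trans hexp, a2.trans hexp⟩
  have hY : ‖Inner_Y n g M (lv n M x)‖ ≤ M * B := by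
    rw [hlv]
    exact Inner_sum_le M _ subset_rfl _ B hB0 fun m hm => (hterm m hm).1
  have hYd : HasDerivAt (fun v => Inner_Y n g M (lv n M v)) (M * ∑ m ∈ Finset.range M,
      deriv (fun z => exp (-LL M z) * tt n g M z m) l) (x : ℂ) :=
    Inner_sum_deriv n g M l hn hln _ x hlv
  have hY' : ‖(M * ∑ m ∈ Finset.range M,
      deriv (fun z => exp (-LL M z) * tt n g M z m) l : ℂ)‖ ≤ M * (M * B) := by
    rw [norm_mul, norm_natCast]
    exact mul_le_mul_of_nonneg_left
      (Inner_sum_le M _ subset_rfl _ B hB0 fun m hm => (hterm m hm).2) hM0.le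
  obtain ⟨a1, a2⟩ := hA M hMpos x (Inner_vl_abs n M l hn hMpos hln)
  have hd := (Inner_A_diff p n M (x : ℂ)).hasDerivAt.fun_mul hYd
  rw [Inner_GX, hd.deriv]
  refine (norm_add_le _ _).trans ?_
  rw [norm_mul, norm_mul]
  calc ‖deriv (Inner_A p n M) x‖ * ‖Inner_Y n g M (lv n M x)‖ + ‖Inner_A p n M x‖ *
        ‖(M * ∑ m ∈ Finset.range M, deriv (fun z => exp (-LL M z) * tt n g M z m) l : ℂ)‖
      ≤ CA * M * (M * B) + CA * (M * (M * B)) :=
        add_le_add (mul_le_mul a2 hY (norm_nonneg _) (by positivity))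
          (mul_le_mul a1 hY' (norm_nonneg _) (by positivity))
    _ = _ := by
        rw [hB, pow_add, pow_add]
        ring

end Pool.Agent.H63.TW
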