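import Pool.Agent.H63.GO.Defs
import Pool.Agent.H63.TW.FoAn
import Pool.Agent.H63.TW.Inner

/-! # The sum with the cutoff function -/

namespace Pool.Agent.H63.TW

open Pool.Agent.H63.VC Pool.Agent.H63.VC3 Pool.Agent.H63.GO Complex Filter Topology
open scoped BigOperators

/-- The lattice points. -/
private theorem RedT_lp (n M : ℕ) (hM : 0 < M) (k : Fin 1 → ℤ) :
    lp M (oT n M) k = fun _ => ((k 0 : ℝ) + bt n) / M - 1 / 2 := by
  have hM0 : (M : ℝ) ≠ 0 := by
    have : (0 : ℝ) < M := by exact_mod_cast hM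
    exact this.ne'
  funext j
  have hj : j = 0 := Subsingleton.elim _ _
  subst hj
  unfold GO.lp oT
  field_simp
  ring

private theorem RedT_lpn (n M l : ℕ) (hM : 0 < M) :
    lp M (oT n M) (fun _ => (l : ℤ)) = fun _ => vl n M l := by
  rw [RedT_lp n M hM]
  funext _
  unfold vl
  simp

/-- The reflection of the points. -/
private theorem RedT_refl (n M l : ℕ) (hM : 0 < M) (hl : l + n ≤ M + 1) :
    vl n M (M + 1 - n - l) = -vl n M l := by
  have hM0 : (M : ℝ) ≠ 0 := by
    have : (0 : ℝ) < M := by exact_mod_cast hM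
    exact this.ne'
  unfold vl bt
  have h1 : ((M + 1 - n - l : ℕ) : ℝ) = M + 1 - n - l := by
    rw [Nat.cast_sub (by omega), Nat.cast_sub (by omega)]
    push_cast
    ring
  rw [h1]
  field_simp
  ring

private theorem RedT_half (n M l : ℕ) (hn : 1 ≤ n) (hM : 0 < M) (hl : l + n ≤ M + 1) :
    |vl n M l| ≤ 1 / 2 := by
  have hM0 : (0 : ℝ) < M := by exact_mod_cast hM
  have hn' : (1 : ℝ) ≤ n := by exact_mod_cast hn
  have hl' : (l : ℝ) + n ≤ M + 1 := by exact_mod_cast hl
  have hl0 : (0 : ℝ) ≤ l := Nat.cast_nonneg l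
  unfold vl bt
  rw [abs_le]
  constructor
  · have : 0 ≤ ((l : ℝ) + ((n : ℝ) - 1) / 2) / M := by
      apply div_nonneg _ hM0.le
      linarith
    linarith
  · have : ((l : ℝ) + ((n : ℝ) - 1) / 2) / M ≤ 1 := by
      rw [div_le_one hM0]
      linarith
    linarith

/-- The derivative of the odd part. -/
private theorem RedT_FO (p : ℤ) (n g M : ℕ) (hA : AnalyticOnNhd ℂ (FZ p n g M) UV) (v : ℝ)
    (hv : |v| ≤ 3 / 10) :
    deriv (FO p n g M) (v : ℂ) = (deriv (FZ p n g M) (v : ℂ) + deriv (FZ p n g M) ((-v : ℝ) : ℂ)) / 2 := by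
  have m1 : (v : ℂ) ∈ UV := by
    unfold UV
    simp only [Set.mem_ofPred_eq, ofReal_re, ofReal_im, abs_zero]
    constructor
    · linarith
    · norm_num
  have m2 : ((-v : ℝ) : ℂ) ∈ UV := by
    unfold UV
    simp only [Set.mem_ofPred_eq, ofReal_re, ofReal_im, abs_zero, abs_neg]
    constructor
    · linarith
    · norm_num
  have d1 := (hA _ m1).differentiableAt.hasDerivAt
  have d2 := (hA _ m2).differentiableAt.hasDerivAt
  have e2 : ((-v : ℝ) : ℂ) = -(v : ℂ) := by push_cast; ring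
  rw [e2] at d2 ⊢
  have d3 : HasDerivAt (fun w : ℂ => FZ p n g M (-w)) (-deriv (FZ p n g M) (-(v : ℂ))) (v : ℂ) := by
    have h := HasDerivAt.comp (v : ℂ) d2 (hasDerivAt_neg (v : ℂ))
    have e3 : deriv (FZ p n g M) (-(v : ℂ)) * -1 = -deriv (FZ p n g M) (-(v : ℂ)) := by ring
    rw [e3] at h
    exact h
  have d4 := (d1.sub d3).div_const 2
  have e4 : FO p n g M = fun w => (FZ p n g M w - FZ p n g M (-w)) / 2 := by
    funext w
    rfl
  rw [e4]
  have d5 : HasDerivAt (fun w => (FZ p n g M w - FZ p n g M (-w)) / 2)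
      ((deriv (FZ p n g M) (v : ℂ) - -deriv (FZ p n g M) (-(v : ℂ))) / 2) (v : ℂ) := d4
  rw [d5.deriv]
  ring

/-- The lattice sum as a finite sum. -/
private theorem RedT_sum (n M : ℕ) (hn : 1 ≤ n) (hM : 0 < M) (hMn : 5 * (n + 1) ≤ M) (χ : (Fin 1 → ℝ) → ℝ)
    (hK : ∀ a, χ a ≠ 0 → a ∈ KT) (F : (Fin 1 → ℝ) → ℂ) :
    ∑' k : Fin 1 → ℤ, (χ (lp M (oT n M) k) : ℂ) * F (lp M (oT n M) k) =
      ∑ l ∈ Finset.range (M + 2 - n), (χ (fun _ => vl n M l) : ℂ) * F (fun _ => vl n M l) := by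
  classical
  have hM0 : (0 : ℝ) < M := by exact_mod_cast hM
  have hn' : (1 : ℝ) ≤ n := by exact_mod_cast hn
  have hMn' : 5 * ((n : ℝ) + 1) ≤ M := by exact_mod_cast hMn
  rw [tsum_eq_sum (s := (Finset.range (M + 2 - n)).image (fun l : ℕ => (fun _ : Fin 1 => (l : ℤ))))]
  · rw [Finset.sum_image]
    · refine Finset.sum_congr rfl fun l _ => ?_
      rw [RedT_lpn n M l hM]
    · intro a _ b _ hab
      have h : ((a : ℕ) : ℤ) = ((b : ℕ) : ℤ) := congrFun hab 0
      exact_mod_cast h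
  · intro k hk
    by_cases h0 : χ (lp M (oT n M) k) = 0
    · rw [h0]
      simp
    · exfalso
      have h1 := hK _ h0
      rw [RedT_lp n M hM] at h1
      have h2 : |((k 0 : ℝ) + bt n) / M - 1 / 2| ≤ 3 / 10 := h1
      rw [abs_le] at h2
      have h3 : 2 / 10 ≤ ((k 0 : ℝ) + bt n) / M := by linarith [h2.1]
      have h4 : ((k 0 : ℝ) + bt n) / M ≤ 8 / 10 := by linarith [h2.2]
      rw [le_div_iff₀ hM0] at h3
      rw [div_le_iff₀ hM0] at h4
      unfold bt at h3 h4
      have h5 : (0 : ℝ) ≤ (k 0 : ℝ) := by linarith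
      have h6 : (k 0 : ℝ) ≤ M + 1 - n := by linarith
      have h7 : 0 ≤ k 0 := by exact_mod_cast h5
      have h8 : k 0 + n ≤ M + 1 := by
        have : (k 0 : ℝ) + n ≤ M + 1 := by linarith
        exact_mod_cast this
      apply hk
      rw [Finset.mem_image]
      refine ⟨(k 0).toNat, ?_, ?_⟩
      · rw [Finset.mem_range]
        omega
      · funext j
        have hj : j = 0 := Subsingleton.elim _ _
        subst hj
        exact Int.toNat_of_nonneg h7

theorem redT (p : ℤ) (n g : ℕ) (hg : 1 ≤ g) (hgn : g + 1 ≤ n) (χ : (Fin 1 → ℝ) → ℝ)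
    (h0 : ∀ a, 0 ≤ χ a) (h1 : ∀ a, χ a ≤ 1)
    (he : ∀ a, ∀ j ∈ (Finset.univ : Finset (Fin 1)), χ (Function.update a j (-a j)) = χ a)
    (hs : tsupport χ ⊆ interior KT) (c4 : ℝ) (hc4 : EU (3 / 10) < c4)
    (hone : ∀ a ∈ KT, c4 ≤ EU (a 0) → χ a = 1) : ∃ (C : ℝ) (e : ℕ), 0 < C ∧
    ∀ᶠ M : ℕ in atTop,
      ‖(∑ l ∈ Finset.range (M + 2 - n), deriv (GX p n g M) (vl n M l)) -
        exp (Real.pi * I / 8 * M) * ∑' k : Fin 1 → ℤ, (χ (lp M (oT n M) k) : ℂ) *
          PhT p n g M (rc (lp M (oT n M) k))‖ ≤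
        C * (M : ℝ) ^ e * Real.exp (c4 * M) := by
  obtain ⟨C1, e1, hC1, H1⟩ := inner p n g hg hgn
  obtain ⟨C2, e2, hC2, H2⟩ := farT p n g hg hgn
  refine ⟨2 * (C1 + C2), e1 + e2 + 1, by positivity, ?_⟩
  filter_upwards [H1, H2, FO_an p n g hg hgn, eventually_ge_atTop (5 * (n + 1)),
    eventually_ge_atTop 1] with M hM1 hM2 hA hMn hM
  have hM0 : (0 : ℝ) < M := by exact_mod_cast hM
  have hM1' : (1 : ℝ) ≤ M := by exact_mod_cast hM
  have hn : 1 ≤ n := by omega
  have hK : ∀ a, χ a ≠ 0 → a ∈ KT := fun a ha =>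
    interior_subset (hs (subset_tsupport χ ha))
  -- the lattice sum
  have hS : exp (Real.pi * I / 8 * M) * ∑' k : Fin 1 → ℤ, (χ (lp M (oT n M) k) : ℂ) *
      PhT p n g M (rc (lp M (oT n M) k)) =
      ∑ l ∈ Finset.range (M + 2 - n), (χ (fun _ => vl n M l) : ℂ) *
        deriv (FO p n g M) (vl n M l) := by
    rw [RedT_sum n M hn hM hMn χ hK (fun a => PhT p n g M (rc a)), Finset.mul_sum]
    refine Finset.sum_congr rfl fun l _ => ?_
    have e : PhT p n g M (rc (fun _ => vl n M l)) =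
        exp (-(Real.pi * I / 8 * M)) * deriv (FO p n g M) (vl n M l) := rfl
    rw [e]
    have e' : exp (Real.pi * I / 8 * M) * exp (-(Real.pi * I / 8 * M)) = 1 := by
      rw [← exp_add]
      simp
    calc exp (Real.pi * I / 8 * M) * ((χ (fun _ => vl n M l) : ℂ) *
          (exp (-(Real.pi * I / 8 * M)) * deriv (FO p n g M) (vl n M l)))
        = (exp (Real.pi * I / 8 * M) * exp (-(Real.pi * I / 8 * M))) *
          ((χ (fun _ => vl n M l) : ℂ) * deriv (FO p n g M) (vl n M l)) := by ring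
      _ = _ := by rw [e', one_mul]
  -- the reflection
  have hrefl : ∑ l ∈ Finset.range (M + 2 - n), (χ (fun _ => vl n M l) : ℂ) *
      deriv (FZ p n g M) ((-vl n M l : ℝ) : ℂ) =
      ∑ l ∈ Finset.range (M + 2 - n), (χ (fun _ => vl n M l) : ℂ) *
        deriv (FZ p n g M) (vl n M l) := by
    have hχ : ∀ v : ℝ, χ (fun _ => -v) = χ (fun _ => v) := by
      intro v
      have h := he (fun _ => v) 0 (Finset.mem_univ _)
      have e : Function.update (fun _ : Fin 1 => v) 0 (-v) = fun _ => -v := by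
        funext j
        have hj : j = 0 := Subsingleton.elim _ _
        subst hj
        simp
      rw [e] at h
      exact h
    have h := Finset.sum_range_reflect (fun l => (χ (fun _ => vl n M l) : ℂ) *
        deriv (FZ p n g M) (vl n M l)) (M + 2 - n)
    rw [← h]
    refine Finset.sum_congr rfl fun l hl => ?_
    rw [Finset.mem_range] at hl
    have e : M + 2 - n - 1 - l = M + 1 - n - l := by omega
    simp only [e]
    rw [RedT_refl n M l hM (by omega), hχ]
  have hFO : ∑ l ∈ Finset.range (M + 2 - n), (χ (fun _ => vl n M l) : ℂ) *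
      deriv (FO p n g M) (vl n M l) =
      ∑ l ∈ Finset.range (M + 2 - n), (χ (fun _ => vl n M l) : ℂ) *
        deriv (FZ p n g M) (vl n M l) := by
    have h2 : ∑ l ∈ Finset.range (M + 2 - n), (χ (fun _ => vl n M l) : ℂ) *
        deriv (FO p n g M) (vl n M l) =
        (∑ l ∈ Finset.range (M + 2 - n), (χ (fun _ => vl n M l) : ℂ) *
          deriv (FZ p n g M) (vl n M l) +
        ∑ l ∈ Finset.range (M + 2 - n), (χ (fun _ => vl n M l) : ℂ) *
          deriv (FZ p n g M) ((-vl n M l : ℝ) : ℂ)) / 2 := by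
      rw [← Finset.sum_add_distrib, Finset.sum_div]
      refine Finset.sum_congr rfl fun l _ => ?_
      by_cases hz : χ (fun _ => vl n M l) = 0
      · rw [hz]
        simp
      · have h3 : |vl n M l| ≤ 3 / 10 := hK _ hz
        rw [RedT_FO p n g M hA.1 (vl n M l) h3]
        ring
    rw [h2, hrefl]
    ring
  rw [hS, hFO, ← Finset.sum_sub_distrib]
  have hexp1 : Real.exp (38 / 100 * M) ≤ Real.exp (c4 * M) := by
    rw [Real.exp_le_exp]
    have := EU_low
    nlinarith
  have hterm : ∀ l ∈ Finset.range (M + 2 - n),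
      ‖deriv (GX p n g M) (vl n M l) - (χ (fun _ => vl n M l) : ℂ) *
        deriv (FZ p n g M) (vl n M l)‖ ≤
      (C1 * (M : ℝ) ^ e1 + C2 * (M : ℝ) ^ e2) * Real.exp (c4 * M) := by
    intro l hl
    rw [Finset.mem_range] at hl
    have hln : l + n ≤ M + 1 := by omega
    have hfar := hM2 l hln
    have hp1 : 0 ≤ C1 * (M : ℝ) ^ e1 * Real.exp (c4 * M) := by positivity
    have hp2 : 0 ≤ C2 * (M : ℝ) ^ e2 * Real.exp (c4 * M) := by positivity
    -- the bound of the far terms
    have hfar' : EU (vl n M l) ≤ c4 → ‖deriv (GX p n g M) (vl n M l)‖ ≤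
        C2 * (M : ℝ) ^ e2 * Real.exp (c4 * M) := by
      intro h
      refine hfar.trans ?_
      have : Real.exp (M * EU (vl n M l)) ≤ Real.exp (c4 * M) := by
        rw [Real.exp_le_exp]
        nlinarith
      exact mul_le_mul_of_nonneg_left this (by positivity)
    rcases le_or_gt |vl n M l| (3 / 10) with hv | hv
    · have hin := hM1 l hv
      have hin' : ‖deriv (GX p n g M) (vl n M l) - deriv (FZ p n g M) (vl n M l)‖ ≤
          C1 * (M : ℝ) ^ e1 * Real.exp (c4 * M) :=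
        hin.trans (mul_le_mul_of_nonneg_left hexp1 (by positivity))
      have hsplit : deriv (GX p n g M) (vl n M l) - (χ (fun _ => vl n M l) : ℂ) *
          deriv (FZ p n g M) (vl n M l) =
          (χ (fun _ => vl n M l) : ℂ) * (deriv (GX p n g M) (vl n M l) -
            deriv (FZ p n g M) (vl n M l)) +
          ((1 - χ (fun _ => vl n M l) : ℝ) : ℂ) * deriv (GX p n g M) (vl n M l) := by
        push_cast
        ring
      have n1 : ‖(χ (fun _ => vl n M l) : ℂ) * (deriv (GX p n g M) (vl n M l) -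
          deriv (FZ p n g M) (vl n M l))‖ ≤ C1 * (M : ℝ) ^ e1 * Real.exp (c4 * M) := by
        rw [norm_mul, Complex.norm_real, Real.norm_eq_abs, abs_of_nonneg (h0 _)]
        exact (mul_le_of_le_one_left (norm_nonneg _) (h1 _)).trans hin'
      have n2 : ‖((1 - χ (fun _ => vl n M l) : ℝ) : ℂ) * deriv (GX p n g M) (vl n M l)‖ ≤
          C2 * (M : ℝ) ^ e2 * Real.exp (c4 * M) := by
        rcases le_or_gt c4 (EU (vl n M l)) with hc | hc
        · have : χ (fun _ => vl n M l) = 1 := hone (fun _ => vl n M l) hv hc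
          rw [this]
          simpa using hp2
        · rw [norm_mul, Complex.norm_real, Real.norm_eq_abs,
            abs_of_nonneg (by linarith [h1 (fun _ => vl n M l)])]
          exact (mul_le_of_le_one_left (norm_nonneg _)
            (by linarith [h0 (fun _ => vl n M l)])).trans (hfar' hc.le)
      rw [hsplit]
      refine (norm_add_le _ _).trans ?_
      linarith
    · have hz : χ (fun _ => vl n M l) = 0 := by
        by_contra hne
        have : |vl n M l| ≤ 3 / 10 := hK _ hne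
        linarith
      have hEU : EU (vl n M l) < EU (3 / 10) := by
        refine EU_anti (3 / 10) (vl n M l) ?_ (RedT_half n M l hn hM hln)
        rwa [abs_of_pos (by norm_num : (0 : ℝ) < 3 / 10)]
      rw [hz]
      simp only [ofReal_zero, zero_mul, sub_zero]
      refine (hfar' (by linarith)).trans ?_
      linarith
  refine (norm_sum_le _ _).trans ((Finset.sum_le_sum hterm).trans ?_)
  rw [Finset.sum_const, Finset.card_range, nsmul_eq_mul]
  have hcard : ((M + 2 - n : ℕ) : ℝ) ≤ 2 * M := by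
    have : M + 2 - n ≤ 2 * M := by omega
    exact_mod_cast this
  have hpow : C1 * (M : ℝ) ^ e1 + C2 * (M : ℝ) ^ e2 ≤ (C1 + C2) * (M : ℝ) ^ (e1 + e2) := by
    have p1 : (M : ℝ) ^ e1 ≤ (M : ℝ) ^ (e1 + e2) := pow_le_pow_right₀ hM1' (by omega)
    have p2 : (M : ℝ) ^ e2 ≤ (M : ℝ) ^ (e1 + e2) := pow_le_pow_right₀ hM1' (by omega)
    rw [add_mul]
    exact add_le_add (mul_le_mul_of_nonneg_left p1 hC1.le) (mul_le_mul_of_nonneg_left p2 hC2.le)
  calc ((M + 2 - n : ℕ) : ℝ) * ((C1 * (M : ℝ) ^ e1 + C2 * (M : ℝ) ^ e2) * Real.exp (c4 * M))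
      ≤ (2 * M) * (((C1 + C2) * (M : ℝ) ^ (e1 + e2)) * Real.exp (c4 * M)) := by
        gcongr
    _ = 2 * (C1 + C2) * (M : ℝ) ^ (e1 + e2 + 1) * Real.exp (c4 * M) := by
        rw [pow_succ]
        ring

end Pool.Agent.H63.TW
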