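import Pool.Agent.H63.GO.Defs
import Pool.Agent.H63.TW.Vert

/-! # The structure of the potential of the outer sum -/

namespace Pool.Agent.H63.TW

open Pool.Agent.H63.VC Pool.Agent.H63.VC3 Pool.Agent.H63.GO Complex Filter Topology
open scoped BigOperators

private theorem SdT_A (v : ℂ) : (3 / 4 + v / 2 : ℂ).re = 3 / 4 + v.re / 2 := by
  have h1 : (3 / 4 : ℂ) = ((3 / 4 : ℝ) : ℂ) := by push_cast; ring
  have h2 : v / 2 = ((1 / 2 : ℝ) : ℂ) * v := by push_cast; ring
  rw [add_re, h1, h2, ofReal_re, re_ofReal_mul]; ring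

private theorem SdT_B (v : ℂ) : (3 / 4 - v / 2 : ℂ).re = 3 / 4 - v.re / 2 := by
  have h1 : (3 / 4 : ℂ) = ((3 / 4 : ℝ) : ℂ) := by push_cast; ring
  have h2 : v / 2 = ((1 / 2 : ℝ) : ℂ) * v := by push_cast; ring
  rw [sub_re, h1, h2, ofReal_re, re_ofReal_mul]; ring

private theorem SdT_rng (v : ℂ) (h0 : |v.re| < 1 / 2) :
    0 < (3 / 4 + v / 2 : ℂ).re ∧ (3 / 4 + v / 2 : ℂ).re < 1 ∧
    0 < (3 / 4 - v / 2 : ℂ).re ∧ (3 / 4 - v / 2 : ℂ).re < 1 := by
  rw [abs_lt] at h0
  rw [SdT_A, SdT_B]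
  refine ⟨?_, ?_, ?_, ?_⟩ <;> linarith [h0.1, h0.2]

private theorem SdT_dp (v : ℂ) : HasDerivAt (fun v : ℂ => 3 / 4 + v / 2) (1 / 2) v := by
  simpa using ((hasDerivAt_id v).div_const 2).const_add (3 / 4 : ℂ)

private theorem SdT_dm (v : ℂ) : HasDerivAt (fun v : ℂ => 3 / 4 - v / 2) (-(1 / 2)) v := by
  simpa using ((hasDerivAt_id v).div_const 2).const_sub (3 / 4 : ℂ)

private theorem SdT_W0 (v : ℂ) (h0 : |v.re| < 1 / 2) : HasDerivAt W0 (LT v) v := by
  obtain ⟨h1, h2, h3, h4⟩ := SdT_rng v h0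
  have e1 := (HasDerivAt.comp v (ff_hasDerivAt _ h1 h2) (SdT_dp v)).const_mul (2 : ℂ)
  have e2 := (HasDerivAt.comp v (ff_hasDerivAt _ h3 h4) (SdT_dm v)).const_mul (2 : ℂ)
  have e3 := e1.add e2
  refine (e3.congr_deriv ?_)
  unfold LT
  ring

private theorem SdT_VU (p s : ℤ) (v : ℂ) (h0 : |v.re| < 1 / 2) :
    HasDerivAt (VU p s) (LT v + Real.pi * I * (4 * p - s) * v) v := by
  have h1 := SdT_W0 v h0
  have h2 : HasDerivAt (fun v : ℂ => 2 * Real.pi * I * (p - s / 4) * v ^ 2)
      (2 * Real.pi * I * (p - s / 4) * (2 * v)) v := by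
    simpa using ((hasDerivAt_id v).pow 2).const_mul (2 * Real.pi * I * ((p : ℂ) - s / 4))
  refine ((h1.add h2).congr_deriv ?_)
  ring

/-- The derivative of the potential. -/
theorem VT_deriv (p s : ℤ) (v : ℂ) (h0 : |v.re| < 1 / 2) :
    HasDerivAt (VT p s) (LT v + Real.pi * I * (4 * p - s) * v + 2 * Real.pi * I) v := by
  have h2 : HasDerivAt (fun v : ℂ => 2 * Real.pi * I * v) (2 * Real.pi * I) v := by
    simpa using (hasDerivAt_id v).const_mul (2 * Real.pi * I)
  exact (SdT_VU p s v h0).add h2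

private theorem SdT_cosre (w : ℂ) : (cos w).re = Real.cos w.re * Real.cosh w.im := by
  rw [Complex.cos_eq, ← ofReal_cos, ← ofReal_cosh, ← ofReal_sin, ← ofReal_sinh, ← ofReal_mul,
    ← ofReal_mul, sub_re, ofReal_re, re_ofReal_mul, I_re, mul_zero, sub_zero]

private theorem SdT_cos (v : ℂ) (h0 : |v.re| < 1 / 2) : 0 < (cos (Real.pi * v)).re := by
  have h1 : (Real.pi * v : ℂ).re = Real.pi * v.re := re_ofReal_mul _ _
  rw [SdT_cosre, h1]
  rw [abs_lt] at h0
  have hpi := Real.pi_pos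
  apply mul_pos
  · apply Real.cos_pos_of_mem_Ioo
    constructor
    · nlinarith [h0.1]
    · nlinarith [h0.2]
  · exact Real.cosh_pos _

theorem LT_deriv (v : ℂ) (h0 : |v.re| < 1 / 2) :
    HasDerivAt LT (-(Real.pi / cos (Real.pi * v))) v := by
  obtain ⟨h1, h2, h3, h4⟩ := SdT_rng v h0
  have e1 := HasDerivAt.comp v (hh_hasDerivAt _ h1 h2) (SdT_dp v)
  have e2 := HasDerivAt.comp v (hh_hasDerivAt _ h3 h4) (SdT_dm v)
  refine ((e1.sub e2).congr_deriv ?_)
  have hc : cos (Real.pi * v) ≠ 0 := by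
    intro h
    have := SdT_cos v h0
    rw [h] at this
    simp at this
  have hs : sin (Real.pi * (3 / 4 + v / 2)) * sin (Real.pi * (3 / 4 - v / 2)) =
      cos (Real.pi * v) / 2 := by
    have k1 := Complex.cos_sub (Real.pi * (3 / 4 + v / 2)) (Real.pi * (3 / 4 - v / 2))
    have k2 := Complex.cos_add (Real.pi * (3 / 4 + v / 2)) (Real.pi * (3 / 4 - v / 2))
    have k3 : (Real.pi * (3 / 4 + v / 2) - Real.pi * (3 / 4 - v / 2) : ℂ) = Real.pi * v := by ring
    have k4 : (Real.pi * (3 / 4 + v / 2) + Real.pi * (3 / 4 - v / 2) : ℂ) =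
        Real.pi / 2 + Real.pi := by ring
    rw [k3] at k1
    rw [k4, Complex.cos_add_pi, Complex.cos_pi_div_two, neg_zero] at k2
    linear_combination (-1 / 2) * k1 + (1 / 2) * k2
  have hs2 : sin (Real.pi * (3 / 4 + v / 2)) * cos (Real.pi * (3 / 4 - v / 2)) +
      cos (Real.pi * (3 / 4 + v / 2)) * sin (Real.pi * (3 / 4 - v / 2)) = -1 := by
    rw [← Complex.sin_add]
    have k4 : (Real.pi * (3 / 4 + v / 2) + Real.pi * (3 / 4 - v / 2) : ℂ) =
        Real.pi / 2 + Real.pi := by ring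
    rw [k4, Complex.sin_add_pi, Complex.sin_pi_div_two]
  have hne : sin (Real.pi * (3 / 4 + v / 2)) * sin (Real.pi * (3 / 4 - v / 2)) ≠ 0 := by
    rw [hs]
    exact div_ne_zero hc two_ne_zero
  have hn1 := left_ne_zero_of_mul hne
  have hn2 := right_ne_zero_of_mul hne
  have hc2 : cos (Real.pi * v) = 2 * (sin (Real.pi * (3 / 4 + v / 2)) *
      sin (Real.pi * (3 / 4 - v / 2))) := by rw [hs]; ring
  rw [hc2]
  simp only [Complex.cot]
  generalize sin (Real.pi * (3 / 4 + v / 2)) = s1 at *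
  generalize sin (Real.pi * (3 / 4 - v / 2)) = s2 at *
  generalize cos (Real.pi * (3 / 4 + v / 2)) = c1 at *
  generalize cos (Real.pi * (3 / 4 - v / 2)) = c2 at *
  field_simp
  linear_combination hs2

private theorem SdT_inv (v : ℂ) (h0 : |v.re| < 1 / 2) :
    (-(Real.pi / cos (Real.pi * v))).re < 0 := by
  have hc := SdT_cos v h0
  have hpi := Real.pi_pos
  have hne : cos (Real.pi * v) ≠ 0 := by
    intro h
    rw [h] at hc
    simp at hc
  rw [neg_re, div_eq_mul_inv, re_ofReal_mul, Complex.inv_re]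
  have : 0 < normSq (cos (Real.pi * v)) := normSq_pos.mpr hne
  have : 0 < Real.pi * ((cos (Real.pi * v)).re / normSq (cos (Real.pi * v))) := by positivity
  linarith

/-- Horizontal derivative of the real part. -/
private theorem SdT_horiz {f : ℂ → ℂ} {f' : ℂ} (a b : ℝ) (h : HasDerivAt f f' (a + b * I)) :
    HasDerivAt (fun t : ℝ => (f (t + b * I)).re) f'.re a := by
  have h1 : HasDerivAt (fun t : ℝ => ((t : ℂ) + b * I)) 1 a := by
    simpa using (Complex.ofRealCLM.hasDerivAt (x := a)).add_const (b * I : ℂ)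
  have h2 := HasDerivAt.comp a h h1
  have h3 := (Complex.reCLM.hasFDerivAt.comp_hasDerivAt a h2)
  refine HasDerivAt.congr_deriv (f := fun t : ℝ => (f (t + b * I)).re) h3 ?_
  simp

/-- Vertical derivative of the real part. -/
private theorem SdT_vert {f : ℂ → ℂ} {f' : ℂ} (a b : ℝ) (h : HasDerivAt f f' (a + b * I)) :
    HasDerivAt (fun t : ℝ => (f (a + t * I)).re) (-f'.im) b := by
  have h1 : HasDerivAt (fun t : ℝ => ((a : ℂ) + t * I)) I b := by
    simpa using ((Complex.ofRealCLM.hasDerivAt (x := b)).mul_const I).const_add (a : ℂ)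
  have h2 := HasDerivAt.comp b h h1
  have h3 := (Complex.reCLM.hasFDerivAt.comp_hasDerivAt b h2)
  refine HasDerivAt.congr_deriv (f := fun t : ℝ => (f (a + t * I)).re) h3 ?_
  simp

private theorem SdT_vertim {f : ℂ → ℂ} {f' : ℂ} (a b : ℝ) (h : HasDerivAt f f' (a + b * I)) :
    HasDerivAt (fun t : ℝ => (f (a + t * I)).im) f'.re b := by
  have h1 : HasDerivAt (fun t : ℝ => ((a : ℂ) + t * I)) I b := by
    simpa using ((Complex.ofRealCLM.hasDerivAt (x := b)).mul_const I).const_add (a : ℂ)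
  have h2 := HasDerivAt.comp b h h1
  have h3 := (Complex.imCLM.hasFDerivAt.comp_hasDerivAt b h2)
  refine HasDerivAt.congr_deriv (f := fun t : ℝ => (f (a + t * I)).im) h3 ?_
  simp

private theorem SdT_re (a b : ℝ) : ((a : ℂ) + b * I).re = a := by simp
private theorem SdT_im (a b : ℝ) : ((a : ℂ) + b * I).im = b := by simp

/-- The second derivative has negative real part. -/
private theorem SdT_dd (p s : ℤ) (v : ℂ) (h0 : |v.re| < 1 / 2) :
    HasDerivAt (fun v => LT v + Real.pi * I * (4 * p - s) * v + 2 * Real.pi * I)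
      (-(Real.pi / cos (Real.pi * v)) + Real.pi * I * (4 * p - s)) v := by
  have h2 : HasDerivAt (fun v : ℂ => Real.pi * I * (4 * p - s) * v)
      (Real.pi * I * (4 * p - s)) v := by
    simpa using (hasDerivAt_id v).const_mul (Real.pi * I * (4 * (p : ℂ) - s))
  exact ((LT_deriv v h0).add h2).add_const _

private theorem SdT_ddre (p s : ℤ) (v : ℂ) (h0 : |v.re| < 1 / 2) :
    (-(Real.pi / cos (Real.pi * v)) + Real.pi * I * (4 * p - s)).re < 0 := by
  have h1 : (Real.pi * I * (4 * (p : ℂ) - s)) = ((Real.pi * (4 * p - s) : ℝ) : ℂ) * I := by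
    push_cast; ring
  rw [add_re, h1, re_ofReal_mul, I_re, mul_zero, add_zero]
  exact SdT_inv v h0

/-- A function with decreasing derivative vanishing at `c` has its maximum at `c`. -/
private theorem SdT_max (f f' : ℝ → ℝ) (c a l u : ℝ) (hc : c ∈ Set.Ioo l u) (ha : a ∈ Set.Ioo l u)
    (hd : ∀ x ∈ Set.Ioo l u, HasDerivAt f (f' x) x)
    (hanti : AntitoneOn f' (Set.Ioo l u)) (h0 : f' c = 0) : f a ≤ f c := by
  rcases lt_trichotomy a c with h | h | h
  · obtain ⟨ξ, hξ, he⟩ := exists_hasDerivAt_eq_slope f f' h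
      (fun x hx => (hd x ⟨lt_of_lt_of_le ha.1 hx.1, lt_of_le_of_lt hx.2 hc.2⟩).continuousAt.continuousWithinAt)
      (fun x hx => hd x ⟨ha.1.trans hx.1, hx.2.trans hc.2⟩)
    have h1 : f' c ≤ f' ξ := hanti ⟨ha.1.trans hξ.1, hξ.2.trans hc.2⟩ hc hξ.2.le
    rw [h0, he] at h1
    have h2 : 0 < c - a := by linarith
    have h3 := mul_nonneg h1 h2.le
    rw [div_mul_cancel₀ _ h2.ne'] at h3
    linarith
  · rw [h]
  · obtain ⟨ξ, hξ, he⟩ := exists_hasDerivAt_eq_slope f f' h
      (fun x hx => (hd x ⟨lt_of_lt_of_le hc.1 hx.1, lt_of_le_of_lt hx.2 ha.2⟩).continuousAt.continuousWithinAt)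
      (fun x hx => hd x ⟨hc.1.trans hx.1, hx.2.trans ha.2⟩)
    have h1 : f' ξ ≤ f' c := hanti hc ⟨hc.1.trans hξ.1, hξ.2.trans ha.2⟩ hξ.1.le
    rw [h0, he] at h1
    have h2 : 0 < a - c := by linarith
    have h3 := mul_nonpos_of_nonpos_of_nonneg h1 h2.le
    rw [div_mul_cancel₀ _ h2.ne'] at h3
    linarith

private theorem SdT_EU (x : ℝ) (h : |x| < 1 / 2) : (W0 x).re = EU x := by
  rw [abs_lt] at h
  unfold W0 EU
  have h1 : (3 / 4 + (x : ℂ) / 2) = ((3 / 4 + x / 2 : ℝ) : ℂ) := by push_cast; ring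
  have h2 : (3 / 4 - (x : ℂ) / 2) = ((3 / 4 - x / 2 : ℝ) : ℂ) := by push_cast; ring
  rw [h1, h2, ff_real _ (by linarith [h.1]) (by linarith [h.2]),
    ff_real _ (by linarith [h.2]) (by linarith [h.1])]
  simp

private theorem SdT_VUre (p s : ℤ) (x : ℝ) (h : |x| < 1 / 2) : (VU p s x).re = EU x := by
  unfold VU
  have h1 : (2 * Real.pi * I * ((p : ℂ) - s / 4) * (x : ℂ) ^ 2) =
      ((2 * Real.pi * (p - s / 4) * x ^ 2 : ℝ) : ℂ) * I := by push_cast; ring
  rw [add_re, h1, re_ofReal_mul, I_re, mul_zero, add_zero, SdT_EU x h]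

private theorem SdT_VTre (p s : ℤ) (x : ℝ) (h : |x| < 1 / 2) : (VT p s x).re = EU x := by
  unfold VT
  have h1 : (2 * Real.pi * I * (x : ℂ)) = ((2 * Real.pi * x : ℝ) : ℂ) * I := by push_cast; ring
  rw [add_re, h1, re_ofReal_mul, I_re, mul_zero, add_zero, SdT_VUre p s x h]

private theorem SdT_N (p s : ℤ) (hp : 2 ≤ |p|) (hs : |s| = 1) : 7 ≤ |(4 * p - s : ℝ)| := by
  have h1 : 7 ≤ |4 * p - s| := by
    rcases abs_cases p with h | h <;> rcases abs_cases s with h' | h' <;>
      rcases abs_cases (4 * p - s) with h'' | h'' <;> omega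
  have h2 : ((7 : ℤ) : ℝ) ≤ ((|4 * p - s| : ℤ) : ℝ) := by exact_mod_cast h1
  rw [Int.cast_abs] at h2
  push_cast at h2
  exact h2

private theorem SdT_vre (p s : ℤ) (hp : 2 ≤ |p|) (hs : |s| = 1) (v : ℂ) (hc : CritT p s v) :
    |v.re| < 2 / 7 := by
  have hN := SdT_N p s hp hs
  have := hc.re_lt
  by_contra hcon
  rw [not_lt] at hcon
  have : 2 / 7 * 7 ≤ |v.re| * |(4 * p - s : ℝ)| := by
    apply mul_le_mul hcon hN (by norm_num) (abs_nonneg _)
  linarith

/-- The lower bound of the critical value. -/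
theorem crit_low (p s : ℤ) (hp : 2 ≤ |p|) (hs : |s| = 1) (v : ℂ) (hc : CritT p s v) :
    EU (3 / 10) < (VT p s v).re := by
  have hpi := Real.pi_pos
  have hN := SdT_N p s hp hs
  set N : ℝ := (4 * p - s : ℝ) with hNdef
  have hNpos : 0 < |N| := by linarith
  have hN0 : N ≠ 0 := abs_pos.mp hNpos
  have hvre : |v.re| < 2 / 7 := SdT_vre p s hp hs v hc
  set a0 : ℝ := -2 / N with ha0
  have ha0' : |a0| ≤ 2 / 7 := by
    rw [ha0, abs_div, abs_neg, abs_two, div_le_div_iff₀ hNpos (by norm_num)]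
    linarith
  set b0 : ℝ := v.im with hb0
  have hv : ((v.re : ℝ) : ℂ) + ((v.im : ℝ) : ℂ) * I = v := re_add_im v
  have hI : ∀ x : ℝ, x ∈ Set.Ioo (-(1 / 2) : ℝ) (1 / 2) → |x| < 1 / 2 := fun x hx =>
    abs_lt.mpr ⟨hx.1, hx.2⟩
  -- horizontal step
  have step1 : (VT p s (a0 + b0 * I)).re ≤ (VT p s v).re := by
    have h := SdT_max (fun t : ℝ => (VT p s (t + b0 * I)).re)
      (fun t : ℝ => (LT (t + b0 * I) + Real.pi * I * (4 * p - s) * (t + b0 * I) +
        2 * Real.pi * I).re) v.re a0 (-(1 / 2)) (1 / 2)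
      (by rw [abs_lt] at hvre; constructor <;> linarith [hvre.1, hvre.2])
      (by rw [abs_le] at ha0'; constructor <;> linarith [ha0'.1, ha0'.2])
      (fun x hx => SdT_horiz x b0 (VT_deriv p s _ (by rw [SdT_re]; exact hI x hx)))
      (by
        apply antitoneOn_of_hasDerivWithinAt_nonpos (convex_Ioo _ _)
          (f' := fun t : ℝ => (-(Real.pi / cos (Real.pi * (t + b0 * I))) +
            Real.pi * I * (4 * p - s)).re)
        · intro x hx
          exact (SdT_horiz x b0 (SdT_dd p s _ (by rw [SdT_re]; exact hI x hx))).continuousAt.continuousWithinAt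
        · intro x hx
          rw [interior_Ioo] at hx
          exact (SdT_horiz x b0 (SdT_dd p s _ (by rw [SdT_re]; exact hI x hx))).hasDerivWithinAt
        · intro x hx
          rw [interior_Ioo] at hx
          exact (SdT_ddre p s _ (by rw [SdT_re]; exact hI x hx)).le)
      (by
        show (LT ((v.re : ℂ) + b0 * I) + Real.pi * I * (4 * p - s) * ((v.re : ℂ) + b0 * I) +
          2 * Real.pi * I).re = 0
        rw [hb0, hv, hc.eq, zero_re])
    have h' : (VT p s ((a0 : ℂ) + b0 * I)).re ≤ (VT p s ((v.re : ℂ) + b0 * I)).re := h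
    rw [hb0, hv] at h'
    exact h'
  -- vertical step
  have step2 : (VT p s a0).re ≤ (VT p s (a0 + b0 * I)).re := by
    have hre : ∀ t : ℝ, |((a0 : ℂ) + t * I).re| < 1 / 2 := fun t => by
      rw [SdT_re]; linarith
    have h := SdT_max (fun t : ℝ => -(VT p s (a0 + t * I)).re)
      (fun t : ℝ => (LT (a0 + t * I) + Real.pi * I * (4 * p - s) * (a0 + t * I) +
        2 * Real.pi * I).im) 0 b0 (-1) 1
      (by constructor <;> norm_num)
      (by constructor <;> linarith [hc.im_pos, hc.im_le])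
      (fun x _ => by
        have := (SdT_vert a0 x (VT_deriv p s _ (hre x))).neg
        rw [neg_neg] at this
        exact this)
      (by
        apply antitoneOn_of_hasDerivWithinAt_nonpos (convex_Ioo _ _)
          (f' := fun t : ℝ => (-(Real.pi / cos (Real.pi * (a0 + t * I))) +
            Real.pi * I * (4 * p - s)).re)
        · intro x hx
          exact (SdT_vertim a0 x (SdT_dd p s _ (hre x))).continuousAt.continuousWithinAt
        · intro x hx
          exact (SdT_vertim a0 x (SdT_dd p s _ (hre x))).hasDerivWithinAt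
        · intro x hx
          exact (SdT_ddre p s _ (hre x)).le)
      (by
        show (LT ((a0 : ℂ) + (0 : ℝ) * I) + Real.pi * I * (4 * p - s) * ((a0 : ℂ) + (0 : ℝ) * I) +
          2 * Real.pi * I).im = 0
        have e1 : ((a0 : ℂ) + (0 : ℝ) * I) = (a0 : ℂ) := by simp
        rw [e1]
        have e2 : (LT (a0 : ℂ)).im = 0 := by
          unfold LT
          rw [abs_le] at ha0'
          have h1 : (3 / 4 + (a0 : ℂ) / 2) = ((3 / 4 + a0 / 2 : ℝ) : ℂ) := by push_cast; ring
          have h2 : (3 / 4 - (a0 : ℂ) / 2) = ((3 / 4 - a0 / 2 : ℝ) : ℂ) := by push_cast; ring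
          rw [h1, h2, hh_real _ (by linarith [ha0'.1]) (by linarith [ha0'.2]),
            hh_real _ (by linarith [ha0'.2]) (by linarith [ha0'.1])]
          simp
        have e3 : (Real.pi * I * (4 * (p : ℂ) - s) * (a0 : ℂ)) =
            ((Real.pi * (N * a0) : ℝ) : ℂ) * I := by
          rw [hNdef]; push_cast; ring
        have e4 : (2 * Real.pi * I : ℂ) = ((2 * Real.pi : ℝ) : ℂ) * I := by push_cast; ring
        rw [add_im, add_im, e2, e3, e4, im_ofReal_mul, im_ofReal_mul, I_im]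
        have e5 : N * a0 = -2 := by rw [ha0]; field_simp
        rw [e5]; ring)
    have h' : -(VT p s ((a0 : ℂ) + b0 * I)).re ≤ -(VT p s ((a0 : ℂ) + (0 : ℝ) * I)).re := h
    have e1 : ((a0 : ℂ) + (0 : ℝ) * I) = (a0 : ℂ) := by simp
    rw [e1] at h'
    linarith
  have step3 : (VT p s a0).re = EU a0 := SdT_VTre p s a0 (by linarith)
  have step4 : EU (3 / 10) < EU a0 := EU_anti a0 (3 / 10) (by
    rw [abs_of_pos (by norm_num : (0 : ℝ) < 3 / 10)]; linarith) (by
    rw [abs_of_pos (by norm_num : (0 : ℝ) < 3 / 10)]; norm_num)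
  linarith

private theorem SdT_W0even (v : ℂ) : W0 (-v) = W0 v := by
  unfold W0
  have h1 : (3 / 4 + -v / 2 : ℂ) = 3 / 4 - v / 2 := by ring
  have h2 : (3 / 4 - -v / 2 : ℂ) = 3 / 4 + v / 2 := by ring
  rw [h1, h2]
  ring

private theorem SdT_VUeven (p s : ℤ) (v : ℂ) : VU p s (-v) = VU p s v := by
  unfold VU
  rw [SdT_W0even]
  ring

private theorem SdT_UTopen : IsOpen UT := by
  have h1 : Continuous (fun z : Fin 1 → ℂ => |(z 0).re|) :=
    continuous_abs.comp (Complex.continuous_re.comp (continuous_apply 0))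
  have h2 : Continuous (fun z : Fin 1 → ℂ => |(z 0).im|) :=
    continuous_abs.comp (Complex.continuous_im.comp (continuous_apply 0))
  exact (isOpen_lt h1 continuous_const).inter (isOpen_lt h2 continuous_const)

private theorem SdT_UThalf {z : Fin 1 → ℂ} (hz : z ∈ UT) : |(z 0).re| < 1 / 2 := by
  have := hz.1
  linarith

private theorem SdT_proj (z : Fin 1 → ℂ) :
    HasFDerivAt (fun z : Fin 1 → ℂ => z 0) (ContinuousLinearMap.proj (R := ℂ) 0 :
      (Fin 1 → ℂ) →L[ℂ] ℂ) z :=
  (ContinuousLinearMap.proj (R := ℂ) 0 : (Fin 1 → ℂ) →L[ℂ] ℂ).hasFDerivAt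

private theorem SdT_fd {f : ℂ → ℂ} {f' : ℂ} {z : Fin 1 → ℂ} (h : HasDerivAt f f' (z 0))
    (ξ : Fin 1 → ℂ) : fderiv ℂ (fun z : Fin 1 → ℂ => f (z 0)) z ξ = f' * ξ 0 := by
  have h1 := HasDerivAt.comp_hasFDerivAt z h (SdT_proj z)
  have h2 : fderiv ℂ (fun z : Fin 1 → ℂ => f (z 0)) z = f' • (ContinuousLinearMap.proj (R := ℂ) 0 :
      (Fin 1 → ℂ) →L[ℂ] ℂ) := h1.fderiv
  rw [h2]
  rfl

private theorem SdT_D2 (p : ℤ) (z : Fin 1 → ℂ) (hz : z ∈ UT) (ξ : Fin 1 → ℂ) :
    D2 (V0T p) z ξ = (-(Real.pi / cos (Real.pi * z 0)) + Real.pi * I * (4 * p - (1 : ℤ))) *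
      ξ 0 * ξ 0 := by
  unfold D2
  have hev : (fun w => fderiv ℂ (V0T p) w ξ) =ᶠ[𝓝 z]
      (fun w : Fin 1 → ℂ => (LT (w 0) + Real.pi * I * (4 * p - (1 : ℤ)) * (w 0)) * ξ 0) := by
    filter_upwards [SdT_UTopen.mem_nhds hz] with w hw
    exact SdT_fd (SdT_VU p 1 (w 0) (SdT_UThalf hw)) ξ
  rw [hev.fderiv_eq]
  have h2 : HasDerivAt (fun v : ℂ => (LT v + Real.pi * I * (4 * p - (1 : ℤ)) * v) * ξ 0)
      ((-(Real.pi / cos (Real.pi * z 0)) + Real.pi * I * (4 * p - (1 : ℤ))) * ξ 0) (z 0) := by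
    have h3 : HasDerivAt (fun v : ℂ => Real.pi * I * (4 * p - (1 : ℤ)) * v)
        (Real.pi * I * (4 * p - (1 : ℤ))) (z 0) := by
      simpa using (hasDerivAt_id (z 0)).const_mul (Real.pi * I * (4 * (p : ℂ) - (1 : ℤ)))
    exact ((LT_deriv (z 0) (SdT_UThalf hz)).add h3).mul_const _
  exact SdT_fd h2 ξ

private theorem SdT_upd {α : Type} (z : Fin 1 → α) (j : Fin 1) (x : α) :
    Function.update z j x 0 = x := by
  have : j = 0 := Subsingleton.elim _ _
  subst this
  simp

private theorem SdT_KT : KT = Metric.closedBall (0 : Fin 1 → ℝ) (3 / 10) := by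
  ext a
  rw [Metric.mem_closedBall, dist_zero_right, pi_norm_le_iff_of_nonneg (by norm_num)]
  constructor
  · intro h i
    have : i = 0 := Subsingleton.elim _ _
    subst this
    exact h
  · intro h
    exact h 0

private theorem SdT_BT : BT = Metric.closedBall (0 : Fin 1 → ℝ) (6 / 100) := by
  ext a
  rw [Metric.mem_closedBall, dist_zero_right, pi_norm_le_iff_of_nonneg (by norm_num)]
  constructor
  · intro h i
    have : i = 0 := Subsingleton.elim _ _
    subst this
    exact h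
  · intro h
    exact h 0

private theorem SdT_int (a : Fin 1 → ℝ) (h : |a 0| < 3 / 10) : a ∈ interior KT := by
  rw [SdT_KT]
  apply Metric.ball_subset_interior_closedBall
  rw [Metric.mem_ball, dist_zero_right, pi_norm_lt_iff (by norm_num)]
  intro i
  have : i = 0 := Subsingleton.elim _ _
  subst this
  exact h

theorem sdatT (p : ℤ) (hp : 2 ≤ |p|) (v : ℂ) (hc : CritT p 1 v) :
    SData (Finset.univ : Finset (Fin 1)) UT (V0T p) KT BT (fun a => EU (a 0))
      (fun _ => v.re) (fun _ => v.im) (VT p 1 v).re (EU (3 / 10)) := by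
  have hvre : |v.re| < 2 / 7 := SdT_vre p 1 hp (by norm_num) v hc
  have hcp : ∀ (a b : Fin 1 → ℝ) (j : Fin 1), (cp a b j).re = a j ∧ (cp a b j).im = b j :=
    fun a b j => by simp [cp]
  have hsub : ∀ a ∈ KT, ∀ b ∈ BT, cp a b ∈ UT := by
    intro a ha b hb
    have h1 : |a 0| ≤ 3 / 10 := ha
    have h2 : |b 0| ≤ 6 / 100 := hb
    refine ⟨?_, ?_⟩
    · rw [(hcp a b 0).1]; linarith
    · rw [(hcp a b 0).2]; linarith
  have hcv : cp (fun _ : Fin 1 => v.re) (fun _ => v.im) = fun _ => v := by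
    funext j
    exact re_add_im v
  have hVm : ∀ z : Fin 1 → ℂ, Vm (Finset.univ : Finset (Fin 1)) (V0T p) z = VT p 1 (z 0) := by
    intro z
    unfold Vm V0T VT
    simp
  exact
    { U_open := SdT_UTopen
      V_an := by
        have h1 : AnalyticOnNhd ℂ (VU p 1) {v : ℂ | |v.re| < 1 / 2} := by
          apply DifferentiableOn.analyticOnNhd
          · intro w hw
            exact (SdT_VU p 1 w hw).differentiableAt.differentiableWithinAt
          · exact isOpen_lt (continuous_abs.comp Complex.continuous_re) continuous_const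
        intro z hz
        have h2 : AnalyticAt ℂ (fun z : Fin 1 → ℂ => z 0) z :=
          (ContinuousLinearMap.proj (R := ℂ) 0 : (Fin 1 → ℂ) →L[ℂ] ℂ).analyticAt z
        exact AnalyticAt.comp (h1 (z 0) (SdT_UThalf hz)) h2
      K_cpt := by rw [SdT_KT]; exact isCompact_closedBall _ _
      K_cvx := by rw [SdT_KT]; exact convex_closedBall _ _
      B_cpt := by rw [SdT_BT]; exact isCompact_closedBall _ _
      B_cvx := by rw [SdT_BT]; exact convex_closedBall _ _
      B_zero := by rw [SdT_BT]; exact Metric.closedBall_mem_nhds _ (by norm_num)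
      sub := hsub
      K_even := by
        intro a ha j _
        have hj : j = 0 := Subsingleton.elim _ _
        subst hj
        show |Function.update a 0 (-a 0) 0| ≤ 3 / 10
        rw [SdT_upd, abs_neg]
        exact ha
      B_even := by
        intro a ha j _
        have hj : j = 0 := Subsingleton.elim _ _
        subst hj
        show |Function.update a 0 (-a 0) 0| ≤ 6 / 100
        rw [SdT_upd, abs_neg]
        exact ha
      V_even := by
        intro z hz j _
        have hj : j = 0 := Subsingleton.elim _ _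
        subst hj
        refine ⟨⟨?_, ?_⟩, ?_⟩
        · rw [SdT_upd, neg_re, abs_neg]; exact hz.1
        · rw [SdT_upd, neg_im, abs_neg]; exact hz.2
        · unfold V0T
          rw [SdT_upd, SdT_VUeven]
      E_cont := EU_cont.comp (continuous_apply 0)
      E_eq := by
        intro a ha
        have h1 : |a 0| ≤ 3 / 10 := ha
        have h2 : cp a 0 0 = ((a 0 : ℝ) : ℂ) := by simp [cp]
        unfold V0T
        rw [h2, SdT_VUre p 1 (a 0) (by linarith)]
      E_even := by
        intro a j _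
        have hj : j = 0 := Subsingleton.elim _ _
        subst hj
        show EU (Function.update a 0 (-a 0) 0) = EU (a 0)
        rw [SdT_upd, EU_even]
      E_bdy := by
        intro a ha hn
        have h1 : |a 0| ≤ 3 / 10 := ha
        have h2 : |a 0| = 3 / 10 := by
          rcases h1.lt_or_eq with h | h
          · exact absurd (SdT_int a h) hn
          · exact h
        show EU (a 0) ≤ EU (3 / 10)
        rcases abs_eq (by norm_num : (0 : ℝ) ≤ 3 / 10) |>.mp h2 with h | h
        · rw [h]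
        · rw [h, EU_even]
      neg := by
        intro a ha b hb ξ hξ
        have hU := hsub a ha b hb
        rw [SdT_D2 p _ hU]
        have hξ0 : ξ 0 ≠ 0 := by
          intro h
          apply hξ
          funext j
          have hj : j = 0 := Subsingleton.elim _ _
          subst hj
          exact h
        have e1 : (rc ξ 0) = ((ξ 0 : ℝ) : ℂ) := rfl
        have e2 : (-(Real.pi / cos (Real.pi * cp a b 0)) + Real.pi * I * (4 * p - (1 : ℤ))) *
            rc ξ 0 * rc ξ 0 = ((ξ 0 ^ 2 : ℝ) : ℂ) *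
            (-(Real.pi / cos (Real.pi * cp a b 0)) + Real.pi * I * (4 * p - (1 : ℤ))) := by
          rw [e1]; push_cast; ring
        rw [e2, re_ofReal_mul]
        have h1 := SdT_ddre p 1 (cp a b 0) (SdT_UThalf hU)
        have h2 : 0 < ξ 0 ^ 2 := by positivity
        exact mul_neg_of_pos_of_neg h2 h1
      ac_mem := SdT_int _ (by
        show |v.re| < 3 / 10
        linarith)
      bc_mem := by
        show |v.im| ≤ 6 / 100
        rw [abs_of_pos hc.im_pos]
        linarith [hc.im_le]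
      bc_pos := fun _ _ => hc.im_pos
      gradz := by
        intro ξ
        rw [hcv]
        have h1 : Vm (Finset.univ : Finset (Fin 1)) (V0T p) = fun z => VT p 1 (z 0) :=
          funext hVm
        rw [h1]
        have h2 := VT_deriv p 1 v (by linarith)
        have h3 := SdT_fd (z := fun _ => v) h2 (rc ξ)
        rw [h3, hc.eq, zero_mul]
      crit := by rw [hcv, hVm]
      c2_lt := crit_low p 1 hp (by norm_num) v hc
      single := fun j hj => absurd (Finset.mem_univ j) hj }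

end Pool.Agent.H63.TW
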