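import Pool.Agent.H63.GO.Master
import Pool.Agent.H63.GO.Struct
import Pool.Agent.H63.TW.AdT
import Pool.Agent.H63.TW.Exact
import Pool.Agent.H63.TW.RedT
import Pool.Agent.H63.TW.SdT
import Pool.Agent.H63.VC3.JNlimC

/-! # The asymptotics of the invariants of the twist knots -/

namespace Pool.Agent.H63.TW

open Pool.Agent.H63.VC Pool.Agent.H63.VC3 Pool.Agent.H63.GO Complex Filter Topology
open scoped BigOperators

private theorem JLimT_err (C s : ℝ) (D : ℕ) (hs : 0 < s) :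
    Tendsto (fun M : ℕ => C * (M : ℝ) ^ D * Real.exp (-s * M)) atTop (𝓝 0) := by
  have h1 := (tendsto_rpow_mul_exp_neg_mul_atTop_nhds_zero D s hs).comp
    tendsto_natCast_atTop_atTop
  have h2 := h1.const_mul C
  rw [mul_zero] at h2
  refine h2.congr fun M => ?_
  simp only [Function.comp_apply, Real.rpow_natCast]
  ring

private theorem JLimT_inv : Tendsto (fun M : ℕ => (1 : ℂ) / M) atTop (𝓝 0) := by
  have h3 := tendsto_one_div_atTop_nhds_zero_nat (𝕜 := ℝ)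
  have h4 := (Complex.continuous_ofReal.tendsto 0).comp h3
  rw [ofReal_zero] at h4
  refine h4.congr fun M => ?_
  simp

/-- The phase of the last coefficient. -/
private theorem JLimT_Th (n M : ℕ) (hM : 0 < M) (hnM : n ≤ M) :
    (starRingEnd ℂ) (Th n M (M + 1 - n)) = -I * exp (Real.pi * I * (n / 2)) *
      exp (-(Real.pi * I * (n * (n - 1)) / 2) * (1 / M)) := by
  obtain ⟨k, hk⟩ : ∃ k, k = M + 1 - n := ⟨_, rfl⟩
  have hkc : (k : ℂ) = M + 1 - n := by
    rw [hk, Nat.cast_sub (by omega)]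
    push_cast
    ring
  have hM0 : (M : ℂ) ≠ 0 := by exact_mod_cast hM.ne'
  have e1 : n + k + M = 2 * M + 1 := by omega
  rw [← hk]
  unfold Th
  rw [e1, map_mul, map_mul, map_mul, map_pow, map_pow, ← exp_conj]
  have e2 : (starRingEnd ℂ) (-(Real.pi * I / M) * (k * (n - 1) + k * (k + 1) / 2)) =
      (Real.pi * I / M) * (k * (n - 1) + k * (k + 1) / 2) := by
    simp only [map_mul, map_add, map_sub, map_neg, map_div₀, conj_I, conj_ofReal, map_natCast,
      map_one, map_ofNat]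
    ring
  have e3 : (-1 : ℂ) ^ (2 * M + 1) = -1 := by
    rw [pow_succ, pow_mul]
    norm_num
  have e4 : (starRingEnd ℂ) (-I) = I := by simp
  have e5 : (starRingEnd ℂ) (-1 : ℂ) = -1 := by simp
  rw [e2, e5, e3, e4, conj_I, TermsA_negI k]
  have e6 : ∀ X Y Z W : ℂ, X + Y = Z + W →
      -1 * I * exp X * exp Y = -I * exp Z * exp W := by
    intro X Y Z W h
    have : exp X * exp Y = exp Z * exp W := by rw [← exp_add, ← exp_add, h]
    linear_combination (-I) * this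
  apply e6
  rw [hkc]
  field_simp
  ring

private theorem JLimT_C0 (n g : ℕ) :
    Tendsto (fun M : ℕ => C0 n g M / (M : ℂ) ^ 3) atTop
      (𝓝 (-I * exp (Real.pi * I * (n / 2)))) := by
  have h1 := ((JLimT_inv.const_mul (-(Real.pi * I * (n * (n - 1)) / 2))).cexp).const_mul
    (-I * exp (Real.pi * I * (n / 2)))
  have h2 := (JLimT_inv.const_mul (Real.pi * I * (-(((n : ℂ) - g - 1) * (g - 1))))).cexp
  have h3 := h1.mul h2
  rw [mul_zero, mul_zero, exp_zero, mul_one, mul_one] at h3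
  refine h3.congr' ?_
  filter_upwards [eventually_gt_atTop 0, eventually_ge_atTop n] with M hM hMn
  have hM0 : (M : ℂ) ^ 3 ≠ 0 := pow_ne_zero _ (by exact_mod_cast hM.ne')
  unfold C0 qp
  rw [JLimT_Th n M hM hMn, mul_one_div (Real.pi * I * (-(((n : ℂ) - g - 1) * (g - 1)))),
    eq_div_iff hM0]
  ring

/-- The denominators. -/
private theorem JLimT_Dg (n g : ℕ) (hn : 2 ≤ n) (hg : 1 ≤ g) (hgn : g ≤ n - 1) :
    ∃ c : ℂ, c ≠ 0 ∧ Tendsto (fun M : ℕ => ((Dg n g M : ℂ) *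
      (M : ℂ) ^ (2 * n - 4))⁻¹) atTop (𝓝 c) := by
  have hDlim : Tendsto (fun M : ℕ => Dg n g M * (M : ℝ) ^ (2 * n - 4)) atTop
      (𝓝 (((2 * Real.pi) ^ (g - 1) * (Nat.factorial (g - 1) : ℝ)) *
        ((2 * Real.pi) ^ (n - g - 1) * (Nat.factorial (n - g - 1) : ℝ)) *
        ((2 * Real.pi) ^ (n - 2) * (Nat.factorial (n - 2) : ℝ)))) := by
    refine (((S_lim (g - 1)).mul (S_lim (n - g - 1))).mul (S_lim (n - 2))).congr fun M => ?_
    unfold Dg
    have e : 2 * n - 4 = (g - 1) + (n - g - 1) + (n - 2) := by omega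
    rw [e, pow_add, pow_add]
    ring
  obtain ⟨c, hcd⟩ : ∃ c, c = ((2 * Real.pi) ^ (g - 1) * (Nat.factorial (g - 1) : ℝ)) *
        ((2 * Real.pi) ^ (n - g - 1) * (Nat.factorial (n - g - 1) : ℝ)) *
        ((2 * Real.pi) ^ (n - 2) * (Nat.factorial (n - 2) : ℝ)) := ⟨_, rfl⟩
  rw [← hcd] at hDlim
  have hc0 : 0 < c := by
    rw [hcd]
    positivity
  refine ⟨((c⁻¹ : ℝ) : ℂ), by exact_mod_cast (inv_pos.2 hc0).ne', ?_⟩
  refine ((Complex.continuous_ofReal.tendsto _).comp (hDlim.inv₀ hc0.ne')).congr fun M => ?_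
  simp only [Function.comp_apply]
  push_cast
  rfl

/-- The limit of the sum. -/
private theorem JLimT_sum (n : ℕ) (T : ℕ → ℂ) (Sg : ℕ → ℂ) (u : ℂ) (c4 : ℝ)
    (hc4 : c4 < u.re) (κ : ℂ) (C : ℝ) (e : ℕ) (hC : 0 < C)
    (hlim : Tendsto (fun M : ℕ => exp (2 * Real.pi * I * (bt n - M / 2)) * T M /
      ((((M : ℝ) ^ (1 / 2 : ℝ) : ℝ) : ℂ) * exp (M * u))) atTop (𝓝 κ))
    (hred : ∀ᶠ M : ℕ in atTop, ‖Sg M - exp (Real.pi * I / 8 * M) * T M‖ ≤
      C * (M : ℝ) ^ e * Real.exp (c4 * M)) :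
    Tendsto (fun M : ℕ => Sg M * exp (-(Real.pi * I * M)) * exp (-(Real.pi * I / 8 * M)) /
      ((((M : ℝ) ^ (1 / 2 : ℝ) : ℝ) : ℂ) * exp (M * u))) atTop
      (𝓝 (exp (-(2 * Real.pi * I * bt n)) * κ)) := by
  have h1 := hlim.const_mul (exp (-(2 * Real.pi * I * bt n)))
  have herr := JLimT_err C (u.re - c4) e (by linarith)
  have h2 : Tendsto (fun M : ℕ => (Sg M - exp (Real.pi * I / 8 * M) * T M) *
      exp (-(Real.pi * I * M)) * exp (-(Real.pi * I / 8 * M)) /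
      ((((M : ℝ) ^ (1 / 2 : ℝ) : ℝ) : ℂ) * exp (M * u))) atTop (𝓝 0) := by
    refine squeeze_zero_norm' ?_ herr
    filter_upwards [hred, eventually_gt_atTop 0] with M h3 hM
    have hMr : (1 : ℝ) ≤ M := by exact_mod_cast hM
    have hMp : (0 : ℝ) < M := by linarith
    have hW1 : (1 : ℝ) ≤ (M : ℝ) ^ (1 / 2 : ℝ) := Real.one_le_rpow hMr (by norm_num)
    have hW0 : (0 : ℝ) < (M : ℝ) ^ (1 / 2 : ℝ) := by linarith
    have n1 : ‖exp (-(Real.pi * I * M))‖ = 1 := by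
      rw [norm_exp]
      simp
    have n2 : ‖exp (-(Real.pi * I / 8 * M))‖ = 1 := by
      rw [norm_exp, show (-(Real.pi * I / 8 * M) : ℂ) = ((-(Real.pi / 8 * M) : ℝ) : ℂ) * I by
        push_cast; ring]
      simp
    have n3 : ((M : ℂ) * u).re = M * u.re := by simp
    rw [norm_div, norm_mul, norm_mul, norm_mul, n1, n2, mul_one, mul_one, Complex.norm_real,
      Real.norm_of_nonneg hW0.le, norm_exp, n3, div_le_iff₀ (by positivity)]
    refine h3.trans ?_
    have h4 : Real.exp (c4 * M) = Real.exp (-(u.re - c4) * M) * Real.exp (M * u.re) := by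
      rw [← Real.exp_add]
      congr 1
      ring
    rw [h4]
    have h5 : 0 ≤ C * (M : ℝ) ^ e *
        (Real.exp (-(u.re - c4) * M) * Real.exp (M * u.re)) := by positivity
    calc C * (M : ℝ) ^ e * (Real.exp (-(u.re - c4) * M) * Real.exp (M * u.re))
        = C * (M : ℝ) ^ e *
          (Real.exp (-(u.re - c4) * M) * Real.exp (M * u.re)) * 1 := by ring
      _ ≤ C * (M : ℝ) ^ e *
          (Real.exp (-(u.re - c4) * M) * Real.exp (M * u.re)) *
          (M : ℝ) ^ (1 / 2 : ℝ) := mul_le_mul_of_nonneg_left hW1 h5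
      _ = _ := by ring
  have h6 := h2.add h1
  rw [zero_add] at h6
  refine h6.congr fun M => ?_
  have e1 : exp (-(2 * Real.pi * I * bt n)) * exp (2 * Real.pi * I * (bt n - M / 2)) =
      exp (-(Real.pi * I * M)) := by
    rw [← exp_add]
    congr 1
    ring
  have e2 : exp (Real.pi * I / 8 * M) * exp (-(Real.pi * I / 8 * M)) = 1 := by
    rw [← exp_add, add_neg_cancel, exp_zero]
  rw [mul_div_assoc', ← add_div]
  congr 1
  linear_combination T M * e1 - T M * exp (-(Real.pi * I * M)) * e2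

theorem jlimT (p : ℤ) (hp : 2 ≤ |p|) (v : ℂ) (hc : CritT p 1 v) (n g : ℕ) (hn : 2 ≤ n)
    (hg : 1 ≤ g) (hgn : g ≤ n - 1) : ∃ κ : ℂ, κ ≠ 0 ∧
    Tendsto (fun M : ℕ => JN p 1 n g M / (((M : ℝ) ^ (2 * (n : ℝ) - 5 / 2) : ℝ) *
      exp (M * (VT p 1 v + Real.pi * I / 8 - Real.pi * I * p / 2 + Real.pi * I))))
      atTop (𝓝 κ) := by
  have hgn' : g + 1 ≤ n := by omega
  have hp0 : p ≠ 0 := by
    rintro rfl
    norm_num at hp
  have hS := sdatT p hp v hc
  obtain ⟨χ, b, δ, c, c4, hM, hb, hc2, hc4, hsupp, hone⟩ := struct_thm hS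
  have hmem : cp (fun _ : Fin 1 => v.re) (fun _ => v.im) ∈ UT :=
    hS.sub _ (interior_subset hS.ac_mem) _ hS.bc_mem
  have hz : cp (fun _ : Fin 1 => v.re) (fun _ => v.im) 0 = v := re_add_im v
  have hre : |v.re| < 33 / 100 := by
    have h1 := hmem.1
    rwa [hz] at h1
  have hA := adataT p n g hg hgn'
  have hL := alimT p n g hg hgn' v hc hre
  obtain ⟨κ, hκ, hlim⟩ := master hM hA (by rw [hb]; exact hL)
  rw [hb] at hlim
  have hVm : Vm (Finset.univ : Finset (Fin 1)) (V0T p)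
      (cp (fun _ : Fin 1 => v.re) (fun _ => v.im)) = VT p 1 v := by
    unfold Vm V0T VT
    rw [hz, Fin.sum_univ_one, hz]
  rw [hVm] at hlim
  obtain ⟨C, e, hC, hred⟩ := redT p n g hg hgn' χ hM.χ_nonneg hM.χ_le hM.χ_even hsupp c4 hc2
    (fun a ha hE => by
      have h3 : a ∈ {a | χ a = 1} := interior_subset (hone a ha hE)
      exact h3)
  have hs := JLimT_sum n
    (fun M => ∑' k : Fin 1 → ℤ, (χ (lp M (oT n M) k) : ℂ) *
      PhT p n g M (rc (lp M (oT n M) k)))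
    (fun M => ∑ l ∈ Finset.range (M + 2 - n), deriv (GX p n g M) (vl n M l))
    (VT p 1 v) c4 hc4 κ C e hC (by
      refine hlim.congr fun M => ?_
      have e1 : (0 : ℝ) + (Fintype.card (Fin 1) : ℝ) / 2 = 1 / 2 := by
        rw [Fintype.card_fin]
        norm_num
      have e2 : ∏ j ∈ (Finset.univ : Finset (Fin 1)), exp (2 * Real.pi * I * oT n M j) =
          exp (2 * Real.pi * I * (bt n - M / 2)) := by
        rw [Fin.prod_univ_one]
        unfold oT
        push_cast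
        rfl
      rw [e1, e2]) hred
  obtain ⟨cD, hcD, hD⟩ := JLimT_Dg n g hn hg hgn
  have hc1 := JNlimC_c1 n p
  have hC0 := JLimT_C0 n g
  have hne : (((-1 : ℂ) ^ (n + 1)) ^ p) ≠ 0 :=
    zpow_ne_zero _ (pow_ne_zero _ (by norm_num))
  have h4 : (4 * Real.pi * I : ℂ) ≠ 0 :=
    mul_ne_zero (mul_ne_zero (by norm_num) (by exact_mod_cast Real.pi_ne_zero)) I_ne_zero
  refine ⟨((-1 : ℂ) ^ (n + 1)) ^ p * (-I * exp (Real.pi * I * (n / 2))) * cD *
    (exp (-(2 * Real.pi * I * bt n)) * κ) / (4 * Real.pi * I), ?_, ?_⟩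
  · exact div_ne_zero (mul_ne_zero (mul_ne_zero (mul_ne_zero hne (mul_ne_zero
      (neg_ne_zero.mpr I_ne_zero) (exp_ne_zero _))) hcD) (mul_ne_zero (exp_ne_zero _) hκ)) h4
  · refine ((((hc1.mul hC0).mul hD).mul hs).div_const (4 * Real.pi * I)).congr' ?_
    filter_upwards [eventually_ge_atTop (2 * n + 2)] with M hMn
    have hM0 : 0 < M := by omega
    have hMp : (0 : ℝ) < M := by exact_mod_cast hM0
    obtain ⟨hDg, -⟩ := Reduce_Dg n g M hn hg hgn (by omega)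
    have hDC : ((Dg n g M : ℝ) : ℂ) ≠ 0 := by exact_mod_cast hDg.ne'
    have hex := exact p hp0 n g M hg hgn' hMn
    have hJ : JN p 1 n g M = c1 n M ^ p * C0 n g M / (4 * Real.pi * I * (M : ℂ) ^ 2) *
      (∑ l ∈ Finset.range (M + 2 - n), deriv (GX p n g M) (vl n M l)) / (Dg n g M : ℂ) := by
      rw [← hex, mul_div_cancel_left₀ _ hDC]
    rw [hJ]
    have hpow : (M : ℝ) ^ (2 * (n : ℝ) - 5 / 2) * (M : ℝ) ^ 2 =
        (M : ℝ) ^ 3 * (M : ℝ) ^ (1 / 2 : ℝ) * (M : ℝ) ^ (2 * n - 4) := by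
      rw [← Real.rpow_natCast (M : ℝ) (2 * n - 4), ← Real.rpow_natCast (M : ℝ) 2,
        ← Real.rpow_natCast (M : ℝ) 3, ← Real.rpow_add hMp, ← Real.rpow_add hMp,
        ← Real.rpow_add hMp]
      congr 1
      rw [Nat.cast_sub (by omega)]
      push_cast
      ring
    have hpowC : (((M : ℝ) ^ (2 * (n : ℝ) - 5 / 2) : ℝ) : ℂ) * (M : ℂ) ^ 2 =
        (M : ℂ) ^ 3 * (((M : ℝ) ^ (1 / 2 : ℝ) : ℝ) : ℂ) * (M : ℂ) ^ (2 * n - 4) := by
      exact_mod_cast congrArg (fun x : ℝ => (x : ℂ)) hpow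
    have hexp : exp (M * (VT p 1 v + Real.pi * I / 8 - Real.pi * I * p / 2 + Real.pi * I)) *
        exp (M * (Real.pi * I * p / 2)) * exp (-(Real.pi * I * M)) *
        exp (-(Real.pi * I / 8 * M)) = exp (M * VT p 1 v) := by
      rw [← exp_add, ← exp_add, ← exp_add]
      congr 1
      ring
    have hMC : (M : ℂ) ≠ 0 := by exact_mod_cast hM0.ne'
    have hw1 : (((M : ℝ) ^ (2 * (n : ℝ) - 5 / 2) : ℝ) : ℂ) ≠ 0 := by
      exact_mod_cast (Real.rpow_pos_of_pos hMp _).ne'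
    have hw2 : (((M : ℝ) ^ (1 / 2 : ℝ) : ℝ) : ℂ) ≠ 0 := by
      exact_mod_cast (Real.rpow_pos_of_pos hMp _).ne'
    have hw3 : (M : ℂ) ^ (2 * n - 4) ≠ 0 := pow_ne_zero _ hMC
    have hx1 := exp_ne_zero (M * (VT p 1 v + Real.pi * I / 8 - Real.pi * I * p / 2 +
      Real.pi * I))
    have hx2 := exp_ne_zero (M * (Real.pi * I * p / 2))
    have hx3 := exp_ne_zero (-(Real.pi * I * M))
    have hx4 := exp_ne_zero (-(Real.pi * I / 8 * M))
    have hpi : (Real.pi : ℂ) ≠ 0 := by exact_mod_cast Real.pi_ne_zero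
    rw [← hexp]
    generalize exp (M * (VT p 1 v + Real.pi * I / 8 - Real.pi * I * p / 2 +
      Real.pi * I)) = x1 at *
    generalize exp (M * (Real.pi * I * p / 2)) = x2 at *
    generalize exp (-(Real.pi * I * M)) = x3 at *
    generalize exp (-(Real.pi * I / 8 * M)) = x4 at *
    generalize (((M : ℝ) ^ (2 * (n : ℝ) - 5 / 2) : ℝ) : ℂ) = w1 at *
    generalize (((M : ℝ) ^ (1 / 2 : ℝ) : ℝ) : ℂ) = w2 at *
    generalize (M : ℂ) ^ (2 * n - 4) = w3 at *
    generalize ((Dg n g M : ℝ) : ℂ) = d at *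
    generalize (∑ l ∈ Finset.range (M + 2 - n), deriv (GX p n g M) (vl n M l)) = s at *
    generalize c1 n M ^ p = c1p at *
    generalize C0 n g M = c0 at *
    generalize (M : ℂ) = m at *
    have hw1' : w1 = m ^ 3 * w2 * w3 / m ^ 2 := by
      rw [← hpowC, mul_div_cancel_right₀ _ (pow_ne_zero _ hMC)]
    rw [hw1']
    field_simp

end Pool.Agent.H63.TW
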