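import Pool.Agent.H63.TW.NNall
import Pool.Agent.H63.VC3.StepDefs

/-! # The invariant of a twist knot as a sum over the channels -/

namespace Pool.Agent.H63.TW

open Pool.Agent.H63.VC Pool.Agent.H63.VC3 Complex
open scoped BigOperators

private theorem DgJN_twist_one (a q : ℂ) (k : ℕ) : twistCoeff a q 1 k = 1 := by
  rw [twistCoeff, Finset.sum_eq_single_of_mem 0 (by simp)]
  · cases k <;> simp [twistCoeff, qbin]
  · intro j _ hj
    simp [twistCoeff, hj]

private theorem DgJN_NN_one (n M k : ℕ) : NN 1 n M k = (starRingEnd ℂ) (Th n M k) := by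
  unfold NN
  rw [if_pos one_pos]
  have h : (1 : ℤ).toNat = 1 := rfl
  rw [h, DgJN_twist_one, mul_one]

private theorem DgJN_diff (p : ℤ) (n M k : ℕ) : Differentiable ℂ (fun v : ℂ =>
    exp (2 * Real.pi * I * p * M * v ^ 2) * (2 * sin (2 * Real.pi * v)) *
      Pr n M k (lv n M v)) := by
  unfold Pr sn lv
  fun_prop

private theorem DgJN_T (n g M k : ℕ) (hg : 1 ≤ g) (hgn : g + 1 ≤ n) (hk : k + n ≤ M + 1) :
    (Dg n g M : ℂ) * (T M n g k : ℂ) * (S M k : ℂ) = BC n g M k := by
  have hT := T_eq M n g k hg (by omega) (by omega) hk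
  have hS1 : S M (g - 1) ≠ 0 := (S_pos (by omega)).ne'
  have hS2 : S M (n - g - 1) ≠ 0 := (S_pos (by omega)).ne'
  have hS3 : S M (n - 2) ≠ 0 := (S_pos (by omega)).ne'
  have hS4 : S M k ≠ 0 := (S_pos (by omega)).ne'
  have e1 : g - 1 + k = k + g - 1 := by omega
  have e2 : n - g - 1 + k = k + n - g - 1 := by omega
  have e3 : n - 2 + k = k + n - 2 := by omega
  rw [e1, e2, e3] at hT
  have h : Dg n g M * T M n g k * S M k =
      S M (k + g - 1) * S M (k + n - g - 1) * S M (k + n - 2) := by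
    rw [hT]
    unfold Dg
    field_simp
  unfold BC
  rw [← h]
  push_cast
  ring

theorem dg_jn (p : ℤ) (hp : p ≠ 0) (n g M : ℕ) (hg : 1 ≤ g) (hgn : g + 1 ≤ n) (hM : n + 1 ≤ M) :
    (Dg n g M : ℂ) * JN p 1 n g M = c1 n M ^ p / (4 * Real.pi * I * (M : ℂ) ^ 2) *
      ∑ l ∈ Finset.range (M + 2 - n), deriv (fun v : ℂ =>
        exp (2 * Real.pi * I * p * M * v ^ 2) * (2 * sin (2 * Real.pi * v)) *
          PP n g M (lv n M v)) (vl n M l) := by
  have h1 : JN p 1 n g M = ∑ k ∈ Finset.range (M + 2 - n),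
      (T M n g k : ℂ) * (NN p n M k * (starRingEnd ℂ) (Th n M k)) := by
    unfold JN
    simp_rw [DgJN_NN_one]
    symm
    apply Finset.sum_subset
    · intro k hk
      rw [Finset.mem_range] at hk ⊢
      omega
    · intro k _ hk
      rw [Finset.mem_range, not_lt] at hk
      rw [T_eq_zero M n g k (by omega) (by omega) (by omega)]
      simp
  rw [h1, Finset.mul_sum]
  have h2 : ∀ l : ℕ, deriv (fun v : ℂ =>
        exp (2 * Real.pi * I * p * M * v ^ 2) * (2 * sin (2 * Real.pi * v)) *
          PP n g M (lv n M v)) (vl n M l) = ∑ k ∈ Finset.range (M + 2 - n),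
        BC n g M k * (starRingEnd ℂ) (Th n M k) * deriv (fun v : ℂ =>
        exp (2 * Real.pi * I * p * M * v ^ 2) * (2 * sin (2 * Real.pi * v)) *
          Pr n M k (lv n M v)) (vl n M l) := by
    intro l
    have e : (fun v : ℂ => exp (2 * Real.pi * I * p * M * v ^ 2) *
        (2 * sin (2 * Real.pi * v)) * PP n g M (lv n M v)) =
        fun v : ℂ => ∑ k ∈ Finset.range (M + 2 - n),
          (BC n g M k * (starRingEnd ℂ) (Th n M k)) *
          (exp (2 * Real.pi * I * p * M * v ^ 2) * (2 * sin (2 * Real.pi * v)) *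
          Pr n M k (lv n M v)) := by
      funext v
      unfold PP
      rw [Finset.mul_sum]
      refine Finset.sum_congr rfl fun k _ => ?_
      ring
    rw [e, deriv_fun_sum]
    · refine Finset.sum_congr rfl fun k _ => ?_
      rw [deriv_const_mul]
      exact (DgJN_diff p n M k) _
    · intro k _
      exact ((DgJN_diff p n M k) _).const_mul _
  simp_rw [h2]
  rw [Finset.sum_comm, Finset.mul_sum]
  refine Finset.sum_congr rfl fun k hk => ?_
  rw [Finset.mem_range] at hk
  rw [nn_all p hp n M k (by omega) (by omega) (by omega), ← Finset.mul_sum,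
    ← DgJN_T n g M k hg hgn (by omega)]
  ring

end Pool.Agent.H63.TW
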