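import Pool.Agent.H63.TW.Defs

/-! # Symmetries -/

namespace Pool.Agent.H63.TW

open Pool.Agent.H63.VC Pool.Agent.H63.VC3 Complex
open scoped BigOperators

private theorem Even_neg (M : ℕ) (x : ℂ) : sn M (-x) = -sn M x := by
  unfold sn
  rw [show (Real.pi : ℂ) * -x / M = -(Real.pi * x / M) by ring, sin_neg]
  ring

private theorem Even_add {M : ℕ} (hM : 1 ≤ M) (x : ℂ) : sn M (x + M) = -sn M x := by
  have h0 : (M : ℂ) ≠ 0 := Nat.cast_ne_zero.mpr (by omega)
  unfold sn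
  rw [show (Real.pi : ℂ) * (x + M) / M = Real.pi * x / M + Real.pi by field_simp, sin_add_pi]
  ring

private theorem Even_sub {M : ℕ} (hM : 1 ≤ M) (x : ℂ) : sn M (M - x) = sn M x := by
  rw [show (M : ℂ) - x = -x + M by ring, Even_add hM, Even_neg, neg_neg]

private theorem Even_sub2 {M : ℕ} (hM : 1 ≤ M) (x : ℂ) : sn M (2 * M - x) = -sn M x := by
  rw [show 2 * (M : ℂ) - x = (M - x) + M by ring, Even_add hM, Even_sub hM]

private theorem Even_qp {M : ℕ} (hM : 1 ≤ M) (x : ℂ) : qp M (x + M) = -qp M x := by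
  have h0 : (M : ℂ) ≠ 0 := Nat.cast_ne_zero.mpr (by omega)
  unfold qp
  rw [show (Real.pi : ℂ) * I * (x + M) / M = Real.pi * I * x / M + Real.pi * I by field_simp, exp_add, exp_pi_mul_I]
  ring

theorem PP_even (n g M : ℕ) (hn : 2 ≤ n) (hM : n ≤ M) (l : ℂ) :
    PP n g M (M + 1 - n - l) = PP n g M l := by
  have hM1 : 1 ≤ M := by omega
  unfold PP
  refine Finset.sum_congr rfl fun k _ => ?_
  congr 1
  unfold Pr
  refine Finset.prod_congr rfl fun i _ => ?_
  have h1 : sn M ((i : ℂ) + (M + 1 - n - l) + n - 1) = -sn M (i - l) := by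
    rw [← Even_add hM1]
    congr 1
    ring
  have h2 : sn M ((i : ℂ) - (M + 1 - n - l)) = -sn M (i + l + n - 1) := by
    have h3 := Even_add hM1 ((i : ℂ) - (M + 1 - n - l))
    rw [show (i : ℂ) - (M + 1 - n - l) + M = i + l + n - 1 by ring] at h3
    rw [h3, neg_neg]
  rw [h1, h2]
  ring

theorem BN_even (n M : ℕ) (hn : 2 ≤ n) (hM : n ≤ M) (l : ℂ) :
    BN n M (M + 1 - n - l) = BN n M l := by
  have hM1 : 1 ≤ M := by omega
  unfold BN
  rw [← Finset.prod_range_reflect]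
  refine Finset.prod_congr rfl fun i hi => ?_
  rw [Finset.mem_range] at hi
  have h1 : ((n - 2 - 1 - i : ℕ) : ℂ) = n - 3 - i := by
    rw [show n - 2 - 1 - i = n - (3 + i) by omega, Nat.cast_sub (by omega)]
    push_cast
    ring
  rw [h1, ← Even_sub hM1 (l + i + 1)]
  congr 1
  ring

theorem Ap_refl (n g M : ℕ) (hM : 1 ≤ M) (l : ℂ) :
    Ap n g M (M + 1 - n - l) = -Am n g M l := by
  unfold Ap Am
  rw [show (M : ℂ) + 1 - n - l + n - 2 = (-l - 1) + M by ring, Even_qp hM,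
    show (M : ℂ) + 1 - n - l + n - g = M - (l + g - 1) by ring, Even_sub hM,
    show (M : ℂ) + 1 - n - l + g = M - (l + n - g - 1) by ring, Even_sub hM,
    show (M : ℂ) + 1 - n - l + 1 = M - (l + n - 2) by ring, Even_sub hM,
    show 2 * ((M : ℂ) + 1 - n - l) + n - 2 = 2 * M - (2 * l + n) by ring, Even_sub2 hM]
  ring

theorem A0_refl (n g M : ℕ) (hM : 1 ≤ M) (l : ℂ) :
    A0 n g M (M + 1 - n - l) = -A0 n g M l := by
  have q1 : qp M (2 - 2 * ((M : ℂ) + 1 - n - l) - n) = qp M (2 * l + n) := by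
    have h1 := Even_qp hM (2 - 2 * ((M : ℂ) + 1 - n - l) - n)
    have h2 := Even_qp hM (2 - 2 * ((M : ℂ) + 1 - n - l) - n + M)
    rw [show 2 - 2 * ((M : ℂ) + 1 - n - l) - n + M + M = 2 * l + n by ring, h1, neg_neg] at h2
    exact h2.symm
  have q2 : qp M (2 * ((M : ℂ) + 1 - n - l) + n) = qp M (2 - 2 * l - n) := by
    rw [show 2 * ((M : ℂ) + 1 - n - l) + n = (2 - 2 * l - n + M) + M by ring, Even_qp hM, Even_qp hM, neg_neg]
  have q3 : qp M (3 * ((M : ℂ) + 1 - n - l) + 2 * n - 2) = -qp M (1 - 3 * l - n) := by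
    rw [show 3 * ((M : ℂ) + 1 - n - l) + 2 * n - 2 = (1 - 3 * l - n + M + M) + M by ring, Even_qp hM, Even_qp hM, Even_qp hM, neg_neg]
  have q4 : qp M (1 - 3 * ((M : ℂ) + 1 - n - l) - n) = -qp M (3 * l + 2 * n - 2) := by
    have h1 := Even_qp hM (1 - 3 * ((M : ℂ) + 1 - n - l) - n)
    have h2 := Even_qp hM (1 - 3 * ((M : ℂ) + 1 - n - l) - n + M)
    have h3 := Even_qp hM (1 - 3 * ((M : ℂ) + 1 - n - l) - n + M + M)
    rw [show 1 - 3 * ((M : ℂ) + 1 - n - l) - n + M + M + M = 3 * l + 2 * n - 2 by ring, h2, h1, neg_neg] at h3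
    rw [h3, neg_neg]
  unfold A0
  rw [q1, q2, q3, q4,
    show 2 * ((M : ℂ) + 1 - n - l) + n - 2 = 2 * M - (2 * l + n) by ring, Even_sub2 hM,
    show 2 * ((M : ℂ) + 1 - n - l) + n - 1 = 2 * M - (2 * l + n - 1) by ring, Even_sub2 hM,
    show 2 * ((M : ℂ) + 1 - n - l) + n = 2 * M - (2 * l + n - 2) by ring, Even_sub2 hM,
    show (M : ℂ) + 1 - n - l + n - g - 1 = M - (l + g) by ring, Even_sub hM,
    show (M : ℂ) + 1 - n - l + n - g = M - (l + g - 1) by ring, Even_sub hM,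
    show (M : ℂ) + 1 - n - l + g - 1 = M - (l + n - g) by ring, Even_sub hM,
    show (M : ℂ) + 1 - n - l + g = M - (l + n - g - 1) by ring, Even_sub hM,
    show (M : ℂ) + 1 - n - l + 1 = M - (l + n - 2) by ring, Even_sub hM,
    show (M : ℂ) + 1 - n - l + n - 2 = M - (l + 1) by ring, Even_sub hM]
  ring

end Pool.Agent.H63.TW
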