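import Pool.Agent.H63.TW.Defs
import Pool.Agent.H63.VC3.LLasym

/-! # Bounds for the terms of the dual sum -/

namespace Pool.Agent.H63.TW

open Pool.Agent.H63.VC Pool.Agent.H63.VC3 Complex Filter Topology
open scoped BigOperators

private theorem FlBd_asym (c B D : ℝ) (hc : 0 < c) (hc1 : c < 1) (hB : 0 ≤ B) (hD : 0 ≤ D) :
    ∃ C : ℝ, 0 < C ∧ ∀ᶠ M : ℕ in atTop, ∀ s d : ℂ, c * (M : ℝ) ≤ s.re → s.re ≤ (1 - c) * (M : ℝ) →
      |s.im| ≤ B * (M : ℝ) → ‖d‖ ≤ D →
      ‖LL M (s + d) - Real.log M / 2 - M * ff (s / M)‖ ≤ C := by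
  obtain ⟨C1, hC1, H1⟩ := LL_asym (c / 2) (B + 1) (by linarith)
  set S : Set ℂ := Set.Icc (c / 2) (1 - c / 2) ×ℂ Set.Icc (-(B + 1)) (B + 1) with hS
  have hSc : IsCompact S := IsCompact.reProdIm isCompact_Icc isCompact_Icc
  have hSx : Convex ℝ S := ((convex_Icc (c / 2) (1 - c / 2)).linear_preimage reLm).inter
    ((convex_Icc (-(B + 1)) (B + 1)).linear_preimage imLm)
  have hmem : ∀ z : ℂ, c / 2 ≤ z.re → z.re ≤ 1 - c / 2 → |z.im| ≤ B + 1 → z ∈ S := by
    intro z h1 h2 h3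
    rw [hS, mem_reProdIm]
    exact ⟨⟨h1, h2⟩, abs_le.1 h3⟩
  have hcont : ContinuousOn hh S := by
    intro z hz
    rw [hS, mem_reProdIm] at hz
    exact (hh_hasDerivAt z (by linarith [hz.1.1]) (by linarith [hz.1.2])).continuousAt.continuousWithinAt
  obtain ⟨K, hK⟩ := hSc.exists_bound_of_continuousOn hcont
  have hK0 : 0 ≤ K := by
    have h1 : ((1 / 2 : ℝ) : ℂ) ∈ S := by
      apply hmem
      · simp; linarith
      · simp; linarith
      · simp; linarith
    exact (norm_nonneg _).trans (hK _ h1)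
  refine ⟨C1 + K * (D + 1 / 2), by positivity, ?_⟩
  have hev : ∀ᶠ M : ℕ in atTop, 2 * (D + 1) / c ≤ (M : ℝ) ∧ D + 1 ≤ (M : ℝ) :=
    (tendsto_natCast_atTop_atTop.eventually_ge_atTop _).and
      (tendsto_natCast_atTop_atTop.eventually_ge_atTop _)
  filter_upwards [hev] with M hM s d h1 h2 h3 h4
  have hM1 : (1 : ℝ) ≤ M := by linarith [hM.2]
  have hM0 : (0 : ℝ) < M := by linarith
  have hMn : 1 ≤ M := by exact_mod_cast hM1
  have hMc : (M : ℂ) ≠ 0 := by exact_mod_cast hM0.ne'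
  have hcM : 2 * (D + 1) ≤ c * M := by
    have := hM.1
    rw [div_le_iff₀ hc] at this
    linarith
  have hre : |d.re| ≤ D := (abs_re_le_norm d).trans h4
  have him : |d.im| ≤ D := (abs_im_le_norm d).trans h4
  rw [abs_le] at hre him h3
  set z : ℂ := (s + d + 1 / 2) / M with hz
  have hzre : z.re = (s.re + d.re + 1 / 2) / M := by
    rw [hz, show (M : ℂ) = ((M : ℝ) : ℂ) by norm_cast, div_ofReal_re]
    simp
  have hzim : z.im = (s.im + d.im) / M := by
    rw [hz, show (M : ℂ) = ((M : ℝ) : ℂ) by norm_cast, div_ofReal_im]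
    simp
  have k1 : c / 2 ≤ z.re := by
    rw [hzre, le_div_iff₀ hM0]
    linarith
  have k2 : z.re ≤ 1 - c / 2 := by
    rw [hzre, div_le_iff₀ hM0]
    linarith
  have k3 : |z.im| ≤ B + 1 := by
    rw [hzim, abs_div, abs_of_pos hM0, div_le_iff₀ hM0, abs_le]
    constructor <;> linarith [hM.2]
  have h0re : (s / M).re = s.re / M := by
    rw [show (M : ℂ) = ((M : ℝ) : ℂ) by norm_cast, div_ofReal_re]
  have h0im : (s / M).im = s.im / M := by
    rw [show (M : ℂ) = ((M : ℝ) : ℂ) by norm_cast, div_ofReal_im]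
  have hs0 : s / M ∈ S := by
    apply hmem
    · rw [h0re, le_div_iff₀ hM0]
      nlinarith
    · rw [h0re, div_le_iff₀ hM0]
      nlinarith
    · rw [h0im, abs_div, abs_of_pos hM0, div_le_iff₀ hM0, abs_le]
      constructor <;> linarith
  have hz0 : z ∈ S := hmem z k1 k2 k3
  have hff : ‖ff z - ff (s / M)‖ ≤ K * ‖z - s / M‖ := by
    refine hSx.norm_image_sub_le_of_norm_hasDerivWithin_le (f' := hh) (fun x hx => ?_)
      (fun x hx => hK x hx) hs0 hz0
    rw [hS, mem_reProdIm] at hx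
    exact (ff_hasDerivAt x (by linarith [hx.1.1]) (by linarith [hx.1.2])).hasDerivWithinAt
  have hdz : z - s / M = (d + 1 / 2) / M := by
    rw [hz]; field_simp; ring
  have hdn : ‖z - s / M‖ ≤ (D + 1 / 2) / M := by
    rw [hdz, norm_div]
    have e1 : ‖(M : ℂ)‖ = M := by simp
    rw [e1]
    apply div_le_div_of_nonneg_right _ hM0.le
    refine (norm_add_le _ _).trans ?_
    have e2 : ‖(1 / 2 : ℂ)‖ = 1 / 2 := by norm_num
    rw [e2]
    linarith
  have hmain := H1 M hMn z k1 k2 k3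
  have harg : (M : ℂ) * z - 1 / 2 = s + d := by
    rw [hz]; field_simp; ring
  rw [harg] at hmain
  have hsplit : LL M (s + d) - Real.log M / 2 - M * ff (s / M) =
      (LL M (s + d) - Real.log M / 2 - M * ff z) + M * (ff z - ff (s / M)) := by ring
  rw [hsplit]
  refine (norm_add_le _ _).trans (add_le_add ?_ ?_)
  · refine hmain.trans ?_
    rw [div_le_iff₀ hM0]
    nlinarith
  · rw [norm_mul]
    have e1 : ‖(M : ℂ)‖ = M := by simp
    rw [e1]
    calc (M : ℝ) * ‖ff z - ff (s / M)‖ ≤ M * (K * ((D + 1 / 2) / M)) := by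
          apply mul_le_mul_of_nonneg_left _ hM0.le
          exact hff.trans (mul_le_mul_of_nonneg_left hdn hK0)
      _ = K * (D + 1 / 2) := by field_simp

private theorem FlBd_re {w L E : ℂ} {C x y : ℝ} (h : ‖w - L / 2 - E‖ ≤ C) (hL : L.re = x)
    (hE : E.re = y) : |w.re - x / 2 - y| ≤ C := by
  have h1 := (abs_re_le_norm (w - L / 2 - E)).trans h
  have h2 : (w - L / 2 - E).re = w.re - x / 2 - y := by
    rw [sub_re, sub_re, hE, ← hL]
    have : (L / 2).re = L.re / 2 := by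
      rw [show (2 : ℂ) = ((2 : ℝ) : ℂ) by norm_cast, div_ofReal_re]
    rw [this]
  rwa [h2] at h1

theorem fl_bound (n g : ℕ) (hg : 1 ≤ g) (hgn : g + 1 ≤ n) : ∃ C : ℝ, 0 < C ∧
    ∀ᶠ M : ℕ in atTop, ∀ l m : ℂ, 18 / 100 * (M : ℝ) ≤ l.re → l.re ≤ 82 / 100 * (M : ℝ) →
      |l.im| ≤ 1 → 8 / 1000 * (M : ℝ) ≤ m.re → m.re ≤ l.re - 8 / 1000 * (M : ℝ) →
      |m.im| ≤ 2 * (M : ℝ) →
      DifferentiableAt ℂ (fl n g M l) m ∧
      ‖fl n g M l m‖ ≤ C * Real.exp (M * (Fr (l.re / M) - 2 * (ff (m / M)).re -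
        2 * (ff ((l - m) / M)).re)) := by
  obtain ⟨C1, hC1, H1⟩ := FlBd_asym (8 / 1000) 3 (n + 1) (by norm_num) (by norm_num)
    (by norm_num) (by positivity)
  refine ⟨Real.exp (2 * Real.pi * n + 7 * C1), Real.exp_pos _, ?_⟩
  have hev : ∀ᶠ M : ℕ in atTop, 100 * ((n : ℝ) + 1) ≤ (M : ℝ) :=
    tendsto_natCast_atTop_atTop.eventually_ge_atTop _
  filter_upwards [H1, hev] with M H1 hM l m h1 h2 h3 h4 h5 h6
  have hn0 : (0 : ℝ) ≤ n := Nat.cast_nonneg n
  have hM1 : (1 : ℝ) ≤ M := by linarith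
  have hM0 : (0 : ℝ) < M := by linarith
  have hMn : 0 < M := by exact_mod_cast hM0
  have hMc : (M : ℂ) ≠ 0 := by exact_mod_cast hM0.ne'
  -- the shifts
  have hgR : (1 : ℝ) ≤ g := by exact_mod_cast hg
  have hgnR : (g : ℝ) + 1 ≤ n := by exact_mod_cast hgn
  obtain ⟨a, ha⟩ : ∃ a : ℝ, a = (n : ℝ) - g - 1 := ⟨_, rfl⟩
  obtain ⟨b, hb⟩ : ∃ b : ℝ, b = (g : ℝ) - 1 := ⟨_, rfl⟩
  have ha0 : 0 ≤ a := by rw [ha]; linarith
  have ha1 : a ≤ n := by rw [ha]; linarith
  have hb0 : 0 ≤ b := by rw [hb]; linarith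
  have hb1 : b ≤ n := by rw [hb]; linarith
  have e1 : l + n - g - 1 = l + (a : ℂ) := by rw [ha]; push_cast; ring
  have e2 : l + g - 1 = l + (b : ℂ) := by rw [hb]; push_cast; ring
  rw [abs_le] at h3 h6
  have hrea : (l + (a : ℂ)).re = l.re + a := by simp
  have hreb : (l + (b : ℂ)).re = l.re + b := by simp
  constructor
  · have d1 : DifferentiableAt ℂ (fun m : ℂ => LL M (l + a - m)) m := by
      refine DifferentiableAt.comp m (g := LL M) (f := fun m : ℂ => l + a - m) ?_ (by fun_prop)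
      apply LL_differentiableAt M hMn
      · rw [sub_re, hrea]; linarith
      · rw [sub_re, hrea]; linarith
    have d2 : DifferentiableAt ℂ (fun m : ℂ => LL M (l + b - m)) m := by
      refine DifferentiableAt.comp m (g := LL M) (f := fun m : ℂ => l + b - m) ?_ (by fun_prop)
      apply LL_differentiableAt M hMn
      · rw [sub_re, hreb]; linarith
      · rw [sub_re, hreb]; linarith
    have d3 : DifferentiableAt ℂ (LL M) m := by
      apply LL_differentiableAt M hMn
      · linarith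
      · linarith
    have d4 : DifferentiableAt ℂ (fun m : ℂ => qp M ((n - 2) * m)) m := by
      unfold qp
      fun_prop
    have heq : fl n g M l = fun m : ℂ => exp (-LL M l) * (qp M ((n - 2) * m) *
        exp (LL M (l + a) + LL M (l + b) - LL M (l + a - m) - LL M (l + b - m) - 2 * LL M m)) := by
      funext m
      unfold fl tau
      rw [e1, e2]
    rw [heq]
    fun_prop
  · -- the norm
    have hqp : ‖qp M ((n - 2) * m)‖ ≤ Real.exp (2 * Real.pi * n) := by
      unfold qp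
      rw [norm_exp]
      apply Real.exp_le_exp.2
      have e3 : (Real.pi * I * (((n : ℂ) - 2) * m) / M).re = -(Real.pi * ((n : ℝ) - 2) * m.im / M) := by
        rw [show (M : ℂ) = ((M : ℝ) : ℂ) by norm_cast, div_ofReal_re]
        have : (Real.pi * I * (((n : ℂ) - 2) * m)).re = -(Real.pi * ((n : ℝ) - 2) * m.im) := by
          simp [mul_re, mul_im]
          ring
        rw [this]
        ring
      rw [e3, ← neg_div, div_le_iff₀ hM0]
      have hn2 : (0 : ℝ) ≤ (n : ℝ) - 2 := by linarith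
      have h7 : -m.im ≤ 2 * M := by linarith
      have h8 : Real.pi * ((n : ℝ) - 2) * (-m.im) ≤ Real.pi * ((n : ℝ) - 2) * (2 * M) :=
        mul_le_mul_of_nonneg_left h7 (mul_nonneg Real.pi_pos.le hn2)
      have h9 : 0 ≤ Real.pi * M := by positivity
      nlinarith
    have hfl : ‖fl n g M l m‖ = ‖qp M ((n - 2) * m)‖ * Real.exp (-(LL M l).re +
        (LL M (l + a)).re + (LL M (l + b)).re - (LL M (l + a - m)).re - (LL M (l + b - m)).re -
        2 * (LL M m).re) := by
      unfold fl tau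
      rw [e1, e2, norm_mul, norm_mul, norm_exp, norm_exp]
      rw [mul_left_comm, ← Real.exp_add]
      congr 2
      simp
      ring
    have hdl : ∀ x : ℝ, 0 ≤ x → x ≤ n → ‖(l.im : ℂ) * I + (x : ℂ)‖ ≤ (n : ℝ) + 1 := by
      intro x hx0 hx1
      refine (norm_add_le _ _).trans ?_
      rw [norm_mul, norm_I, mul_one, norm_real, norm_real, Real.norm_eq_abs, Real.norm_eq_abs,
        abs_of_nonneg hx0]
      have : |l.im| ≤ 1 := abs_le.2 h3
      linarith
    have hlL : ∀ x : ℝ, 0 ≤ x → x ≤ n →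
        |(LL M (l + x)).re - Real.log M / 2 - M * Fr (l.re / M)| ≤ C1 := by
      intro x hx0 hx1
      have h7 := H1 (l.re : ℂ) ((l.im : ℂ) * I + (x : ℂ)) (by simp; linarith) (by simp; linarith)
        (by simp) (hdl x hx0 hx1)
      have e4 : (l.re : ℂ) + ((l.im : ℂ) * I + (x : ℂ)) = l + x := by
        rw [← add_assoc, re_add_im]
      rw [e4] at h7
      refine FlBd_re h7 (ofReal_re _) ?_
      have e5 : (l.re : ℂ) / M = ((l.re / M : ℝ) : ℂ) := by push_cast; rfl
      rw [e5, ff_real _ (by apply div_pos _ hM0; linarith) (by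
        rw [div_lt_one hM0]; linarith)]
      simp
    have hxn : ∀ x : ℝ, 0 ≤ x → x ≤ n → ‖(x : ℂ)‖ ≤ (n : ℝ) + 1 := by
      intro x hx0 hx1
      rw [norm_real, Real.norm_eq_abs, abs_of_nonneg hx0]
      linarith
    have hlm : ∀ x : ℝ, 0 ≤ x → x ≤ n →
        |(LL M (l + x - m)).re - Real.log M / 2 - M * (ff ((l - m) / M)).re| ≤ C1 := by
      intro x hx0 hx1
      have h7 := H1 (l - m) (x : ℂ) (by simp; linarith) (by simp; linarith) (by
        rw [sub_im, abs_le]
        constructor <;> linarith) (hxn x hx0 hx1)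
      have e4 : l - m + (x : ℂ) = l + x - m := by ring
      rw [e4] at h7
      refine FlBd_re h7 (ofReal_re _) ?_
      simp
    have hmL : |(LL M m).re - Real.log M / 2 - M * (ff (m / M)).re| ≤ C1 := by
      have h7 := H1 m 0 (by linarith) (by linarith) (by
        rw [abs_le]
        constructor <;> linarith) (by simp; linarith)
      rw [add_zero] at h7
      refine FlBd_re h7 (ofReal_re _) ?_
      simp
    have q1 := hlL 0 le_rfl hn0
    have q2 := hlL a ha0 ha1
    have q3 := hlL b hb0 hb1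
    have q4 := hlm a ha0 ha1
    have q5 := hlm b hb0 hb1
    rw [ofReal_zero, add_zero] at q1
    rw [abs_le] at q1 q2 q3 q4 q5 hmL
    have hlog : 0 ≤ Real.log M := Real.log_nonneg hM1
    rw [hfl, Real.exp_add, mul_assoc, ← Real.exp_add]
    apply mul_le_mul hqp _ (Real.exp_pos _).le (Real.exp_pos _).le
    apply Real.exp_le_exp.2
    linarith [q1.1, q1.2, q2.1, q2.2, q3.1, q3.2, q4.1, q4.2, q5.1, q5.2, hmL.1, hmL.2]

end Pool.Agent.H63.TW
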