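import Pool.Agent.H63.TW.Path
import Pool.Agent.H63.VC3.LLasym

/-! # The terms along the path -/

namespace Pool.Agent.H63.TW

open Pool.Agent.H63.VC Pool.Agent.H63.VC3 Complex Filter Topology
open scoped BigOperators

/-- The amplitude along the path. -/
noncomputable def amp (n : ℕ) (v : ℂ) (t : ℝ) : ℂ :=
  exp (Real.pi * I * (n - 2) * ((v + 1 / 2) / 2 + xt v t) + (n / 2 - 1) * hh (v + 1 / 2) -
    (n - 1) / 2 * hh ((v + 1 / 2) / 2 - xt v t) - (3 - n) / 2 * hh ((v + 1 / 2) / 2 + xt v t))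

/-! ### Compact subsets of the strip -/

private def FlPath_box (c B : ℝ) : Set ℂ := Set.Icc c (1 - c) ×ℂ Set.Icc (-B) B

private theorem FlPath_mem (c B : ℝ) (z : ℂ) :
    z ∈ FlPath_box c B ↔ (c ≤ z.re ∧ z.re ≤ 1 - c) ∧ |z.im| ≤ B := by
  unfold FlPath_box
  rw [Complex.mem_reProdIm, abs_le]
  exact Iff.rfl

private theorem FlPath_compact (c B : ℝ) : IsCompact (FlPath_box c B) :=
  isCompact_Icc.reProdIm isCompact_Icc

private theorem FlPath_convex (c B : ℝ) : Convex ℝ (FlPath_box c B) := by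
  intro u hu w hw a b ha hb hab
  unfold FlPath_box at *
  rw [Complex.mem_reProdIm] at hu hw ⊢
  have e1 : (a • u + b • w).re = a • u.re + b • w.re := by simp
  have e2 : (a • u + b • w).im = a • u.im + b • w.im := by simp
  rw [e1, e2]
  exact ⟨convex_Icc _ _ hu.1 hw.1 ha hb hab, convex_Icc _ _ hu.2 hw.2 ha hb hab⟩

private theorem FlPath_bdd (f : ℂ → ℂ) (c B : ℝ) (hf : ContinuousOn f (FlPath_box c B)) :
    ∃ K : ℝ, 0 < K ∧ ∀ z : ℂ, c ≤ z.re → z.re ≤ 1 - c → |z.im| ≤ B → ‖f z‖ ≤ K := by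
  obtain ⟨K, hK⟩ := (FlPath_compact c B).exists_bound_of_continuousOn hf
  refine ⟨max K 1, by positivity, fun z h1 h2 h3 => (hK z ?_).trans (le_max_left _ _)⟩
  rw [FlPath_mem]
  exact ⟨⟨h1, h2⟩, h3⟩

private theorem FlPath_hh_bound (c B : ℝ) (hc : 0 < c) : ∃ K : ℝ, 0 < K ∧ ∀ z : ℂ, c ≤ z.re →
    z.re ≤ 1 - c → |z.im| ≤ B → ‖hh z‖ ≤ K := by
  refine FlPath_bdd hh c B fun z hz => ?_
  rw [FlPath_mem] at hz
  exact (hh_hasDerivAt z (by linarith [hz.1.1]) (by linarith [hz.1.2])).continuousAt.continuousWithinAt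

private theorem FlPath_cot_bound (c B : ℝ) (hc : 0 < c) : ∃ K : ℝ, 0 < K ∧ ∀ z : ℂ, c ≤ z.re →
    z.re ≤ 1 - c → |z.im| ≤ B → ‖(Real.pi : ℂ) * Complex.cot (Real.pi * z)‖ ≤ K := by
  refine FlPath_bdd (fun z => (Real.pi : ℂ) * Complex.cot (Real.pi * z)) c B fun z hz => ?_
  rw [FlPath_mem] at hz
  have h4 : Complex.sin (Real.pi * z) ≠ 0 := by
    intro h
    have := Complex.slitPlane_ne_zero (Clausen_slit z (by linarith [hz.1.1])
      (by linarith [hz.1.2]))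
    rw [h] at this
    simp at this
  have h5 : ContinuousAt (fun z : ℂ => Complex.cos (Real.pi * z) / Complex.sin (Real.pi * z)) z :=
    ContinuousAt.div (by fun_prop) (by fun_prop) h4
  have h6 : ContinuousAt (fun z : ℂ => (Real.pi : ℂ) * Complex.cot (Real.pi * z)) z :=
    continuousAt_const.mul h5
  exact h6.continuousWithinAt

private theorem FlPath_hh_lip (c B : ℝ) (hc : 0 < c) : ∃ K : ℝ, 0 < K ∧ ∀ z w : ℂ,
    z ∈ FlPath_box c B → w ∈ FlPath_box c B → ‖hh w - hh z‖ ≤ K * ‖w - z‖ := by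
  obtain ⟨K, hK0, hK⟩ := FlPath_cot_bound c B hc
  refine ⟨K, hK0, fun z w hz hw => ?_⟩
  refine (FlPath_convex c B).norm_image_sub_le_of_norm_hasDerivWithin_le (f := hh)
    (f' := fun z => (Real.pi : ℂ) * Complex.cot (Real.pi * z)) (C := K)
    (fun u hu => ?_) (fun u hu => ?_) hz hw
  · rw [FlPath_mem] at hu
    exact (hh_hasDerivAt u (by linarith [hu.1.1]) (by linarith [hu.1.2])).hasDerivWithinAt
  · rw [FlPath_mem] at hu
    exact hK u hu.1.1 hu.1.2 hu.2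

private theorem FlPath_taylor (c B : ℝ) (hc : 0 < c) : ∃ K : ℝ, 0 < K ∧ ∀ z w : ℂ,
    z ∈ FlPath_box c B → w ∈ FlPath_box c B → ‖ff w - ff z - (w - z) * hh z‖ ≤ K * ‖w - z‖ ^ 2 := by
  obtain ⟨K, hK0, hK⟩ := FlPath_hh_lip c B hc
  refine ⟨K, hK0, fun z w hz hw => ?_⟩
  have hseg : segment ℝ z w ⊆ FlPath_box c B := (FlPath_convex c B).segment_subset hz hw
  have hF : ∀ u ∈ segment ℝ z w, HasDerivWithinAt (fun u => ff u - (u - z) * hh z) (hh u - hh z)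
      (segment ℝ z w) u := by
    intro u hu
    have hu' := hseg hu
    rw [FlPath_mem] at hu'
    have h1 := ff_hasDerivAt u (by linarith [hu'.1.1]) (by linarith [hu'.1.2])
    have h2 : HasDerivAt (fun u : ℂ => (u - z) * hh z) (1 * hh z) u :=
      ((hasDerivAt_id u).sub_const z).mul_const _
    rw [one_mul] at h2
    exact (h1.sub h2).hasDerivWithinAt
  have hb : ∀ u ∈ segment ℝ z w, ‖hh u - hh z‖ ≤ K * ‖w - z‖ := by
    intro u hu
    refine (hK z u hz (hseg hu)).trans (mul_le_mul_of_nonneg_left ?_ hK0.le)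
    obtain ⟨a, b, ha, hb, hab, rfl⟩ := hu
    have e : a • z + b • w - z = (b : ℂ) * (w - z) := by
      have ha' : (a : ℂ) = 1 - b := by
        rw [← Complex.ofReal_one, ← Complex.ofReal_sub]
        congr 1
        linarith
      simp only [Complex.real_smul]
      rw [ha']
      ring
    rw [e, norm_mul, Complex.norm_real, Real.norm_eq_abs, abs_of_nonneg hb]
    exact mul_le_of_le_one_left (norm_nonneg _) (by linarith)
  have h := (convex_segment z w).norm_image_sub_le_of_norm_hasDerivWithin_le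
    (f := fun u => ff u - (u - z) * hh z) (f' := fun u => hh u - hh z) hF hb
    (left_mem_segment ℝ z w) (right_mem_segment ℝ z w)
  have e2 : ff w - ff z - (w - z) * hh z =
      (ff w - (w - z) * hh z) - (ff z - (z - z) * hh z) := by ring
  rw [e2]
  refine h.trans (le_of_eq ?_)
  ring

/-- Comparison with `ff`, uniform on compact sets. -/
private theorem FlPath_asym (c B : ℝ) (hc : 0 < c) : ∃ C : ℝ, 0 < C ∧ ∃ M0 : ℕ, ∀ M : ℕ, M0 ≤ M → ∀ b z : ℂ,
    ‖b‖ ≤ B → c ≤ z.re → z.re ≤ 1 - c → |z.im| ≤ B →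
    ‖LL M (M * z + b) - Real.log M / 2 - M * ff z - (b + 1 / 2) * hh z‖ ≤ C / M := by
  obtain ⟨C₀, hC₀, hL⟩ := LL_asym (c / 2) (B + 1) (by linarith)
  obtain ⟨K, hK0, hK⟩ := FlPath_taylor (c / 2) (B + 1) (by linarith)
  obtain ⟨M0, hM0⟩ := exists_nat_gt ((B + 1 / 2) / min (c / 2) 1)
  have hmin : 0 < min (c / 2) 1 := lt_min (by linarith) one_pos
  refine ⟨C₀ + K * (B + 1 / 2) ^ 2, by positivity, max M0 1, ?_⟩
  intro M hM b z hb h1 h2 h3
  have hM1 : 1 ≤ M := (le_max_right _ _).trans hM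
  have hMp : (0 : ℝ) < M := by exact_mod_cast hM1
  have hMr : (M0 : ℝ) ≤ M := by exact_mod_cast (le_max_left _ _).trans hM
  have hMC : (M : ℂ) ≠ 0 := by exact_mod_cast hMp.ne'
  have hB0 : 0 ≤ B := (norm_nonneg b).trans hb
  have hb2 : ‖b + 1 / 2‖ ≤ B + 1 / 2 := by
    refine (norm_add_le _ _).trans (add_le_add hb (le_of_eq ?_))
    simp
  set δ : ℂ := (b + 1 / 2) / M with hδ
  have hδn : ‖δ‖ = ‖b + 1 / 2‖ / M := by rw [hδ, norm_div, Complex.norm_natCast]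
  have hδ1 : ‖δ‖ ≤ min (c / 2) 1 := by
    rw [hδn, div_le_iff₀ hMp]
    rw [div_lt_iff₀ hmin] at hM0
    have : (M0 : ℝ) * min (c / 2) 1 ≤ M * min (c / 2) 1 := mul_le_mul_of_nonneg_right hMr hmin.le
    linarith
  have hδre := abs_le.1 ((Complex.abs_re_le_norm δ).trans (hδ1.trans (min_le_left _ _)))
  have hδim := abs_le.1 ((Complex.abs_im_le_norm δ).trans (hδ1.trans (min_le_right _ _)))
  have h3' := abs_le.1 h3
  have harg : (M : ℂ) * z + b = M * (z + δ) - 1 / 2 := by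
    rw [hδ]
    field_simp
    ring
  have hre1 : c / 2 ≤ (z + δ).re := by rw [Complex.add_re]; linarith [hδre.1]
  have hre2 : (z + δ).re ≤ 1 - c / 2 := by rw [Complex.add_re]; linarith [hδre.2]
  have him : |(z + δ).im| ≤ B + 1 := by
    rw [Complex.add_im, abs_le]
    constructor <;> linarith [hδim.1, hδim.2, h3'.1, h3'.2]
  have hA := hL M hM1 (z + δ) hre1 hre2 him
  have hT := hK z (z + δ) ((FlPath_mem _ _ _).2 ⟨⟨by linarith, by linarith⟩, by linarith⟩)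
    ((FlPath_mem _ _ _).2 ⟨⟨hre1, hre2⟩, him⟩)
  rw [add_sub_cancel_left] at hT
  have hT2 : ‖(M : ℂ) * (ff (z + δ) - ff z - δ * hh z)‖ ≤ K * (B + 1 / 2) ^ 2 / M := by
    rw [norm_mul, Complex.norm_natCast]
    calc (M : ℝ) * ‖ff (z + δ) - ff z - δ * hh z‖ ≤ M * (K * ‖δ‖ ^ 2) :=
          mul_le_mul_of_nonneg_left hT hMp.le
      _ = K * ‖b + 1 / 2‖ ^ 2 / M := by
          rw [hδn]
          field_simp
      _ ≤ K * (B + 1 / 2) ^ 2 / M := by
          refine div_le_div_of_nonneg_right (mul_le_mul_of_nonneg_left ?_ hK0.le) hMp.le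
          exact pow_le_pow_left₀ (norm_nonneg _) hb2 2
  have e : LL M (M * z + b) - Real.log M / 2 - M * ff z - (b + 1 / 2) * hh z =
      (LL M (M * (z + δ) - 1 / 2) - Real.log M / 2 - M * ff (z + δ)) +
        (M : ℂ) * (ff (z + δ) - ff z - δ * hh z) := by
    have e1 : (b + 1 / 2) * hh z = (M : ℂ) * (δ * hh z) := by
      rw [hδ]
      field_simp
    rw [harg, e1]
    ring
  rw [e]
  refine (norm_add_le _ _).trans ((add_le_add hA hT2).trans (le_of_eq ?_))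
  ring

/-! ### The path stays in a compact subset of the strip -/

private theorem FlPath_Tj_cont (v : ℂ) (h0 : |v.re| < 1 / 2) : ContinuousAt Tj v := by
  have hpi := Real.pi_pos
  have h1 := abs_lt.1 h0
  have hc : Complex.cos (Real.pi * (v + 1 / 2) / 2) ≠ 0 := by
    intro h
    rw [Complex.cos_eq_zero_iff] at h
    obtain ⟨k, hk⟩ := h
    have h2 := congrArg Complex.re hk
    have e1 : (Real.pi * (v + 1 / 2) / 2 : ℂ).re = Real.pi * (v.re + 1 / 2) / 2 := by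
      have : (Real.pi * (v + 1 / 2) / 2 : ℂ) = ((Real.pi / 2 : ℝ) : ℂ) * (v + 1 / 2) := by
        push_cast; ring
      rw [this, Complex.re_ofReal_mul, Complex.add_re]
      simp
      ring
    have e2 : ((2 * (k : ℂ) + 1) * Real.pi / 2 : ℂ).re = (2 * (k : ℝ) + 1) * Real.pi / 2 := by
      have : ((2 * (k : ℂ) + 1) * Real.pi / 2 : ℂ) =
          (((2 * (k : ℝ) + 1) * Real.pi / 2 : ℝ) : ℂ) := by
        push_cast; ring
      rw [this, Complex.ofReal_re]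
    rw [e1, e2] at h2
    have h3 : v.re + 1 / 2 = 2 * (k : ℝ) + 1 := by
      have : Real.pi * (v.re + 1 / 2 - (2 * (k : ℝ) + 1)) = 0 := by linarith
      rcases mul_eq_zero.1 this with h | h
      · exact absurd h hpi.ne'
      · linarith
    have h4 : (0 : ℝ) < 2 * (k : ℝ) + 1 := by linarith [h1.1]
    have h5 : 2 * (k : ℝ) + 1 < 1 := by linarith [h1.2]
    have h6 : (0 : ℤ) < 2 * k + 1 := by exact_mod_cast h4
    have h7 : 2 * k + 1 < (1 : ℤ) := by exact_mod_cast h5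
    omega
  have h2 : ContinuousAt (fun v : ℂ => (Real.pi * (v + 1 / 2) / 2 : ℂ)) v := by fun_prop
  exact ContinuousAt.comp (f := fun v : ℂ => (Real.pi * (v + 1 / 2) / 2 : ℂ)) (g := Complex.tan)
    (Complex.hasDerivAt_tan hc).continuousAt h2

private theorem FlPath_slit (z : ℂ) (h : 1 + z ^ 2 ∈ slitPlane) :
    (1 + z * I) / (1 - z * I) ∈ slitPlane ∧ 1 - z * I ≠ 0 := by
  have hprod : (1 + z * I) * (1 - z * I) = 1 + z ^ 2 := by
    linear_combination (-z ^ 2) * Complex.I_sq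
  have hne : 1 + z ^ 2 ≠ 0 := Complex.slitPlane_ne_zero h
  have h1 : 1 - z * I ≠ 0 := by
    intro h0
    rw [← hprod, h0, mul_zero] at hne
    exact hne rfl
  refine ⟨?_, h1⟩
  by_contra hw
  set w : ℂ := (1 + z * I) / (1 - z * I) with hwd
  rw [Complex.mem_slitPlane_iff, not_or, not_lt, not_not] at hw
  obtain ⟨hr, hi⟩ := hw
  have hwr : w = ((w.re : ℝ) : ℂ) := by
    apply Complex.ext
    · simp
    · simp [hi]
  have h2 : (1 - z * I) * (1 + w) = 2 := by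
    rw [hwd]
    field_simp
    ring
  have h3 : 1 + w ≠ 0 := by
    intro h0
    rw [h0, mul_zero] at h2
    norm_num at h2
  have h4 : 1 + z ^ 2 = w * (1 - z * I) ^ 2 := by
    rw [← hprod, hwd]
    field_simp
  have h5 : 1 - z * I = 2 / (1 + w) := by
    rw [eq_div_iff h3, h2]
  have h6 : 1 + z ^ 2 = ((w.re * (2 / (1 + w.re)) ^ 2 : ℝ) : ℂ) := by
    rw [h4, h5]
    push_cast
    rw [← hwr]
  rw [h6, Complex.mem_slitPlane_iff] at h
  rcases h with h | h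
  · rw [Complex.ofReal_re] at h
    have : w.re * (2 / (1 + w.re)) ^ 2 ≤ 0 := mul_nonpos_of_nonpos_of_nonneg hr (sq_nonneg _)
    linarith
  · rw [Complex.ofReal_im] at h
    exact h rfl

private theorem FlPath_arctan_cont (z : ℂ) (h : 1 + z ^ 2 ∈ slitPlane) :
    ContinuousAt Complex.arctan z := by
  obtain ⟨h1, h2⟩ := FlPath_slit z h
  have h3 : ContinuousAt (fun z : ℂ => (1 + z * I) / (1 - z * I)) z :=
    ContinuousAt.div (by fun_prop) (by fun_prop) h2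
  have h4 : ContinuousAt (fun z : ℂ => Complex.log ((1 + z * I) / (1 - z * I))) z :=
    ContinuousAt.clog h3 h1
  exact continuousAt_const.mul h4

private theorem FlPath_xt_cont (p : ℂ × ℝ) (h0 : |p.1.re| < 1 / 2) :
    ContinuousAt (fun p : ℂ × ℝ => xt p.1 p.2) p := by
  have h1 : ContinuousAt (fun p : ℂ × ℝ => (p.2 : ℂ) * Tj p.1) p := by
    refine ContinuousAt.mul ?_ ?_
    · exact (Complex.continuous_ofReal.comp continuous_snd).continuousAt
    · exact ContinuousAt.comp (f := fun p : ℂ × ℝ => p.1) (g := Tj) (FlPath_Tj_cont p.1 h0)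
        continuous_fst.continuousAt
  have h2 : 1 + ((p.2 : ℂ) * Tj p.1) ^ 2 ∈ slitPlane := by
    rw [mul_pow]
    exact one_add_ne p.1 h0 p.2
  have h3 : ContinuousAt (fun p : ℂ × ℝ => Complex.arctan ((p.2 : ℂ) * Tj p.1)) p :=
    ContinuousAt.comp (f := fun p : ℂ × ℝ => (p.2 : ℂ) * Tj p.1) (g := Complex.arctan)
      (FlPath_arctan_cont _ h2) h1
  exact h3.div_const _

/-- The closure of the domain times the interval. -/
private def FlPath_K : Set (ℂ × ℝ) :=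
  (Set.Icc (-(34 / 100) : ℝ) (34 / 100) ×ℂ Set.Icc (-(65 / 1000) : ℝ) (65 / 1000)) ×ˢ
    Set.Icc (-(9 / 10) : ℝ) (9 / 10)

private theorem FlPath_K_compact : IsCompact FlPath_K :=
  (isCompact_Icc.reProdIm isCompact_Icc).prod isCompact_Icc

private theorem FlPath_K_re {p : ℂ × ℝ} (hp : p ∈ FlPath_K) : |p.1.re| < 1 / 2 := by
  obtain ⟨h1, _⟩ := hp
  rw [Complex.mem_reProdIm] at h1
  rw [abs_lt]
  constructor <;> linarith [h1.1.1, h1.1.2]

private theorem FlPath_K_t {p : ℂ × ℝ} (hp : p ∈ FlPath_K) : |p.2| < 1 := by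
  obtain ⟨_, h2⟩ := hp
  rw [abs_lt]
  constructor <;> linarith [h2.1, h2.2]

private theorem FlPath_memK (v : ℂ) (hv : v ∈ UV) (t : ℝ) (ht : |t| ≤ 9 / 10) :
    (v, t) ∈ FlPath_K := by
  obtain ⟨h1, h2⟩ := hv
  refine ⟨?_, abs_le.1 ht⟩
  rw [Complex.mem_reProdIm]
  exact ⟨abs_le.1 h1.le, abs_le.1 h2.le⟩

private theorem FlPath_geo : ∃ c B : ℝ, 0 < c ∧ 0 < B ∧ ∀ v ∈ UV, ∀ t : ℝ, |t| ≤ 9 / 10 →
    (c ≤ (v + 1 / 2).re ∧ (v + 1 / 2).re ≤ 1 - c ∧ |(v + 1 / 2).im| ≤ B) ∧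
    (c ≤ ((v + 1 / 2) / 2 + xt v t).re ∧ ((v + 1 / 2) / 2 + xt v t).re ≤ 1 - c ∧
      |((v + 1 / 2) / 2 + xt v t).im| ≤ B) ∧
    (c ≤ ((v + 1 / 2) / 2 - xt v t).re ∧ ((v + 1 / 2) / 2 - xt v t).re ≤ 1 - c ∧
      |((v + 1 / 2) / 2 - xt v t).im| ≤ B) := by
  have hcont : ContinuousOn (fun p : ℂ × ℝ => xt p.1 p.2) FlPath_K := fun p hp =>
    (FlPath_xt_cont p (FlPath_K_re hp)).continuousWithinAt
  obtain ⟨B₀, hB₀⟩ := FlPath_K_compact.exists_bound_of_continuousOn hcont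
  have hcont2 : ContinuousOn (fun p : ℂ × ℝ => (p.1.re + 1 / 2) / 2 - |(xt p.1 p.2).re|)
      FlPath_K := by
    refine ContinuousOn.sub ?_ ?_
    · exact (((Complex.continuous_re.comp continuous_fst).add continuous_const).div_const
        _).continuousOn
    · exact (Complex.continuous_re.comp_continuousOn hcont).abs
  have hne : FlPath_K.Nonempty := by
    refine ⟨((0 : ℂ), (0 : ℝ)), FlPath_memK 0 ?_ 0 (by norm_num)⟩
    constructor <;> simp
  obtain ⟨p₀, hp₀, hmin⟩ := FlPath_K_compact.exists_isMinOn hne hcont2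
  set c₀ : ℝ := (p₀.1.re + 1 / 2) / 2 - |(xt p₀.1 p₀.2).re| with hc₀
  have hc₀pos : 0 < c₀ := by
    have := xt_re p₀.1 (FlPath_K_re hp₀) p₀.2 (FlPath_K_t hp₀)
    rw [hc₀]
    linarith
  refine ⟨min c₀ (16 / 100), |B₀| + 1, lt_min hc₀pos (by norm_num), by positivity, ?_⟩
  intro v hv t ht
  have hK := FlPath_memK v hv t ht
  have h1 : c₀ ≤ (v.re + 1 / 2) / 2 - |(xt v t).re| := hmin hK
  have h2 : ‖xt v t‖ ≤ B₀ := hB₀ (v, t) hK
  have h3 : ‖xt v t‖ ≤ |B₀| := h2.trans (le_abs_self _)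
  obtain ⟨hv1, hv2⟩ := hv
  have hv1' := abs_lt.1 hv1
  have hv2' := abs_lt.1 hv2
  have hx := abs_le.1 (le_refl |(xt v t).re|)
  have hy := abs_le.1 ((Complex.abs_im_le_norm _).trans h3)
  have hm1 : min c₀ (16 / 100) ≤ c₀ := min_le_left _ _
  have hm2 : min c₀ (16 / 100) ≤ 16 / 100 := min_le_right _ _
  have hB : 0 ≤ |B₀| := abs_nonneg _
  have e0 : (v + 1 / 2 : ℂ).re = v.re + 1 / 2 := by simp
  have e0' : (v + 1 / 2 : ℂ).im = v.im := by simp
  have e1 : ((v + 1 / 2) / 2 : ℂ).re = (v.re + 1 / 2) / 2 := by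
    rw [show ((v + 1 / 2) / 2 : ℂ) = ((1 / 2 : ℝ) : ℂ) * (v + 1 / 2) by push_cast; ring,
      Complex.re_ofReal_mul, e0]
    ring
  have e2 : ((v + 1 / 2) / 2 : ℂ).im = v.im / 2 := by
    rw [show ((v + 1 / 2) / 2 : ℂ) = ((1 / 2 : ℝ) : ℂ) * (v + 1 / 2) by push_cast; ring,
      Complex.im_ofReal_mul, e0']
    ring
  refine ⟨⟨?_, ?_, ?_⟩, ⟨?_, ?_, ?_⟩, ⟨?_, ?_, ?_⟩⟩
  · rw [e0]; linarith [hv1'.1]
  · rw [e0]; linarith [hv1'.2]
  · rw [e0', abs_le]
    constructor <;> linarith [hv2'.1, hv2'.2]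
  · rw [Complex.add_re, e1]; linarith [hx.1, hx.2]
  · rw [Complex.add_re, e1]; linarith [hx.1, hx.2, hv1'.2]
  · rw [Complex.add_im, e2, abs_le]
    constructor <;> linarith [hy.1, hy.2, hv2'.1, hv2'.2]
  · rw [Complex.sub_re, e1]; linarith [hx.1, hx.2]
  · rw [Complex.sub_re, e1]; linarith [hx.1, hx.2, hv1'.2]
  · rw [Complex.sub_im, e2, abs_le]
    constructor <;> linarith [hy.1, hy.2, hv2'.1, hv2'.2]

/-- The amplitude is bounded. -/
private theorem FlPath_amp_bound (n : ℕ) : ∃ C : ℝ, 0 < C ∧ ∀ v ∈ UV, ∀ t : ℝ, |t| ≤ 9 / 10 →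
    ‖amp n v t‖ ≤ C := by
  obtain ⟨c, B, hc, hB, hgeo⟩ := FlPath_geo
  obtain ⟨K, hK0, hK⟩ := FlPath_hh_bound c B hc
  refine ⟨Real.exp (‖(Real.pi * I * (n - 2) : ℂ)‖ * (1 + B) + ‖((n : ℂ) / 2 - 1)‖ * K +
    ‖((n : ℂ) - 1) / 2‖ * K + ‖(3 - (n : ℂ)) / 2‖ * K), Real.exp_pos _, ?_⟩
  intro v hv t ht
  obtain ⟨⟨a1, a2, a3⟩, ⟨b1, b2, b3⟩, ⟨d1, d2, d3⟩⟩ := hgeo v hv t ht
  have hz1 : ‖(v + 1 / 2) / 2 + xt v t‖ ≤ 1 + B := by
    refine (Complex.norm_le_abs_re_add_abs_im _).trans (add_le_add ?_ b3)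
    rw [abs_le]
    constructor <;> linarith
  rw [amp, Complex.norm_exp]
  refine Real.exp_le_exp.2 ?_
  refine (Complex.re_le_norm _).trans ?_
  refine (norm_sub_le _ _).trans (add_le_add ((norm_sub_le _ _).trans (add_le_add
    ((norm_add_le _ _).trans (add_le_add ?_ ?_)) ?_)) ?_)
  · rw [norm_mul]
    exact mul_le_mul_of_nonneg_left hz1 (norm_nonneg _)
  · rw [norm_mul]
    exact mul_le_mul_of_nonneg_left (hK _ a1 a2 a3) (norm_nonneg _)
  · rw [norm_mul]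
    exact mul_le_mul_of_nonneg_left (hK _ d1 d2 d3) (norm_nonneg _)
  · rw [norm_mul]
    exact mul_le_mul_of_nonneg_left (hK _ b1 b2 b3) (norm_nonneg _)

/-- Comparison with the potential, uniform on the domain. -/
theorem fl_path (n g : ℕ) (hg : 1 ≤ g) (hgn : g + 1 ≤ n) : ∃ C : ℝ, 0 < C ∧
    ∀ᶠ M : ℕ in atTop, ∀ v ∈ UV, ∀ t : ℝ, |t| ≤ 9 / 10 →
      ‖fl n g M (lv n M v) (mt n M v t) * ((M : ℝ) ^ (3 / 2 : ℝ) : ℝ) *
        exp (-(M * (ff (v + 1 / 2) + wt v t))) - amp n v t‖ ≤ C / M := by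
  obtain ⟨c, B, hc, hB, hgeo⟩ := FlPath_geo
  obtain ⟨A, hA0, hA⟩ := FlPath_amp_bound n
  set B' : ℝ := B + n + g + |bt n| with hB'
  have hbt0 : 0 ≤ |bt n| := abs_nonneg _
  have hn0 : (0 : ℝ) ≤ n := Nat.cast_nonneg n
  have hg0 : (0 : ℝ) ≤ g := Nat.cast_nonneg g
  have hgr : (1 : ℝ) ≤ g := by exact_mod_cast hg
  have hgnr : (g : ℝ) + 1 ≤ n := by exact_mod_cast hgn
  obtain ⟨C, hC0, M0, hC⟩ := FlPath_asym c B' hc
  set D : ℝ := 7 * C + ‖(Real.pi * I * (n - 2) * (bt n / 2) : ℂ)‖ with hD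
  have hD0 : 0 < D := by positivity
  refine ⟨A * (2 * D), by positivity, ?_⟩
  obtain ⟨M1, hM1⟩ := exists_nat_gt D
  filter_upwards [eventually_ge_atTop (max M0 (max M1 1))] with M hM v hv t ht
  have hMM0 : M0 ≤ M := (le_max_left _ _).trans hM
  have hMM1 : M1 ≤ M := (le_max_left _ _).trans ((le_max_right _ _).trans hM)
  have hM1' : 1 ≤ M := (le_max_right _ _).trans ((le_max_right _ _).trans hM)
  have hMp : (0 : ℝ) < M := by exact_mod_cast hM1'
  have hMC : (M : ℂ) ≠ 0 := by exact_mod_cast hMp.ne'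
  have hDM : D ≤ M := hM1.le.trans (by exact_mod_cast hMM1)
  obtain ⟨⟨a1, a2, a3⟩, ⟨b1, b2, b3⟩, ⟨d1, d2, d3⟩⟩ := hgeo v hv t ht
  have hBB : B ≤ B' := by rw [hB']; linarith
  set z0 : ℂ := v + 1 / 2 with hz0
  set z1 : ℂ := (v + 1 / 2) / 2 + xt v t with hz1
  set z2 : ℂ := (v + 1 / 2) / 2 - xt v t with hz2
  have key : ∀ r : ℝ, |r| ≤ B' → ‖(r : ℂ)‖ ≤ B' := fun r hr => by
    rwa [Complex.norm_real, Real.norm_eq_abs]
  have hbt := abs_le.1 (le_refl |bt n|)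
  have k0 := hC M hMM0 ((-bt n : ℝ) : ℂ) z0
    (key _ (by rw [abs_neg]; linarith)) a1 a2 (a3.trans hBB)
  have k1 := hC M hMM0 ((-bt n + (n - g - 1) : ℝ) : ℂ) z0
    (key _ (by rw [abs_le]; constructor <;> linarith [hbt.1, hbt.2])) a1 a2 (a3.trans hBB)
  have k2 := hC M hMM0 ((-bt n + (g - 1) : ℝ) : ℂ) z0
    (key _ (by rw [abs_le]; constructor <;> linarith [hbt.1, hbt.2])) a1 a2 (a3.trans hBB)
  have k3 := hC M hMM0 ((-(bt n / 2) + (n - g - 1) : ℝ) : ℂ) z2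
    (key _ (by rw [abs_le]; constructor <;> linarith [hbt.1, hbt.2])) d1 d2 (d3.trans hBB)
  have k4 := hC M hMM0 ((-(bt n / 2) + (g - 1) : ℝ) : ℂ) z2
    (key _ (by rw [abs_le]; constructor <;> linarith [hbt.1, hbt.2])) d1 d2 (d3.trans hBB)
  have k5 := hC M hMM0 ((-(bt n / 2) : ℝ) : ℂ) z1
    (key _ (by rw [abs_le]; constructor <;> linarith [hbt.1, hbt.2])) b1 b2 (b3.trans hBB)
  have hl : lv n M v = M * z0 - bt n := rfl
  have hm : mt n M v t = M * z1 - bt n / 2 := by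
    rw [mt, hl, hz1, xt, hz0]
    ring
  have r0 : lv n M v = M * z0 + ((-bt n : ℝ) : ℂ) := by
    rw [hl]; push_cast; ring
  have r1 : lv n M v + n - g - 1 = M * z0 + ((-bt n + (n - g - 1) : ℝ) : ℂ) := by
    rw [hl]; push_cast; ring
  have r2 : lv n M v + g - 1 = M * z0 + ((-bt n + (g - 1) : ℝ) : ℂ) := by
    rw [hl]; push_cast; ring
  have hz12 : z0 = z1 + z2 := by rw [hz0, hz1, hz2]; ring
  have r3 : lv n M v + n - g - 1 - mt n M v t = M * z2 + ((-(bt n / 2) + (n - g - 1) : ℝ) : ℂ) := by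
    rw [hl, hm, hz12]; push_cast; ring
  have r4 : lv n M v + g - 1 - mt n M v t = M * z2 + ((-(bt n / 2) + (g - 1) : ℝ) : ℂ) := by
    rw [hl, hm, hz12]; push_cast; ring
  have r5 : mt n M v t = M * z1 + ((-(bt n / 2) : ℝ) : ℂ) := by
    rw [hm]; push_cast; ring
  rw [← r0] at k0
  rw [← r1] at k1
  rw [← r2] at k2
  rw [← r3] at k3
  rw [← r4] at k4
  rw [← r5] at k5
  set E0 : ℂ := LL M (lv n M v) - Real.log M / 2 - M * ff z0 -
    (((-bt n : ℝ) : ℂ) + 1 / 2) * hh z0 with hE0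
  set E1 : ℂ := LL M (lv n M v + n - g - 1) - Real.log M / 2 - M * ff z0 -
    (((-bt n + (n - g - 1) : ℝ) : ℂ) + 1 / 2) * hh z0 with hE1
  set E2 : ℂ := LL M (lv n M v + g - 1) - Real.log M / 2 - M * ff z0 -
    (((-bt n + (g - 1) : ℝ) : ℂ) + 1 / 2) * hh z0 with hE2
  set E3 : ℂ := LL M (lv n M v + n - g - 1 - mt n M v t) - Real.log M / 2 - M * ff z2 -
    (((-(bt n / 2) + (n - g - 1) : ℝ) : ℂ) + 1 / 2) * hh z2 with hE3
  set E4 : ℂ := LL M (lv n M v + g - 1 - mt n M v t) - Real.log M / 2 - M * ff z2 -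
    (((-(bt n / 2) + (g - 1) : ℝ) : ℂ) + 1 / 2) * hh z2 with hE4
  set E5 : ℂ := LL M (mt n M v t) - Real.log M / 2 - M * ff z1 -
    (((-(bt n / 2) : ℝ) : ℂ) + 1 / 2) * hh z1 with hE5
  set E : ℂ := -E0 + E1 + E2 - E3 - E4 - 2 * E5 - Real.pi * I * (n - 2) * (bt n / 2) / M with hE
  have hEn : ‖E‖ ≤ D / M := by
    have e1 : ‖(Real.pi * I * (n - 2) * (bt n / 2) / M : ℂ)‖ =
        ‖(Real.pi * I * (n - 2) * (bt n / 2) : ℂ)‖ / M := by
      rw [norm_div, Complex.norm_natCast]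
    have e2 : ‖(2 * E5 : ℂ)‖ = 2 * ‖E5‖ := by rw [norm_mul, Complex.norm_ofNat]
    calc ‖E‖ ≤ ‖-E0‖ + ‖E1‖ + ‖E2‖ + ‖E3‖ + ‖E4‖ + ‖2 * E5‖ +
          ‖(Real.pi * I * (n - 2) * (bt n / 2) / M : ℂ)‖ := by
          rw [hE]
          refine (norm_sub_le _ _).trans (add_le_add ?_ le_rfl)
          refine (norm_sub_le _ _).trans (add_le_add ?_ le_rfl)
          refine (norm_sub_le _ _).trans (add_le_add ?_ le_rfl)
          refine (norm_sub_le _ _).trans (add_le_add ?_ le_rfl)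
          refine (norm_add_le _ _).trans (add_le_add ?_ le_rfl)
          exact norm_add_le _ _
      _ ≤ C / M + C / M + C / M + C / M + C / M + 2 * (C / M) +
          ‖(Real.pi * I * (n - 2) * (bt n / 2) : ℂ)‖ / M := by
          rw [norm_neg, e1, e2]
          linarith
      _ = D / M := by rw [hD]; ring
  have hE1n : ‖E‖ ≤ 1 := hEn.trans ((div_le_one hMp).2 hDM)
  have hpow : (((M : ℝ) ^ (3 / 2 : ℝ) : ℝ) : ℂ) = exp (3 / 2 * (Real.log M : ℂ)) := by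
    rw [Real.rpow_def_of_pos hMp, Complex.ofReal_exp]
    congr 1
    push_cast
    ring
  have hmain : fl n g M (lv n M v) (mt n M v t) * ((M : ℝ) ^ (3 / 2 : ℝ) : ℝ) *
      exp (-(M * (ff z0 + wt v t))) = amp n v t * exp E := by
    have hβ : (bt n : ℂ) = ((n : ℂ) - 1) / 2 := by
      rw [bt]; push_cast; ring
    rw [hpow, fl, tau, qp, amp, ← Complex.exp_add, ← Complex.exp_add, ← Complex.exp_add,
      ← Complex.exp_add, ← Complex.exp_add]
    congr 1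
    have hq : (Real.pi * I * ((n - 2) * mt n M v t) / M : ℂ) =
        Real.pi * I * (n - 2) * z1 - Real.pi * I * (n - 2) * (bt n / 2) / M := by
      rw [hm]
      field_simp
    rw [hq, wt, hE, hE0, hE1, hE2, hE3, hE4, hE5]
    rw [← hz1, ← hz2, ← hz0]
    push_cast
    rw [hβ]
    ring
  rw [hmain]
  have h1 : amp n v t * exp E - amp n v t = amp n v t * (exp E - 1) := by ring
  rw [h1, norm_mul]
  calc ‖amp n v t‖ * ‖exp E - 1‖ ≤ A * (2 * (D / M)) := by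
        refine mul_le_mul (hA v hv t ht) ?_ (norm_nonneg _) hA0.le
        exact (Complex.norm_exp_sub_one_le hE1n).trans (by linarith)
    _ = A * (2 * D) / M := by ring

/-- The amplitude is bounded. -/
theorem amp_bound (n : ℕ) : ∃ C : ℝ, 0 < C ∧ ∀ v ∈ UV, ∀ t : ℝ, |t| ≤ 9 / 10 →
    ‖amp n v t‖ ≤ C := FlPath_amp_bound n

end Pool.Agent.H63.TW
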