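import Pool.Agent.H63.TW.JetV

/-! # The dual formula for the derivatives -/

namespace Pool.Agent.H63.TW

open Pool.Agent.H63.VC Pool.Agent.H63.VC3 Complex
open scoped BigOperators

section aux

open Filter Topology

private lemma JetD_qadd (M : ℕ) (x y : ℂ) : qp M (x + y) = qp M x * qp M y := by
  unfold qp
  rw [← Complex.exp_add]
  congr 1
  ring

private lemma JetD_q0 (M : ℕ) : qp M 0 = 1 := by
  unfold qp
  simp

private lemma JetD_qM (M : ℕ) (hM : 1 ≤ M) : qp M M = -1 := by
  have h : (M : ℂ) ≠ 0 := by exact_mod_cast (by omega : M ≠ 0)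
  unfold qp
  rw [mul_div_assoc, div_self h, mul_one, Complex.exp_pi_mul_I]

private lemma JetD_qMh (M : ℕ) (hM : 1 ≤ M) : qp M ((M : ℂ) / 2) = I := by
  have h : (M : ℂ) ≠ 0 := by exact_mod_cast (by omega : M ≠ 0)
  unfold qp
  have e : (Real.pi : ℂ) * I * ((M : ℂ) / 2) / M = (Real.pi : ℂ) / 2 * I := by
    field_simp
  rw [e, Complex.exp_mul_I, Complex.cos_pi_div_two, Complex.sin_pi_div_two]
  ring

private lemma JetD_sn (M : ℕ) (x : ℂ) : sn M x = -I * (qp M x - qp M (-x)) := by
  unfold sn qp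
  rw [Complex.sin, show (Real.pi : ℂ) * x / M * I = Real.pi * I * x / M by ring,
    show -((Real.pi : ℂ) * x / M) * I = Real.pi * I * (-x) / M by ring]
  ring

private lemma JetD_sn_neg (M : ℕ) (x : ℂ) : sn M (-x) = -sn M x := by
  unfold sn
  rw [show (Real.pi : ℂ) * (-x) / M = -(Real.pi * x / M) by ring, Complex.sin_neg]
  ring

private lemma JetD_sn_M (M : ℕ) (hM : 1 ≤ M) (x : ℂ) : sn M (M + x) = -sn M x := by
  have h : (M : ℂ) ≠ 0 := by exact_mod_cast (by omega : M ≠ 0)
  unfold sn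
  rw [show (Real.pi : ℂ) * (M + x) / M = Real.pi * x / M + Real.pi by field_simp; ring,
    Complex.sin_add_pi]
  ring

private lemma JetD_sn_zero (M : ℕ) : sn M 0 = 0 := by
  unfold sn
  simp

private lemma JetD_sn_MM (M : ℕ) (hM : 1 ≤ M) : sn M M = 0 := by
  have h := JetD_sn_M M hM 0
  rw [add_zero, JetD_sn_zero, neg_zero] at h
  exact h

private lemma JetD_ne (M : ℕ) (x : ℂ) (k : ℕ) (hx : x = k) (h0 : 0 < k) (h1 : k < M) :
    sn M x ≠ 0 := by
  have e : sn M x = ((2 * Real.sin (Real.pi * k / M) : ℝ) : ℂ) := by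
    rw [hx]
    unfold sn
    push_cast
    rfl
  rw [e]
  have hk : (0 : ℝ) < k := by exact_mod_cast h0
  have hM : (0 : ℝ) < M := by exact_mod_cast (by omega : 0 < M)
  have hkM : (k : ℝ) < M := by exact_mod_cast h1
  have h2 : 0 < Real.pi * k / M := by positivity
  have h3 : Real.pi * k / M < Real.pi := by
    rw [div_lt_iff₀ hM]
    exact mul_lt_mul_of_pos_left hkM Real.pi_pos
  have h4 := Real.sin_pos_of_pos_of_lt_pi h2 h3
  exact_mod_cast (ne_of_gt (mul_pos two_pos h4))

private lemma JetD_ct {F : ℂ → ℂ} {a : ℂ} (h : ContinuousAt F a) :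
    Tendsto (fun e : ℂ => F (a + e)) (𝓝[≠] 0) (𝓝 (F a)) := by
  have h1 : Tendsto (fun e : ℂ => a + e) (𝓝 0) (𝓝 a) := by
    have hc : Continuous fun e : ℂ => a + e := by fun_prop
    have := hc.tendsto (0 : ℂ)
    simpa using this
  exact (h.tendsto.comp h1).mono_left nhdsWithin_le_nhds

private lemma JetD_sl {F : ℂ → ℂ} {a F' : ℂ} (h : HasDerivAt F F' a) (h0 : F a = 0) :
    Tendsto (fun e : ℂ => F (a + e) / e) (𝓝[≠] 0) (𝓝 F') := by
  have := h.tendsto_slope_zero
  simpa [h0, div_eq_inv_mul] using this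

private lemma JetD_negt : Tendsto (fun e : ℂ => -e) (𝓝[≠] 0) (𝓝[≠] 0) := by
  rw [tendsto_nhdsWithin_iff]
  constructor
  · have := (continuous_neg : Continuous fun e : ℂ => -e).tendsto (0 : ℂ)
    rw [neg_zero] at this
    exact this.mono_left nhdsWithin_le_nhds
  · filter_upwards [self_mem_nhdsWithin] with e he
    simpa using he

private lemma JetD_snd (M : ℕ) : Differentiable ℂ (sn M) := by
  unfold sn
  fun_prop

private lemma JetD_snl (M : ℕ) :
    Tendsto (fun e : ℂ => sn M e / e) (𝓝[≠] 0) (𝓝 (2 * Real.pi / M)) := by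
  have h : HasDerivAt (sn M) (2 * Real.pi / M) 0 := by
    have h1 : HasDerivAt (fun x : ℂ => (Real.pi : ℂ) * x / M) (Real.pi * 1 / M) 0 :=
      ((hasDerivAt_id (0 : ℂ)).const_mul (Real.pi : ℂ)).div_const (M : ℂ)
    have h2 := (h1.csin).const_mul (2 : ℂ)
    have e : (2 : ℂ) * (Complex.cos ((Real.pi : ℂ) * 0 / M) * (Real.pi * 1 / M)) =
        2 * Real.pi / M := by
      simp
      ring
    rw [e] at h2
    exact h2
  have := JetD_sl h (JetD_sn_zero M)
  simpa using this

private lemma JetD_Ap (n g M : ℕ) : Differentiable ℂ (Ap n g M) := by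
  unfold Ap sn qp
  fun_prop

private lemma JetD_Am (n g M : ℕ) : Differentiable ℂ (Am n g M) := by
  unfold Am sn qp
  fun_prop

private lemma JetD_A0 (n g M : ℕ) : Differentiable ℂ (A0 n g M) := by
  unfold A0 sn qp
  fun_prop

private lemma JetD_BN (n M : ℕ) : Differentiable ℂ (BN n M) := by
  unfold BN sn
  fun_prop

private lemma JetD_gph (n M : ℕ) : Differentiable ℂ (gph n M) := by
  unfold gph qp
  fun_prop

private lemma JetD_D (n g M : ℕ) :
    Differentiable ℂ (fun x => Dpl n M x + Dze n g M x + Dmi n M x) := by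
  unfold Dze Dpl Dmi sn qp
  fun_prop

/-! ### The error terms -/

private lemma JetD_castsub (n g : ℕ) (hgn : g + 1 ≤ n) : ((n - g : ℕ) : ℂ) = n - g := by
  rw [Nat.cast_sub (by omega)]

private lemma JetD_alg (s₁ q u v W C a b D s e : ℂ) :
    s₁ * -(q * (u * v) * (W * (C * (-(s / e) * a) * (-(s / e) * b)) / D)) =
      -(q * (u * v * s₁) * (W * (C * (-s * a) * (-s * b)) / D)) / e ^ 2 := by
  ring

/-- The error term of `Gm` has a double zero (a triple zero at the middle). -/
private lemma JetD_EG (n g M : ℕ) (hgn : g + 1 ≤ n) (l : ℕ)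
    (h1 : 1 ≤ l) (h2 : l + n ≤ M) :
    ∃ K, Tendsto (fun e : ℂ => EG n g M (l + e) / e ^ 2) (𝓝[≠] 0)
      (𝓝 (sn M (2 * l + n) * K)) := by
  classical
  have hM1 : 1 ≤ M := by omega
  obtain ⟨l', hl'⟩ : ∃ l' : ℕ, l + l' + n = M + 1 := ⟨M + 1 - n - l, by omega⟩
  have hl'c : (l : ℂ) + l' + n = M + 1 := by exact_mod_cast hl'
  set A : ℂ → ℂ := fun x => ∏ i ∈ (Finset.Ico 1 M).erase l, sn M (i - x) with hA
  set B : ℂ → ℂ := fun x => ∏ i ∈ (Finset.Ico 1 M).erase l', sn M (i + x + n - 1) with hB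
  set C : ℂ := ∏ _i ∈ Finset.Ico 1 M, (-1 : ℂ) with hC
  have hAd : Differentiable ℂ A := by
    simp only [hA]
    unfold sn
    fun_prop
  have hBd : Differentiable ℂ B := by
    simp only [hB]
    unfold sn
    fun_prop
  have hPr : ∀ x : ℂ, Pr n M 0 x = C * (sn M (l - x) * A x) * (sn M (l' + x + n - 1) * B x) := by
    intro x
    unfold Pr
    rw [zero_add]
    have e1 : ∀ i ∈ Finset.Ico 1 M, -(sn M ((i : ℂ) - x) * sn M (i + x + n - 1)) =
        (-1) * sn M ((i : ℂ) - x) * sn M (i + x + n - 1) := fun i _ => by ring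
    rw [Finset.prod_congr rfl e1, Finset.prod_mul_distrib, Finset.prod_mul_distrib]
    rw [← Finset.mul_prod_erase (Finset.Ico 1 M) (fun i : ℕ => sn M ((i : ℂ) - x))
      (Finset.mem_Ico.2 ⟨h1, by omega⟩)]
    rw [← Finset.mul_prod_erase (Finset.Ico 1 M) (fun i : ℕ => sn M ((i : ℂ) + x + n - 1))
      (Finset.mem_Ico.2 ⟨by omega, by omega⟩ : l' ∈ Finset.Ico 1 M)]
  have hBN : BN n M l ≠ 0 := by
    unfold BN
    rw [Finset.prod_ne_zero_iff]
    intro i hi
    rw [Finset.mem_range] at hi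
    exact JetD_ne M _ (l + i + 1) (by push_cast; ring) (by omega) (by omega)
  set c0 : ℂ := 2 * Real.pi / M with hc0
  refine ⟨-(qp M (-n) * (sn M (2 * l + n - 2) * sn M (2 * l + n - 1)) *
    (BC n g M 0 * (starRingEnd ℂ) (Th n M 0) * (C * (-c0 * A l) * (-c0 * B l)) / BN n M l)), ?_⟩
  have t1 := JetD_ct (hAd.continuous.continuousAt (x := (l : ℂ)))
  have t2 := JetD_ct (hBd.continuous.continuousAt (x := (l : ℂ)))
  have t3 := JetD_ct ((JetD_BN n M).continuous.continuousAt (x := (l : ℂ)))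
  have t4 := JetD_snl M
  have d1 : Differentiable ℂ (fun x : ℂ => sn M (2 * x + n)) := by unfold sn; fun_prop
  have d2 : Differentiable ℂ (fun x : ℂ => sn M (2 * x + n - 2) * sn M (2 * x + n - 1)) := by
    unfold sn; fun_prop
  have t5 := JetD_ct (d1.continuous.continuousAt (x := (l : ℂ)))
  have t6 := JetD_ct (d2.continuous.continuousAt (x := (l : ℂ)))
  have key := t5.mul (((t6.const_mul (qp M (-n))).mul
    (((((t4.neg.mul t1).const_mul C).mul (t4.neg.mul t2)).const_mul
      (BC n g M 0 * (starRingEnd ℂ) (Th n M 0))).div t3 hBN)).neg)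
  refine key.congr' ?_
  filter_upwards [self_mem_nhdsWithin] with e he
  have he' : e ≠ 0 := he
  simp only [Pi.div_apply]
  unfold EG
  rw [hPr, show (l : ℂ) - (l + e) = -e by ring, JetD_sn_neg,
    show (l' : ℂ) + (l + e) + n - 1 = M + e by linear_combination hl'c, JetD_sn_M M hM1]
  exact JetD_alg _ _ _ _ _ _ _ _ _ _ _

/-- The leading coefficient of the error term of `Xx`. -/
private noncomputable def JetD_N (n g M : ℕ) (l : ℂ) : ℂ :=
  gph n M l * exp (-LL M l) * (qp M (n - 2) *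
    (qp M ((n - 2) * (M - 1)) * (-1) ^ n * 4 * (Real.pi : ℂ) ^ 2 / (M : ℂ) ^ 2 /
      (sn M (l + n - g) * sn M (l + g))) * (Dpl n M l + Dze n g M l + Dmi n M l))

private lemma JetD_EX (n g M : ℕ) (hg : 1 ≤ g) (hgn : g + 1 ≤ n) (l : ℕ)
    (h2 : l + n ≤ M) :
    Tendsto (fun e : ℂ => EX n g M (l + e) / e ^ 2) (𝓝[≠] 0) (𝓝 (JetD_N n g M l)) := by
  have hM1 : 1 ≤ M := by omega
  have n1 : sn M ((l : ℂ) + n - g) ≠ 0 :=
    JetD_ne M _ (l + n - g) (by rw [Nat.cast_sub (by omega)]; push_cast; ring) (by omega)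
      (by omega)
  have n2 : sn M ((l : ℂ) + g) ≠ 0 :=
    JetD_ne M _ (l + g) (by push_cast; ring) (by omega) (by omega)
  have d1 : Differentiable ℂ (fun x : ℂ => sn M (x + n - g) * sn M (x + g)) := by
    unfold sn; fun_prop
  have t1 := JetD_ct (d1.continuous.continuousAt (x := (l : ℂ)))
  have t2 := JetD_ct ((JetD_gph n M).continuous.continuousAt (x := (l : ℂ)))
  have t3 := JetD_ct ((JetD_D n g M).continuous.continuousAt (x := (l : ℂ)))
  have cL : ContinuousAt (fun x : ℂ => exp (-LL M x)) (l : ℂ) := by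
    have h := LL_differentiableAt M (by omega) (l : ℂ)
      (by rw [Complex.natCast_re]; have : (0 : ℝ) ≤ l := Nat.cast_nonneg l; linarith only [])
      (by rw [Complex.natCast_re]; exact_mod_cast (by omega : l < M))
    exact (h.neg.cexp).continuousAt
  have t4 := JetD_ct cL
  have hs : HasDerivAt (fun x : ℂ => sin (Real.pi * x)) (Complex.cos (Real.pi * l) * Real.pi)
      (l : ℂ) := by
    have h1 : HasDerivAt (fun x : ℂ => (Real.pi : ℂ) * x) (Real.pi * 1) (l : ℂ) :=
      (hasDerivAt_id (l : ℂ)).const_mul (Real.pi : ℂ)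
    have h2 := h1.csin
    rw [mul_one] at h2
    exact h2
  have hs0 : sin ((Real.pi : ℂ) * l) = 0 := by
    rw [mul_comm]
    exact Complex.sin_nat_mul_pi l
  have hc2 : Complex.cos ((Real.pi : ℂ) * l) ^ 2 = 1 := by
    have := Complex.sin_sq_add_cos_sq ((Real.pi : ℂ) * l)
    rw [hs0] at this
    linear_combination this
  have t5 := (JetD_sl hs hs0).pow 2
  have key := (t2.mul t4).mul ((((t5.const_mul (qp M ((n - 2) * (M - 1)) * (-1) ^ n * 4 /
    (M : ℂ) ^ 2)).div t1 (mul_ne_zero n1 n2)).const_mul (qp M (n - 2))).mul t3)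
  have e1 : gph n M l * exp (-LL M l) * (qp M (n - 2) *
      (qp M ((n - 2) * (M - 1)) * (-1) ^ n * 4 / (M : ℂ) ^ 2 *
        (Complex.cos ((Real.pi : ℂ) * l) * Real.pi) ^ 2 / (sn M (l + n - g) * sn M (l + g))) *
      (Dpl n M l + Dze n g M l + Dmi n M l)) = JetD_N n g M l := by
    unfold JetD_N
    rw [mul_pow, hc2]
    ring
  rw [← e1]
  refine key.congr' ?_
  have ev := t1.eventually_ne (mul_ne_zero n1 n2)
  filter_upwards [self_mem_nhdsWithin, ev] with e he hne
  have he' : e ≠ 0 := he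
  simp only [Pi.div_apply]
  unfold EX
  have htt := tt_last n g M hg hgn (by omega) ((l : ℂ) + e)
  have htt2 : tt n g M ((l : ℂ) + e) (M - 1) = qp M ((n - 2) * (M - 1)) * (-1) ^ n * 4 *
      sin (Real.pi * ((l : ℂ) + e)) ^ 2 / (M : ℂ) ^ 2 /
      (sn M ((l : ℂ) + e + n - g) * sn M ((l : ℂ) + e + g)) := by
    rw [eq_div_iff hne]
    exact htt
  rw [htt2]
  ring

/-- The two middle coefficients agree. -/
private lemma JetD_mid (n g M h : ℕ) (hg : 1 ≤ g) (hgn : g + 1 ≤ n) (hM : 2 * n + 2 ≤ M)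
    (hh : 2 * h + n = M) : JetD_N n g M h = JetD_N n g M ((h : ℂ) + 1) := by
  have hM1 : 1 ≤ M := by omega
  have hc : 2 * (h : ℂ) + n = M := by exact_mod_cast hh
  have n1 : sn M ((h : ℂ) + n - g) ≠ 0 :=
    JetD_ne M _ (h + n - g) (by rw [Nat.cast_sub (by omega)]; push_cast; ring) (by omega)
      (by omega)
  have n2 : sn M ((h : ℂ) + g) ≠ 0 :=
    JetD_ne M _ (h + g) (by push_cast; ring) (by omega) (by omega)
  have n3 : sn M ((h : ℂ) + 1 + n - g) ≠ 0 :=
    JetD_ne M _ (h + 1 + n - g) (by rw [Nat.cast_sub (by omega)]; push_cast; ring) (by omega)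
      (by omega)
  have n4 : sn M ((h : ℂ) + 1 + g) ≠ 0 :=
    JetD_ne M _ (h + 1 + g) (by push_cast; ring) (by omega) (by omega)
  have n5 : sn M ((h : ℂ) + 1) ≠ 0 :=
    JetD_ne M _ (h + 1) (by push_cast; ring) (by omega) (by omega)
  have hL : exp (-LL M h) = sn M ((h : ℂ) + 1) * exp (-LL M ((h : ℂ) + 1)) := by
    have h1 := LL_nat M h (by omega)
    have h2 := LL_nat M (h + 1) (by omega)
    rw [S_succ] at h2
    have h3 : ((sg M (h + 1) : ℝ) : ℂ) = sn M ((h : ℂ) + 1) := by
      unfold sg sn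
      push_cast
      rfl
    push_cast at h2
    rw [h3, ← h1] at h2
    rw [Complex.exp_neg, Complex.exp_neg, h2, mul_inv]
    field_simp
  have s0 : sn M (M : ℂ) = 0 := JetD_sn_MM M hM1
  have s1 : sn M (2 * (h : ℂ) + n) = 0 := by rw [hc, s0]
  have s2 : sn M (2 * (h : ℂ) + n - 2) = sn M 2 := by
    rw [hc, show (M : ℂ) - 2 = M + (-2) by ring, JetD_sn_M M hM1, JetD_sn_neg, neg_neg]
  have s3 : sn M ((h : ℂ) + n - g) = sn M ((h : ℂ) + g) := by
    rw [show (h : ℂ) + n - g = M + (-(h + g)) by rw [← hc]; ring, JetD_sn_M M hM1, JetD_sn_neg,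
      neg_neg]
  have eA : JetD_N n g M h = gph n M h * exp (-LL M h) * (qp M (n - 2) *
      (qp M ((n - 2) * (M - 1)) * (-1) ^ n * 4 * (Real.pi : ℂ) ^ 2 / (M : ℂ) ^ 2) *
        (-qp M (-1) * sn M 2)) := by
    have e0 : Dpl n M h + Dze n g M h + Dmi n M h = -qp M (-1) * (sn M ((h : ℂ) + g) ^ 2 * sn M 2) := by
      unfold Dze Dpl Dmi
      rw [s1, s2]
      ring
    unfold JetD_N
    rw [e0, s3]
    have e3 : ∀ Q a b : ℂ, a ≠ 0 → Q / (a * a) * (-qp M (-1) * (a ^ 2 * b)) =
        Q * (-qp M (-1) * b) := by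
      intro Q a b ha
      field_simp
    linear_combination (gph n M h * exp (-LL M h) * qp M (n - 2)) *
      e3 (qp M ((n - 2) * (M - 1)) * (-1) ^ n * 4 * (Real.pi : ℂ) ^ 2 / (M : ℂ) ^ 2)
        (sn M ((h : ℂ) + g)) (sn M 2) n2
  set l : ℂ := (h : ℂ) + 1 with hl
  set y : ℂ := l + n - g with hy
  have hl2 : 2 * l + n - 2 = M := by rw [hl, ← hc]; ring
  have s4 : sn M (2 * l + n - 2) = 0 := by rw [hl2, s0]
  have s5 : sn M (2 * l + n) = -sn M 2 := by
    rw [show 2 * l + (n : ℂ) = M + 2 by rw [← hl2]; ring, JetD_sn_M M hM1]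
  have s6 : sn M (l + n - 2) = sn M l := by
    rw [show l + (n : ℂ) - 2 = M + (-l) by rw [← hl2]; ring, JetD_sn_M M hM1, JetD_sn_neg,
      neg_neg]
  have qI : qp M y - qp M (-y) = I * sn M y := by
    rw [JetD_sn]
    linear_combination (qp M y - qp M (-y)) * Complex.I_sq
  have qy : qp M (2 * y) = qp M y * qp M y := by rw [← JetD_qadd]; congr 1; ring
  have qy' : qp M (-(2 * y)) = qp M (-y) * qp M (-y) := by rw [← JetD_qadd]; congr 1; ring
  have qyy : qp M y * qp M (-y) = 1 := by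
    rw [← JetD_qadd, add_neg_cancel, JetD_q0]
  have qMn : qp M (-M : ℂ) = -1 := by
    have h1 : qp M (M : ℂ) * qp M (-M : ℂ) = 1 := by
      rw [← JetD_qadd, add_neg_cancel, JetD_q0]
    rw [JetD_qM M hM1] at h1
    linear_combination -h1
  have q1 : qp M (-n - 1 - 3 * l) * qp M y = -qp M (n - 3 - g) := by
    rw [← JetD_qadd, show -(n : ℂ) - 1 - 3 * l + y = (n - 3 - g) + (-M) by
      rw [hy]; linear_combination -hl2, JetD_qadd, qMn]
    ring
  have q2 : qp M (2 * n - 3 + 3 * l) * qp M (-y) = -qp M (g - 1) := by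
    rw [← JetD_qadd, show 2 * (n : ℂ) - 3 + 3 * l + -y = (g - 1) + M by
      rw [hy]; linear_combination hl2, JetD_qadd, JetD_qM M hM1]
    ring
  have q3 : sn M (l + g) * qp M ((n - 4) / 2) = qp M (n - 3 - g) + qp M (g - 1) := by
    have hI : qp M ((M : ℂ) / 2) = I := JetD_qMh M hM1
    have hI' : qp M (-((M : ℂ) / 2)) = -I := by
      have h1 : qp M ((M : ℂ) / 2) * qp M (-((M : ℂ) / 2)) = 1 := by
        rw [← JetD_qadd, add_neg_cancel, JetD_q0]
      rw [hI] at h1
      linear_combination -I * h1 + qp M (-((M : ℂ) / 2)) * Complex.I_sq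
    have h1 : qp M (l + g) * qp M ((n - 4) / 2) = I * qp M (g - 1) := by
      rw [← JetD_qadd, show l + (g : ℂ) + (n - 4) / 2 = (M : ℂ) / 2 + (g - 1) by
        linear_combination (1 / 2 : ℂ) * hl2, JetD_qadd, hI]
    have h2 : qp M (-(l + g)) * qp M ((n - 4) / 2) = -I * qp M (n - 3 - g) := by
      rw [← JetD_qadd, show -(l + (g : ℂ)) + (n - 4) / 2 = -((M : ℂ) / 2) + (n - 3 - g) by
        linear_combination -(1 / 2 : ℂ) * hl2, JetD_qadd, hI']
    rw [JetD_sn]
    linear_combination -I * h1 + I * h2 - (qp M (g - 1) + qp M (n - 3 - g)) * Complex.I_sq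
  have eD : Dpl n M l + Dze n g M l + Dmi n M l =
      -(sn M l * sn M 2) * (sn M (l + n - g) * sn M (l + g)) * qp M ((n - 4) / 2) := by
    unfold Dze Dpl Dmi
    rw [s4, s5, s6, ← hy, qy, qy']
    have k1 : 1 - qp M y * qp M y = -I * qp M y * sn M y := by
      linear_combination (-qp M y) * qI - qyy
    have k2 : 1 - qp M (-y) * qp M (-y) = I * qp M (-y) * sn M y := by
      linear_combination (qp M (-y)) * qI - qyy
    linear_combination (I * qp M (-n - 1 - 3 * l) * sn M l * sn M 2) * k1 -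
      (I * qp M (2 * n - 3 + 3 * l) * sn M l * sn M 2) * k2 -
      (sn M l * sn M 2 * sn M y * (qp M (-n - 1 - 3 * l) * qp M y +
        qp M (2 * n - 3 + 3 * l) * qp M (-y))) * Complex.I_sq +
      (sn M l * sn M 2 * sn M y) * (q1 + q2) + (sn M l * sn M 2 * sn M y) * q3
  have eG : gph n M l = gph n M h * qp M (-h + 1 - n + M / 2) := by
    unfold gph
    rw [← JetD_qadd]
    congr 1
    rw [hl]
    ring
  have q4 : qp M (-h + 1 - n + M / 2) * qp M ((n - 4) / 2) = qp M (-1) := by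
    rw [← JetD_qadd]
    congr 1
    linear_combination -(1 / 2 : ℂ) * hc
  rw [eA]
  unfold JetD_N
  rw [eD, eG, hL]
  rw [← hy]
  have e2 : ∀ Q : ℂ, Q / (sn M y * sn M (l + g)) *
      (-(sn M l * sn M 2) * (sn M y * sn M (l + g)) * qp M ((n - 4) / 2)) =
      -Q * (sn M l * sn M 2) * qp M ((n - 4) / 2) := by
    intro Q
    field_simp
  linear_combination (gph n M h * exp (-LL M l) * qp M (n - 2) *
    (qp M ((n - 2) * (M - 1)) * (-1) ^ n * 4 * (Real.pi : ℂ) ^ 2 / (M : ℂ) ^ 2) *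
    (sn M l * sn M 2)) * q4 -
    (gph n M h * qp M (-h + 1 - n + M / 2) * exp (-LL M l) * qp M (n - 2)) *
      e2 (qp M ((n - 2) * (M - 1)) * (-1) ^ n * 4 * (Real.pi : ℂ) ^ 2 / (M : ℂ) ^ 2)

/-! ### The difference -/

private noncomputable def JetD_f (n g M : ℕ) (x : ℂ) : ℂ :=
  Gm n g M x - C0 n g M * ((Xx n g M x + Xx n g M (M + 1 - n - x)) / 2)

private lemma JetD_f_even (n g M : ℕ) (hn : 2 ≤ n) (hM : n ≤ M) (x : ℂ) :
    JetD_f n g M (M + 1 - n - x) = JetD_f n g M x := by
  unfold JetD_f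
  rw [Gm_even n g M hn hM, show (M : ℂ) + 1 - n - (M + 1 - n - x) = x by ring]
  ring

private lemma JetD_f_diff (n g M : ℕ) (hn : 2 ≤ n) (hM : n + 1 ≤ M) (x : ℂ) (h0 : -1 < x.re)
    (h1 : x.re < (M : ℝ) - n + 2) : DifferentiableAt ℂ (JetD_f n g M) x := by
  have hnr : (2 : ℝ) ≤ n := by exact_mod_cast hn
  have d1 := Gm_diff n g M hn hM x h0 h1
  have d2 := Xx_diff n g M (by omega) x h0 (by linarith only [hnr, h1])
  have d3 := Xx_diff n g M (by omega) (M + 1 - n - x) (by simp; linarith only [h1]) (by simp; linarith only [hnr,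
                                                                                                h0])
  have d4 : DifferentiableAt ℂ (fun x : ℂ => Xx n g M (M + 1 - n - x)) x :=
    DifferentiableAt.comp x d3 (by fun_prop)
  exact d1.sub (((d2.add d4).div_const 2).const_mul (C0 n g M))

private lemma JetD_f_zero (n g M : ℕ) (hg : 1 ≤ g) (hgn : g + 1 ≤ n) (hM : 2 * n + 2 ≤ M)
    (l : ℕ) (hl : l + n ≤ M + 1) : JetD_f n g M l = 0 := by
  obtain ⟨l', hl'⟩ : ∃ l' : ℕ, l + l' + n = M + 1 := ⟨M + 1 - n - l, by omega⟩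
  have hl'c : (M : ℂ) + 1 - n - l = l' := by
    have : (l : ℂ) + l' + n = M + 1 := by exact_mod_cast hl'
    linear_combination -this
  unfold JetD_f
  rw [hl'c, Gm_val n g M hg hgn hM l hl, Xx_even n g M hg hgn hM l l' hl']
  ring

private lemma JetD_f_rec (n g M : ℕ) (hg : 1 ≤ g) (hgn : g + 1 ≤ n) (hM : 2 * n + 2 ≤ M)
    (x : ℂ) (h0 : 0 < x.re) (h1 : x.re < (M : ℝ) - n + 1) :
    Ap n g M x * JetD_f n g M (x + 1) + A0 n g M x * JetD_f n g M x +
      Am n g M x * JetD_f n g M (x - 1) =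
    EG n g M x - C0 n g M * ((EX n g M x - EX n g M (M + 1 - n - x)) / 2) := by
  have hnr : (2 : ℝ) ≤ n := by exact_mod_cast (by omega : 2 ≤ n)
  have r1 := recG n g M hg hgn (by omega) x h0 h1
  have r2 := recX n g M hg hgn (by omega) x h0 (by linarith only [hnr, h1])
  have r3 := recX n g M hg hgn (by omega) (M + 1 - n - x) (by simp; linarith only [h1]) (by simp; linarith only [hnr,
                                                                                                    h0])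
  have a1 := Ap_refl n g M (by omega) x
  have a2 := A0_refl n g M (by omega) x
  have a3 := Ap_refl n g M (by omega) (M + 1 - n - x)
  rw [show (M : ℂ) + 1 - n - (M + 1 - n - x) = x by ring] at a3
  have a4 : Am n g M (M + 1 - n - x) = -Ap n g M x := by rw [a3]; ring
  rw [a1, a2, a4] at r3
  unfold JetD_f
  rw [show (M : ℂ) + 1 - n - (x + 1) = M + 1 - n - x - 1 by ring,
    show (M : ℂ) + 1 - n - (x - 1) = M + 1 - n - x + 1 by ring]
  linear_combination r1 - (C0 n g M / 2) * r2 + (C0 n g M / 2) * r3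

/-- The left hand side of the recurrence. -/
private noncomputable def JetD_R (n g M : ℕ) (x : ℂ) : ℂ :=
  Ap n g M x * JetD_f n g M (x + 1) + A0 n g M x * JetD_f n g M x +
      Am n g M x * JetD_f n g M (x - 1)

private lemma JetD_Rlim (n g M : ℕ) (hg : 1 ≤ g) (hgn : g + 1 ≤ n) (hM : 2 * n + 2 ≤ M)
    (l l' : ℕ) (hl : l + l' + n = M + 1) (h1 : 1 ≤ l) (h2 : 1 ≤ l') :
    ∃ K, Tendsto (fun e : ℂ => JetD_R n g M (l + e) / e ^ 2) (𝓝[≠] 0)
      (𝓝 (sn M (2 * l + n) * K - C0 n g M * ((JetD_N n g M l - JetD_N n g M l') / 2))) := by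
  obtain ⟨K, hK⟩ := JetD_EG n g M hgn l h1 (by omega)
  refine ⟨K, ?_⟩
  have t1 := JetD_EX n g M hg hgn l (by omega)
  have t2 := (JetD_EX n g M hg hgn l' (by omega)).comp JetD_negt
  have hl'c : (l : ℂ) + l' + n = M + 1 := by exact_mod_cast hl
  have key := hK.sub (((t1.sub t2).div_const 2).const_mul (C0 n g M))
  refine key.congr' ?_
  have hlr : (l : ℝ) + l' + n = M + 1 := by exact_mod_cast hl
  have h1r : (1 : ℝ) ≤ l := by exact_mod_cast h1
  have h2r : (1 : ℝ) ≤ l' := by exact_mod_cast h2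
  have ev : ∀ᶠ e : ℂ in 𝓝[≠] 0, ‖e‖ < 1 := by
    have := Metric.ball_mem_nhds (0 : ℂ) one_pos
    filter_upwards [nhdsWithin_le_nhds this] with e he
    simpa using he
  filter_upwards [self_mem_nhdsWithin, ev] with e he hn
  have he' : e ≠ 0 := he
  have hre := abs_lt.1 (lt_of_le_of_lt (Complex.abs_re_le_norm e) hn)
  have hr := JetD_f_rec n g M hg hgn hM (l + e) (by simp; linarith only [hre.1, h1r]) (by simp; linarith only [hre.2,
                                                                                                  h2r,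
                                                                                                  hlr])
  unfold JetD_R
  rw [hr]
  simp only [Function.comp]
  rw [show (M : ℂ) + 1 - n - (l + e) = l' + -e by linear_combination -hl'c]
  field_simp

private lemma JetD_Rder (n g M : ℕ) (hg : 1 ≤ g) (hgn : g + 1 ≤ n) (hM : 2 * n + 2 ≤ M)
    (l l' : ℕ) (hl : l + l' + n = M + 1) (h1 : 1 ≤ l) (h2 : 1 ≤ l') :
    Ap n g M l * deriv (JetD_f n g M) (l + 1) + A0 n g M l * deriv (JetD_f n g M) l +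
      Am n g M l * deriv (JetD_f n g M) (l - 1) = 0 := by
  have hlr : (l : ℝ) + l' + n = M + 1 := by exact_mod_cast hl
  have h1r : (1 : ℝ) ≤ l := by exact_mod_cast h1
  have h2r : (1 : ℝ) ≤ l' := by exact_mod_cast h2
  have z0 : JetD_f n g M l = 0 := JetD_f_zero n g M hg hgn hM l (by omega)
  have z1 : JetD_f n g M ((l : ℂ) + 1) = 0 := by
    have := JetD_f_zero n g M hg hgn hM (l + 1) (by omega)
    push_cast at this
    exact this
  have z2 : JetD_f n g M ((l : ℂ) - 1) = 0 := by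
    have := JetD_f_zero n g M hg hgn hM (l - 1) (by omega)
    rw [Nat.cast_sub h1] at this
    push_cast at this
    exact this
  have d0 := (JetD_f_diff n g M (by omega) (by omega) (l : ℂ) (by simp; linarith only [])
    (by simp; linarith only [hlr])).hasDerivAt
  have d1 := (JetD_f_diff n g M (by omega) (by omega) ((l : ℂ) + 1) (by simp; linarith only [])
    (by simp; linarith only [h2r, hlr])).hasDerivAt
  have d2 := (JetD_f_diff n g M (by omega) (by omega) ((l : ℂ) - 1) (by simp; linarith only [h1])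
    (by simp; linarith only [hlr])).hasDerivAt
  have d1' : HasDerivAt (fun x : ℂ => JetD_f n g M (x + 1)) (deriv (JetD_f n g M) (l + 1)) l :=
    HasDerivAt.comp_add_const (l : ℂ) 1 d1
  have d2' : HasDerivAt (fun x : ℂ => JetD_f n g M (x - 1)) (deriv (JetD_f n g M) (l - 1)) l :=
    HasDerivAt.comp_sub_const (l : ℂ) 1 d2
  have hR : HasDerivAt (JetD_R n g M) (Ap n g M l * deriv (JetD_f n g M) (l + 1) +
      A0 n g M l * deriv (JetD_f n g M) l + Am n g M l * deriv (JetD_f n g M) (l - 1)) l := by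
    have := (((JetD_Ap n g M l).hasDerivAt.mul d1').add
      ((JetD_A0 n g M l).hasDerivAt.mul d0)).add ((JetD_Am n g M l).hasDerivAt.mul d2')
    simp only [z0, z1, z2, mul_zero, zero_add] at this
    exact this
  have hR0 : JetD_R n g M l = 0 := by
    unfold JetD_R
    rw [z0, z1, z2]
    ring
  have t1 := JetD_sl hR hR0
  obtain ⟨K, hK⟩ := JetD_Rlim n g M hg hgn hM l l' hl h1 h2
  have t2 : Tendsto (fun e : ℂ => e) (𝓝[≠] 0) (𝓝 0) :=
    (continuous_id.tendsto (0 : ℂ)).mono_left nhdsWithin_le_nhds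
  have t3 := t2.mul hK
  rw [zero_mul] at t3
  refine tendsto_nhds_unique t1 (t3.congr' ?_)
  filter_upwards [self_mem_nhdsWithin] with e he
  have he' : e ≠ 0 := he
  field_simp

private lemma JetD_dref (n g M : ℕ) (hn : 2 ≤ n) (hM : n ≤ M) (x : ℂ) :
    deriv (JetD_f n g M) (M + 1 - n - x) = -deriv (JetD_f n g M) x := by
  have e : (fun x : ℂ => JetD_f n g M (M + 1 - n - x)) = JetD_f n g M :=
    funext (JetD_f_even n g M hn hM)
  have h := deriv_comp_const_sub (f := JetD_f n g M) ((M : ℂ) + 1 - n) x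
  rw [e] at h
  rw [h, neg_neg]

private lemma JetD_sec {F : ℂ → ℂ} {a : ℂ} (h : ∀ᶠ x in 𝓝 a, DifferentiableAt ℂ F x)
    (h0 : F a = 0) (h1 : deriv F a = 0) :
    ∃ c, Tendsto (fun e : ℂ => F (a + e) / e ^ 2) (𝓝[≠] 0) (𝓝 c) := by
  have hs : DifferentiableOn ℂ F {x | DifferentiableAt ℂ F x} := fun x hx =>
    DifferentiableAt.differentiableWithinAt hx
  have hd := ((Complex.differentiableOn_dslope h).2 hs).differentiableAt h
  have z : dslope F a a = 0 := by rw [dslope_same, h1]
  refine ⟨_, (JetD_sl hd.hasDerivAt z).congr' ?_⟩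
  filter_upwards [self_mem_nhdsWithin] with e he
  have he' : e ≠ 0 := he
  have hne : a + e ≠ a := by
    intro h
    apply he'
    linear_combination h
  rw [dslope_of_ne _ hne, slope_def_field, h0, show a + e - a = e by ring, sub_zero]
  field_simp

private lemma JetD_m1 (n g M : ℕ) (hg : 1 ≤ g) (hgn : g + 1 ≤ n) (hM : 2 * n + 2 ≤ M)
    (h : ℕ) (hh : 2 * h + n = M + 1) :
    deriv (JetD_f n g M) h = 0 ∧ deriv (JetD_f n g M) ((h : ℂ) - 1) = 0 := by
  have hc : 2 * (h : ℂ) + n = M + 1 := by exact_mod_cast hh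
  have c1 : (M : ℂ) + 1 - n - h = h := by linear_combination -hc
  have c2 : (M : ℂ) + 1 - n - (h - 1) = h + 1 := by linear_combination -hc
  have r0 := JetD_dref n g M (by omega) (by omega) (h : ℂ)
  rw [c1] at r0
  have a0 : deriv (JetD_f n g M) h = 0 := by linear_combination r0 / 2
  refine ⟨a0, ?_⟩
  have r1 := JetD_dref n g M (by omega) (by omega) ((h : ℂ) - 1)
  rw [c2] at r1
  have r2 := JetD_Rder n g M hg hgn hM h h (by omega) (by omega) (by omega)
  have r3 := Ap_refl n g M (by omega) (h : ℂ)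
  rw [c1] at r3
  rw [a0, r1, show Am n g M h = -Ap n g M h by rw [r3]; ring] at r2
  have r4 := Ap_ne n g M h hg hgn (by omega) (by omega) (by omega)
  have r5 : Ap n g M h * deriv (JetD_f n g M) ((h : ℂ) - 1) = 0 := by
    linear_combination -r2 / 2
  exact (mul_eq_zero.1 r5).resolve_left r4

private lemma JetD_m2 (n g M : ℕ) (hg : 1 ≤ g) (hgn : g + 1 ≤ n) (hM : 2 * n + 2 ≤ M)
    (h : ℕ) (hh : 2 * h + n = M) :
    deriv (JetD_f n g M) h = 0 ∧ deriv (JetD_f n g M) ((h : ℂ) - 1) = 0 := by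
  have hM1 : 1 ≤ M := by omega
  have hM0 : (M : ℂ) ≠ 0 := by exact_mod_cast (by omega : M ≠ 0)
  have hc : 2 * (h : ℂ) + n = M := by exact_mod_cast hh
  have hr : 2 * (h : ℝ) + n = M := by exact_mod_cast hh
  have hh1 : (1 : ℝ) ≤ h := by exact_mod_cast (by omega : 1 ≤ h)
  have s0 : sn M (2 * (h : ℂ) + n) = 0 := by rw [hc, JetD_sn_MM M hM1]
  have am : Am n g M h = 0 := by
    unfold Am
    rw [s0]
    ring
  have r0 := JetD_dref n g M (by omega) (by omega) (h : ℂ)
  rw [show (M : ℂ) + 1 - n - h = h + 1 by linear_combination -hc] at r0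
  have r2 := JetD_Rder n g M hg hgn hM h (h + 1) (by omega) (by omega) (by omega)
  rw [am, r0, A0_mid n g M h hh hM1] at r2
  have r4 := Ap_ne n g M h hg hgn (by omega) (by omega) (by omega)
  have a0 : deriv (JetD_f n g M) h = 0 := by
    have r5 : Ap n g M h * deriv (JetD_f n g M) h = 0 := by
      linear_combination -r2 / 2
    exact (mul_eq_zero.1 r5).resolve_left r4
  refine ⟨a0, ?_⟩
  -- second order
  have ev : ∀ᶠ x in 𝓝 (h : ℂ), DifferentiableAt ℂ (JetD_f n g M) x := by
    filter_upwards [Metric.ball_mem_nhds (h : ℂ) one_pos] with x hx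
    rw [Metric.mem_ball, Complex.dist_eq] at hx
    have hre := abs_lt.1 (lt_of_le_of_lt (Complex.abs_re_le_norm _) hx)
    rw [Complex.sub_re, Complex.natCast_re] at hre
    exact JetD_f_diff n g M (by omega) (by omega) x (by linarith only [hre.1, hh1]) (by linarith only [hre.2,
                                                                                          hh1, hr])
  obtain ⟨c, t0⟩ := JetD_sec ev (JetD_f_zero n g M hg hgn hM h (by omega)) a0
  have t0' := t0.comp JetD_negt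
  have z2 : JetD_f n g M ((h : ℂ) - 1) = 0 := by
    have := JetD_f_zero n g M hg hgn hM (h - 1) (by omega)
    rw [Nat.cast_sub (by omega)] at this
    push_cast at this
    exact this
  have d2 := (JetD_f_diff n g M (by omega) (by omega) ((h : ℂ) - 1) (by simp; linarith only [hh, hM,
                                                                                hgn, hg])
    (by simp; linarith only [hr])).hasDerivAt
  have t2 := JetD_sl d2 z2
  have hk : HasDerivAt (fun x : ℂ => sn M (2 * x + n)) (-(4 * Real.pi / M)) h := by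
    have h1 : HasDerivAt (fun x : ℂ => (Real.pi : ℂ) * (2 * x + n) / M) (Real.pi * (2 * 1) / M)
        (h : ℂ) :=
      ((((hasDerivAt_id (h : ℂ)).const_mul 2).add_const (n : ℂ)).const_mul
        (Real.pi : ℂ)).div_const (M : ℂ)
    have h2 := (h1.csin).const_mul (2 : ℂ)
    have e : (2 : ℂ) * (Complex.cos ((Real.pi : ℂ) * (2 * h + n) / M) * (Real.pi * (2 * 1) / M)) =
        -(4 * Real.pi / M) := by
      rw [hc, mul_div_assoc, div_self hM0, mul_one, Complex.cos_pi]
      ring
    rw [e] at h2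
    exact h2
  have t3 := JetD_sl hk s0
  have dG : Differentiable ℂ (fun x : ℂ => I * qp M (-x - 1) *
      (sn M (x + g - 1) * sn M (x + n - g - 1) * sn M (x + n - 2))) := by
    unfold sn qp
    fun_prop
  have t4 := JetD_ct (dG.continuous.continuousAt (x := (h : ℂ)))
  have t5 := JetD_ct ((JetD_Ap n g M).continuous.continuousAt (x := (h : ℂ)))
  have t6 := JetD_ct ((JetD_A0 n g M).continuous.continuousAt (x := (h : ℂ)))
  obtain ⟨K, hK⟩ := JetD_Rlim n g M hg hgn hM h (h + 1) (by omega) (by omega) (by omega)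
  have e0 : JetD_N n g M ((h + 1 : ℕ) : ℂ) = JetD_N n g M h := by
    rw [JetD_mid n g M h hg hgn hM hh]
    push_cast
    rfl
  rw [e0, s0, zero_mul, sub_self, zero_div, mul_zero, sub_zero] at hK
  have key := ((t5.mul t0').add (t6.mul t0)).add ((t4.mul t3).mul t2)
  have key2 := tendsto_nhds_unique (key.congr' ?_) hK
  · rw [A0_mid n g M h hh hM1] at key2
    have k1 : I * qp M (-(h : ℂ) - 1) *
        (sn M ((h : ℂ) + g - 1) * sn M ((h : ℂ) + n - g - 1) * sn M ((h : ℂ) + n - 2)) *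
        -(4 * Real.pi / M) * deriv (JetD_f n g M) ((h : ℂ) - 1) = 0 := by
      linear_combination key2
    have n1 : sn M ((h : ℂ) + g - 1) ≠ 0 :=
      JetD_ne M _ (h + g - 1) (by rw [Nat.cast_sub (by omega)]; push_cast; ring) (by omega)
        (by omega)
    have n2 : sn M ((h : ℂ) + n - g - 1) ≠ 0 :=
      JetD_ne M _ (h + n - g - 1) (by
        rw [Nat.cast_sub (by omega), Nat.cast_sub (by omega)]; push_cast; ring) (by omega)
        (by omega)
    have n3 : sn M ((h : ℂ) + n - 2) ≠ 0 :=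
      JetD_ne M _ (h + n - 2) (by rw [Nat.cast_sub (by omega)]; push_cast; ring) (by omega)
        (by omega)
    have n4 : qp M (-(h : ℂ) - 1) ≠ 0 := by
      unfold qp
      exact Complex.exp_ne_zero _
    have n5 : (-(4 * Real.pi / M) : ℂ) ≠ 0 := by
      rw [neg_ne_zero]
      exact div_ne_zero (mul_ne_zero (by norm_num) (by exact_mod_cast Real.pi_ne_zero)) hM0
    exact (mul_eq_zero.1 k1).resolve_left (mul_ne_zero (mul_ne_zero (mul_ne_zero Complex.I_ne_zero n4)
      (mul_ne_zero (mul_ne_zero n1 n2) n3)) n5)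
  · filter_upwards [self_mem_nhdsWithin] with e he
    have he' : e ≠ 0 := he
    simp only [Function.comp]
    have e1 : JetD_f n g M ((h : ℂ) + e + 1) = JetD_f n g M (h + -e) := by
      rw [← JetD_f_even n g M (by omega) (by omega) ((h : ℂ) + e + 1)]
      congr 1
      linear_combination -hc
    have e2 : (h : ℂ) - 1 + e = h + e - 1 := by ring
    unfold JetD_R
    rw [e1, e2]
    unfold Am
    field_simp

private lemma JetD_down (n g M : ℕ) (hg : 1 ≤ g) (hgn : g + 1 ≤ n) (hM : 2 * n + 2 ≤ M)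
    (h : ℕ) (hh : 2 * h + n ≤ M + 1) (h0 : deriv (JetD_f n g M) h = 0)
    (h1 : deriv (JetD_f n g M) ((h : ℂ) - 1) = 0) :
    ∀ k l : ℕ, l + 1 + k = h → deriv (JetD_f n g M) ((l : ℂ) + 1) = 0 ∧
      deriv (JetD_f n g M) l = 0 := by
  intro k
  induction k with
  | zero =>
    intro l hl
    have e : (h : ℂ) = l + 1 := by exact_mod_cast hl.symm
    rw [e] at h0 h1
    rw [add_sub_cancel_right] at h1
    exact ⟨h0, h1⟩
  | succ k ih =>
    intro l hl
    obtain ⟨i1, i2⟩ := ih (l + 1) (by omega)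
    push_cast at i1 i2
    refine ⟨i2, ?_⟩
    have r := JetD_Rder n g M hg hgn hM (l + 1) (M - n - l) (by omega) (by omega) (by omega)
    push_cast at r
    rw [add_sub_cancel_right, i1, i2, mul_zero, mul_zero, zero_add, zero_add] at r
    have ne := Am_ne n g M (l + 1) hg hgn (by omega) (by omega)
    push_cast at ne
    exact (mul_eq_zero.1 r).resolve_left ne

private lemma JetD_all (n g M : ℕ) (hg : 1 ≤ g) (hgn : g + 1 ≤ n) (hM : 2 * n + 2 ≤ M)
    (l l' : ℕ) (hl : l + l' + n = M + 1) : deriv (JetD_f n g M) l = 0 := by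
  obtain ⟨h, hh, hb, h0, h1⟩ : ∃ h : ℕ, 2 * h + n ≤ M + 1 ∧ M ≤ 2 * h + n ∧
      deriv (JetD_f n g M) h = 0 ∧ deriv (JetD_f n g M) ((h : ℂ) - 1) = 0 := by
    rcases Nat.even_or_odd (M + 1 - n) with ⟨h, hh⟩ | ⟨h, hh⟩
    · obtain ⟨a, b⟩ := JetD_m1 n g M hg hgn hM h (by omega)
      exact ⟨h, by omega, by omega, a, b⟩
    · obtain ⟨a, b⟩ := JetD_m2 n g M hg hgn hM h (by omega)
      exact ⟨h, by omega, by omega, a, b⟩
  have low : ∀ l : ℕ, l ≤ h → deriv (JetD_f n g M) l = 0 := by
    intro l hl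
    rcases Nat.lt_or_ge l h with h2 | h2
    · exact (JetD_down n g M hg hgn hM h hh h0 h1 (h - l - 1) l (by omega)).2
    · have : l = h := by omega
      rw [this, h0]
  rcases Nat.lt_or_ge h l with h2 | h2
  · have r := JetD_dref n g M (by omega) (by omega) (l : ℂ)
    have hc : (l : ℂ) + l' + n = M + 1 := by exact_mod_cast hl
    rw [show (M : ℂ) + 1 - n - l = l' by linear_combination -hc, low l' (by omega)] at r
    linear_combination r
  · exact low l h2

end aux

theorem Gm_der (n g M : ℕ) (hg : 1 ≤ g) (hgn : g + 1 ≤ n) (hM : 2 * n + 2 ≤ M) (l l' : ℕ)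
    (hl : l + l' + n = M + 1) :
    deriv (Gm n g M) l = C0 n g M * ((deriv (Xx n g M) l - deriv (Xx n g M) l') / 2) := by
  have hc : (l : ℂ) + l' + n = M + 1 := by exact_mod_cast hl
  have hlr : (l : ℝ) + l' + n = M + 1 := by exact_mod_cast hl
  have h0r : (0 : ℝ) ≤ l := Nat.cast_nonneg l
  have h1r : (0 : ℝ) ≤ l' := Nat.cast_nonneg l'
  have hnr : (2 : ℝ) ≤ n := by exact_mod_cast (by omega : 2 ≤ n)
  have e1 : (M : ℂ) + 1 - n - l = l' := by linear_combination -hc
  have d0 := (JetD_f_diff n g M (by omega) (by omega) (l : ℂ) (by simp; linarith only [])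
    (by simp; linarith only [hlr])).hasDerivAt
  rw [JetD_all n g M hg hgn hM l l' hl] at d0
  have d1 := (Xx_diff n g M (by omega) (l : ℂ) (by simp; linarith only [])
    (by simp; linarith only [hl, hgn, hg])).hasDerivAt
  have d2 := (Xx_diff n g M (by omega) (l' : ℂ) (by simp; linarith only [])
    (by simp; linarith only [hl, hgn, hg])).hasDerivAt
  rw [← e1] at d2
  have d3 : HasDerivAt (fun x : ℂ => Xx n g M (M + 1 - n - x)) (-deriv (Xx n g M) l') l := by
    have := HasDerivAt.comp_const_sub ((M : ℂ) + 1 - n) (l : ℂ) d2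
    rw [e1] at this
    exact this
  have d4 := d0.add (((d1.add d3).div_const 2).const_mul (C0 n g M))
  have e2 : (JetD_f n g M + fun x : ℂ => C0 n g M *
      ((Xx n g M + fun x : ℂ => Xx n g M (M + 1 - n - x)) x / 2)) = Gm n g M := by
    funext x
    simp only [Pi.add_apply]
    unfold JetD_f
    ring
  rw [e2] at d4
  rw [d4.deriv]
  ring

end Pool.Agent.H63.TW
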