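import Pool.Agent.H63.TW.Defs

/-! # The recurrence of the dual sum -/

namespace Pool.Agent.H63.TW

open Pool.Agent.H63.VC Pool.Agent.H63.VC3 Complex
open scoped BigOperators

/-- The coefficients of the certificate. -/
noncomputable def Dpl (n M : ℕ) (l : ℂ) : ℂ :=
  -I * qp M (-n - 1 - 3 * l) * (sn M (l + n - 2) * sn M (2 * l + n))

noncomputable def Dmi (n M : ℕ) (l : ℂ) : ℂ :=
  I * qp M (2 * n - 3 + 3 * l) * (sn M l * sn M (2 * l + n))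

noncomputable def Dze (n g M : ℕ) (l : ℂ) : ℂ :=
  -qp M (-1) * (sn M (l + g) ^ 2 * sn M (2 * l + n - 2)) -
    Dpl n M l * qp M (2 * (l + n - g)) - Dmi n M l * qp M (-(2 * (l + n - g)))

/-- `a - 1 / a` -/
private noncomputable def RecT_s (a : ℂ) : ℂ := a - a⁻¹

private theorem RecT_id (x z n g q : ℂ) (hx : x ≠ 0) (hz : z ≠ 0) (hn : n ≠ 0) (hg : g ≠ 0) (hq : q ≠ 0) (Dp Dm Dz A0 : ℂ)
    (hp : Dp = n⁻¹ * q⁻¹ * x⁻¹ ^ 3 * RecT_s (x * n * q⁻¹ ^ 2) * RecT_s (x ^ 2 * n))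
    (hm : Dm = -(n ^ 2 * q⁻¹ ^ 3 * x ^ 3 * RecT_s x * RecT_s (x ^ 2 * n)))
    (hd : Dz = -(q⁻¹ * RecT_s (x * g) ^ 2 * RecT_s (x ^ 2 * n * q⁻¹ ^ 2)) - Dp * (x * n * g⁻¹) ^ 2 - Dm * (x⁻¹ * n⁻¹ * g) ^ 2)
    (ha : A0 = (-(g ^ 2 * n⁻¹) - n * g⁻¹ ^ 2 - n * q⁻¹ ^ 2 + q ^ 2 * x⁻¹ ^ 2 * n⁻¹ + x ^ 2 * n) *
        (RecT_s (x ^ 2 * n * q⁻¹ ^ 2) * RecT_s (x ^ 2 * n * q⁻¹) * RecT_s (x ^ 2 * n)) -
      x ^ 3 * n ^ 2 * q⁻¹ ^ 2 * (RecT_s (x * n * g⁻¹) * RecT_s (x * g) * RecT_s (x * q) * RecT_s (x ^ 2 * n * q⁻¹ ^ 2)) +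
      q * x⁻¹ ^ 3 * n⁻¹ * (RecT_s (x * g * q⁻¹) * RecT_s (x * n * g⁻¹ * q⁻¹) * RecT_s (x * n * q⁻¹ ^ 2) * RecT_s (x ^ 2 * n))) :
    -(n * q⁻¹ ^ 2 * (RecT_s (x * n * g⁻¹ * z⁻¹) * RecT_s (x * g * z⁻¹))) * (Dp * (z * q) ^ 2 + Dz + Dm * (z⁻¹ * q⁻¹) ^ 2) +
      RecT_s z ^ 2 * (Dp * z ^ 2 + Dz + Dm * z⁻¹ ^ 2) =
    -(q⁻¹ * (RecT_s (x * n * g⁻¹) * RecT_s (x * g)) ^ 2 * RecT_s (x ^ 2 * n * q⁻¹ ^ 2)) -
      RecT_s (x * n * g⁻¹ * z⁻¹) * RecT_s (x * g * z⁻¹) * (A0 - n * q⁻¹ ^ 3 * RecT_s x * RecT_s (x * n * q⁻¹ ^ 2) * RecT_s (x ^ 2 * n) *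
        (RecT_s (x * n * g⁻¹ * z⁻¹ * q⁻¹) * RecT_s (x * g * z⁻¹ * q⁻¹))) := by
  subst hp hm hd ha
  simp only [RecT_s]
  field_simp
  ring

private theorem RecT_id0 (x n g q : ℂ) (hx : x ≠ 0) (hn : n ≠ 0) (hg : g ≠ 0) (hq : q ≠ 0) (Dp Dm Dz A0 : ℂ)
    (hp : Dp = n⁻¹ * q⁻¹ * x⁻¹ ^ 3 * RecT_s (x * n * q⁻¹ ^ 2) * RecT_s (x ^ 2 * n))
    (hm : Dm = -(n ^ 2 * q⁻¹ ^ 3 * x ^ 3 * RecT_s x * RecT_s (x ^ 2 * n)))
    (hd : Dz = -(q⁻¹ * RecT_s (x * g) ^ 2 * RecT_s (x ^ 2 * n * q⁻¹ ^ 2)) - Dp * (x * n * g⁻¹) ^ 2 - Dm * (x⁻¹ * n⁻¹ * g) ^ 2)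
    (ha : A0 = (-(g ^ 2 * n⁻¹) - n * g⁻¹ ^ 2 - n * q⁻¹ ^ 2 + q ^ 2 * x⁻¹ ^ 2 * n⁻¹ + x ^ 2 * n) *
        (RecT_s (x ^ 2 * n * q⁻¹ ^ 2) * RecT_s (x ^ 2 * n * q⁻¹) * RecT_s (x ^ 2 * n)) -
      x ^ 3 * n ^ 2 * q⁻¹ ^ 2 * (RecT_s (x * n * g⁻¹) * RecT_s (x * g) * RecT_s (x * q) * RecT_s (x ^ 2 * n * q⁻¹ ^ 2)) +
      q * x⁻¹ ^ 3 * n⁻¹ * (RecT_s (x * g * q⁻¹) * RecT_s (x * n * g⁻¹ * q⁻¹) * RecT_s (x * n * q⁻¹ ^ 2) * RecT_s (x ^ 2 * n))) :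
    n * q⁻¹ ^ 2 * (Dp * q ^ 2 + Dz + Dm * q⁻¹ ^ 2) =
    q⁻¹ * (RecT_s (x * n * g⁻¹) * RecT_s (x * g)) * RecT_s (x ^ 2 * n * q⁻¹ ^ 2) + A0 - n * q⁻¹ ^ 3 * RecT_s x * RecT_s (x * n * q⁻¹ ^ 2) * RecT_s (x ^ 2 * n) *
        (RecT_s (x * n * g⁻¹ * q⁻¹) * RecT_s (x * g * q⁻¹)) := by
  subst hp hm hd ha
  simp only [RecT_s]
  field_simp
  ring

private theorem RecT_add (M : ℕ) (x y : ℂ) : qp M (x + y) = qp M x * qp M y := by
  unfold qp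
  rw [← Complex.exp_add]
  congr 1
  ring

private theorem RecT_ne (M : ℕ) (x : ℂ) : qp M x ≠ 0 := Complex.exp_ne_zero _

private theorem RecT_neg (M : ℕ) (x : ℂ) : qp M (-x) = (qp M x)⁻¹ := by
  unfold qp
  rw [← Complex.exp_neg]
  congr 1
  ring

private theorem RecT_sub (M : ℕ) (x y : ℂ) : qp M (x - y) = qp M x * (qp M y)⁻¹ := by
  rw [sub_eq_add_neg, RecT_add, RecT_neg]

private theorem RecT_nmul (M : ℕ) (k : ℕ) (x : ℂ) : qp M (k * x) = qp M x ^ k := by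
  unfold qp
  rw [← Complex.exp_nat_mul]
  congr 1
  ring

private theorem RecT_two (M : ℕ) (x : ℂ) : qp M (2 * x) = qp M x ^ 2 := by
  have h := RecT_nmul M 2 x
  push_cast at h
  exact h

private theorem RecT_three (M : ℕ) (x : ℂ) : qp M (3 * x) = qp M x ^ 3 := by
  have h := RecT_nmul M 3 x
  push_cast at h
  exact h

private theorem RecT_c2 (M : ℕ) : qp M 2 = qp M 1 ^ 2 := by
  have h := RecT_two M 1
  rwa [mul_one] at h

private theorem RecT_c3 (M : ℕ) : qp M 3 = qp M 1 ^ 3 := by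
  have h := RecT_three M 1
  rwa [mul_one] at h

private theorem RecT_sn (M : ℕ) (x : ℂ) : sn M x = -I * RecT_s (qp M x) := by
  unfold sn RecT_s qp
  rw [← Complex.exp_neg, Complex.sin]
  have h1 : -(Real.pi * x / M : ℂ) * I = -(Real.pi * I * x / M) := by ring
  have h2 : (Real.pi * x / M : ℂ) * I = Real.pi * I * x / M := by ring
  rw [h1, h2]
  ring

private theorem RecT_snn (M : ℕ) (x y : ℂ) : sn M x * sn M y = -(RecT_s (qp M x) * RecT_s (qp M y)) := by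
  rw [RecT_sn, RecT_sn]
  linear_combination (RecT_s (qp M x) * RecT_s (qp M y)) * I_mul_I

/-- the coefficients of the certificate -/
private noncomputable def RecT_d (n g M : ℕ) (l j : ℂ) : ℂ :=
  Dpl n M l * qp M (2 * j) + Dze n g M l + Dmi n M l * qp M (-(2 * j))

private noncomputable def RecT_Dp (x n q : ℂ) : ℂ := n⁻¹ * q⁻¹ * x⁻¹ ^ 3 * RecT_s (x * n * q⁻¹ ^ 2) * RecT_s (x ^ 2 * n)

private noncomputable def RecT_Dm (x n q : ℂ) : ℂ := -(n ^ 2 * q⁻¹ ^ 3 * x ^ 3 * RecT_s x * RecT_s (x ^ 2 * n))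

private noncomputable def RecT_Dz (x n g q : ℂ) : ℂ :=
  -(q⁻¹ * RecT_s (x * g) ^ 2 * RecT_s (x ^ 2 * n * q⁻¹ ^ 2)) - RecT_Dp x n q * (x * n * g⁻¹) ^ 2 - RecT_Dm x n q * (x⁻¹ * n⁻¹ * g) ^ 2

private noncomputable def RecT_A0 (x n g q : ℂ) : ℂ :=
  (-(g ^ 2 * n⁻¹) - n * g⁻¹ ^ 2 - n * q⁻¹ ^ 2 + q ^ 2 * x⁻¹ ^ 2 * n⁻¹ + x ^ 2 * n) *
        (RecT_s (x ^ 2 * n * q⁻¹ ^ 2) * RecT_s (x ^ 2 * n * q⁻¹) * RecT_s (x ^ 2 * n)) -
      x ^ 3 * n ^ 2 * q⁻¹ ^ 2 * (RecT_s (x * n * g⁻¹) * RecT_s (x * g) * RecT_s (x * q) * RecT_s (x ^ 2 * n * q⁻¹ ^ 2)) +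
      q * x⁻¹ ^ 3 * n⁻¹ * (RecT_s (x * g * q⁻¹) * RecT_s (x * n * g⁻¹ * q⁻¹) * RecT_s (x * n * q⁻¹ ^ 2) * RecT_s (x ^ 2 * n))

private theorem RecT_Dpl (n M : ℕ) (l : ℂ) : Dpl n M l = I * RecT_Dp (qp M l) (qp M n) (qp M 1) := by
  have e1 : qp M (-n - 1 - 3 * l) = (qp M n)⁻¹ * (qp M 1)⁻¹ * (qp M l)⁻¹ ^ 3 := by
    rw [RecT_sub, RecT_sub, RecT_neg, RecT_three, inv_pow]
  have e2 : qp M (l + n - 2) = qp M l * qp M n * (qp M 1)⁻¹ ^ 2 := by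
    rw [RecT_sub, RecT_add, RecT_c2, inv_pow]
  have e3 : qp M (2 * l + n) = qp M l ^ 2 * qp M n := by
    rw [RecT_add, RecT_two]
  unfold Dpl RecT_Dp
  rw [RecT_snn, e1, e2, e3]
  ring

private theorem RecT_Dmi (n M : ℕ) (l : ℂ) : Dmi n M l = I * RecT_Dm (qp M l) (qp M n) (qp M 1) := by
  have e1 : qp M (2 * n - 3 + 3 * l) = qp M n ^ 2 * (qp M 1)⁻¹ ^ 3 * qp M l ^ 3 := by
    rw [RecT_add, RecT_sub, RecT_two, RecT_c3, RecT_three, inv_pow]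
  have e3 : qp M (2 * l + n) = qp M l ^ 2 * qp M n := by
    rw [RecT_add, RecT_two]
  unfold Dmi RecT_Dm
  rw [RecT_snn, e1, e3]
  ring

private theorem RecT_Dze (n g M : ℕ) (l : ℂ) : Dze n g M l = I * RecT_Dz (qp M l) (qp M n) (qp M g) (qp M 1) := by
  have e1 : qp M (-1) = (qp M 1)⁻¹ := RecT_neg M 1
  have e2 : qp M (l + g) = qp M l * qp M g := RecT_add M _ _
  have e3 : qp M (2 * l + n - 2) = qp M l ^ 2 * qp M n * (qp M 1)⁻¹ ^ 2 := by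
    rw [RecT_sub, RecT_add, RecT_two, RecT_c2, inv_pow]
  have e4 : qp M (l + n - g) = qp M l * qp M n * (qp M g)⁻¹ := by
    rw [RecT_sub, RecT_add]
  unfold Dze RecT_Dz
  rw [pow_two (sn M (l + g)), RecT_snn, RecT_sn M (2 * l + n - 2), RecT_neg M (2 * (l + n - g)), RecT_two M (l + n - g), RecT_Dpl,
    RecT_Dmi, e1, e2, e3, e4]
  have e5 : ((qp M l * qp M n * (qp M g)⁻¹) ^ 2)⁻¹ = ((qp M l)⁻¹ * (qp M n)⁻¹ * qp M g) ^ 2 := by
    rw [← inv_pow, mul_inv, mul_inv, inv_inv]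
  rw [e5]
  ring

private theorem RecT_A (n g M : ℕ) (l : ℂ) : A0 n g M l = I * RecT_A0 (qp M l) (qp M n) (qp M g) (qp M 1) := by
  have e1 : qp M (2 * g - n) = qp M g ^ 2 * (qp M n)⁻¹ := by rw [RecT_sub, RecT_two]
  have e2 : qp M (n - 2 * g) = qp M n * (qp M g)⁻¹ ^ 2 := by rw [RecT_sub, RecT_two, inv_pow]
  have e3 : qp M (n - 2) = qp M n * (qp M 1)⁻¹ ^ 2 := by rw [RecT_sub, RecT_c2, inv_pow]
  have e4 : qp M (2 - 2 * l - n) = qp M 1 ^ 2 * (qp M l)⁻¹ ^ 2 * (qp M n)⁻¹ := by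
    rw [RecT_sub, RecT_sub, RecT_two, RecT_c2, inv_pow]
  have e5 : qp M (2 * l + n) = qp M l ^ 2 * qp M n := by rw [RecT_add, RecT_two]
  have e6 : qp M (2 * l + n - 2) = qp M l ^ 2 * qp M n * (qp M 1)⁻¹ ^ 2 := by
    rw [RecT_sub, RecT_add, RecT_two, RecT_c2, inv_pow]
  have e7 : qp M (2 * l + n - 1) = qp M l ^ 2 * qp M n * (qp M 1)⁻¹ := by
    rw [RecT_sub, RecT_add, RecT_two]
  have e8 : qp M (3 * l + 2 * n - 2) = qp M l ^ 3 * qp M n ^ 2 * (qp M 1)⁻¹ ^ 2 := by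
    rw [RecT_sub, RecT_add, RecT_two, RecT_three, RecT_c2, inv_pow]
  have e9 : qp M (1 - 3 * l - n) = qp M 1 * (qp M l)⁻¹ ^ 3 * (qp M n)⁻¹ := by
    rw [RecT_sub, RecT_sub, RecT_three, inv_pow]
  have f1 : qp M (l + n - g) = qp M l * qp M n * (qp M g)⁻¹ := by rw [RecT_sub, RecT_add]
  have f2 : qp M (l + g) = qp M l * qp M g := RecT_add M _ _
  have f3 : qp M (l + 1) = qp M l * qp M 1 := RecT_add M _ _
  have f4 : qp M (l + g - 1) = qp M l * qp M g * (qp M 1)⁻¹ := by rw [RecT_sub, RecT_add]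
  have f5 : qp M (l + n - g - 1) = qp M l * qp M n * (qp M g)⁻¹ * (qp M 1)⁻¹ := by rw [RecT_sub, RecT_sub, RecT_add]
  have f6 : qp M (l + n - 2) = qp M l * qp M n * (qp M 1)⁻¹ ^ 2 := by rw [RecT_sub, RecT_add, RecT_c2, inv_pow]
  have g1 : sn M (2 * l + n - 2) * sn M (2 * l + n - 1) * sn M (2 * l + n) =
      I * (RecT_s (qp M l ^ 2 * qp M n * (qp M 1)⁻¹ ^ 2) * RecT_s (qp M l ^ 2 * qp M n * (qp M 1)⁻¹) * RecT_s (qp M l ^ 2 * qp M n)) := by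
    rw [RecT_snn, RecT_sn M (2 * l + n), e6, e7, e5]
    ring
  have g2 : sn M (l + n - g) * sn M (l + g) * sn M (l + 1) * sn M (2 * l + n - 2) =
      RecT_s (qp M l * qp M n * (qp M g)⁻¹) * RecT_s (qp M l * qp M g) * RecT_s (qp M l * qp M 1) *
        RecT_s (qp M l ^ 2 * qp M n * (qp M 1)⁻¹ ^ 2) := by
    rw [mul_assoc, RecT_snn, RecT_snn, f1, f2, f3, e6]
    ring
  have g3 : sn M (l + g - 1) * sn M (l + n - g - 1) * sn M (l + n - 2) * sn M (2 * l + n) =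
      RecT_s (qp M l * qp M g * (qp M 1)⁻¹) * RecT_s (qp M l * qp M n * (qp M g)⁻¹ * (qp M 1)⁻¹) *
        RecT_s (qp M l * qp M n * (qp M 1)⁻¹ ^ 2) * RecT_s (qp M l ^ 2 * qp M n) := by
    rw [mul_assoc, RecT_snn, RecT_snn, f4, f5, f6, e5]
    ring
  unfold A0 RecT_A0
  rw [g1, g2, g3, e1, e2, e3, e4, e5, e8, e9]
  ring

/-- the identity for the terms -/
private theorem RecT_key (n g M : ℕ) (l m : ℂ) :
    qp M (n - 2) * (sn M (l + n - g - m) * sn M (l + g - m)) * RecT_d n g M l (m + 1) - sn M m ^ 2 * RecT_d n g M l m =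
      qp M (-1) * (sn M (l + n - g) * sn M (l + g)) ^ 2 * sn M (2 * l + n - 2) +
        sn M (l + n - g - m) * sn M (l + g - m) * (A0 n g M l + qp M (n - 3) * (sn M l * sn M (l + n - 2) * sn M (2 * l + n)) *
          (sn M (l + n - g - m - 1) * sn M (l + g - m - 1))) := by
  have h := RecT_id (qp M l) (qp M m) (qp M n) (qp M g) (qp M 1) (RecT_ne _ _) (RecT_ne _ _) (RecT_ne _ _) (RecT_ne _ _) (RecT_ne _ _)
    (RecT_Dp (qp M l) (qp M n) (qp M 1)) (RecT_Dm (qp M l) (qp M n) (qp M 1)) (RecT_Dz (qp M l) (qp M n) (qp M g) (qp M 1))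
    (RecT_A0 (qp M l) (qp M n) (qp M g) (qp M 1)) rfl rfl rfl rfl
  have e1 : qp M (n - 2) = qp M n * (qp M 1)⁻¹ ^ 2 := by rw [RecT_sub, RecT_c2, inv_pow]
  have e2 : qp M (n - 3) = qp M n * (qp M 1)⁻¹ ^ 3 := by rw [RecT_sub, RecT_c3, inv_pow]
  have e3 : qp M (-1) = (qp M 1)⁻¹ := RecT_neg M 1
  have e5 : qp M (2 * l + n) = qp M l ^ 2 * qp M n := by rw [RecT_add, RecT_two]
  have e6 : qp M (2 * l + n - 2) = qp M l ^ 2 * qp M n * (qp M 1)⁻¹ ^ 2 := by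
    rw [RecT_sub, RecT_add, RecT_two, RecT_c2, inv_pow]
  have f1 : qp M (l + n - g) = qp M l * qp M n * (qp M g)⁻¹ := by rw [RecT_sub, RecT_add]
  have f2 : qp M (l + g) = qp M l * qp M g := RecT_add M _ _
  have f6 : qp M (l + n - 2) = qp M l * qp M n * (qp M 1)⁻¹ ^ 2 := by rw [RecT_sub, RecT_add, RecT_c2, inv_pow]
  have a1 : qp M (l + n - g - m) = qp M l * qp M n * (qp M g)⁻¹ * (qp M m)⁻¹ := by rw [RecT_sub, f1]
  have a2 : qp M (l + g - m) = qp M l * qp M g * (qp M m)⁻¹ := by rw [RecT_sub, f2]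
  have a3 : qp M (l + n - g - m - 1) = qp M l * qp M n * (qp M g)⁻¹ * (qp M m)⁻¹ * (qp M 1)⁻¹ := by rw [RecT_sub, a1]
  have a4 : qp M (l + g - m - 1) = qp M l * qp M g * (qp M m)⁻¹ * (qp M 1)⁻¹ := by rw [RecT_sub, a2]
  have d1 : RecT_d n g M l (m + 1) = I * (RecT_Dp (qp M l) (qp M n) (qp M 1) * (qp M m * qp M 1) ^ 2 +
      RecT_Dz (qp M l) (qp M n) (qp M g) (qp M 1) + RecT_Dm (qp M l) (qp M n) (qp M 1) * ((qp M m)⁻¹ * (qp M 1)⁻¹) ^ 2) := by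
    unfold RecT_d
    rw [RecT_neg, RecT_two, RecT_add, RecT_Dpl, RecT_Dze, RecT_Dmi, ← inv_pow, mul_inv]
    ring
  have d2 : RecT_d n g M l m = I * (RecT_Dp (qp M l) (qp M n) (qp M 1) * qp M m ^ 2 +
      RecT_Dz (qp M l) (qp M n) (qp M g) (qp M 1) + RecT_Dm (qp M l) (qp M n) (qp M 1) * (qp M m)⁻¹ ^ 2) := by
    unfold RecT_d
    rw [RecT_neg, RecT_two, RecT_Dpl, RecT_Dze, RecT_Dmi, ← inv_pow]
    ring
  have s1 : sn M l * sn M (l + n - 2) * sn M (2 * l + n) =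
      I * (RecT_s (qp M l) * RecT_s (qp M l * qp M n * (qp M 1)⁻¹ ^ 2) * RecT_s (qp M l ^ 2 * qp M n)) := by
    rw [RecT_snn, RecT_sn M (2 * l + n), f6, e5]
    ring
  have s2 : sn M m ^ 2 = -(RecT_s (qp M m) ^ 2) := by
    rw [pow_two, RecT_snn, pow_two]
  rw [d1, d2, s1, s2, RecT_snn, RecT_snn, RecT_snn, RecT_sn M (2 * l + n - 2), RecT_A, e1, e2, e3, e6, f1, f2, a1, a2, a3, a4]
  linear_combination I * h

private theorem RecT_key0 (n g M : ℕ) (l : ℂ) :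
    qp M (n - 2) * RecT_d n g M l 1 = qp M (-1) * (sn M (l + n - g) * sn M (l + g) * sn M (2 * l + n - 2)) + A0 n g M l +
      qp M (n - 3) * (sn M l * sn M (l + n - 2) * sn M (2 * l + n)) * (sn M (l + n - g - 1) * sn M (l + g - 1)) := by
  have h := RecT_id0 (qp M l) (qp M n) (qp M g) (qp M 1) (RecT_ne _ _) (RecT_ne _ _) (RecT_ne _ _) (RecT_ne _ _)
    (RecT_Dp (qp M l) (qp M n) (qp M 1)) (RecT_Dm (qp M l) (qp M n) (qp M 1)) (RecT_Dz (qp M l) (qp M n) (qp M g) (qp M 1))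
    (RecT_A0 (qp M l) (qp M n) (qp M g) (qp M 1)) rfl rfl rfl rfl
  have e1 : qp M (n - 2) = qp M n * (qp M 1)⁻¹ ^ 2 := by rw [RecT_sub, RecT_c2, inv_pow]
  have e2 : qp M (n - 3) = qp M n * (qp M 1)⁻¹ ^ 3 := by rw [RecT_sub, RecT_c3, inv_pow]
  have e3 : qp M (-1) = (qp M 1)⁻¹ := RecT_neg M 1
  have e5 : qp M (2 * l + n) = qp M l ^ 2 * qp M n := by rw [RecT_add, RecT_two]
  have e6 : qp M (2 * l + n - 2) = qp M l ^ 2 * qp M n * (qp M 1)⁻¹ ^ 2 := by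
    rw [RecT_sub, RecT_add, RecT_two, RecT_c2, inv_pow]
  have f1 : qp M (l + n - g) = qp M l * qp M n * (qp M g)⁻¹ := by rw [RecT_sub, RecT_add]
  have f2 : qp M (l + g) = qp M l * qp M g := RecT_add M _ _
  have f6 : qp M (l + n - 2) = qp M l * qp M n * (qp M 1)⁻¹ ^ 2 := by rw [RecT_sub, RecT_add, RecT_c2, inv_pow]
  have a3 : qp M (l + n - g - 1) = qp M l * qp M n * (qp M g)⁻¹ * (qp M 1)⁻¹ := by rw [RecT_sub, f1]
  have a4 : qp M (l + g - 1) = qp M l * qp M g * (qp M 1)⁻¹ := by rw [RecT_sub, f2]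
  have d2 : RecT_d n g M l 1 = I * (RecT_Dp (qp M l) (qp M n) (qp M 1) * qp M 1 ^ 2 +
      RecT_Dz (qp M l) (qp M n) (qp M g) (qp M 1) + RecT_Dm (qp M l) (qp M n) (qp M 1) * (qp M 1)⁻¹ ^ 2) := by
    unfold RecT_d
    rw [RecT_neg, RecT_two, RecT_Dpl, RecT_Dze, RecT_Dmi, ← inv_pow]
    ring
  have s1 : sn M l * sn M (l + n - 2) * sn M (2 * l + n) =
      I * (RecT_s (qp M l) * RecT_s (qp M l * qp M n * (qp M 1)⁻¹ ^ 2) * RecT_s (qp M l ^ 2 * qp M n)) := by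
    rw [RecT_snn, RecT_sn M (2 * l + n), f6, e5]
    ring
  have s3 : sn M (l + n - g) * sn M (l + g) * sn M (2 * l + n - 2) = I * (RecT_s (qp M l * qp M n * (qp M g)⁻¹) *
      RecT_s (qp M l * qp M g) * RecT_s (qp M l ^ 2 * qp M n * (qp M 1)⁻¹ ^ 2)) := by
    rw [RecT_snn, RecT_sn M (2 * l + n - 2), e6, f1, f2]
    ring
  rw [d2, s3, s1, RecT_snn, RecT_A, e1, e2, e3, a3, a4]
  linear_combination I * h

private noncomputable def RecT_h (n g M : ℕ) (l i : ℂ) : ℂ := sn M (l + n - g - 1 - i) * sn M (l + g - 1 - i)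

private theorem RecT_tt (n g M : ℕ) (l : ℂ) (m : ℕ) :
    tt n g M l m = qp M ((n - 2) * m) * (∏ i ∈ Finset.range m, RecT_h n g M l i) / (S M m : ℂ) ^ 2 := rfl

private theorem RecT_up (n g M : ℕ) (l : ℂ) (k : ℕ) :
    ∏ i ∈ Finset.range (k + 1), RecT_h n g M (l + 1) i =
      (∏ i ∈ Finset.range k, RecT_h n g M l i) * (sn M (l + n - g) * sn M (l + g)) := by
  rw [Finset.prod_range_succ']
  congr 1
  · refine Finset.prod_congr rfl fun i _ => ?_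
    unfold RecT_h
    have e1 : l + 1 + (n : ℂ) - g - 1 - ((i + 1 : ℕ) : ℂ) = l + n - g - 1 - i := by push_cast; ring
    have e2 : l + 1 + (g : ℂ) - 1 - ((i + 1 : ℕ) : ℂ) = l + g - 1 - i := by push_cast; ring
    rw [e1, e2]
  · unfold RecT_h
    have e1 : l + 1 + (n : ℂ) - g - 1 - ((0 : ℕ) : ℂ) = l + n - g := by push_cast; ring
    have e2 : l + 1 + (g : ℂ) - 1 - ((0 : ℕ) : ℂ) = l + g := by push_cast; ring
    rw [e1, e2]

private theorem RecT_down (n g M : ℕ) (l : ℂ) (k : ℕ) :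
    (sn M (l + n - g - 1) * sn M (l + g - 1)) * ∏ i ∈ Finset.range k, RecT_h n g M (l - 1) i =
      ∏ i ∈ Finset.range (k + 1), RecT_h n g M l i := by
  rw [Finset.prod_range_succ', mul_comm]
  congr 1
  · refine Finset.prod_congr rfl fun i _ => ?_
    unfold RecT_h
    have e1 : l + (n : ℂ) - g - 1 - ((i + 1 : ℕ) : ℂ) = l - 1 + n - g - 1 - i := by push_cast; ring
    have e2 : l + (g : ℂ) - 1 - ((i + 1 : ℕ) : ℂ) = l - 1 + g - 1 - i := by push_cast; ring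
    rw [e1, e2]
  · unfold RecT_h
    have e1 : l + (n : ℂ) - g - 1 - ((0 : ℕ) : ℂ) = l + n - g - 1 := by push_cast; ring
    have e2 : l + (g : ℂ) - 1 - ((0 : ℕ) : ℂ) = l + g - 1 := by push_cast; ring
    rw [e1, e2]

private theorem RecT_S (M k : ℕ) : (S M (k + 1) : ℂ) = S M k * sn M (k + 1) := by
  rw [S_succ]
  unfold sg sn
  push_cast
  rfl

/-- the primitive -/
private noncomputable def RecT_U (n g M : ℕ) (l : ℂ) : ℕ → ℂ
  | 0 => 0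
  | m + 1 => qp M (n - 2) * tt n g M l m * RecT_d n g M l (m + 1)

private theorem RecT_term (n g M : ℕ) (l : ℂ) (m : ℕ) (hm : m < M) :
    qp M (-1) * (sn M (l + n - g) * sn M (l + g) * sn M (2 * l + n - 2)) * tt n g M (l + 1) m +
      A0 n g M l * tt n g M l m +
      qp M (n - 3) * (sn M l * sn M (l + n - g - 1) * sn M (l + g - 1) * sn M (l + n - 2) *
        sn M (2 * l + n)) * tt n g M (l - 1) m = RecT_U n g M l (m + 1) - RecT_U n g M l m := by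
  rcases m with _ | k
  · have h := RecT_key0 n g M l
    have t : ∀ x : ℂ, tt n g M x 0 = 1 := by
      intro x
      rw [RecT_tt]
      have h0 : qp M 0 = 1 := by simp [qp]
      simp [h0, S_zero]
    simp only [RecT_U, t]
    have e : ((0 : ℕ) : ℂ) + 1 = 1 := by norm_num
    rw [e]
    linear_combination -h
  · have hS : (S M (k + 1) : ℂ) ≠ 0 := by
      exact_mod_cast (S_pos hm).ne'
    have hS' := RecT_S M k
    have hSk : (S M k : ℂ) ≠ 0 := by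
      intro h0
      rw [hS', h0, zero_mul] at hS
      exact hS rfl
    have hs : sn M (k + 1) ≠ 0 := by
      intro h0
      rw [hS', h0, mul_zero] at hS
      exact hS rfl
    have h := RecT_key n g M l (k + 1)
    have hup := RecT_up n g M l k
    have hdn := RecT_down n g M l (k + 1)
    have hP1 : ∏ i ∈ Finset.range (k + 1), RecT_h n g M l i = (∏ i ∈ Finset.range k, RecT_h n g M l i) *
        (sn M (l + n - g - (k + 1)) * sn M (l + g - (k + 1))) := by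
      rw [Finset.prod_range_succ]
      unfold RecT_h
      have e1 : l + (n : ℂ) - g - 1 - (k : ℂ) = l + n - g - (k + 1) := by ring
      have e2 : l + (g : ℂ) - 1 - (k : ℂ) = l + g - (k + 1) := by ring
      rw [e1, e2]
    have hP2 : ∏ i ∈ Finset.range (k + 1 + 1), RecT_h n g M l i = (∏ i ∈ Finset.range (k + 1), RecT_h n g M l i) *
        (sn M (l + n - g - (k + 1) - 1) * sn M (l + g - (k + 1) - 1)) := by
      rw [Finset.prod_range_succ]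
      unfold RecT_h
      have e1 : l + (n : ℂ) - g - 1 - ((k + 1 : ℕ) : ℂ) = l + n - g - (k + 1) - 1 := by push_cast; ring
      have e2 : l + (g : ℂ) - 1 - ((k + 1 : ℕ) : ℂ) = l + g - (k + 1) - 1 := by push_cast; ring
      rw [e1, e2]
    have hq : qp M ((n - 2) * ((k + 1 : ℕ) : ℂ)) = qp M (n - 2) * qp M ((n - 2) * (k : ℂ)) := by
      rw [← RecT_add]
      congr 1
      push_cast
      ring
    simp only [RecT_U]
    rw [RecT_tt n g M (l + 1), RecT_tt n g M (l - 1), RecT_tt n g M l (k + 1), RecT_tt n g M l k, hup, hq]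
    have c1 : (((k + 1 : ℕ) : ℂ) + 1) = (k : ℂ) + 1 + 1 := by push_cast; ring
    rw [c1]
    obtain ⟨P, hP⟩ : ∃ P, P = ∏ i ∈ Finset.range k, RecT_h n g M l i := ⟨_, rfl⟩
    obtain ⟨R, hR⟩ : ∃ R, R = ∏ i ∈ Finset.range (k + 1), RecT_h n g M (l - 1) i := ⟨_, rfl⟩
    rw [hP2, hP1, ← hP, ← hR] at hdn
    rw [hP1, ← hP, ← hR, hS']
    obtain ⟨W, hW⟩ : ∃ W : ℂ, W = (((S M k : ℂ) * sn M (k + 1)) ^ 2)⁻¹ := ⟨_, rfl⟩
    have hW2 : ((S M k : ℂ) ^ 2)⁻¹ = sn M (k + 1) ^ 2 * W := by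
      rw [hW]
      field_simp
    simp only [div_eq_mul_inv]
    rw [← hW, hW2]
    obtain ⟨d1, hd1⟩ : ∃ d1, d1 = RecT_d n g M l ((k : ℂ) + 1 + 1) := ⟨_, rfl⟩
    obtain ⟨d2, hd2⟩ : ∃ d2, d2 = RecT_d n g M l ((k : ℂ) + 1) := ⟨_, rfl⟩
    rw [← hd1, ← hd2] at h ⊢
    linear_combination (qp M (n - 2) * qp M ((n - 2) * (k : ℂ)) * P * W) * (-h) + (qp M (n - 3) * qp M (n - 2) * qp M ((n - 2) * (k : ℂ)) *
      (sn M l * sn M (l + n - 2) * sn M (2 * l + n)) * W) * hdn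

theorem rec_T (n g M : ℕ) (hg : 1 ≤ g) (hgn : g + 1 ≤ n) (hM : 2 ≤ M) (l : ℂ) :
    qp M (-1) * (sn M (l + n - g) * sn M (l + g) * sn M (2 * l + n - 2)) * TT n g M (l + 1) +
      A0 n g M l * TT n g M l +
      qp M (n - 3) * (sn M l * sn M (l + n - g - 1) * sn M (l + g - 1) * sn M (l + n - 2) *
        sn M (2 * l + n)) * TT n g M (l - 1) =
    qp M (n - 2) * tt n g M l (M - 1) * (Dpl n M l + Dze n g M l + Dmi n M l) := by
  have h1 : ∀ m ∈ Finset.range M, qp M (-1) * (sn M (l + n - g) * sn M (l + g) * sn M (2 * l + n - 2)) * tt n g M (l + 1) m +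
      A0 n g M l * tt n g M l m +
      qp M (n - 3) * (sn M l * sn M (l + n - g - 1) * sn M (l + g - 1) * sn M (l + n - 2) *
        sn M (2 * l + n)) * tt n g M (l - 1) m = RecT_U n g M l (m + 1) - RecT_U n g M l m := fun m hm =>
    RecT_term n g M l m (Finset.mem_range.1 hm)
  have h2 := Finset.sum_congr (rfl : Finset.range M = Finset.range M) h1
  rw [Finset.sum_range_sub, Finset.sum_add_distrib, Finset.sum_add_distrib, ← Finset.mul_sum, ← Finset.mul_sum, ← Finset.mul_sum] at h2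
  have h3 : RecT_U n g M l 0 = 0 := rfl
  obtain ⟨k, rfl⟩ : ∃ k, M = k + 1 := ⟨M - 1, by omega⟩
  have h4 : RecT_U n g (k + 1) l (k + 1) = qp (k + 1) (n - 2) * tt n g (k + 1) l k * RecT_d n g (k + 1) l (k + 1) := rfl
  have h5 : qp (k + 1) (2 * ((k : ℂ) + 1)) = 1 := by
    unfold qp
    have hk : ((k + 1 : ℕ) : ℂ) ≠ 0 := by exact_mod_cast Nat.succ_ne_zero k
    have e : (Real.pi * I * (2 * ((k : ℂ) + 1)) / ((k + 1 : ℕ) : ℂ)) = 2 * Real.pi * I := by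
      rw [div_eq_iff hk]
      push_cast
      ring
    rw [e, Complex.exp_two_pi_mul_I]
  have h6 : RecT_d n g (k + 1) l (k + 1) = Dpl n (k + 1) l + Dze n g (k + 1) l + Dmi n (k + 1) l := by
    unfold RecT_d
    rw [RecT_neg, h5]
    ring
  rw [h3, h4, h6, sub_zero] at h2
  unfold TT
  simpa using h2

end Pool.Agent.H63.TW
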