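import Pool.Agent.H63.TW.RecP
import Pool.Agent.H63.TW.RecT
import Pool.Agent.H63.TW.Even
import Pool.Agent.H63.VC3.LLfun

/-! # The recurrences in normalized form -/

namespace Pool.Agent.H63.TW

open Pool.Agent.H63.VC Pool.Agent.H63.VC3 Complex
open scoped BigOperators

/-- The normalized coefficient of the clasp. -/
noncomputable def Gm (n g M : ℕ) (l : ℂ) : ℂ := PP n g M l / BN n M l

/-- The normalized dual form. -/
noncomputable def Xx (n g M : ℕ) (l : ℂ) : ℂ := gph n M l * exp (-LL M l) * TT n g M l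

/-- The error term of the recurrence of `Gm`. -/
noncomputable def EG (n g M : ℕ) (l : ℂ) : ℂ :=
  -(qp M (-n) * (sn M (2 * l + n - 2) * sn M (2 * l + n - 1) * sn M (2 * l + n)) *
    (BC n g M 0 * (starRingEnd ℂ) (Th n M 0) * Pr n M 0 l / BN n M l))

/-- The error term of the recurrence of `Xx`. -/
noncomputable def EX (n g M : ℕ) (l : ℂ) : ℂ :=
  gph n M l * exp (-LL M l) * (qp M (n - 2) * tt n g M l (M - 1) *
    (Dpl n M l + Dze n g M l + Dmi n M l))

private lemma JetRec_sn_ne (M : ℕ) (x : ℂ) (h0 : 0 < x.re) (h1 : x.re < M) : sn M x ≠ 0 := by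
  have hM : (0 : ℝ) < M := h0.trans h1
  have hre : (x / (M : ℂ)).re = x.re / M := by rw [Complex.div_natCast_re]
  have z0 : 0 < (x / (M : ℂ)).re := by rw [hre]; positivity
  have z1 : (x / (M : ℂ)).re < 1 := by rw [hre, div_lt_one hM]; exact h1
  have h := Clausen_sin_re _ z0 z1
  intro hs
  unfold sn at hs
  rw [mul_div_assoc] at hs
  rw [hs] at h
  simp at h

private lemma JetRec_BN_ne (n M : ℕ) (hn : 2 ≤ n) (l : ℂ) (h0 : -1 < l.re)
    (h1 : l.re < (M : ℝ) - n + 2) : BN n M l ≠ 0 := by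
  unfold BN
  rw [Finset.prod_ne_zero_iff]
  intro i hi
  rw [Finset.mem_range] at hi
  have hi2 : ((i : ℝ)) + 2 + 1 ≤ n := by
    have : i + 2 + 1 ≤ n := by omega
    exact_mod_cast this
  have hi0 : (0 : ℝ) ≤ i := by positivity
  apply JetRec_sn_ne
  · simp; linarith
  · simp; linarith

private lemma JetRec_BN_succ (n M : ℕ) (hn : 2 ≤ n) (l : ℂ) :
    BN n M (l + 1) * sn M (l + 1) = BN n M l * sn M (l + n - 1) := by
  obtain ⟨m, rfl⟩ : ∃ m, n = m + 2 := ⟨n - 2, by omega⟩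
  unfold BN
  rw [Nat.add_sub_cancel]
  have h1 := Finset.prod_range_succ (fun i : ℕ => sn M (l + i + 1)) m
  have h2 := Finset.prod_range_succ' (fun i : ℕ => sn M (l + i + 1)) m
  rw [h2] at h1
  have e1 : ∀ i : ℕ, l + ((i + 1 : ℕ) : ℂ) + 1 = l + 1 + i + 1 := by
    intro i; push_cast; ring
  have e2 : l + ((0 : ℕ) : ℂ) + 1 = l + 1 := by push_cast; ring
  have e3 : l + ((m + 2 : ℕ) : ℂ) - 1 = l + m + 1 := by push_cast; ring
  simp only [e1, e2] at h1
  rw [e3]
  exact h1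

private lemma JetRec_BN_pred (n M : ℕ) (hn : 2 ≤ n) (l : ℂ) :
    BN n M (l - 1) * sn M (l + n - 2) = BN n M l * sn M l := by
  have h := JetRec_BN_succ n M hn (l - 1)
  have e1 : l - 1 + 1 = l := by ring
  have e2 : l - 1 + (n : ℂ) - 1 = l + n - 2 := by ring
  rw [e1, e2] at h
  exact h.symm

private lemma JetRec_qp_add (M : ℕ) (a b : ℂ) : qp M (a + b) = qp M a * qp M b := by
  unfold qp
  rw [← Complex.exp_add]
  congr 1
  ring

private lemma JetRec_qp_half (M : ℕ) (hM : 1 ≤ M) : qp M ((M : ℂ) / 2) = I := by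
  have hMc : (M : ℂ) ≠ 0 := by exact_mod_cast (by omega : M ≠ 0)
  unfold qp
  have e : (Real.pi : ℂ) * I * ((M : ℂ) / 2) / M = Real.pi / 2 * I := by
    field_simp
  rw [e, Complex.exp_pi_div_two_mul_I]

private lemma JetRec_qp_zero (M : ℕ) : qp M 0 = 1 := by
  unfold qp
  simp

private lemma JetRec_gph_succ (n M : ℕ) (hM : 1 ≤ M) (l : ℂ) :
    gph n M (l + 1) = I * qp M (1 - n - l) * gph n M l := by
  unfold gph
  rw [← JetRec_qp_half M hM, ← JetRec_qp_add, ← JetRec_qp_add]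
  congr 1
  ring

private lemma JetRec_gph_pred (n M : ℕ) (hM : 1 ≤ M) (l : ℂ) :
    gph n M (l - 1) = -I * qp M (l + n - 2) * gph n M l := by
  have h := JetRec_gph_succ n M hM (l - 1)
  have e1 : l - 1 + 1 = l := by ring
  rw [e1] at h
  have h2 : qp M (l + n - 2) * qp M (1 - n - (l - 1)) = 1 := by
    rw [← JetRec_qp_add]
    have e2 : l + (n : ℂ) - 2 + (1 - n - (l - 1)) = 0 := by ring
    rw [e2, JetRec_qp_zero]
  rw [h]
  linear_combination (-(gph n M (l - 1))) * h2 +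
    (gph n M (l - 1)) * (qp M (l + n - 2) * qp M (1 - n - (l - 1))) * (Complex.I_mul_I) 

private lemma JetRec_expLL (M : ℕ) (hM : 1 ≤ M) (s : ℂ) (h0 : 0 < s.re) (h1 : s.re < M) :
    exp (-LL M (s - 1)) = sn M s * exp (-LL M s) := by
  have hMr : (0 : ℝ) < M := h0.trans h1
  have hre : (s / (M : ℂ)).re = s.re / M := by rw [Complex.div_natCast_re]
  have z0 : 0 < (s / (M : ℂ)).re := by rw [hre]; positivity
  have z1 : (s / (M : ℂ)).re < 1 := by rw [hre, div_lt_one hMr]; exact h1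
  have h := LL_step M (by omega) s h0 h1
  have e : -LL M (s - 1) = hh (s / M) + -LL M s := by
    rw [← h]; ring
  rw [e, Complex.exp_add, hh_exp _ z0 z1]
  unfold sn
  rw [mul_div_assoc]

private lemma JetRec_sn_diff (M : ℕ) (f : ℂ → ℂ) (l : ℂ) (hf : DifferentiableAt ℂ f l) :
    DifferentiableAt ℂ (fun z => sn M (f z)) l := by
  unfold sn
  fun_prop

private lemma JetRec_BN_diff (n M : ℕ) (l : ℂ) : DifferentiableAt ℂ (BN n M) l := by
  have e : BN n M = fun l => ∏ i ∈ Finset.range (n - 2), sn M (l + i + 1) := rfl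
  rw [e]
  refine DifferentiableAt.fun_finsetProd fun i _ => ?_
  exact JetRec_sn_diff M _ l (by fun_prop)

private lemma JetRec_Pr_diff (n M k : ℕ) (l : ℂ) : DifferentiableAt ℂ (Pr n M k) l := by
  have e : Pr n M k = fun l => ∏ i ∈ Finset.Ico (k + 1) M, -(sn M (i - l) * sn M (i + l + n - 1)) :=
    rfl
  rw [e]
  refine DifferentiableAt.fun_finsetProd fun i _ => ?_
  exact ((JetRec_sn_diff M _ l (by fun_prop)).mul (JetRec_sn_diff M _ l (by fun_prop))).neg

private lemma JetRec_PP_diff (n g M : ℕ) (l : ℂ) : DifferentiableAt ℂ (PP n g M) l := by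
  have e : PP n g M = fun l => ∑ k ∈ Finset.range (M + 2 - n),
      BC n g M k * (starRingEnd ℂ) (Th n M k) * Pr n M k l := rfl
  rw [e]
  refine DifferentiableAt.fun_sum fun k _ => ?_
  exact (JetRec_Pr_diff n M k l).const_mul _

private lemma JetRec_tt_diff (n g M m : ℕ) (l : ℂ) :
    DifferentiableAt ℂ (fun l => tt n g M l m) l := by
  unfold tt
  refine DifferentiableAt.div_const (DifferentiableAt.const_mul ?_ _) _
  refine DifferentiableAt.fun_finsetProd fun i _ => ?_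
  exact (JetRec_sn_diff M _ l (by fun_prop)).mul (JetRec_sn_diff M _ l (by fun_prop))

private lemma JetRec_TT_diff (n g M : ℕ) (l : ℂ) : DifferentiableAt ℂ (TT n g M) l := by
  have e : TT n g M = fun l => ∑ m ∈ Finset.range M, tt n g M l m := rfl
  rw [e]
  exact DifferentiableAt.fun_sum fun k _ => JetRec_tt_diff n g M k l

/-- Roots of unity. -/
private lemma JetRec_prod_root (M : ℕ) (hM : 1 ≤ M) (w : ℂ) :
    ∏ i ∈ Finset.range M, (1 - exp (2 * Real.pi * I / M) ^ i * w) = 1 - w ^ M := by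
  classical
  have hprim : IsPrimitiveRoot (Complex.exp (2 * Real.pi * Complex.I / (M : ℂ))) M :=
    Complex.isPrimitiveRoot_exp M (by omega)
  have h := hprim.pow_sub_pow_eq_prod_sub_mul 1 w (by omega)
  rw [one_pow] at h
  rw [h]
  have himg : Polynomial.nthRootsFinset M (1 : ℂ) =
      (Finset.range M).image (fun i => Complex.exp (2 * Real.pi * Complex.I / (M : ℂ)) ^ i) := by
    symm
    apply Finset.eq_of_subset_of_card_le
    · intro x hx
      rw [Finset.mem_image] at hx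
      obtain ⟨i, -, rfl⟩ := hx
      rw [Polynomial.mem_nthRootsFinset (by omega), ← pow_mul, mul_comm i M, pow_mul, hprim.pow_eq_one,
        one_pow]
    · rw [hprim.card_nthRootsFinset, Finset.card_image_of_injOn, Finset.card_range]
      intro i hi j hj hij
      simp only [Finset.coe_range, Set.mem_Iio] at hi hj
      exact hprim.pow_inj hi hj hij
  rw [himg, Finset.prod_image]
  intro i hi j hj hij
  simp only [Finset.coe_range, Set.mem_Iio] at hi hj
  exact hprim.pow_inj hi hj hij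

private lemma JetRec_prod_exp (M m : ℕ) (x : ℂ) :
    ∏ i ∈ Finset.range m, exp (Real.pi * I * (x - i) / M) =
      exp (Real.pi * I * (m * x - m * (m - 1) / 2) / M) := by
  induction m with
  | zero => simp
  | succ k ih =>
    rw [Finset.prod_range_succ, ih, ← Complex.exp_add]
    congr 1
    push_cast
    ring

private lemma JetRec_sn_eq (M : ℕ) (x : ℂ) (i : ℕ) :
    sn M (x - i) = -I * exp (Real.pi * I * (x - i) / M) *
      (1 - exp (2 * Real.pi * I / M) ^ i * exp (-(2 * Real.pi * I * x / M))) := by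
  unfold sn
  rw [Complex.two_sin, ← Complex.exp_nat_mul]
  have k2 : exp (Real.pi * I * (x - i) / M) = exp (Real.pi * (x - i) / M * I) := by
    congr 1
    ring
  have k : exp (Real.pi * I * (x - i) / M) * (exp (i * (2 * Real.pi * I / M)) *
      exp (-(2 * Real.pi * I * x / M))) = exp (-(Real.pi * (x - i) / M) * I) := by
    rw [← Complex.exp_add, ← Complex.exp_add]
    congr 1
    ring
  linear_combination (-I) * k + I * k2

private lemma JetRec_prod_sn (M : ℕ) (hM : 1 ≤ M) (x : ℂ) :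
    ∏ i ∈ Finset.range M, sn M (x - i) = (-1) ^ (M - 1) * (2 * sin (Real.pi * x)) := by
  have hMc : (M : ℂ) ≠ 0 := by exact_mod_cast (by omega : M ≠ 0)
  have h1 : ∏ i ∈ Finset.range M, sn M (x - i) = ∏ i ∈ Finset.range M,
      (-I * exp (Real.pi * I * (x - i) / M) *
      (1 - exp (2 * Real.pi * I / M) ^ i * exp (-(2 * Real.pi * I * x / M)))) :=
    Finset.prod_congr rfl fun i _ => JetRec_sn_eq M x i
  rw [h1, Finset.prod_mul_distrib, Finset.prod_mul_distrib, JetRec_prod_exp,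
    JetRec_prod_root M hM, Finset.prod_const, Finset.card_range, ← Complex.exp_nat_mul]
  obtain ⟨m, rfl⟩ : ∃ m, M = m + 1 := ⟨M - 1, by omega⟩
  have e1 : (Real.pi : ℂ) * I * (((m + 1 : ℕ) : ℂ) * x - ((m + 1 : ℕ) : ℂ) *
      (((m + 1 : ℕ) : ℂ) - 1) / 2) / ((m + 1 : ℕ) : ℂ) = Real.pi * x * I +
      m * (-Real.pi / 2 * I) := by
    field_simp
    push_cast
    ring
  have e2 : ((m + 1 : ℕ) : ℂ) * (-(2 * Real.pi * I * x / ((m + 1 : ℕ) : ℂ))) =
      -(Real.pi * x) * I + -(Real.pi * x) * I := by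
    field_simp
    ring
  have e3 : exp (-(Real.pi : ℂ) / 2 * I) = -I := by
    have : -(Real.pi : ℂ) / 2 * I = -(Real.pi / 2 * I) := by ring
    rw [this, Complex.exp_neg, Complex.exp_pi_div_two_mul_I, Complex.inv_I]
  have e4 : exp (Real.pi * x * I) * exp (-(Real.pi * x) * I) = 1 := by
    rw [← Complex.exp_add]
    have : (Real.pi : ℂ) * x * I + -(Real.pi * x) * I = 0 := by ring
    rw [this, Complex.exp_zero]
  rw [e1, e2, Complex.exp_add, Complex.exp_nat_mul, e3, Complex.exp_add, Nat.add_sub_cancel,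
    Complex.two_sin]
  have e5 : (-I) ^ (m + 1) * (-I) ^ m = (-1) ^ m * (-I) := by
    rw [pow_succ, mul_right_comm, ← mul_pow]
    congr 2
    linear_combination Complex.I_mul_I
  linear_combination (exp (Real.pi * x * I) * (1 - exp (-(Real.pi * x) * I) *
    exp (-(Real.pi * x) * I))) * e5 + (-1) ^ m * I * exp (-(Real.pi * x) * I) * e4

theorem recG (n g M : ℕ) (hg : 1 ≤ g) (hgn : g + 1 ≤ n) (hM : n + 1 ≤ M) (l : ℂ)
    (h0 : 0 < l.re) (h1 : l.re < (M : ℝ) - n + 1) :
    Ap n g M l * Gm n g M (l + 1) + A0 n g M l * Gm n g M l + Am n g M l * Gm n g M (l - 1) =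
      EG n g M l := by
  have hn : 2 ≤ n := by omega
  have hnr : (2 : ℝ) ≤ n := by exact_mod_cast hn
  have b0 : BN n M l ≠ 0 := JetRec_BN_ne n M hn l (by linarith) (by linarith)
  have b1 : BN n M (l + 1) ≠ 0 := JetRec_BN_ne n M hn _ (by simp; linarith) (by simp; linarith)
  have b2 : BN n M (l - 1) ≠ 0 := JetRec_BN_ne n M hn _ (by simp; linarith) (by simp; linarith)
  have s0 : sn M l ≠ 0 := JetRec_sn_ne M l h0 (by linarith)
  have s1 : sn M (l + n - 1) ≠ 0 := JetRec_sn_ne M _ (by simp; linarith) (by simp; linarith)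
  have hs := JetRec_BN_succ n M hn l
  have hp := JetRec_BN_pred n M hn l
  have a1 : Gm n g M (l + 1) * (BN n M l * sn M (l + n - 1)) = PP n g M (l + 1) * sn M (l + 1) := by
    unfold Gm
    rw [div_mul_eq_mul_div, div_eq_iff b1]
    linear_combination (-PP n g M (l + 1)) * hs
  have a2 : Gm n g M (l - 1) * (BN n M l * sn M l) = PP n g M (l - 1) * sn M (l + n - 2) := by
    unfold Gm
    rw [div_mul_eq_mul_div, div_eq_iff b2]
    linear_combination (-PP n g M (l - 1)) * hp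
  have a3 : Gm n g M l * BN n M l = PP n g M l := by
    unfold Gm
    rw [div_mul_cancel₀ _ b0]
  have a4 : EG n g M l * BN n M l = -(qp M (-n) * (sn M (2 * l + n - 2) * sn M (2 * l + n - 1) *
      sn M (2 * l + n)) * (BC n g M 0 * (starRingEnd ℂ) (Th n M 0) * Pr n M 0 l)) := by
    unfold EG
    field_simp
  have h := rec_P n g M hg hgn hM l
  have hD : sn M l * sn M (l + n - 1) * BN n M l ≠ 0 := mul_ne_zero (mul_ne_zero s0 s1) b0
  apply mul_left_cancel₀ hD
  linear_combination h + (Ap n g M l * sn M l) * a1 +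
    (A0 n g M l * sn M l * sn M (l + n - 1)) * a3 + (Am n g M l * sn M (l + n - 1)) * a2 -
    (sn M l * sn M (l + n - 1)) * a4

theorem recX (n g M : ℕ) (hg : 1 ≤ g) (hgn : g + 1 ≤ n) (hM : n + 1 ≤ M) (l : ℂ)
    (h0 : 0 < l.re) (h1 : l.re < (M : ℝ) - 1) :
    Ap n g M l * Xx n g M (l + 1) + A0 n g M l * Xx n g M l + Am n g M l * Xx n g M (l - 1) =
      EX n g M l := by
  have hM1 : 1 ≤ M := by omega
  have h := rec_T n g M hg hgn (by omega) l
  have g1 := JetRec_gph_succ n M hM1 l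
  have g2 := JetRec_gph_pred n M hM1 l
  have x2 := JetRec_expLL M hM1 l h0 (by linarith)
  have x1 := JetRec_expLL M hM1 (l + 1) (by simp; linarith) (by simp; linarith)
  have e1 : l + 1 - 1 = l := by ring
  rw [e1] at x1
  have q1 : qp M (l + n - 2) * qp M (1 - n - l) = qp M (-1) := by
    rw [← JetRec_qp_add]
    congr 1
    ring
  have q2 : qp M (-l - 1) * qp M (l + n - 2) = qp M (n - 3) := by
    rw [← JetRec_qp_add]
    congr 1
    ring
  have k1 : Ap n g M l * Xx n g M (l + 1) = gph n M l * exp (-LL M l) *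
      (qp M (-1) * (sn M (l + n - g) * sn M (l + g) * sn M (2 * l + n - 2)) *
        TT n g M (l + 1)) := by
    unfold Ap Xx
    rw [g1, x1, ← q1]
    linear_combination (-(qp M (l + n - 2) * (sn M (l + n - g) * sn M (l + g) * sn M (l + 1) *
      sn M (2 * l + n - 2)) * (qp M (1 - n - l) * gph n M l * exp (-LL M (l + 1)) *
      TT n g M (l + 1)))) * Complex.I_mul_I
  have k2 : Am n g M l * Xx n g M (l - 1) = gph n M l * exp (-LL M l) *
      (qp M (n - 3) * (sn M l * sn M (l + n - g - 1) * sn M (l + g - 1) * sn M (l + n - 2) *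
        sn M (2 * l + n)) * TT n g M (l - 1)) := by
    unfold Am Xx
    rw [g2, x2, ← q2]
    linear_combination (-(qp M (-l - 1) * (sn M (l + g - 1) * sn M (l + n - g - 1) *
      sn M (l + n - 2) * sn M (2 * l + n)) * (qp M (l + n - 2) * gph n M l * (sn M l *
      exp (-LL M l)) * TT n g M (l - 1)))) * Complex.I_mul_I
  rw [k1, k2]
  unfold Xx EX
  linear_combination (gph n M l * exp (-LL M l)) * h

theorem Gm_diff (n g M : ℕ) (hn : 2 ≤ n) (hM : n + 1 ≤ M) (l : ℂ) (h0 : -1 < l.re)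
    (h1 : l.re < (M : ℝ) - n + 2) : DifferentiableAt ℂ (Gm n g M) l := by
  have e : Gm n g M = fun l => PP n g M l / BN n M l := rfl
  rw [e]
  exact (JetRec_PP_diff n g M l).div (JetRec_BN_diff n M l) (JetRec_BN_ne n M hn l h0 h1)

theorem Xx_diff (n g M : ℕ) (hM : 1 ≤ M) (l : ℂ) (h0 : -1 < l.re) (h1 : l.re < M) :
    DifferentiableAt ℂ (Xx n g M) l := by
  have e : Xx n g M = fun l => gph n M l * exp (-LL M l) * TT n g M l := rfl
  rw [e]
  have h2 : DifferentiableAt ℂ (gph n M) l := by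
    unfold gph qp
    fun_prop
  exact (h2.mul ((LL_differentiableAt M (by omega) l h0 h1).neg.cexp)).mul
    (JetRec_TT_diff n g M l)

theorem Gm_even (n g M : ℕ) (hn : 2 ≤ n) (hM : n ≤ M) (l : ℂ) :
    Gm n g M (M + 1 - n - l) = Gm n g M l := by
  unfold Gm
  rw [PP_even n g M hn hM, BN_even n M hn hM]

private lemma JetRec_sin_sub (x : ℂ) (m : ℕ) :
    sin (Real.pi * (x + m)) = (-1) ^ m * sin (Real.pi * x) := by
  induction m with
  | zero => simp
  | succ k ih =>
    have e : (Real.pi : ℂ) * (x + ((k + 1 : ℕ) : ℂ)) = Real.pi * (x + k) + Real.pi := by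
      push_cast; ring
    rw [e, Complex.sin_add_pi, ih, pow_succ]
    ring

private lemma JetRec_sn_last (M : ℕ) (hM : 1 ≤ M) (x : ℂ) :
    sn M (x - (M - 1 : ℕ)) = -sn M (x + 1) := by
  have hMc : (M : ℂ) ≠ 0 := by exact_mod_cast (by omega : M ≠ 0)
  unfold sn
  rw [Nat.cast_sub hM, Nat.cast_one]
  have e : (Real.pi : ℂ) * (x - (M - 1)) / M = Real.pi * (x + 1) / M - Real.pi := by
    field_simp
    ring
  rw [e, Complex.sin_sub_pi]
  ring

private lemma JetRec_half (M : ℕ) (hM : 1 ≤ M) (l : ℂ) (a : ℕ) :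
    (∏ i ∈ Finset.range (M - 1), sn M (l + a - i)) * sn M (l + a + 1) =
      (-1) ^ M * ((-1) ^ a * (2 * sin (Real.pi * l))) := by
  have h := JetRec_prod_sn M hM (l + a)
  obtain ⟨m, rfl⟩ : ∃ m, M = m + 1 := ⟨M - 1, by omega⟩
  rw [Finset.prod_range_succ] at h
  have h2 := JetRec_sn_last (m + 1) hM (l + a)
  rw [Nat.add_sub_cancel] at h h2 ⊢
  rw [h2, JetRec_sin_sub] at h
  rw [pow_succ]
  linear_combination -h

/-- `tt n g M l (M - 1)` in closed form (here `sn (l + n - g) sn (l + g) ≠ 0`). -/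
theorem tt_last (n g M : ℕ) (hg : 1 ≤ g) (hgn : g + 1 ≤ n) (hM : 2 ≤ M) (l : ℂ) :
    tt n g M l (M - 1) * (sn M (l + n - g) * sn M (l + g)) =
      qp M ((n - 2) * (M - 1)) * (-1) ^ n * 4 * sin (Real.pi * l) ^ 2 / (M : ℂ) ^ 2 := by
  have hM1 : 1 ≤ M := by omega
  have hMc : (M : ℂ) ≠ 0 := by exact_mod_cast (by omega : M ≠ 0)
  have p1 := JetRec_half M hM1 l (n - g - 1)
  have p2 := JetRec_half M hM1 l (g - 1)
  have c1 : ((n - g - 1 : ℕ) : ℂ) = n - g - 1 := by
    rw [Nat.cast_sub (by omega), Nat.cast_sub (by omega), Nat.cast_one]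
  have c2 : ((g - 1 : ℕ) : ℂ) = g - 1 := by
    rw [Nat.cast_sub (by omega), Nat.cast_one]
  rw [c1] at p1
  rw [c2] at p2
  have e1 : l + ((n : ℂ) - g - 1) + 1 = l + n - g := by ring
  have e2 : l + ((g : ℂ) - 1) + 1 = l + g := by ring
  rw [e1] at p1
  rw [e2] at p2
  unfold tt
  rw [Finset.prod_mul_distrib, S_full M (by omega), Nat.cast_sub hM1, Nat.cast_one]
  have e3 : ∀ i : ℕ, l + (n : ℂ) - g - 1 - i = l + ((n : ℂ) - g - 1) - i := by
    intro i; ring
  have e4 : ∀ i : ℕ, l + (g : ℂ) - 1 - i = l + ((g : ℂ) - 1) - i := by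
    intro i; ring
  simp only [e3, e4]
  have e5 : ((M : ℝ) : ℂ) = (M : ℂ) := by push_cast; rfl
  rw [e5]
  have sg2 : ((-1 : ℂ) ^ M * (-1) ^ (n - g - 1)) * ((-1) ^ M * (-1) ^ (g - 1)) = (-1) ^ n := by
    have f1 : (-1 : ℂ) ^ M * (-1) ^ M = 1 := by
      rw [← mul_pow]; norm_num
    have f2 : (-1 : ℂ) ^ (n - g - 1) * (-1) ^ (g - 1) * (-1) ^ 2 = (-1) ^ n := by
      rw [← pow_add, ← pow_add]
      congr 1
      omega
    linear_combination ((-1 : ℂ) ^ (n - g - 1) * (-1) ^ (g - 1)) * f1 + f2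
  rw [div_mul_eq_mul_div]
  congr 1
  linear_combination (qp M ((n - 2) * (M - 1)) * ((∏ i ∈ Finset.range (M - 1),
    sn M (l + ((g : ℂ) - 1) - i)) * sn M (l + g))) * p1 + (qp M ((n - 2) * (M - 1)) *
    ((-1) ^ M * ((-1) ^ (n - g - 1) * (2 * sin (Real.pi * l))))) * p2 +
    (qp M ((n - 2) * (M - 1)) * 4 * sin (Real.pi * l) ^ 2) * sg2

private lemma JetRec_qp_ne (M : ℕ) (x : ℂ) : qp M x ≠ 0 := Complex.exp_ne_zero _

theorem Ap_ne (n g M l : ℕ) (hg : 1 ≤ g) (hgn : g + 1 ≤ n) (h : 2 * l + n ≤ M + 1)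
    (h1 : l + n ≤ M) (h2 : 3 ≤ 2 * l + n) : Ap n g M l ≠ 0 := by
  have gr : (1 : ℝ) ≤ g := by exact_mod_cast hg
  have gn : (g : ℝ) + 1 ≤ n := by exact_mod_cast hgn
  have r : 2 * (l : ℝ) + n ≤ M + 1 := by exact_mod_cast h
  have r1 : (l : ℝ) + n ≤ M := by exact_mod_cast h1
  have r2 : (3 : ℝ) ≤ 2 * l + n := by exact_mod_cast h2
  have l0 : (0 : ℝ) ≤ l := by positivity
  unfold Ap
  refine mul_ne_zero (mul_ne_zero (neg_ne_zero.2 Complex.I_ne_zero) (JetRec_qp_ne M _))
    (mul_ne_zero (mul_ne_zero (mul_ne_zero ?_ ?_) ?_) ?_)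
  all_goals
    apply JetRec_sn_ne
    · simp; linarith
    · simp; linarith

theorem Am_ne (n g M l : ℕ) (hg : 1 ≤ g) (hgn : g + 1 ≤ n) (h1 : 1 ≤ l)
    (h : 2 * l + n + 1 ≤ M) : Am n g M l ≠ 0 := by
  have gr : (1 : ℝ) ≤ g := by exact_mod_cast hg
  have gn : (g : ℝ) + 1 ≤ n := by exact_mod_cast hgn
  have r : 2 * (l : ℝ) + n + 1 ≤ M := by exact_mod_cast h
  have r1 : (1 : ℝ) ≤ l := by exact_mod_cast h1
  unfold Am
  refine mul_ne_zero (mul_ne_zero Complex.I_ne_zero (JetRec_qp_ne M _))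
    (mul_ne_zero (mul_ne_zero (mul_ne_zero ?_ ?_) ?_) ?_)
  all_goals
    apply JetRec_sn_ne
    · simp; linarith
    · simp; linarith

theorem A0_mid (n g M h : ℕ) (hM : 2 * h + n = M) (hM1 : 1 ≤ M) :
    A0 n g M h = -Ap n g M h := by
  have hMc : (M : ℂ) ≠ 0 := by exact_mod_cast (by omega : M ≠ 0)
  have e : 2 * (h : ℂ) + n = M := by exact_mod_cast hM
  have s0 : sn M (2 * h + n) = 0 := by
    unfold sn
    rw [e, mul_div_assoc, div_self hMc, mul_one, Complex.sin_pi, mul_zero]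
  have q : qp M (3 * h + 2 * n - 2) = -qp M (h + n - 2) := by
    have e2 : 3 * (h : ℂ) + 2 * n - 2 = (h + n - 2) + M := by rw [← e]; ring
    rw [e2, JetRec_qp_add]
    have e3 : qp M (M : ℂ) = -1 := by
      unfold qp
      rw [mul_div_assoc, div_self hMc, mul_one, Complex.exp_pi_mul_I]
    rw [e3]
    ring
  unfold A0 Ap
  rw [s0, q]
  ring

end Pool.Agent.H63.TW
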