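import Pool.Agent.H63.TW.Defs

/-! # The values at the end of the range -/

namespace Pool.Agent.H63.TW

open Pool.Agent.H63.VC Pool.Agent.H63.VC3 Complex
open scoped BigOperators

/-! ### Elementary facts on `qp` and `sn` -/

private lemma Start_qp_add (M : ℕ) (x y : ℂ) : qp M (x + y) = qp M x * qp M y := by
  unfold qp
  rw [← Complex.exp_add]
  congr 1
  ring

private lemma Start_qp_zero (M : ℕ) : qp M 0 = 1 := by simp [qp]

private lemma Start_qp_neg (M : ℕ) (x : ℂ) : qp M (-x) = (qp M x)⁻¹ := by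
  unfold qp
  rw [← Complex.exp_neg]
  congr 1
  ring

private lemma Start_qp_ne (M : ℕ) (x : ℂ) : qp M x ≠ 0 := Complex.exp_ne_zero _

private lemma Start_qp_sub (M : ℕ) (x y : ℂ) : qp M (x - y) = qp M x * (qp M y)⁻¹ := by
  rw [sub_eq_add_neg, Start_qp_add, Start_qp_neg]

private lemma Start_qp_nat (M : ℕ) (x : ℂ) (k : ℕ) : qp M (k * x) = qp M x ^ k := by
  unfold qp
  rw [← Complex.exp_nat_mul]
  congr 1
  ring

private lemma Start_sn_eq (M : ℕ) (x : ℂ) : sn M x = -I * (qp M x - (qp M x)⁻¹) := by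
  rw [← Start_qp_neg]
  unfold sn qp
  rw [Complex.two_sin]
  have e1 : -(Real.pi * x / M) * I = Real.pi * I * -x / M := by ring
  have e2 : (Real.pi * x / M : ℂ) * I = Real.pi * I * x / M := by ring
  rw [e1, e2]
  ring

private lemma Start_qp_M {M : ℕ} (hM : M ≠ 0) : qp M M = -1 := by
  unfold qp
  have hM' : (M : ℂ) ≠ 0 := by exact_mod_cast hM
  have e : (Real.pi * I * M / M : ℂ) = Real.pi * I := by field_simp
  rw [e, Complex.exp_pi_mul_I]

private lemma Start_sn_nat (M m : ℕ) : sn M (m : ℂ) = ((sg M m : ℝ) : ℂ) := by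
  unfold sn sg
  push_cast
  rfl

private lemma Start_sn_refl {M : ℕ} (hM : M ≠ 0) (x : ℂ) : sn M (M - x) = sn M x := by
  rw [Start_sn_eq, Start_sn_eq, Start_qp_sub, Start_qp_M hM]
  have h := Start_qp_ne M x
  field_simp
  ring

private lemma Start_sn_shift {M : ℕ} (hM : M ≠ 0) (x : ℂ) : sn M (M + x) = -sn M x := by
  rw [Start_sn_eq, Start_sn_eq, Start_qp_add, Start_qp_M hM]
  have h := Start_qp_ne M x
  field_simp
  ring

private lemma Start_sn_M {M : ℕ} (hM : M ≠ 0) : sn M M = 0 := by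
  rw [Start_sn_eq, Start_qp_M hM]
  norm_num

private lemma Start_add (M : ℕ) (x y : ℂ) :
    sn M (x + y) = qp M (-y) * sn M x + qp M x * sn M y := by
  rw [Start_sn_eq, Start_sn_eq, Start_sn_eq, Start_qp_add, Start_qp_neg]
  have h1 := Start_qp_ne M x
  have h2 := Start_qp_ne M y
  field_simp
  ring

private lemma Start_add' (M : ℕ) (x y : ℂ) :
    sn M (x + y) = qp M y * sn M x + qp M (-x) * sn M y := by
  rw [Start_sn_eq, Start_sn_eq, Start_sn_eq, Start_qp_add, Start_qp_neg]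
  have h1 := Start_qp_ne M x
  have h2 := Start_qp_ne M y
  field_simp
  ring

/-! ### Gaussian binomials -/

/-- Symmetric Gaussian binomials. -/
private noncomputable def Start_G (M a m : ℕ) : ℂ :=
  if m ≤ a then ((S M a / (S M m * S M (a - m)) : ℝ) : ℂ) else 0

private lemma Start_G_zero (M a : ℕ) (ha : a < M) : Start_G M a 0 = 1 := by
  unfold Start_G
  have h := (S_pos ha).ne'
  rw [if_pos (Nat.zero_le _), S_zero, one_mul, Nat.sub_zero, div_self h]
  norm_num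

private lemma Start_G_big (M : ℕ) {a m : ℕ} (h : a < m) : Start_G M a m = 0 := by
  unfold Start_G
  rw [if_neg (by omega)]

private lemma Start_G_self (M a : ℕ) (ha : a < M) : Start_G M a a = 1 := by
  unfold Start_G
  have h := (S_pos ha).ne'
  rw [if_pos le_rfl, Nat.sub_self, S_zero, mul_one, div_self h]
  norm_num

private lemma Start_G_rec (M a k : ℕ) (ha : a + 1 < M) :
    Start_G M (a + 1) (k + 1) =
      qp M (-((k : ℂ) + 1)) * Start_G M a (k + 1) + qp M ((a : ℂ) - k) * Start_G M a k ∧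
    Start_G M (a + 1) (k + 1) =
      qp M ((k : ℂ) + 1) * Start_G M a (k + 1) + qp M ((k : ℂ) - a) * Start_G M a k := by
  rcases lt_trichotomy k a with h | h | h
  · obtain ⟨d, rfl⟩ : ∃ d, a = k + 1 + d := ⟨a - (k + 1), by omega⟩
    have e1 : Start_G M (k + 1 + d + 1) (k + 1) = ((S M (k + 1 + d) * sg M (k + 1 + d + 1) /
        (S M k * sg M (k + 1) * (S M d * sg M (d + 1))) : ℝ) : ℂ) := by
      unfold Start_G
      rw [if_pos (by omega), S_succ, S_succ, show k + 1 + d + 1 - (k + 1) = d + 1 by omega, S_succ]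
    have e2 : Start_G M (k + 1 + d) (k + 1) = ((S M (k + 1 + d) /
        (S M k * sg M (k + 1) * S M d) : ℝ) : ℂ) := by
      unfold Start_G
      rw [if_pos (by omega), show k + 1 + d - (k + 1) = d by omega, S_succ M k]
    have e3 : Start_G M (k + 1 + d) k = ((S M (k + 1 + d) /
        (S M k * (S M d * sg M (d + 1))) : ℝ) : ℂ) := by
      unfold Start_G
      rw [if_pos (by omega), show k + 1 + d - k = d + 1 by omega, S_succ M d]
    have n1 : ((S M k : ℝ) : ℂ) ≠ 0 := by exact_mod_cast (S_pos (by omega : k < M)).ne'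
    have n2 : ((S M d : ℝ) : ℂ) ≠ 0 := by exact_mod_cast (S_pos (by omega : d < M)).ne'
    have n3 : ((sg M (k + 1) : ℝ) : ℂ) ≠ 0 := by
      exact_mod_cast (sg_pos (by omega : 1 ≤ k + 1) (by omega : k + 1 < M)).ne'
    have n4 : ((sg M (d + 1) : ℝ) : ℂ) ≠ 0 := by
      exact_mod_cast (sg_pos (by omega : 1 ≤ d + 1) (by omega : d + 1 < M)).ne'
    have k1 : ((sg M (k + 1 + d + 1) : ℝ) : ℂ) = qp M (-((k : ℂ) + 1)) * ((sg M (d + 1) : ℝ) : ℂ) +
        qp M ((d : ℂ) + 1) * ((sg M (k + 1) : ℝ) : ℂ) := by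
      rw [← Start_sn_nat, ← Start_sn_nat, ← Start_sn_nat]
      have := Start_add M ((d : ℂ) + 1) ((k : ℂ) + 1)
      push_cast
      rw [← this]
      congr 1
      ring
    have k2 : ((sg M (k + 1 + d + 1) : ℝ) : ℂ) = qp M ((k : ℂ) + 1) * ((sg M (d + 1) : ℝ) : ℂ) +
        qp M (-((d : ℂ) + 1)) * ((sg M (k + 1) : ℝ) : ℂ) := by
      rw [← Start_sn_nat, ← Start_sn_nat, ← Start_sn_nat]
      have := Start_add' M ((d : ℂ) + 1) ((k : ℂ) + 1)
      push_cast
      rw [← this]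
      congr 1
      ring
    rw [e1, e2, e3]
    push_cast
    constructor
    · rw [k1, show ((k : ℂ) + 1 + d - k) = (d : ℂ) + 1 by ring]
      field_simp
    · rw [k2, show ((k : ℂ) - (k + 1 + d)) = -((d : ℂ) + 1) by ring]
      field_simp
  · subst h
    rw [Start_G_self M (k + 1) ha, Start_G_big M (Nat.lt_succ_self k),
      Start_G_self M k (by omega), sub_self, Start_qp_zero]
    norm_num
  · rw [Start_G_big M (by omega : a + 1 < k + 1), Start_G_big M (by omega : a < k + 1),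
      Start_G_big M h]
    norm_num

/-- The `q`-Vandermonde identity. -/
private lemma Start_vdm (M b : ℕ) : ∀ a c R : ℕ, a + b < M → a + 1 ≤ R →
    ∑ j ∈ Finset.range R, qp M (((a : ℂ) + b) * j) * Start_G M a j * Start_G M b (c + j) =
      qp M ((a : ℂ) * (b - c)) * Start_G M (a + b) (a + c) := by
  intro a
  induction a with
  | zero =>
    intro c R hab hR
    obtain ⟨R', rfl⟩ : ∃ R', R = R' + 1 := ⟨R - 1, by omega⟩
    rw [Finset.sum_range_succ']
    have h0 : ∑ k ∈ Finset.range R', qp M ((((0 : ℕ) : ℂ) + b) * ((k + 1 : ℕ) : ℂ)) *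
        Start_G M 0 (k + 1) * Start_G M b (c + (k + 1)) = 0 := by
      refine Finset.sum_eq_zero fun k _ => ?_
      rw [Start_G_big M (Nat.succ_pos k)]
      ring
    rw [h0, Start_G_zero M 0 (by omega)]
    simp [Start_qp_zero]
  | succ a ih =>
    intro c R hab hR
    obtain ⟨R', rfl⟩ : ∃ R', R = R' + 1 := ⟨R - 1, by omega⟩
    have i1 := ih c (R' + 1) (by omega) (by omega)
    have i2 := ih (c + 1) R' (by omega) (by omega)
    have hr := (Start_G_rec M (a + b) (a + c) (by omega)).2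
    rw [Finset.sum_range_succ'] at i1 ⊢
    have hsum : ∑ k ∈ Finset.range R', qp M ((((a + 1 : ℕ) : ℂ) + b) * ((k + 1 : ℕ) : ℂ)) *
        Start_G M (a + 1) (k + 1) * Start_G M b (c + (k + 1)) =
        ∑ k ∈ Finset.range R', qp M (((a : ℂ) + b) * ((k + 1 : ℕ) : ℂ)) *
          Start_G M a (k + 1) * Start_G M b (c + (k + 1)) +
        qp M (2 * a + b + 1) * ∑ k ∈ Finset.range R', qp M (((a : ℂ) + b) * k) *
          Start_G M a k * Start_G M b (c + 1 + k) := by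
      rw [Finset.mul_sum, ← Finset.sum_add_distrib]
      refine Finset.sum_congr rfl fun k _ => ?_
      rw [(Start_G_rec M a k (by omega)).1, show c + 1 + k = c + (k + 1) by ring]
      have f1 : qp M ((((a + 1 : ℕ) : ℂ) + b) * ((k + 1 : ℕ) : ℂ)) * qp M (-((k : ℂ) + 1)) =
          qp M (((a : ℂ) + b) * ((k + 1 : ℕ) : ℂ)) := by
        rw [← Start_qp_add]
        congr 1
        push_cast
        ring
      have f2 : qp M ((((a + 1 : ℕ) : ℂ) + b) * ((k + 1 : ℕ) : ℂ)) * qp M ((a : ℂ) - k) =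
          qp M (2 * a + b + 1) * qp M (((a : ℂ) + b) * k) := by
        rw [← Start_qp_add, ← Start_qp_add]
        congr 1
        push_cast
        ring
      linear_combination (Start_G M a (k + 1) * Start_G M b (c + (k + 1))) * f1 +
        (Start_G M a k * Start_G M b (c + (k + 1))) * f2
    have hz1 : Start_G M (a + 1) 0 = Start_G M a 0 := by
      rw [Start_G_zero M (a + 1) (by omega), Start_G_zero M a (by omega)]
    have hz2 : qp M ((((a + 1 : ℕ) : ℂ) + b) * ((0 : ℕ) : ℂ)) =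
        qp M (((a : ℂ) + b) * ((0 : ℕ) : ℂ)) := by
      push_cast
      rw [mul_zero, mul_zero]
    rw [hsum, i2, hz1, hz2]
    have e1 : a + 1 + b = a + b + 1 := by ring
    have e2 : a + 1 + c = a + c + 1 := by ring
    have e3 : a + (c + 1) = a + c + 1 := by ring
    rw [e1, e2, hr, e3]
    have g1 : qp M (((a + 1 : ℕ) : ℂ) * (b - c)) * qp M (((a + c : ℕ) : ℂ) + 1) =
        qp M (2 * a + b + 1) * qp M ((a : ℂ) * (b - ((c + 1 : ℕ) : ℂ))) := by
      rw [← Start_qp_add, ← Start_qp_add]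
      congr 1
      push_cast
      ring
    have g2 : qp M (((a + 1 : ℕ) : ℂ) * (b - c)) * qp M (((a + c : ℕ) : ℂ) - ((a + b : ℕ) : ℂ)) =
        qp M ((a : ℂ) * (b - c)) := by
      rw [← Start_qp_add]
      congr 1
      push_cast
      ring
    linear_combination i1 - (Start_G M (a + b) (a + c + 1)) * g1 - (Start_G M (a + b) (a + c)) * g2

private lemma Start_prod (M a : ℕ) (ha : a < M) (m : ℕ) (hm : m < M) :
    ∏ i ∈ Finset.range m, sn M ((a : ℂ) - i) = Start_G M a m * ((S M m : ℝ) : ℂ) := by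
  by_cases h : m ≤ a
  · have key : ∀ m : ℕ, m ≤ a →
        (∏ i ∈ Finset.range m, sn M ((a : ℂ) - i)) * ((S M (a - m) : ℝ) : ℂ) =
          ((S M a : ℝ) : ℂ) := by
      intro m
      induction m with
      | zero => intro _; simp
      | succ m ih =>
        intro hm
        rw [Finset.prod_range_succ]
        have e : a - m = a - (m + 1) + 1 := by omega
        have h1 := ih (by omega)
        rw [e, S_succ, ← e] at h1
        have h2 : sn M ((a : ℂ) - m) = ((sg M (a - m) : ℝ) : ℂ) := by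
          rw [← Start_sn_nat, Nat.cast_sub (by omega)]
        rw [h2]
        push_cast at h1 ⊢
        rw [← h1]
        ring
    have h1 := key m h
    have n1 : ((S M (a - m) : ℝ) : ℂ) ≠ 0 := by
      exact_mod_cast (S_pos (by omega : a - m < M)).ne'
    have n2 : ((S M m : ℝ) : ℂ) ≠ 0 := by exact_mod_cast (S_pos hm).ne'
    unfold Start_G
    rw [if_pos h]
    push_cast
    field_simp
    exact h1
  · rw [Start_G_big M (by omega), zero_mul]
    refine Finset.prod_eq_zero (Finset.mem_range.mpr (by omega : a < m)) ?_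
    rw [sub_self, Start_sn_eq, Start_qp_zero]
    norm_num

/-- `q`-Vandermonde. -/
theorem TT_zero (n g M : ℕ) (hg : 1 ≤ g) (hgn : g + 1 ≤ n) (hM : n ≤ M) :
    TT n g M 0 = qp M (((n : ℂ) - g - 1) * (g - 1)) *
      (S M (n - 2) / (S M (n - g - 1) * S M (g - 1)) : ℝ) := by
  obtain ⟨a, ha⟩ : ∃ a, a = n - g - 1 := ⟨_, rfl⟩
  obtain ⟨b, hb⟩ : ∃ b, b = g - 1 := ⟨_, rfl⟩
  have ca : (n : ℂ) - g - 1 = a := by
    have : n = a + g + 1 := by omega
    rw [this]
    push_cast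
    ring
  have cb : (g : ℂ) - 1 = b := by
    have : g = b + 1 := by omega
    rw [this]
    push_cast
    ring
  have cn : (n : ℂ) - 2 = a + b := by rw [← ca, ← cb]; ring
  have h := Start_vdm M b a 0 M (by omega) (by omega)
  unfold TT
  have e : ∀ m ∈ Finset.range M, tt n g M 0 m =
      qp M (((a : ℂ) + b) * m) * Start_G M a m * Start_G M b (0 + m) := by
    intro m hm
    rw [Finset.mem_range] at hm
    unfold tt
    have n2 : ((S M m : ℝ) : ℂ) ≠ 0 := by exact_mod_cast (S_pos hm).ne'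
    rw [Finset.prod_mul_distrib]
    have p1 : ∏ i ∈ Finset.range m, sn M (0 + n - g - 1 - i) =
        Start_G M a m * ((S M m : ℝ) : ℂ) := by
      rw [← Start_prod M a (by omega) m hm]
      refine Finset.prod_congr rfl fun i _ => ?_
      rw [← ca]
      congr 1
      ring
    have p2 : ∏ i ∈ Finset.range m, sn M (0 + g - 1 - i) =
        Start_G M b m * ((S M m : ℝ) : ℂ) := by
      rw [← Start_prod M b (by omega) m hm]
      refine Finset.prod_congr rfl fun i _ => ?_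
      rw [← cb]
      congr 1
      ring
    rw [p1, p2, cn, zero_add]
    field_simp
  rw [Finset.sum_congr rfl e, h, ca, cb]
  have hG : Start_G M (a + b) (a + 0) = ((S M (n - 2) / (S M (n - g - 1) * S M (g - 1)) : ℝ) : ℂ) := by
    unfold Start_G
    rw [if_pos (by omega), show a + b - (a + 0) = b by omega, add_zero,
      show a + b = n - 2 by omega, ← ha, ← hb]
  rw [hG]
  push_cast
  rw [sub_zero]

/-! ### The kernel at `l = 0` and `l = 1` -/

private lemma Start_Pr_zero {n M k : ℕ} (hn : 2 ≤ n) (hM : n + 1 ≤ M) (hk : k < M + 1 - n) :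
    Pr n M k 0 = 0 := by
  unfold Pr
  refine Finset.prod_eq_zero (i := M + 1 - n) (Finset.mem_Ico.mpr ⟨by omega, by omega⟩) ?_
  have e : (((M + 1 - n : ℕ) : ℂ) + 0 + n - 1) = M := by
    rw [Nat.cast_sub (by omega)]
    push_cast
    ring
  rw [e, Start_sn_M (by omega)]
  ring

private lemma Start_Pr_one {n M k : ℕ} (hn : 2 ≤ n) (hM : n + 1 ≤ M) (hk : k < M - n) :
    Pr n M k 1 = 0 := by
  unfold Pr
  refine Finset.prod_eq_zero (i := M - n) (Finset.mem_Ico.mpr ⟨by omega, by omega⟩) ?_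
  have e : (((M - n : ℕ) : ℂ) + 1 + n - 1) = M := by
    rw [Nat.cast_sub (by omega)]
    ring
  rw [e, Start_sn_M (by omega)]
  ring

private lemma Start_sg_shift {M m : ℕ} (hM : M ≠ 0) : sn M ((M : ℂ) + m) = -((sg M m : ℝ) : ℂ) := by
  rw [Start_sn_shift hM, Start_sn_nat]

private lemma Start_Pr_top {n M : ℕ} (hn : 2 ≤ n) (hM : n + 1 ≤ M) :
    Pr n M (M + 1 - n) 0 = ((S M (n - 2) : ℝ) : ℂ) ^ 2 := by
  have h1 : ∀ i ∈ Finset.Ico (M + 1 - n + 1) M, -(sn M ((i : ℂ) - 0) * sn M ((i : ℂ) + 0 + n - 1)) =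
      ((sg M i * sg M (i - (M + 1 - n)) : ℝ) : ℂ) := by
    intro i hi
    rw [Finset.mem_Ico] at hi
    obtain ⟨j, rfl⟩ : ∃ j, i = M + 1 - n + j := ⟨i - (M + 1 - n), by omega⟩
    have e : (((M + 1 - n + j : ℕ) : ℂ) + 0 + n - 1) = (M : ℂ) + j := by
      rw [Nat.cast_add, Nat.cast_sub (by omega)]
      push_cast
      ring
    rw [e, Start_sg_shift (by omega), sub_zero, Start_sn_nat,
      show M + 1 - n + j - (M + 1 - n) = j by omega]
    push_cast
    ring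
  have h2 : ∏ i ∈ Finset.Ico (M + 1 - n + 1) M, sg M i = S M (n - 2) := by
    rw [S_refl (by omega : M + 1 - n < M)]
    congr 1
    omega
  have h3 : ∏ i ∈ Finset.Ico (M + 1 - n + 1) M, sg M (i - (M + 1 - n)) = S M (n - 2) := by
    have h4 := Finset.prod_Ico_add' (fun i => sg M (i - (M + 1 - n))) 1 (n - 1) (M + 1 - n)
    rw [show 1 + (M + 1 - n) = M + 1 - n + 1 by omega,
      show n - 1 + (M + 1 - n) = M by omega] at h4
    rw [← h4]
    unfold S
    rw [show n - 2 + 1 = n - 1 by omega]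
    refine Finset.prod_congr rfl fun i _ => ?_
    rw [show i + (M + 1 - n) - (M + 1 - n) = i by omega]
  unfold Pr
  rw [Finset.prod_congr rfl h1, ← Complex.ofReal_prod, Finset.prod_mul_distrib, h2, h3]
  push_cast
  ring

private lemma Start_Pr_top_one {n M : ℕ} (hn : 2 ≤ n) (hM : n + 1 ≤ M) :
    ((sg M 1 : ℝ) : ℂ) ^ 2 * Pr n M (M + 1 - n) 1 = ((S M (n - 1) : ℝ) : ℂ) ^ 2 := by
  have h1 : ∀ i ∈ Finset.Ico (M + 1 - n + 1) M, -(sn M ((i : ℂ) - 1) * sn M ((i : ℂ) + 1 + n - 1)) =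
      ((sg M (i - 1) * sg M (i + 1 - (M + 1 - n)) : ℝ) : ℂ) := by
    intro i hi
    rw [Finset.mem_Ico] at hi
    obtain ⟨j, rfl⟩ : ∃ j, i = M + 1 - n + j := ⟨i - (M + 1 - n), by omega⟩
    have e : (((M + 1 - n + j : ℕ) : ℂ) + 1 + n - 1) = (M : ℂ) + ((j + 1 : ℕ) : ℂ) := by
      rw [Nat.cast_add, Nat.cast_sub (by omega)]
      push_cast
      ring
    have e2 : (((M + 1 - n + j : ℕ) : ℂ) - 1) = ((M + 1 - n + j - 1 : ℕ) : ℂ) := by
      rw [Nat.cast_sub (by omega : 1 ≤ M + 1 - n + j)]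
      push_cast
      ring
    rw [e, e2, Start_sg_shift (by omega), Start_sn_nat,
      show M + 1 - n + j + 1 - (M + 1 - n) = j + 1 by omega]
    push_cast
    ring
  have h2 : sg M 1 * ∏ i ∈ Finset.Ico (M + 1 - n + 1) M, sg M (i - 1) = S M (n - 1) := by
    have h4 := Finset.prod_Ico_add' (fun i => sg M (i - 1)) (M + 1 - n) (M - 1) 1
    rw [show M - 1 + 1 = M by omega] at h4
    rw [← h4]
    have h5 : ∏ x ∈ Finset.Ico (M + 1 - n) (M - 1), sg M (x + 1 - 1) =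
        ∏ x ∈ Finset.Ico (M + 1 - n) (M - 1), sg M x := by
      refine Finset.prod_congr rfl fun i _ => ?_
      rw [Nat.add_sub_cancel]
    have h6 := S_refl (M := M) (k := M - n) (by omega)
    rw [show M - n + 1 = M + 1 - n by omega, show M - 1 - (M - n) = n - 1 by omega] at h6
    have h7 := Finset.prod_Ico_succ_top (show M + 1 - n ≤ M - 1 by omega) (sg M)
    rw [show M - 1 + 1 = M by omega] at h7
    rw [h5, ← h6, h7, ← sg_symm (by omega : 1 ≤ M) (by omega)]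
    ring
  have h3 : sg M 1 * ∏ i ∈ Finset.Ico (M + 1 - n + 1) M, sg M (i + 1 - (M + 1 - n)) =
      S M (n - 1) := by
    have h4 := Finset.prod_Ico_add' (fun i => sg M (i + 1 - (M + 1 - n))) 1 (n - 1) (M + 1 - n)
    rw [show 1 + (M + 1 - n) = M + 1 - n + 1 by omega,
      show n - 1 + (M + 1 - n) = M by omega] at h4
    rw [← h4]
    have h5 : ∏ x ∈ Finset.Ico 1 (n - 1), sg M (x + (M + 1 - n) + 1 - (M + 1 - n)) =
        ∏ x ∈ Finset.Ico 1 (n - 1), sg M (x + 1) := by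
      refine Finset.prod_congr rfl fun i _ => ?_
      rw [show i + (M + 1 - n) + 1 - (M + 1 - n) = i + 1 by omega]
    have h6 := Finset.prod_Ico_add' (sg M) 1 (n - 1) 1
    rw [h5, h6]
    unfold S
    rw [show n - 1 + 1 = n by omega, Finset.prod_eq_prod_Ico_succ_bot (by omega : 1 < n)]
  unfold Pr
  rw [Finset.prod_congr rfl h1, ← Complex.ofReal_prod, Finset.prod_mul_distrib]
  have h8 : sg M 1 ^ 2 * ((∏ i ∈ Finset.Ico (M + 1 - n + 1) M, sg M (i - 1)) *
      ∏ i ∈ Finset.Ico (M + 1 - n + 1) M, sg M (i + 1 - (M + 1 - n))) = S M (n - 1) ^ 2 := by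
    linear_combination (sg M 1 * ∏ i ∈ Finset.Ico (M + 1 - n + 1) M, sg M (i + 1 - (M + 1 - n))) *
      h2 + S M (n - 1) * h3
  exact_mod_cast h8

private lemma Start_Pr_pred {n M : ℕ} (hn : 2 ≤ n) (hM : n + 1 ≤ M) :
    Pr n M (M - n) 1 = ((sg M n : ℝ) : ℂ) * ((sg M 1 : ℝ) : ℂ) * Pr n M (M + 1 - n) 1 := by
  unfold Pr
  rw [show M - n + 1 = M + 1 - n by omega,
    Finset.prod_eq_prod_Ico_succ_bot (by omega : M + 1 - n < M)]
  congr 1
  have e : (((M + 1 - n : ℕ) : ℂ) + 1 + n - 1) = (M : ℂ) + ((1 : ℕ) : ℂ) := by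
    rw [Nat.cast_sub (by omega)]
    push_cast
    ring
  have e2 : (((M + 1 - n : ℕ) : ℂ) - 1) = (M : ℂ) - n := by
    rw [Nat.cast_sub (by omega)]
    push_cast
    ring
  rw [e, e2, Start_sg_shift (by omega), Start_sn_refl (by omega), Start_sn_nat]
  ring

private lemma Start_BC_top {n g M : ℕ} (hg : 1 ≤ g) (hgn : g + 1 ≤ n) (hM : n + 1 ≤ M) :
    BC n g M (M + 1 - n) * (((S M (n - g - 1) : ℝ) : ℂ) * ((S M (g - 1) : ℝ) : ℂ)) =
      (M : ℂ) ^ 3 := by
  have h1 := S_mul (M := M) (k := n - g - 1) (by omega)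
  have h2 := S_mul (M := M) (k := g - 1) (by omega)
  have h3 := S_full M (by omega)
  unfold BC
  rw [show M + 1 - n + g - 1 = M - 1 - (n - g - 1) by omega,
    show M + 1 - n + n - g - 1 = M - 1 - (g - 1) by omega,
    show M + 1 - n + n - 2 = M - 1 by omega, h3]
  have h4 : S M (M - 1 - (n - g - 1)) * S M (M - 1 - (g - 1)) * M *
      (S M (n - g - 1) * S M (g - 1)) = (M : ℝ) ^ 3 := by
    linear_combination (S M (g - 1) * S M (M - 1 - (g - 1)) * M) * h1 + (M : ℝ) ^ 2 * h2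
  exact_mod_cast h4

private lemma Start_BC_pred {n g M : ℕ} (hg : 1 ≤ g) (hgn : g + 1 ≤ n) (hM : n + 1 ≤ M) :
    BC n g M (M - n) * (((sg M (n - g) : ℝ) : ℂ) * ((sg M g : ℝ) : ℂ) * ((sg M 1 : ℝ) : ℂ)) =
      BC n g M (M + 1 - n) := by
  have h1 := S_succ M (M - n + g - 1)
  have h2 := S_succ M (M - n + n - g - 1)
  have h3 := S_succ M (M - n + n - 2)
  have s1 := sg_symm (M := M) (m := n - g) (by omega) (by omega)
  have s2 := sg_symm (M := M) (m := g) (by omega) (by omega)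
  have s3 := sg_symm (M := M) (m := 1) (by omega) (by omega)
  rw [show M - n + g - 1 + 1 = M - (n - g) by omega, s1] at h1
  rw [show M - n + n - g - 1 + 1 = M - g by omega, s2] at h2
  rw [show M - n + n - 2 + 1 = M - 1 by omega, s3] at h3
  unfold BC
  rw [show M + 1 - n + g - 1 = M - (n - g) by omega,
    show M + 1 - n + n - g - 1 = M - g by omega,
    show M + 1 - n + n - 2 = M - 1 by omega, h1, h2, h3]
  push_cast
  ring

private lemma Start_Th {n M : ℕ} (hM : n + 1 ≤ M) :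
    (starRingEnd ℂ) (Th n M (M - n)) = I * (starRingEnd ℂ) (Th n M (M + 1 - n)) := by
  have h : Th n M (M + 1 - n) = I * Th n M (M - n) := by
    have hM' : (M : ℂ) ≠ 0 := by
      have : M ≠ 0 := by omega
      exact_mod_cast this
    unfold Th
    rw [show M + 1 - n = M - n + 1 by omega, ← add_assoc,
      show n + (M - n) + 1 + M = n + (M - n) + M + 1 by ring, pow_succ (-1 : ℂ), pow_succ I]
    have e : Complex.exp (-(Real.pi * I / M) * (((M - n + 1 : ℕ) : ℂ) * (n - 1) +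
        ((M - n + 1 : ℕ) : ℂ) * (((M - n + 1 : ℕ) : ℂ) + 1) / 2)) =
        Complex.exp (-(Real.pi * I / M) * (((M - n : ℕ) : ℂ) * (n - 1) +
        ((M - n : ℕ) : ℂ) * (((M - n : ℕ) : ℂ) + 1) / 2)) * -1 := by
      have e1 : -(Real.pi * I / M) * (((M - n + 1 : ℕ) : ℂ) * (n - 1) +
          ((M - n + 1 : ℕ) : ℂ) * (((M - n + 1 : ℕ) : ℂ) + 1) / 2) =
          -(Real.pi * I / M) * (((M - n : ℕ) : ℂ) * (n - 1) +
          ((M - n : ℕ) : ℂ) * (((M - n : ℕ) : ℂ) + 1) / 2) + -(Real.pi * I) := by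
        have e2 : ((M - n : ℕ) : ℂ) = (M : ℂ) - n := by rw [Nat.cast_sub (by omega)]
        push_cast
        rw [e2]
        field_simp
        ring
      rw [e1, Complex.exp_add, Complex.exp_neg, Complex.exp_pi_mul_I]
      norm_num
    rw [e]
    ring
  rw [h, map_mul, Complex.conj_I, ← mul_assoc, mul_neg, Complex.I_mul_I]
  ring

theorem PP_zero (n g M : ℕ) (hg : 1 ≤ g) (hgn : g + 1 ≤ n) (hM : n + 1 ≤ M) :
    PP n g M 0 = (M : ℂ) ^ 3 * (starRingEnd ℂ) (Th n M (M + 1 - n)) *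
      (S M (n - 2) ^ 2 / (S M (n - g - 1) * S M (g - 1)) : ℝ) := by
  have n1 : ((S M (n - g - 1) : ℝ) : ℂ) ≠ 0 := by
    exact_mod_cast (S_pos (by omega : n - g - 1 < M)).ne'
  have n2 : ((S M (g - 1) : ℝ) : ℂ) ≠ 0 := by
    exact_mod_cast (S_pos (by omega : g - 1 < M)).ne'
  unfold PP
  rw [show M + 2 - n = M + 1 - n + 1 by omega, Finset.sum_range_succ]
  have h0 : ∑ k ∈ Finset.range (M + 1 - n), BC n g M k * (starRingEnd ℂ) (Th n M k) *
      Pr n M k 0 = 0 := by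
    refine Finset.sum_eq_zero fun k hk => ?_
    rw [Finset.mem_range] at hk
    rw [Start_Pr_zero (by omega) hM hk, mul_zero]
  rw [h0, zero_add, Start_Pr_top (by omega) hM, ← Start_BC_top hg hgn hM]
  push_cast
  field_simp

/-- The value at `l = 1`. -/
private lemma Start_PP_one {n g M : ℕ} (hg : 1 ≤ g) (hgn : g + 1 ≤ n) (hM : n + 1 ≤ M) :
    ((sg M 1 : ℝ) : ℂ) ^ 2 * (((sg M (n - g) : ℝ) : ℂ) * ((sg M g : ℝ) : ℂ)) * PP n g M 1 =
      BC n g M (M + 1 - n) * (starRingEnd ℂ) (Th n M (M + 1 - n)) *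
        ((S M (n - 1) : ℝ) : ℂ) ^ 2 *
        (((sg M (n - g) : ℝ) : ℂ) * ((sg M g : ℝ) : ℂ) + I * ((sg M n : ℝ) : ℂ)) := by
  unfold PP
  rw [show M + 2 - n = M - n + 1 + 1 by omega, Finset.sum_range_succ, Finset.sum_range_succ]
  have h0 : ∑ k ∈ Finset.range (M - n), BC n g M k * (starRingEnd ℂ) (Th n M k) *
      Pr n M k 1 = 0 := by
    refine Finset.sum_eq_zero fun k hk => ?_
    rw [Finset.mem_range] at hk
    rw [Start_Pr_one (by omega) hM hk, mul_zero]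
  have hP := Start_Pr_top_one (by omega : 2 ≤ n) hM
  have hB := Start_BC_pred hg hgn hM
  rw [h0, zero_add, Start_Pr_pred (by omega) hM, Start_Th hM,
    show M - n + 1 = M + 1 - n by omega]
  have e1 : ((sg M 1 : ℝ) : ℂ) ^ 2 * (((sg M (n - g) : ℝ) : ℂ) * ((sg M g : ℝ) : ℂ)) *
      (BC n g M (M - n) * (I * (starRingEnd ℂ) (Th n M (M + 1 - n))) *
        (((sg M n : ℝ) : ℂ) * ((sg M 1 : ℝ) : ℂ) * Pr n M (M + 1 - n) 1) +
      BC n g M (M + 1 - n) * (starRingEnd ℂ) (Th n M (M + 1 - n)) * Pr n M (M + 1 - n) 1) =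
      (((sg M 1 : ℝ) : ℂ) ^ 2 * Pr n M (M + 1 - n) 1) * (starRingEnd ℂ) (Th n M (M + 1 - n)) *
      ((BC n g M (M - n) * (((sg M (n - g) : ℝ) : ℂ) * ((sg M g : ℝ) : ℂ) *
        ((sg M 1 : ℝ) : ℂ))) * I * ((sg M n : ℝ) : ℂ) +
      BC n g M (M + 1 - n) * (((sg M (n - g) : ℝ) : ℂ) * ((sg M g : ℝ) : ℂ))) := by
    ring
  rw [e1, hP, hB]
  ring

private lemma Start_core {X N G : ℂ} (hX : X ≠ 0) (hN : N ≠ 0) (hG : G ≠ 0) :
    (-(G ^ 2 * N⁻¹) - N * (G ^ 2)⁻¹ - N * (X ^ 2)⁻¹ + X ^ 2 * N⁻¹ + N) *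
        ((N * (X ^ 2)⁻¹ - N⁻¹ * X ^ 2) * (N * X⁻¹ - N⁻¹ * X) * (N - N⁻¹)) -
      N ^ 2 * (X ^ 2)⁻¹ * ((N * G⁻¹ - N⁻¹ * G) * (G - G⁻¹) * (X - X⁻¹) *
        (N * (X ^ 2)⁻¹ - N⁻¹ * X ^ 2)) +
      X * N⁻¹ * ((G * X⁻¹ - G⁻¹ * X) * (N * G⁻¹ * X⁻¹ - N⁻¹ * G * X) *
        (N * (X ^ 2)⁻¹ - N⁻¹ * X ^ 2) * (N - N⁻¹)) =
    N * (X ^ 2)⁻¹ * ((N * (X ^ 2)⁻¹ - N⁻¹ * X ^ 2) * (N * X⁻¹ - N⁻¹ * X) *
      ((N * G⁻¹ - N⁻¹ * G) * (G - G⁻¹) - (N - N⁻¹))) := by
  field_simp
  ring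

private lemma Start_A0 (n g M : ℕ) :
    A0 n g M 0 = I * qp M (n - 2) * (sn M (n - 2) * sn M (n - 1)) *
      (sn M (n - g) * sn M g + I * sn M n) := by
  obtain ⟨X, hX⟩ : ∃ X, X = qp M 1 := ⟨_, rfl⟩
  obtain ⟨N, hN⟩ : ∃ N, N = qp M n := ⟨_, rfl⟩
  obtain ⟨G, hG⟩ : ∃ G, G = qp M g := ⟨_, rfl⟩
  have X0 : X ≠ 0 := by rw [hX]; exact Start_qp_ne _ _
  have N0 : N ≠ 0 := by rw [hN]; exact Start_qp_ne _ _
  have G0 : G ≠ 0 := by rw [hG]; exact Start_qp_ne _ _
  have q2 : qp M 2 = X ^ 2 := by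
    rw [hX, ← Start_qp_nat]
    norm_num
  have q2n : qp M (2 * n) = N ^ 2 := by
    rw [hN, ← Start_qp_nat]
    norm_num
  have q2g : qp M (2 * g) = G ^ 2 := by
    rw [hG, ← Start_qp_nat]
    norm_num
  have s1 : sn M (n - 2) = -I * (N * (X ^ 2)⁻¹ - N⁻¹ * X ^ 2) := by
    rw [Start_sn_eq, Start_qp_sub, q2, ← hN, mul_inv, inv_inv]
  have s2 : sn M (n - 1) = -I * (N * X⁻¹ - N⁻¹ * X) := by
    rw [Start_sn_eq, Start_qp_sub, ← hX, ← hN, mul_inv, inv_inv]
  have s3 : sn M n = -I * (N - N⁻¹) := by rw [Start_sn_eq, ← hN]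
  have s4 : sn M (n - g) = -I * (N * G⁻¹ - N⁻¹ * G) := by
    rw [Start_sn_eq, Start_qp_sub, ← hG, ← hN, mul_inv, inv_inv]
  have s5 : sn M g = -I * (G - G⁻¹) := by rw [Start_sn_eq, ← hG]
  have s6 : sn M 1 = -I * (X - X⁻¹) := by rw [Start_sn_eq, ← hX]
  have s7 : sn M (g - 1) = -I * (G * X⁻¹ - G⁻¹ * X) := by
    rw [Start_sn_eq, Start_qp_sub, ← hG, ← hX, mul_inv, inv_inv]
  have s8 : sn M (n - g - 1) = -I * (N * G⁻¹ * X⁻¹ - N⁻¹ * G * X) := by
    rw [Start_sn_eq, Start_qp_sub, Start_qp_sub, ← hG, ← hX, ← hN, mul_inv, inv_inv, mul_inv,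
      inv_inv]
  have c1 : qp M (2 * g - n) = G ^ 2 * N⁻¹ := by rw [Start_qp_sub, q2g, ← hN]
  have c2 : qp M (n - 2 * g) = N * (G ^ 2)⁻¹ := by rw [Start_qp_sub, q2g, ← hN]
  have c3 : qp M (n - 2) = N * (X ^ 2)⁻¹ := by rw [Start_qp_sub, q2, ← hN]
  have c4 : qp M (2 - n) = X ^ 2 * N⁻¹ := by rw [Start_qp_sub, q2, ← hN]
  have c5 : qp M (2 * n - 2) = N ^ 2 * (X ^ 2)⁻¹ := by rw [Start_qp_sub, q2, q2n]
  have c6 : qp M (1 - n) = X * N⁻¹ := by rw [Start_qp_sub, ← hX, ← hN]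
  have t3 : ∀ a b c : ℂ, (-I * a) * (-I * b) * (-I * c) = I * (a * b * c) := by
    intro a b c
    linear_combination (-(I * a * b * c)) * Complex.I_sq
  have t4 : ∀ a b c d : ℂ, (-I * a) * (-I * b) * (-I * c) * (-I * d) = a * b * c * d := by
    intro a b c d
    linear_combination ((I ^ 2 - 1) * a * b * c * d) * Complex.I_sq
  have t5 : ∀ c a b u v w : ℂ, I * c * ((-I * a) * (-I * b)) * ((-I * u) * (-I * v) +
      I * (-I * w)) = I * (c * (a * b * (u * v - w))) := by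
    intro c a b u v w
    linear_combination (I * c * a * b * (u * v - w) * (I ^ 2 - 1)) * Complex.I_sq
  unfold A0
  simp only [mul_zero, zero_add, sub_zero]
  rw [c1, c2, c3, c4, c5, c6, ← hN, s1, s2, s3, s4, s5, s6, s7, s8, t3, t4, t4, t5]
  have hc := Start_core X0 N0 G0
  linear_combination I * hc

/-- The trigonometric identity behind `PP_one`. -/
private lemma Start_ident (n g M : ℕ) :
    Ap n g M 0 * sn M (n - 1) * (sn M (n - g) * sn M g + I * sn M n) +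
      A0 n g M 0 * (sn M 1 * (sn M (n - g) * sn M g)) = 0 := by
  rw [Start_A0]
  unfold Ap
  simp only [mul_zero, zero_add]
  ring

/-- The recurrence at `l = 0` (both sides are zero for `n = 2`). -/
theorem PP_one (n g M : ℕ) (hg : 1 ≤ g) (hgn : g + 1 ≤ n) (hM : n + 2 ≤ M) :
    Ap n g M 0 * sn M 1 * PP n g M 1 + A0 n g M 0 * sn M (n - 1) * PP n g M 0 = 0 := by
  have h1 := Start_PP_one hg hgn (by omega : n + 1 ≤ M)
  have h0 : PP n g M 0 = BC n g M (M + 1 - n) * (starRingEnd ℂ) (Th n M (M + 1 - n)) *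
      ((S M (n - 2) : ℝ) : ℂ) ^ 2 := by
    have n1 : ((S M (n - g - 1) : ℝ) : ℂ) ≠ 0 := by
      exact_mod_cast (S_pos (by omega : n - g - 1 < M)).ne'
    have n2 : ((S M (g - 1) : ℝ) : ℂ) ≠ 0 := by
      exact_mod_cast (S_pos (by omega : g - 1 < M)).ne'
    rw [PP_zero n g M hg hgn (by omega), ← Start_BC_top hg hgn (by omega)]
    push_cast
    field_simp
  have hid := Start_ident n g M
  have e1 : sn M (n - 1) = ((sg M (n - 1) : ℝ) : ℂ) := by
    rw [← Start_sn_nat, Nat.cast_sub (by omega)]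
    push_cast
    rfl
  have e2 : sn M (n - g) = ((sg M (n - g) : ℝ) : ℂ) := by
    rw [← Start_sn_nat, Nat.cast_sub (by omega)]
  have e3 : sn M g = ((sg M g : ℝ) : ℂ) := Start_sn_nat M g
  have e4 : sn M n = ((sg M n : ℝ) : ℂ) := Start_sn_nat M n
  have e5 : sn M 1 = ((sg M 1 : ℝ) : ℂ) := by
    rw [← Start_sn_nat]
    norm_num
  have hS : ((S M (n - 1) : ℝ) : ℂ) = ((S M (n - 2) : ℝ) : ℂ) * ((sg M (n - 1) : ℝ) : ℂ) := by
    have := S_succ M (n - 2)
    rw [show n - 2 + 1 = n - 1 by omega] at this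
    rw [this]
    push_cast
    ring
  have z1 : ((sg M 1 : ℝ) : ℂ) ≠ 0 := by
    exact_mod_cast (sg_pos (by omega : 1 ≤ 1) (by omega : 1 < M)).ne'
  have z2 : ((sg M (n - g) : ℝ) : ℂ) ≠ 0 := by
    exact_mod_cast (sg_pos (by omega : 1 ≤ n - g) (by omega : n - g < M)).ne'
  have z3 : ((sg M g : ℝ) : ℂ) ≠ 0 := by
    exact_mod_cast (sg_pos (by omega : 1 ≤ g) (by omega : g < M)).ne'
  rw [e1, e2, e3, e4, e5] at hid
  rw [h0, e1, e5]
  rw [hS] at h1
  have hz : ((sg M 1 : ℝ) : ℂ) * (((sg M (n - g) : ℝ) : ℂ) * ((sg M g : ℝ) : ℂ)) ≠ 0 :=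
    mul_ne_zero z1 (mul_ne_zero z2 z3)
  refine (mul_eq_zero.mp ?_).resolve_left hz
  linear_combination (Ap n g M 0) * h1 + (BC n g M (M + 1 - n) *
    (starRingEnd ℂ) (Th n M (M + 1 - n)) * ((S M (n - 2) : ℝ) : ℂ) ^ 2 *
    ((sg M (n - 1) : ℝ) : ℂ)) * hid

/-- The case `n = 2`. -/
theorem PP_one_two (M : ℕ) (hM : 3 ≤ M) :
    PP 2 1 M 1 * sn M 1 = 2 * I * qp M (-1) * PP 2 1 M 0 := by
  have h1 := Start_PP_one (n := 2) (g := 1) (M := M) le_rfl le_rfl (by omega)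
  have h0 : PP 2 1 M 0 = BC 2 1 M (M + 1 - 2) * (starRingEnd ℂ) (Th 2 M (M + 1 - 2)) := by
    rw [PP_zero 2 1 M le_rfl le_rfl (by omega), ← Start_BC_top (n := 2) (g := 1) le_rfl le_rfl
      (by omega)]
    simp [S_zero]
  rw [h0]
  have e5 : sn M 1 = ((sg M 1 : ℝ) : ℂ) := by
    rw [← Start_sn_nat]
    norm_num
  have e6 : sn M 2 = ((sg M 2 : ℝ) : ℂ) := by
    rw [← Start_sn_nat]
    norm_num
  have z1 : ((sg M 1 : ℝ) : ℂ) ≠ 0 := by
    exact_mod_cast (sg_pos (by omega : 1 ≤ 1) (by omega : 1 < M)).ne'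
  have hS : S M (2 - 1) = sg M 1 := by
    have := S_succ M 0
    rw [S_zero, one_mul] at this
    exact this
  have hid : ((sg M 1 : ℝ) : ℂ) ^ 2 + I * ((sg M 2 : ℝ) : ℂ) =
      2 * I * qp M (-1) * ((sg M 1 : ℝ) : ℂ) := by
    rw [← e5, ← e6, Start_sn_eq, Start_sn_eq, Start_qp_neg]
    have q2 : qp M 2 = qp M 1 ^ 2 := by
      rw [← Start_qp_nat]
      norm_num
    rw [q2]
    have hx := Start_qp_ne M 1
    set X := qp M 1 with hX
    have hc : -(X - X⁻¹) ^ 2 + (X ^ 2 - (X ^ 2)⁻¹) = 2 * X⁻¹ * (X - X⁻¹) := by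
      field_simp
      ring
    linear_combination hc + ((X - X⁻¹) ^ 2 - (X ^ 2 - (X ^ 2)⁻¹) + 2 * X⁻¹ * (X - X⁻¹)) *
      Complex.I_sq
  rw [hS, show (2 - 1 : ℕ) = 1 from rfl] at h1
  rw [e5]
  have hz : ((sg M 1 : ℝ) : ℂ) ^ 3 ≠ 0 := pow_ne_zero 3 z1
  refine mul_left_cancel₀ hz ?_
  have h2 : ((sg M 1 : ℝ) : ℂ) ^ 3 * (PP 2 1 M 1 * ((sg M 1 : ℝ) : ℂ)) =
      ((sg M 1 : ℝ) : ℂ) ^ 2 * (((sg M 1 : ℝ) : ℂ) * ((sg M 1 : ℝ) : ℂ)) * PP 2 1 M 1 := by
    ring
  rw [h2, h1]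
  linear_combination (BC 2 1 M (M + 1 - 2) * (starRingEnd ℂ) (Th 2 M (M + 1 - 2)) *
    ((sg M 1 : ℝ) : ℂ) ^ 2) * hid

end Pool.Agent.H63.TW
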