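import Pool.Agent.H63.TW.JetX
import Pool.Agent.H63.TW.Start

/-! # The dual formula for the values -/

namespace Pool.Agent.H63.TW

open Pool.Agent.H63.VC Pool.Agent.H63.VC3 Complex
open scoped BigOperators

private lemma JetV_sn_nat (M k : ℕ) : sn M (k : ℂ) = ((sg M k : ℝ) : ℂ) := by
  unfold sn sg
  push_cast
  rfl

private lemma JetV_sn_ne (M k : ℕ) (h1 : 1 ≤ k) (h2 : k < M) : sn M (k : ℂ) ≠ 0 := by
  rw [JetV_sn_nat]
  exact_mod_cast (sg_pos h1 h2).ne'

private lemma JetV_sn_zero (M : ℕ) : sn M 0 = 0 := by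
  simp [sn]

private lemma JetV_qp_add (M : ℕ) (x y : ℂ) : qp M (x + y) = qp M x * qp M y := by
  unfold qp
  rw [← exp_add]
  congr 1
  ring

private lemma JetV_qp_zero (M : ℕ) : qp M 0 = 1 := by
  simp [qp]

private lemma JetV_BN0 (M k : ℕ) :
    ∏ i ∈ Finset.range k, sn M (0 + i + 1) = ((S M k : ℝ) : ℂ) := by
  induction k with
  | zero => simp [S]
  | succ k ih =>
    rw [Finset.prod_range_succ, ih, S_succ]
    have h := JetV_sn_nat M (k + 1)
    push_cast at h ⊢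
    rw [zero_add, h]

private lemma JetV_BN1 (M k : ℕ) :
    (∏ i ∈ Finset.range k, sn M (1 + i + 1)) * sn M 1 =
      (∏ i ∈ Finset.range k, sn M (0 + i + 1)) * sn M (k + 1) := by
  induction k with
  | zero => simp
  | succ k ih =>
    rw [Finset.prod_range_succ, Finset.prod_range_succ]
    have e : sn M (1 + (k : ℂ) + 1) = sn M (((k + 1 : ℕ) : ℂ) + 1) := by
      congr 1
      push_cast
      ring
    have e2 : sn M (0 + (k : ℂ) + 1) = sn M ((k : ℂ) + 1) := by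
      rw [zero_add]
    rw [e, e2]
    linear_combination sn M (((k + 1 : ℕ) : ℂ) + 1) * ih

private lemma JetV_gph0 (n M : ℕ) : gph n M 0 = 1 := by
  simp [gph, qp]

private lemma JetV_gph1 (n M : ℕ) (hM : 1 ≤ M) : gph n M 1 = I * qp M (1 - n) := by
  have hMc : (M : ℂ) ≠ 0 := by exact_mod_cast (by omega : M ≠ 0)
  have h1 : qp M ((M : ℂ) / 2) = I := by
    unfold qp
    have e : (Real.pi : ℂ) * I * ((M : ℂ) / 2) / M = Real.pi / 2 * I := by
      field_simp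
    rw [e, exp_mul_I, cos_pi_div_two, sin_pi_div_two]
    simp
  unfold gph
  have e : (-(1 : ℂ) ^ 2 / 2 + ((M + 3) / 2 - n) * 1) = (M : ℂ) / 2 + (1 - n) := by ring
  rw [e, JetV_qp_add, h1]

private lemma JetV_exp0 (M : ℕ) (hM : 1 ≤ M) : exp (-LL M 0) = 1 := by
  have h := LL_nat M 0 (by omega)
  rw [Complex.exp_neg]
  have e : ((0 : ℕ) : ℂ) = 0 := by simp
  rw [e] at h
  rw [h]
  simp [S]

private lemma JetV_exp1 (M : ℕ) (hM : 2 ≤ M) : exp (-LL M 1) * sn M 1 = 1 := by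
  have h := LL_nat M 1 (by omega)
  rw [Complex.exp_neg]
  have e : ((1 : ℕ) : ℂ) = 1 := by simp
  rw [e] at h
  have h2 := JetV_sn_nat M 1
  have h3 := JetV_sn_ne M 1 le_rfl (by omega)
  rw [e] at h2 h3
  have h4 : ((S M 1 : ℝ) : ℂ) = sn M 1 := by
    rw [h2]
    simp [S]
  rw [h, h4]
  exact inv_mul_cancel₀ h3

private lemma JetV_tt_last (n g M l : ℕ) (hg : 1 ≤ g) (hgn : g + 1 ≤ n) (hM : 2 ≤ M)
    (hl : l + n ≤ M) : tt n g M l (M - 1) = 0 := by
  have h := tt_last n g M hg hgn hM l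
  have hs : sin (Real.pi * (l : ℂ)) = 0 := by
    rw [mul_comm]
    exact_mod_cast Complex.sin_nat_mul_pi l
  have h1 : sn M ((l : ℂ) + n - g) ≠ 0 := by
    have := JetV_sn_ne M (l + n - g) (by omega) (by omega)
    rw [Nat.cast_sub (by omega)] at this
    push_cast at this
    exact this
  have h2 : sn M ((l : ℂ) + g) ≠ 0 := by
    have := JetV_sn_ne M (l + g) (by omega) (by omega)
    push_cast at this
    exact this
  rw [hs] at h
  have h3 : tt n g M l (M - 1) * (sn M ((l : ℂ) + n - g) * sn M ((l : ℂ) + g)) = 0 := by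
    rw [h]
    simp
  rcases mul_eq_zero.1 h3 with h4 | h4
  · exact h4
  · exact absurd h4 (mul_ne_zero h1 h2)

private lemma JetV_EG (n g M l : ℕ) (h1 : 1 ≤ l) (h2 : l < M) : EG n g M l = 0 := by
  have h : Pr n M 0 (l : ℂ) = 0 := by
    unfold Pr
    apply Finset.prod_eq_zero (i := l)
    · simp only [Finset.mem_Ico]
      omega
    · rw [sub_self, JetV_sn_zero]
      simp
  unfold EG
  rw [h]
  simp

private lemma JetV_EX (n g M l : ℕ) (hg : 1 ≤ g) (hgn : g + 1 ≤ n) (hM : 2 ≤ M)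
    (hl : l + n ≤ M) : EX n g M l = 0 := by
  unfold EX
  rw [JetV_tt_last n g M l hg hgn hM hl]
  simp

private lemma JetV_zero (n g M : ℕ) (hg : 1 ≤ g) (hgn : g + 1 ≤ n) (hM : 2 * n + 2 ≤ M) :
    Gm n g M 0 = C0 n g M * Xx n g M 0 := by
  unfold Gm Xx C0
  rw [PP_zero n g M hg hgn (by omega), TT_zero n g M hg hgn (by omega), JetV_gph0,
    JetV_exp0 M (by omega)]
  unfold BN
  rw [JetV_BN0]
  have hS : ((S M (n - 2) : ℝ) : ℂ) ≠ 0 := by
    exact_mod_cast (S_pos (by omega)).ne'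
  have hq : qp M (-(((n : ℂ) - g - 1) * (g - 1))) * qp M (((n : ℂ) - g - 1) * (g - 1)) = 1 := by
    rw [← JetV_qp_add, neg_add_cancel, JetV_qp_zero]
  have e : (M : ℂ) ^ 3 * (starRingEnd ℂ) (Th n M (M + 1 - n)) *
      qp M (-(((n : ℂ) - g - 1) * (g - 1))) *
      (1 * 1 * (qp M (((n : ℂ) - g - 1) * (g - 1)) *
        ((S M (n - 2) / (S M (n - g - 1) * S M (g - 1)) : ℝ) : ℂ))) =
      (M : ℂ) ^ 3 * (starRingEnd ℂ) (Th n M (M + 1 - n)) *
        ((S M (n - 2) / (S M (n - g - 1) * S M (g - 1)) : ℝ) : ℂ) := by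
    linear_combination ((M : ℂ) ^ 3 * (starRingEnd ℂ) (Th n M (M + 1 - n)) *
        ((S M (n - 2) / (S M (n - g - 1) * S M (g - 1)) : ℝ) : ℂ)) * hq
  rw [e, div_eq_iff hS]
  push_cast
  ring

private lemma JetV_one_ge (n g M : ℕ) (hg : 1 ≤ g) (hgn : g + 1 ≤ n) (hM : 2 * n + 2 ≤ M)
    (hn : 3 ≤ n) : Gm n g M 1 = C0 n g M * Xx n g M 1 := by
  have h0 := JetV_zero n g M hg hgn hM
  have hAp : Ap n g M 0 ≠ 0 := by
    have := Ap_ne n g M 0 hg hgn (by omega) (by omega) (by omega)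
    rwa [Nat.cast_zero] at this
  have hs1 : sn M 1 ≠ 0 := by
    have := JetV_sn_ne M 1 le_rfl (by omega)
    rwa [Nat.cast_one] at this
  have hsn : sn M ((n : ℂ) - 1) ≠ 0 := by
    have := JetV_sn_ne M (n - 1) (by omega) (by omega)
    rw [Nat.cast_sub (by omega), Nat.cast_one] at this
    exact this
  -- the recurrence of `Gm` at zero
  have hB0 : BN n M 0 = ((S M (n - 2) : ℝ) : ℂ) := by
    unfold BN
    exact JetV_BN0 M (n - 2)
  have hB0n : BN n M 0 ≠ 0 := by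
    rw [hB0]
    exact_mod_cast (S_pos (by omega)).ne'
  have hB1 : BN n M 1 * sn M 1 = BN n M 0 * sn M ((n : ℂ) - 1) := by
    have h := JetV_BN1 M (n - 2)
    rw [Nat.cast_sub (by omega)] at h
    have e : ((n : ℂ) - ((2 : ℕ) : ℂ) + 1) = (n : ℂ) - 1 := by
      push_cast
      ring
    rw [e] at h
    exact h
  have hB1n : BN n M 1 ≠ 0 := by
    intro hz
    rw [hz, zero_mul] at hB1
    exact mul_ne_zero hB0n hsn hB1.symm
  have hG : Ap n g M 0 * Gm n g M 1 + A0 n g M 0 * Gm n g M 0 = 0 := by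
    have h := PP_one n g M hg hgn (by omega)
    have e1 : PP n g M 1 = Gm n g M 1 * BN n M 1 := by
      unfold Gm
      rw [div_mul_cancel₀ _ hB1n]
    have e0 : PP n g M 0 = Gm n g M 0 * BN n M 0 := by
      unfold Gm
      rw [div_mul_cancel₀ _ hB0n]
    rw [e1, e0] at h
    have h3 : (Ap n g M 0 * Gm n g M 1 + A0 n g M 0 * Gm n g M 0) *
        (BN n M 0 * sn M ((n : ℂ) - 1)) = 0 := by
      linear_combination h - Ap n g M 0 * Gm n g M 1 * hB1
    rcases mul_eq_zero.1 h3 with h4 | h4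
    · exact h4
    · exact absurd h4 (mul_ne_zero hB0n hsn)
  -- the recurrence of `Xx` at zero
  have hX : Ap n g M 0 * Xx n g M 1 + A0 n g M 0 * Xx n g M 0 = 0 := by
    have h := rec_T n g M hg hgn (by omega) 0
    have ht := JetV_tt_last n g M 0 hg hgn (by omega) (by omega)
    rw [Nat.cast_zero] at ht
    rw [ht, JetV_sn_zero] at h
    simp only [zero_add, mul_zero, zero_mul, add_zero] at h
    have hL := JetV_exp1 M (by omega)
    unfold Xx
    rw [JetV_gph0, JetV_gph1 n M (by omega), JetV_exp0 M (by omega)]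
    unfold Ap
    simp only [zero_add, mul_zero]
    have hq : qp M ((n : ℂ) - 2) * qp M (1 - n) = qp M (-1) := by
      rw [← JetV_qp_add]
      congr 1
      ring
    have hI : I * I = -1 := I_mul_I
    linear_combination h + qp M ((n : ℂ) - 2) * qp M (1 - n) *
      (sn M ((n : ℂ) - g) * sn M g * sn M ((n : ℂ) - 2)) * TT n g M 1 * hL
      - qp M ((n : ℂ) - 2) * qp M (1 - n) * (sn M ((n : ℂ) - g) * sn M g * sn M 1 *
        sn M ((n : ℂ) - 2)) * TT n g M 1 * exp (-LL M 1) * hI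
      + (sn M ((n : ℂ) - g) * sn M g * sn M ((n : ℂ) - 2)) * TT n g M 1 * hq
  have h3 : Ap n g M 0 * (Gm n g M 1 - C0 n g M * Xx n g M 1) = 0 := by
    linear_combination hG - C0 n g M * hX - A0 n g M 0 * h0
  rcases mul_eq_zero.1 h3 with h4 | h4
  · exact absurd h4 hAp
  · exact sub_eq_zero.1 h4

private lemma JetV_TT21 (M : ℕ) (hM : 3 ≤ M) : TT 2 1 M 1 = 2 := by
  have hs1 : sn M 1 ≠ 0 := by
    have := JetV_sn_ne M 1 le_rfl (by omega)
    rwa [Nat.cast_one] at this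
  have hS1 : ((S M 1 : ℝ) : ℂ) = sn M 1 := by
    have h2 := JetV_sn_nat M 1
    rw [Nat.cast_one] at h2
    rw [h2]
    simp [S]
  have ht0 : tt 2 1 M 1 0 = 1 := by
    unfold tt
    simp [JetV_qp_zero, S]
  have ht1 : tt 2 1 M 1 1 = 1 := by
    unfold tt
    rw [hS1]
    simp only [Finset.prod_range_one, Nat.cast_zero, Nat.cast_one, Nat.cast_ofNat, sub_zero,
      sub_self, zero_mul, JetV_qp_zero, one_mul]
    have e1 : (1 : ℂ) + 2 - 1 - 1 = 1 := by ring
    have e2 : (1 : ℂ) + 1 - 1 = 1 := by ring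
    rw [e1, e2]
    field_simp
  have ht2 : ∀ m : ℕ, tt 2 1 M 1 (m + 2) = 0 := by
    intro m
    unfold tt
    have h : ∏ i ∈ Finset.range (m + 2), sn M ((1 : ℂ) + ((2 : ℕ) : ℂ) - ((1 : ℕ) : ℂ) - 1 - i) *
        sn M ((1 : ℂ) + ((1 : ℕ) : ℂ) - 1 - i) = 0 := by
      apply Finset.prod_eq_zero (i := 1)
      · simp
      · have e : (1 : ℂ) + ((1 : ℕ) : ℂ) - 1 - ((1 : ℕ) : ℂ) = 0 := by
          push_cast
          ring
        rw [e, JetV_sn_zero, mul_zero]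
    rw [h]
    simp
  unfold TT
  obtain ⟨k, rfl⟩ : ∃ k, M = k + 2 := ⟨M - 2, by omega⟩
  rw [Finset.sum_range_succ', Finset.sum_range_succ', ht0, ht1]
  rw [Finset.sum_eq_zero (fun i _ => ht2 i)]
  norm_num

private lemma JetV_one_two (M : ℕ) (hM : 6 ≤ M) : Gm 2 1 M 1 = C0 2 1 M * Xx 2 1 M 1 := by
  have h0 := JetV_zero 2 1 M le_rfl (by omega) (by omega)
  have hs1 : sn M 1 ≠ 0 := by
    have := JetV_sn_ne M 1 le_rfl (by omega)
    rwa [Nat.cast_one] at this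
  have hP := PP_one_two M (by omega)
  have hT0 : TT 2 1 M 0 = 1 := by
    rw [TT_zero 2 1 M le_rfl (by omega) (by omega)]
    simp [JetV_qp_zero, S]
  have hT1 := JetV_TT21 M (by omega)
  have hL := JetV_exp1 M (by omega)
  have e0 : Gm 2 1 M 0 = PP 2 1 M 0 := by
    unfold Gm BN
    simp
  have e1 : Gm 2 1 M 1 = PP 2 1 M 1 := by
    unfold Gm BN
    simp
  have x0 : Xx 2 1 M 0 = 1 := by
    unfold Xx
    rw [JetV_gph0, JetV_exp0 M (by omega), hT0]
    ring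
  have x1 : Xx 2 1 M 1 * sn M 1 = 2 * I * qp M (-1) := by
    unfold Xx
    rw [JetV_gph1 2 M (by omega), hT1]
    have e : (1 : ℂ) - ((2 : ℕ) : ℂ) = -1 := by
      push_cast
      ring
    rw [e]
    linear_combination 2 * I * qp M (-1) * hL
  rw [x0, mul_one, e0] at h0
  have h3 : (Gm 2 1 M 1 - C0 2 1 M * Xx 2 1 M 1) * sn M 1 = 0 := by
    rw [e1]
    linear_combination hP + 2 * I * qp M (-1) * h0 - C0 2 1 M * x1
  rcases mul_eq_zero.1 h3 with h4 | h4
  · exact sub_eq_zero.1 h4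
  · exact absurd h4 hs1

private lemma JetV_one (n g M : ℕ) (hg : 1 ≤ g) (hgn : g + 1 ≤ n) (hM : 2 * n + 2 ≤ M) :
    Gm n g M 1 = C0 n g M * Xx n g M 1 := by
  rcases Nat.lt_or_ge n 3 with h | h
  · obtain rfl : n = 2 := by omega
    obtain rfl : g = 1 := by omega
    exact JetV_one_two M (by omega)
  · exact JetV_one_ge n g M hg hgn hM h

private lemma JetV_step (n g M : ℕ) (hg : 1 ≤ g) (hgn : g + 1 ≤ n) (hM : 2 * n + 2 ≤ M)
    (l : ℕ) (h : 2 * (l + 1) + n ≤ M + 1)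
    (h0 : Gm n g M l = C0 n g M * Xx n g M l)
    (h1 : Gm n g M ((l + 1 : ℕ) : ℂ) = C0 n g M * Xx n g M ((l + 1 : ℕ) : ℂ)) :
    Gm n g M ((l + 2 : ℕ) : ℂ) = C0 n g M * Xx n g M ((l + 2 : ℕ) : ℂ) := by
  have hre : (((l + 1 : ℕ) : ℂ)).re = (l : ℝ) + 1 := by
    rw [Complex.natCast_re]
    push_cast
    ring
  have hR : (2 : ℝ) * (l + 1) + n ≤ M + 1 := by exact_mod_cast h
  have hn2 : (2 : ℝ) ≤ n := by exact_mod_cast (by omega : 2 ≤ n)
  have hl0 : (0 : ℝ) ≤ l := Nat.cast_nonneg l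
  have hG := recG n g M hg hgn (by omega) ((l + 1 : ℕ) : ℂ) (by rw [hre]; linarith)
    (by rw [hre]; linarith)
  have hX := recX n g M hg hgn (by omega) ((l + 1 : ℕ) : ℂ) (by rw [hre]; linarith)
    (by rw [hre]; linarith)
  rw [JetV_EG n g M (l + 1) (by omega) (by omega)] at hG
  rw [JetV_EX n g M (l + 1) hg hgn (by omega) (by omega)] at hX
  have e2 : ((l + 1 : ℕ) : ℂ) + 1 = ((l + 2 : ℕ) : ℂ) := by
    push_cast
    ring
  have e0 : ((l + 1 : ℕ) : ℂ) - 1 = (l : ℂ) := by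
    push_cast
    ring
  rw [e2, e0] at hG hX
  have hAp := Ap_ne n g M (l + 1) hg hgn h (by omega) (by omega)
  have h3 : Ap n g M ((l + 1 : ℕ) : ℂ) *
      (Gm n g M ((l + 2 : ℕ) : ℂ) - C0 n g M * Xx n g M ((l + 2 : ℕ) : ℂ)) = 0 := by
    linear_combination hG - C0 n g M * hX - A0 n g M ((l + 1 : ℕ) : ℂ) * h1 -
      Am n g M ((l + 1 : ℕ) : ℂ) * h0
  rcases mul_eq_zero.1 h3 with h4 | h4
  · exact absurd h4 hAp
  · exact sub_eq_zero.1 h4

private lemma JetV_low (n g M : ℕ) (hg : 1 ≤ g) (hgn : g + 1 ≤ n) (hM : 2 * n + 2 ≤ M) :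
    ∀ l : ℕ, 2 * l + n ≤ M + 1 → Gm n g M l = C0 n g M * Xx n g M l ∧
      Gm n g M ((l + 1 : ℕ) : ℂ) = C0 n g M * Xx n g M ((l + 1 : ℕ) : ℂ) := by
  intro l
  induction l with
  | zero =>
    intro _
    refine ⟨?_, ?_⟩
    · rw [Nat.cast_zero]
      exact JetV_zero n g M hg hgn hM
    · rw [zero_add, Nat.cast_one]
      exact JetV_one n g M hg hgn hM
  | succ l ih =>
    intro h
    obtain ⟨h0, h1⟩ := ih (by omega)
    exact ⟨h1, JetV_step n g M hg hgn hM l h h0 h1⟩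

theorem Gm_val (n g M : ℕ) (hg : 1 ≤ g) (hgn : g + 1 ≤ n) (hM : 2 * n + 2 ≤ M) (l : ℕ)
    (hl : l + n ≤ M + 1) : Gm n g M l = C0 n g M * Xx n g M l := by
  rcases le_or_gt (2 * l + n) (M + 1) with h | h
  · exact (JetV_low n g M hg hgn hM l h).1
  · obtain ⟨l', hl'⟩ : ∃ l', l' + l + n = M + 1 := ⟨M + 1 - n - l, by omega⟩
    have h1 := (JetV_low n g M hg hgn hM l' (by omega)).1
    have h2 := Gm_even n g M (by omega) (by omega) (l : ℂ)
    have e : (M : ℂ) + 1 - n - l = (l' : ℂ) := by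
      have : ((l' + l + n : ℕ) : ℂ) = ((M + 1 : ℕ) : ℂ) := by rw [hl']
      push_cast at this
      linear_combination -this
    rw [e] at h2
    rw [← h2, h1, Xx_even n g M hg hgn hM l' l hl']

end Pool.Agent.H63.TW
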