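import Pool.Agent.H63.TW.JetRec

/-! # The dual form is even on the lattice -/

namespace Pool.Agent.H63.TW

open Pool.Agent.H63.VC Pool.Agent.H63.VC3 Complex
open scoped BigOperators

/-- The odd part of `Xx`. -/
noncomputable def JetX_g (n g M : ℕ) (x : ℂ) : ℂ := Xx n g M x - Xx n g M (M + 1 - n - x)

theorem JetX_odd (n g M : ℕ) (x : ℂ) : JetX_g n g M (M + 1 - n - x) = -JetX_g n g M x := by
  simp only [JetX_g]
  rw [show (M : ℂ) + 1 - n - (M + 1 - n - x) = x by ring]
  ring

theorem JetX_Am_refl (n g M : ℕ) (hM : 1 ≤ M) (x : ℂ) :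
    Am n g M (M + 1 - n - x) = -Ap n g M x := by
  have h := Ap_refl n g M hM (M + 1 - n - x)
  rw [show (M : ℂ) + 1 - n - (M + 1 - n - x) = x by ring] at h
  rw [h]; ring

theorem JetX_rec (n g M : ℕ) (hg : 1 ≤ g) (hgn : g + 1 ≤ n) (hM : n + 1 ≤ M) (x : ℂ)
    (h0 : 0 < x.re) (h1 : x.re < (M : ℝ) + 1 - n) :
    Ap n g M x * JetX_g n g M (x + 1) + A0 n g M x * JetX_g n g M x +
      Am n g M x * JetX_g n g M (x - 1) = EX n g M x + EX n g M (M + 1 - n - x) := by
  have hn2 : (2 : ℝ) ≤ n := by exact_mod_cast (by omega : 2 ≤ n)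
  have r1 := recX n g M hg hgn hM x h0 (by linarith)
  have hre : ((M : ℂ) + 1 - n - x).re = (M : ℝ) + 1 - n - x.re := by simp
  have r2 := recX n g M hg hgn hM (M + 1 - n - x) (by rw [hre]; linarith) (by rw [hre]; linarith)
  rw [Ap_refl n g M (by omega), A0_refl n g M (by omega), JetX_Am_refl n g M (by omega)] at r2
  simp only [JetX_g]
  rw [show (M : ℂ) + 1 - n - (x + 1) = M + 1 - n - x - 1 by ring,
    show (M : ℂ) + 1 - n - (x - 1) = M + 1 - n - x + 1 by ring]
  linear_combination r1 + r2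

private lemma sn_nat_ne (M k : ℕ) (h0 : 0 < k) (h1 : k < M) : sn M (k : ℂ) ≠ 0 := by
  unfold sn
  have hM : (0 : ℝ) < M := by exact_mod_cast (by omega : 0 < M)
  have hk : (0 : ℝ) < k := by exact_mod_cast h0
  have hk1 : (k : ℝ) < M := by exact_mod_cast h1
  have h : 0 < Real.sin (Real.pi * k / M) := by
    apply Real.sin_pos_of_pos_of_lt_pi
    · positivity
    · rw [div_lt_iff₀ hM]; exact mul_lt_mul_of_pos_left hk1 Real.pi_pos
  have h2 : (Real.sin (Real.pi * k / M) : ℂ) ≠ 0 := by exact_mod_cast h.ne'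
  push_cast at h2
  exact mul_ne_zero two_ne_zero h2

private lemma sin_nat (l : ℕ) : sin (Real.pi * (l : ℂ)) = 0 := by
  rw [mul_comm]; exact_mod_cast Complex.sin_nat_mul_pi l

theorem JetX_EX (n g M l : ℕ) (hg : 1 ≤ g) (hgn : g + 1 ≤ n) (h1 : l + n ≤ M) :
    EX n g M l = 0 ∧ HasDerivAt (EX n g M) 0 (l : ℂ) := by
  have hM : 2 ≤ M := by omega
  set u : ℂ → ℂ := fun x => sn M (x + n - g) * sn M (x + g) with hu
  set c : ℂ := qp M ((n - 2) * (M - 1)) * (-1) ^ n * 4 / (M : ℂ) ^ 2 with hc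
  set φ : ℂ → ℂ := fun x => gph n M x * exp (-LL M x) * (qp M (n - 2) * (c / u x) *
    (Dpl n M x + Dze n g M x + Dmi n M x)) with hφ
  have hul : u l ≠ 0 := by
    simp only [hu]
    apply mul_ne_zero
    · have h := sn_nat_ne M (l + n - g) (by omega) (by omega)
      rw [Nat.cast_sub (by omega)] at h
      push_cast at h
      exact h
    · have h := sn_nat_ne M (l + g) (by omega) (by omega)
      push_cast at h
      exact h
  have hud : Differentiable ℂ u := by
    simp only [hu, sn]; fun_prop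
  have hEX : ∀ x, u x ≠ 0 → EX n g M x = φ x * sin (Real.pi * x) ^ 2 := by
    intro x hx
    have ht := tt_last n g M hg hgn hM x
    have ht2 : tt n g M x (M - 1) = c / u x * sin (Real.pi * x) ^ 2 := by
      have hx' : sn M (x + n - g) * sn M (x + g) ≠ 0 := hx
      rw [div_mul_eq_mul_div, eq_div_iff hx]
      simp only [hu]
      rw [ht, hc]; ring
    simp only [EX, hφ]
    rw [ht2]; ring
  have hLL : DifferentiableAt ℂ (LL M) (l : ℂ) := by
    apply LL_differentiableAt M (by omega)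
    · simp only [natCast_re]
      have : (0 : ℝ) ≤ l := Nat.cast_nonneg l
      linarith
    · simp only [natCast_re]
      exact_mod_cast (by omega : l < M)
  have hφd : DifferentiableAt ℂ φ (l : ℂ) := by
    rw [hφ]
    apply DifferentiableAt.mul
    · apply DifferentiableAt.mul
      · unfold gph qp; fun_prop
      · fun_prop
    · apply DifferentiableAt.mul
      · apply DifferentiableAt.mul (by fun_prop)
        exact DifferentiableAt.div (by fun_prop) (hud _) hul
      · unfold Dze Dpl Dmi qp sn; fun_prop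
  have hs : HasDerivAt (fun x : ℂ => sin (Real.pi * x) ^ 2) 0 (l : ℂ) := by
    have h0 : HasDerivAt (fun x : ℂ => (Real.pi : ℂ) * x) Real.pi (l : ℂ) := by
      simpa using (hasDerivAt_id (l : ℂ)).const_mul (Real.pi : ℂ)
    have h := h0.csin.fun_pow 2
    simp only [Nat.cast_ofNat, Nat.reduceSub, pow_one, sin_nat, mul_zero, zero_mul] at h
    exact h
  constructor
  · rw [hEX _ hul, sin_nat]; simp
  · have h := hφd.hasDerivAt.fun_mul hs
    rw [sin_nat] at h
    have h' : HasDerivAt (fun x => φ x * sin (Real.pi * x) ^ 2) 0 (l : ℂ) := by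
      simpa using h
    refine h'.congr_of_eventuallyEq ?_
    have hev : ∀ᶠ x in nhds (l : ℂ), u x ≠ 0 := hud.continuous.continuousAt.eventually_ne hul
    filter_upwards [hev] with x hx
    exact hEX x hx

private lemma nat_re (k : ℕ) : ((k : ℂ)).re = k := natCast_re k

theorem JetX_int (n g M : ℕ) (hg : 1 ≤ g) (hgn : g + 1 ≤ n) (l : ℕ) (h1 : 1 ≤ l)
    (h2 : l + n ≤ M) :
    Ap n g M l * JetX_g n g M (l + 1) + A0 n g M l * JetX_g n g M l +
      Am n g M l * JetX_g n g M (l - 1) = 0 := by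
  have hl1 : (1 : ℝ) ≤ l := by exact_mod_cast h1
  have hl2 : (l : ℝ) + n ≤ M := by exact_mod_cast h2
  rw [JetX_rec n g M hg hgn (by omega) (l : ℂ) (by rw [nat_re]; linarith)
    (by rw [nat_re]; linarith), (JetX_EX n g M l hg hgn h2).1]
  have h3 := (JetX_EX n g M (M + 1 - n - l) hg hgn (by omega)).1
  rw [Nat.sub_sub, Nat.cast_sub (by omega)] at h3
  push_cast at h3
  rw [show (M : ℂ) + 1 - n - l = M + 1 - (n + l) by ring, h3, add_zero]

/-- Downward induction. -/
theorem JetX_down (n g M h : ℕ) (hg : 1 ≤ g) (hgn : g + 1 ≤ n) (hh : 1 ≤ h)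
    (h2 : 2 * h + n ≤ M + 1) (z0 : JetX_g n g M h = 0) (z1 : JetX_g n g M (h - 1 : ℕ) = 0) :
    ∀ k, k ≤ h → JetX_g n g M (h - k : ℕ) = 0 := by
  have key : ∀ k, k + 1 ≤ h → JetX_g n g M (h - k : ℕ) = 0 ∧ JetX_g n g M (h - (k + 1) : ℕ) = 0 := by
    intro k
    induction k with
    | zero => intro _; exact ⟨z0, z1⟩
    | succ k ih =>
      intro hk
      obtain ⟨a, b⟩ := ih (by omega)
      refine ⟨b, ?_⟩
      have r := JetX_int n g M hg hgn (h - (k + 1)) (by omega) (by omega)
      have e1 : (((h - (k + 1) : ℕ) : ℂ) + 1) = ((h - k : ℕ) : ℂ) := by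
        rw [← Nat.cast_succ]; congr 1; omega
      have e2 : (((h - (k + 1) : ℕ) : ℂ) - 1) = ((h - (k + 1 + 1) : ℕ) : ℂ) := by
        rw [sub_eq_iff_eq_add, ← Nat.cast_succ]; congr 1; omega
      rw [e1, e2, a, b, mul_zero, mul_zero, zero_add, zero_add] at r
      exact (mul_eq_zero.1 r).resolve_left (Am_ne n g M _ hg hgn (by omega) (by omega))
  intro k hk
  rcases Nat.eq_or_lt_of_le hk with rfl | hk
  · obtain ⟨j, rfl⟩ : ∃ j, k = j + 1 := ⟨k - 1, by omega⟩
    exact (key j le_rfl).2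
  · exact (key k hk).1

theorem JetX_mid_even (n g M h : ℕ) (hg : 1 ≤ g) (hgn : g + 1 ≤ n) (hh : 1 ≤ h)
    (h2 : 2 * h + n = M + 1) : JetX_g n g M h = 0 ∧ JetX_g n g M (h - 1 : ℕ) = 0 := by
  have hMc : (M : ℂ) + 1 - n = 2 * h := by
    have : (2 * h + n : ℂ) = M + 1 := by exact_mod_cast h2
    linear_combination -this
  have z0 : JetX_g n g M h = 0 := by
    have o := JetX_odd n g M h
    rw [hMc, show (2 : ℂ) * h - h = h by ring] at o
    linear_combination o / 2
  refine ⟨z0, ?_⟩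
  have r := JetX_int n g M hg hgn h hh (by omega)
  have hAm : Am n g M h = -Ap n g M h := by
    have := JetX_Am_refl n g M (by omega) h
    rwa [hMc, show (2 : ℂ) * h - h = h by ring] at this
  have o := JetX_odd n g M (h + 1)
  rw [hMc, show (2 : ℂ) * h - (h + 1) = h - 1 by ring] at o
  rw [z0, hAm, o] at r
  have e2 : ((h : ℂ) - 1) = ((h - 1 : ℕ) : ℂ) := by
    rw [sub_eq_iff_eq_add, ← Nat.cast_succ]; congr 1; omega
  have hAp := Ap_ne n g M h hg hgn (by omega) (by omega) (by omega)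
  have r2 : Ap n g M h * JetX_g n g M (h + 1) = 0 := by linear_combination r / 2
  have r3 := (mul_eq_zero.1 r2).resolve_left hAp
  rw [r3, neg_zero, e2] at o
  exact o

theorem JetX_g_diff (n g M : ℕ) (hM : 1 ≤ M) (x : ℂ) (h0 : 1 - (n : ℝ) < x.re) (h0' : -1 < x.re)
    (h1 : x.re < M) (h1' : x.re < (M : ℝ) + 2 - n) : DifferentiableAt ℂ (JetX_g n g M) x := by
  have hre : ((M : ℂ) + 1 - n - x).re = (M : ℝ) + 1 - n - x.re := by simp
  have d1 := Xx_diff n g M hM x h0' h1
  have d2 := Xx_diff n g M hM (M + 1 - n - x) (by rw [hre]; linarith) (by rw [hre]; linarith)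
  have d3 : DifferentiableAt ℂ (fun y => Xx n g M (M + 1 - n - y)) x := by
    apply DifferentiableAt.fun_comp' (f := fun y : ℂ => (M : ℂ) + 1 - n - y) x d2
    fun_prop
  exact d1.sub d3

theorem JetX_mid_odd (n g M h : ℕ) (hg : 1 ≤ g) (hgn : g + 1 ≤ n) (hh : 1 ≤ h)
    (h2 : 2 * h + n = M) : JetX_g n g M h = 0 ∧ JetX_g n g M (h - 1 : ℕ) = 0 := by
  have hMc : (M : ℂ) = 2 * h + n := by exact_mod_cast h2.symm
  have hMr : (M : ℝ) = 2 * h + n := by exact_mod_cast h2.symm
  have hM0 : (M : ℂ) ≠ 0 := by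
    rw [Ne, Nat.cast_eq_zero]; omega
  have hN : (M : ℂ) + 1 - n = 2 * h + 1 := by rw [hMc]; ring
  have hhr : (1 : ℝ) ≤ h := by exact_mod_cast hh
  have hnr : (2 : ℝ) ≤ n := by exact_mod_cast (by omega : 2 ≤ n)
  have hA0 := A0_mid n g M h h2 (by omega)
  have snM : sn M (2 * (h : ℂ) + n) = 0 := by
    rw [← hMc, sn, mul_div_assoc, div_self hM0, mul_one, Complex.sin_pi, mul_zero]
  have hAm : Am n g M h = 0 := by
    simp only [Am]
    rw [snM]; ring
  have r := JetX_int n g M hg hgn h hh (by omega)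
  have hAp := Ap_ne n g M h hg hgn (by omega) (by omega) (by omega)
  have o := JetX_odd n g M h
  rw [hN, show (2 : ℂ) * h + 1 - h = h + 1 by ring] at o
  have z0 : JetX_g n g M h = 0 := by
    rw [o, hA0, hAm] at r
    have r2 : Ap n g M h * JetX_g n g M h = 0 := by linear_combination -r / 2
    exact (mul_eq_zero.1 r2).resolve_left hAp
  have z1 : JetX_g n g M (h + 1) = 0 := by rw [o, z0, neg_zero]
  refine ⟨z0, ?_⟩
  -- derivatives
  have dg : DifferentiableAt ℂ (JetX_g n g M) h := by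
    apply JetX_g_diff n g M (by omega) <;> rw [nat_re] <;> linarith
  have dg1 : DifferentiableAt ℂ (JetX_g n g M) (h + 1) := by
    apply JetX_g_diff n g M (by omega) <;> rw [add_re, nat_re, one_re] <;> linarith
  have dgm : DifferentiableAt ℂ (JetX_g n g M) (h - 1) := by
    apply JetX_g_diff n g M (by omega) <;> rw [sub_re, nat_re, one_re] <;> linarith
  have dd : deriv (JetX_g n g M) (h + 1) = deriv (JetX_g n g M) h := by
    have e : (fun x => JetX_g n g M (2 * h + 1 - x)) = fun x => -JetX_g n g M x := by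
      funext x
      have := JetX_odd n g M x
      rwa [hN] at this
    have c1 : HasDerivAt (fun x : ℂ => 2 * (h : ℂ) + 1 - x) (-1) h := by
      simpa using (hasDerivAt_id (h : ℂ)).const_sub (2 * (h : ℂ) + 1)
    have d1 : HasDerivAt (JetX_g n g M) (deriv (JetX_g n g M) (h + 1)) (2 * (h : ℂ) + 1 - h) := by
      rw [show (2 : ℂ) * h + 1 - h = h + 1 by ring]; exact dg1.hasDerivAt
    have c2 := HasDerivAt.comp (h : ℂ) d1 c1
    have c3 : HasDerivAt (fun x => -JetX_g n g M x) (-deriv (JetX_g n g M) h) h :=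
      dg.hasDerivAt.neg
    rw [← e] at c3
    have := c2.unique c3
    linear_combination -this
  -- the derivative of the recurrence
  have dAp : DifferentiableAt ℂ (Ap n g M) h := by
    unfold Ap qp sn; fun_prop
  have dA0 : DifferentiableAt ℂ (A0 n g M) h := by
    unfold A0 qp sn; fun_prop
  have hq : DifferentiableAt ℂ (fun l : ℂ => I * qp M (-l - 1) *
      (sn M (l + g - 1) * sn M (l + n - g - 1) * sn M (l + n - 2))) h := by
    simp only [qp, sn]; fun_prop
  have hs : HasDerivAt (fun l : ℂ => sn M (2 * l + n)) (-(4 * Real.pi / M)) h := by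
    have c1 : HasDerivAt (fun l : ℂ => (Real.pi : ℂ) * (2 * l + n) / M) (Real.pi * 2 / M) h := by
      have := ((((hasDerivAt_id (h : ℂ)).const_mul (2 : ℂ)).add_const (n : ℂ)).const_mul
        (Real.pi : ℂ)).div_const (M : ℂ)
      simpa using this
    have c2 := (c1.csin).const_mul (2 : ℂ)
    rw [← hMc, mul_div_assoc (Real.pi : ℂ) (M : ℂ), div_self hM0, mul_one, Complex.cos_pi] at c2
    have e : (fun l : ℂ => sn M (2 * l + n)) = fun l : ℂ => 2 * sin (Real.pi * (2 * l + n) / M) := rfl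
    rw [e]
    have e3 : (2 : ℂ) * (-1 * (Real.pi * 2 / M)) = -(4 * Real.pi / M) := by ring
    rw [e3] at c2
    exact c2
  set Q : ℂ := I * qp M (-h - 1) *
      (sn M (h + g - 1) * sn M (h + n - g - 1) * sn M (h + n - 2)) with hQ
  have hAmd : HasDerivAt (Am n g M) (Q * (-(4 * Real.pi / M))) h := by
    have c := hq.hasDerivAt.fun_mul hs
    rw [snM, mul_zero, zero_add] at c
    have e : Am n g M = fun l : ℂ => (I * qp M (-l - 1) *
      (sn M (l + g - 1) * sn M (l + n - g - 1) * sn M (l + n - 2))) * sn M (2 * l + n) := by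
      funext l; simp only [Am]; ring
    rw [e]
    exact c
  have hQ0 : Q ≠ 0 := by
    have s1 := sn_nat_ne M (h + g - 1) (by omega) (by omega)
    have s2 := sn_nat_ne M (h + n - g - 1) (by omega) (by omega)
    have s3 := sn_nat_ne M (h + n - 2) (by omega) (by omega)
    rw [Nat.cast_sub (by omega)] at s1 s3
    rw [Nat.sub_sub, Nat.cast_sub (by omega)] at s2
    push_cast at s1 s2 s3
    rw [show (h : ℂ) + n - (g + 1) = h + n - g - 1 by ring] at s2
    rw [hQ]
    exact mul_ne_zero (mul_ne_zero I_ne_zero (exp_ne_zero _)) (mul_ne_zero (mul_ne_zero s1 s2) s3)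
  have sh1 : HasDerivAt (fun x : ℂ => JetX_g n g M (x + 1)) (deriv (JetX_g n g M) (h + 1)) h :=
    HasDerivAt.comp_add_const (h : ℂ) 1 dg1.hasDerivAt
  have shm : HasDerivAt (fun x : ℂ => JetX_g n g M (x - 1)) (deriv (JetX_g n g M) (h - 1)) h :=
    HasDerivAt.comp_sub_const (h : ℂ) 1 dgm.hasDerivAt
  have L := ((dAp.hasDerivAt.fun_mul sh1).fun_add (dA0.hasDerivAt.fun_mul dg.hasDerivAt)).fun_add
    (hAmd.fun_mul shm)
  have R1 := (JetX_EX n g M h hg hgn (by omega)).2
  have R2 : HasDerivAt (fun x : ℂ => EX n g M (M + 1 - n - x)) 0 h := by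
    have R := (JetX_EX n g M (h + 1) hg hgn (by omega)).2
    have c1 : HasDerivAt (fun x : ℂ => (M : ℂ) + 1 - n - x) (-1) h := by
      simpa using (hasDerivAt_id (h : ℂ)).const_sub ((M : ℂ) + 1 - n)
    have d1 : HasDerivAt (EX n g M) 0 ((M : ℂ) + 1 - n - h) := by
      rw [hN, show (2 : ℂ) * h + 1 - h = ((h + 1 : ℕ) : ℂ) by push_cast; ring]; exact R
    have c3 := HasDerivAt.comp (h : ℂ) d1 c1
    rw [zero_mul] at c3
    exact c3
  have R := R1.fun_add R2
  have hev : ∀ᶠ x in nhds (h : ℂ), 0 < x.re ∧ x.re < (M : ℝ) + 1 - n := by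
    have o1 : IsOpen {x : ℂ | 0 < x.re ∧ x.re < (M : ℝ) + 1 - n} :=
      (isOpen_lt continuous_const continuous_re).inter (isOpen_lt continuous_re continuous_const)
    exact o1.mem_nhds ⟨by rw [nat_re]; linarith, by rw [nat_re]; linarith⟩
  have L2 := R.congr_of_eventuallyEq (f₁ := fun x : ℂ => Ap n g M x * JetX_g n g M (x + 1) +
      A0 n g M x * JetX_g n g M x + Am n g M x * JetX_g n g M (x - 1)) (by
    filter_upwards [hev] with x hx
    exact JetX_rec n g M hg hgn (by omega) x hx.1 hx.2)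
  have U := HasDerivAt.unique L2 L
  rw [z0, z1, hAm, dd, hA0] at U
  have U2 : Q * (4 * Real.pi / M) * JetX_g n g M (h - 1) = 0 := by linear_combination U
  have hpi : (4 * Real.pi / M : ℂ) ≠ 0 := by
    apply div_ne_zero _ hM0
    exact mul_ne_zero (by norm_num) (by exact_mod_cast Real.pi_ne_zero)
  have e2 : ((h : ℂ) - 1) = ((h - 1 : ℕ) : ℂ) := by
    rw [sub_eq_iff_eq_add, ← Nat.cast_succ]; congr 1; omega
  rw [← e2]
  exact (mul_eq_zero.1 U2).resolve_left (mul_ne_zero hQ0 hpi)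

theorem Xx_even (n g M : ℕ) (hg : 1 ≤ g) (hgn : g + 1 ≤ n) (hM : 2 * n + 2 ≤ M) (l l' : ℕ)
    (hl : l + l' + n = M + 1) : Xx n g M l = Xx n g M l' := by
  -- it is enough to treat `l ≤ l'`
  wlog hll : l ≤ l' generalizing l l' with H
  · exact (H l' l (by omega) (by omega)).symm
  have hc : (M : ℂ) + 1 - n - l = l' := by
    have : (l + l' + n : ℂ) = M + 1 := by exact_mod_cast hl
    linear_combination -this
  suffices h : JetX_g n g M l = 0 by
    simp only [JetX_g] at h
    rw [hc] at h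
    exact sub_eq_zero.1 h
  rcases Nat.even_or_odd' (M + 1 - n) with ⟨h, hh | hh⟩
  · have m := JetX_mid_even n g M h hg hgn (by omega) (by omega)
    have := JetX_down n g M h hg hgn (by omega) (by omega) m.1 m.2 (h - l) (by omega)
    rwa [show h - (h - l) = l by omega] at this
  · have m := JetX_mid_odd n g M h hg hgn (by omega) (by omega)
    have := JetX_down n g M h hg hgn (by omega) (by omega) m.1 m.2 (h - l) (by omega)
    rwa [show h - (h - l) = l by omega] at this

end Pool.Agent.H63.TW
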