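import Pool.Agent.H63.TW.Defs
import Pool.Agent.H63.VC3.NNterms

/-! # The normalized twist coefficients as sums over all channels -/

namespace Pool.Agent.H63.TW

open Pool.Agent.H63.VC Pool.Agent.H63.VC3 Complex
open scoped BigOperators

/-- The function of the statement. -/
noncomputable def NNall_F (r : ℤ) (n M k : ℕ) (v : ℂ) : ℂ :=
  exp (2 * Real.pi * I * r * M * v ^ 2) * (2 * sin (2 * Real.pi * v)) * Pr n M k (lv n M v)

theorem NNall_sn_sub (M : ℕ) (hM : 0 < M) (x : ℂ) : sn M (x - M) = -sn M x := by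
  have hM' : (M : ℂ) ≠ 0 := by exact_mod_cast hM.ne'
  unfold sn
  have : (Real.pi : ℂ) * (x - M) / M = Real.pi * x / M - Real.pi := by field_simp
  rw [this, Complex.sin_sub_pi]
  ring

theorem NNall_lv_neg (n M : ℕ) (v : ℂ) : lv n M (-v) = M + 1 - n - lv n M v := by
  unfold lv bt
  push_cast
  ring

theorem NNall_Pr_even (n M k : ℕ) (hM : 0 < M) (v : ℂ) :
    Pr n M k (lv n M (-v)) = Pr n M k (lv n M v) := by
  unfold Pr
  refine Finset.prod_congr rfl fun i _ => ?_
  rw [NNall_lv_neg]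
  have h1 : sn M ((i : ℂ) - (M + 1 - n - lv n M v)) = -sn M (i + lv n M v + n - 1) := by
    rw [← NNall_sn_sub M hM]
    congr 1
    ring
  have h2 : sn M ((i : ℂ) + (M + 1 - n - lv n M v) + n - 1) = -sn M (i - lv n M v) := by
    have := NNall_sn_sub M hM ((i : ℂ) + (M + 1 - n - lv n M v) + n - 1)
    have e : (i : ℂ) + (M + 1 - n - lv n M v) + n - 1 - M = i - lv n M v := by ring
    rw [e] at this
    rw [this]
    ring
  rw [h1, h2]
  ring

theorem NNall_F_odd (r : ℤ) (n M k : ℕ) (hM : 0 < M) (v : ℂ) :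
    NNall_F r n M k (-v) = -NNall_F r n M k v := by
  unfold NNall_F
  rw [NNall_Pr_even n M k hM]
  have h1 : 2 * Real.pi * I * r * M * (-v) ^ 2 = 2 * Real.pi * I * r * M * v ^ 2 := by ring
  have h2 : (2 : ℂ) * Real.pi * -v = -(2 * Real.pi * v) := by ring
  rw [h1, h2, Complex.sin_neg]
  ring

theorem NNall_deriv_even (r : ℤ) (n M k : ℕ) (hM : 0 < M) (v : ℂ) :
    deriv (NNall_F r n M k) (-v) = deriv (NNall_F r n M k) v := by
  have h : NNall_F r n M k = fun w => -NNall_F r n M k (-w) := by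
    funext w
    rw [NNall_F_odd r n M k hM]
    ring
  have h2 : deriv (fun w => -NNall_F r n M k (-w)) v = deriv (NNall_F r n M k) (-v) := by
    rw [deriv.fun_neg, deriv_comp_neg]
    ring
  rw [← h2, ← h]

theorem NNall_vl (n M l l' : ℕ) (hM : 0 < M) (hl : l + l' + n = M + 1) :
    vl n M l' = -vl n M l := by
  have h3 : (l : ℝ) + l' + n = M + 1 := by exact_mod_cast hl
  have hMr : (M : ℝ) ≠ 0 := by exact_mod_cast hM.ne'
  unfold vl bt
  have h4 : (l' : ℝ) = M + 1 - n - l := by linarith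
  rw [h4]
  field_simp
  ring

theorem NNall_lv_vl (n M l : ℕ) (hM : 0 < M) : lv n M (vl n M l) = l := by
  have hM' : (M : ℂ) ≠ 0 := by exact_mod_cast hM.ne'
  unfold lv vl
  push_cast
  field_simp
  ring

/-- Products of `sn` in terms of `LL`. -/
theorem NNall_LL_prod (M : ℕ) (hM : 0 < M) (x : ℂ) (m : ℕ) (h0 : -1 < x.re)
    (h1 : x.re + m < M) :
    exp (LL M (x + m)) = exp (LL M x) * ∏ j ∈ Finset.range m, sn M (x + j + 1) := by
  have hMr : (0 : ℝ) < M := by exact_mod_cast hM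
  have hM' : (M : ℂ) ≠ 0 := by exact_mod_cast hM.ne'
  induction m with
  | zero => simp
  | succ m ih =>
    have ih' := ih (by push_cast at h1; linarith)
    rw [Finset.prod_range_succ, ← mul_assoc, ← ih']
    have hre : (x + ((m + 1 : ℕ) : ℂ)).re = x.re + m + 1 := by
      simp only [Complex.add_re, Complex.natCast_re]
      push_cast
      ring
    have hm : (0 : ℝ) ≤ m := Nat.cast_nonneg m
    have hp : 0 < (x + ((m + 1 : ℕ) : ℂ)).re := by rw [hre]; linarith
    have hq : (x + ((m + 1 : ℕ) : ℂ)).re < M := by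
      rw [hre]; push_cast at h1; linarith
    have hs := LL_step M hM (x + ((m + 1 : ℕ) : ℂ)) hp hq
    have e : x + ((m + 1 : ℕ) : ℂ) - 1 = x + m := by push_cast; ring
    rw [e] at hs
    have h2 : LL M (x + ((m + 1 : ℕ) : ℂ)) = LL M (x + m) + hh ((x + ((m + 1 : ℕ) : ℂ)) / M) := by
      linear_combination hs
    have hz : ((x + ((m + 1 : ℕ) : ℂ)) / M).re = (x + ((m + 1 : ℕ) : ℂ)).re / M :=
      Complex.div_natCast_re _ _
    rw [h2, Complex.exp_add, hh_exp _ (by rw [hz]; positivity)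
      (by rw [hz, div_lt_one hMr]; exact hq)]
    congr 1
    unfold sn
    congr 2
    push_cast
    field_simp
    ring

theorem NNall_Bn (n M : ℕ) (hM : 0 < M) (v : ℂ) :
    ∏ j ∈ Finset.range (n - 2), sn M (lv n M v + j + 1) = Bn n M v := by
  have hM' : (M : ℂ) ≠ 0 := by exact_mod_cast hM.ne'
  unfold Bn
  refine Finset.prod_congr rfl fun j _ => ?_
  unfold sn lv
  congr 1
  rw [show (Real.pi : ℂ) * (M * (v + 1 / 2) - bt n + j + 1) / M =
    Real.pi * (v + (j + 1 - bt n) / M) + Real.pi / 2 by field_simp; ring]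
  rw [Complex.sin_add_pi_div_two]

/-- `Pr` in terms of `LL`. -/
theorem NNall_Pr_LL (n M k : ℕ) (hn : 2 ≤ n) (hM : 0 < M) (hk : k < M) (v : ℂ)
    (h1 : -1 < (lv n M v).re) (h2 : (lv n M v).re < k + 1)
    (h3 : -1 < (lv n M (-v)).re) (h4 : (lv n M (-v)).re < k + 1) :
    Pr n M k (lv n M v) = M * (Bn n M v *
      exp (-LL M (k - lv n M v) - LL M (k - lv n M (-v)))) := by
  have hM' : (M : ℂ) ≠ 0 := by exact_mod_cast hM.ne'
  have hMr : (0 : ℝ) < M := by exact_mod_cast hM
  obtain ⟨m, hm⟩ : ∃ m, M = k + 1 + m := ⟨M - (k + 1), by omega⟩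
  have hmr : (M : ℝ) = k + 1 + m := by exact_mod_cast hm
  have hmc : (M : ℂ) = k + 1 + m := by exact_mod_cast hm
  have hnc : ((n - 2 : ℕ) : ℂ) = n - 2 := by rw [Nat.cast_sub hn]; norm_num
  have hnr : ((n - 2 : ℕ) : ℝ) = n - 2 := by rw [Nat.cast_sub hn]; norm_num
  -- general product
  have key : ∀ x : ℂ, -1 < x.re → x.re < k + 1 →
      ∏ i ∈ Finset.Ico (k + 1) M, sn M (i - x) = exp (LL M (M - 1 - x)) * exp (-LL M (k - x)) := by
    intro x hx1 hx2
    have h := NNall_LL_prod M hM (k - x) m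
      (by simp only [Complex.sub_re, Complex.natCast_re]; linarith)
      (by simp only [Complex.sub_re, Complex.natCast_re]; linarith)
    have e1 : (k : ℂ) - x + m = M - 1 - x := by rw [hmc]; ring
    rw [e1] at h
    rw [h, Finset.prod_Ico_eq_prod_range]
    have e2 : M - (k + 1) = m := by omega
    rw [e2]
    have e3 : ∏ j ∈ Finset.range m, sn M ((k : ℂ) - x + j + 1) =
        ∏ j ∈ Finset.range m, sn M (((k + 1 + j : ℕ) : ℂ) - x) := by
      refine Finset.prod_congr rfl fun j _ => ?_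
      congr 1
      push_cast
      ring
    rw [e3]
    have e4 : exp (LL M (k - x)) * exp (-LL M (k - x)) = 1 := by
      rw [← Complex.exp_add]; simp
    linear_combination (-(∏ j ∈ Finset.range m, sn M (((k + 1 + j : ℕ) : ℂ) - x))) * e4
  have hPr : Pr n M k (lv n M v) = (∏ i ∈ Finset.Ico (k + 1) M, sn M (i - lv n M v)) *
      ∏ i ∈ Finset.Ico (k + 1) M, sn M (i - lv n M (-v)) := by
    unfold Pr
    rw [← Finset.prod_mul_distrib]
    refine Finset.prod_congr rfl fun i _ => ?_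
    have h5 : sn M ((i : ℂ) - lv n M (-v)) = -sn M (i + lv n M v + n - 1) := by
      rw [← NNall_sn_sub M hM, NNall_lv_neg]
      congr 1
      ring
    rw [h5]
    ring
  rw [hPr, key _ h1 h2, key _ h3 h4]
  have hr := LL_reflect M hM (lv n M v)
  have e5 : exp (LL M (M - 1 - lv n M v)) = M * exp (-LL M (lv n M v)) := by
    have h6 : LL M (M - 1 - lv n M v) = Real.log M + -LL M (lv n M v) := by
      linear_combination hr
    rw [h6, Complex.exp_add, ← Complex.ofReal_exp, Real.exp_log hMr]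
    simp
  have e6 : exp (LL M (M - 1 - lv n M (-v))) = exp (LL M (lv n M v)) * Bn n M v := by
    rw [← NNall_Bn n M hM, ← NNall_LL_prod M hM (lv n M v) (n - 2) h1]
    · congr 2
      rw [NNall_lv_neg, hnc]
      ring
    · rw [hnr]
      have h7 : (lv n M (-v)).re = M + 1 - n - (lv n M v).re := by
        rw [NNall_lv_neg]
        simp
      rw [h7] at h3
      linarith
  rw [e5, e6]
  have e7 : exp (-LL M (lv n M v)) * exp (LL M (lv n M v)) = 1 := by
    rw [← Complex.exp_add]; simp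
  rw [sub_eq_add_neg (-LL M (k - lv n M v)), Complex.exp_add]
  linear_combination (M * Bn n M v * exp (-LL M (k - lv n M v)) *
    exp (-LL M (k - lv n M (-v)))) * e7

theorem NNall_KK (r : ℤ) (n M k : ℕ) (hn : 2 ≤ n) (hM : 0 < M) (hk : k < M) (v : ℂ)
    (h1 : -1 < (lv n M v).re) (h2 : (lv n M v).re < k + 1)
    (h3 : -1 < (lv n M (-v)).re) (h4 : (lv n M (-v)).re < k + 1) :
    NNall_F r n M k v = M * KK r n M (yk n M k) v := by
  have hM' : (M : ℂ) ≠ 0 := by exact_mod_cast hM.ne'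
  unfold NNall_F KK
  rw [NNall_Pr_LL n M k hn hM hk v h1 h2 h3 h4]
  have e1 : (M : ℂ) * ((yk n M k : ℂ) - v) - 1 / 2 = k - lv n M v := by
    unfold yk lv
    push_cast
    field_simp
    ring
  have e2 : (M : ℂ) * ((yk n M k : ℂ) + v) - 1 / 2 = k - lv n M (-v) := by
    unfold yk lv
    push_cast
    field_simp
    ring
  rw [e1, e2]
  ring

theorem NNall_lv_cont (n M : ℕ) : Continuous (lv n M) := by
  unfold lv
  fun_prop

theorem NNall_deriv_KK (r : ℤ) (n M k l l' : ℕ) (hn : 2 ≤ n) (hM : 0 < M) (hk : k < M)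
    (hl : l + l' + n = M + 1) (h1 : l ≤ k) (h2 : l' ≤ k) :
    deriv (NNall_F r n M k) (vl n M l) = M * deriv (KK r n M (yk n M k)) (vl n M l) := by
  have hev : NNall_F r n M k =ᶠ[nhds (vl n M l : ℂ)] fun v => M * KK r n M (yk n M k) v := by
    have c1 : Continuous fun v => (lv n M v).re := Complex.continuous_re.comp (NNall_lv_cont n M)
    have c2 : Continuous fun v => (lv n M (-v)).re :=
      Complex.continuous_re.comp ((NNall_lv_cont n M).comp continuous_neg)
    have v1 : (lv n M (vl n M l)).re = l := by rw [NNall_lv_vl n M l hM]; simp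
    have v2 : (lv n M (-(vl n M l : ℂ))).re = l' := by
      have h := NNall_lv_vl n M l' hM
      rw [NNall_vl n M l l' hM hl] at h
      push_cast at h
      rw [h]
      simp
    have hl0 : (0 : ℝ) ≤ l := Nat.cast_nonneg l
    have hl0' : (0 : ℝ) ≤ l' := Nat.cast_nonneg l'
    have hlk : (l : ℝ) ≤ k := by exact_mod_cast h1
    have hlk' : (l' : ℝ) ≤ k := by exact_mod_cast h2
    filter_upwards [c1.continuousAt.eventually (lt_mem_nhds (show -1 < _ by beta_reduce; rw [v1]; linarith)),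
      c1.continuousAt.eventually (gt_mem_nhds (show _ < (k : ℝ) + 1 by beta_reduce; rw [v1]; linarith)),
      c2.continuousAt.eventually (lt_mem_nhds (show -1 < _ by beta_reduce; rw [v2]; linarith)),
      c2.continuousAt.eventually (gt_mem_nhds (show _ < (k : ℝ) + 1 by beta_reduce; rw [v2]; linarith))]
      with v a1 a2 a3 a4
    exact NNall_KK r n M k hn hM hk v a1 a2 a3 a4
  rw [hev.deriv_eq, deriv_const_mul_field]


theorem NNall_Pr_split (n M k : ℕ) (hM : 0 < M) (l : ℂ) : Pr n M k l =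
    (∏ i ∈ Finset.Ico (k + 1) M, sn M (i - l)) *
      ∏ i ∈ Finset.Ico (k + 1) M, sn M (i - (M + 1 - n - l)) := by
  unfold Pr
  rw [← Finset.prod_mul_distrib]
  refine Finset.prod_congr rfl fun i _ => ?_
  have h5 : sn M ((i : ℂ) - (M + 1 - n - l)) = -sn M (i + l + n - 1) := by
    rw [← NNall_sn_sub M hM]
    congr 1
    ring
  rw [h5]
  ring

theorem NNall_sn_diff (n M : ℕ) : Differentiable ℂ (fun v => lv n M v) ∧
    ∀ c : ℂ, Differentiable ℂ (fun v => sn M (c - lv n M v)) := by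
  have h1 : Differentiable ℂ (fun v => lv n M v) := by
    unfold lv
    fun_prop
  refine ⟨h1, fun c => ?_⟩
  unfold sn
  have h2 : Differentiable ℂ (fun v => Real.pi * (c - lv n M v) / M) := by fun_prop
  exact (h2.csin).const_mul 2

theorem NNall_sn_diff' (n M : ℕ) (c : ℂ) :
    Differentiable ℂ (fun v => sn M (c - (M + 1 - n - lv n M v))) := by
  have h1 := (NNall_sn_diff n M).1
  unfold sn
  have h2 : Differentiable ℂ (fun v => Real.pi * (c - (M + 1 - n - lv n M v)) / M) := by fun_prop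
  exact (h2.csin).const_mul 2

theorem NNall_sn_zero (M : ℕ) : sn M 0 = 0 := by
  unfold sn
  simp

/-- The double zeros. -/
theorem NNall_deriv_zero (r : ℤ) (n M k l l' : ℕ) (hn : 2 ≤ n) (hM : 0 < M)
    (hl : l + l' + n = M + 1) (h1 : k < l) (h2 : k < l') :
    deriv (NNall_F r n M k) (vl n M l) = 0 := by
  have hlc : (l : ℂ) + l' + n = M + 1 := by exact_mod_cast hl
  set A : ℂ → ℂ := fun v => exp (2 * Real.pi * I * r * M * v ^ 2) * (2 * sin (2 * Real.pi * v))
    with hA
  set P1 : ℂ → ℂ := fun v => ∏ i ∈ Finset.Ico (k + 1) M, sn M (i - lv n M v) with hP1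
  set P2 : ℂ → ℂ := fun v => ∏ i ∈ Finset.Ico (k + 1) M, sn M (i - (M + 1 - n - lv n M v))
    with hP2
  have hF : NNall_F r n M k = fun v => A v * P1 v * P2 v := by
    funext v
    unfold NNall_F
    rw [NNall_Pr_split n M k hM]
    simp only [hA, hP1, hP2]
    ring
  have dA : Differentiable ℂ A := by
    simp only [hA]
    fun_prop
  have dP1 : Differentiable ℂ P1 :=
    Differentiable.fun_finsetProd fun i _ => (NNall_sn_diff n M).2 i
  have dP2 : Differentiable ℂ P2 :=
    Differentiable.fun_finsetProd fun i _ => NNall_sn_diff' n M i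
  have z1 : P1 (vl n M l) = 0 := by
    simp only [hP1]
    refine Finset.prod_eq_zero (i := l) (Finset.mem_Ico.2 ⟨by omega, by omega⟩) ?_
    rw [NNall_lv_vl n M l hM, sub_self, NNall_sn_zero]
  have z2 : P2 (vl n M l) = 0 := by
    simp only [hP2]
    refine Finset.prod_eq_zero (i := l') (Finset.mem_Ico.2 ⟨by omega, by omega⟩) ?_
    rw [NNall_lv_vl n M l hM]
    have : (l' : ℂ) - (M + 1 - n - l) = 0 := by linear_combination hlc
    rw [this, NNall_sn_zero]
  have h := (((dA (vl n M l)).hasDerivAt.fun_mul (dP1 (vl n M l)).hasDerivAt).fun_mul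
    (dP2 (vl n M l)).hasDerivAt).deriv
  rw [hF, h, z1, z2]
  ring

/-- The simple zeros. -/
theorem NNall_deriv_simple (r : ℤ) (n M k l l' : ℕ) (hn : 2 ≤ n) (hM : 0 < M)
    (hl : l + l' + n = M + 1) (h2 : k < l') :
    deriv (NNall_F r n M k) (vl n M l) =
      exp (2 * Real.pi * I * r * M * (vl n M l : ℂ) ^ 2) * (2 * sin (2 * Real.pi * vl n M l)) *
        (∏ i ∈ Finset.Ico (k + 1) M, sn M (i - l)) *
        (∏ i ∈ (Finset.Ico (k + 1) M).erase l', sn M (i - l')) * (2 * Real.pi) := by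
  have hM' : (M : ℂ) ≠ 0 := by exact_mod_cast hM.ne'
  have hlc : (l : ℂ) + l' + n = M + 1 := by exact_mod_cast hl
  set A : ℂ → ℂ := fun v => exp (2 * Real.pi * I * r * M * v ^ 2) * (2 * sin (2 * Real.pi * v))
    with hA
  set P1 : ℂ → ℂ := fun v => ∏ i ∈ Finset.Ico (k + 1) M, sn M (i - lv n M v) with hP1
  set R : ℂ → ℂ := fun v => ∏ i ∈ (Finset.Ico (k + 1) M).erase l',
    sn M (i - (M + 1 - n - lv n M v)) with hR
  set g : ℂ → ℂ := fun v => sn M (l' - (M + 1 - n - lv n M v)) with hg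
  have hmem : l' ∈ Finset.Ico (k + 1) M := Finset.mem_Ico.2 ⟨by omega, by omega⟩
  have hF : NNall_F r n M k = fun v => A v * P1 v * R v * g v := by
    funext v
    unfold NNall_F
    rw [NNall_Pr_split n M k hM, ← Finset.mul_prod_erase (Finset.Ico (k + 1) M)
      (fun i : ℕ => sn M (i - (M + 1 - n - lv n M v))) hmem]
    simp only [hA, hP1, hR, hg]
    ring
  have dA : Differentiable ℂ A := by
    simp only [hA]
    fun_prop
  have dP1 : Differentiable ℂ P1 :=
    Differentiable.fun_finsetProd fun i _ => (NNall_sn_diff n M).2 i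
  have dR : Differentiable ℂ R :=
    Differentiable.fun_finsetProd fun i _ => NNall_sn_diff' n M i
  have hgv : (l' : ℂ) - (M + 1 - n - lv n M (vl n M l)) = 0 := by
    rw [NNall_lv_vl n M l hM]
    linear_combination hlc
  have hgd : HasDerivAt g (2 * Real.pi) (vl n M l) := by
    have e : g = fun v : ℂ => 2 * sin (Real.pi * (l' - (M + 1 - n - (M * (v + 1 / 2) - bt n))) / M) :=
      rfl
    have h0 : HasDerivAt (fun v : ℂ => (Real.pi : ℂ) * (l' - (M + 1 - n -
        (M * (v + 1 / 2) - bt n))) / M) Real.pi (vl n M l) := by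
      have h3 : HasDerivAt (fun v : ℂ => (Real.pi : ℂ) * v +
          Real.pi * (l' - (M + 1 - n - (M * (1 / 2) - bt n))) / M) (Real.pi * 1) (vl n M l) :=
        ((hasDerivAt_id _).const_mul _).add_const _
      rw [mul_one] at h3
      refine h3.congr_of_eventuallyEq (Filter.Eventually.of_forall fun v => ?_)
      simp only
      field_simp
      ring
    have h4 := h0.csin.const_mul (2 : ℂ)
    rw [e]
    refine h4.congr_deriv ?_
    have h5 : (Real.pi : ℂ) * (l' - (M + 1 - n - (M * ((vl n M l : ℂ) + 1 / 2) - bt n))) / M = 0 := by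
      have h6 : (l' : ℂ) - (M + 1 - n - (M * ((vl n M l : ℂ) + 1 / 2) - bt n)) = 0 := hgv
      rw [h6]
      simp
    rw [h5, Complex.cos_zero]
    ring
  have z : g (vl n M l) = 0 := by
    simp only [hg]
    rw [hgv, NNall_sn_zero]
  have h := ((((dA (vl n M l)).hasDerivAt.fun_mul (dP1 (vl n M l)).hasDerivAt).fun_mul
    (dR (vl n M l)).hasDerivAt).fun_mul hgd).deriv
  rw [hF, h, z, mul_zero, zero_add]
  simp only [hA, hP1, hR]
  rw [NNall_lv_vl n M l hM]
  have e3 : (M : ℂ) + 1 - n - l = l' := by linear_combination -hlc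
  rw [e3]


theorem NNall_sn_nat (M i l : ℕ) (h : l ≤ i) : sn M ((i : ℂ) - l) = ((sg M (i - l) : ℝ) : ℂ) := by
  unfold sn sg
  rw [← Nat.cast_sub h]
  push_cast
  rfl

theorem NNall_prod1 (M k l : ℕ) (hk : k < M) (hl : l ≤ k) :
    ∏ i ∈ Finset.Ico (k + 1) M, sn M ((i : ℂ) - l) =
      ((S M (M - 1 - l) / S M (k - l) : ℝ) : ℂ) := by
  have h1 : ∏ i ∈ Finset.Ico (k + 1) M, sn M ((i : ℂ) - l) =
      ((∏ i ∈ Finset.Ico (k + 1) M, sg M (i - l) : ℝ) : ℂ) := by
    rw [Complex.ofReal_prod]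
    refine Finset.prod_congr rfl fun i hi => ?_
    rw [Finset.mem_Ico] at hi
    exact NNall_sn_nat M i l (by omega)
  rw [h1]
  congr 1
  have h2 := S_split (M := M) (k := k - l) (l := M - 1 - l) (by omega)
  have h3 : ∏ m ∈ Finset.Ico (k - l + 1) (M - 1 - l + 1), sg M m =
      ∏ i ∈ Finset.Ico (k + 1) M, sg M (i - l) := by
    have h4 := Finset.prod_Ico_add' (fun i => sg M (i - l)) (k - l + 1) (M - 1 - l + 1) l
    have e1 : k - l + 1 + l = k + 1 := by omega
    have e2 : M - 1 - l + 1 + l = M := by omega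
    rw [e1, e2] at h4
    rw [← h4]
    refine Finset.prod_congr rfl fun i _ => ?_
    rw [Nat.add_sub_cancel]
  rw [h3] at h2
  have h5 : S M (k - l) ≠ 0 := (S_pos (by omega)).ne'
  rw [h2]
  field_simp

theorem NNall_prod2 (M k l' : ℕ) (hk : k < l') (hl : l' < M) :
    ∏ i ∈ (Finset.Ico (k + 1) M).erase l', sn M ((i : ℂ) - l') =
      (-1) ^ (l' - 1 - k) * ((S M (l' - 1 - k) * S M (M - 1 - l') : ℝ) : ℂ) := by
  have e1 : (Finset.Ico (k + 1) M).erase l' =
      Finset.Ico (k + 1) l' ∪ Finset.Ico (l' + 1) M := by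
    ext i
    simp only [Finset.mem_erase, Finset.mem_union, Finset.mem_Ico]
    omega
  have e2 : Disjoint (Finset.Ico (k + 1) l') (Finset.Ico (l' + 1) M) := by
    rw [Finset.disjoint_left]
    intro i hi
    simp only [Finset.mem_Ico] at hi ⊢
    omega
  rw [e1, Finset.prod_union e2]
  have h1 : ∏ i ∈ Finset.Ico (k + 1) l', sn M ((i : ℂ) - l') =
      (-1) ^ (l' - 1 - k) * ((S M (l' - 1 - k) : ℝ) : ℂ) := by
    have h2 : ∏ i ∈ Finset.Ico (k + 1) l', sn M ((i : ℂ) - l') =
        ∏ i ∈ Finset.Ico (k + 1) l', (-1) * ((sg M (l' - i) : ℝ) : ℂ) := by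
      refine Finset.prod_congr rfl fun i hi => ?_
      rw [Finset.mem_Ico] at hi
      rw [← NNall_sn_nat M l' i (by omega)]
      unfold sn
      have : (Real.pi : ℂ) * (i - l') / M = -(Real.pi * (l' - i) / M) := by ring
      rw [this, Complex.sin_neg]
      ring
    rw [h2, Finset.prod_mul_distrib, Finset.prod_const, Nat.card_Ico]
    have e3 : l' - (k + 1) = l' - 1 - k := by omega
    rw [e3]
    congr 1
    rw [← Complex.ofReal_prod]
    congr 1
    have h3 := Finset.prod_Ico_reflect (sg M) (k + 1) (m := l') (n := l') (by omega)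
    rw [h3]
    unfold S
    congr 1
    congr 1
    · omega
    · omega
  have h2 : ∏ i ∈ Finset.Ico (l' + 1) M, sn M ((i : ℂ) - l') =
      ((S M (M - 1 - l') : ℝ) : ℂ) := by
    have h := NNall_prod1 M l' l' hl le_rfl
    rw [h, Nat.sub_self, S_zero, div_one]
  rw [h1, h2]
  push_cast
  ring

theorem NNall_sgv (n M l : ℕ) (hn : 2 ≤ n) (hM : 0 < M) :
    ((sg M (n - 1 + 2 * l) : ℝ) : ℂ) = -(2 * sin (2 * Real.pi * vl n M l)) := by
  have hM' : (M : ℂ) ≠ 0 := by exact_mod_cast hM.ne'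
  unfold sg
  push_cast
  have e : (Real.pi : ℂ) * (((n - 1 : ℕ) : ℂ) + 2 * l) / M = 2 * Real.pi * vl n M l + Real.pi := by
    rw [Nat.cast_sub (by omega)]
    unfold vl bt
    push_cast
    field_simp
    ring
  rw [e, Complex.sin_add_pi]
  ring

theorem NNall_phase (n M k l l' : ℕ) (hn : 2 ≤ n) (hM : 0 < M) (hl : l + l' + n = M + 1)
    (h1 : l ≤ k) (h2 : k < l') :
    ((-1) ^ l * rt M ^ (l * (l - 1) / 2)) *
      exp (Real.pi * I * (-(k / 2) + k * (k + 1) / (2 * M))) *
      exp (Real.pi * I * (-((l + (n - 2) : ℕ) / 2) + (l + (n - 2) : ℕ) *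
        ((l + (n - 2) : ℕ) + 1) / (2 * M))) *
      exp (Real.pi * I * (-(1 / 2) + (n - 1 + 2 * l : ℕ) / M)) * exp (Real.pi * I) =
    Th n M k * (-I) * (-1) ^ (l' - 1 - k) *
      exp (Real.pi * I * (-(l / 2) + l * (l + 1) / (2 * M))) *
      exp (Real.pi * I * (-((k - l : ℕ) / 2) + (k - l : ℕ) * ((k - l : ℕ) + 1) / (2 * M))) *
      exp (Real.pi * I * (-((l + (n - 2) + (k + 1) : ℕ) / 2) + (l + (n - 2) + (k + 1) : ℕ) *
        ((l + (n - 2) + (k + 1) : ℕ) + 1) / (2 * M))) := by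
  have hM' : (M : ℂ) ≠ 0 := by exact_mod_cast hM.ne'
  unfold Th
  rw [TermsA_rt, TermsA_neg l, TermsA_neg (n + k + M), TermsA_neg (l' - 1 - k), TermsA_I k]
  have hm1 : (-1 : ℂ) = exp (Real.pi * I) := by rw [exp_pi_mul_I]
  have hI : (exp (Real.pi * I * ((n + k + M : ℕ) : ℂ))) * (-I) *
      exp (Real.pi * I * (k / 2)) *
      exp (-(Real.pi * I / M) * (k * (n - 1) + k * (k + 1) / 2)) * (-I) =
      exp (Real.pi * I) * exp (Real.pi * I * ((n + k + M : ℕ) : ℂ)) * exp (Real.pi * I * (k / 2)) *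
      exp (-(Real.pi * I / M) * (k * (n - 1) + k * (k + 1) / 2)) := by
    rw [← hm1]
    linear_combination (exp (Real.pi * I * ((n + k + M : ℕ) : ℂ)) * exp (Real.pi * I * (k / 2)) *
      exp (-(Real.pi * I / M) * (k * (n - 1) + k * (k + 1) / 2))) * I_sq
  rw [hI]
  simp only [← exp_add]
  rw [exp_eq_exp_iff_exists_int]
  refine ⟨l - M, ?_⟩
  have h3 : (((l * (l - 1) / 2 : ℕ) : ℂ)) = l * (l - 1) / 2 := by
    have h2 : (l * (l - 1) / 2) * 2 = l * (l - 1) := by
      apply Nat.div_mul_cancel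
      exact (Nat.even_mul_pred_self l).two_dvd
    have h3 : (((l * (l - 1) / 2 : ℕ) : ℂ)) * 2 = (l * (l - 1) : ℕ) := by exact_mod_cast h2
    rcases Nat.eq_zero_or_pos l with rfl | h
    · simp
    · rw [Nat.cast_mul, Nat.cast_sub h] at h3
      push_cast at h3
      linear_combination h3 / 2
  have h4 : ((l + (n - 2) : ℕ) : ℂ) = l + n - 2 := by
    rw [Nat.cast_add, Nat.cast_sub hn]
    push_cast
    ring
  have h5 : ((l + (n - 2) + (k + 1) : ℕ) : ℂ) = l + n + k - 1 := by
    rw [Nat.cast_add, h4]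
    push_cast
    ring
  have h6 : ((k - l : ℕ) : ℂ) = k - l := by rw [Nat.cast_sub h1]
  have h7 : ((n - 1 + 2 * l : ℕ) : ℂ) = n - 1 + 2 * l := by
    rw [Nat.cast_add, Nat.cast_sub (by omega)]
    push_cast
    ring
  have h8 : ((l' - 1 - k : ℕ) : ℂ) = M - n - l - k := by
    have h9 : (l' - 1 - k) + n + l + k = M := by omega
    have h10 : ((l' - 1 - k : ℕ) : ℂ) + n + l + k = M := by exact_mod_cast h9
    linear_combination h10
  rw [h3, h4, h5, h6, h7, h8]
  push_cast
  field_simp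
  ring


theorem NNall_tReg (p n M k l l' : ℕ) (hn : 2 ≤ n) (hM : 0 < M) (hl : l + l' + n = M + 1)
    (h1 : l ≤ k) (h2 : k < l') :
    tReg p n M k l = Th n M k * (c1 n M ^ p * (S M k / (4 * Real.pi * I * (M : ℂ) ^ 2))) *
      (2 * deriv (NNall_F p n M k) (vl n M l)) := by
  have hM' : (M : ℂ) ≠ 0 := by exact_mod_cast hM.ne'
  have hpi : (Real.pi : ℂ) ≠ 0 := by exact_mod_cast Real.pi_ne_zero
  rw [NNall_deriv_simple p n M k l l' hn hM hl h2, NNall_prod1 M k l (by omega) h1,
    NNall_prod2 M k l' h2 (by omega)]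
  -- the products of `S`
  have s1 : (S M (M - 1 - l) : ℂ) = M / S M l := by
    have h := S_mul (M := M) (k := l) (by omega)
    have h3 : S M l ≠ 0 := (S_pos (by omega)).ne'
    have h4 : S M (M - 1 - l) = M / S M l := by rw [eq_div_iff h3]; linarith
    rw [h4]
    push_cast
    rfl
  have s2 : M - 1 - l' = l + (n - 2) := by omega
  have s3 : (S M (l' - 1 - k) : ℂ) = M / S M (l + (n - 2) + (k + 1)) := by
    have h := S_mul (M := M) (k := l + (n - 2) + (k + 1)) (by omega)
    have h3 : S M (l + (n - 2) + (k + 1)) ≠ 0 := (S_pos (by omega)).ne'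
    have e : M - 1 - (l + (n - 2) + (k + 1)) = l' - 1 - k := by omega
    rw [e] at h
    have h4 : S M (l' - 1 - k) = M / S M (l + (n - 2) + (k + 1)) := by
      rw [eq_div_iff h3]; linarith
    rw [h4]
    push_cast
    rfl
  push_cast
  rw [s1, s2, s3]
  -- the factors of `tReg`
  have hph := NNall_phase n M k l l' hn hM hl h1 h2
  rw [exp_pi_mul_I] at hph
  have hq := Small_qbin_prod (rt M) l (k - l)
  rw [show l + (k - l) = k by omega, TermsA_prod, TermsA_prod, TermsA_prod] at hq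
  have hQ : (∏ i ∈ Finset.range (k + 1), (1 - rt M ^ (n - 1) * rt M ^ (l + i))) *
      ∏ i ∈ Finset.range (l + (n - 2)), (1 - rt M ^ (i + 1)) =
      ∏ i ∈ Finset.range (l + (n - 2) + (k + 1)), (1 - rt M ^ (i + 1)) := by
    rw [Finset.prod_range_add (fun i => 1 - rt M ^ (i + 1)) (l + (n - 2)) (k + 1), mul_comm]
    congr 1
    refine Finset.prod_congr rfl fun i _ => ?_
    rw [← pow_add]
    congr 2
    omega
  rw [TermsA_prod, TermsA_prod] at hQ
  have hw : 1 - rt M ^ (n - 1) * rt M ^ (2 * l) =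
      exp (Real.pi * I * (-(1 / 2) + (n - 1 + 2 * l : ℕ) / M)) *
        (-(2 * sin (2 * Real.pi * vl n M l))) := by
    rw [← pow_add, TermsA_one_sub, NNall_sgv n M l hn hM]
  have hc : ((rt M ^ n) ^ l * rt M ^ (l * (l - 1))) ^ p = c1 n M ^ p *
      exp (2 * Real.pi * I * p * M * (vl n M l : ℂ) ^ 2) := by
    have e1 : (rt M ^ n) ^ l * rt M ^ (l * (l - 1)) = rt M ^ ((n - 1) * l + l ^ 2) := by
      rw [← pow_mul, ← pow_add]
      congr 1
      obtain ⟨n', rfl⟩ : ∃ n', n = n' + 1 := ⟨n - 1, by omega⟩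
      rcases Nat.eq_zero_or_pos l with rfl | h
      · simp
      · obtain ⟨j, rfl⟩ : ∃ j, l = j + 1 := ⟨l - 1, by omega⟩
        rw [Nat.add_sub_cancel, Nat.add_sub_cancel]
        ring
    rw [e1, TermsA_c1 n M l hn hM, mul_pow, ← exp_nat_mul]
    congr 2
    ring
  unfold tReg eig
  rw [hc, hw]
  have p1 : (S M l : ℂ) ≠ 0 := by exact_mod_cast (S_pos (by omega : l < M)).ne'
  have p2 : (S M (k - l) : ℂ) ≠ 0 := by exact_mod_cast (S_pos (by omega : k - l < M)).ne'
  have p3 : (S M (l + (n - 2)) : ℂ) ≠ 0 := by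
    exact_mod_cast (S_pos (by omega : l + (n - 2) < M)).ne'
  have p4 : (S M (l + (n - 2) + (k + 1)) : ℂ) ≠ 0 := by
    exact_mod_cast (S_pos (by omega : l + (n - 2) + (k + 1) < M)).ne'
  -- names for the exponentials
  generalize hek : exp (Real.pi * I * (-(k / 2) + k * (k + 1) / (2 * M))) = ek at hph hq
  generalize hel : exp (Real.pi * I * (-(l / 2) + l * (l + 1) / (2 * M))) = el at hph hq
  have hel0 : el ≠ 0 := by rw [← hel]; exact exp_ne_zero _
  generalize hekl : exp (Real.pi * I * (-((k - l : ℕ) / 2) + (k - l : ℕ) *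
    ((k - l : ℕ) + 1) / (2 * M))) = ekl at hph hq
  have hekl0 : ekl ≠ 0 := by rw [← hekl]; exact exp_ne_zero _
  generalize hen : exp (Real.pi * I * (-((l + (n - 2) : ℕ) / 2) + (l + (n - 2) : ℕ) *
        ((l + (n - 2) : ℕ) + 1) / (2 * M))) = en at hph hQ
  have hen0 : en ≠ 0 := by rw [← hen]; exact exp_ne_zero _
  generalize heN : exp (Real.pi * I * (-((l + (n - 2) + (k + 1) : ℕ) / 2) +
    (l + (n - 2) + (k + 1) : ℕ) * ((l + (n - 2) + (k + 1) : ℕ) + 1) / (2 * M))) = eN at hph hQ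
  have heN0 : eN ≠ 0 := by rw [← heN]; exact exp_ne_zero _
  generalize exp (Real.pi * I * (-(1 / 2) + (n - 1 + 2 * l : ℕ) / M)) = w at hph ⊢
  have hq2 : qbin (rt M) k l = ek * S M k / ((el * S M l) * (ekl * S M (k - l))) := by
    rw [eq_div_iff (by positivity)]
    exact hq
  have hQ2 : (∏ i ∈ Finset.range (k + 1), (1 - rt M ^ (n - 1) * rt M ^ (l + i))) =
      eN * S M (l + (n - 2) + (k + 1)) / (en * S M (l + (n - 2))) := by
    rw [eq_div_iff (by positivity)]
    exact hQ
  rw [hq2, hQ2]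
  have hI : (1 : ℂ) / I = -I := by simp
  have hR : (S M k / (4 * Real.pi * I * (M : ℂ) ^ 2) : ℂ) =
      -I * (S M k / (4 * Real.pi * (M : ℂ) ^ 2)) := by
    rw [← hI]
    field_simp
  rw [hR]
  have hph2 : (-1) ^ l * rt M ^ (l * (l - 1) / 2) * ek * en * w * -1 / (el * ekl * eN) =
      Th n M k * -I * (-1) ^ (l' - 1 - k) := by
    rw [div_eq_iff (by positivity), hph]
    ring
  generalize exp (2 * Real.pi * I * p * M * (vl n M l : ℂ) ^ 2) = E
  generalize (2 * sin (2 * Real.pi * (vl n M l : ℂ)) : ℂ) = s0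
  generalize rt M ^ (l * (l - 1) / 2) = R at hph2 ⊢
  generalize ((-1 : ℂ)) ^ l = a at hph2 ⊢
  generalize ((-1 : ℂ)) ^ (l' - 1 - k) = b at hph2 ⊢
  have e1 : a * R * (c1 n M ^ p * E) *
      (ek * S M k / (el * S M l * (ekl * S M (k - l))) * (w * -s0) /
        (eN * S M (l + (n - 2) + (k + 1)) / (en * S M (l + (n - 2))))) =
      (a * R * ek * en * w * -1 / (el * ekl * eN)) * (c1 n M ^ p * E * s0 *
        (S M k * S M (l + (n - 2)) / (S M l * S M (k - l) * S M (l + (n - 2) + (k + 1))))) := by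
    field_simp
  rw [e1, hph2]
  field_simp
  ring


theorem NNall_tSing (p n M k l l' : ℕ) (hn : 2 ≤ n) (hM : 2 ≤ M) (hk : k + n ≤ M + 1)
    (hll : l + l' + n = M + 1) (h1 : l ≤ k) (h2 : l' ≤ k) :
    tSing p n M k l + tSing p n M k l' = 2 * Th n M k * c1 n M ^ p *
      (S M k / (4 * Real.pi * I * M)) * deriv (KK p n M (yk n M k)) (vl n M l) := by
  have hMr : (0 : ℝ) < M := by exact_mod_cast (by omega : 0 < M)
  have hMc : (M : ℂ) ≠ 0 := by exact_mod_cast (by omega : M ≠ 0)
  rw [deriv_KK p n M k l l' hn hM hk hll h1 h2]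
  have hv : vl n M l' = -vl n M l := NNall_vl n M l l' (by omega) hll
  have hNu : Nu p n M k l' = Nu p n M k l := by
    unfold Nu
    rw [hv]
    have e1 : k - l' = k + l + n - 1 - M := by omega
    have e2 : k + l' + n - 1 - M = k - l := by omega
    rw [e1, e2]
    push_cast
    rw [Terms_Bn_neg]
    ring_nf
  unfold tSing
  rw [hNu, hv]
  have hsin : Real.sin (2 * Real.pi * -vl n M l) = -Real.sin (2 * Real.pi * vl n M l) := by
    rw [← Real.sin_neg]; ring_nf
  have hcos : Real.cos (2 * Real.pi * -vl n M l) = Real.cos (2 * Real.pi * vl n M l) := by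
    rw [← Real.cos_neg]; ring_nf
  rw [hsin, hcos]
  have hd : (l : ℂ) - l' = 2 * M * (vl n M l : ℂ) := by
    have h3 : (l : ℝ) + l' + n = M + 1 := by exact_mod_cast hll
    have h5 : (l : ℝ) - l' = 2 * M * vl n M l := by
      unfold vl bt
      field_simp
      linarith
    exact_mod_cast h5
  have hpi : (Real.pi : ℂ) ≠ 0 := by exact_mod_cast Real.pi_ne_zero
  have hA : (S M k / (4 * Real.pi * I * M) : ℂ) * (4 * Real.pi) = -I * (S M k / M) := by
    have : I ^ 2 = -1 := Complex.I_sq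
    field_simp
    rw [this]
    ring_nf
  push_cast
  set s : ℂ := Complex.sin (2 * Real.pi * (vl n M l : ℂ))
  set c : ℂ := Complex.cos (2 * Real.pi * (vl n M l : ℂ))
  set N := Nu p n M k l
  set θ := Th n M k
  set v : ℂ := (vl n M l : ℂ)
  have hR : 2 * θ * c1 n M ^ p * (S M k / (4 * Real.pi * I * M) : ℂ) *
      (4 * Real.pi * N * (c + s * (2 * I * p * M * v - 1 / 2 * (Cs n M k l - Cs n M k l'))))
      = 2 * θ * c1 n M ^ p * ((S M k / (4 * Real.pi * I * M) : ℂ) * (4 * Real.pi)) *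
        (N * (c + s * (2 * I * p * M * v - 1 / 2 * (Cs n M k l - Cs n M k l')))) := by ring
  rw [hR, hA]
  linear_combination (-I * (2 * θ * c1 n M ^ p * (S M k / M) * N)) * (I * p * s) * hd

theorem NNall_twist (p n M k : ℕ) (hn : 2 ≤ n) (hM : 2 ≤ M) (hk : k + n ≤ M + 1) :
    twistCoeff (rt M ^ n) (rt M) p k =
      Th n M k * (c1 n M ^ p * (S M k / (4 * Real.pi * I * (M : ℂ) ^ 2))) *
        ∑ l ∈ Finset.range (M + 2 - n), deriv (NNall_F p n M k) (vl n M l) := by
  have hM0 : 0 < M := by omega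
  have hM' : (M : ℂ) ≠ 0 := by exact_mod_cast hM0.ne'
  have hpi : (Real.pi : ℂ) ≠ 0 := by exact_mod_cast Real.pi_ne_zero
  rw [twist_expand p n M k hn hM hk]
  set c := Th n M k * (c1 n M ^ p * (S M k / (4 * Real.pi * I * (M : ℂ) ^ 2))) with hc
  set D : ℕ → ℂ := fun l => deriv (NNall_F p n M k) (vl n M l) with hD
  set X : ℕ → ℂ := fun l => if k + l + n ≤ M then tReg p n M k l else tSing p n M k l with hX
  set Y : ℕ → ℂ := fun l => if l ≤ k then X l else 0 with hY
  have hDD : ∀ l l' : ℕ, l + l' + n = M + 1 → D l' = D l := by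
    intro l l' h
    simp only [hD]
    rw [NNall_vl n M l l' hM0 h]
    push_cast
    exact NNall_deriv_even p n M k hM0 _
  have hXY : ∑ l ∈ Finset.range (k + 1), X l = ∑ l ∈ Finset.range (M + 2 - n), Y l := by
    have h1 : ∑ l ∈ Finset.range (k + 1), X l = ∑ l ∈ Finset.range (k + 1), Y l := by
      refine Finset.sum_congr rfl fun l hl => ?_
      rw [Finset.mem_range] at hl
      simp only [hY]
      rw [if_pos (by omega)]
    rw [h1]
    refine Finset.sum_subset (by
      intro l hl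
      rw [Finset.mem_range] at hl ⊢
      omega) ?_
    intro l _ hl
    rw [Finset.mem_range] at hl
    simp only [hY]
    rw [if_neg (by omega)]
  have hsing : ∀ l l' : ℕ, l + l' + n = M + 1 → l ≤ k → l' ≤ k →
      X l + X l' = c * (D l + D l') := by
    intro l l' h a1 a2
    simp only [hX]
    rw [if_neg (by omega), if_neg (by omega), NNall_tSing p n M k l l' hn hM hk h a1 a2, hDD l l' h]
    simp only [hD, hc]
    rw [NNall_deriv_KK p n M k l l' hn hM0 (by omega) h a1 a2]
    field_simp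
    ring
  have hreg : ∀ l l' : ℕ, l + l' + n = M + 1 → l ≤ k → k < l' →
      X l = c * (D l + D l') := by
    intro l l' h a1 a2
    simp only [hX]
    rw [if_pos (by omega), NNall_tReg p n M k l l' hn hM0 h a1 a2, hDD l l' h]
    simp only [hD, hc]
    ring
  have hpair : ∀ l l' : ℕ, l + l' + n = M + 1 → Y l + Y l' = c * (D l + D l') := by
    intro l l' h
    simp only [hY]
    rcases Nat.lt_or_ge k l with a1 | a1
    · rcases Nat.lt_or_ge k l' with a2 | a2
      · rw [if_neg (by omega), if_neg (by omega), hDD l l' h]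
        simp only [hD]
        rw [NNall_deriv_zero p n M k l l' hn hM0 h a1 a2]
        ring
      · rw [if_neg (by omega), if_pos a2, hreg l' l (by omega) a2 a1]
        ring
    · rcases Nat.lt_or_ge k l' with a2 | a2
      · rw [if_pos a1, if_neg (by omega), hreg l l' h a1 a2]
        ring
      · rw [if_pos a1, if_pos a2, hsing l l' h a1 a2]
  have hYs : ∑ l ∈ Finset.range (M + 2 - n), Y (M + 2 - n - 1 - l) =
      ∑ l ∈ Finset.range (M + 2 - n), Y l := Finset.sum_range_reflect Y (M + 2 - n)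
  have hDs : ∑ l ∈ Finset.range (M + 2 - n), D (M + 2 - n - 1 - l) =
      ∑ l ∈ Finset.range (M + 2 - n), D l := Finset.sum_range_reflect D (M + 2 - n)
  have hsum : ∑ l ∈ Finset.range (M + 2 - n), (Y l + Y (M + 2 - n - 1 - l)) =
      ∑ l ∈ Finset.range (M + 2 - n), c * (D l + D (M + 2 - n - 1 - l)) := by
    refine Finset.sum_congr rfl fun l hl => ?_
    rw [Finset.mem_range] at hl
    exact hpair l _ (by omega)
  rw [Finset.sum_add_distrib, hYs, ← Finset.mul_sum, Finset.sum_add_distrib, hDs] at hsum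
  rw [hXY]
  linear_combination hsum / 2

theorem NNall_sn_conj (M : ℕ) (x : ℂ) : (starRingEnd ℂ) (sn M x) = sn M ((starRingEnd ℂ) x) := by
  unfold sn
  rw [map_mul, ← Complex.sin_conj]
  simp only [map_mul, map_div₀, Complex.conj_ofReal, map_natCast, map_ofNat]

theorem NNall_F_conj (r : ℤ) (n M k : ℕ) (v : ℂ) :
    (starRingEnd ℂ) (NNall_F r n M k ((starRingEnd ℂ) v)) = NNall_F (-r) n M k v := by
  unfold NNall_F
  have hlv : (starRingEnd ℂ) (lv n M ((starRingEnd ℂ) v)) = lv n M v := by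
    unfold lv
    simp only [map_mul, map_add, map_sub, map_div₀, map_one, Complex.conj_ofReal, map_natCast,
      map_ofNat, Complex.conj_conj]
  have hPr : (starRingEnd ℂ) (Pr n M k (lv n M ((starRingEnd ℂ) v))) = Pr n M k (lv n M v) := by
    unfold Pr
    rw [map_prod]
    refine Finset.prod_congr rfl fun i _ => ?_
    rw [map_neg, map_mul, NNall_sn_conj, NNall_sn_conj]
    simp only [map_add, map_sub, map_one, map_natCast, hlv]
  have hsin : (starRingEnd ℂ) (2 * Complex.sin (2 * Real.pi * (starRingEnd ℂ) v))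
      = 2 * Complex.sin (2 * Real.pi * v) := by
    rw [map_mul, ← Complex.sin_conj]
    simp only [map_mul, Complex.conj_ofReal, map_ofNat, Complex.conj_conj]
  have hexp : (starRingEnd ℂ) (exp (2 * Real.pi * I * r * M * (starRingEnd ℂ) v ^ 2))
      = exp (2 * Real.pi * I * ((-r : ℤ) : ℂ) * M * v ^ 2) := by
    rw [← Complex.exp_conj]
    congr 1
    simp only [map_mul, map_pow, Complex.conj_ofReal, map_natCast, map_ofNat, Complex.conj_conj,
      Complex.conj_I, map_intCast]
    push_cast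
    ring
  rw [map_mul, map_mul, hPr, hsin, hexp]

theorem NNall_deriv_conj (r : ℤ) (n M k : ℕ) (v : ℝ) :
    (starRingEnd ℂ) (deriv (NNall_F r n M k) v) = deriv (NNall_F (-r) n M k) v := by
  have h : NNall_F (-r) n M k = (starRingEnd ℂ) ∘ (NNall_F r n M k) ∘ (starRingEnd ℂ) := by
    funext z
    exact (NNall_F_conj r n M k z).symm
  have h2 := congrFun (deriv_conj_conj (𝕜 := ℂ) (f := NNall_F r n M k)) (v : ℂ)
  rw [h]
  simp only [Function.comp_apply, Complex.conj_ofReal] at h2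
  exact h2.symm

theorem nn_all (r : ℤ) (hr : r ≠ 0) (n M k : ℕ) (hn : 2 ≤ n) (hM : 2 ≤ M) (hk : k + n ≤ M + 1) :
    NN r n M k = c1 n M ^ r * (S M k / (4 * Real.pi * I * (M : ℂ) ^ 2)) *
      ∑ l ∈ Finset.range (M + 2 - n), deriv (fun v : ℂ =>
        exp (2 * Real.pi * I * r * M * v ^ 2) * (2 * sin (2 * Real.pi * v)) *
          Pr n M k (lv n M v)) (vl n M l) := by
  have hTh : (starRingEnd ℂ) (Th n M k) * Th n M k = 1 := by
    rw [mul_comm, Complex.mul_conj, Complex.normSq_eq_norm_sq, norm_Th]; simp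
  have hF : (fun v : ℂ => exp (2 * Real.pi * I * r * M * v ^ 2) * (2 * sin (2 * Real.pi * v)) *
          Pr n M k (lv n M v)) = NNall_F r n M k := rfl
  rw [hF]
  rcases lt_or_gt_of_ne hr with h | h
  · obtain ⟨p, hp⟩ : ∃ p : ℕ, r = -(p : ℤ) := ⟨(-r).toNat, by omega⟩
    have e : (-r).toNat = p := by omega
    unfold NN
    rw [if_neg (by omega), e, NNall_twist p n M k hn hM hk, map_mul, map_mul, map_mul, map_sum]
    have hc : (starRingEnd ℂ) (c1 n M ^ p) = c1 n M ^ r := by
      have h5 : (starRingEnd ℂ) (c1 n M) = (c1 n M)⁻¹ := by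
        rw [Complex.inv_def, Complex.normSq_eq_norm_sq, norm_c1]; simp
      rw [map_pow, h5, hp, zpow_neg, zpow_natCast, inv_pow]
    have hS : (starRingEnd ℂ) (S M k / (4 * Real.pi * I * (M : ℂ) ^ 2)) =
        -(S M k / (4 * Real.pi * I * (M : ℂ) ^ 2)) := by
      simp only [map_div₀, map_mul, map_pow, Complex.conj_ofReal, map_ofNat, Complex.conj_I,
        map_natCast]
      rw [show (4 * (Real.pi : ℂ) * -I * (M : ℂ) ^ 2) = -(4 * Real.pi * I * (M : ℂ) ^ 2) by ring,
        div_neg]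
    have hs : ∑ l ∈ Finset.range (M + 2 - n),
        (starRingEnd ℂ) (deriv (NNall_F p n M k) (vl n M l)) =
        ∑ l ∈ Finset.range (M + 2 - n), deriv (NNall_F r n M k) (vl n M l) := by
      refine Finset.sum_congr rfl fun l _ => ?_
      rw [NNall_deriv_conj, ← hp]
    rw [hc, hS, hs]
    linear_combination (c1 n M ^ r * (S M k / (4 * Real.pi * I * (M : ℂ) ^ 2)) *
      ∑ l ∈ Finset.range (M + 2 - n), deriv (NNall_F r n M k) (vl n M l)) * hTh
  · obtain ⟨p, hp⟩ : ∃ p : ℕ, r = (p : ℤ) := ⟨r.toNat, by omega⟩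
    have e : r.toNat = p := by omega
    unfold NN
    rw [if_pos (by omega), e, NNall_twist p n M k hn hM hk]
    have hc : c1 n M ^ r = c1 n M ^ p := by rw [hp, zpow_natCast]
    rw [hc, hp]
    linear_combination (c1 n M ^ p * (S M k / (4 * Real.pi * I * (M : ℂ) ^ 2)) *
      ∑ l ∈ Finset.range (M + 2 - n), deriv (NNall_F p n M k) (vl n M l)) * hTh

end Pool.Agent.H63.TW
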