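import Pool.Agent.H63.TW.Defs

/-! # The recurrence of the clasp coefficient -/

namespace Pool.Agent.H63.TW

open Pool.Agent.H63.VC Pool.Agent.H63.VC3 Complex
open scoped BigOperators

private lemma RecP_qp_add (M : ℕ) (x y : ℂ) : qp M (x + y) = qp M x * qp M y := by
  unfold qp
  rw [← Complex.exp_add]
  congr 1
  ring

private lemma RecP_qp_ne (M : ℕ) (x : ℂ) : qp M x ≠ 0 := Complex.exp_ne_zero _

private lemma RecP_qp_neg (M : ℕ) (x : ℂ) : qp M (-x) = (qp M x)⁻¹ := by
  unfold qp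
  rw [← Complex.exp_neg]
  congr 1
  ring

private noncomputable def RecP_sg (M : ℕ) (x : ℂ) : ℂ := qp M x - qp M (-x)

private lemma RecP_sn (M : ℕ) (x : ℂ) : sn M x = -I * RecP_sg M x := by
  unfold sn RecP_sg qp
  rw [Complex.sin]
  have e1 : -(Real.pi * x / M) * I = Real.pi * I * (-x) / M := by ring
  have e2 : Real.pi * x / M * I = Real.pi * I * x / M := by ring
  rw [e1, e2]
  ring

private lemma RecP_s2 (M : ℕ) (a b : ℂ) : sn M a * sn M b = -(RecP_sg M a * RecP_sg M b) := by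
  rw [RecP_sn, RecP_sn]
  linear_combination (RecP_sg M a * RecP_sg M b) * I_mul_I

private lemma RecP_s3 (M : ℕ) (a b c : ℂ) :
    sn M a * sn M b * sn M c = I * (RecP_sg M a * RecP_sg M b * RecP_sg M c) := by
  rw [RecP_sn, RecP_sn, RecP_sn]
  linear_combination (-I * RecP_sg M a * RecP_sg M b * RecP_sg M c) * I_mul_I

private lemma RecP_s4 (M : ℕ) (a b c d : ℂ) :
    sn M a * sn M b * sn M c * sn M d = RecP_sg M a * RecP_sg M b * RecP_sg M c * RecP_sg M d := by
  rw [RecP_sn, RecP_sn, RecP_sn, RecP_sn]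
  linear_combination (RecP_sg M a * RecP_sg M b * RecP_sg M c * RecP_sg M d * (I * I - 1)) * I_mul_I

/-- the reduced identity -/
private lemma RecP_small (K L N G Q : ℂ) (hK : K ≠ 0) (hL : L ≠ 0) (hN : N ≠ 0) (hG : G ≠ 0) (hQ : Q ≠ 0) :
    (L * N / Q ^ 2) * (K * L * N) *
        ((L * N / G - (L * N / G)⁻¹) * (L * G - (L * G)⁻¹) * (L * Q - (L * Q)⁻¹)) * (K * Q / L - (K * Q / L)⁻¹) +
      (L * Q)⁻¹ * (K * Q / L) *
        ((L * G / Q - (L * G / Q)⁻¹) * (L * N / G / Q - (L * N / G / Q)⁻¹) * (L * N / Q ^ 2 - (L * N / Q ^ 2)⁻¹)) *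
        (K * L * N - (K * L * N)⁻¹) -
      (-(G ^ 2 / N) - N / G ^ 2 - N / Q ^ 2 + Q ^ 2 / L ^ 2 / N + L ^ 2 * N) *
        (L ^ 2 * N / Q - (L ^ 2 * N / Q)⁻¹) * (K * L * N - (K * L * N)⁻¹) * (K * Q / L - (K * Q / L)⁻¹) =
    (K * Q ^ 2)⁻¹ * (L ^ 2 * N / Q - (L ^ 2 * N / Q)⁻¹) *
        ((K * G - (K * G)⁻¹) * (K * N / G - (K * N / G)⁻¹) * (K * N / Q - (K * N / Q)⁻¹)) +
      (N * K ^ 2)⁻¹ * (L ^ 2 * N / Q - (L ^ 2 * N / Q)⁻¹) * (K * L * N - (K * L * N)⁻¹) *
        (K * Q / L - (K * Q / L)⁻¹) := by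
  field_simp
  ring

/-- the identity for the terms, with `k` a complex number -/
private lemma RecP_key (n g M : ℕ) (k l : ℂ) :
    -Ap n g M l * (sn M (k - l) * sn M (k + 1 - l)) + A0 n g M l * (sn M (k + l + n) * sn M (k + 1 - l)) -
      Am n g M l * (sn M (k + l + n - 1) * sn M (k + l + n)) =
    qp M (-n) * (sn M (2 * l + n - 2) * sn M (2 * l + n - 1) * sn M (2 * l + n)) *
      (-(I * qp M (n - k - 2)) * (sn M (k + g) * sn M (k + n - g) * sn M (k + n - 1)) -
        qp M (-(2 * k)) * (sn M (k + l + n) * sn M (k + 1 - l))) := by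
  unfold Ap A0 Am
  rw [RecP_s4 M (l + n - g) (l + g) (l + 1) (2 * l + n - 2), RecP_s4 M (l + g - 1) (l + n - g - 1) (l + n - 2) (2 * l + n),
    RecP_s3 M (2 * l + n - 2) (2 * l + n - 1) (2 * l + n), RecP_s3 M (k + g) (k + n - g) (k + n - 1),
    RecP_s2 M (k - l) (k + 1 - l), RecP_s2 M (k + l + n) (k + 1 - l), RecP_s2 M (k + l + n - 1) (k + l + n)]
  have hK := RecP_qp_ne M k
  have hL := RecP_qp_ne M l
  have hN := RecP_qp_ne M n
  have hG := RecP_qp_ne M g
  have hQ := RecP_qp_ne M 1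
  set K := qp M k with eK
  set L := qp M l with eL
  set N := qp M n with eN
  set G := qp M g with eG
  set Q := qp M 1 with eQ
  have sg : ∀ x y : ℂ, qp M x = y → RecP_sg M x = y - y⁻¹ := by
    intro x y h
    unfold RecP_sg
    rw [RecP_qp_neg, h]
  have h2 : ∀ x y : ℂ, qp M (x - y) = qp M x / qp M y := by
    intro x y
    rw [sub_eq_add_neg, RecP_qp_add, RecP_qp_neg, div_eq_mul_inv]
  have hd : ∀ x : ℂ, qp M (2 * x) = qp M x ^ 2 := by
    intro x
    rw [two_mul, RecP_qp_add, sq]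
  have ht : ∀ x : ℂ, qp M (3 * x) = qp M x ^ 3 := by
    intro x
    rw [show 3 * x = x + x + x by ring, RecP_qp_add, RecP_qp_add]
    ring
  have q2 : qp M 2 = Q ^ 2 := by rw [eQ, ← hd]; norm_num
  -- the values
  have a1 : qp M (l + n - g) = L * N / G := by rw [h2, RecP_qp_add]
  have a2 : qp M (l + g) = L * G := RecP_qp_add _ _ _
  have a3 : qp M (l + 1) = L * Q := RecP_qp_add _ _ _
  have a4 : qp M (2 * l + n - 2) = L ^ 2 * N / Q ^ 2 := by rw [h2, RecP_qp_add, hd, q2]
  have b1 : qp M (l + g - 1) = L * G / Q := by rw [h2, RecP_qp_add]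
  have b2 : qp M (l + n - g - 1) = L * N / G / Q := by rw [h2, h2, RecP_qp_add]
  have b3 : qp M (l + n - 2) = L * N / Q ^ 2 := by rw [h2, RecP_qp_add, q2]
  have b4 : qp M (2 * l + n) = L ^ 2 * N := by rw [RecP_qp_add, hd]
  have c1 : qp M (2 * l + n - 1) = L ^ 2 * N / Q := by rw [h2, RecP_qp_add, hd]
  have d1 : qp M (k + g) = K * G := RecP_qp_add _ _ _
  have d2 : qp M (k + n - g) = K * N / G := by rw [h2, RecP_qp_add]
  have d3 : qp M (k + n - 1) = K * N / Q := by rw [h2, RecP_qp_add]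
  have e1 : qp M (k - l) = K / L := h2 _ _
  have e2 : qp M (k + 1 - l) = K * Q / L := by rw [h2, RecP_qp_add]
  have e3 : qp M (k + l + n) = K * L * N := by rw [RecP_qp_add, RecP_qp_add]
  have e4 : qp M (k + l + n - 1) = K * L * N / Q := by rw [h2, RecP_qp_add, RecP_qp_add]
  have f1 : qp M (3 * l + 2 * n - 2) = L ^ 3 * N ^ 2 / Q ^ 2 := by rw [h2, RecP_qp_add, ht, hd, q2]
  have f2 : qp M (1 - 3 * l - n) = Q / L ^ 3 / N := by rw [h2, h2, ht]
  have f3 : qp M (-l - 1) = (L * Q)⁻¹ := by rw [h2, RecP_qp_neg, mul_inv, div_eq_mul_inv]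
  have f4 : qp M (2 * g - n) = G ^ 2 / N := by rw [h2, hd]
  have f5 : qp M (n - 2 * g) = N / G ^ 2 := by rw [h2, hd]
  have f6 : qp M ((n : ℂ) - 2) = N / Q ^ 2 := by rw [h2, q2]
  have f7 : qp M (2 - 2 * l - n) = Q ^ 2 / L ^ 2 / N := by rw [h2, h2, hd, q2]
  have f8 : qp M (n - k - 2) = N / K / Q ^ 2 := by rw [h2, h2, q2]
  have f9 : qp M (-n) = N⁻¹ := RecP_qp_neg _ _
  have f10 : qp M (-(2 * k)) = (K ^ 2)⁻¹ := by rw [RecP_qp_neg, hd]
  rw [b3, b4, f1, f2, f3, f4, f5, f6, f7, f8, f9, f10]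
  have g4 := sg _ _ a4
  have g5 := sg _ _ b4
  have g6 := sg _ _ e1
  have g7 := sg _ _ e2
  have g8 := sg _ _ e3
  have g9 := sg _ _ e4
  have hs := RecP_small K L N G Q hK hL hN hG hQ
  rw [← sg _ _ a1, ← sg _ _ a2, ← sg _ _ a3, ← sg _ _ b1, ← sg _ _ b2, ← sg _ _ b3, ← sg _ _ c1, ← sg _ _ d1,
    ← sg _ _ d2, ← sg _ _ d3, ← g7, ← g8] at hs
  have k1 : L ^ 2 * N * RecP_sg M (k + l + n) - RecP_sg M (k - l) = K * L * N * RecP_sg M (2 * l + n) := by
    rw [g5, g6, g8]
    field_simp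
    ring
  have k2 : RecP_sg M (k + l + n - 1) - Q ^ 2 / L ^ 2 / N * RecP_sg M (k + 1 - l) =
      K * Q / L * RecP_sg M (2 * l + n - 2) := by
    rw [g4, g7, g9]
    field_simp
    ring
  have k3 : L ^ 3 * N ^ 2 / Q ^ 2 = L * N / Q ^ 2 * (L ^ 2 * N) := by ring
  have k4 : Q / L ^ 3 / N = (L * Q)⁻¹ * (Q ^ 2 / L ^ 2 / N) := by
    field_simp
  have k5 : N⁻¹ * (N / K / Q ^ 2) = (K * Q ^ 2)⁻¹ := by
    field_simp
  have k6 : N⁻¹ * (K ^ 2)⁻¹ = (N * K ^ 2)⁻¹ := by rw [mul_inv]
  rw [k3, k4]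
  generalize RecP_sg M (l + n - g) = x1 at *
  generalize RecP_sg M (l + g) = x2 at *
  generalize RecP_sg M (l + 1) = x3 at *
  generalize RecP_sg M (2 * l + n - 2) = x4 at *
  generalize RecP_sg M (l + g - 1) = y1 at *
  generalize RecP_sg M (l + n - g - 1) = y2 at *
  generalize RecP_sg M (l + n - 2) = y3 at *
  generalize RecP_sg M (2 * l + n) = y4 at *
  generalize RecP_sg M (2 * l + n - 1) = z1 at *
  generalize RecP_sg M (k + g) = w1 at *
  generalize RecP_sg M (k + n - g) = w2 at *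
  generalize RecP_sg M (k + n - 1) = w3 at *
  generalize RecP_sg M (k - l) = t1 at *
  generalize RecP_sg M (k + 1 - l) = t2 at *
  generalize RecP_sg M (k + l + n) = t3 at *
  generalize RecP_sg M (k + l + n - 1) = t4 at *
  linear_combination (I * (L * N / Q ^ 2) * (x1 * x2 * x3 * x4) * t2) * k1 +
    (I * (L * Q)⁻¹ * (y1 * y2 * y3 * y4) * t3) * k2 + (I * x4 * y4) * hs +
    (x4 * z1 * y4 * w1 * w2 * w3 * I) * k5 * (-1) + (I * x4 * z1 * y4 * t3 * t2) * k6 +
    (N⁻¹ * (x4 * z1 * y4) * (N / K / Q ^ 2) * (w1 * w2 * w3) * I) * I_mul_I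

private lemma RecP_sn_add_M {M : ℕ} (hM : 0 < M) (x : ℂ) : sn M (x + M) = -sn M x := by
  unfold sn
  have hM' : (M : ℂ) ≠ 0 := by exact_mod_cast hM.ne'
  have e : Real.pi * (x + M) / M = Real.pi * x / M + Real.pi := by
    field_simp
  rw [e, Complex.sin_add_pi]
  ring

private lemma RecP_sn_M_sub {M : ℕ} (hM : 0 < M) (x : ℂ) : sn M (M - x) = sn M x := by
  unfold sn
  have hM' : (M : ℂ) ≠ 0 := by exact_mod_cast hM.ne'
  have e : Real.pi * (M - x) / M = Real.pi - Real.pi * x / M := by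
    field_simp
  rw [e, Complex.sin_pi_sub]

private lemma RecP_Pr_succ (n M k : ℕ) (hk : k + 1 < M) (l : ℂ) :
    Pr n M k l = -(sn M (k + 1 - l) * sn M (k + l + n)) * Pr n M (k + 1) l := by
  unfold Pr
  rw [Finset.prod_eq_prod_Ico_succ_bot hk]
  push_cast
  rw [show (k : ℂ) + 1 + l + n - 1 = k + l + n by ring]

private lemma RecP_Pr_end (n M k : ℕ) (hk : k + 1 = M) (l : ℂ) : Pr n M k l = 1 := by
  unfold Pr
  rw [hk, Finset.Ico_self, Finset.prod_empty]

private lemma RecP_up (n M : ℕ) (l : ℂ) : ∀ j k : ℕ, k + 1 + j = M →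
    sn M (l + 1) * sn M (k + l + n) * Pr n M k (l + 1) = -(sn M (k - l) * sn M (l + n - 1)) * Pr n M k l := by
  intro j
  induction j with
  | zero =>
    intro k hk
    have hM : 0 < M := by omega
    have hkM : (k : ℂ) = M - 1 := by
      rw [← hk]
      push_cast
      ring
    rw [RecP_Pr_end n M k (by omega), RecP_Pr_end n M k (by omega), hkM,
      show (M : ℂ) - 1 + l + n = (l + n - 1) + M by ring, RecP_sn_add_M hM,
      show (M : ℂ) - 1 - l = M - (l + 1) by ring, RecP_sn_M_sub hM]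
    ring
  | succ j ih =>
    intro k hk
    have h := ih (k + 1) (by omega)
    rw [RecP_Pr_succ n M k (by omega) l, RecP_Pr_succ n M k (by omega) (l + 1)]
    push_cast at h
    rw [show (k : ℂ) + 1 - (l + 1) = k - l by ring, show (k : ℂ) + (l + 1) + n = k + 1 + l + n by ring]
    linear_combination (-sn M (k + l + n) * sn M (k - l)) * h

private lemma RecP_down (n M : ℕ) (l : ℂ) : ∀ j k : ℕ, k + 1 + j = M →
    sn M (l + n - 2) * sn M (k + 1 - l) * Pr n M k (l - 1) = -(sn M l * sn M (k + l + n - 1)) * Pr n M k l := by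
  intro j
  induction j with
  | zero =>
    intro k hk
    have hM : 0 < M := by omega
    have hkM : (k : ℂ) = M - 1 := by
      rw [← hk]
      push_cast
      ring
    rw [RecP_Pr_end n M k (by omega), RecP_Pr_end n M k (by omega), hkM,
      show (M : ℂ) - 1 + l + n - 1 = (l + n - 2) + M by ring, RecP_sn_add_M hM,
      show (M : ℂ) - 1 + 1 - l = M - l by ring, RecP_sn_M_sub hM]
    ring
  | succ j ih =>
    intro k hk
    have h := ih (k + 1) (by omega)
    rw [RecP_Pr_succ n M k (by omega) l, RecP_Pr_succ n M k (by omega) (l - 1)]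
    push_cast at h
    rw [show (k : ℂ) + 1 + l + n - 1 = k + l + n by ring] at h
    rw [show (k : ℂ) + 1 - (l - 1) = k + 1 + 1 - l by ring, show (k : ℂ) + (l - 1) + n = k + l + n - 1 by ring]
    linear_combination (-sn M (k + 1 - l) * sn M (k + l + n - 1)) * h

private lemma RecP_S_succ (M k : ℕ) : ((S M (k + 1) : ℝ) : ℂ) = S M k * sn M ((k + 1 : ℕ) : ℂ) := by
  unfold S
  rw [Finset.prod_Ico_succ_top (by omega)]
  push_cast
  congr 1
  unfold sg sn
  push_cast
  rfl

private lemma RecP_BC_succ (n g M k : ℕ) (hg : 1 ≤ g) (hgn : g + 1 ≤ n) :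
    BC n g M (k + 1) = BC n g M k * (sn M (k + g) * sn M (k + n - g) * sn M (k + n - 1)) := by
  unfold BC
  obtain ⟨g', rfl⟩ : ∃ g', g = g' + 1 := ⟨g - 1, by omega⟩
  obtain ⟨m, rfl⟩ : ∃ m, n = g' + 2 + m := ⟨n - g' - 2, by omega⟩
  rw [show k + 1 + (g' + 1) - 1 = (k + (g' + 1) - 1) + 1 by omega,
    show k + 1 + (g' + 2 + m) - (g' + 1) - 1 = (k + (g' + 2 + m) - (g' + 1) - 1) + 1 by omega,
    show k + 1 + (g' + 2 + m) - 2 = (k + (g' + 2 + m) - 2) + 1 by omega]
  push_cast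
  rw [RecP_S_succ, RecP_S_succ, RecP_S_succ]
  have e1 : ((k + (g' + 1) - 1 + 1 : ℕ) : ℂ) = k + (g' + 1) := by
    rw [show k + (g' + 1) - 1 + 1 = k + (g' + 1) by omega]
    push_cast
    ring
  have e2 : ((k + (g' + 2 + m) - (g' + 1) - 1 + 1 : ℕ) : ℂ) = k + (g' + 2 + m) - (g' + 1) := by
    rw [show k + (g' + 2 + m) - (g' + 1) - 1 + 1 = k + m + 1 by omega]
    push_cast
    ring
  have e3 : ((k + (g' + 2 + m) - 2 + 1 : ℕ) : ℂ) = k + (g' + 2 + m) - 1 := by
    rw [show k + (g' + 2 + m) - 2 + 1 = k + g' + m + 1 by omega]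
    push_cast
    ring
  rw [e1, e2, e3]
  ring

private lemma RecP_Th_succ (n M k : ℕ) :
    (starRingEnd ℂ) (Th n M (k + 1)) = I * qp M (k + n) * (starRingEnd ℂ) (Th n M k) := by
  have h : Th n M (k + 1) = -I * qp M (-(k + n)) * Th n M k := by
    unfold Th qp
    rw [show n + (k + 1) + M = (n + k + M) + 1 by ring, pow_succ (-1 : ℂ), pow_succ I]
    have e : -(Real.pi * I / M) * (((k + 1 : ℕ) : ℂ) * (n - 1) + ((k + 1 : ℕ) : ℂ) * (((k + 1 : ℕ) : ℂ) + 1) / 2) =
        Real.pi * I * (-(k + n)) / M + -(Real.pi * I / M) * (k * (n - 1) + k * (k + 1) / 2) := by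
      push_cast
      ring
    rw [e, Complex.exp_add]
    ring
  rw [h, map_mul, map_mul, map_neg, conj_I, neg_neg]
  congr 2
  unfold qp
  rw [← Complex.exp_conj]
  congr 1
  simp only [map_div₀, map_mul, map_neg, map_add, map_natCast, conj_I, conj_ofReal]
  ring

private noncomputable def RecP_t (n g M k : ℕ) (l : ℂ) : ℂ := BC n g M k * (starRingEnd ℂ) (Th n M k) * Pr n M k l

private lemma RecP_cont_sn (M : ℕ) {f : ℂ → ℂ} (hf : Continuous f) : Continuous (fun l => sn M (f l)) := by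
  unfold sn
  exact continuous_const.mul (Complex.continuous_sin.comp ((continuous_const.mul hf).div_const _))

private lemma RecP_cont_qp (M : ℕ) {f : ℂ → ℂ} (hf : Continuous f) : Continuous (fun l => qp M (f l)) := by
  unfold qp
  exact Complex.continuous_exp.comp ((continuous_const.mul hf).div_const _)

private lemma RecP_cont_Pr (n M k : ℕ) : Continuous (fun l => Pr n M k l) := by
  unfold Pr
  refine continuous_finset_prod _ (fun i _ => ?_)
  exact ((RecP_cont_sn M (by fun_prop)).mul (RecP_cont_sn M (by fun_prop))).neg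

private lemma RecP_zeros {M : ℕ} (hM : 0 < M) (e c : ℂ) (he : e ≠ 0) : {l : ℂ | sn M (e * l + c) = 0}.Countable := by
  have hM' : (M : ℂ) ≠ 0 := by exact_mod_cast hM.ne'
  have hpi : (Real.pi : ℂ) ≠ 0 := by exact_mod_cast Real.pi_ne_zero
  refine (Set.countable_range (fun m : ℤ => ((m : ℂ) * M - c) / e)).mono ?_
  intro l hl
  rw [Set.mem_setOf_eq] at hl
  unfold sn at hl
  have h1 : Complex.sin (Real.pi * (e * l + c) / M) = 0 := by
    rcases mul_eq_zero.1 hl with h | h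
    · norm_num at h
    · exact h
  rw [Complex.sin_eq_zero_iff] at h1
  obtain ⟨m, hm⟩ := h1
  refine ⟨m, ?_⟩
  have h2 : e * l + c = m * M := by
    field_simp at hm
    linear_combination hm
  simp only
  rw [← h2]
  field_simp
  ring

/-- the term identity -/
private lemma RecP_term (n g M k : ℕ) (hg : 1 ≤ g) (hgn : g + 1 ≤ n) (hM : n + 1 ≤ M) (hk : k + n ≤ M + 1) (l : ℂ) :
    Ap n g M l * (sn M (l + 1) * sn M l) * RecP_t n g M k (l + 1) +
      A0 n g M l * (sn M (l + n - 1) * sn M l) * RecP_t n g M k l +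
      Am n g M l * (sn M (l + n - 2) * sn M (l + n - 1)) * RecP_t n g M k (l - 1) =
    qp M (-n) * (sn M (2 * l + n - 2) * sn M (2 * l + n - 1) * sn M (2 * l + n)) *
      (sn M l * sn M (l + n - 1)) *
      (qp M (-(2 * (k + 1 : ℕ))) * RecP_t n g M (k + 1) l - qp M (-(2 * k)) * RecP_t n g M k l) := by
  have hM0 : 0 < M := by omega
  have hcount := (RecP_zeros hM0 1 (k + n) one_ne_zero).union (RecP_zeros hM0 (-1) (k + 1) (by norm_num))
  have hdense := Set.Countable.dense_compl ℝ hcount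
  suffices hfun : (fun l : ℂ => Ap n g M l * (sn M (l + 1) * sn M l) * RecP_t n g M k (l + 1) +
      A0 n g M l * (sn M (l + n - 1) * sn M l) * RecP_t n g M k l +
      Am n g M l * (sn M (l + n - 2) * sn M (l + n - 1)) * RecP_t n g M k (l - 1)) =
    fun l : ℂ => qp M (-n) * (sn M (2 * l + n - 2) * sn M (2 * l + n - 1) * sn M (2 * l + n)) *
      (sn M l * sn M (l + n - 1)) *
      (qp M (-(2 * (k + 1 : ℕ))) * RecP_t n g M (k + 1) l - qp M (-(2 * k)) * RecP_t n g M k l) from congrFun hfun l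
  refine Continuous.ext_on hdense ?_ ?_ ?_
  · unfold RecP_t Ap A0 Am
    have c1 := RecP_cont_Pr n M k
    have c2 : Continuous (fun l => Pr n M k (l + 1)) := c1.comp (by fun_prop)
    have c3 : Continuous (fun l => Pr n M k (l - 1)) := c1.comp (by fun_prop)
    unfold sn qp
    fun_prop
  · unfold RecP_t
    have c1 := RecP_cont_Pr n M k
    have c2 := RecP_cont_Pr n M (k + 1)
    unfold sn qp
    fun_prop
  · intro l hl
    rw [Set.mem_compl_iff, Set.mem_union, not_or, Set.mem_setOf_eq, Set.mem_setOf_eq] at hl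
    obtain ⟨h1, h2⟩ := hl
    rw [show 1 * l + ((k : ℂ) + n) = k + l + n by ring] at h1
    rw [show -1 * l + ((k : ℂ) + 1) = k + 1 - l by ring] at h2
    obtain ⟨j, hj⟩ : ∃ j, k + 1 + j = M := ⟨M - (k + 1), by omega⟩
    have hup := RecP_up n M l j k hj
    have hdown := RecP_down n M l j k hj
    have hkey := RecP_key n g M k l
    -- the next term
    have hnext : sn M (k + l + n) * sn M (k + 1 - l) * (qp M (-(2 * (k + 1 : ℕ))) * RecP_t n g M (k + 1) l) =
        -(I * qp M (n - k - 2)) * (sn M (k + g) * sn M (k + n - g) * sn M (k + n - 1)) * RecP_t n g M k l := by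
      unfold RecP_t
      rw [RecP_BC_succ n g M k hg hgn, RecP_Th_succ]
      have hq : qp M (-(2 * (k + 1 : ℕ))) * qp M (k + n) = qp M (n - k - 2) := by
        rw [← RecP_qp_add]
        congr 1
        push_cast
        ring
      rw [← hq]
      rcases Nat.lt_or_ge (k + 1) M with h3 | h3
      · rw [RecP_Pr_succ n M k h3 l]
        ring
      · have h4 : sn M (k + n - 1) = 0 := by
          have h5 : k + n = M + 1 := by omega
          have h6 : (k : ℂ) + n - 1 = 0 + M := by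
            have : ((k + n : ℕ) : ℂ) = ((M + 1 : ℕ) : ℂ) := by rw [h5]
            push_cast at this
            linear_combination this
          rw [h6, RecP_sn_add_M hM0]
          unfold sn
          simp
        rw [h4]
        ring
    apply mul_left_cancel₀ (mul_ne_zero h1 h2)
    simp only
    have ht : RecP_t n g M k l = BC n g M k * (starRingEnd ℂ) (Th n M k) * Pr n M k l := rfl
    have ht1 : RecP_t n g M k (l + 1) = BC n g M k * (starRingEnd ℂ) (Th n M k) * Pr n M k (l + 1) := rfl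
    have ht2 : RecP_t n g M k (l - 1) = BC n g M k * (starRingEnd ℂ) (Th n M k) * Pr n M k (l - 1) := rfl
    rw [ht1, ht2]
    generalize RecP_t n g M (k + 1) l = tk at *
    rw [ht] at hnext ⊢
    generalize BC n g M k * (starRingEnd ℂ) (Th n M k) = B at *
    linear_combination (Ap n g M l * sn M l * sn M (k + 1 - l) * B) * hup +
      (Am n g M l * sn M (l + n - 1) * sn M (k + l + n) * B) * hdown +
      (sn M l * sn M (l + n - 1) * B * Pr n M k l) * hkey -
      (qp M (-n) * (sn M (2 * l + n - 2) * sn M (2 * l + n - 1) * sn M (2 * l + n)) *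
      (sn M l * sn M (l + n - 1))) * hnext

theorem rec_P (n g M : ℕ) (hg : 1 ≤ g) (hgn : g + 1 ≤ n) (hM : n + 1 ≤ M) (l : ℂ) :
    Ap n g M l * (sn M (l + 1) * sn M l) * PP n g M (l + 1) +
      A0 n g M l * (sn M (l + n - 1) * sn M l) * PP n g M l +
      Am n g M l * (sn M (l + n - 2) * sn M (l + n - 1)) * PP n g M (l - 1) =
    -(qp M (-n) * (sn M (2 * l + n - 2) * sn M (2 * l + n - 1) * sn M (2 * l + n)) *
      (sn M l * sn M (l + n - 1)) *
      (BC n g M 0 * (starRingEnd ℂ) (Th n M 0) * Pr n M 0 l)) := by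
  have hsum := Finset.sum_congr rfl (fun k (hk : k ∈ Finset.range (M + 2 - n)) =>
    RecP_term n g M k hg hgn hM (by rw [Finset.mem_range] at hk; omega) l)
  rw [Finset.sum_add_distrib, Finset.sum_add_distrib, ← Finset.mul_sum, ← Finset.mul_sum, ← Finset.mul_sum,
    ← Finset.mul_sum, Finset.sum_range_sub (fun k => qp M (-(2 * (k : ℕ))) * RecP_t n g M k l)] at hsum
  have hlast : RecP_t n g M (M + 2 - n) l = 0 := by
    unfold RecP_t BC
    have h1 : S M (M + 2 - n + n - 2) = 0 := by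
      rw [show M + 2 - n + n - 2 = M by omega]
      unfold S
      apply Finset.prod_eq_zero (i := M) (by rw [Finset.mem_Ico]; omega)
      unfold sg
      have hM' : (M : ℝ) ≠ 0 := by
        have : 0 < M := by omega
        exact_mod_cast this.ne'
      rw [mul_div_assoc, div_self hM', mul_one, Real.sin_pi, mul_zero]
    rw [h1]
    simp
  rw [hlast] at hsum
  have hq0 : qp M (-(2 * ((0 : ℕ) : ℂ))) = 1 := by
    unfold qp
    simp
  rw [hq0] at hsum
  unfold PP
  have e0 : RecP_t n g M 0 l = BC n g M 0 * (starRingEnd ℂ) (Th n M 0) * Pr n M 0 l := rfl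
  rw [e0] at hsum
  unfold RecP_t at hsum
  rw [hsum]
  ring

end Pool.Agent.H63.TW
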